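import Pool.Agent.Lib.MP_9177b7_ag.S4.Quad

/-!
Ideals in a dihedral field of degree eight.
-/

open NumberField Module
open scoped nonZeroDivisors

set_option linter.unusedSectionVars false

noncomputable section

namespace Pool.Agent.Lib.MP_9177b7_ag.S4.Alg

open B Quad

variable {N E L F K : Type} [Field N] [Field E] [Field L] [Field F] [Field K] [NumberField N]
  [NumberField E] [NumberField L] [NumberField F] [NumberField K] [Algebra F E] [Algebra E N]
  [Algebra K L] [Algebra L N]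

/-- The inclusion of rings of integers. -/
abbrev iO (A B : Type) [Field A] [Field B] [Algebra A B] : 𝓞 A →+* 𝓞 B := algebraMap _ _

/-- A dihedral tower. -/
structure Tw (r s c : N ≃ₐ[ℚ] N) (cE : E ≃ₐ[F] E) (cL : L ≃ₐ[K] L) (τ : F ≃ₐ[ℚ] F)
    (υ : K ≃ₐ[ℚ] K) : Prop where
  rr : ∀ x, r (r x) = x
  ss : ∀ x, s (s x) = x
  cc : ∀ x, c (c x) = x
  rc : ∀ x, r (c x) = c (r x)
  sc : ∀ x, s (c x) = c (s x)
  sr : ∀ x, s (r x) = c (r (s x))
  fixE : ∀ x, s x = x ↔ x ∈ Set.range (algebraMap E N)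
  fixL : ∀ x, r x = x ↔ x ∈ Set.range (algebraMap L N)
  hE : ∀ y, algebraMap E N (cE y) = c (algebraMap E N y)
  hL : ∀ y, algebraMap L N (cL y) = c (algebraMap L N y)
  hF : ∀ y, algebraMap E N (algebraMap F E (τ y)) = r (algebraMap E N (algebraMap F E y))
  hK : ∀ y, algebraMap L N (algebraMap K L (υ y)) = s (algebraMap L N (algebraMap K L y))
  dF : finrank ℚ F = 2
  dK : finrank ℚ K = 2
  dE : finrank F E = 2
  dL : finrank K L = 2
  dEN : finrank E N = 2
  dLN : finrank L N = 2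
  nE : cE ≠ 1
  nL : cL ≠ 1
  nF : τ ≠ 1
  nK : υ ≠ 1

/-- The ideal generated by the differences `y - r y`, `y ∈ O_E`. -/
def m0 (E : Type) [Field E] [Algebra E N] (r : N ≃ₐ[ℚ] N) : Ideal (𝓞 N) :=
  Ideal.span (Set.range fun y : 𝓞 E => algebraMap _ (𝓞 N) y - oa r (algebraMap _ (𝓞 N) y))

theorem sub_mem_m0 (r : N ≃ₐ[ℚ] N) (y : 𝓞 E) :
    algebraMap _ (𝓞 N) y - oa r (algebraMap _ (𝓞 N) y) ∈ m0 E r := Ideal.subset_span ⟨y, rfl⟩

variable {r s c : N ≃ₐ[ℚ] N} {cE : E ≃ₐ[F] E} {cL : L ≃ₐ[K] L} {τ : F ≃ₐ[ℚ] F} {υ : K ≃ₐ[ℚ] K}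
  (T : Tw r s c cE cL τ υ)

namespace Tw

include T

theorem orr (x : 𝓞 N) : oa r (oa r x) = x := RingOfIntegers.ext (T.rr x)
theorem oss (x : 𝓞 N) : oa s (oa s x) = x := RingOfIntegers.ext (T.ss x)
theorem occ (x : 𝓞 N) : oa c (oa c x) = x := RingOfIntegers.ext (T.cc x)
theorem orc (x : 𝓞 N) : oa r (oa c x) = oa c (oa r x) := RingOfIntegers.ext (T.rc x)
theorem osc (x : 𝓞 N) : oa s (oa c x) = oa c (oa s x) := RingOfIntegers.ext (T.sc x)
theorem osr (x : 𝓞 N) : oa s (oa r x) = oa c (oa r (oa s x)) := RingOfIntegers.ext (T.sr x)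
theorem osE (y : 𝓞 E) : oa s (iO E N y) = iO E N y := RingOfIntegers.ext ((T.fixE _).2 ⟨y, rfl⟩)
theorem orL (y : 𝓞 L) : oa r (iO L N y) = iO L N y := RingOfIntegers.ext ((T.fixL _).2 ⟨y, rfl⟩)
theorem ocE (y : 𝓞 E) : iO E N (oa cE y) = oa c (iO E N y) := RingOfIntegers.ext (T.hE y)
theorem ocL (y : 𝓞 L) : iO L N (oa cL y) = oa c (iO L N y) := RingOfIntegers.ext (T.hL y)
theorem orF (y : 𝓞 F) : iO E N (iO F E (oa τ y)) = oa r (iO E N (iO F E y)) := RingOfIntegers.ext (T.hF y)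
theorem osK (y : 𝓞 K) : iO L N (iO K L (oa υ y)) = oa s (iO L N (iO K L y)) := RingOfIntegers.ext (T.hK y)
theorem ocF (y : 𝓞 F) : oa c (iO E N (iO F E y)) = iO E N (iO F E y) := by rw [← T.ocE, oa_alg]
theorem ocK (y : 𝓞 K) : oa c (iO L N (iO K L y)) = iO L N (iO K L y) := by rw [← T.ocL, oa_alg]

theorem ofixL {x : 𝓞 N} (h : oa r x = x) : ∃ y : 𝓞 L, iO L N y = x := by
  obtain ⟨y, hy⟩ := (T.fixL x).1 (congrArg (fun z : 𝓞 N => (z : N)) h)
  refine ⟨⟨y, ?_⟩, RingOfIntegers.ext hy⟩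
  exact (isIntegral_algebraMap_iff (algebraMap L N).injective).1 (hy ▸ x.isIntegral_coe)

theorem ofixE {x : 𝓞 N} (h : oa s x = x) : ∃ y : 𝓞 E, iO E N y = x := by
  obtain ⟨y, hy⟩ := (T.fixE x).1 (congrArg (fun z : 𝓞 N => (z : N)) h)
  refine ⟨⟨y, ?_⟩, RingOfIntegers.ext hy⟩
  exact (isIntegral_algebraMap_iff (algebraMap E N).injective).1 (hy ▸ x.isIntegral_coe)

theorem m0_c : (m0 E r).map (oa c) ≤ m0 E r := by
  rw [Ideal.map_le_iff_le_comap, m0, Ideal.span_le]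
  rintro _ ⟨y, rfl⟩
  have := sub_mem_m0 r (oa cE y)
  rw [T.ocE, T.orc, ← map_sub] at this
  exact this

variable {ω : 𝓞 F} {D Dt : ℕ} (hω : ∀ x : 𝓞 F, ∃ a b : ℤ, x = a + b * ω)
  (hD : (ω - oa τ ω) ^ 2 = D) (hn : Ideal.absNorm (Df cE) = Dt) (hs : Squarefree (D * Dt))
  (ho : Odd D)

include hω in
theorem w_dvd (a : 𝓞 F) : iO E N (iO F E (ω - oa τ ω)) ∣ iO E N (iO F E a) - oa r (iO E N (iO F E a)) := by
  obtain ⟨u, v, rfl⟩ := hω a
  refine ⟨v, ?_⟩
  rw [← T.orF]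
  simp only [map_add, map_mul, map_intCast, map_sub]
  ring

include hω in
theorem mul_le : m0 E r * (m0 E r).map (oa s) ≤ Ideal.span {iO E N (iO F E (ω - oa τ ω))} := by
  refine pol _ _ _ ?_ ?_
  · rintro _ ⟨x, rfl⟩ _ ⟨y, rfl⟩
    exact ⟨x + y, by simp only [map_add]; ring⟩
  · rintro _ ⟨y, rfl⟩
    obtain ⟨a, ha⟩ := fixO T.dE T.nE (x := y + oa cE y) (by rw [map_add, oa_oa T.dE T.nE, add_comm])
    obtain ⟨b, hb⟩ := fixO T.dE T.nE (x := y * oa cE y) (by rw [map_mul, oa_oa T.dE T.nE, mul_comm])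
    have := dvd_sub ((T.w_dvd hω a).mul_right (iO E N y)) (T.w_dvd hω b)
    convert this using 1
    simp only [ha, hb, map_add, map_mul, map_sub, T.ocE, T.osr, T.osE, T.orc]
    ring

include hD hn hs in
theorem cop {I : Ideal (𝓞 N)} (h : ∀ y : 𝓞 E, oa r (iO E N y) - oa c (oa r (iO E N y)) ∈ I)
    (hw : iO E N (iO F E (ω - oa τ ω)) ∈ I) : I = ⊤ := by
  refine top_of_coprime (a := D) (b := Dt)
    (Nat.isCoprime_iff_coprime.2 (Nat.coprime_of_squarefree_mul hs)) ?_ ?_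
  · have := congrArg (fun x => iO E N (iO F E x)) hD
    simp only [map_pow, map_natCast] at this
    rw [Int.cast_natCast, ← this, sq]
    exact Ideal.mul_mem_left _ _ hw
  · have h1 : Df cE ≤ (I.comap (oa r)).comap (iO E N) := by
      rw [Df, Ideal.span_le]
      rintro _ ⟨y, rfl⟩
      simpa only [SetLike.mem_coe, Ideal.mem_comap, map_sub, T.ocE, T.orc] using h y
    simpa [hn] using h1 (Ideal.absNorm_mem _)

include hD hn hs in
/-- The different of `E / F` is prime to its conjugate. -/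
theorem cop2 {I : Ideal (𝓞 N)} (h : ∀ y : 𝓞 E, iO E N y - oa c (iO E N y) ∈ I)
    (h' : ∀ y : 𝓞 E, oa r (iO E N y) - oa c (oa r (iO E N y)) ∈ I) : I = ⊤ := by
  refine T.cop hD hn hs h' ?_
  obtain ⟨a, ha⟩ := cyc (I := Df cE) (hn ▸ hs.of_mul_right) (iO F E ω)
  have h1 : Df cE ≤ (I.comap (oa r)).comap (iO E N) ⊓ I.comap (iO E N) := by
    rw [Df, Ideal.span_le]
    rintro _ ⟨y, rfl⟩
    simpa only [SetLike.mem_coe, Ideal.mem_inf, Ideal.mem_comap, map_sub, T.ocE, T.orc] using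
      And.intro (h' y) (h y)
  obtain ⟨k1, k2⟩ := h1 ha
  simp only [SetLike.mem_coe, Ideal.mem_comap, map_sub, map_intCast] at k1 k2
  simpa only [map_sub, T.orF, sub_sub_sub_cancel_right] using sub_mem k2 k1

theorem w_mem : iO E N (iO F E (ω - oa τ ω)) ∈ m0 E r := by
  simpa only [map_sub, T.orF] using sub_mem_m0 r (iO F E ω)

theorem w_mem' : iO E N (iO F E (ω - oa τ ω)) ∈ (m0 E r).map (oa s) :=
  T.osE _ ▸ Ideal.mem_map_of_mem _ T.w_mem

theorem sm_mem (y : 𝓞 E) : iO E N y - oa c (oa r (iO E N y)) ∈ (m0 E r).map (oa s) := by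
  simpa only [map_sub, T.osr, T.osE] using Ideal.mem_map_of_mem (oa s) (sub_mem_m0 r y)

include hD hn hs in
theorem m0_sup : m0 E r ⊔ (m0 E r).map (oa s) = ⊤ :=
  T.cop hD hn hs (fun y => by
    simpa only [sub_sub_sub_cancel_left] using
      sub_mem (Ideal.mem_sup_right (T.sm_mem y)) (Ideal.mem_sup_left (sub_mem_m0 r y)))
    (Ideal.mem_sup_left T.w_mem)

include hω hD hn hs in
theorem m0_mul : m0 E r * (m0 E r).map (oa s) = Ideal.span {iO E N (iO F E (ω - oa τ ω))} := by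
  refine le_antisymm (T.mul_le hω) ((Ideal.span_singleton_le_iff_mem _).2 ?_)
  rw [Ideal.mul_eq_inf_of_isCoprime (Ideal.isCoprime_iff_sup_eq.2 (T.m0_sup hD hn hs))]
  exact ⟨T.w_mem, T.w_mem'⟩

theorem map_ss (I : Ideal (𝓞 N)) : (I.map (oa s)).map (oa s) = I := by
  have : (oa s : 𝓞 N →+* 𝓞 N).comp (oa s : 𝓞 N →+* 𝓞 N) = RingHom.id _ := RingHom.ext T.oss
  change (I.map (oa s : 𝓞 N →+* 𝓞 N)).map (oa s : 𝓞 N →+* 𝓞 N) = I
  rw [Ideal.map_map, this, Ideal.map_id]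

theorem dim : finrank ℚ N = 8 := by
  rw [← finrank_mul_finrank ℚ L N, ← finrank_mul_finrank ℚ K L, T.dK, T.dL, T.dLN]

include hD in
theorem w_sq : iO E N (iO F E (ω - oa τ ω)) ^ 2 = D := by
  simpa only [map_pow, map_natCast] using congrArg (fun x => iO E N (iO F E x)) hD

include hω hD hn hs ho in
/-- The different of `L / K`. -/
theorem Df_eq : (Df cL).map (iO L N) = (m0 E r).map (oa s) ∧ Ideal.absNorm (Df cL) = D := by
  set W := iO E N (iO F E (ω - oa τ ω)) with hW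
  let E0 : Ideal (𝓞 L) := Ideal.span {x | ∃ y : 𝓞 E,
    iO L N x = iO E N y - oa c (iO E N y) + (oa r (iO E N y) - oa c (oa r (iO E N y)))}
  have a1 : E0.map (iO L N) ≤ (m0 E r).map (oa s) := by
    rw [Ideal.map_le_iff_le_comap, Ideal.span_le]
    rintro x ⟨y, hy⟩
    have := sub_mem (T.sm_mem y) (T.sm_mem (oa cE y))
    rw [T.ocE, T.orc, T.occ] at this
    rw [SetLike.mem_coe, Ideal.mem_comap, hy]
    convert this using 1
    ring
  have a2 : ∀ y : 𝓞 E, iO E N y - oa c (iO E N y) + (oa r (iO E N y) - oa c (oa r (iO E N y))) ∈ E0.map (iO L N) := by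
    intro y
    obtain ⟨x, hx⟩ := T.ofixL (x := iO E N y - oa c (iO E N y) + (oa r (iO E N y) - oa c (oa r (iO E N y))))
      (by simp only [map_add, map_sub, T.orc, T.orr]; ring)
    exact hx ▸ Ideal.mem_map_of_mem _ (Ideal.subset_span ⟨y, hx⟩)
  have a3 : W ∈ E0.map (iO L N) := by
    have := T.cop2 hD hn hs (I := Submodule.comap (LinearMap.mul (𝓞 N) (𝓞 N) W) (E0.map (iO L N)))
      (fun y => by
        have := sub_mem (a2 (iO F E ω * y)) (Ideal.mul_mem_left _ (oa r (iO E N (iO F E ω))) (a2 y))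
        rw [Submodule.mem_comap, LinearMap.mul_apply']
        convert this using 1
        simp only [hW, map_mul, map_sub, ← T.orF, T.ocF]
        ring)
      (fun y => by
        have := sub_mem (Ideal.mul_mem_left _ (iO E N (iO F E ω)) (a2 y)) (a2 (iO F E ω * y))
        rw [Submodule.mem_comap, LinearMap.mul_apply']
        convert this using 1
        simp only [hW, map_mul, map_sub, ← T.orF, T.ocF]
        ring)
    have k : W * 1 ∈ E0.map (iO L N) := (Ideal.eq_top_iff_one _).1 this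
    rwa [mul_one] at k
  have a4 : E0.map (iO L N) ⊔ (E0.map (iO L N)).map (oa s) = ⊤ := by
    refine top_of_coprime (a := D) (b := (2 * Dt : ℕ)) (Nat.isCoprime_iff_coprime.2
      (ho.coprime_two_right.mul_right (Nat.coprime_of_squarefree_mul hs))) ?_ ?_
    · rw [Int.cast_natCast, ← T.w_sq hD, sq]
      exact Ideal.mem_sup_left (Ideal.mul_mem_left _ _ a3)
    · have h1 : Df cE ≤ Ideal.comap (iO E N) (Submodule.comap (LinearMap.mul (𝓞 N) (𝓞 N) 2)
          (E0.map (iO L N) ⊔ (E0.map (iO L N)).map (oa s))) := by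
        rw [Df, Ideal.span_le]
        rintro _ ⟨y, rfl⟩
        have := Submodule.add_mem_sup (a2 y) (Ideal.mem_map_of_mem (oa s) (a2 y))
        rw [SetLike.mem_coe, Ideal.mem_comap, Submodule.mem_comap, LinearMap.mul_apply']
        convert this using 1
        simp only [map_add, map_sub, T.ocE, T.osc, T.osr, T.osE, T.occ]
        ring
      have := h1 (Ideal.absNorm_mem _)
      rw [Ideal.mem_comap, Submodule.mem_comap, LinearMap.mul_apply'] at this
      simpa [hn] using this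
  have a5 : E0.map (iO L N) * (E0.map (iO L N)).map (oa s) = Ideal.span {W} := by
    apply le_antisymm
    · rw [← T.m0_mul hω hD hn hs, mul_comm]
      exact Ideal.mul_mono ((Ideal.map_mono a1).trans (T.map_ss _).le) a1
    · rw [Ideal.span_singleton_le_iff_mem,
        Ideal.mul_eq_inf_of_isCoprime (Ideal.isCoprime_iff_sup_eq.2 a4)]
      have := Ideal.mem_map_of_mem (oa s) a3
      rw [hW, T.osE] at this
      exact ⟨a3, this⟩
  have b1 : Ideal.absNorm (Ideal.span {W}) ^ 2 = D ^ 8 := by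
    rw [← map_pow, Ideal.span_singleton_pow, T.w_sq hD, Ideal.absNorm_span_natCast,
      RingOfIntegers.rank, T.dim]
  have b2 : Ideal.absNorm E0 = D := by
    rw [← a5, map_mul, Quad.norm_map, norm_ext T.dLN, ← pow_add, ← pow_mul] at b1
    exact (pow_left_inj₀ (Nat.zero_le _) (Nat.zero_le _) (by norm_num)).1 b1
  have b3 : Ideal.absNorm ((m0 E r).map (oa s)) = D ^ 2 := by
    rw [hW, ← T.m0_mul hω hD hn hs, map_mul, Quad.norm_map, ← sq, ← pow_mul,
      show 8 = 2 * (2 * 2) by rfl, pow_mul D] at b1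
    rw [Quad.norm_map]
    exact (pow_left_inj₀ (Nat.zero_le _) (Nat.zero_le _) (by norm_num)).1 b1
  have b4 : E0 = Df cL := by
    have inj : Function.Injective (iO L N) := FaithfulSMul.algebraMap_injective _ _
    apply le_antisymm
    · rw [Ideal.span_le]
      rintro x ⟨y, hy⟩
      obtain ⟨z, hz⟩ := T.ofixL (x := iO E N y + oa r (iO E N y)) (by rw [map_add, T.orr, add_comm])
      rw [inj (a₁ := x) (a₂ := z - oa cL z) (by rw [hy, map_sub, T.ocL, hz, map_add]; ring)]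
      exact sub_mem_Df z
    · have st : E0 ≤ E0.comap (oa cL) := by
        rw [Ideal.span_le]
        rintro x ⟨y, hy⟩
        rw [SetLike.mem_coe, Ideal.mem_comap, inj (a₁ := oa cL x) (a₂ := -x) (by
          simp only [map_neg, T.ocL, hy, map_add, map_sub, T.occ]; ring)]
        exact neg_mem (Ideal.subset_span ⟨y, hy⟩)
      rw [Df, Ideal.span_le]
      rintro _ ⟨a, rfl⟩
      obtain ⟨z, hz⟩ := cyc (I := E0) (b2 ▸ hs.of_mul_left) a
      simpa using sub_mem hz (Ideal.mem_comap.1 (st hz))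
  rw [← b4]
  exact ⟨eq_of_norm a1 (b3 ▸ pow_ne_zero _ hs.of_mul_left.ne_zero)
    (by rw [b3, norm_ext T.dLN, b2]), b2⟩

include hω hD hn hs ho in
/-- The type norm of an ambiguous ideal. -/
theorem amb_norm (e : ℕ) : (Df cL ⊔ Ideal.span {(e : 𝓞 L)}).map (iO L N) *
    ((Df cL ⊔ Ideal.span {(e : 𝓞 L)}).map (iO L N)).map (oa s) =
      Ideal.span {iO E N (iO F E (ω - oa τ ω)), (e : 𝓞 N)} := by
  rw [Ideal.map_sup, (T.Df_eq hω hD hn hs ho).1, Ideal.map_sup, T.map_ss, Ideal.map_span,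
    Set.image_singleton, map_natCast, Ideal.map_span, Set.image_singleton, map_natCast,
    Ideal.span_insert, ← T.m0_mul hω hD hn hs, Ideal.sup_mul, Ideal.mul_sup, Ideal.mul_sup,
    mul_comm _ (m0 E r), mul_comm _ (Ideal.span {(e : 𝓞 N)}), sup_assoc,
    ← sup_assoc (_ * _ : Ideal (𝓞 N)) (_ * m0 E r), ← Ideal.mul_sup, sup_comm _ (m0 E r), T.m0_sup hD hn hs, Ideal.mul_top,
    sup_eq_left.2 (Ideal.mul_le_right (I := Ideal.span {(e : 𝓞 N)}))]

end Tw

omit [NumberField N] in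
theorem sq_pair {W : 𝓞 N} {D e : ℕ} (hW : W ^ 2 = D) (hs : Squarefree D) (he : e ∣ D) :
    Ideal.span {W, (e : 𝓞 N)} * Ideal.span {W, (e : 𝓞 N)} = Ideal.span {(e : 𝓞 N)} := by
  obtain ⟨f, rfl⟩ := he
  have m1 : W ∈ Ideal.span {W, (e : 𝓞 N)} := Ideal.subset_span (by simp)
  have m2 : (e : 𝓞 N) ∈ Ideal.span {W, (e : 𝓞 N)} := Ideal.subset_span (by simp)
  apply le_antisymm
  · rw [Ideal.span_pair_mul_span_pair, Ideal.span_le]
    rintro _ (rfl | rfl | rfl | rfl) <;> rw [SetLike.mem_coe, Ideal.mem_span_singleton]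
    · exact ⟨f, by rw [← sq, hW, Nat.cast_mul]⟩
    · exact dvd_mul_left _ _
    · exact dvd_mul_right _ _
    · exact dvd_mul_right _ _
  · obtain ⟨u, v, h⟩ := Nat.isCoprime_iff_coprime.2 (Nat.coprime_of_squarefree_mul hs)
    have h' := congrArg (Int.cast : ℤ → 𝓞 N) h
    push_cast at h' hW
    have : (u : 𝓞 N) * (e * e) + v * (W * W) = e := by linear_combination e * h' + v * hW
    have k := add_mem (Ideal.mul_mem_left _ (u : 𝓞 N) (Ideal.mul_mem_mul m2 m2))
      (Ideal.mul_mem_left _ (v : 𝓞 N) (Ideal.mul_mem_mul m1 m1))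
    rwa [this, ← Ideal.span_singleton_le_iff_mem] at k

/-- The discriminant of a quadratic field that contains the root of a squarefree number. -/
theorem disc_bd (h : finrank ℚ K = 2) (hυ : υ ≠ 1) {th : 𝓞 K} {Dt : ℕ} (h1 : oa υ th = -th)
    (h2 : th ^ 2 = Dt) (hs : Squarefree Dt) :
    Dt ≤ (discr K).natAbs ∧ (discr K).natAbs ≤ 4 * Dt := by
  obtain ⟨ω, hω, hd⟩ := basis h hυ
  obtain ⟨a, b, e⟩ := hω th
  have e1 : 2 * th = b * (ω - oa υ ω) := by
    have := congrArg (oa υ) e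
    rw [h1, map_add, map_mul, map_intCast, map_intCast] at this
    linear_combination e - this
  have e2 : ((4 * Dt : ℤ) : 𝓞 K) = (b ^ 2 * discr K : ℤ) := by
    push_cast
    rw [← hd, ← h2, ← mul_pow, ← e1]
    ring
  have e3 := congrArg Int.natAbs (Int.cast_injective e2)
  simp only [Int.natAbs_mul, Int.natAbs_pow, Int.natAbs_natCast, Int.reduceAbs] at e3
  have b0 : b.natAbs ≠ 0 := fun z => hs.ne_zero (by rw [z] at e3; omega)
  have b1 : b.natAbs * b.natAbs ∣ Dt * 4 :=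
    ⟨(discr K).natAbs, by rw [← sq, ← e3]; ring⟩
  have b2 := Nat.le_of_dvd four_pos (hs.dvd_of_squarefree_of_mul_dvd_mul_right b1)
  generalize b.natAbs = n at *
  interval_cases n
  · omega
  · omega
  · omega
  · exact absurd (hs.dvd_of_squarefree_of_mul_dvd_mul_right b1) (by norm_num)
  · exact absurd (hs 2 (by omega)) (by simp)

/-- Restriction of an automorphism to a quadratic subfield. -/
theorem restr (h : finrank ℚ F = 2) (f : F →+* N) (r : N ≃ₐ[ℚ] N)
    (hr : (∀ y, r (f y) = f y) → ∀ y, ∃ q : ℚ, f y = q) :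
    ∃ τ : F ≃ₐ[ℚ] F, τ ≠ 1 ∧ ∀ y, f (τ y) = r (f y) := by
  let _ := f.toAlgebra
  have : Algebra.IsQuadraticExtension ℚ F := ⟨h⟩
  have k : ∀ y, f (r.restrictNormal F y) = r (f y) := r.restrictNormal_commutes F
  refine ⟨_, fun e => ?_, k⟩
  have := finrank_le_one (R := ℚ) (1 : F) fun y => by
    obtain ⟨q, hq⟩ := hr (fun y => by rw [← k, e, AlgEquiv.one_apply]) y
    exact ⟨q, f.injective (by rw [hq, Rat.smul_one_eq_cast, map_ratCast])⟩
  omega

/-- A squarefree number that is a square in `ℚ_p` is prime to `p`. -/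
theorem not_dvd {p n : ℕ} [Fact p.Prime] (hs : Squarefree n) {x : ℚ_[p]} (h : x ^ 2 = n) :
    ¬ p ∣ n := by
  intro hp
  have := congrArg Padic.valuation h
  rw [Padic.valuation_pow, Padic.valuation_natCast, ← Nat.factorization_def _ Fact.out,
    Nat.factorization_eq_one_of_squarefree hs Fact.out hp] at this
  omega

/-- The discriminant of a quadratic field modulo four. -/
theorem mod_four (h : finrank ℚ F = 2) (hτ : τ ≠ 1) {ω : 𝓞 F} {D : ℕ}
    (hω : ∀ x : 𝓞 F, ∃ a b : ℤ, x = a + b * ω) (hD : (ω - oa τ ω) ^ 2 = D) (hs : Squarefree D) :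
    (∃ d : ℤ, (D : ℤ) = 4 * d + 1) ∧ ∃ ω' : 𝓞 F, 2 * ω' = 1 + (ω - oa τ ω) := by
  have w0 : ω - oa τ ω ≠ 0 := fun e => hs.ne_zero (by
    rw [e, zero_pow two_ne_zero] at hD; exact_mod_cast hD.symm)
  have fx : ∀ x : 𝓞 F, oa τ x = x → ∃ a : ℤ, x = a := fun x hx => by
    obtain ⟨a, b, rfl⟩ := hω x
    rw [map_add, map_mul, map_intCast, map_intCast] at hx
    have : (b : 𝓞 F) * (ω - oa τ ω) = 0 := by linear_combination -hx
    exact ⟨a, by rw [(mul_eq_zero.1 this).resolve_right w0, zero_mul, add_zero]⟩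
  obtain ⟨t, ht⟩ := fx (ω + oa τ ω) (by rw [map_add, oa_oa h hτ, add_comm])
  obtain ⟨n, hn⟩ := fx (ω * oa τ ω) (by rw [map_mul, oa_oa h hτ, mul_comm])
  have e : (D : ℤ) = t ^ 2 - 4 * n := Int.cast_injective (α := 𝓞 F) (by
    push_cast; rw [← hD, ← ht, ← hn]; ring)
  obtain ⟨u, rfl | rfl⟩ := t.even_or_odd'
  · have : ((2 * 2 : ℕ) : ℤ) ∣ D := ⟨u ^ 2 - n, by rw [e]; push_cast; ring⟩
    exact absurd (hs 2 (Int.natCast_dvd_natCast.1 this)) (by simp)
  · refine ⟨⟨u ^ 2 + u - n, by rw [e]; ring⟩, ω - u, ?_⟩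
    push_cast at ht
    linear_combination ht

end Pool.Agent.Lib.MP_9177b7_ag.S4.Alg
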