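import Pool.Agent.Lib.MP_9177b7_ag.S4.StC
import Pool.Agent.Lib.MP_9177b7_ag.S4.Alg0

/-!
The arithmetic invariants of a datum.
-/

open NumberField Module
open scoped nonZeroDivisors

noncomputable section

namespace Pool.Agent.Lib.MP_9177b7_ag.S4

open Quad Alg

theorem alg (hG : GalStmt) (hN : NrmStmt) (hF : FrameStmt) : AlgStmt := by
  intro p _ D
  obtain ⟨-, -, g3, g4, g5, -, -, -, g9, g10, g11, g12, -, -, -, -, -, g18, -, g20, -, g22, g23,
    g24, g25⟩ := id (hG p D)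
  have g19 := (hG p D).2.2.2.2.2.2.2.2.2.2.2.2.2.2.2.2.2.2.1
  obtain ⟨n1, -, n3, -⟩ := hN p D
  obtain ⟨e, he⟩ := D.sp.frame
  obtain ⟨-, -, -, -, -, -, -, -, f9, -⟩ := (hF p D).1 D.ξ D.a e D.sp.imag he
  have sE : ∀ x, D.s (D.iE x) = D.iE x := fun x => (D.sp.fixE _).2 ⟨x, rfl⟩
  have rL : ∀ x, D.r (D.iL x) = D.iL x := fun x => (D.sp.fixL _).2 ⟨x, rfl⟩
  obtain ⟨τ, τ1, hτ⟩ := restr g22 (D.iE.comp (algebraMap D.F D.E)) D.r
    fun h y => g18 _ (h y) (sE _)
  obtain ⟨υ, υ1, hυ⟩ := restr g23 (D.iL.comp (algebraMap D.K D.L)) D.s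
    fun h y => g18 _ (rL _) (h y)
  have T : Tw D.r D.s D.c (IsCMField.complexConj D.E) (IsCMField.complexConj D.L) τ υ :=
    { rr := AlgEquiv.congr_fun D.sp.rr
      ss := AlgEquiv.congr_fun D.sp.ss
      cc := AlgEquiv.congr_fun g3
      rc := AlgEquiv.congr_fun (g4 _)
      sc := AlgEquiv.congr_fun (g4 _)
      sr := AlgEquiv.congr_fun g5
      fixE := D.sp.fixE
      fixL := D.sp.fixL
      hE := g9
      hL := g10
      hF := hτ
      hK := hυ
      dF := g22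
      dK := g23
      dE := Algebra.IsQuadraticExtension.finrank_eq_two _ _
      dL := Algebra.IsQuadraticExtension.finrank_eq_two _ _
      dEN := g24
      dLN := g25
      nE := IsCMField.complexConj_ne_one _
      nL := IsCMField.complexConj_ne_one _
      nF := τ1
      nK := υ1 }
  have D0 : D.Dn ≠ 0 := Int.natAbs_ne_zero.2 (discr_ne_zero _)
  have dE : (discr D.E).natAbs = Ideal.absNorm (Df (IsCMField.complexConj D.E)) * D.Dn ^ 2 :=
    disc T.dE T.nE
  have hn : Ideal.absNorm (Df (IsCMField.complexConj D.E)) = D.Dt := by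
    rw [Dat.Dt, dE, Nat.mul_div_cancel _ (pow_pos (Nat.pos_of_ne_zero D0) _)]
  rw [hn, mul_comm] at dE
  refine ⟨?_, dE⟩
  have pF : (D.Dn : ℤ) = discr D.F := Int.natAbs_of_nonneg (Int.sign_eq_one_iff_pos.1 (by
    rw [sign_discr, IsTotallyReal.nrComplexPlaces_eq_zero, pow_zero])).le
  have pE : ((D.Dn ^ 2 * D.Dt : ℕ) : ℤ) = discr D.E := by
    have := IsTotallyComplex.finrank D.E
    rw [← dE]
    exact Int.natAbs_of_nonneg (Int.sign_eq_one_iff_pos.1 (by
      rw [sign_discr, show InfinitePlace.nrComplexPlaces D.E = 2 by omega]; rfl)).le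
  have hs : Squarefree (D.Dn * D.Dt) := by
    have := D.sp.sqf
    rw [← pE, ← pF, sq, mul_assoc, Nat.cast_mul,
      Int.mul_ediv_cancel_left _ (Int.natCast_ne_zero.2 D0)] at this
    exact Int.squarefree_natCast.1 this
  obtain ⟨ω, hω, hD⟩ := basis g22 τ1
  rw [← pF, Int.cast_natCast] at hD
  obtain ⟨⟨d₀, hd₀⟩, ω', hω'⟩ := mod_four g22 τ1 hω hD hs.of_mul_left
  have ho : Odd D.Dn := Nat.odd_iff.2 (by omega)
  obtain ⟨a1, a2⟩ := T.Df_eq hω hD hn hs ho
  have sD : Squarefree (Ideal.absNorm (Df (IsCMField.complexConj D.L))) := a2 ▸ hs.of_mul_left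
  obtain ⟨d, d1, d2⟩ := sq_Df T.dL T.nL
  rw [a2] at d2
  have n2 : Ideal.absNorm (d.map (oa υ)) = D.Dn := (Quad.norm_map _ _).trans d2
  -- the root of `Dt`
  set X : D.N := D.em 0 D.ξ * D.em 1 D.ξ * (FractionalIdeal.absNorm D.a : ℚ) with hX
  have f9' : X ^ 2 * (D.Dn ^ 2 * D.Dt) = 1 := by rw [← f9, ← pE]; push_cast; rfl
  have X0 : X ≠ 0 := fun z => by simp [z] at f9'
  have D0' : (D.Dn : D.N) ≠ 0 := Nat.cast_ne_zero.2 D0
  have im : ∀ i, D.em (i + 2) D.ξ = -D.em i D.ξ := fun i => by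
    rw [← (g12 i _).1, Dat.bE, D.sp.imag, map_neg]
  obtain ⟨y, hy⟩ := g19 (-(X * D.Dn)⁻¹)
    (by simp only [hX, map_neg, map_inv₀, map_mul, map_natCast, map_ratCast, (g12 _ _).2.2.1]
        simp [mul_comm])
    (by simp only [hX, map_neg, map_inv₀, map_mul, map_natCast, map_ratCast, (g12 _ _).2.1, im]
        ring)
  have inj : Function.Injective D.iK := D.iL.injective.comp Subtype.val_injective
  have y2 : y ^ 2 = D.Dt := (D.iL.comp (algebraMap D.K D.L)).injective (by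
    rw [map_pow, map_natCast]
    change D.iK y ^ 2 = _
    rw [← hy]
    field_simp
    linear_combination -f9')
  have ys : D.s (D.iK y) = -D.iK y := by
    have := im 1
    rw [← hy]
    simp only [hX, map_neg, map_inv₀, map_mul, map_natCast, map_ratCast, (g12 _ _).2.2.2]
    change -(D.em 0 D.ξ * D.em (1 + 2) D.ξ * _ * _)⁻¹ = _
    rw [this]
    ring
  let θ : 𝓞 D.K := ⟨y, IsIntegral.of_pow two_pos (y2 ▸ by
    simpa using isIntegral_algebraMap (R := ℤ) (A := D.K) (x := (D.Dt : ℤ)))⟩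
  have θ2 : θ ^ 2 = D.Dt := RingOfIntegers.coe_injective (by
    rw [map_pow, map_natCast]; exact y2)
  have θυ : oa υ θ = -θ := RingOfIntegers.ext (inj ((hυ y).trans (ys.trans (map_neg
    (D.iL.comp (algebraMap D.K D.L)) y).symm)))
  obtain ⟨c, hc⟩ := cyc (I := d.map (oa υ)) (n2 ▸ hs.of_mul_left) θ
  have hc' : θ + c ∈ d := by
    have : d.map (oa υ) ≤ d.comap (oa υ) := by
      rw [Ideal.map_le_iff_le_comap]
      intro x hx
      rwa [Ideal.mem_comap, Ideal.mem_comap, oa_oa g23 υ1]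
    have := neg_mem (Ideal.mem_comap.1 (this hc))
    rwa [map_sub, θυ, map_intCast, neg_sub, sub_neg_eq_add, add_comm] at this
  obtain ⟨m, hm⟩ : (D.Dn : ℤ) ∣ c ^ 2 - D.Dt := by
    rw [← d2, ← int_mem (d2 ▸ hs.of_mul_left)]
    convert Ideal.mul_mem_left _ (c - θ) hc' using 1
    push_cast
    rw [← θ2]
    ring
  have bd := disc_bd g23 υ1 θυ θ2 hs.of_mul_right
  have w2 : algebraMap (𝓞 D.F) (𝓞 D.E) (ω - oa τ ω) ^ 2 = D.Dn := by
    rw [← map_pow, hD, map_natCast]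
  refine ⟨{
    w := algebraMap (𝓞 D.F) (𝓞 D.E) (ω - oa τ ω)
    θ := θ
    Df := Df (IsCMField.complexConj D.L)
    dK := d
    nK := d.map (oa υ)
    d₀ := d₀
    c := c
    m := m
    sqf := hs
    Dn_gt := ?_
    Dt_gt := ?_
    cop := fun h => ?_
    hd₀ := hd₀
    hm := hm
    w_sq := w2
    w_bar := IsCMField.complexConj_apply_eq_self _ _
    w_r := ?_
    w_int := ⟨algebraMap _ _ ω', by simpa [map_ofNat] using congrArg (algebraMap _ (𝓞 D.E)) hω'⟩
    θ_sq := θ2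
    θ_s := ys
    θ_nrm := ?_
    Df_nrm := a2
    Df_bar := Df_map T.dL T.nL
    Df_mem := sub_mem_Df
    Df_sq := by rw [sq, ← d1]
    Df_kill := fun z hz x => ?_
    dn := by rw [← d2]; exact mul_conj g23 υ1 (by rwa [Ne, ← Ideal.absNorm_eq_zero_iff, d2])
    d_nrm := d2
    n_nrm := n2
    θ_n := hc
    θ_d := hc'
    amb := fun g g0 hg => ?_
    nE_amb := fun e he => ⟨sup_norm sD (a2 ▸ he), n3 ?_⟩
    dL := by rw [← a2]; exact disc T.dL T.nL
    dK_ge := bd.1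
    dK_le := bd.2 }⟩
  · have := abs_discr_gt_two (K := D.F) (by omega)
    rw [← pF, Nat.abs_cast] at this
    omega
  · have := hs.of_mul_right.ne_zero
    by_contra h
    rw [show D.Dt = 1 by omega, Nat.cast_one, sq_eq_one_iff] at θ2
    rcases θ2 with h | h <;> rw [h] at θυ <;> norm_num at θυ
  · rcases (Nat.Prime.dvd_mul Fact.out).1 h with h | h
    · refine not_dvd hs.of_mul_left (x := D.ψ (D.iE (algebraMap (𝓞 D.F) (𝓞 D.E)
        (ω - oa τ ω) : 𝓞 D.E))) ?_ h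
      rw [← map_pow, ← map_pow, RingOfIntegers.coe_eq_algebraMap, ← map_pow, w2]
      simp
    · refine not_dvd hs.of_mul_right (x := D.ψ (D.iL.comp (algebraMap D.K D.L) y)) ?_ h
      rw [← map_pow, ← map_pow, y2]
      simp
  · have := congrArg (fun x : 𝓞 D.N => (x : D.N)) (T.orF (ω - oa τ ω))
    rw [map_sub, oa_oa g22 τ1, ← neg_sub, map_neg, map_neg] at this
    exact this.symm
  · change X * _ * D.iK y = _
    rw [← hy]
    field_simp
  · have := Ideal.mul_mem_mul (sub_mem_m0 D.r x) (a1 ▸ Ideal.mem_map_of_mem _ hz)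
    rw [T.m0_mul hω hD hn hs, Ideal.mem_span_singleton, mul_comm] at this
    obtain ⟨u, hu⟩ := this
    exact ⟨u, congrArg (fun x : 𝓞 D.N => (x : D.N)) hu⟩
  · obtain ⟨f, e, -, h1, h2⟩ := amb T.dL T.nL sD g0 fun x hx =>
      hg ▸ Ideal.mem_map_of_mem (IsCMField.ringOfIntegersComplexConj D.L) hx
    exact ⟨f, e, a2 ▸ h1, h2.symm⟩
  · rw [(n1 _).1, Dat.xE, Ideal.map_span, Set.image_pair, map_natCast]
    exact T.amb_norm hω hD hn hs ho e

end Pool.Agent.Lib.MP_9177b7_ag.S4
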