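import Pool.Agent.Lib.MP_9177b7_ag.S4.D1s

/-!
The first regime of the sieve problem: assembly.
-/

open Finset

noncomputable section

namespace Pool.Agent.Lib.MP_9177b7_ag.S4

open B (tsumP)

namespace D1J

/-- A sum split along residue classes. -/
theorem split {n : ℕ} (hn : 0 < n) (V : Finset ℤ) (f : ℤ → ℝ) (b : ℕ → ℝ)
    (h : ∀ r ∈ range n, ∀ V' ⊆ V, (∀ k ∈ V', (n : ℤ) ∣ k - r) → ∑ k ∈ V', f k ≤ b r) :
    ∑ k ∈ V, f k ≤ ∑ r ∈ range n, b r := by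
  have h0 : (0 : ℤ) < n := by exact_mod_cast hn
  rw [← sum_fiberwise_of_maps_to (s := V) (t := range n) (g := fun k => (k % n).toNat)
    fun k _ => mem_range.2 (by
      have := Int.emod_lt_of_pos k h0
      have := Int.emod_nonneg k h0.ne'
      omega)]
  refine sum_le_sum fun r hr => h r hr _ (filter_subset _ _) fun k hk => ?_
  have e := (mem_filter.1 hk).2
  have := Int.emod_nonneg k h0.ne'
  refine ⟨k / n, ?_⟩
  have e2 := Int.emod_add_mul_ediv k n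
  omega

/-- A sum over pairs, by the first coordinate. -/
theorem pairs (U : Finset (ℤ × ℤ)) (f : ℤ → ℤ → ℝ) (b : ℤ → ℝ)
    (h : ∀ t ∈ U.image Prod.fst, ∀ V : Finset ℤ, (∀ k ∈ V, (t, k) ∈ U) → ∑ k ∈ V, f t k ≤ b t) :
    ∑ u ∈ U, f u.1 u.2 ≤ ∑ t ∈ U.image Prod.fst, b t := by
  rw [← sum_fiberwise_of_maps_to (s := U) (t := U.image Prod.fst) (g := Prod.fst)
    fun u hu => mem_image_of_mem _ hu]
  refine sum_le_sum fun t ht => le_trans (le_of_eq ?_)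
    (h t ht ((U.filter fun u => u.1 = t).image Prod.snd) fun k hk => ?_)
  · rw [sum_image fun u hu v hv e => Prod.ext
      ((mem_filter.1 hu).2.trans (mem_filter.1 hv).2.symm) e]
    exact sum_congr rfl fun u hu => by rw [(mem_filter.1 hu).2]
  · obtain ⟨u, hu, rfl⟩ := mem_image.1 hk
    rw [← (mem_filter.1 hu).2]
    exact (mem_filter.1 hu).1

variable {p : ℕ} (S : SD p)

theorem ee_pos (t : ℤ) : 0 < S.ee t := Nat.gcd_pos_of_pos_right _ (zero_lt_one.trans S.D_gt)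

theorem one_le : 1 ≤ S.X := by
  have := S.D_gt
  have := S.Dt_gt
  exact one_le_mul_of_one_le_of_one_le (by exact_mod_cast (by omega))
    (by exact_mod_cast (by omega))

/-- All classes modulo `ee t` together. -/
theorem slice (hP : PreStmt) (t : ℤ) (V : Finset ℤ) {B C F : ℝ} (hC : 0 ≤ C) (hF : 0 ≤ F)
    (h : ∀ k₀ : ℤ, ∀ V' ⊆ V, (∀ k ∈ V', (S.ee t : ℤ) ∣ k - k₀) → ∑ k ∈ V', S.W t k ≤
      S.pre t k₀ * (C * (√(S.Dt : ℝ) / S.ee t) * Real.exp (B * S.sq t) * F)) :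
    ∑ k ∈ V, S.W t k ≤ C * √(S.Dt : ℝ) * F * Real.exp ((B + 325) * S.sq t) := by
  have e0 : (0 : ℝ) < S.ee t := by exact_mod_cast ee_pos S t
  refine (split (ee_pos S t) V _ _ fun r _ => h r).trans ?_
  rw [← sum_mul]
  refine (mul_le_mul_of_nonneg_right (hP p S t).2 (by positivity)).trans (le_of_eq ?_)
  rw [add_mul, Real.exp_add]
  field_simp

theorem size (h : S.D < S.Dt ^ 9) : S.X ^ (1 / 40 : ℝ) * S.X ^ (1 / 40 : ℝ) ≤ √(S.Dt : ℝ) := by
  have h1 := one_le S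
  have h0 : (0 : ℝ) ≤ S.Dt := Nat.cast_nonneg _
  have h2 : S.X ≤ (S.Dt : ℝ) ^ (10 : ℝ) := by
    rw [show (10 : ℝ) = (9 + 1 : ℕ) by norm_num, Real.rpow_natCast, pow_succ]
    exact mul_le_mul_of_nonneg_right (by exact_mod_cast h.le) h0
  rw [← Real.rpow_add (by linarith), Real.sqrt_eq_rpow]
  refine (Real.rpow_le_rpow (by linarith) h2 (by norm_num)).trans (le_of_eq ?_)
  rw [← Real.rpow_mul h0]
  norm_num

end D1J

open D1J in
theorem d1 (hA : AvgStmt) (hP : PreStmt) (hT : TailStmt) (hS : SlStmt) : D1Stmt := by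
  classical
  intro p R hp hp2
  obtain ⟨δ, ε, B, C, δ0, δ1, ε0, B0, C0, hS⟩ := hS p R hp hp2
  obtain ⟨CA, A0, hA⟩ := hA p R (B + 325) hp (by linarith)
  obtain ⟨CT, T0, hT⟩ := hT R
  have p1 : (1 : ℝ) ≤ p := by exact_mod_cast hp.one_le
  have p0 : (0 : ℝ) < p := by linarith
  refine ⟨δ / 40, min (ε / 40) (1 / 80), p ^ 2 * C * CA + CT, by positivity, by positivity,
    by positivity, fun K hK => ?_⟩
  obtain ⟨y₁, h1⟩ := hS K hK
  obtain ⟨y₂, h2⟩ := hS 2 le_rfl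
  obtain ⟨D₀, hA⟩ := hA K
  refine ⟨max D₀ ⌈(max (max y₁ y₂) 1) ^ 40⌉₊, fun S hD hH U hU => ?_⟩
  have X1 := one_le S
  have X0 : 0 < S.X := by linarith
  obtain ⟨y, hy⟩ : ∃ y, y = S.X ^ (1 / 40 : ℝ) := ⟨_, rfl⟩
  have y0 : 0 < y := hy ▸ Real.rpow_pos_of_pos X0 _
  have y40 : y ^ 40 = S.X := by
    rw [hy, ← Real.rpow_natCast, ← Real.rpow_mul X0.le]
    norm_num
  have yl : max (max y₁ y₂) 1 ≤ y := by
    refine le_of_pow_le_pow_left₀ (n := 40) (by norm_num) y0.le ?_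
    rw [y40]
    refine (Nat.ceil_le.1 (le_of_max_le_right hD)).trans (le_mul_of_one_le_right
      (Nat.cast_nonneg _) ?_)
    exact_mod_cast S.Dt_gt.le
  have ex : y ^ δ = S.X ^ (δ / 40) := by
    rw [hy, ← Real.rpow_mul X0.le]
    congr 1
    ring
  have eε : y ^ (-ε) ≤ S.X ^ (-min (ε / 40) (1 / 80)) := by
    rw [hy, ← Real.rpow_mul X0.le]
    exact Real.rpow_le_rpow_of_exponent_le X1 (by linarith [min_le_left (ε / 40) (1 / 80)])
  have eT : S.X ^ (-(1 / 80 : ℝ)) ≤ S.X ^ (-min (ε / 40) (1 / 80)) :=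
    Real.rpow_le_rpow_of_exponent_le X1 (by linarith [min_le_right (ε / 40) (1 / 80)])
  refine ⟨y ^ δ, ex.ge, ex ▸ (Real.rpow_le_rpow_of_exponent_le X1 (by linarith)).trans
    (Real.rpow_one _).le, ?_⟩
  obtain ⟨E, hE⟩ : ∃ E, E = Real.exp (tsumP (fun q => (S.a q : ℝ) - S.b q) (y ^ δ)) := ⟨_, rfl⟩
  have E0 : 0 < E := hE ▸ Real.exp_pos _
  have q0 : ∀ a : ℝ, 0 < (p : ℝ) ^ a := Real.rpow_pos_of_pos p0
  have q1 : ∀ n : ℕ, (p : ℝ) ^ (-(n : ℝ) / 2) ≤ 1 := fun n =>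
    Real.rpow_le_one_of_one_le_of_nonpos p1 (by have : (0 : ℝ) ≤ n := n.cast_nonneg; linarith)
  have yε : 0 < y ^ (-ε) := Real.rpow_pos_of_pos y0 _
  have sX : √S.X = √(S.D : ℝ) * √(S.Dt : ℝ) := Real.sqrt_mul (Nat.cast_nonneg _) _
  have s0 : 0 ≤ √S.X := Real.sqrt_nonneg _
  have s1 : 0 ≤ √(S.Dt : ℝ) := Real.sqrt_nonneg _
  have sub : ∀ U' ⊆ U, S.Reg R K U' := fun U' h => ⟨fun u hu => hU.1 u (h hu),
    hU.2.imp (fun ⟨t, ht⟩ => ⟨t, fun u hu => ht u (h hu)⟩)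
      fun ⟨a, b, ht⟩ => ⟨a, b, fun u hu => ht u (h hu)⟩⟩
  have b2 := hT p K S _ (sub _ (filter_subset (fun u => y ≤ S.ee u.1) U)) fun u hu =>
    hy ▸ (mem_filter.1 hu).2
  obtain ⟨U1, hU1⟩ : ∃ U1, U1 = U.filter fun u => ¬ y ≤ S.ee u.1 := ⟨_, rfl⟩
  have m1 : ∀ u ∈ U1, u ∈ U ∧ y * S.ee u.1 ≤ √(S.Dt : ℝ) := fun u hu => by
    rw [hU1, mem_filter] at hu
    exact ⟨hu.1, (mul_le_mul_of_nonneg_left (not_le.1 hu.2).le y0.le).trans (hy ▸ size S hH)⟩
  have m2 : ∀ t ∈ U1.image Prod.fst, y * S.ee t ≤ √(S.Dt : ℝ) ∧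
      |(2 * t + 1 : ℝ)| ≤ R * √(S.D : ℝ) := fun t ht => by
    obtain ⟨u, hu, rfl⟩ := mem_image.1 ht
    exact ⟨(m1 u hu).2, (hU.1 u (m1 u hu).1).1⟩
  obtain ⟨a1, a2⟩ := hA S (le_of_max_le_left hD) _ fun t ht => (m2 t ht).2
  have b1 : ∑ u ∈ U1, S.W u.1 u.2 ≤
      p ^ 2 * C * CA * √S.X * (E * (p : ℝ) ^ (-(K : ℝ) / 2) + y ^ (-ε)) := by
    rcases hU.2 with ⟨t₀, ht⟩ | ⟨a, b, ht⟩
    · have hF : 0 ≤ E * (p : ℝ) ^ (-((2 : ℕ) : ℝ) / 2) + y ^ (-ε) := by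
        have := q0 (-((2 : ℕ) : ℝ) / 2)
        positivity
      refine (pairs U1 S.W (fun t => p ^ 2 * (C * √(S.Dt : ℝ) *
        (E * (p : ℝ) ^ (-((2 : ℕ) : ℝ) / 2) + y ^ (-ε))) * Real.exp ((B + 325) * S.sq t))
        fun t ht V hV => ?_).trans ?_
      · refine (split (pow_pos hp.pos 2) V _ (fun _ => _) fun r _ V' h3 h4 =>
          slice S hP t V' (B := B) C0.le hF fun k₀ V'' h5 h6 => ?_).trans (le_of_eq ?_)
        · rw [hE]
          refine h2 S y t k₀ V'' (((le_max_right _ _).trans (le_max_left _ _)).trans yl) y40.ge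
            (m2 t ht).1 (m2 t ht).2 (fun k hk => ⟨(hU.1 _ (m1 _ (hV k (h3 (h5 hk)))).1).2,
              h6 k hk⟩) fun k hk k' hk' => ?_
          have := dvd_sub (h4 k (h5 hk)) (h4 k' (h5 hk'))
          rw [sub_sub_sub_cancel_right] at this
          exact_mod_cast this
        · rw [sum_const, card_range, nsmul_eq_mul, Nat.cast_pow, ← mul_assoc]
      · rw [← mul_sum]
        refine (mul_le_mul_of_nonneg_left (a2 t₀ fun t h => ?_) (by positivity)).trans ?_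
        · obtain ⟨u, hu, rfl⟩ := mem_image.1 h
          exact ht u (m1 u hu).1
        · have k : (E * (p : ℝ) ^ (-((2 : ℕ) : ℝ) / 2) + y ^ (-ε)) * (p : ℝ) ^ (-(K : ℝ) / 2) ≤
              E * (p : ℝ) ^ (-(K : ℝ) / 2) + y ^ (-ε) := by
            rw [add_mul]
            exact add_le_add (mul_le_mul_of_nonneg_right (mul_le_of_le_one_right E0.le (q1 2))
              (q0 _).le) (mul_le_of_le_one_right yε.le (q1 K))
          refine le_trans (le_of_eq ?_) (mul_le_mul_of_nonneg_left k (by positivity))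
          rw [sX]
          ring
    · have hF : 0 ≤ E * (p : ℝ) ^ (-(K : ℝ) / 2) + y ^ (-ε) := by
        have := q0 (-(K : ℝ) / 2)
        positivity
      have cop : IsCoprime ((p : ℤ) ^ K) S.D := (Nat.isCoprime_iff_coprime.2
        ((Nat.Prime.coprime_iff_not_dvd hp).2 fun h => S.cop (h.mul_right _))).pow_left
      refine (pairs U1 S.W _ fun t h V hV => slice S hP t V (B := B) C0.le hF
        fun k₀ V' h5 h6 => ?_).trans ?_
      · rw [hE]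
        refine h1 S y t k₀ V' (((le_max_left _ _).trans (le_max_left _ _)).trans yl) y40.ge
          (m2 t h).1 (m2 t h).2 (fun k hk => ⟨(hU.1 _ (m1 _ (hV k (h5 hk))).1).2, h6 k hk⟩)
          fun k hk k' hk' => cop.dvd_of_dvd_mul_left ?_
        convert dvd_sub (ht _ (m1 _ (hV k (h5 hk))).1) (ht _ (m1 _ (hV k' (h5 hk'))).1) using 1
        simp only [SD.nn]
        ring
      · rw [← mul_sum]
        refine (mul_le_mul_of_nonneg_left a1 (by positivity)).trans ?_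
        refine le_trans (le_of_eq ?_) (mul_le_mul_of_nonneg_right (mul_le_mul_of_nonneg_right
          (mul_le_mul_of_nonneg_right (le_mul_of_one_le_left C0.le (one_le_pow₀ p1)) A0.le) s0) hF)
        rw [sX]
        ring
  rw [← sum_filter_add_sum_filter_not U fun u => y ≤ S.ee u.1, ← hU1, ← hE]
  have k0 := mul_pos E0 (q0 (-(K : ℝ) / 2))
  have k1 : p ^ 2 * C * CA * √S.X * (E * (p : ℝ) ^ (-(K : ℝ) / 2) + y ^ (-ε)) ≤
      p ^ 2 * C * CA * √S.X * (E * (p : ℝ) ^ (-(K : ℝ) / 2) + S.X ^ (-min (ε / 40) (1 / 80))) :=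
    mul_le_mul_of_nonneg_left (by linarith) (by positivity)
  have k2 : CT * √S.X * S.X ^ (-(1 / 80 : ℝ)) ≤
      CT * √S.X * (E * (p : ℝ) ^ (-(K : ℝ) / 2) + S.X ^ (-min (ε / 40) (1 / 80))) :=
    mul_le_mul_of_nonneg_left (by linarith) (by positivity)
  linarith

end Pool.Agent.Lib.MP_9177b7_ag.S4
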