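import Pool.Agent.Lib.MP_9177b7_ag.S4.StI

/-!
The first regime of the sieve problem: definitions and statements.
-/

open Finset

noncomputable section

namespace Pool.Agent.Lib.MP_9177b7_ag.S4

open B (tsumP)

namespace SD

variable {p : ℕ} (S : SD p)

/-- The common divisor of `2 t + 1` and `D`. -/
def ee (t : ℤ) : ℕ := (2 * t + 1).natAbs.gcd S.D

/-- The sum of `1 / q` over the primes dividing `δ`. -/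
def sq (t : ℤ) : ℝ := ∑ q ∈ (S.dl t).natAbs.primeFactors, 1 / (q : ℝ)

open Classical in
/-- The part of the weight that depends only on `k` modulo `ee t`. -/
def pre (t k : ℤ) : ℝ :=
  ∏ l ∈ (S.ee t).primeFactors, if (l : ℤ) ^ 2 ∣ S.QQ t k then 162
    else if S.Sg l ((S.nn t k + S.c * S.dl t) / l) then 2 else 0

end SD

/-- The average over `t`. -/
def AvgStmt : Prop :=
  ∀ (p : ℕ) (R B : ℝ), p.Prime → 0 ≤ B → ∃ C : ℝ, 0 < C ∧ ∀ K : ℕ, ∃ D₀ : ℕ, ∀ S : SD p,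
    D₀ ≤ S.D → ∀ T : Finset ℤ, (∀ t ∈ T, |(2 * t + 1 : ℝ)| ≤ R * √(S.D : ℝ)) →
      ∑ t ∈ T, Real.exp (B * S.sq t) ≤ C * √(S.D : ℝ) ∧
      ∀ t₀ : ℤ, (∀ t ∈ T, (p : ℤ) ^ K ∣ t - t₀) →
        ∑ t ∈ T, Real.exp (B * S.sq t) ≤ C * √(S.D : ℝ) * (p : ℝ) ^ (-(K : ℝ) / 2)

/-- The sum over the residue classes modulo `ee t`. -/
def PreStmt : Prop :=
  ∀ (p : ℕ) (S : SD p) (t : ℤ),
    (∀ k k' : ℤ, (S.ee t : ℤ) ∣ k - k' → S.pre t k = S.pre t k') ∧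
    ∑ k ∈ range (S.ee t), S.pre t k ≤ S.ee t * Real.exp (325 * S.sq t)

/-- The contribution of a large common divisor. -/
def TailStmt : Prop :=
  ∀ R : ℝ, ∃ C : ℝ, 0 < C ∧ ∀ (p K : ℕ) (S : SD p) (U : Finset (ℤ × ℤ)), S.Reg R K U →
    (∀ u ∈ U, S.X ^ (1 / 40 : ℝ) ≤ S.ee u.1) →
    ∑ u ∈ U, S.W u.1 u.2 ≤ C * √S.X * S.X ^ (-(1 / 80 : ℝ))

/-- One slice: `t` and the class of `k` modulo `ee t` are fixed. -/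
def SlStmt : Prop :=
  ∀ (p : ℕ) (R : ℝ), p.Prime → p ≠ 2 → ∃ δ ε B C : ℝ, 0 < δ ∧ δ ≤ 1 ∧ 0 < ε ∧ 0 ≤ B ∧ 0 < C ∧
    ∀ K : ℕ, 2 ≤ K → ∃ y₀ : ℝ, ∀ (S : SD p) (y : ℝ) (t k₀ : ℤ) (V : Finset ℤ), y₀ ≤ y →
      S.X ≤ y ^ 40 → y * S.ee t ≤ √(S.Dt : ℝ) → |(2 * t + 1 : ℝ)| ≤ R * √(S.D : ℝ) →
      (∀ k ∈ V, |(S.nn t k : ℝ)| ≤ R * S.D * √(S.Dt : ℝ) ∧ (S.ee t : ℤ) ∣ k - k₀) →
      (∀ k ∈ V, ∀ k' ∈ V, (p : ℤ) ^ K ∣ k - k') →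
      ∑ k ∈ V, S.W t k ≤ S.pre t k₀ * (C * (√(S.Dt : ℝ) / S.ee t) * Real.exp (B * S.sq t) *
        (Real.exp (tsumP (fun q => (S.a q : ℝ) - S.b q) (y ^ δ)) * (p : ℝ) ^ (-(K : ℝ) / 2) +
          y ^ (-ε)))

end Pool.Agent.Lib.MP_9177b7_ag.S4
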