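import Pool.Agent.Lib.MP_9177b7_ag.B.SieveN

/-! Roots of quadratic polynomials modulo prime powers. -/

open Finset

noncomputable section

namespace Pool.Agent.Lib.MP_9177b7_ag.S4.Roots

open B

/-- The number of roots modulo `M`. -/
def rt (M : ℕ) (a b c : ℤ) : ℕ :=
  #((range M).filter fun k : ℕ => (M : ℤ) ∣ a * k ^ 2 + b * k + c)

/-- a class modulo `N` has at most `L` points in `range (N * L)` -/
theorem card_cls (N L : ℕ) (S : Finset ℕ) (hS : S ⊆ range (N * L))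
    (h : ∀ k ∈ S, ∀ l ∈ S, (N : ℤ) ∣ k - l) : #S ≤ L := by
  rcases Nat.eq_zero_or_pos N with rfl | hN
  · exact (card_le_card hS).trans (by simp)
  refine (card_le_card_of_injOn (· / N) (fun k hk => ?_) fun k hk l hl e => ?_).trans
    (card_range L).le
  · exact mem_coe.2 (mem_range.2 (Nat.div_lt_of_lt_mul (mem_range.1 (hS hk))))
  · have h1 : l ≡ k [MOD N] := Nat.modEq_iff_dvd.2 (h k hk l hl)
    rw [← Nat.div_add_mod k N, ← Nat.div_add_mod l N, show k / N = l / N from e, h1]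

/-- two classes -/
theorem rt_le {q : ℕ} (hq : q.Prime) {a b c : ℤ} (ha : ¬ (q : ℤ) ∣ a) {i l : ℕ}
    (h : ∀ k k₀ : ℤ, (q : ℤ) ^ (i + l) ∣ a * k₀ ^ 2 + b * k₀ + c →
      (q : ℤ) ^ (i + l) ∣ (k - k₀) * (a * (k + k₀) + b) →
      (q : ℤ) ^ i ∣ k - k₀ ∨ (q : ℤ) ^ i ∣ a * (k + k₀) + b) :
    rt (q ^ (i + l)) a b c ≤ 2 * q ^ l := by
  classical
  unfold rt
  set S := (range (q ^ (i + l))).filter fun k : ℕ =>
    ((q ^ (i + l) : ℕ) : ℤ) ∣ a * k ^ 2 + b * k + c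
  rcases S.eq_empty_or_nonempty with e | ⟨k₀, h0⟩
  · rw [e]
    simp
  have sub : S ⊆ range (q ^ i * q ^ l) := by rw [← pow_add]; exact filter_subset _ _
  have rt : ∀ k ∈ S, (q : ℤ) ^ (i + l) ∣ a * k ^ 2 + b * k + c := fun k hk => by
    exact_mod_cast (mem_filter.1 hk).2
  have cp : IsCoprime ((q : ℤ) ^ i) a :=
    (((Nat.prime_iff_prime_int.1 hq).irreducible.coprime_iff_not_dvd).2 ha).pow_left
  rw [← card_filter_add_card_filter_not (s := S) fun k : ℕ => (q : ℤ) ^ i ∣ k - k₀, two_mul]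
  refine add_le_add (card_cls (q ^ i) _ _ ((filter_subset _ _).trans sub) fun k hk m hm => ?_)
    (card_cls (q ^ i) _ _ ((filter_subset _ _).trans sub) fun k hk m hm => ?_)
  · push_cast
    exact (dvd_sub (mem_filter.1 hk).2 (mem_filter.1 hm).2).trans (dvd_of_eq (by ring))
  · have key : ∀ k ∈ S.filter fun k : ℕ => ¬ (q : ℤ) ^ i ∣ k - k₀,
        (q : ℤ) ^ i ∣ a * (k + k₀) + b := fun k hk =>
      (h k k₀ (rt _ h0) ((dvd_sub (rt _ (mem_filter.1 hk).1) (rt _ h0)).trans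
        (dvd_of_eq (by ring)))).resolve_left (mem_filter.1 hk).2
    push_cast
    exact cp.dvd_of_dvd_mul_left ((dvd_sub (key k hk) (key m hm)).trans (dvd_of_eq (by ring)))

theorem pow_dvd_or {q x y : ℤ} (hq : Prime q) (i l : ℕ) (h : q ^ (i + l) ∣ x * y) :
    q ^ i ∣ x ∨ q ^ (l + 1) ∣ y := by
  induction i generalizing l with
  | zero => exact Or.inl (by simp)
  | succ i ih =>
    rcases ih (l + 1) (by rwa [show i + (l + 1) = i + 1 + l by ring]) with ⟨x, rfl⟩ | h1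
    · by_cases hx : q ∣ x
      · exact Or.inl (by rw [pow_succ]; exact mul_dvd_mul_left _ hx)
      · rw [show i + 1 + l = i + (l + 1) by ring, pow_add, mul_assoc,
          mul_dvd_mul_iff_left (pow_ne_zero _ hq.ne_zero)] at h
        exact Or.inr (hq.pow_dvd_of_dvd_mul_left _ hx h)
    · exact Or.inr ((pow_dvd_pow _ (by omega)).trans h1)

/-- unit leading coefficient -/
theorem r1 {q : ℕ} (hq : q.Prime) {a : ℤ} (ha : ¬ (q : ℤ) ∣ a) (b c : ℤ) (j : ℕ) :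
    rt (q ^ j) a b c ≤ 2 * q ^ (j / 2) := by
  have := rt_le hq (b := b) (c := c) ha (i := j - j / 2) (l := j / 2) fun k k₀ _ h =>
    (pow_dvd_or (Nat.prime_iff_prime_int.1 hq) _ _ h).imp_right
      fun h => (pow_dvd_pow _ (by omega)).trans h
  rwa [Nat.sub_add_cancel (Nat.div_le_self _ _)] at this

/-- unit leading coefficient and simple roots -/
theorem r2 {q : ℕ} (hq : q.Prime) {a b c : ℤ} (ha : ¬ (q : ℤ) ∣ a) (j : ℕ)
    (h : ∀ k : ℤ, (q : ℤ) ^ j ∣ a * k ^ 2 + b * k + c → ¬ (q : ℤ) ∣ 2 * a * k + b) :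
    rt (q ^ j) a b c ≤ 2 := by
  have hp := Nat.prime_iff_prime_int.1 hq
  have := rt_le hq (b := b) (c := c) ha (i := j) (l := 0) fun k k₀ h0 h1 => by
    by_cases hk : (q : ℤ) ∣ k - k₀
    · refine Or.inl (hp.pow_dvd_of_dvd_mul_right _ (fun h2 => h k₀ h0 ?_) h1)
      exact (dvd_sub h2 (hk.mul_left a)).trans (dvd_of_eq (by ring))
    · exact Or.inr (hp.pow_dvd_of_dvd_mul_left _ hk h1)
  simpa using this

/-- the discriminant is prime to `q` -/
theorem r2a {q : ℕ} (hq : q.Prime) {a b c : ℤ} (ha : ¬ (q : ℤ) ∣ a)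
    (h : ¬ (q : ℤ) ∣ b ^ 2 - 4 * a * c) (j : ℕ) : rt (q ^ j) a b c ≤ 2 := by
  rcases j with _ | j
  · exact (card_filter_le _ _).trans (by simp)
  refine r2 hq ha _ fun k h1 h2 => h ?_
  exact (dvd_sub (h2.pow two_ne_zero) (((dvd_pow_self _ j.succ_ne_zero).trans h1).mul_left
    (4 * a))).trans (dvd_of_eq (by ring))

/-- the discriminant is not divisible by `q ^ 2` -/
theorem r2b {q : ℕ} (hq : q.Prime) {a b c : ℤ} (ha : ¬ (q : ℤ) ∣ a)
    (h : ¬ (q : ℤ) ^ 2 ∣ b ^ 2 - 4 * a * c) {j : ℕ} (hj : 2 ≤ j) : rt (q ^ j) a b c ≤ 2 := by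
  refine r2 hq ha _ fun k h1 h2 => h ?_
  exact (dvd_sub (pow_dvd_pow_of_dvd h2 2) (((pow_dvd_pow _ hj).trans h1).mul_left
    (4 * a))).trans (dvd_of_eq (by ring))

/-- the reduction is linear -/
theorem r3 {q : ℕ} (hq : q.Prime) {a b : ℤ} (ha : (q : ℤ) ∣ a) (hb : ¬ (q : ℤ) ∣ b) (c : ℤ)
    (j : ℕ) : rt (q ^ j) a b c ≤ 1 := by
  refine card_cls (q ^ j) 1 _ (by rw [mul_one]; exact filter_subset _ _) fun k hk l hl => ?_
  have h1 := dvd_sub (mem_filter.1 hk).2 (mem_filter.1 hl).2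
  push_cast at h1 ⊢
  have h2 : ¬ (q : ℤ) ∣ a * (k + l) + b := fun h => hb ((dvd_add_right (ha.mul_right _)).1 h)
  exact (Nat.prime_iff_prime_int.1 hq).pow_dvd_of_dvd_mul_right _ h2
    (h1.trans (dvd_of_eq (by ring)))

theorem r3' {q : ℕ} (hq : q.Prime) {a b : ℤ} (ha : (q : ℤ) ∣ a) (hb : ¬ (q : ℤ) ∣ b) (c : ℤ) :
    rt q a b c = 1 := by
  refine le_antisymm (by simpa using r3 hq ha hb c 1) (card_pos.2 ?_)
  obtain ⟨u, v, e⟩ := ((Nat.prime_iff_prime_int.1 hq).irreducible.coprime_iff_not_dvd).2 hb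
  have q0 : (0 : ℤ) < q := by exact_mod_cast hq.pos
  have h0 := Int.emod_nonneg (-(v * c)) q0.ne'
  have h1 := Int.emod_lt_of_pos (-(v * c)) q0
  refine ⟨(-(v * c) % q).toNat, mem_filter.2 ⟨mem_range.2 (by omega), ?_⟩⟩
  rw [Int.toNat_of_nonneg h0, add_assoc]
  refine dvd_add (ha.mul_right _) ⟨u * c - b * (-(v * c) / q), ?_⟩
  rw [Int.emod_def]
  linear_combination (-c) * e

/-- densities in dimension one -/
theorem den1 (M : ℕ) (h : ℤ → ℝ) :
    denN M (fun u : Fin 1 → ℤ => h (u 0)) = (∑ k ∈ range M, h k) / M := by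
  rw [SieveN.den_cons]
  simp only [SieveN.den_zero, Fin.cons_zero]

/-- densities in dimension two -/
theorem den2 (M : ℕ) (h : ℤ → ℤ → ℝ) :
    denN M (fun u : Fin 2 → ℤ => h (u 0) (u 1)) =
      (∑ t ∈ range M, (∑ k ∈ range M, h t k) / M) / M := by
  rw [SieveN.den_cons]
  simp only [← den1]
  rfl

theorem den_rt (M : ℕ) (a b c : ℤ) :
    denN M (fun u : Fin 1 → ℤ => if (M : ℤ) ∣ a * u 0 ^ 2 + b * u 0 + c then 1 else 0) =
      (rt M a b c : ℝ) / M := by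
  rw [den1 M fun k => if (M : ℤ) ∣ a * k ^ 2 + b * k + c then 1 else 0, sum_boole, rt]

end Pool.Agent.Lib.MP_9177b7_ag.S4.Roots
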