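import Pool.Agent.Lib.MP_9177b7_ag.B.Mert
import Pool.Agent.Lib.MP_9177b7_ag.S4.D1s
import Pool.Agent.Lib.MP_9177b7_ag.S4.Roots

/-! The average over `t` in the first regime. -/

open Finset

noncomputable section

namespace Pool.Agent.Lib.MP_9177b7_ag.S4

open B (tsumP mert)

namespace D1Avg

theorem lin {B : ℝ} (hB : 0 ≤ B) : ∃ A : ℝ, 0 < A ∧ ∀ P : Finset ℕ, (∀ q ∈ P, q.Prime) →
    Real.exp (B * ∑ q ∈ P, 1 / (q : ℝ)) ≤ A * (1 + ∑ q ∈ P, 1 / √(q : ℝ)) := by
  obtain ⟨C, hC⟩ := mert.2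
  obtain ⟨n, hn⟩ := exists_nat_gt B
  have n0 : (0 : ℝ) < n := by linarith
  refine ⟨Real.exp (B * (C + 1)) * (2 * n + 1) ^ n * 2, by positivity, fun P hP => ?_⟩
  set s := ∑ q ∈ P, 1 / √(q : ℝ) with hs
  have s0 : 0 ≤ s := sum_nonneg fun q _ => by positivity
  set z := (s + 2) ^ 2 with hz
  have z2 : 2 ≤ z := by nlinarith
  have h1 : ∑ q ∈ P, 1 / (q : ℝ) ≤ tsumP (fun _ => 1) z + 1 := by
    rw [← sum_filter_add_sum_filter_not P fun q : ℕ => (q : ℝ) ≤ z]
    refine add_le_add (sum_le_sum_of_subset_of_nonneg (fun q hq => ?_) fun q _ _ => by positivity)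
      ?_
    · obtain ⟨a, b⟩ := mem_filter.1 hq
      exact mem_filter.2 ⟨mem_range.2 (Nat.lt_succ_of_le (Nat.le_floor b)), hP q a⟩
    · calc _ ≤ ∑ q ∈ P.filter fun q : ℕ => ¬ (q : ℝ) ≤ z, 1 / √(q : ℝ) / (s + 2) := by
            refine sum_le_sum fun q hq => ?_
            have a := not_le.1 (mem_filter.1 hq).2
            have b : s + 2 ≤ √(q : ℝ) := Real.le_sqrt_of_sq_le a.le
            rw [div_div]
            refine one_div_le_one_div_of_le (by have : 0 < √(q : ℝ) := by linarith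
                                                positivity) ?_
            nlinarith [Real.mul_self_sqrt (Nat.cast_nonneg (α := ℝ) q)]
        _ ≤ s / (s + 2) := by
            rw [← sum_div]
            gcongr
            exact sum_le_sum_of_subset_of_nonneg (filter_subset _ _) fun q _ _ => by positivity
        _ ≤ 1 := div_le_one_of_le₀ (by linarith) (by linarith)
  have l0 : 0 < Real.log z := Real.log_pos (by linarith)
  have h2 : Real.log z ≤ 2 * n * (s + 2) ^ (n : ℝ)⁻¹ := by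
    rw [hz, Real.log_pow]
    have := Real.log_le_rpow_div (x := s + 2) (by linarith) (inv_pos.2 n0)
    rw [div_inv_eq_mul] at this
    push_cast
    linarith
  have h3 : 1 ≤ (s + 2) ^ (n : ℝ)⁻¹ := Real.one_le_rpow (by linarith) (by positivity)
  have h4 : Real.log z ^ B ≤ (2 * n + 1) ^ n * (s + 2) := by
    calc _ ≤ ((2 * n + 1) * (s + 2) ^ (n : ℝ)⁻¹) ^ B :=
          Real.rpow_le_rpow l0.le (by nlinarith) hB
      _ ≤ ((2 * n + 1) * (s + 2) ^ (n : ℝ)⁻¹) ^ (n : ℝ) :=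
          Real.rpow_le_rpow_of_exponent_le (by nlinarith) hn.le
      _ = _ := by
          rw [Real.rpow_natCast, mul_pow, Real.rpow_inv_natCast_pow (by linarith)
            (by exact_mod_cast n0.ne')]
  calc _ ≤ Real.exp (B * (C + 1) + Real.log (Real.log z) * B) :=
        Real.exp_le_exp.2 (by nlinarith [hC z z2])
    _ = Real.exp (B * (C + 1)) * Real.log z ^ B := by
        rw [Real.exp_add, Real.rpow_def_of_pos l0]
    _ ≤ Real.exp (B * (C + 1)) * ((2 * n + 1) ^ n * (2 * (1 + s))) := by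
        gcongr
        exact h4.trans (by gcongr; linarith)
    _ = _ := by ring

/-- points of an interval in one class -/
theorem cls {M : ℕ} (hM : 0 < M) {L : ℕ} {T : Finset ℤ} (h : ∀ t ∈ T, |t| ≤ L) {a : ℤ}
    (ha : ∀ t ∈ T, (M : ℤ) ∣ t - a) : (#T : ℝ) ≤ 2 * L / M + 1 := by
  have h1 : #T ≤ 2 * L / M + 1 := by
    rw [← card_image_of_injOn (f := fun t : ℤ => (t + L).toNat) fun t ht u hu e => by
      have := abs_le.1 (h t ht)
      have := abs_le.1 (h u hu)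
      simp only at e
      omega]
    refine Roots.card_cls M _ _ (fun k hk => ?_) fun k hk l hl => ?_
    · obtain ⟨t, ht, rfl⟩ := mem_image.1 hk
      have := abs_le.1 (h t ht)
      have := Nat.lt_mul_div_succ (2 * L) hM
      exact mem_range.2 (by omega)
    · obtain ⟨t, ht, rfl⟩ := mem_image.1 hk
      obtain ⟨u, hu, rfl⟩ := mem_image.1 hl
      have := abs_le.1 (h t ht)
      have := abs_le.1 (h u hu)
      rw [Int.toNat_of_nonneg (by omega), Int.toNat_of_nonneg (by omega)]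
      exact (dvd_sub (ha t ht) (ha u hu)).trans (dvd_of_eq (by ring))
  have h2 : ((2 * L / M : ℕ) : ℝ) ≤ (2 * L : ℕ) / M := Nat.cast_div_le
  have h3 : (#T : ℝ) ≤ (2 * L / M + 1 : ℕ) := by exact_mod_cast h1
  push_cast at h2 h3 ⊢
  linarith

theorem cnt {q : ℕ} (hq : q.Prime) {L : ℕ} {T : Finset ℤ} (h : ∀ t ∈ T, |t| ≤ L) {d : ℤ}
    (hd : ∀ t ∈ T, (q : ℤ) ∣ d - t * (t + 1)) : (#T : ℝ) ≤ 2 * (2 * L / q + 1) := by
  classical
  rcases T.eq_empty_or_nonempty with rfl | ⟨a, ha⟩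
  · simp only [card_empty, Nat.cast_zero]
    positivity
  rw [← card_filter_add_card_filter_not (s := T) fun t => (q : ℤ) ∣ t - a, two_mul, Nat.cast_add]
  refine add_le_add (cls hq.pos (fun t ht => h t (mem_filter.1 ht).1) fun t ht =>
    (mem_filter.1 ht).2) (cls hq.pos (a := -a - 1) (fun t ht => h t (mem_filter.1 ht).1)
      fun t ht => ?_)
  refine ((Nat.prime_iff_prime_int.1 hq).dvd_or_dvd ?_).resolve_left (mem_filter.1 ht).2
  exact (dvd_sub (hd a ha) (hd t (mem_filter.1 ht).1)).trans (dvd_of_eq (by ring))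

/-- few large prime factors -/
theorem big {n L : ℕ} (hn : n ≠ 0) (hL : 2 ≤ L) (h : n < L ^ 4) :
    #(n.primeFactors.filter fun q => L < q) ≤ 4 := by
  have h1 : L ^ #(n.primeFactors.filter fun q => L < q) ≤ n :=
    (pow_card_le_prod _ (fun q => q) _ fun q hq => (mem_filter.1 hq).2.le).trans
      (Nat.le_of_dvd (Nat.pos_of_ne_zero hn) ((prod_dvd_prod_of_subset _ _ _
        (filter_subset _ _)).trans (Nat.prod_primeFactors_dvd n)))
  exact ((Nat.pow_lt_pow_iff_right (by omega)).1 (h1.trans_lt h)).le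

theorem core {B : ℝ} (hB : 0 ≤ B) : ∃ C : ℝ, 0 < C ∧ ∀ (L : ℕ) (d : ℤ) (T : Finset ℤ), 2 ≤ L →
    (∀ t ∈ T, |t| ≤ L ∧ d - t * (t + 1) ≠ 0 ∧ (d - t * (t + 1)).natAbs < L ^ 4) →
    ∑ t ∈ T, Real.exp (B * ∑ q ∈ (d - t * (t + 1)).natAbs.primeFactors, 1 / (q : ℝ)) ≤
      C * L := by
  classical
  obtain ⟨A, A0, hA⟩ := lin hB
  have sm : Summable fun q : ℕ => (q : ℝ) ^ (-(3 : ℝ) / 2) :=
    Real.summable_nat_rpow.2 (by norm_num)
  set Z := ∑' q : ℕ, (q : ℝ) ^ (-(3 : ℝ) / 2)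
  have Z0 : 0 ≤ Z := tsum_nonneg fun q => by positivity
  refine ⟨A * (15 + 6 * Z), by positivity, fun L d T hL h => ?_⟩
  have L2 : (2 : ℝ) ≤ L := by exact_mod_cast hL
  let P := (range (L + 1)).filter Nat.Prime
  have h1 : ∀ t ∈ T, ∑ q ∈ (d - t * (t + 1)).natAbs.primeFactors, 1 / √(q : ℝ) ≤
      4 + ∑ q ∈ P, if (q : ℤ) ∣ d - t * (t + 1) then 1 / √(q : ℝ) else 0 := fun t ht => by
    rw [← sum_filter_add_sum_filter_not _ fun q : ℕ => L < q, ← sum_filter]
    refine add_le_add ((sum_le_card_nsmul _ _ 1 fun q hq => ?_).trans ?_)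
      (sum_le_sum_of_subset_of_nonneg (fun q hq => ?_) fun q _ _ => by positivity)
    · have : (1 : ℝ) ≤ q := by
        exact_mod_cast (Nat.prime_of_mem_primeFactors (mem_filter.1 hq).1).one_le
      exact div_le_one_of_le₀ (Real.one_le_sqrt.2 this) (by positivity)
    · rw [nsmul_eq_mul, mul_one]
      exact_mod_cast big (Int.natAbs_ne_zero.2 (h t ht).2.1) hL (h t ht).2.2
    · obtain ⟨a, b⟩ := mem_filter.1 hq
      exact mem_filter.2 ⟨mem_filter.2 ⟨mem_range.2 (by omega), Nat.prime_of_mem_primeFactors a⟩,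
        Int.natCast_dvd.2 (Nat.dvd_of_mem_primeFactors a)⟩
  have h2 : ∑ t ∈ T, ∑ q ∈ P, (if (q : ℤ) ∣ d - t * (t + 1) then 1 / √(q : ℝ) else 0) ≤
      6 * L * Z := by
    rw [sum_comm]
    refine le_trans (sum_le_sum fun q hq => ?_) ((mul_sum _ _ _).symm.trans_le
      (mul_le_mul_of_nonneg_left (sm.sum_le_tsum P fun q _ => by positivity) (by positivity)))
    obtain ⟨a, hq⟩ := mem_filter.1 hq
    have q0 : (0 : ℝ) < q := by exact_mod_cast hq.pos
    have q1 : 1 ≤ (L : ℝ) / q := (one_le_div q0).2 (by exact_mod_cast Nat.lt_succ_iff.1 (mem_range.1 a))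
    have e : (q : ℝ) ^ (-(3 : ℝ) / 2) = 1 / q * (1 / √(q : ℝ)) := by
      rw [Real.sqrt_eq_rpow, one_div, one_div, ← Real.rpow_neg_one, ← Real.rpow_neg q0.le,
        ← Real.rpow_add q0]
      norm_num
    rw [← sum_filter, sum_const, nsmul_eq_mul, e, ← mul_assoc, mul_one_div (6 * (L : ℝ))]
    refine mul_le_mul_of_nonneg_right ((cnt hq (fun t ht => (h t (mem_filter.1 ht).1).1)
      fun t ht => (mem_filter.1 ht).2).trans ?_) (by positivity)
    simp only [mul_div_assoc]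
    linarith
  have h3 := cls one_pos (fun t ht => (h t ht).1) (a := 0) fun t _ => by simp
  refine (sum_le_sum fun t ht => (hA _ fun q => Nat.prime_of_mem_primeFactors).trans
    (mul_le_mul_of_nonneg_left (add_le_add le_rfl (h1 t ht)) A0.le)).trans ?_
  rw [← mul_sum, mul_assoc]
  refine mul_le_mul_of_nonneg_left ?_ A0.le
  simp only [sum_add_distrib, sum_const, nsmul_eq_mul]
  push_cast at h3
  nlinarith

end D1Avg

open D1Avg in
theorem avg : AvgStmt := by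
  intro p R B hp hB
  obtain ⟨C₁, c1, h1⟩ := core hB
  obtain ⟨C₂, c2, h2⟩ := core (B := 2 * B) (by linarith)
  set r := |R| + 4
  have r4 : 4 ≤ r := by have := abs_nonneg R; simp only [r]; linarith
  refine ⟨C₁ * r + (C₂ + 3) * r, by positivity, fun K => ⟨(p ^ K) ^ 2, fun S hS T hT => ?_⟩⟩
  have D1 : (1 : ℝ) ≤ S.D := by exact_mod_cast S.D_gt.le
  have s1 : 1 ≤ √(S.D : ℝ) := Real.one_le_sqrt.2 D1
  have ss := Real.mul_self_sqrt (show (0 : ℝ) ≤ S.D by linarith)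
  have a0 := abs_nonneg R
  set L := ⌊r * √(S.D : ℝ)⌋₊
  have L1 : (L : ℝ) ≤ r * √(S.D : ℝ) := Nat.floor_le (by positivity)
  have L2 : r * √(S.D : ℝ) < L + 1 := Nat.lt_floor_add_one _
  have L3 : (|R| + 3) * √(S.D : ℝ) ≤ L := by simp only [r] at L2; nlinarith
  have L4 : (3 : ℝ) ≤ L := by nlinarith
  have hT' : ∀ t ∈ T, |t| ≤ L ∧ S.d₀ - t * (t + 1) ≠ 0 ∧ (S.d₀ - t * (t + 1)).natAbs < L ^ 4 :=
    fun t ht => by
      have a1 : |(2 * t + 1 : ℝ)| ≤ L :=
        (hT t ht).trans (by nlinarith [le_abs_self R])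
      have a2 : |2 * t + 1| ≤ (L : ℤ) := by exact_mod_cast a1
      have a3 : (S.D : ℝ) ≤ L ^ 2 := by
        have : √(S.D : ℝ) ≤ L := by nlinarith
        nlinarith
      have a4 : (S.D : ℤ) ≤ L ^ 2 := by exact_mod_cast a3
      have a5 : (3 : ℤ) ≤ L := by exact_mod_cast L4
      have a6 := S.four_dl t
      have a7 := sq_le_sq' (abs_le.1 a2).1 (abs_le.1 a2).2
      refine ⟨abs_le.2 ⟨by linarith [(abs_le.1 a2).1], by linarith [(abs_le.1 a2).2]⟩,
        S.dl_ne t, ?_⟩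
      have a8 : |S.dl t| < (L : ℤ) ^ 4 := by
        have : (L : ℤ) ^ 2 < L ^ 4 := by nlinarith [sq_nonneg ((L : ℤ) ^ 2 - 1)]
        exact abs_lt.2 ⟨by nlinarith [sq_nonneg (2 * t + 1)], by nlinarith [sq_nonneg (2 * t + 1)]⟩
      rw [Int.abs_eq_natAbs] at a8
      exact_mod_cast a8
  have L5 : 2 ≤ L := by exact_mod_cast (show (2 : ℝ) ≤ L by linarith)
  have b1 : ∑ t ∈ T, Real.exp (B * S.sq t) ≤ C₁ * L := h1 L S.d₀ T L5 hT'
  have b2 : ∑ t ∈ T, Real.exp (2 * B * S.sq t) ≤ C₂ * L := h2 L S.d₀ T L5 hT'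
  refine ⟨b1.trans (by nlinarith [mul_le_mul_of_nonneg_left L1 c1.le, mul_pos c2 (show 0 < r * √(S.D : ℝ) by positivity)]), fun t₀ h0 => ?_⟩
  have p0 : (0 : ℝ) < (p : ℝ) ^ K := by have := hp.pos; positivity
  have b3 := cls (M := p ^ K) (pow_pos hp.pos _) (fun t ht => (hT' t ht).1) (a := t₀)
    fun t ht => by exact_mod_cast h0 t ht
  have b4 : (p : ℝ) ^ K ≤ √(S.D : ℝ) := Real.le_sqrt_of_sq_le (by exact_mod_cast hS)
  have b5 : 1 ≤ (L : ℝ) / (p : ℝ) ^ K := (one_le_div p0).2 (by nlinarith)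
  have b6 := sq_sum_le_card_mul_sum_sq (s := T) (f := fun t => Real.exp (B * S.sq t))
  simp only [← Real.exp_nat_mul, Nat.cast_ofNat, ← mul_assoc] at b6
  have e : ((p : ℝ) ^ (-(K : ℝ) / 2)) ^ 2 = 1 / (p : ℝ) ^ K := by
    rw [← Real.rpow_natCast, ← Real.rpow_mul p.cast_nonneg, one_div, ← Real.rpow_natCast,
      ← Real.rpow_neg p.cast_nonneg]
    congr 1
    push_cast
    ring
  refine abs_le_of_sq_le_sq' (b6.trans ?_) (by positivity) |>.2
  push_cast at b3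
  rw [mul_div_assoc] at b3
  calc _ ≤ 3 * ((L : ℝ) / (p : ℝ) ^ K) * (C₂ * L) :=
        mul_le_mul (by linarith) b2 (sum_nonneg fun t _ => (Real.exp_pos _).le) (by positivity)
    _ = 3 * C₂ * L ^ 2 * (1 / (p : ℝ) ^ K) := by ring
    _ ≤ (C₂ + 3) ^ 2 * (r * √(S.D : ℝ)) ^ 2 * (1 / (p : ℝ) ^ K) := by
        gcongr
        nlinarith
    _ = ((C₂ + 3) * r * √(S.D : ℝ)) ^ 2 * (1 / (p : ℝ) ^ K) := by ring
    _ ≤ _ := by
        rw [mul_pow _ ((p : ℝ) ^ (-(K : ℝ) / 2)), e]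
        gcongr
        exact le_add_of_nonneg_left (by positivity)

end Pool.Agent.Lib.MP_9177b7_ag.S4
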