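import Pool.Agent.Lib.MP_9177b7_ag.S4.D1s
import Pool.Agent.Lib.MP_9177b7_ag.S4.Roots
import Pool.Agent.Lib.MP_9177b7_ag.B.ShiuN1

/-!
The sum of the weights of the residue classes modulo the common divisor.
-/

open Finset

noncomputable section

namespace Pool.Agent.Lib.MP_9177b7_ag.S4

namespace D1Pre

variable {p : ℕ} (S : SD p) (t : ℤ)

open Classical in
/-- The local factor. -/
def loc (l : ℕ) (k : ℤ) : ℝ :=
  if (l : ℤ) ^ 2 ∣ S.QQ t k then 162 else if S.Sg l ((S.nn t k + S.c * S.dl t) / l) then 2 else 0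

theorem loc_nonneg (l : ℕ) (k : ℤ) : 0 ≤ loc S t l k := by
  unfold loc
  split_ifs <;> norm_num

variable {S t}

/-- The structure at a prime that divides `2 t + 1` and `D`. -/
theorem str {l : ℕ} (hl : l.Prime) (h1 : (l : ℤ) ∣ 2 * t + 1) (h2 : l ∣ S.D) :
    ∃ D' d' : ℤ, ¬ (l : ℤ) ∣ D' ∧ (S.D : ℤ) = l * D' ∧ S.dl t = l * d' ∧ ∀ k,
      ((l : ℤ) ^ 2 ∣ S.QQ t k ↔ (l : ℤ) ∣ D' * k ^ 2 + 2 * S.c * d' * k + S.m * l * d' ^ 2) ∧
      (S.nn t k + S.c * S.dl t) / l = 2 * S.c * d' + D' * k := by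
  have hp := Nat.prime_iff_prime_int.1 hl
  obtain ⟨D', hD⟩ : (l : ℤ) ∣ S.D := Int.natCast_dvd_natCast.2 h2
  obtain ⟨d', hd⟩ : (l : ℤ) ∣ S.dl t := by
    have h3 : (l : ℤ) ∣ 4 * S.dl t := by
      rw [S.four_dl, hD]
      exact dvd_sub (dvd_mul_right _ _) (h1.pow two_ne_zero)
    refine (hp.dvd_or_dvd h3).resolve_left fun h => hp.not_dvd_one ?_
    have h4 : (l : ℤ) ∣ 2 := hp.dvd_of_dvd_pow (n := 2) (by simpa using h)
    exact (dvd_add_right (h4.mul_right t)).1 h1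
  refine ⟨D', d', fun ⟨x, hx⟩ => ?_, hD, hd, fun k => ⟨?_, ?_⟩⟩
  · refine hl.not_isUnit (S.sqf.of_mul_left l (Int.natCast_dvd_natCast.1 ⟨x, ?_⟩))
    rw [hD, hx]
    push_cast
    ring
  · rw [show S.QQ t k = l * (D' * k ^ 2 + 2 * S.c * d' * k + S.m * l * d' ^ 2) by
      rw [SD.QQ, hD, hd]; ring, sq, mul_dvd_mul_iff_left hp.ne_zero]
  · rw [show S.nn t k + S.c * S.dl t = l * (2 * S.c * d' + D' * k) by rw [SD.nn, hD, hd]; ring,
      Int.mul_ediv_cancel_left _ hp.ne_zero]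

theorem loc_per {l : ℕ} (hl : l.Prime) (h1 : (l : ℤ) ∣ 2 * t + 1) (h2 : l ∣ S.D) {k k' : ℤ}
    (h : (l : ℤ) ∣ k - k') : loc S t l k = loc S t l k' := by
  obtain ⟨D', d', -, -, -, H⟩ := str hl h1 h2
  have e1 : (l : ℤ) ∣ D' * k ^ 2 + 2 * S.c * d' * k + S.m * l * d' ^ 2 ↔
      (l : ℤ) ∣ D' * k' ^ 2 + 2 * S.c * d' * k' + S.m * l * d' ^ 2 :=
    Int.dvd_iff_dvd_of_dvd_sub ((h.mul_right (D' * (k + k') + 2 * S.c * d')).trans
      (dvd_of_eq (by ring)))
  have e2 : S.Sg l (2 * S.c * d' + D' * k) ↔ S.Sg l (2 * S.c * d' + D' * k') :=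
    ⟨S.Sg_per l _ _ ((h.mul_left D').trans (dvd_of_eq (by ring))),
      S.Sg_per l _ _ ((h.mul_left (-D')).trans (dvd_of_eq (by ring)))⟩
  unfold loc
  rw [(H k).2, (H k').2, propext e2]
  simp only [(H _).1, e1]

theorem loc_sum {l : ℕ} (hl : l.Prime) (h1 : (l : ℤ) ∣ 2 * t + 1) (h2 : l ∣ S.D) :
    ∑ k ∈ range l, loc S t l k ≤ l + 325 := by
  classical
  obtain ⟨D', d', hD, -, -, H⟩ := str hl h1 h2
  have l0 : (0 : ℤ) < l := by exact_mod_cast hl.pos
  have a1 : Roots.rt l D' (2 * S.c * d') (S.m * l * d' ^ 2) ≤ 2 := by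
    simpa using Roots.r1 hl hD (2 * S.c * d') (S.m * l * d' ^ 2) 1
  have a2 : #((range l).filter fun k : ℕ => S.Sg l (2 * S.c * d' + D' * k)) ≤
      #((range l).filter fun x : ℕ => S.Sg l x) := by
    refine card_le_card_of_injOn (fun k : ℕ => ((2 * S.c * d' + D' * k) % l).toNat)
      (fun k hk => ?_) fun k hk k' hk' e => ?_
    · have h3 := Int.emod_nonneg (2 * S.c * d' + D' * k) l0.ne'
      have h4 := Int.emod_lt_of_pos (2 * S.c * d' + D' * k) l0
      refine mem_coe.2 (mem_filter.2 ⟨mem_range.2 ((Int.toNat_lt h3).2 h4), ?_⟩)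
      rw [Int.toNat_of_nonneg h3]
      exact S.Sg_per l _ _ (Int.dvd_self_sub_emod) (mem_filter.1 hk).2
    · have h3 := congrArg (Nat.cast : ℕ → ℤ) e
      simp only [Int.toNat_of_nonneg (Int.emod_nonneg _ l0.ne')] at h3
      have h4 : (l : ℤ) ∣ D' * (k' - k) :=
        (Int.ModEq.dvd h3).trans (dvd_of_eq (by ring))
      have h5 : k ≡ k' [MOD l] := Nat.modEq_iff_dvd.2
        (((Nat.prime_iff_prime_int.1 hl).dvd_or_dvd h4).resolve_left hD)
      exact Nat.ModEq.eq_of_lt_of_lt h5 (mem_range.1 (mem_filter.1 hk).1)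
        (mem_range.1 (mem_filter.1 hk').1)
  have a3 := S.Sg_card l hl h2
  have a4 : ∑ k ∈ range l, loc S t l k ≤ ∑ k ∈ range l,
      (162 * (if (l : ℤ) ∣ D' * (k : ℤ) ^ 2 + 2 * S.c * d' * k + S.m * l * d' ^ 2 then 1 else 0) +
        2 * if S.Sg l (2 * S.c * d' + D' * k) then 1 else 0 : ℝ) :=
    sum_le_sum fun k _ => by
      rw [loc, (H _).2]
      simp only [(H _).1]
      split_ifs <;> norm_num
  rw [sum_add_distrib, ← mul_sum, ← mul_sum, sum_boole, sum_boole] at a4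
  have a5 : 162 * Roots.rt l D' (2 * S.c * d') (S.m * l * d' ^ 2) +
      2 * #((range l).filter fun k : ℕ => S.Sg l (2 * S.c * d' + D' * k)) ≤ l + 325 := by
    have : 2 * #((range l).filter fun x : ℕ => S.Sg l x) ≤ l + 1 := by convert a3
    omega
  exact a4.trans (by exact_mod_cast a5)

/-- The sum over the classes modulo a common divisor of `2 t + 1` and `D`. -/
theorem sum_le (S : SD p) (t : ℤ) {e : ℕ} (h1 : (e : ℤ) ∣ 2 * t + 1) (h2 : e ∣ S.D) :
    ∑ k ∈ range e, ∏ l ∈ e.primeFactors, loc S t l k ≤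
      e * Real.exp (325 * ∑ q ∈ (S.dl t).natAbs.primeFactors, 1 / (q : ℝ)) := by
  have sq : Squarefree e := S.sqf.of_mul_left.squarefree_of_dvd h2
  have e0 : (0 : ℝ) < e := by exact_mod_cast Nat.pos_of_ne_zero sq.ne_zero
  have H : ∀ l ∈ e.primeFactors, l.Prime ∧ (l : ℤ) ∣ 2 * t + 1 ∧ l ∣ S.D := fun l hl =>
    ⟨Nat.prime_of_mem_primeFactors hl,
      (Int.natCast_dvd_natCast.2 (Nat.dvd_of_mem_primeFactors hl)).trans h1,
      (Nat.dvd_of_mem_primeFactors hl).trans h2⟩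
  have key := B.ShiuN.den_prod (d := 1) e.primeFactors.attach (fun l => l.1)
    (fun l => (H _ l.2).1.pos)
    (fun l l' h => (Nat.coprime_primes (H _ l.2).1 (H _ l'.2).1).2 fun e => h (Subtype.ext e))
    (fun l u => loc S t l (u 0))
    (fun l u v h => loc_per (H _ l.2).1 (H _ l.2).2.1 (H _ l.2).2.2 (h 0))
  simp only [prod_attach e.primeFactors fun l => l, Nat.prod_primeFactors_of_squarefree sq,
    fun u : Fin 1 → ℤ => prod_attach e.primeFactors fun l => loc S t l (u 0)] at key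
  rw [Roots.den1 e fun k => ∏ l ∈ e.primeFactors, loc S t l k,
    prod_attach e.primeFactors fun l => B.denN l fun u : Fin 1 → ℤ => loc S t l (u 0),
    div_eq_iff e0.ne', mul_comm] at key
  rw [key]
  refine mul_le_mul_of_nonneg_left ?_ e0.le
  calc _ ≤ ∏ l ∈ e.primeFactors, Real.exp (325 * (1 / (l : ℝ))) := by
        refine prod_le_prod (fun l _ => ?_) fun l hl => ?_
        · rw [Roots.den1 l (loc S t l)]
          exact div_nonneg (sum_nonneg fun k _ => loc_nonneg _ _ _ _) (Nat.cast_nonneg _)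
        · have l0 : (0 : ℝ) < l := by exact_mod_cast (H l hl).1.pos
          rw [Roots.den1 l (loc S t l)]
          refine le_trans ?_ (Real.add_one_le_exp _)
          rw [div_le_iff₀ l0, add_mul, mul_assoc, one_div_mul_cancel l0.ne']
          linarith [loc_sum (H l hl).1 (H l hl).2.1 (H l hl).2.2]
    _ ≤ _ := by
        rw [← Real.exp_sum, ← mul_sum]
        refine Real.exp_le_exp.2 (mul_le_mul_of_nonneg_left (sum_le_sum_of_subset_of_nonneg
          (fun l hl => ?_) fun _ _ _ => by positivity) (by norm_num))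
        obtain ⟨-, d', -, -, hd, -⟩ := str (H l hl).1 (H l hl).2.1 (H l hl).2.2
        exact Nat.mem_primeFactors.2 ⟨(H l hl).1, Int.natCast_dvd.1 ⟨d', hd⟩,
          Int.natAbs_ne_zero.2 (S.dl_ne t)⟩

end D1Pre

open D1Pre in
theorem pre : PreStmt := by
  intro p S t
  have h1 : (S.ee t : ℤ) ∣ 2 * t + 1 := Int.natCast_dvd.2 (Nat.gcd_dvd_left _ _)
  have h2 : S.ee t ∣ S.D := Nat.gcd_dvd_right _ _
  refine ⟨fun k k' h => prod_congr rfl fun l hl => ?_, sum_le S t h1 h2⟩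
  have h3 := Int.natCast_dvd_natCast.2 (Nat.dvd_of_mem_primeFactors hl)
  exact loc_per (Nat.prime_of_mem_primeFactors hl) (h3.trans h1)
    ((Nat.dvd_of_mem_primeFactors hl).trans h2) (h3.trans h)

theorem D1Pre.pre_nonneg {p : ℕ} (S : SD p) (t k : ℤ) : 0 ≤ S.pre t k :=
  prod_nonneg fun l _ => D1Pre.loc_nonneg S t l k

end Pool.Agent.Lib.MP_9177b7_ag.S4
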