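import Pool.Agent.Lib.MP_9177b7_ag.S4.D1b

/-!
The sieve bound on one slice in the first regime.
-/

noncomputable section

namespace Pool.Agent.Lib.MP_9177b7_ag.S4

namespace D1

open B B.Slice Finset ShiuN Roots Classical

variable {p : ℕ} {S : SD p} {t k₀ : ℤ} {q e₁ : ℕ} {α β γ : ℤ}

lemma big {v j : ℕ} (h : v ≤ 2 * j) (hj : 1 ≤ j) : 2 * ((v : ℝ) + 1) ^ 4 ≤ ((j : ℝ) + 1) ^ 324 := by
  have h1 : (v : ℝ) ≤ 2 * j := by exact_mod_cast h
  have h2 : (1 : ℝ) ≤ j := by exact_mod_cast hj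
  calc _ ≤ 2 * (2 * ((j : ℝ) + 1)) ^ 4 := by gcongr; linarith
    _ = 2 ^ 5 * ((j : ℝ) + 1) ^ 4 := by ring
    _ ≤ ((j : ℝ) + 1) ^ 5 * ((j : ℝ) + 1) ^ 4 := by gcongr; linarith
    _ ≤ _ := by
        rw [← pow_add]
        exact pow_le_pow_right₀ (by linarith) (by norm_num)

lemma sqf1 {n : ℕ} (h : Squarefree n) (hq : q.Prime) :
    n.factorization q = if q ∣ n then 1 else 0 := by
  split_ifs with e
  · exact Nat.factorization_eq_one_of_squarefree h hq e
  · exact Nat.factorization_eq_zero_of_not_dvd e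

lemma Pol.fac (H : Pol S t k₀ e₁ α β γ) (hq : q.Prime) (u : ℤ) :
    (S.QQ t (k₀ + S.ee t * u)).natAbs.factorization q = (if q ∣ S.ee t then 1 else 0) +
      (if q ∣ e₁ then 1 else 0) + (α * u ^ 2 + β * u + γ).natAbs.factorization q := by
  have s1 : Squarefree (S.ee t) := S.sqf.of_mul_left.squarefree_of_dvd (ee_D S t)
  have s2 := s1.squarefree_of_dvd H.dvd
  rw [H.val, Int.natAbs_mul, Int.natAbs_mul, Int.natAbs_natCast, Int.natAbs_natCast,
    Nat.factorization_mul (mul_ne_zero s1.ne_zero s2.ne_zero) (Int.natAbs_ne_zero.2 (H.qd.ne u)),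
    Nat.factorization_mul s1.ne_zero s2.ne_zero, Finsupp.add_apply, Finsupp.add_apply,
    sqf1 s1 hq, sqf1 s2 hq]

lemma Pol.nr (H : Pol S t k₀ e₁ α β γ) (hq : q.Prime) (h : q ∣ S.ee t) (h' : ¬ q ∣ e₁) (u : ℤ) :
    (α * u ^ 2 + β * u + γ).natAbs.factorization q = 0 := by
  have h1 := H.al q hq (h.trans (ee_D S t))
  have h2 := H.ga q hq h h'
  exact Nat.factorization_eq_zero_of_not_dvd fun e => H.qd.sh q hq h1 h2
    ((dvd_add_right (dvd_add (h1.mul_right _) (h2.mul_right _))).1 (Int.natCast_dvd.2 e))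

lemma Pol.loc (H : Pol S t k₀ e₁ α β γ) (hp : p.Prime) (hq : q.Prime) (u : Fin 1 → ℤ)
    (h : q ∣ (S.QQ t (k₀ + S.ee t * u 0)).natAbs) :
    S.G q ((S.QQ t (k₀ + S.ee t * u 0)).natAbs.factorization q) t (k₀ + S.ee t * u 0) ≤
      (if q ∣ S.ee t then (if (q : ℤ) ^ 2 ∣ S.QQ t k₀ then 162
        else if S.Sg q ((S.nn t k₀ + S.c * S.dl t) / q) then 2 else 0) else 1) *
      ww (2 * p) 324 (n1 S t k₀ α β γ) q
        ((hf (2 * S.dl t).natAbs (α * u 0 ^ 2 + β * u 0 + γ).natAbs).factorization q) u := by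
  have v1 := hq.factorization_pos_of_dvd (Int.natAbs_ne_zero.2 (S.QQ_ne _ _)) h
  have f0 := H.fac hq 0
  have fu := H.fac hq (u 0)
  have r2 : (q : ℤ) ^ 2 ∣ S.QQ t k₀ ↔ 2 ≤ (S.QQ t k₀).natAbs.factorization q := by
    rw [← Nat.cast_pow, Int.natCast_dvd,
      hq.pow_dvd_iff_le_factorization (Int.natAbs_ne_zero.2 (S.QQ_ne _ _))]
  have bd : q ∣ 2 * p ↔ q = 2 ∨ q = p := by
    rw [Nat.Prime.dvd_mul hq, Nat.prime_dvd_prime_iff_eq hq Nat.prime_two,
      Nat.prime_dvd_prime_iff_eq hq hp]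
  have df : 1 ≤ (α * u 0 ^ 2 + β * u 0 + γ).natAbs.factorization q →
      (q : ℤ) ∣ α * u 0 ^ 2 + β * u 0 + γ := fun h =>
    Int.natCast_dvd.2 (Nat.dvd_of_factorization_pos (by omega))
  have gl := S.G_le hq ((S.QQ t (k₀ + S.ee t * u 0)).natAbs.factorization q) t (k₀ + S.ee t * u 0)
  rw [mul_zero, add_zero] at f0
  rw [hf_fact]
  generalize (S.QQ t (k₀ + S.ee t * u 0)).natAbs.factorization q = v at *
  set w := (α * u 0 ^ 2 + β * u 0 + γ).natAbs.factorization q with hw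
  have dbl : q ∣ (2 * S.dl t).natAbs → 1 ≤ w → 2 * ((w : ℝ) + 1) ^ 4 ≤
      ww (2 * p) 324 (n1 S t k₀ α β γ) q ((w + 1) / 2) u := fun h1 h2 => by
    unfold ww
    split_ifs with c
    · rw [n1, if_pos h1, if_pos (df h2)]
      have : (w : ℝ) ≤ 2 := by exact_mod_cast (by omega : w ≤ 2)
      calc _ ≤ 2 * ((2 : ℝ) + 1) ^ 4 := by gcongr
        _ = _ := by norm_num
    · exact big (by omega) (by omega)
  by_cases c : q ∣ S.ee t
  · have cD := c.trans (ee_D S t)
    rw [if_pos c] at f0 fu ⊢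
    rw [if_pos (ee_Δ S t c)]
    by_cases c1 : q ∣ e₁
    · rw [if_pos c1] at f0 fu
      rw [if_pos (r2.2 (by omega))]
      refine gl.trans ?_
      have w0 : (0 : ℝ) ≤ w := w.cast_nonneg
      have : 2 * ((v : ℝ) + 1) ^ 4 ≤ 162 * ((w : ℝ) + 1) ^ 4 := by
        rw [fu]
        push_cast
        calc _ ≤ 2 * (3 * ((w : ℝ) + 1)) ^ 4 := by gcongr; linarith
          _ = _ := by ring
      refine this.trans (mul_le_mul_of_nonneg_left ?_ (by norm_num))
      rcases Nat.eq_zero_or_pos w with z | z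
      · simp [z, ww]
      · exact le_trans (by nlinarith [show 0 ≤ ((w : ℝ) + 1) ^ 4 by positivity])
          (dbl (ee_Δ S t c) z)
    · rw [if_neg c1] at f0 fu
      rw [H.nr hq c c1] at f0
      have z : w = 0 := H.nr hq c c1 _
      have cq : (q : ℤ) ∣ S.ee t := Int.natCast_dvd_natCast.2 c
      have n2 : q ≠ 2 := fun e => D_two S hq cD (by rw [e]; rfl)
      have np : q ≠ p := fun e => S.cop ((dvd_of_eq e.symm).trans (cD.mul_right _))
      have sg : S.Sg q ((S.nn t (k₀ + S.ee t * u 0) + S.c * S.dl t) / q) ↔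
          S.Sg q ((S.nn t k₀ + S.c * S.dl t) / q) := by
        obtain ⟨D₁, hD⟩ := Int.natCast_dvd_natCast.2 cD
        have q0 : (q : ℤ) ≠ 0 := by exact_mod_cast hq.ne_zero
        have e : (S.nn t (k₀ + S.ee t * u 0) + S.c * S.dl t) / q =
            (S.nn t k₀ + S.c * S.dl t) / q + D₁ * (S.ee t * u 0) := by
          rw [← Int.add_mul_ediv_left _ _ q0]
          congr 1
          simp only [SD.nn, hD]
          ring
        have d : (q : ℤ) ∣ D₁ * (S.ee t * u 0) := (cq.mul_right _).mul_left _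
        rw [e]
        exact ⟨S.Sg_per q _ _ (by simpa using d), S.Sg_per q _ _ (by simpa using d)⟩
      rw [if_neg fun h => by have := r2.1 h; omega, z, SD.G, if_pos ⟨by omega, n2, np⟩, if_pos cD,
        if_pos (cq.trans (ee_t S t))]
      simp [ww, sg]
  · rw [if_neg c, if_neg fun h => c (h.trans H.dvd)] at fu
    obtain rfl : v = w := by omega
    rw [if_neg c, one_mul]
    split_ifs with c1
    · exact gl.trans (dbl c1 v1)
    · unfold ww
      split_ifs with c2
      · have := bd.not.1 c2.2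
        rw [SD.G, if_pos ⟨c2.1, fun e => this (Or.inl e), fun e => this (Or.inr e)⟩, n1, if_neg c1]
        by_cases cD : q ∣ S.D
        · rw [if_pos cD, if_pos cD, if_pos (df v1), if_neg fun h =>
            c (Nat.dvd_gcd (Int.natCast_dvd.1 h) cD), Nat.cast_sub (S.a_pos q hq cD), Nat.cast_one]
        · rw [if_neg cD, if_neg cD, Nat.cast_sum]
      · exact gl.trans (big (by omega) v1)

lemma Pol.wt (H : Pol S t k₀ e₁ α β γ) (hp : p.Prime) (u : Fin 1 → ℤ) :
    S.W t (k₀ + S.ee t * u 0) ≤ S.pre t k₀ *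
      ∏ q ∈ (hf (2 * S.dl t).natAbs (α * u 0 ^ 2 + β * u 0 + γ).natAbs).primeFactors,
        ww (2 * p) 324 (n1 S t k₀ α β γ) q
          ((hf (2 * S.dl t).natAbs (α * u 0 ^ 2 + β * u 0 + γ).natAbs).factorization q) u := by
  have Q0 := Int.natAbs_ne_zero.2 (S.QQ_ne t (k₀ + S.ee t * u 0))
  have d1 : S.ee t ∣ (S.QQ t (k₀ + S.ee t * u 0)).natAbs := Int.natCast_dvd.1 (by
    rw [H.val, mul_assoc]; exact dvd_mul_right _ _)
  have d2 : (α * u 0 ^ 2 + β * u 0 + γ).natAbs ∣ (S.QQ t (k₀ + S.ee t * u 0)).natAbs :=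
    Int.natAbs_dvd_natAbs.2 (by rw [H.val]; exact dvd_mul_left _ _)
  refine (prod_le_prod (fun q hq => S.G_nonneg (Nat.prime_of_mem_primeFactors hq) _ _ _)
    fun q hq => H.loc hp (Nat.prime_of_mem_primeFactors hq) u
      (Nat.dvd_of_mem_primeFactors hq)).trans (le_of_eq ?_)
  rw [prod_mul_distrib, ← prod_filter, Nat.primeFactors_filter_dvd_of_dvd Q0 d1]
  congr 1
  exact (prod_subset (Nat.primeFactors_mono ((hf_le _ (Int.natAbs_ne_zero.2 (H.qd.ne _))).trans d2)
    Q0) fun q _ hq => by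
      rw [Finsupp.notMem_support_iff.1 (Nat.support_factorization _ ▸ hq)]
      simp [ww]).symm

lemma expo' (S : SD p) (t : ℤ) (x : ℝ) : tsumP (fun q => (a1 S t q : ℝ) - b1 S t q) x ≤
    tsumP (fun q => (S.a q : ℝ) - S.b q) x + (326 * S.sq t + 163) := by
  have h0 := Int.natAbs_ne_zero.2 (S.dl_ne t)
  have h1 : ∑ q ∈ (2 * S.dl t).natAbs.primeFactors, 326 / (q : ℝ) ≤ 326 * S.sq t + 163 := by
    have := sum_union_inter (s₁ := Nat.primeFactors 2) (s₂ := (S.dl t).natAbs.primeFactors)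
      (f := fun q : ℕ => 326 / (q : ℝ))
    rw [Int.natAbs_mul, show (2 : ℤ).natAbs = 2 from rfl, Nat.primeFactors_mul two_ne_zero h0,
      eq_sub_of_add_eq this, Nat.prime_two.primeFactors, sum_singleton, SD.sq, mul_sum]
    simp only [mul_one_div]
    refine (sub_le_self _ (by positivity)).trans (le_of_eq ?_)
    norm_num [add_comm]
  refine le_trans ?_ (add_le_add le_rfl h1)
  unfold tsumP
  refine le_trans (sum_le_sum (g := fun q => ((S.a q : ℝ) - S.b q) / q +
    if q ∈ (2 * S.dl t).natAbs.primeFactors then 326 / (q : ℝ) else 0) fun q hq => ?_) ?_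
  · have hq := (mem_filter.1 hq).2
    have q0 : (0 : ℝ) < q := by exact_mod_cast hq.pos
    have b2 : (S.b q : ℝ) ≤ 2 := by exact_mod_cast S.b_le q hq
    have a0 : (0 : ℝ) ≤ S.a q := by positivity
    beta_reduce
    unfold a1 b1
    by_cases c : q ∣ (2 * S.dl t).natAbs
    · rw [if_pos c, if_pos c, if_pos (hq.mem_primeFactors c (Int.natAbs_ne_zero.2
        (mul_ne_zero two_ne_zero (S.dl_ne t)))), ← add_div]
      gcongr
      push_cast
      linarith
    · rw [if_neg c, if_neg c, if_neg fun h => c (Nat.dvd_of_mem_primeFactors h), add_zero]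
      split_ifs with c1
      · rw [Nat.cast_sub (S.a_pos q hq c1)]
        gcongr ?_ / _
        push_cast
        linarith
      · exact le_rfl
  · rw [sum_add_distrib, sum_ite_mem]
    exact add_le_add le_rfl
      (sum_le_sum_of_subset_of_nonneg inter_subset_right fun _ _ _ => by positivity)

end D1

open D1 B Finset Classical in
theorem sl (hS : ShiuNStmt) : SlStmt := by
  intro p R hp _
  obtain ⟨δ, ε, C, d0, d1, e0, c0, h⟩ := core (d := 1) (p := p) (bad := 2 * p) (e := 324) (κ := 2)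
    hS 41 hp one_pos (mul_ne_zero two_ne_zero hp.ne_zero) (dvd_mul_left _ _) one_le_two
  refine ⟨δ, ε, 326, C * (2 * |R| + 4) * Real.exp 163, d0, d1, e0, by norm_num, by positivity,
    fun K hK => ?_⟩
  obtain ⟨y₀, h⟩ := h K hK
  refine ⟨max y₀ (R ^ 2 + (1 + R ^ 2) ^ 2), fun S y t k₀ V hy hX he ht hV hK => ?_⟩
  obtain ⟨y1, y2⟩ := max_le_iff.1 hy
  have y3 : 1 ≤ y := le_trans (by nlinarith [sq_nonneg R]) y2
  obtain ⟨e₁, α, β, γ, H⟩ := pol S t k₀
  have p0 : 0 ≤ S.pre t k₀ := prod_nonneg fun _ _ => by split_ifs <;> norm_num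
  rcases V.eq_empty_or_nonempty with rfl | ⟨z, hz⟩
  · rw [sum_empty]
    positivity
  have E0 : (0 : ℝ) < S.ee t := by exact_mod_cast Nat.pos_of_ne_zero (ee_ne S t)
  have D0 : (0 : ℝ) < S.D := by have := S.D_gt; positivity
  let g : ℤ → Fin 1 → ℤ := fun k _ => (k - k₀) / S.ee t
  have hg : ∀ k ∈ V, k₀ + S.ee t * g k 0 = k := fun k hk => by
    simp only [g]
    rw [Int.mul_ediv_cancel' (hV k hk).2]
    ring
  set L : ℝ := √(S.Dt : ℝ) / S.ee t with hL
  have yL : y ≤ L := (le_div_iff₀ E0).2 he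
  set s : ℝ := S.nn t k₀ / (S.D * S.ee t) with hs
  have key := h y y1 _ _ _ _ _ (fun _ => ⌊-(|R| * L) - s⌋) (fun _ => ⌈2 * |R| * L + y⌉₊ + 1)
    (V.image g) (H.hyp hp (g z 0)) (fun _ => ?_) ?_ ?_
  · rw [sum_image fun k hk l hl e => by rw [← hg k hk, ← hg l hl, e]] at key
    refine (sum_le_sum fun k hk => ?_).trans ((mul_sum _ _ _).ge.trans
      (mul_le_mul_of_nonneg_left (key.trans ?_) p0))
    · have := H.wt hp (g k)
      rwa [hg k hk] at this
    · have x1 := Real.exp_le_exp.2 (expo' S t (y ^ δ))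
      rw [Real.exp_add, Real.exp_add] at x1
      have x2 : 1 ≤ Real.exp (326 * S.sq t) * Real.exp 163 := by
        rw [← Real.exp_add]
        exact Real.one_le_exp (by unfold SD.sq; positivity)
      have x3 : ((⌈2 * |R| * L + y⌉₊ + 1 : ℕ) : ℝ) ≤ (2 * |R| + 4) * L := by
        have := Nat.ceil_lt_add_one (show 0 ≤ 2 * |R| * L + y by positivity)
        push_cast
        linarith
      rw [Fin.prod_univ_one]
      calc _ ≤ C * ((2 * |R| + 4) * L) *
            (Real.exp (tsumP (fun q => (S.a q : ℝ) - S.b q) (y ^ δ)) *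
              (Real.exp (326 * S.sq t) * Real.exp 163) * (p : ℝ) ^ (-(K : ℝ) / 2) +
              Real.exp (326 * S.sq t) * Real.exp 163 * y ^ (-ε)) := by
            gcongr
            exact le_mul_of_one_le_left (by positivity) x2
        _ = _ := by ring
  · have := Nat.le_ceil (2 * |R| * L + y)
    have : 0 ≤ 2 * |R| * L := by positivity
    push_cast
    linarith
  · intro u hu
    obtain ⟨k, hk, rfl⟩ := mem_image.1 hu
    have a1 : (g k 0 : ℝ) + s = S.nn t k / (S.D * S.ee t) := by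
      rw [hs, ← hg k hk]
      simp only [SD.nn, hg k hk]
      rw [← hg k hk]
      simp only [hg k hk]
      have := congrArg (Int.cast : ℤ → ℝ) (hg k hk)
      push_cast at this ⊢
      rw [← this]
      field_simp
      ring
    have a2 : |(g k 0 : ℝ) + s| ≤ |R| * L := by
      rw [a1, abs_div, abs_of_pos (mul_pos D0 E0), div_le_iff₀ (mul_pos D0 E0), hL]
      refine (hV k hk).1.trans ?_
      calc _ ≤ |R| * S.D * √(S.Dt : ℝ) := by gcongr; exact le_abs_self R
        _ = _ := by field_simp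
    rw [abs_le] at a2
    rw [ShiuN.mem_box]
    intro i
    obtain rfl : i = 0 := Subsingleton.elim _ _
    refine ⟨Int.floor_le_iff.2 (by linarith), ?_⟩
    have f1 := Int.lt_floor_add_one (-(|R| * L) - s)
    have f2 := Nat.le_ceil (2 * |R| * L + y)
    have : (g k 0 : ℝ) < ⌊-(|R| * L) - s⌋ + ((⌈2 * |R| * L + y⌉₊ : ℝ) + 1) := by linarith
    exact_mod_cast this
  · intro u hu
    obtain ⟨k, hk, rfl⟩ := mem_image.1 hu
    refine ⟨hf_ne _ _, ?_, ?_⟩
    · have a1 := S.QQ_le' ht (hV k hk).1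
      have a2 : hf (2 * S.dl t).natAbs (α * g k 0 ^ 2 + β * g k 0 + γ).natAbs ≤
          (S.QQ t k).natAbs := Nat.le_of_dvd (Int.natAbs_pos.2 (S.QQ_ne _ _))
        ((hf_le _ (Int.natAbs_ne_zero.2 (H.qd.ne _))).trans (Int.natAbs_dvd_natAbs.2 (by
          conv_rhs => rw [← hg k hk, H.val]
          exact dvd_mul_left _ _)))
      rw [← Int.cast_abs, ← Nat.cast_natAbs] at a1
      refine (Nat.cast_le.2 a2).trans (a1.trans ?_)
      rw [show (41 : ℝ) = (41 : ℕ) by norm_num, Real.rpow_natCast, pow_succ' y 40]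
      exact mul_le_mul y2 hX (zero_le_one.trans S.one_le_X) (by linarith)
    · have c : IsCoprime ((p : ℤ) ^ K) (S.ee t) :=
        (((Nat.prime_iff_prime_int.1 hp).irreducible.coprime_iff_not_dvd).2 fun h => S.cop
          (((Int.natCast_dvd_natCast.1 h).trans (ee_D S t)).mul_right _)).pow_left
      refine c.dvd_of_dvd_mul_left ((hK k hk z hz).trans (dvd_of_eq ?_))
      linear_combination hg z hz - hg k hk

end Pool.Agent.Lib.MP_9177b7_ag.S4
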