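import Pool.Agent.Lib.MP_9177b7_ag.S4.WDiv
import Pool.Agent.Lib.MP_30b5ba_nt.Variance

/-!
The divisor bound for the weights and the points with a large common divisor.
-/

open Finset

noncomputable section

namespace Pool.Agent.Lib.MP_9177b7_ag.S4

namespace Tail

/-- The divisor bound. -/
theorem tau_le {ε : ℝ} (hε : 0 < ε) :
    ∃ C : ℝ, 1 ≤ C ∧ ∀ n : ℕ, n ≠ 0 → (#n.divisors : ℝ) ≤ C * (n : ℝ) ^ ε := by
  obtain ⟨r, hr⟩ := exists_nat_gt (1 / ε)
  have r0 : r ≠ 0 := by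
    rintro rfl
    exact absurd hr (not_lt.2 (by rw [Nat.cast_zero]; positivity))
  obtain ⟨C, hC⟩ := Pool.Agent.Lib.MP_30b5ba_nt.card_divisors_pow_le r
  have c0 : (0 : ℝ) ≤ C := C.cast_nonneg
  refine ⟨C + 1, by linarith, fun n hn => ?_⟩
  have n1 : (1 : ℝ) ≤ n := by exact_mod_cast Nat.one_le_iff_ne_zero.2 hn
  refine le_of_pow_le_pow_left₀ r0 (by positivity) ?_
  refine le_trans (b := (C : ℝ) * n) (by exact_mod_cast hC n hn) ?_
  rw [mul_pow]
  refine mul_le_mul ?_ ?_ (by positivity) (by positivity)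
  · exact le_trans (by linarith) (le_self_pow₀ (by linarith) r0)
  · rw [← Real.rpow_natCast, ← Real.rpow_mul (by positivity)]
    refine Real.self_le_rpow_of_one_le n1 ?_
    rw [div_lt_iff₀ hε] at hr
    linarith

/-- Integers of bounded size in one class. -/
theorem card_cg {ι : Type*} (T : Finset ι) (f : ι → ℤ) (hf : Set.InjOn f T) {M : ℕ} (hM : 0 < M)
    {B : ℝ} (hB : 0 ≤ B) (h1 : ∀ x ∈ T, |(f x : ℝ)| ≤ B)
    (h2 : ∀ x ∈ T, ∀ y ∈ T, (M : ℤ) ∣ f x - f y) : (#T : ℝ) ≤ 2 * B / M + 1 := by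
  rcases T.eq_empty_or_nonempty with rfl | hT
  · simp only [card_empty, Nat.cast_zero]
    positivity
  obtain ⟨x₀, hx, hmin⟩ := T.exists_min_image f hT
  have M0 : (0 : ℝ) < M := by exact_mod_cast hM
  have M1 : (0 : ℤ) < M := by exact_mod_cast hM
  have : #T ≤ #(range (⌊2 * B / M⌋₊ + 1)) := by
    refine card_le_card_of_injOn (fun x => ((f x - f x₀) / M).toNat) (fun x h => ?_)
      fun x h y h' e => hf h h' ?_
    · obtain ⟨z, hz⟩ := h2 x h x₀ hx
      have z0 : 0 ≤ z := by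
        have := hmin x h
        by_contra hc
        nlinarith
      simp only [coe_range, Set.mem_Iio, hz, Int.mul_ediv_cancel_left _ M1.ne', Nat.lt_succ_iff]
      refine Nat.le_floor ?_
      rw [le_div_iff₀ M0]
      have e1 : ((z.toNat : ℕ) : ℝ) = z := by exact_mod_cast Int.toNat_of_nonneg z0
      have e2 : (f x : ℝ) - f x₀ = M * z := by exact_mod_cast hz
      have := abs_le.1 (h1 x h)
      have := abs_le.1 (h1 x₀ hx)
      rw [e1]
      linarith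
    · obtain ⟨z, hz⟩ := h2 x h x₀ hx
      obtain ⟨w, hw⟩ := h2 y h' x₀ hx
      have z0 : 0 ≤ z := by
        have := hmin x h
        by_contra hc
        nlinarith
      have w0 : 0 ≤ w := by
        have := hmin y h'
        by_contra hc
        nlinarith
      simp only [hz, hw, Int.mul_ediv_cancel_left _ M1.ne'] at e
      have : z = w := by omega
      subst this
      linarith
  rw [card_range] at this
  have h3 := Nat.floor_le (by positivity : 0 ≤ 2 * B / M)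
  exact le_trans (b := ((⌊2 * B / M⌋₊ + 1 : ℕ) : ℝ)) (by exact_mod_cast this)
    (by push_cast; linarith)

end Tail

namespace SD

variable {p : ℕ} (S : SD p)

theorem one_le_D : (1 : ℝ) ≤ S.D := by exact_mod_cast S.D_gt.le

theorem one_le_Dt : (1 : ℝ) ≤ S.Dt := by exact_mod_cast S.Dt_gt.le

theorem dl_le {R : ℝ} {t : ℤ} (ht : |(2 * t + 1 : ℝ)| ≤ R * √(S.D : ℝ)) :
    |(S.dl t : ℝ)| ≤ (1 + R ^ 2) * S.D := by
  have d1 := S.one_le_D
  have h1 : (2 * t + 1 : ℝ) ^ 2 ≤ R ^ 2 * S.D := by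
    have := pow_le_pow_left₀ (abs_nonneg _) ht 2
    rwa [sq_abs, mul_pow, Real.sq_sqrt (by linarith)] at this
  have h2 : 4 * (S.dl t : ℝ) = S.D - (2 * t + 1) ^ 2 := by exact_mod_cast S.four_dl t
  have := sq_nonneg (2 * t + 1 : ℝ)
  have := mul_nonneg (sq_nonneg R) (zero_le_one.trans d1)
  rw [abs_le]
  constructor <;> nlinarith

/-- The number of points on one slice. -/
theorem card_k {R : ℝ} (hR : 0 ≤ R) (t : ℤ) (T : Finset ℤ)
    (h : ∀ k ∈ T, |(S.nn t k : ℝ)| ≤ R * S.D * √(S.Dt : ℝ)) : (#T : ℝ) ≤ 2 * R * √(S.Dt : ℝ) + 1 := by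
  have d1 := S.one_le_D
  have d0 : (S.D : ℤ) ≠ 0 := by have := S.D_gt; omega
  refine (Tail.card_cg T (S.nn t) (fun x _ y _ e => ?_) (M := S.D) (by have := S.D_gt; omega)
    (by positivity) h fun x _ y _ => ⟨x - y, by simp only [nn]; ring⟩).trans_eq ?_
  · simp only [nn, add_right_inj] at e
    exact mul_left_cancel₀ d0 e
  · field_simp

end SD

/-- The points with a large common divisor. -/
theorem tail0 (R : ℝ) : ∃ C : ℝ, 0 < C ∧ ∀ (p : ℕ) (S : SD p) (U : Finset (ℤ × ℤ)),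
    (∀ u ∈ U, |(2 * u.1 + 1 : ℝ)| ≤ R * √(S.D : ℝ) ∧
      |(S.nn u.1 u.2 : ℝ)| ≤ R * S.D * √(S.Dt : ℝ)) →
    (∀ u ∈ U, S.X ^ (1 / 40 : ℝ) ≤ Int.gcd (2 * u.1 + 1) S.D) →
    ∑ u ∈ U, S.W u.1 u.2 ≤ C * √S.X * S.X ^ (-(1 / 50) : ℝ) := by
  classical
  obtain ⟨C₁, c1, h1⟩ := wdivX' (η := 1 / 400) (by norm_num) R
  obtain ⟨C₂, c2, h2⟩ := Tail.tau_le (ε := 1 / 400) (by norm_num)
  refine ⟨C₁ * C₂ * (3 * (|R| + 1)) * (2 * |R| + 1), by positivity, fun p S U hU hg => ?_⟩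
  have x1 := S.one_le_X
  have d1 := S.one_le_D
  have d2 := S.one_le_Dt
  have x0 : 0 < S.X := by linarith
  have D0 : S.D ≠ 0 := by have := S.D_gt; omega
  set Y := S.X ^ (1 / 40 : ℝ) with hY
  have Y0 : 0 < Y := Real.rpow_pos_of_pos x0 _
  have r1 := le_abs_self R
  have s1 : 1 ≤ √(S.Dt : ℝ) := Real.one_le_sqrt.2 d2
  set T := U.image Prod.fst with hT
  have hTm : ∀ t ∈ T, |(2 * t + 1 : ℝ)| ≤ |R| * √(S.D : ℝ) ∧ Y ≤ Int.gcd (2 * t + 1) S.D := by
    intro t ht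
    obtain ⟨u, hu, rfl⟩ := mem_image.1 ht
    exact ⟨(hU u hu).1.trans (by gcongr), hg u hu⟩
  have e1 : (#T : ℝ) ≤ #S.D.divisors * (3 * (|R| + 1) * √(S.D : ℝ) / Y) := by
    have : #T = ∑ e ∈ S.D.divisors, #(T.filter fun t => Int.gcd (2 * t + 1) S.D = e) :=
      card_eq_sum_card_fiberwise fun t _ => by
        simp only [mem_coe, Nat.mem_divisors]
        exact ⟨by exact_mod_cast Int.gcd_dvd_right (2 * t + 1) S.D, D0⟩
    rw [this, ← nsmul_eq_mul]
    push_cast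
    refine sum_le_card_nsmul _ _ _ fun e he => ?_
    rcases (T.filter fun t => Int.gcd (2 * t + 1) S.D = e).eq_empty_or_nonempty with h | ⟨t, ht⟩
    · rw [h, card_empty, Nat.cast_zero]
      positivity
    have e0 := Nat.pos_of_mem_divisors he
    have e0' : (0 : ℝ) < e := by exact_mod_cast e0
    have dv : ∀ t ∈ T.filter fun t => Int.gcd (2 * t + 1) S.D = e, (e : ℤ) ∣ 2 * t + 1 :=
      fun t ht => (mem_filter.1 ht).2 ▸ Int.gcd_dvd_left _ _
    have a1 := hTm t (mem_filter.1 ht).1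
    rw [(mem_filter.1 ht).2] at a1
    have a2 : (e : ℝ) ≤ |(2 * t + 1 : ℝ)| := by
      have := Int.le_of_dvd (abs_pos.2 (by omega)) ((dvd_abs _ _).2 (dv t ht))
      exact_mod_cast this
    refine (Tail.card_cg _ (fun t => 2 * t + 1) (fun x _ y _ h => by simpa using h) e0
      (B := |R| * √(S.D : ℝ)) (by positivity)
      (fun x hx => by simpa using (hTm x (mem_filter.1 hx).1).1)
      fun x hx y hy => dvd_sub (dv x hx) (dv y hy)).trans ?_
    refine le_trans (b := 3 * (|R| + 1) * √(S.D : ℝ) / e) ?_ (by gcongr; exact a1.2)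
    rw [le_div_iff₀ e0', add_mul, div_mul_cancel₀ _ e0'.ne']
    nlinarith [Real.sqrt_nonneg (S.D : ℝ)]
  have e2 : (#U : ℝ) ≤ #T * ((2 * |R| + 1) * √(S.Dt : ℝ)) := by
    rw [card_eq_sum_card_image Prod.fst U, ← nsmul_eq_mul]
    push_cast
    refine sum_le_card_nsmul _ _ _ fun t _ => ?_
    rw [← card_image_of_injOn (f := Prod.snd) fun x hx y hy e =>
      Prod.ext ((mem_filter.1 hx).2.trans (mem_filter.1 hy).2.symm) e]
    refine (S.card_k (abs_nonneg R) t _ fun k hk => ?_).trans (by linarith)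
    obtain ⟨u, hu, rfl⟩ := mem_image.1 hk
    rw [← (mem_filter.1 hu).2]
    exact (hU u (mem_filter.1 hu).1).2.trans (by gcongr)
  have e3 : (#S.D.divisors : ℝ) ≤ C₂ * S.X ^ (1 / 400 : ℝ) := (h2 _ D0).trans (by
    gcongr
    exact le_mul_of_one_le_right (by linarith) d2)
  have e4 : √S.X = √(S.D : ℝ) * √(S.Dt : ℝ) := Real.sqrt_mul (by linarith) _
  have e5 : S.X ^ (-(1 / 50) : ℝ) = S.X ^ (1 / 400 : ℝ) * S.X ^ (1 / 400 : ℝ) / Y := by
    rw [hY, ← Real.rpow_add x0, ← Real.rpow_sub x0]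
    norm_num
  calc _ ≤ (#U : ℝ) * (C₁ * S.X ^ (1 / 400 : ℝ)) := by
        rw [← nsmul_eq_mul]
        exact sum_le_card_nsmul _ _ _ fun u hu => h1 p S _ _ (hU u hu).1 (hU u hu).2
    _ ≤ C₂ * S.X ^ (1 / 400 : ℝ) * (3 * (|R| + 1) * √(S.D : ℝ) / Y) *
          ((2 * |R| + 1) * √(S.Dt : ℝ)) * (C₁ * S.X ^ (1 / 400 : ℝ)) := by
        gcongr
        exact e2.trans (by gcongr; exact e1.trans (by gcongr))
    _ = _ := by rw [e4, e5]; ring

end Pool.Agent.Lib.MP_9177b7_ag.S4
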