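import Pool.Agent.Lib.MP_9177b7_ag.S4.D1s
import Pool.Agent.Lib.MP_9177b7_ag.S4.Tail

/-!
The contribution of a large common divisor.
-/

namespace Pool.Agent.Lib.MP_9177b7_ag.S4

theorem tail : TailStmt := fun R => by
  obtain ⟨C, c0, h⟩ := tail0 R
  refine ⟨C, c0, fun p K S U hU hg => (h p S U hU.1 hg).trans ?_⟩
  gcongr
  · exact S.one_le_X
  · norm_num

end Pool.Agent.Lib.MP_9177b7_ag.S4
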