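import Pool.Agent.Lib.MP_9177b7_ag.B.ShiuN
import Pool.Agent.Lib.MP_9177b7_ag.S4.D1
import Pool.Agent.Lib.MP_9177b7_ag.S4.D1Avg
import Pool.Agent.Lib.MP_9177b7_ag.S4.D1Pre
import Pool.Agent.Lib.MP_9177b7_ag.S4.D1Sl
import Pool.Agent.Lib.MP_9177b7_ag.S4.D1Tail

/-!
The first regime of the sieve problem.
-/

namespace Pool.Agent.Lib.MP_9177b7_ag.S4

theorem d1all : D1Stmt := d1 avg pre tail (sl (B.shiuN B.sieveN))

end Pool.Agent.Lib.MP_9177b7_ag.S4
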