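import Pool.Agent.Lib.MP_9177b7_ag.S4.D2a
import Pool.Agent.Lib.MP_9177b7_ag.S4.SliceA

/-!
The sieve bound in the second regime.
-/

open Finset Classical

noncomputable section

namespace Pool.Agent.Lib.MP_9177b7_ag.S4

namespace D2

open B B.Slice

variable {p q : ℕ} (S : SD p)

/-- The absolute value of the form. -/
def NN (u : Fin 2 → ℤ) : ℕ := (S.QQ (u 0) (u 1)).natAbs

/-- The weights at level one. -/
def n1 (q : ℕ) (t k : ℤ) : ℕ :=
  if q ∣ S.D then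
    if (q : ℤ) ∣ 2 * t + 1 then (if S.Sg q ((S.nn t k + S.c * S.dl t) / q) then 2 else 0)
    else if (q : ℤ) ∣ S.QQ t k then S.a q - 1 else 0
  else ∑ x ∈ (range q).filter fun x : ℕ => (q : ℤ) ∣ S.nn t k - S.dl t * x, S.ρ q x

lemma dvd_NN (M : ℕ) (u : Fin 2 → ℤ) : M ∣ NN S u ↔ (M : ℤ) ∣ S.QQ (u 0) (u 1) :=
  Int.natCast_dvd.symm

lemma cong {M t t' k k' : ℤ} (ht : t ≡ t' [ZMOD M]) (hk : k ≡ k' [ZMOD M]) :
    S.dl t ≡ S.dl t' [ZMOD M] ∧ S.nn t k ≡ S.nn t' k' [ZMOD M] ∧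
      S.QQ t k ≡ S.QQ t' k' [ZMOD M] := by
  have h : S.dl t ≡ S.dl t' [ZMOD M] := by unfold SD.dl; gcongr
  refine ⟨h, ?_, ?_⟩
  · unfold SD.nn; gcongr
  · unfold SD.QQ; gcongr

lemma md {M : ℕ} {u v : Fin 2 → ℤ} (h : CgN M u v) (i : Fin 2) : u i ≡ v i [ZMOD M] :=
  (Int.modEq_iff_dvd.2 (h i)).symm

lemma div_eq (hq : q.Prime) {D₁ δ t : ℤ} (h1 : (S.D : ℤ) = q * D₁) (h2 : S.dl t = q * δ) (k : ℤ) :
    (S.nn t k + S.c * S.dl t) / q = 2 * S.c * δ + D₁ * k := by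
  rw [SD.nn, h1, h2, show S.c * (q * δ) + q * D₁ * k + S.c * (q * δ) =
    q * (2 * S.c * δ + D₁ * k) by ring, Int.mul_ediv_cancel_left _ (by exact_mod_cast hq.ne_zero)]

lemma n1_per (hq : q.Prime) {t t' k k' : ℤ} (ht : t ≡ t' [ZMOD q]) (hk : k ≡ k' [ZMOD q]) :
    n1 S q t k = n1 S q t' k' := by
  obtain ⟨c1, c2, c3⟩ := cong S ht hk
  have c4 : 2 * t + 1 ≡ 2 * t' + 1 [ZMOD q] := by gcongr
  unfold n1
  by_cases h1 : q ∣ S.D
  · rw [if_pos h1, if_pos h1]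
    by_cases h2 : (q : ℤ) ∣ 2 * t + 1
    · have h3 := c4.dvd_iff.1 h2
      have h4 : (q : ℤ) ∣ S.D := by exact_mod_cast h1
      rw [if_pos h2, if_pos h3]
      obtain ⟨δ, e⟩ := (dl_iff S hq h4 t).2 h2
      obtain ⟨δ', e'⟩ := (dl_iff S hq h4 t').2 h3
      obtain ⟨σ, f⟩ := h2
      obtain ⟨σ', f'⟩ := h3
      have h5 : (q : ℤ) ∣ δ - δ' := four S hq h4 ⟨σ' ^ 2 - σ ^ 2,
        mul_left_cancel₀ (show (q : ℤ) ≠ 0 by exact_mod_cast hq.ne_zero) (by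
          have a := S.four_dl t
          have a' := S.four_dl t'
          rw [e, f] at a
          rw [e', f'] at a'
          linear_combination a - a')⟩
      obtain ⟨D₁, g⟩ := h4
      rw [div_eq S hq g e, div_eq S hq g e']
      have h6 : (q : ℤ) ∣ 2 * S.c * δ + D₁ * k - (2 * S.c * δ' + D₁ * k') :=
        dv (dvd_sub (h5.mul_left (2 * S.c)) (hk.dvd.mul_left D₁)) (by ring)
      exact if_congr ⟨S.Sg_per _ _ _ h6, S.Sg_per _ _ _ (dvd_sub_comm.1 h6)⟩ rfl rfl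
    · rw [if_neg h2, if_neg (mt c4.dvd_iff.2 h2)]
      exact if_congr c3.dvd_iff rfl rfl
  · rw [if_neg h1, if_neg h1]
    exact sum_congr (filter_congr fun x _ => (c2.sub (c1.mul_right _)).dvd_iff) fun _ _ => rfl

lemma n1_le (hq : q.Prime) (t k : ℤ) : n1 S q t k ≤ 5 := by
  have := S.a_le q hq
  have := S.ρ_sum q hq
  unfold n1
  split_ifs <;> try omega
  exact (sum_le_sum_of_subset (filter_subset _ _)).trans (by omega)

lemma n1_den (hq : q.Prime) :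
    denN q (fun u : Fin 2 → ℤ => (n1 S q (u 0) (u 1) : ℝ)) ≤ (S.a q : ℝ) / q + 1 / q ^ 2 := by
  have q0 : (0 : ℝ) < q := by exact_mod_cast hq.pos
  suffices h : ∑ t ∈ range q, ∑ k ∈ range q, (n1 S q t k : ℝ) ≤ q * S.a q + 1 by
    rw [den2, div_le_iff₀ (by positivity)]
    refine h.trans (le_of_eq ?_)
    field_simp
  by_cases h1 : q ∣ S.D
  · have h4 : (q : ℤ) ∣ S.D := by exact_mod_cast h1
    have a1 := S.a_pos q hq h1
    have a2 : (1 : ℝ) ≤ S.a q := by exact_mod_cast a1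
    have h2 : ∀ t ∈ range q, ∑ k ∈ range q, (n1 S q t k : ℝ) ≤
        S.a q - 1 + (q + 1) * if (q : ℤ) ∣ 2 * t + 1 then 1 else 0 := fun t _ => by
      simp only [n1, if_pos h1]
      split_ifs with h
      · obtain ⟨δ, e⟩ := (dl_iff S hq h4 t).2 h
        obtain ⟨D₁, g⟩ := h4
        have h5 := cn_aff hq (S.Sg_per q) (2 * S.c * δ) (quo S hq g)
        have h6 : 2 * cn q (S.Sg q) ≤ q + 1 := by
          rw [cn_card]
          exact_mod_cast S.Sg_card q hq h1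
        have h7 : ∑ k ∈ range q, ((if S.Sg q ((S.nn t k + S.c * S.dl t) / q) then 2 else 0 : ℕ) : ℝ)
            = 2 * cn q fun k => S.Sg q (2 * S.c * δ + D₁ * k) := by
          rw [cn, mul_sum]
          refine sum_congr rfl fun k _ => ?_
          rw [div_eq S hq g e]
          split_ifs <;> simp
        linarith
      · refine le_trans ?_ (show ((S.a q - 1 : ℝ) * cn q fun k => (q : ℤ) ∣ S.QQ t k) ≤ _ by
          rw [one S hq h4 h, mul_zero, add_zero, mul_one])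
        rw [cn, mul_sum]
        refine sum_le_sum fun k _ => ?_
        split_ifs <;> simp [a1]
    have h3 := sum_le_sum h2
    rw [sum_aff _ _ _ fun t => (q : ℤ) ∣ 2 * t + 1,
      cn_lin hq.pos (by simpa using cop hq (odd S hq h4) 1)] at h3
    linarith
  · have h2 : ∀ t ∈ range q, ∑ k ∈ range q, (n1 S q t k : ℝ) ≤ S.a q := fun t _ => by
      simp only [n1, if_neg h1, Nat.cast_sum, sum_filter]
      rw [sum_comm]
      refine le_trans (sum_le_sum fun x _ => ?_) (by exact_mod_cast S.ρ_sum q hq :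
        ∑ x ∈ range q, (S.ρ q x : ℝ) ≤ _)
      rw [← mul_one (S.ρ q x : ℝ), ← cn_lin hq.pos (A := S.D)
        (by simpa using cop hq (A := S.D) (by exact_mod_cast h1) 1) (S.c * S.dl t - S.dl t * x), cn, mul_sum]
      refine sum_le_sum fun k _ => ?_
      rw [show S.nn t k - S.dl t * x = S.D * k + (S.c * S.dl t - S.dl t * x) by rw [SD.nn]; ring]
      split_ifs <;> simp
    have h3 := sum_le_card_nsmul _ _ _ h2
    rw [card_range, nsmul_eq_mul] at h3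
    linarith

lemma den_NN (M : ℕ) {_ : DecidablePred fun u => M ∣ NN S u} :
    denN M (fun u => if M ∣ NN S u then 1 else 0) =
      (∑ t ∈ range M, cn M fun k => (M : ℤ) ∣ S.QQ t k) / M ^ 2 := by
  refine Eq.trans ?_ (@den_ind M (fun t k => (M : ℤ) ∣ S.QQ t k) fun _ => inferInstance)
  exact congrArg _ (funext fun u => if_congr (dvd_NN S M u) rfl rfl)

lemma lv2 (hq : q.Prime) {j : ℕ} (hj : 2 ≤ j) {_ : DecidablePred fun u => q ^ j ∣ NN S u} :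
    denN (q ^ j) (fun u => if q ^ j ∣ NN S u then 1 else 0) ≤
      6 * (q : ℝ) ^ (-1 - (j : ℝ) / 4) := by
  have q1 : (1 : ℝ) ≤ q := by exact_mod_cast hq.one_le
  have h1 : ∀ i : ℕ, 4 + j ≤ 4 * i → 1 / (q : ℝ) ^ i ≤ (q : ℝ) ^ (-1 - (j : ℝ) / 4) := by
    intro i hi
    have : (4 + j : ℝ) ≤ 4 * i := by exact_mod_cast hi
    rw [one_div, ← Real.rpow_natCast, ← Real.rpow_neg (by positivity)]
    exact Real.rpow_le_rpow_of_exponent_le q1 (by linarith)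
  have h2 := lev S hq (j := j) (by omega)
  have h3 := h1 j (by omega)
  have h4 := h1 (j / 2 + 1) (by omega)
  rw [den_NN]
  rw [pow_succ'] at h4
  rw [div_eq_mul_one_div 2, div_eq_mul_one_div 4] at h2
  simp only [Nat.cast_pow] at h2 ⊢
  linarith

lemma up (hq : q.Prime) {_ : DecidablePred fun u => q ^ 1 ∣ NN S u} :
    denN (q ^ 1) (fun u => if q ^ 1 ∣ NN S u then 1 else 0) ≤ 6 / q := by
  have h2 := lev S hq (j := 1) le_rfl
  rw [den_NN]
  simp only [Nat.cast_pow] at h2 ⊢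
  refine h2.trans (le_of_eq ?_)
  norm_num
  ring

lemma hyp {R : ℕ → (Fin 2 → ℤ) → Prop} (h1 : ∀ j t t', CgN (p ^ j) t t' → R j t → R j t')
    (h2 : ∀ j, denN (p ^ j) (fun t => if R j t then 1 else 0) ≤ ((p : ℝ) ^ j)⁻¹)
    (h3 : ∀ i j t, i ≤ j → R j t → R i t) :
    Hyp p 5 6 (NN S) (fun q u => n1 S q (u 0) (u 1)) R (fun _ => 5) S.b where
  per q j t t' _ h := by
    rw [dvd_NN, dvd_NN]
    exact (cong S (md h 0) (md h 1)).2.2.dvd_iff.1
  up q hq := up S hq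
  lo q hq := by
    have q0 : (0 : ℝ) < q := by exact_mod_cast hq.pos
    simp only [pow_one]
    rw [den_NN, le_div_iff₀ (by positivity)]
    refine le_trans ?_ (low S hq)
    field_simp
    linarith
  lv q j hq := by
    have q1 : (1 : ℝ) ≤ q := by exact_mod_cast hq.one_le
    rcases j with _ | _ | j
    · simp [B.ShiuN.den_one]
    · refine (up S hq).trans ?_
      rw [div_eq_mul_inv, ← Real.rpow_neg_one]
      gcongr
      norm_num
    · refine (lv2 S hq (by omega)).trans ?_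
      gcongr
      linarith
  lv2 q j hq hj := lv2 S hq hj
  nper q t t' hq h := n1_per S hq (md h 0) (md h 1)
  nle q t hq := n1_le S hq _ _
  nden q hq := by
    have q1 : (1 : ℝ) ≤ q := by exact_mod_cast hq.one_le
    have a4 : (S.a q : ℝ) ≤ 4 := by exact_mod_cast S.a_le q hq
    refine (n1_den S hq).trans ?_
    push_cast
    field_simp
    nlinarith
  ale _ _ := le_rfl
  rper := h1
  rden := h2
  ranti := h3

lemma W_le (u : Fin 2 → ℤ) : S.W (u 0) (u 1) ≤ ∏ q ∈ (NN S u).primeFactors,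
    ww (2 * p) 5 (fun q u => n1 S q (u 0) (u 1)) q ((NN S u).factorization q) u ∨ ¬ p.Prime := by
  refine or_not.imp_left fun hp => prod_le_prod
    (fun q hq => S.G_nonneg (Nat.prime_of_mem_primeFactors hq) _ _ _) fun q hq => ?_
  have h1 := Nat.prime_of_mem_primeFactors hq
  have h2 := Nat.dvd_of_mem_primeFactors hq
  have h3 : 0 < (NN S u).factorization q :=
    h1.factorization_pos_of_dvd (Nat.mem_primeFactors.1 hq).2.2 h2
  have h4 : q ≠ 2 ∧ q ≠ p ↔ ¬ q ∣ 2 * p := by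
    rw [h1.dvd_mul, Nat.prime_dvd_prime_iff_eq h1 Nat.prime_two, Nat.prime_dvd_prime_iff_eq h1 hp,
      not_or]
  change S.G q ((NN S u).factorization q) _ _ ≤ _
  generalize (NN S u).factorization q = j at *
  simp only [SD.G, ww, h4, n1, if_pos ((dvd_NN S q u).1 h2)]
  split_ifs with e1 e2 <;> try simp
  · rw [Nat.cast_sub (S.a_pos q h1 e2), Nat.cast_one, sub_add_cancel]
  · have : (1 : ℝ) ≤ j := by exact_mod_cast h3
    rw [pow_succ' _ 4]
    gcongr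
    linarith

lemma tube (hp : p.Prime) {K : ℕ} {U : Finset (ℤ × ℤ)}
    (h : (∃ t₀ : ℤ, ∀ u ∈ U, (p : ℤ) ^ K ∣ u.1 - t₀) ∨
      ∃ x y : ℤ, ∀ u ∈ U, (p : ℤ) ^ K ∣ S.nn u.1 u.2 - S.dl u.1 * x - y) :
    ∃ R, Hyp p 5 6 (NN S) (fun q u => n1 S q (u 0) (u 1)) R (fun _ => 5) S.b ∧
      ∀ u ∈ U, R K ![u.1, u.2] := by
  have p0 : (0 : ℝ) < p := by exact_mod_cast hp.pos
  rcases h with ⟨t₀, h⟩ | ⟨x, y, h⟩
  · refine ⟨fun j u => ((p ^ j : ℕ) : ℤ) ∣ u 0 - t₀, hyp S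
      (fun j u v c => ((md c 0).sub_right _).dvd_iff.1) (fun j => ?_)
      fun i j u hij => (Int.natCast_dvd_natCast.2 (pow_dvd_pow p hij)).trans,
      fun u hu => by simpa using h u hu⟩
    have h1 := cn_cls (dvd_refl (p ^ j)) (pow_pos hp.pos j) t₀
    have h2 : ∀ t : ℕ, (cn (p ^ j) fun _ => ((p ^ j : ℕ) : ℤ) ∣ t - t₀) =
        (p ^ j : ℕ) * if ((p ^ j : ℕ) : ℤ) ∣ t - t₀ then 1 else 0 := fun t => by
      rw [cn, sum_const, card_range, nsmul_eq_mul]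
      congr!
    refine (den_ind (p ^ j) fun t _ => ((p ^ j : ℕ) : ℤ) ∣ t - t₀).trans_le ?_
    simp only [h2, ← mul_sum]
    rw [cn, div_self (Nat.cast_ne_zero.2 (pow_pos hp.pos j).ne')] at h1
    rw [show (∑ t ∈ range (p ^ j), if ((p ^ j : ℕ) : ℤ) ∣ t - t₀ then (1 : ℝ) else 0) = 1 by
      convert h1]
    push_cast
    field_simp
    rfl
  · refine ⟨fun j u => ((p ^ j : ℕ) : ℤ) ∣ S.nn (u 0) (u 1) - S.dl (u 0) * x - y, hyp S
      (fun j u v c => ?_) (fun j => ?_)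
      fun i j u hij => (Int.natCast_dvd_natCast.2 (pow_dvd_pow p hij)).trans,
      fun u hu => by simpa using h u hu⟩
    · obtain ⟨c1, c2, -⟩ := cong S (md c 0) (md c 1)
      exact ((c2.sub (c1.mul_right _)).sub_right _).dvd_iff.1
    · have h1 : ∀ t : ℤ, (cn (p ^ j) fun k => ((p ^ j : ℕ) : ℤ) ∣ S.nn t k - S.dl t * x - y) = 1 :=
        fun t => by
          rw [← cn_lin (pow_pos hp.pos j) (A := S.D) (cop hp
            (fun h => S.cop (Dvd.dvd.mul_right (by exact_mod_cast h) _)) j)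
            (S.c * S.dl t - S.dl t * x - y)]
          congr! 3 with k
          rw [SD.nn]
          ring
      refine (den_ind (p ^ j) fun t k =>
        ((p ^ j : ℕ) : ℤ) ∣ S.nn t k - S.dl t * x - y).trans_le ?_
      simp only [h1, sum_const, card_range, nsmul_eq_mul]
      push_cast
      field_simp
      rfl

end D2

open D2 B in
theorem d2 : D2Stmt := by
  intro p R hp _
  obtain ⟨δ, ε, C, d0, d1, e0, C0, h⟩ := coreA (d := 2) (bad := 2 * p) (e := 5) (κ := 6) 800 hp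
    two_pos (mul_ne_zero two_ne_zero hp.ne_zero) (dvd_mul_left _ _) (by norm_num)
  obtain ⟨r, hr, r0⟩ : ∃ r : ℝ, R ≤ r ∧ 0 ≤ r := ⟨|R|, le_abs_self R, abs_nonneg R⟩
  obtain ⟨D₁, hE⟩ := eqd (2 * r + 4)
  refine ⟨δ / 400, ε / 400, C * (2 * r + 4) ^ 2, by positivity, by positivity, by positivity,
    fun K hK => ?_⟩
  obtain ⟨y₀, h⟩ := h K hK
  refine ⟨max D₁ (max (⌈y₀⌉₊ ^ 200) ⌈r ^ 2 + (1 + r ^ 2) ^ 2⌉₊), fun S hD hDt U hU => ?_⟩
  simp only [max_le_iff] at hD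
  obtain ⟨hD1, hD2, hD3⟩ := hD
  obtain ⟨y, hy⟩ : ∃ y, y = (S.D : ℝ) ^ (1 / 200 : ℝ) := ⟨_, rfl⟩
  have hD : (S.D : ℝ) = y ^ 200 := by
    rw [hy, one_div]
    exact (Real.rpow_inv_natCast_pow (n := 200) (Nat.cast_nonneg _) (by norm_num)).symm
  have D1 : (1 : ℝ) ≤ S.D := by exact_mod_cast S.D_gt.le
  have T1 : (1 : ℝ) ≤ S.Dt := by exact_mod_cast S.Dt_gt.le
  have y1 : 1 ≤ y := hy ▸ Real.one_le_rpow D1 (by norm_num)
  have y0 : 0 < y := by linarith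
  have hy1 : y₀ ≤ y := by
    refine (Nat.le_ceil _).trans (le_of_pow_le_pow_left₀ (n := 200) (by norm_num) y0.le ?_)
    rw [← hD]
    exact_mod_cast hD2
  have TD : (S.Dt : ℝ) ≤ S.D := by
    exact_mod_cast (Nat.le_self_pow (by norm_num) _).trans hDt
  have rD : r ^ 2 + (1 + r ^ 2) ^ 2 ≤ S.D := Nat.ceil_le.1 hD3
  have s1 : 1 ≤ √(S.D : ℝ) := Real.one_le_sqrt.2 D1
  have s2 : 1 ≤ √(S.Dt : ℝ) := Real.one_le_sqrt.2 T1
  have s3 : √(S.D : ℝ) ^ 2 = S.D := Real.sq_sqrt (by linarith)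
  have s4 : √(S.Dt : ℝ) ^ 2 = S.Dt := Real.sq_sqrt (by linarith)
  obtain ⟨T, t1, t2⟩ : ∃ T : ℕ, (r + 1) * √(S.D : ℝ) ≤ T ∧ T < (r + 1) * √(S.D : ℝ) + 1 :=
    ⟨_, Nat.le_ceil _, Nat.ceil_lt_add_one (by positivity)⟩
  obtain ⟨L, l1, l2⟩ : ∃ L : ℕ, r * √(S.Dt : ℝ) ≤ L ∧ L < r * √(S.Dt : ℝ) + 1 :=
    ⟨_, Nat.le_ceil _, Nat.ceil_lt_add_one (by positivity)⟩
  have r1 : 0 ≤ r * √(S.D : ℝ) := by positivity
  have t3 : ((2 * T : ℕ) : ℝ) ≤ (2 * r + 4) * √(S.D : ℝ) := by push_cast; linarith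
  have l3 : ((2 * L + 2 : ℕ) : ℝ) ≤ (2 * r + 4) * √(S.Dt : ℝ) := by push_cast; linarith
  obtain ⟨W, hW⟩ := exists_region (zero_lt_one.trans S.D_gt) (2 * L + 2) (2 * T) S.c S.d₀ (-T)
    (-((L + 1) * S.D))
  obtain ⟨Rr, H, hR⟩ := tube S hp hU.2
  have e1 : ∀ u : ℤ × ℤ, nn S.c S.d₀ S.D ![u.1, u.2] = S.nn u.1 u.2 := fun u => by
    simp only [nn, SD.nn, SD.dl, Matrix.cons_val_zero, Matrix.cons_val_one]
    ring
  have b1 : ∀ u ∈ U, |(2 * u.1 + 1 : ℝ)| ≤ r * √(S.D : ℝ) ∧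
      |(S.nn u.1 u.2 : ℝ)| ≤ r * S.D * √(S.Dt : ℝ) := fun u hu =>
    ⟨(hU.1 u hu).1.trans (by gcongr), (hU.1 u hu).2.trans (by gcongr)⟩
  have b2 : ∀ u ∈ U, |2 * u.1 + 1| < T ∧ |S.nn u.1 u.2| ≤ L * S.D := fun u hu => by
    obtain ⟨c1, c2⟩ := b1 u hu
    constructor
    · have : |(2 * u.1 + 1 : ℝ)| < T := by linarith
      exact_mod_cast this
    · have : |(S.nn u.1 u.2 : ℝ)| ≤ L * S.D := c2.trans (by rw [mul_right_comm]; gcongr)
      exact_mod_cast this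
  have D2 : (1 : ℤ) < S.D := by exact_mod_cast S.D_gt
  have key := h y hy1 (NN S) _ Rr _ S.a S.b ((2 * L + 2 : ℕ) * (2 * T : ℕ)) W
    (fun u => Wt S.D (2 * L + 2) (-((L + 1) * S.D)) (nn S.c S.d₀ S.D u))
    (U.image fun u => ![u.1, u.2]) H
    (fun q hq => ⟨(S.a_le q hq).trans (by norm_num), (n1_den S hq).trans (by gcongr; norm_num)⟩)
    (by positivity) (fun u => Wt_nonneg _ _ _ _)
    (PB.of_abs (e := -3) y1 (by positivity) (by norm_num) fun M f m1 m2 f1 f2 => by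
      rw [hy] at m2 ⊢
      exact hE S.D S.Dt _ _ M _ _ _ _ W f hD1
        (fun ⟨z, hz⟩ => SD.not_sq S.sqf.of_mul_right S.Dt_gt (x := z) one_ne_zero
          (by rw [hz]; push_cast; ring)) hDt ⟨_, S.hm⟩ (by omega)
        (by push_cast; linarith) t3 m1 m2 hW f1 f2)
    (fun v hv => ?_) fun v hv => ?_
  · have X1 : S.X ≤ y ^ (400 : ℝ) := by
      rw [Real.rpow_ofNat, show y ^ 400 = y ^ 200 * y ^ 200 by ring, ← hD, SD.X]
      gcongr
    have X0 : 0 < S.X := by rw [SD.X]; positivity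
    have X2 : ∀ η : ℝ, 0 ≤ η → S.X ^ (η / 400) ≤ y ^ η := fun η h0 => by
      refine (Real.rpow_le_rpow X0.le X1 (by positivity)).trans (le_of_eq ?_)
      rw [← Real.rpow_mul y0.le]
      congr 1
      ring
    refine ⟨y ^ δ, X2 δ d0.le, ?_, ?_⟩
    · calc y ^ δ ≤ y ^ ((200 : ℕ) : ℝ) :=
            Real.rpow_le_rpow_of_exponent_le y1 (by push_cast; linarith)
        _ = S.D * 1 := by rw [Real.rpow_natCast, hD, mul_one]
        _ ≤ _ := by rw [SD.X]; gcongr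
    rw [sum_image fun u _ v _ e => Prod.ext (congrFun e 0) (congrFun e 1)] at key
    refine le_trans (sum_le_sum fun u hu => ?_) (key.trans ?_)
    · obtain ⟨-, c2⟩ := b2 u hu
      rw [abs_le] at c2
      rw [e1, Wt_eq_one (by omega) (by linarith) (by push_cast; linarith), one_mul]
      exact (W_le S ![u.1, u.2]).resolve_right (not_not.2 hp)
    · have X3 : y ^ (-ε) ≤ S.X ^ (-(ε / 400)) := by
        rw [Real.rpow_neg y0.le, Real.rpow_neg X0.le]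
        exact inv_anti₀ (by positivity) (X2 ε e0.le)
      have X4 : ((2 * L + 2 : ℕ) : ℝ) * (2 * T : ℕ) ≤ (2 * r + 4) ^ 2 * √S.X := by
        rw [SD.X, Real.sqrt_mul (by linarith)]
        calc _ ≤ (2 * r + 4) * √(S.Dt : ℝ) * ((2 * r + 4) * √(S.D : ℝ)) := by gcongr
          _ = _ := by ring
      rw [mul_assoc C _ (√S.X)]
      gcongr
  · obtain ⟨u, hu, rfl⟩ := mem_image.1 hv
    obtain ⟨c1, c2⟩ := b2 u hu
    rw [abs_lt] at c1
    rw [abs_le] at c2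
    rw [hW, e1, Matrix.cons_val_zero]
    push_cast
    refine ⟨by omega, by omega, by linarith, by linarith⟩
  · obtain ⟨u, hu, rfl⟩ := mem_image.1 hv
    refine ⟨Int.natAbs_ne_zero.2 (S.QQ_ne _ _), ?_, hR u hu⟩
    obtain ⟨c1, c2⟩ := b1 u hu
    have c3 : (2 * u.1 + 1 : ℝ) ^ 2 ≤ r ^ 2 * S.D := by
      rw [← s3, ← mul_pow, ← sq_abs]; gcongr
    have c4 : (S.nn u.1 u.2 : ℝ) ^ 2 ≤ r ^ 2 * S.D ^ 2 * S.Dt := by
      rw [← s4, ← mul_pow, ← mul_pow, ← sq_abs]; gcongr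
    have c5 : 4 * (S.dl u.1 : ℝ) = S.D - (2 * u.1 + 1) ^ 2 := by exact_mod_cast S.four_dl u.1
    have c6 : (S.D : ℝ) * S.QQ u.1 u.2 = S.nn u.1 u.2 ^ 2 - S.dl u.1 ^ 2 * S.Dt := by
      exact_mod_cast S.D_QQ u.1 u.2
    have c7 : (S.dl u.1 : ℝ) ^ 2 ≤ ((1 + r ^ 2) * S.D) ^ 2 := by
      have : 0 ≤ r ^ 2 * S.D := by positivity
      refine sq_le_sq' ?_ ?_ <;> nlinarith [sq_nonneg (2 * u.1 + 1 : ℝ)]
    have c8 : (S.dl u.1 : ℝ) ^ 2 * S.Dt ≤ ((1 + r ^ 2) * S.D) ^ 2 * S.Dt := by gcongr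
    have c9 : |(S.D : ℝ) * S.QQ u.1 u.2| ≤ (r ^ 2 + (1 + r ^ 2) ^ 2) * (S.D ^ 2 * S.Dt) := by
      have : 0 ≤ (S.dl u.1 : ℝ) ^ 2 * S.Dt := by positivity
      have : 0 ≤ r ^ 2 * S.D ^ 2 * S.Dt := by positivity
      rw [c6, abs_le]
      constructor <;> nlinarith [sq_nonneg (S.nn u.1 u.2 : ℝ)]
    rw [abs_mul, abs_of_pos (by linarith)] at c9
    rw [D2.NN, Nat.cast_natAbs, Int.cast_abs, Matrix.cons_val_zero, Matrix.cons_val_one,
      Matrix.cons_val_zero, Real.rpow_ofNat]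
    calc _ ≤ S.D * |(S.QQ u.1 u.2 : ℝ)| := le_mul_of_one_le_left (abs_nonneg _) D1
      _ ≤ S.D * (S.D ^ 2 * S.D) := c9.trans (by gcongr)
      _ = _ := by rw [hD]; ring

end Pool.Agent.Lib.MP_9177b7_ag.S4
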