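import Pool.Agent.Lib.MP_9177b7_ag.B.EK2

/-!
The high entropy step for a central extension of the Heisenberg group.
-/

open MeasureTheory ProbabilityTheory Filter Topology Set
open scoped ENNReal

noncomputable section

namespace Pool.Agent.Lib.MP_9177b7_ag.S4

open B B.EK

/-- `T` contracts `V` uniformly. -/
def Ctr {G : Type} [Group G] [TopologicalSpace G] (T : G) (V : Set G) : Prop :=
  ∀ O ∈ 𝓝 (1 : G), ∀ᶠ n : ℕ in atTop, ∀ w ∈ V, T ^ n * w * (T ^ n)⁻¹ ∈ O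

/-- A compact group with a map onto the Heisenberg group. -/
structure H2 (p : ℕ) [Fact p.Prime] (G : Type) [Group G] [TopologicalSpace G] where
  Nn : Subgroup G
  Z : Subgroup G
  co : G → ℚ_[p] × ℚ_[p] × ℚ_[p]
  u₁ : ℚ_[p] → G
  u₂ : ℚ_[p] → G
  u₃ : ℚ_[p] → G
  l : ℚ_[p]
  T₁ : G
  T₂ : G
  T₃ : G
  cN : IsCompact (Nn : Set G)
  cZ : IsCompact (Z : Set G)
  ZN : Z ≤ Nn
  cco : Continuous co
  c1 : Continuous u₁
  c2 : Continuous u₂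
  c3 : Continuous u₃
  mul : ∀ g ∈ Nn, ∀ g' ∈ Nn, co (g * g') = ((co g).1 + (co g').1, (co g).2.1 + (co g').2.1,
    (co g).2.2 + (co g').2.2 + (co g).1 * (co g').2.1)
  int : ∀ g ∈ Nn, In (co g)
  o1 : ∀ s, ‖s‖ ≤ 1 → u₁ s ∈ Nn ∧ co (u₁ s) = (s, 0, 0)
  o2 : ∀ s, ‖s‖ ≤ 1 → u₂ s ∈ Nn ∧ co (u₂ s) = (0, s, 0)
  o3 : ∀ s, ‖s‖ ≤ 1 → u₃ s ∈ Nn ∧ co (u₃ s) = (0, 0, s)
  ker : ∀ g ∈ Nn, co g = 0 → g ∈ Z
  add : ∀ s t, u₃ (s + t) = u₃ s * u₃ t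
  com : ∀ z ∈ Z, ∀ s, ‖s‖ ≤ 1 → u₃ s * z = z * u₃ s
  hl : ‖l‖ < 1
  t1 : ∀ s, T₁ * u₁ s = u₁ s * T₁
  t2 : ∀ s, T₂ * u₂ s = u₂ s * T₂
  t3 : ∀ z ∈ Z, T₃ * z = z * T₃
  t4 : ∀ s, T₃ * u₃ s * T₃⁻¹ = u₃ (l * s)
  k1 : Ctr T₁ {g | g ∈ Nn ∧ (co g).1 = 0}
  k2 : Ctr T₂ {g | g ∈ Nn ∧ (co g).2.1 = 0}
  k3 : Ctr T₃ {g | ∃ s, ‖s‖ ≤ 1 ∧ g = u₃ s}

namespace H2

variable {p : ℕ} [Fact p.Prime] {G : Type} [Group G] [TopologicalSpace G] (D : H2 p G)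

theorem one : D.co 1 = (0, 0, 0) := by
  have h := D.mul 1 D.Nn.one_mem 1 D.Nn.one_mem
  rw [mul_one] at h
  have h1 : (D.co 1).1 = 0 := by simpa using congrArg Prod.fst h
  have h2 : (D.co 1).2.1 = 0 := by simpa using congrArg (·.2.1) h
  have h3 : (D.co 1).2.2 = 0 := by simpa [h1] using congrArg (·.2.2) h
  exact Prod.ext h1 (Prod.ext h2 h3)

theorem inv {g : G} (hg : g ∈ D.Nn) : D.co g⁻¹ =
    (-(D.co g).1, -(D.co g).2.1, -(D.co g).2.2 + (D.co g).1 * (D.co g).2.1) := by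
  have h := D.mul g hg _ (inv_mem hg)
  rw [mul_inv_cancel, D.one] at h
  simp only [Prod.mk.injEq] at h
  refine Prod.ext ?_ (Prod.ext ?_ ?_)
  · linear_combination -h.1
  · linear_combination -h.2.1
  · linear_combination -h.2.2 + (D.co g).1 * h.2.1

theorem u0 : D.u₃ 0 = 1 := by simpa using D.add 0 0

theorem pw (n : ℕ) (s : ℚ_[p]) : D.T₃ ^ n * D.u₃ s * (D.T₃ ^ n)⁻¹ = D.u₃ (D.l ^ n * s) := by
  induction n with
  | zero => simp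
  | succ n ih =>
    rw [pow_succ', pow_succ', mul_assoc D.l, ← D.t4, ← ih]
    group

/-- A section of the coordinates. -/
def sec (y : ℚ_[p] × ℚ_[p] × ℚ_[p]) : G := D.u₂ y.2.1 * D.u₁ y.1 * D.u₃ y.2.2

theorem sec_z {c : G} (hc : c ∈ D.Nn) : D.sec (D.co c) ∈ D.Nn ∧ c * (D.sec (D.co c))⁻¹ ∈ D.Z := by
  obtain ⟨a1, a2, a3⟩ := D.int c hc
  obtain ⟨b1, e1⟩ := D.o1 _ a1
  obtain ⟨b2, e2⟩ := D.o2 _ a2
  obtain ⟨b3, e3⟩ := D.o3 _ a3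
  have m : D.sec (D.co c) ∈ D.Nn := mul_mem (mul_mem b2 b1) b3
  have e : D.co (D.sec (D.co c)) = D.co c := by
    rw [sec, D.mul _ (mul_mem b2 b1) _ b3, D.mul _ b2 _ b1, e1, e2, e3]
    simp
  refine ⟨m, D.ker _ (mul_mem hc (inv_mem m)) ?_⟩
  rw [D.mul _ hc _ (inv_mem m), D.inv m, e]
  ext <;> simp

variable [IsTopologicalGroup G] [MeasurableSpace G] [BorelSpace G]

theorem zinv (m : Measure G) (hs : ∀ᵐ c ∂m, c ∈ D.Nn) {q : ℚ_[p]} (hq : ‖q‖ ≤ 1)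
    (e : (m.map D.co).map (fun y => (y.1, y.2.1, y.2.2 + q)) = m.map D.co) {F : G → ℝ≥0∞}
    (hF : Measurable F) (hZ : ∀ z ∈ D.Z, ∀ c, F (z * c) = F c) :
    ∫⁻ c, F (D.u₃ q * c) ∂m = ∫⁻ c, F c ∂m := by
  have cs : Continuous D.sec := by
    have := D.c1
    have := D.c2
    have := D.c3
    unfold sec
    fun_prop
  have k : ∀ c ∈ D.Nn, F c = F (D.sec (D.co c)) := fun c hc => by
    rw [← hZ _ (D.sec_z hc).2 (D.sec (D.co c)), inv_mul_cancel_right]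
  have m1 := hF.comp cs.measurable
  have m2 : Measurable fun y : ℚ_[p] × ℚ_[p] × ℚ_[p] => (y.1, y.2.1, y.2.2 + q) := by fun_prop
  calc _ = ∫⁻ c, ((F ∘ D.sec) ∘ fun y => (y.1, y.2.1, y.2.2 + q)) (D.co c) ∂m := by
        refine lintegral_congr_ae (hs.mono fun c hc => ?_)
        obtain ⟨b3, e3⟩ := D.o3 _ hq
        simp only [Function.comp]
        rw [k _ (mul_mem b3 hc), D.mul _ b3 _ hc, e3]
        simp [add_comm]
    _ = ∫⁻ c, (F ∘ D.sec) (D.co c) ∂m := by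
        rw [← lintegral_map (m1.comp m2) D.cco.measurable, ← lintegral_map m1 D.cco.measurable,
          ← e, lintegral_map m1 m2, e]
        rfl
    _ = _ := lintegral_congr_ae (hs.mono fun c hc => (k c hc).symm)

end H2

theorem core2 (hC : CondStmt) (hT : TowerStmt) (hP : ProdStmt) (hL : LevStmt) (hH : HeisStmt)
    {p : ℕ} [Fact p.Prime] {G X : Type} [Group G] [TopologicalSpace G] [IsTopologicalGroup G]
    [PolishSpace G] [MeasurableSpace G] [BorelSpace G] [TopologicalSpace X] [PolishSpace X]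
    [LocallyCompactSpace X] [MeasurableSpace X] [BorelSpace X] [MulAction G X]
    [ContinuousSMul G X] (ν : Measure X) [IsFiniteMeasure ν] (D : H2 p G) (U₁ U₂ U₃ : Subgroup G)
    (u1 : ∀ g, g ∈ U₁ ↔ ∃ s, ‖s‖ ≤ 1 ∧ g = D.u₁ s) (u2 : ∀ g, g ∈ U₂ ↔ ∃ s, ‖s‖ ≤ 1 ∧ g = D.u₂ s)
    (u3 : ∀ g, g ∈ U₃ ↔ ∃ s, ‖s‖ ≤ 1 ∧ g = D.u₃ s) (κ₁ κ₂ κ₃ : Kernel X G)
    (t1 : ν.map (D.T₁ • ·) = ν) (t2 : ν.map (D.T₂ • ·) = ν) (t3 : ν.map (D.T₃ • ·) = ν)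
    (k1 : IsCond U₁ ν κ₁) (k2 : IsCond U₂ ν κ₂) (k3 : IsCond U₃ ν κ₃) :
    ∀ᵐ x ∂ν, κ₁ x ≠ Measure.dirac 1 → κ₂ x ≠ Measure.dirac 1 →
      ∀ u ∈ U₃, (κ₃ x).map (u * ·) = κ₃ x := by
  have cco := D.cco
  have q1 : IsCompact (U₁ : Set G) := cpt D.c1 u1
  have q2 : IsCompact (U₂ : Set G) := cpt D.c2 u2
  have q3 : IsCompact (U₃ : Set G) := cpt D.c3 u3
  have s1 : U₁ ≤ D.Nn := fun g hg => by
    obtain ⟨s, a, rfl⟩ := (u1 g).1 hg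
    exact (D.o1 s a).1
  have s2 : U₂ ≤ D.Nn := fun g hg => by
    obtain ⟨s, a, rfl⟩ := (u2 g).1 hg
    exact (D.o2 s a).1
  have s3 : U₃ ≤ D.Nn := fun g hg => by
    obtain ⟨s, a, rfl⟩ := (u3 g).1 hg
    exact (D.o3 s a).1
  obtain ⟨m, hm⟩ := (hC G X ν D.Nn D.cN).1
  obtain ⟨ζ, hζ⟩ := (hC G X ν D.Z D.cZ).1
  obtain ⟨X₁, -, a1, b1, c1⟩ := hP G X ν U₁ κ₁ D.T₁ {g | g ∈ D.Nn ∧ (D.co g).1 = 0} q1 k1 t1
    (fun u hu => by
      obtain ⟨s, -, rfl⟩ := (u1 u).1 hu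
      exact D.t1 s)
    (fun u hu w hw => ⟨mul_mem (mul_mem (s1 hu) hw.1) (inv_mem (s1 hu)), by
      rw [D.mul _ (mul_mem (s1 hu) hw.1) _ (inv_mem (s1 hu)), D.mul _ (s1 hu) _ hw.1, D.inv (s1 hu)]
      simp [hw.2]⟩) D.k1
  obtain ⟨X₂, -, a2, b2, c2⟩ := hP G X ν U₂ κ₂ D.T₂ {g | g ∈ D.Nn ∧ (D.co g).2.1 = 0} q2 k2 t2
    (fun u hu => by
      obtain ⟨s, -, rfl⟩ := (u2 u).1 hu
      exact D.t2 s)
    (fun u hu w hw => ⟨mul_mem (mul_mem (s2 hu) hw.1) (inv_mem (s2 hu)), by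
      rw [D.mul _ (mul_mem (s2 hu) hw.1) _ (inv_mem (s2 hu)), D.mul _ (s2 hu) _ hw.1, D.inv (s2 hu)]
      simp [hw.2]⟩) D.k2
  obtain ⟨X₃, m3', a3, b3, c3⟩ := hP G X ν D.Z ζ D.T₃ _ D.cZ hζ t3 D.t3
    (fun u hu w hw => by
      obtain ⟨s, a, rfl⟩ := hw
      exact ⟨s, a, by rw [← D.com u hu s a, mul_inv_cancel_right]⟩) D.k3
  obtain ⟨m1, -, d1, -⟩ := hL G X ν U₁ κ₁ q1 k1
  obtain ⟨m2, -, d2, -⟩ := hL G X ν U₂ κ₂ q2 k2
  obtain ⟨-, m3, -, -, d3⟩ := hL G X ν U₃ κ₃ q3 k3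
  have d3 := (d3 D.T₃ t3 fun u hu => by
    obtain ⟨s, a, rfl⟩ := (u3 u).1 hu
    exact (u3 _).2 ⟨D.l * s, nmul D.hl.le a, D.t4 s⟩).2
  have mE := (m1.compl.inter m2.compl).inter m3.compl
  suffices h : ν (({x | κ₁ x = Measure.dirac 1}ᶜ ∩ {x | κ₂ x = Measure.dirac 1}ᶜ) ∩
      {x | ∀ u ∈ U₃, (κ₃ x).map (u * ·) = κ₃ x}ᶜ) = 0 by
    filter_upwards [measure_eq_zero_iff_ae_notMem.1 h] with x hx e1 e2
    by_contra e3
    exact hx ⟨⟨e1, e2⟩, e3⟩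
  refine (dis_set hm mE).2 ?_
  have := hm.markov
  have := k3.markov
  have := hζ.markov
  filter_upwards [(hT G X ν D.Nn U₁ m κ₁ D.cN q1 hm k1).1 s1,
    (hT G X ν D.Nn U₂ m κ₂ D.cN q2 hm k2).1 s2, (hT G X ν D.Nn U₃ m κ₃ D.cN q3 hm k3).1 s3,
    (hT G X ν D.Nn D.Z m ζ D.cN D.cZ hm hζ).1 D.ZN,
    ae_ae hm a1, ae_ae hm a2, ae_ae hm a3, ae_ae hm d1, ae_ae hm d2, ae_ae hm d3]
    with x w1 w2 w3 w4 a1 a2 a3 d1 d2 d3
  have hs : ∀ᵐ c ∂m x, c ∈ D.Nn := hm.supp x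
  by_contra hn
  obtain ⟨c₀, n0, n1, n2, n3, n4, n5⟩ :=
    ((not_eventually.1 hn).and_eventually (hs.and (a1.and (a2.and (d1.and d2))))).exists
  rw [not_not] at n0
  have f1 : ∀ c ∈ D.Nn, (D.u₁ (D.co c).1)⁻¹ * c ∈ D.Nn ∧ D.co ((D.u₁ (D.co c).1)⁻¹ * c) =
      (0, (D.co c).2.1, (D.co c).2.2 - (D.co c).1 * (D.co c).2.1) := fun c hc => by
    obtain ⟨b, e⟩ := D.o1 _ (D.int c hc).1
    refine ⟨mul_mem (inv_mem b) hc, ?_⟩
    rw [D.mul _ (inv_mem b) _ hc, D.inv b, e]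
    ext <;> simp [sub_eq_add_neg]
  have f2 : ∀ c ∈ D.Nn, (D.u₂ (D.co c).2.1)⁻¹ * c ∈ D.Nn ∧ D.co ((D.u₂ (D.co c).2.1)⁻¹ * c) =
      ((D.co c).1, 0, (D.co c).2.2) := fun c hc => by
    obtain ⟨b, e⟩ := D.o2 _ (D.int c hc).2.1
    refine ⟨mul_mem (inv_mem b) hc, ?_⟩
    rw [D.mul _ (inv_mem b) _ hc, D.inv b, e]
    ext <;> simp
  obtain ⟨ω, i1, j1, l1⟩ := side k1 (m x) x X₁ _ (fun c => (D.u₁ (D.co c).1)⁻¹ * c) D.co
    (fun c => (D.co c).1) D.u₁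
    (fun q => (q.2, q.1.2.1, q.1.2.2 - q.1.1 * q.1.2.1 + q.2 * q.1.2.1)) cco.measurable
    (by fun_prop) D.c1.measurable (Continuous.measurable (by fun_prop)) b1 c1 (H := D.Nn)
    (fun c hc => (u1 _).2 ⟨_, (D.int c hc).1, by group⟩)
    (fun c hc c' hc' => ⟨mul_mem (f1 c hc).1 (inv_mem (f1 c' hc').1), by
      rw [D.mul _ (f1 c hc).1 _ (inv_mem (f1 c' hc').1), D.inv (f1 c' hc').1, (f1 c hc).2,
        (f1 c' hc').2]
      simp⟩)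
    (fun c hc b hb => by
      obtain ⟨s, a, rfl⟩ := (u1 b).1 hb
      rw [D.mul _ (D.o1 s a).1 _ (f1 c hc).1, (f1 c hc).2, (D.o1 s a).2]
      simp)
    (fun b hb => by
      obtain ⟨s, a, rfl⟩ := (u1 b).1 hb
      rw [(D.o1 s a).2])
    (hs.and a1) w1.1 n1 n2 fun g hg => n0.1.1 (n4 ⟨g, hg⟩)
  obtain ⟨ω', i2, j2, l2⟩ := side k2 (m x) x X₂ _ (fun c => (D.u₂ (D.co c).2.1)⁻¹ * c) D.co
    (fun c => (D.co c).2.1) D.u₂ (fun q => (q.1.1, q.2, q.1.2.2)) cco.measurable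
    (by fun_prop) D.c2.measurable (Continuous.measurable (by fun_prop)) b2 c2 (H := D.Nn)
    (fun c hc => (u2 _).2 ⟨_, (D.int c hc).2.1, by group⟩)
    (fun c hc c' hc' => ⟨mul_mem (f2 c hc).1 (inv_mem (f2 c' hc').1), by
      rw [D.mul _ (f2 c hc).1 _ (inv_mem (f2 c' hc').1), D.inv (f2 c' hc').1, (f2 c hc).2,
        (f2 c' hc').2]
      simp⟩)
    (fun c hc b hb => by
      obtain ⟨s, a, rfl⟩ := (u2 b).1 hb
      rw [D.mul _ (D.o2 s a).1 _ (f2 c hc).1, (f2 c hc).2, (D.o2 s a).2]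
      simp)
    (fun b hb => by
      obtain ⟨s, a, rfl⟩ := (u2 b).1 hb
      rw [(D.o2 s a).2])
    (hs.and a2) w2.1 n1 n3 fun g hg => n0.1.2 (n5 ⟨g, hg⟩)
  have mI : MeasurableSet {y : ℚ_[p] × ℚ_[p] × ℚ_[p] | ‖y.1‖ ≤ 1 ∧ ‖y.2.1‖ ≤ 1 ∧ ‖y.2.2‖ ≤ 1} :=
    IsClosed.measurableSet (IsClosed.and (isClosed_le (by fun_prop) continuous_const)
      (IsClosed.and (isClosed_le (by fun_prop) continuous_const)
        (isClosed_le (by fun_prop) continuous_const)))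
  obtain ⟨q, q0, hq, e⟩ := hH p ((m x).map D.co) ω ω'
    (Measure.isProbabilityMeasure_map cco.measurable.aemeasurable) i1 i2
    ((ae_map_iff cco.measurable.aemeasurable mI).2 (hs.mono D.int)) j1 j2 l1 l2
  have sx : Measurable fun c : G => c • x := (continuous_id.smul continuous_const).measurable
  have a4 : ∀ᵐ c ∂m x, (D.u₃ q * c) • x ∈ X₃ := by
    have mF : Measurable (((fun c : G => c • x) ⁻¹' X₃ᶜ).indicator (1 : G → ℝ≥0∞)) :=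
      measurable_one.indicator (sx m3'.compl)
    have k := D.zinv (m x) hs hq e mF fun z hz c => by
      have : (z * c) • x ∈ X₃ ↔ c • x ∈ X₃ := ⟨fun h => by
        simpa [← mul_smul] using b3 _ (inv_mem hz) _ h, fun h => mul_smul z c x ▸ b3 _ hz _ h⟩
      by_cases h : c • x ∈ X₃ <;> simp [indicator, this, h]
    have z0 : m x ((fun c : G => c • x) ⁻¹' X₃ᶜ) = 0 := a3
    rw [lintegral_indicator_one (sx m3'.compl), z0] at k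
    filter_upwards [(lintegral_eq_zero_iff (mF.comp (measurable_const_mul _))).1 k] with c hc
    by_contra h
    simp [h] at hc
  have r2 : (m x).map (D.u₃ q * ·) = m x := by
    refine Measure.ext_of_lintegral _ fun f hf => ?_
    have mF : Measurable fun c : G => ∫⁻ b, f (b * c) ∂ζ (c • x) :=
      Measurable.lintegral_kernel_prod_right' (κ := ζ.comap _ sx)
        (f := fun q : G × G => f (q.2 * q.1)) (hf.comp (measurable_snd.mul measurable_fst))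
    rw [lintegral_map hf (measurable_const_mul _), ← w4.1 f hf,
      ← w4.1 (fun c => f (D.u₃ q * c)) (hf.comp (measurable_const_mul _)),
      ← D.zinv (m x) hs hq e mF fun z hz c => by
        rw [mul_smul, hζ.equi z hz, lintegral_map (f := fun b => f (b * (z * c)))
          (hf.comp (measurable_mul_const _)) (measurable_mul_const _)]
        simp only [mul_assoc, inv_mul_cancel_left]]
    refine lintegral_congr_ae ?_
    filter_upwards [a3, a4] with c h3 h4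
    rw [mul_smul] at h4 ⊢
    rw [c3 _ ⟨q, hq, rfl⟩ _ h3 h4]
    refine lintegral_congr_ae ?_
    filter_upwards [(hζ.supp _ : ∀ᵐ b ∂ζ (c • x), b ∈ D.Z)] with b hb
    rw [← mul_assoc, D.com b hb q hq, mul_assoc]
  obtain ⟨j, hj⟩ := ((tendsto_pow_atTop_nhds_zero_of_lt_one (norm_nonneg _) D.hl).eventually
    (gt_mem_nhds (norm_pos_iff.2 q0))).exists
  refine hn ?_
  filter_upwards [w3.2 _ ((u3 _).2 ⟨q, hq, rfl⟩) r2, d3] with c e1 e2 e3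
  refine e3.2 (e2 j fun u hu => ?_)
  obtain ⟨s, a, rfl⟩ := (u3 u).1 hu
  have := stab_int (κ₃ (c • x)) D.u₃ D.c3 D.u0 D.add e1 (s := D.l ^ j / q * s) (nmul (by
      rw [norm_div, norm_pow]
      exact (div_le_one (norm_pos_iff.2 q0)).2 hj.le) a)
  rw [← mul_assoc, mul_div_cancel₀ _ q0] at this
  rwa [D.pw]

end Pool.Agent.Lib.MP_9177b7_ag.S4
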