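import Pool.Agent.Lib.MP_9177b7_ag.S4.StDy
import Pool.Agent.Lib.MP_9177b7_ag.S4.EKa

/-!
The high entropy steps in `Sp_4(ℚ_p)`.
-/

open MeasureTheory ProbabilityTheory Filter Topology Set

noncomputable section

namespace Pool.Agent.Lib.MP_9177b7_ag.S4

open B B.EK

namespace EKS

variable {p : ℕ} [Fact p.Prime] {a b i j : Fin 4}

theorem dg_comm (k : Fin 4 → ℤ) (h : i ≠ j) (e : wt k i j = 0) (s : ℚ_[p]) :
    dg p k * ur h s = ur h s * dg p k := by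
  have := dg_ur k h s
  rw [e, zpow_zero, one_mul] at this
  exact mul_inv_eq_iff_eq_mul.1 this

theorem N_sub {k k' : Fin 4 → ℤ} {g : HQ p} (hg : g ∈ N p k)
    (h : ∀ i j, 0 < wt k i j → ¬ 0 < wt k' i j → D g i j = 0) : g ∈ N p k' := by
  rw [mem_N] at hg ⊢
  refine ⟨hg.1, fun i j e => ?_⟩
  by_cases q : 0 < wt k i j
  exacts [h i j q e, hg.2 i j q]

theorem n_two (hp : p ≠ 2) : ‖(2 : ℚ_[p])‖ = 1 := by
  have := (Padic.norm_natCast_eq_one_iff (p := p) (n := 2)).2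
    ((Nat.coprime_primes Fact.out Nat.prime_two).2 hp)
  simpa using this

theorem n_pow (n : ℤ) (hn : 0 < n) : ‖(p : ℚ_[p]) ^ n‖ < 1 := by
  rw [Padic.norm_p_zpow]
  exact zpow_lt_one_of_neg₀ p1 (by omega)

theorem f1 : ∀ a b : Fin 4, Ch a b → (∀ m, ¬ (0 < wt (kK a) a m ∧ 0 < wt (kK a) m b)) ∧
    (∀ m, ¬ (0 < wt (kK a) a m ∧ 0 < wt (kK a) m (b + 2))) ∧
    (∀ m, ¬ (0 < wt (kK a) b m ∧ 0 < wt (kK a) m (a + 2))) ∧
    (∀ m, m ∉ ({b, b + 2} : Finset (Fin 4)) → ¬ (0 < wt (kK a) a m ∧ 0 < wt (kK a) m (a + 2))) ∧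
    0 < wt (kK a) a b ∧ 0 < wt (kK a) a (b + 2) ∧ wt (kK a) a (a + 2) = 2 ∧
    wt (kS a b) a b = 0 ∧ wt (kS a (b + 2)) a (b + 2) = 0 ∧
    b ≠ a + 2 ∧ b + 2 ≠ a ∧ b + 2 ≠ b ∧ b + 2 ≠ a + 2 ∧ a + 2 ≠ b ∧ a + 2 ≠ a ∧ b ≠ a := by decide

theorem f2 : ∀ a b : Fin 4, Ch a b → ∀ i j, 0 < wt (kK a) i j →
    ((i = a ∧ j = b) ∨ (i = b + 2 ∧ j = a + 2) ∨ (i = a ∧ j = b + 2) ∨ (i = b ∧ j = a + 2) ∨
      (i = a ∧ j = a + 2)) ∧
    (¬ 0 < wt (kS a b) i j → (i = a ∧ j = b) ∨ (i = b + 2 ∧ j = a + 2)) ∧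
    (¬ 0 < wt (kS a (b + 2)) i j → (i = a ∧ j = b + 2) ∨ (i = b ∧ j = a + 2)) := by decide

theorem d1 (c : Ch a b) {g : HQ p} (hg : g ∈ N p (kK a)) :
    D g (b + 2) (a + 2) = -(sg _ a * sg _ b) * D g a b ∧
      D g a (b + 2) = sg _ a * sg _ b * D g b (a + 2) := by
  refine ⟨N_dual hg (f1 a b c).1, ?_⟩
  have := N_dual hg (f1 a b c).2.1
  rw [a22, sg2] at this
  rw [this]
  linear_combination -(D g a (b + 2) * sg _ b * sg _ b) * sg_sq (R := ℚ_[p]) a -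
    D g a (b + 2) * sg_sq (R := ℚ_[p]) b

/-- The data for two short roots. -/
def dat1 (hp : p ≠ 2) (c : Ch a b) : H2 p (HQ p) :=
  have w1 := (f1 a b c).1
  have w3 := (f1 a b c).2.2.1
  have w4 := (f1 a b c).2.2.2.1
  have w5 := (f1 a b c).2.2.2.2.1
  have w6 := (f1 a b c).2.2.2.2.2.1
  have w7 := (f1 a b c).2.2.2.2.2.2.1
  have w8 := (f1 a b c).2.2.2.2.2.2.2.1
  have w9 := (f1 a b c).2.2.2.2.2.2.2.2.1
  have e1 := (f1 a b c).2.2.2.2.2.2.2.2.2.1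
  have e2 := (f1 a b c).2.2.2.2.2.2.2.2.2.2.1
  have e3 := (f1 a b c).2.2.2.2.2.2.2.2.2.2.2.1
  have e4 := (f1 a b c).2.2.2.2.2.2.2.2.2.2.2.2.1
  have e5 := (f1 a b c).2.2.2.2.2.2.2.2.2.2.2.2.2.1
  have e6 := (f1 a b c).2.2.2.2.2.2.2.2.2.2.2.2.2.2.1
  have e7 := (f1 a b c).2.2.2.2.2.2.2.2.2.2.2.2.2.2.2
  have n1 : ‖sg ℚ_[p] a * sg ℚ_[p] b‖ = 1 := by simp [norm_sg]
  { Nn := N p (kK a)
    Z := ⊥
    co g := (D g a b, D g b (a + 2), (D g a (a + 2) + D g a b * D g b (a + 2)) / 2)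
    u₁ s := ur c.1 s
    u₂ s := ur c.2 (sg _ a * sg _ b * s)
    u₃ s := ur (n2 a) (2 * s)
    l := (p : ℚ_[p]) ^ (2 : ℤ)
    T₁ := dg p (kS a b)
    T₂ := dg p (kS a (b + 2))
    T₃ := dg p (kK a)
    cN := N_cpt _
    cZ := isCompact_singleton
    ZN := bot_le
    cco := (D_cont _ _).prodMk ((D_cont _ _).prodMk
      (((D_cont _ _).add ((D_cont _ _).mul (D_cont _ _))).div_const _))
    c1 := ur_cont _
    c2 := (ur_cont _).comp (continuous_const_mul _)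
    c3 := (ur_cont _).comp (continuous_const_mul _)
    mul g hg g' hg' := by
      simp only [N_add hg hg' w1, N_add hg hg' w3, N_mul hg hg' _ w4, Finset.sum_pair e3.symm,
        (d1 c hg).2, (d1 c hg').1, Prod.mk.injEq, true_and]
      linear_combination -(D g b (a + 2) * D g' a b * sg _ b * sg _ b / 2) * sg_sq (R := ℚ_[p]) a -
        D g b (a + 2) * D g' a b / 2 * sg_sq (R := ℚ_[p]) b
    int g hg := by
      have h := ((mem_N _ g).1 hg).1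
      exact ⟨h _ _, h _ _, by
        rw [norm_div, n_two hp, div_one]
        exact nadd (h _ _) (nmul (h _ _) (h _ _))⟩
    o1 s hs := ⟨ur_N _ w5 hs, by simp [D_ur, *, c.1]⟩
    o2 s hs := ⟨ur_N _ w6 (by rwa [norm_mul, n1, one_mul]), by
      simp only [D_ur, a22, cf, sg2]
      simp [*, c.1]
      linear_combination (s * sg _ b * sg _ b) * sg_sq (R := ℚ_[p]) a + s * sg_sq (R := ℚ_[p]) b⟩
    o3 s hs := ⟨ur_N _ (by omega) (by rwa [norm_mul, n_two hp, one_mul]), by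
      simp only [D_ur, a22, cf]
      simp [*, c.1]⟩
    ker g hg h := by
      simp only [Prod.mk_eq_zero, div_eq_zero_iff, two_ne_zero, or_false] at h
      obtain ⟨h1, h2, h3⟩ := h
      rw [h1, zero_mul, add_zero] at h3
      refine D_ext fun i j => ?_
      rw [D_one]
      by_cases q : 0 < wt (kK a) i j
      · rcases (f2 a b c i j q).1 with r | r | r | r | r <;>
          simp [r.1, r.2, (d1 c hg).1, (d1 c hg).2, h1, h2, h3]
      · exact ((mem_N _ g).1 hg).2 i j q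
    add s t := by rw [mul_add, ur_add]
    com z hz s _ := by rw [Subgroup.mem_bot.1 hz, mul_one, one_mul]
    hl := n_pow 2 two_pos
    t1 s := dg_comm _ _ w8 _
    t2 s := dg_comm _ _ w9 _
    t3 z hz := by rw [Subgroup.mem_bot.1 hz, mul_one, one_mul]
    t4 s := by rw [dg_ur, w7, mul_left_comm]
    k1 := contr _ fun g hg => N_sub hg.1 fun i j q r => by
      have h : D g a b = 0 := hg.2
      rcases (f2 a b c i j q).2.1 r with r | r <;> simp [r.1, r.2, (d1 c hg.1).1, h]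
    k2 := contr _ fun g hg => N_sub hg.1 fun i j q r => by
      have h : D g b (a + 2) = 0 := hg.2
      rcases (f2 a b c i j q).2.2 r with r | r <;> simp [r.1, r.2, (d1 c hg.1).2, h]
    k3 := contr _ fun g ⟨s, hs, e⟩ => e ▸
      ur_N _ (by omega) (by rwa [norm_mul, n_two hp, one_mul]) }

theorem f3 : ∀ a b : Fin 4, Ch a b → (∀ m, ¬ (0 < wt (kR a b) a m ∧ 0 < wt (kR a b) m b)) ∧
    (∀ m, ¬ (0 < wt (kR a b) b m ∧ 0 < wt (kR a b) m (b + 2))) ∧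
    (∀ m, m ∉ ({b} : Finset (Fin 4)) → ¬ (0 < wt (kR a b) a m ∧ 0 < wt (kR a b) m (b + 2))) ∧
    0 < wt (kR a b) a b ∧ 0 < wt (kR a b) b (b + 2) ∧ 0 < wt (kR a b) a (b + 2) ∧
    0 < wt (kR a b) a (a + 2) := by decide

theorem f5 : ∀ a b : Fin 4, Ch a b → wt (kS a b) a b = 0 ∧ wt (kK a) b (b + 2) = 0 ∧
    wt (kK b) a (a + 2) = 0 ∧ wt (kK b) a (b + 2) = 1 ∧
    ∀ m, 0 < wt (kR a b) m (b + 2) → m = a ∨ m = b := by decide

theorem f6 : ∀ a b : Fin 4, Ch a b → ∀ i m j : Fin 4,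
    ((¬ (a = i ∧ b + 2 = m) ∧ ¬ (b + 2 + 2 = i ∧ a + 2 = m)) ∨
      (¬ (a = m ∧ a + 2 = j) ∧ ¬ (a + 2 + 2 = m ∧ a + 2 = j))) ∧
    ((¬ (a = i ∧ a + 2 = m) ∧ ¬ (a + 2 + 2 = i ∧ a + 2 = m)) ∨
      (¬ (a = m ∧ b + 2 = j) ∧ ¬ (b + 2 + 2 = m ∧ a + 2 = j))) := by decide

theorem f7 : ∀ a b : Fin 4, Ch a b →
    b ≠ a + 2 ∧ b + 2 ≠ a ∧ b + 2 ≠ b ∧ b + 2 ≠ a + 2 ∧ a + 2 ≠ b ∧ a + 2 ≠ b + 2 ∧ b ≠ a := by
  decide

theorem f4 : ∀ a b : Fin 4, Ch a b → ∀ i j, 0 < wt (kR a b) i j →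
    (¬ (a = i ∧ a + 2 = j) → (i = a ∧ j = b) ∨ (i = b + 2 ∧ j = a + 2) ∨ (i = a ∧ j = b + 2) ∨
      (i = b ∧ j = a + 2) ∨ (i = b ∧ j = b + 2)) ∧
    (¬ 0 < wt (kS a b) i j → (i = a ∧ j = b) ∨ (i = b + 2 ∧ j = a + 2)) ∧
    (¬ 0 < wt (kK a) i j → i = b ∧ j = b + 2) := by decide

/-- The data for a short and a long root. -/
def dat2 (p : ℕ) [Fact p.Prime] (c : Ch a b) : H2 p (HQ p) :=
  have w1 := (f3 a b c).1
  have w2 := (f3 a b c).2.1
  have w3 := (f3 a b c).2.2.1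
  have w4 := (f3 a b c).2.2.2.1
  have w5 := (f3 a b c).2.2.2.2.1
  have w6 := (f3 a b c).2.2.2.2.2.1
  have w7 := (f3 a b c).2.2.2.2.2.2
  have w8 := (f5 a b c).1
  have w9 := (f5 a b c).2.1
  have wa := (f5 a b c).2.2.1
  have wb := (f5 a b c).2.2.2.1
  have wc := (f5 a b c).2.2.2.2
  have wd := f6 a b c
  have e1 := (f7 a b c).1
  have e2 := (f7 a b c).2.1
  have e3 := (f7 a b c).2.2.1
  have e4 := (f7 a b c).2.2.2.1
  have e5 := (f7 a b c).2.2.2.2.1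
  have e6 := (f7 a b c).2.2.2.2.2.1
  have e7 := (f7 a b c).2.2.2.2.2.2
  { Nn := N p (kR a b)
    Z := U p (n2 a)
    co g := (D g a b, D g b (b + 2), D g a (b + 2))
    u₁ s := ur c.1 s
    u₂ s := ur (n2 b) s
    u₃ s := ur c.2 s
    l := (p : ℚ_[p]) ^ (1 : ℤ)
    T₁ := dg p (kS a b)
    T₂ := dg p (kK a)
    T₃ := dg p (kK b)
    cN := N_cpt _
    cZ := U_cpt _
    ZN := fun g ⟨s, hs, e⟩ => e ▸ ur_N _ w7 hs
    cco := (D_cont _ _).prodMk ((D_cont _ _).prodMk (D_cont _ _))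
    c1 := ur_cont _
    c2 := ur_cont _
    c3 := ur_cont _
    mul g hg g' hg' := by
      simp only [N_add hg hg' w1, N_add hg hg' w2, N_mul hg hg' _ w3, Finset.sum_singleton]
    int g hg :=
      have h := ((mem_N _ g).1 hg).1
      ⟨h _ _, h _ _, h _ _⟩
    o1 s hs := ⟨ur_N _ w4 hs, by simp [D_ur, *, c.1, e3.symm]⟩
    o2 s hs := ⟨ur_N _ w5 hs, by
      simp only [D_ur, a22, cf]
      simp [*]⟩
    o3 s hs := ⟨ur_N _ w6 hs, by
      simp only [D_ur, a22]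
      simp [*, c.1]⟩
    ker g hg h := by
      simp only [Prod.mk_eq_zero] at h
      obtain ⟨h1, h2, h3⟩ := h
      have m := (mem_N _ g).1 hg
      have h4 := N_dual hg w1
      have h5 := rel0 (i := a) (j := b + 2) g fun m' => by
        by_cases q : 0 < wt (kR a b) (m' + 2) (b + 2)
        · rcases wc _ q with r | r <;> simp [r, h2, h3]
        · rw [m.2 _ _ q, mul_zero]
      rw [a22] at h5
      refine ⟨_, m.1 a (a + 2), eq_ur _ g fun i j r _ => ?_⟩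
      by_cases q : 0 < wt (kR a b) i j
      · rcases (f4 a b c i j q).1 r with r | r | r | r | r <;> simp [r.1, r.2, h1, h2, h3, h4, h5]
      · exact m.2 i j q
    add s t := ur_add _ s t
    com z hz s _ := by
      obtain ⟨t, -, rfl⟩ := hz
      refine D_ext fun i j => ?_
      rw [D_mul, D_mul, Finset.sum_eq_zero, Finset.sum_eq_zero, add_comm (D _ i j)]
      · intro m _
        rcases (wd i m j).2 with r | r
        · rw [D_ur_zero _ _ r.1 r.2, zero_mul]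
        · rw [D_ur_zero _ _ r.1 r.2, mul_zero]
      · intro m _
        rcases (wd i m j).1 with r | r
        · rw [D_ur_zero _ _ r.1 r.2, zero_mul]
        · rw [D_ur_zero _ _ r.1 r.2, mul_zero]
    hl := n_pow 1 one_pos
    t1 s := dg_comm _ _ w8 _
    t2 s := dg_comm _ _ w9 _
    t3 z hz := by
      obtain ⟨t, -, rfl⟩ := hz
      exact dg_comm _ _ wa _
    t4 s := by rw [dg_ur, wb]
    k1 := contr _ fun g hg => N_sub hg.1 fun i j q r => by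
      have h : D g a b = 0 := hg.2
      rcases (f4 a b c i j q).2.1 r with r | r <;> simp [r.1, r.2, N_dual hg.1 w1, h]
    k2 := contr _ fun g hg => N_sub hg.1 fun i j q r => by
      obtain ⟨rfl, rfl⟩ := (f4 a b c i j q).2.2 r
      exact hg.2
    k3 := contr _ fun g ⟨s, hs, e⟩ => e ▸ ur_N _ (by omega) hs }

end EKS

open EKS

theorem ek1 : CondStmt → TowerStmt → ProdStmt → LevStmt → HeisStmt → EK1Stmt :=
  fun hC hT hP hL hH _ _ _ ν _ a _ c κ₁ κ₂ κ₃ hp hA k1 k2 k3 =>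
  core2 hC hT hP hL hH ν (dat1 hp c) _ _ _ (fun _ => Iff.rfl)
    (U_unit c.2 (by simp [norm_sg])) (U_unit (n2 a) (n_two hp)) κ₁ κ₂ κ₃ (hA _) (hA _) (hA _)
    k1 k2 k3

theorem ek2 : CondStmt → TowerStmt → ProdStmt → LevStmt → HeisStmt → EK2Stmt :=
  fun hC hT hP hL hH p _ _ ν _ _ _ c κ₁ κ₂ κ₃ hA k1 k2 k3 =>
  core2 hC hT hP hL hH ν (dat2 p c) _ _ _ (fun _ => Iff.rfl) (fun _ => Iff.rfl) (fun _ => Iff.rfl)
    κ₁ κ₂ κ₃ (hA _) (hA _) (hA _) k1 k2 k3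

end Pool.Agent.Lib.MP_9177b7_ag.S4
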