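import Pool.Agent.Lib.MP_9177b7_ag.S4.StA

/-!
The symplectic group of degree four over a field is generated by the root elements.
-/

open Matrix

namespace Pool.Agent.Lib.MP_9177b7_ag.S4

namespace Gen

variable {F : Type} [Field F]

/-- The entries. -/
def en (g : SP F) (a b : Fin 4) : F := g.1.1 a b

theorem en_ur {i j : Fin 4} (h : i ≠ j) (s : F) (g : SP F) (a b : Fin 4) :
    en (ur h s * g) a b = en g a b + (if i = a then s * en g j b else 0) +
      if j + 2 = a then cf F i j * s * en g (i + 2) b else 0 := by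
  have n : j ≠ j + 2 := (by decide : ∀ j : Fin 4, j ≠ j + 2) j
  change ((1 + single i j s) * (1 + single (j + 2) (i + 2) (cf F i j * s)) * g.1.1 :
    Matrix (Fin 4) (Fin 4) F) a b = _
  rw [mul_add, add_mul _ _ (single _ _ _), single_mul_single_of_ne _ _ _ _ n]
  simp only [mul_one, one_mul, add_zero, add_mul, Matrix.add_apply, en]
  congr 1
  · congr 1
    split_ifs with e
    · rw [← e, single_mul_apply_same]
    · exact single_mul_apply_of_ne _ _ _ _ _ (Ne.symm e) _
  · split_ifs with e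
    · rw [← e, single_mul_apply_same]
    · exact single_mul_apply_of_ne _ _ _ _ _ (Ne.symm e) _

theorem om (g : SP F) (a b : Fin 4) :
    en g 0 a * en g 2 b + en g 1 a * en g 3 b - en g 2 a * en g 0 b - en g 3 a * en g 1 b =
      J4 F a b := by
  rw [← congrFun (congrFun (show g.1.1ᵀ * J4 F * g.1.1 = J4 F from g.2) a) b]
  simp [J4, Matrix.mul_apply, Fin.sum_univ_four, en]
  ring

variable {S : Subgroup (SP F)} (hS : ∀ (i j : Fin 4) (h : i ≠ j) (s : F), ur h s ∈ S)

include hS

theorem st (i j : Fin 4) (h : i ≠ j) (s : F) {g : SP F} (m : ur h s * g ∈ S) : g ∈ S :=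
  (S.mul_mem_cancel_left (hS i j h s)).1 m

/-- The column `b` is the standard vector. -/
def Cl (g : SP F) (b : Fin 4) : Prop := ∀ a, en g a b = if a = b then 1 else 0

omit hS in
theorem row2 {g : SP F} (h : Cl g 0) (b : Fin 4) : en g 2 b = J4 F 0 b := by
  simpa [h 0, h 1, h 2, h 3] using om g 0 b

omit hS in
theorem row3 {g : SP F} (h : Cl g 1) (b : Fin 4) : en g 3 b = J4 F 1 b := by
  simpa [h 0, h 1, h 2, h 3] using om g 1 b

theorem l5 {g : SP F} (h0 : Cl g 0) (h1 : Cl g 1) : g ∈ S := by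
  have r2 := row2 h0
  have r3 := row3 h1
  have sy : en g 1 2 = en g 0 3 := by
    have := om g 2 3
    simp [r2, r3, J4] at this
    linear_combination this
  refine st hS 0 2 (by decide) (-en g 0 2) (st hS 1 3 (by decide) (-en g 1 3)
    (st hS 0 3 (by decide) (-en g 0 3) ?_))
  convert S.one_mem
  refine Subtype.ext (Subtype.ext (Matrix.ext fun a b => ?_))
  change en _ a b = (1 : Matrix (Fin 4) (Fin 4) F) a b
  have a0 := h0 0
  have a1 := h0 1
  have b0 := h1 0
  have b1 := h1 1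
  fin_cases a <;> fin_cases b <;> simp [en_ur, cf, sg, r2, r3, J4, sy] at a0 a1 b0 b1 ⊢ <;>
    assumption

theorem l4 {g : SP F} (h0 : Cl g 0) (h1 : en g 1 1 = 1) : g ∈ S := by
  have r2 := row2 h0
  refine st hS 3 1 (by decide) (-en g 3 1) (st hS 0 1 (by decide) (-en g 0 1) (l5 hS ?_ ?_))
  · intro a
    fin_cases a <;> simp [en_ur, cf, sg, h0 _]
  · intro a
    fin_cases a <;> simp [en_ur, cf, sg, h1, r2, J4]

theorem l3 {g : SP F} (h0 : Cl g 0) (h1 : en g 3 1 ≠ 0) : g ∈ S := by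
  refine st hS 1 3 (by decide) ((1 - en g 1 1) / en g 3 1) (l4 hS ?_ ?_)
  · intro a
    fin_cases a <;> simp [en_ur, cf, h0 _]
  · simp [en_ur, cf, h1]

theorem l2 {g : SP F} (h0 : Cl g 0) : g ∈ S := by
  by_cases h : en g 3 1 = 0
  · refine st hS 3 1 (by decide) 1 (l3 hS ?_ ?_)
    · intro a
      fin_cases a <;> simp [en_ur, cf, h0 _]
    · have := om g 1 3
      simp [row2 h0, J4, h] at this
      simp [en_ur, cf, h, left_ne_zero_of_mul_eq_one this]
  · exact l3 hS h0 h

theorem l1 {g : SP F} (h : en g 0 0 = 1) : g ∈ S := by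
  refine st hS 1 0 (by decide) (-en g 1 0) (st hS 3 0 (by decide) (-en g 3 0)
    (st hS 2 0 (by decide) (-(en g 2 0 + en g 1 0 * en g 3 0)) (l2 hS ?_)))
  intro a
  fin_cases a <;> simp [en_ur, cf, sg, h]

theorem l0 {g : SP F} {j : Fin 4} (hj : 0 ≠ j) (h : en g j 0 ≠ 0) : g ∈ S := by
  refine st hS 0 j hj ((1 - en g 0 0) / en g j 0) (l1 hS ?_)
  rw [en_ur, if_pos rfl, div_mul_cancel₀ _ h]
  split_ifs with e
  · have : j = 0 + 2 := (by decide : ∀ j : Fin 4, j + 2 = 0 → j = 0 + 2) j e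
    simp [cf, this]
  · simp

end Gen

open Gen in
theorem gen : GenStmt := by
  intro F _ S hS
  refine eq_top_iff.2 fun g _ => ?_
  by_cases h : ∀ j, 0 ≠ j → en g j 0 = 0
  · refine st hS 1 0 (by decide) 1 (l0 hS (j := 1) (by decide) ?_)
    have := om g 0 2
    simp [h 1, h 2, h 3, J4] at this
    simp [en_ur, h 1, left_ne_zero_of_mul_eq_one this]
  · push Not at h
    obtain ⟨j, a, b⟩ := h
    exact l0 hS a b

end Pool.Agent.Lib.MP_9177b7_ag.S4
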