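import Pool.Agent.Lib.MP_9177b7_ag.S4.StDy

/-!
Relative sections for the two unipotent radicals of `Sp_4(ℚ_p)`.
-/

open MeasureTheory ProbabilityTheory Filter Topology Set Matrix

namespace Pool.Agent.Lib.MP_9177b7_ag.S4

open B (IsCond ProdStmt LevStmt)

/-- The root `(i, j)` can be split off from the radical of weight `k` by the weight `k'`. -/
def Pl (k k' : Fin 4 → ℤ) (i j : Fin 4) : Prop :=
  0 < wt k i j ∧ wt k' i j = 0 ∧ (∀ m, ¬ (0 < wt k i m ∧ 0 < wt k m j)) ∧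
    ∀ a b, 0 < wt k a b → (i = a ∧ j = b) ∨ (j + 2 = a ∧ i + 2 = b) ∨ 0 < wt k' a b

instance (k k' : Fin 4 → ℤ) (i j : Fin 4) : Decidable (Pl k k' i j) := by
  unfold Pl
  infer_instance

theorem pl : ∀ a b : Fin 4, Ch a b → Pl (kK a) (kS a b) a b ∧
    Pl (kK a) (kS a (b + 2)) a (b + 2) ∧ Pl (kS a b) (kK b) a (a + 2) ∧
    Pl (kS a b) (kK a) b (b + 2) := by decide

/-- One root is removed. -/
theorem peel (hP : ProdStmt) (hL : LevStmt) {p : ℕ} [Fact p.Prime] (S : Sp p) (ν : Measure S.X)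
    [IsProbabilityMeasure ν] {i j : Fin 4} (h : i ≠ j) (κ : Kernel S.X (HQ p)) (hA : S.AInv ν)
    (hκ : IsCond (U p h) ν κ) {k k' : Fin 4 → ℤ} (H : Pl k k' i j) :
    ∃ Z : Set S.X, MeasurableSet Z ∧ (∀ᵐ x ∂ν, κ x = Measure.dirac 1 → x ∈ Z) ∧
      ∀ g ∈ N p k, ∀ x ∈ Z, g • x ∈ Z → D g i j = 0 ∧ D g (j + 2) (i + 2) = 0 := by
  obtain ⟨e, e', ad, hs⟩ := H
  obtain ⟨X', x1, x2, y1, y2⟩ := hP (HQ p) S.X ν (U p h) κ (dg p k')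
    {w | w ∈ N p k ∧ D w i j = 0} (U_cpt h) hκ (hA k') (by
      rintro _ ⟨s, -, rfl⟩
      rw [← mul_inv_eq_iff_eq_mul, dg_ur, e', zpow_zero, one_mul]) (by
      rintro _ ⟨s, hs, rfl⟩ w hw
      have m := ur_N (k := k) h e hs
      have m' := inv_mem m
      refine ⟨mul_mem (mul_mem m hw.1) m', ?_⟩
      rw [N_add (mul_mem m hw.1) m' ad, N_add m hw.1 ad, ur_inv, D_ur_self, D_ur_self, hw.2]
      ring) (contr k' fun w hw => (mem_N k' w).2 ⟨((mem_N k w).1 hw.1).1, fun a b n => by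
      by_cases e1 : 0 < wt k a b
      · rcases hs a b e1 with ⟨rfl, rfl⟩ | ⟨rfl, rfl⟩ | e2
        · exact hw.2
        · rw [N_dual hw.1 ad, hw.2, mul_zero]
        · exact absurd e2 n
      · exact ((mem_N k w).1 hw.1).2 a b e1⟩)
  refine ⟨{x | κ x = Measure.dirac 1} ∩ X', (hL (HQ p) S.X ν _ _ (U_cpt h) hκ).1.inter x1,
    x2.mono fun x a b => ⟨b, a⟩, fun g hg x hx hgx => ?_⟩
  have n : ‖-D g i j‖ ≤ 1 := by rw [norm_neg]; exact ((mem_N k g).1 hg).1 i j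
  have m : ur h (-D g i j) ∈ U p h := ⟨_, n, rfl⟩
  have w0 : D (ur h (-D g i j) * g) i j = 0 := by
    rw [N_add (ur_N h e n) hg ad, D_ur_self, neg_add_cancel]
  have e1 := y2 _ ⟨mul_mem (ur_N h e n) hg, w0⟩ x hx.2 (mul_smul _ g x ▸ y1 _ m _ hgx.2)
  rw [mul_smul, hκ.equi _ m, hgx.1, hx.1, Measure.map_dirac' (measurable_mul_const _),
    dirac_eq_dirac_iff, one_mul, inv_eq_one] at e1
  rw [e1, one_mul] at w0
  exact ⟨w0, by rw [N_dual hg ad, w0, mul_zero]⟩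

theorem secK : ProdStmt → LevStmt → SecKStmt := by
  intro hP hL p _ S ν _ a b c κ₁ κ₂ hA h₁ h₂
  obtain ⟨Z₁, m1, a1, z1⟩ := peel hP hL S ν c.1 κ₁ hA h₁ (pl a b c).1
  obtain ⟨Z₂, m2, a2, z2⟩ := peel hP hL S ν c.2 κ₂ hA h₂ (pl a b c).2.1
  refine ⟨Z₁ ∩ Z₂, m1.inter m2, ?_, fun g hg x hx hgx => ?_⟩
  · filter_upwards [a1, a2] with x u v e1 e2 using ⟨u e1, v e2⟩
  obtain ⟨u1, u2⟩ := z1 g hg x hx.1 hgx.1
  obtain ⟨v1, v2⟩ := z2 g hg x hx.2 hgx.2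
  refine ⟨_, ((mem_N _ g).1 hg).1 _ _, eq_ur (n2 a) g fun i j n _ => ?_⟩
  have k : ∀ a b i j : Fin 4, Ch a b → ¬ (a = i ∧ a + 2 = j) → ¬ 0 < wt (kK a) i j ∨
    (a = i ∧ b = j) ∨ (b + 2 = i ∧ a + 2 = j) ∨ (a = i ∧ b + 2 = j) ∨
    (b + 2 + 2 = i ∧ a + 2 = j) := by decide
  rcases k a b i j c n with e | ⟨rfl, rfl⟩ | ⟨rfl, rfl⟩ | ⟨rfl, rfl⟩ | ⟨rfl, rfl⟩
  exacts [((mem_N _ g).1 hg).2 _ _ e, u1, u2, v1, v2]

theorem secS : ProdStmt → LevStmt → SecSStmt := by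
  intro hP hL p _ S ν _ a b c κ₁ κ₂ hA h₁ h₂
  obtain ⟨Z₁, m1, a1, z1⟩ := peel hP hL S ν (n2 a) κ₁ hA h₁ (pl a b c).2.2.1
  obtain ⟨Z₂, m2, a2, z2⟩ := peel hP hL S ν (n2 b) κ₂ hA h₂ (pl a b c).2.2.2
  refine ⟨Z₁ ∩ Z₂, m1.inter m2, ?_, fun g hg x hx hgx => ?_⟩
  · filter_upwards [a1, a2] with x u v e1 e2 using ⟨u e1, v e2⟩
  obtain ⟨u1, -⟩ := z1 g hg x hx.1 hgx.1
  obtain ⟨v1, -⟩ := z2 g hg x hx.2 hgx.2
  refine ⟨_, ((mem_N _ g).1 hg).1 _ _, eq_ur c.2 g fun i j n n' => ?_⟩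
  have k : ∀ a b i j : Fin 4, Ch a b → ¬ (a = i ∧ b + 2 = j) → ¬ (b + 2 + 2 = i ∧ a + 2 = j) →
    ¬ 0 < wt (kS a b) i j ∨ (a = i ∧ a + 2 = j) ∨ (b = i ∧ b + 2 = j) := by decide
  rcases k a b i j c n n' with e | ⟨rfl, rfl⟩ | ⟨rfl, rfl⟩
  exacts [((mem_N _ g).1 hg).2 _ _ e, u1, v1]

end Pool.Agent.Lib.MP_9177b7_ag.S4
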