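import Pool.Agent.Lib.MP_9177b7_ag.S4.Rel5
import Pool.Agent.Lib.MP_9177b7_ag.S4.EK
import Pool.Agent.Lib.MP_9177b7_ag.S4.Sec
import Pool.Agent.Lib.MP_9177b7_ag.S4.Gen
import Pool.Agent.Lib.MP_9177b7_ag.B.Cond
import Pool.Agent.Lib.MP_9177b7_ag.B.Tower
import Pool.Agent.Lib.MP_9177b7_ag.B.Prod
import Pool.Agent.Lib.MP_9177b7_ag.B.Hopf
import Pool.Agent.Lib.MP_9177b7_ag.B.Lev
import Pool.Agent.Lib.MP_9177b7_ag.B.Heis

/-!
The measure classification for `Sp_4(ℚ_p)`.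
-/

open MeasureTheory ProbabilityTheory Filter Topology Set

noncomputable section

namespace Pool.Agent.Lib.MP_9177b7_ag.S4

open B (IsCond)

theorem octagon (R : Fin 4 → Fin 4 → Prop)
    (h1 : ∀ a b, Ch a b → R a b → R a (b + 2) → R a (a + 2))
    (h2 : ∀ a b, Ch a b → R a b → R b (b + 2) → R a (b + 2))
    (h3 : ∀ a b, Ch a b → R a b ∨ R a (b + 2) ∨ R a (a + 2))
    (h4 : ∀ a b, Ch a b → R a (a + 2) ∨ R b (b + 2) ∨ R a (b + 2))
    (h5 : ∃ a b, Ch a b ∧ R a b) (h6 : ∀ a b, Ch a b → R a b → R (b + 2) (a + 2)) :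
    ∀ a b, Ch a b → R a b ∧ R b (b + 2) := by
  have c : ∀ a b, Ch a b → Ch a (b + 2) ∧ Ch b a ∧ Ch (a + 2) b ∧ Ch (b + 2) (a + 2) ∧
    Ch b (a + 2) ∧ Ch (a + 2) (b + 2) ∧ Ch (b + 2) a := by decide
  have op : ∀ a b, Ch a b → R a b → R b a → R a (b + 2) := fun a b e r r' => by
    rcases h4 a b e with k | k | k
    · simpa only [a22] using h6 _ _ (c a b e).2.2.2.2.1 (h2 b a (c a b e).2.1 r' k)
    · exact h2 a b e r k
    · exact k
  have st : ∀ a b, Ch a b → R a b → R a (b + 2) := fun a b e r => by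
    have k := h3 b a (c a b e).2.1
    rcases k with k | k | k
    · exact op a b e r k
    · simpa only [a22] using h6 _ _ (c a b e).2.2.2.2.1 k
    · exact h2 a b e r k
  have sh : ∀ a b, Ch a b → R a b := by
    obtain ⟨a, b, e, r⟩ := h5
    have r1 := st a b e r
    have r2 := st _ _ (c a b e).2.2.2.1 (h6 a b e r)
    have r3 := h6 _ _ (c a b e).1 r1
    rw [a22] at r2 r3
    have r4 := st _ _ (c a b e).2.2.2.2.1 r3
    have r5 := h6 _ _ (c a b e).2.2.2.2.2.2 r2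
    rw [a22] at r4 r5
    have r6 := h6 _ _ (c a b e).2.1 r4
    have r7 := h6 a b e r
    intro x y e'
    rcases (by decide : ∀ a b x y, Ch a b → Ch x y → (x = a ∨ x = a + 2) ∧ (y = b ∨ y = b + 2) ∨
      (x = b ∨ x = b + 2) ∧ (y = a ∨ y = a + 2)) a b x y e e' with
      ⟨rfl | rfl, rfl | rfl⟩ | ⟨rfl | rfl, rfl | rfl⟩ <;> assumption
  exact fun a b e => ⟨sh a b e, h1 b a (c a b e).2.1 (sh _ _ (c a b e).2.1) (sh _ _ (c a b e).2.2.2.2.1)⟩

theorem idx : ∀ a b : Fin 4, Ch a b → (({b, b + 2} : Finset (Fin 4)).card = 2 ∧ ∀ i j,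
    ¬ (i ∈ ({b, b + 2} : Finset (Fin 4)) ↔ j ∈ ({b, b + 2} : Finset (Fin 4))) → wt (kK a) i j ≠ 0) ∧
    ({a, b} : Finset (Fin 4)).card = 2 ∧ ∀ i j,
    ¬ (i ∈ ({a, b} : Finset (Fin 4)) ↔ j ∈ ({a, b} : Finset (Fin 4))) → wt (kS a b) i j ≠ 0 := by
  decide

theorem idx' : ∀ i j : Fin 4, i ≠ j → 0 < wt (kK i) i j := by decide

variable {p : ℕ} [Fact p.Prime] {S : Sp p} {ν : Measure S.X}

theorem nul [IsFiniteMeasure ν] (hA : S.AInv ν) (hT : S.Tube ν) (k : Fin 4 → ℤ) (I : Finset (Fin 4))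
    (hI : I.card = 2 ∧ ∀ i j, ¬ (i ∈ I ↔ j ∈ I) → wt k i j ≠ 0) {V : Subgroup (HQ p)}
    {κ : Kernel S.X (HQ p)} (hκ : IsCond V ν κ) {D Z : Set S.X} (mD : MeasurableSet D)
    (iD : ∀ᵐ x ∂ν, dg p k • x ∈ D ↔ x ∈ D) (hD : ∀ x ∈ D, κ x = Measure.dirac 1)
    (mZ : MeasurableSet Z) (DZ : ∀ᵐ x ∂ν, x ∈ D → x ∈ Z)
    (sZ : ∀ g ∈ N p k, ∀ x ∈ Z, g • x ∈ Z → g ∈ V) : ∀ᵐ x ∂ν, x ∉ D := by
  obtain ⟨O, hO, C₀, c, hc, h⟩ := hT
  refine measure_eq_zero_iff_ae_notMem.1 (Measure.restrict_eq_zero.1 (bow S _ k I (Z ∩ D) hI.1 hI.2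
    (restr (hA k) mD iD) ⟨O, hO, C₀, c, hc, fun I h1 k x =>
      (Measure.restrict_le_self _).trans (h I h1 k x)⟩ (mZ.inter mD)
    ((ae_restrict_iff' mD).2 (DZ.mono fun x a b => ⟨a b, b⟩)) fun u hu x hx e => ?_))
  have := hκ.equi u (sZ u hu x hx.1 e.1) x
  rw [hD _ e.2, hD _ hx.2, Measure.map_dirac' (measurable_mul_const _), dirac_eq_dirac_iff,
    one_mul] at this
  exact inv_eq_one.1 this.symm

theorem not_dirac {i j : Fin 4} (h : i ≠ j) {μ : Measure (HQ p)}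
    (hμ : ∀ u ∈ U p h, μ.map (u * ·) = μ) : μ ≠ Measure.dirac 1 := by
  rintro rfl
  have := hμ (ur h 1) ⟨1, by simp, rfl⟩
  rw [Measure.map_dirac' (measurable_const_mul _), dirac_eq_dirac_iff, mul_one] at this
  simpa [D_ur_self, D_one] using congrArg (fun u : HQ p => D u i j) this

theorem dyn : DynStmt := by
  intro p _ S ν _ p2 hA hT
  have hC := B.cond
  have hW := B.tower hC
  have hP := B.prod_stmt hW B.hopf
  have hL := B.lev hC hW
  have ex : ∀ V : Subgroup (HQ p), ∃ κ, IsCompact (V : Set (HQ p)) → IsCond V ν κ := fun V => by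
    by_cases h : IsCompact (V : Set (HQ p))
    · exact (hC _ S.X ν V h).1.imp fun _ h _ => h
    · exact ⟨0, fun h' => absurd h' h⟩
  choose κ hκ using ex
  have hκ := fun {i j : Fin 4} (h : i ≠ j) => hκ _ (U_cpt h)
  have L := fun {i j : Fin 4} (h : i ≠ j) => hL _ S.X ν _ _ (U_cpt h) (hκ h)
  let t : ∀ {i j : Fin 4}, i ≠ j → Set S.X := fun h => {x | κ (U p h) x = Measure.dirac 1}
  have it : ∀ (k) {i j : Fin 4} (h : i ≠ j), ∀ᵐ x ∂ν, dg p k • x ∈ t h ↔ x ∈ t h := fun k i j h => by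
    rcases le_total 0 (wt k i j) with w | w
    · exact ((L h).2.2.2.2 _ (hA k) fun u hu => U_conj h w hu).1
    · have := ((L h).2.2.2.2 _ (hA ((-1 : ℤ) • k)) fun u hu =>
        U_conj h (by rw [wt_smul]; omega) hu).1
      rw [← dg_inv] at this
      exact (ae_inv (f := fun x => x ∈ t h) (hA k) (this.mono fun x hx => propext hx)).mono
        fun x hx => iff_of_eq hx
  have it3 : ∀ (k) {i j i' j' i'' j'' : Fin 4} (h : i ≠ j) (h' : i' ≠ j') (h'' : i'' ≠ j''),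
      ∀ᵐ x ∂ν, dg p k • x ∈ t h ∩ (t h' ∩ t h'') ↔ x ∈ t h ∩ (t h' ∩ t h'') :=
    fun k _ _ _ _ _ _ h h' h'' => by
      filter_upwards [it k h, it k h', it k h''] with x a b c
      exact and_congr a (and_congr b c)
  have a3 : ∀ a b (c : Ch a b), ∀ᵐ x ∂ν, x ∉ t c.1 ∩ (t c.2 ∩ t (n2 a)) := fun a b c => by
    obtain ⟨Z, z1, z2, z3⟩ := secK hP hL p S ν a b c _ _ hA (hκ c.1) (hκ c.2)
    exact nul hA hT (kK a) _ (idx a b c).1 (hκ (n2 a))
      ((L _).1.inter ((L _).1.inter (L _).1)) (it3 _ _ _ _) (fun x hx => hx.2.2) z1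
      (z2.mono fun x h e => h e.1 e.2.1) z3
  have a4 : ∀ a b (c : Ch a b), ∀ᵐ x ∂ν, x ∉ t (n2 a) ∩ (t (n2 b) ∩ t c.2) := fun a b c => by
    obtain ⟨Z, z1, z2, z3⟩ := secS hP hL p S ν a b c _ _ hA (hκ (n2 a)) (hκ (n2 b))
    exact nul hA hT (kS a b) _ (idx a b c).2 (hκ c.2)
      ((L _).1.inter ((L _).1.inter (L _).1)) (it3 _ _ _ _) (fun x hx => hx.2.2) z1
      (z2.mono fun x h e => h e.1 e.2.1) z3
  have a5 : ν (⋂ a, ⋂ b, ⋂ c : Ch a b, t c.1) = 0 := by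
    refine short hC hW hA hT (.iInter fun a => .iInter fun b => .iInter fun c => (L _).1) ?_
      fun a ha => ?_
    · filter_upwards [ae_all_iff.2 fun a => ae_all_iff.2 fun b => ae_all_iff.2 fun c : Ch a b =>
        it (kK 0) c.1] with x hx
      simp only [mem_iInter]
      exact forall₃_congr hx
    · have c : Ch a 1 ∧ Ch a (1 + 2) := by revert a; decide
      obtain ⟨Z, z1, z2, z3⟩ := secK hP hL p S ν a 1 c.1 _ _ hA (hκ c.1.1) (hκ c.1.2)
      refine ⟨Z, z1, z2.mono fun x h e => ?_, z3⟩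
      simp only [mem_iInter] at e
      exact h (e _ _ c.1) (e _ _ c.2)
  have a1 := fun a b (c : Ch a b) =>
    ek1 hC hW hP hL B.heis p S ν a b c _ _ _ p2 hA (hκ c.1) (hκ c.2) (hκ (n2 a))
  have a2 := fun a b (c : Ch a b) =>
    ek2 hC hW hP hL B.heis p S ν a b c _ _ _ hA (hκ c.1) (hκ (n2 b)) (hκ c.2)
  have al : ∀ᵐ x ∂ν, ∀ a b (c : Ch a b), x ∉ t c.1 ∧ x ∉ t (n2 b) := by
    filter_upwards [ae_all_iff.2 fun a => ae_all_iff.2 fun b => ae_all_iff.2 (a1 a b),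
      ae_all_iff.2 fun a => ae_all_iff.2 fun b => ae_all_iff.2 (a2 a b),
      ae_all_iff.2 fun a => ae_all_iff.2 fun b => ae_all_iff.2 (a3 a b),
      ae_all_iff.2 fun a => ae_all_iff.2 fun b => ae_all_iff.2 (a4 a b),
      measure_eq_zero_iff_ae_notMem.1 a5] with x h1 h2 h3 h4 h5 a b c
    refine (octagon (fun i j => ∀ h : i ≠ j, x ∉ t h)
      (fun a b c r r' _ => not_dirac _ (h1 a b c (r _) (r' _)))
      (fun a b c r r' _ => not_dirac _ (h2 a b c (r _) (r' _))) (fun a b c => ?_) (fun a b c => ?_)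
      ?_ (fun a b c r _ => ?_) a b c).imp (fun h => h _) fun h => h _
    · by_contra n
      simp only [not_or, not_forall, not_not] at n
      exact h3 a b c ⟨n.1.2, n.2.1.2, n.2.2.2⟩
    · by_contra n
      simp only [not_or, not_forall, not_not] at n
      exact h4 a b c ⟨n.1.2, n.2.1.2, n.2.2.2⟩
    · simp only [mem_iInter, not_forall] at h5
      obtain ⟨a, b, c, h⟩ := h5
      exact ⟨a, b, c, fun _ => h⟩
    · have := U_dual (p := p) c.1 fun e => c.2 (by rw [e, a22])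
      exact fun e => r c.1 (show κ _ x = _ from this ▸ e)
  have inv : ∀ (i j : Fin 4) (h : i ≠ j), ∀ u ∈ U p h, u ∈ stab ν := fun i j h => by
    refine (L h).2.2.2.1 ?_
    rcases (by decide : ∀ i j : Fin 4, i ≠ j → (∃ b, j = i + 2 ∧ Ch i b ∧ Ch i (b + 2)) ∨
      ∃ b, j = b + 2 ∧ Ch i b) i j h with ⟨b, rfl, c, c'⟩ | ⟨b, rfl, c⟩
    · filter_upwards [al, a1 i b c] with x h1 h2
      exact h2 (h1 _ _ c).1 (h1 _ _ c').1
    · filter_upwards [al, a2 i b c] with x h1 h2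
      exact h2 (h1 _ _ c).1 (h1 _ _ c).2
  have top := gen _ (stab ν) fun i j h s => by
    obtain ⟨k, hk⟩ : ∃ k, 0 < wt k i j := ⟨kK i, idx' i j h⟩
    obtain ⟨m, hm⟩ := pow_unbounded_of_one_lt ‖s‖ (p1 (p := p))
    have e := dg_ur ((m : ℤ) • k) h s
    have hd : dg p ((m : ℤ) • k) ∈ stab ν := hA _
    refine (mul_mem_cancel_left hd).1 ((mul_mem_cancel_right (inv_mem hd)).1 (inv i j h _ ⟨_, ?_, e⟩))
    rw [norm_mul, Padic.norm_p_zpow, wt_smul]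
    refine (mul_le_mul (pz_le (le_mul_of_one_le_right (Int.natCast_nonneg m) hk)) hm.le
      (norm_nonneg _) (zpow_pos p0 _).le).trans_eq ?_
    rw [zpow_neg, zpow_natCast, inv_mul_cancel₀ (pow_pos p0 m).ne']
  intro h
  exact (top.symm ▸ Subgroup.mem_top h : h ∈ stab ν)

end Pool.Agent.Lib.MP_9177b7_ag.S4
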