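import Pool.Agent.Lib.MP_9177b7_ag.S4.CAll
import Pool.Agent.Lib.MP_9177b7_ag.S4.Dyn
import Pool.Agent.Lib.MP_9177b7_ag.S4.D1All
import Pool.Agent.Lib.MP_9177b7_ag.S4.D2

/-!
Assembly.
-/

namespace Pool.Agent.Lib.MP_9177b7_ag.S4

theorem final_all : FinalStmt := final_of dyn (dstmt d1all d2)

end Pool.Agent.Lib.MP_9177b7_ag.S4
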