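import Pool.Agent.Lib.MP_9177b7_ag.S4.StB
import Pool.Agent.Lib.MP_9177b7_ag.B.Main

/-!
Assembly: tightness, small tubes for every limit, measure classification, uniqueness.
-/

open MeasureTheory Filter Topology Set
open scoped ENNReal BoundedContinuousFunction

noncomputable section

namespace Pool.Agent.Lib.MP_9177b7_ag.S4

open B.Main in
theorem equi (hD : DiscStmt) (hR : DensRStmt) (hU : UnimodStmt) (hT : TubeStmt) (hy : DynStmt) :
    EquiStmt := by
  intro p _ π ν₀ hp2 hπ hν₀ hA hC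
  have hp : (1 : ℝ) < p := by exact_mod_cast (Fact.out : p.Prime).one_lt
  have hp0 : (0 : ℝ) < p := by linarith
  obtain ⟨-, -, -, -, -, -, -, -, -, -, d1, d2, d3, d4, hf⟩ := hD p
  obtain ⟨T1, -, R, ⟨O, hO, T2⟩, T3⟩ := hT p
  obtain ⟨U1, U2, U3⟩ := hU p
  let ν : ℕ → ProbabilityMeasure (XX p) := fun m => ⟨ν₀ m, hν₀ m⟩
  obtain ⟨C₀, hC₀⟩ := hC R
  obtain ⟨C, hC0, h⟩ : ∃ C : ℝ, 0 < C ∧ ∀ k K₀ : ℕ, 2 ≤ k → 1 ≤ K₀ → ∀ᶠ m in atTop, ∀ j c₀,
      (ν m : Measure (XX p)) (WW p j c₀ k R K₀) ≤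
        ENNReal.ofReal (C * (p : ℝ) ^ (-(k : ℝ) / 2) / K₀) :=
    ⟨max C₀ 1, lt_max_of_lt_right one_pos, fun k K₀ hk hK => (hC₀ k K₀ hk hK).mono
      fun m hm j c₀ => (hm j c₀).trans (ENNReal.ofReal_le_ofReal (by gcongr; exact le_max_left _ _))⟩
  have := U1 Measure.haar
  have := U2 Measure.haar
  have := U3 Measure.haar
  have uq := (J.uniq (GG p) (HQ p) (SP ℝ) (ContinuousMulEquiv.refl _) (Gp p) Measure.haar
    Measure.haar (hR p)).2
  have uq' := (J.uniq (SP ℝ) (SP ℝ) Unit (eU _) G1 Measure.haar Measure.haar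
    (fun g => subset_closure ⟨g, 1, one_mem _, (mul_one g).symm⟩)).2
  refine (lim_of_unique ν
    (fun μ => ∀ h : HQ p, (μ : Measure (XX p)).map (((h, 1) : GG p) • ·) = μ) ?_ ?_ ?_).elim
      fun μ ⟨hμ, hlim'⟩ => ?_
  rotate_right
  · have hG := (uq μ μ inferInstance inferInstance hμ hμ).2
    have hπm : Measurable π := hπ.cont.measurable
    have : IsProbabilityMeasure ((μ : Measure (XX p)).map π) :=
      Measure.isProbabilityMeasure_map hπm.aemeasurable
    have inv : ∀ g : SP ℝ, ((μ : Measure (XX p)).map π).map (g • ·) =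
        (μ : Measure (XX p)).map π := fun g => by
      conv_rhs => rw [← hG (1, g)]
      rw [Measure.map_map (continuous_const_smul g).measurable hπm,
        Measure.map_map hπm (continuous_const_smul _).measurable]
      congr 1
      exact funext fun x => (hπ.smul g x).symm
    rw [← BorelSpace.measurable_eq (α := YY)]
    refine ⟨(μ : Measure (XX p)).map π, fun lam => ⟨fun ⟨h1, h2⟩ => ?_, ?_⟩, fun f => ?_⟩
    · have : IsProbabilityMeasure lam := ⟨h1⟩
      rw [(uq' _ lam inferInstance inferInstance inv h2).1, h1, one_smul]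
    · rintro rfl
      exact ⟨measure_univ, inv⟩
    · rw [integral_map hπm.aemeasurable f.continuous.aestronglyMeasurable]
      exact ProbabilityMeasure.tendsto_iff_forall_integral_tendsto.1 hlim'
        (f.compContinuous ⟨π, hπ.cont⟩)
  · intro ε hε
    obtain ⟨K₀, hK⟩ := exists_nat_ge (max 1 (C * p / ε))
    have hK1 : (1 : ℝ) ≤ K₀ := (le_max_left _ _).trans hK
    obtain ⟨Q, hQ, hQ'⟩ := T3 2 K₀
    refine ⟨Q, hQ, ?_⟩
    filter_upwards [h 2 K₀ le_rfl (by exact_mod_cast hK1)] with m hm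
    calc (ν m : Measure (XX p)) Qᶜ
        ≤ (ν m : Measure (XX p)) (⋃ c₀ ∈ Finset.range (p ^ 2), WW p 0 (c₀ : ℕ) 2 R K₀) :=
          measure_mono fun x hx => by
            obtain ⟨c₀, h1, h2⟩ := (hQ' x).resolve_left hx
            exact mem_biUnion (Finset.mem_coe.2 h1) h2
      _ ≤ ∑ c₀ ∈ Finset.range (p ^ 2), (ν m : Measure (XX p)) (WW p 0 (c₀ : ℕ) 2 R K₀) :=
          measure_biUnion_finset_le _ _
      _ ≤ ∑ _c₀ ∈ Finset.range (p ^ 2),
            ENNReal.ofReal (C * (p : ℝ) ^ (-((2 : ℕ) : ℝ) / 2) / K₀) :=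
          Finset.sum_le_sum fun c₀ _ => hm _ _
      _ ≤ _ := by
          rw [← ENNReal.ofReal_sum_of_nonneg fun _ _ => by positivity]
          refine ENNReal.ofReal_le_ofReal ?_
          have e : (p : ℝ) ^ (-((2 : ℕ) : ℝ) / 2) = (p : ℝ)⁻¹ := by
            rw [← Real.rpow_neg_one]; norm_num
          have h2 : C * p ≤ K₀ * ε := (div_le_iff₀ hε).1 ((le_max_right _ _).trans hK)
          rw [Finset.sum_const, Finset.card_range, nsmul_eq_mul, e]
          push_cast
          calc _ = C * p / K₀ := by field_simp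
            _ ≤ _ := by rw [div_le_iff₀ (by linarith)]; linarith
  · intro ms μ hms hμ
    refine @hy p _ (sp p hf) (μ : Measure (XX p)) μ.2 hp2 (fun k => ?_)
      ⟨O, hO, C + p, 1 / 2, by norm_num, fun I hI k x => ?_⟩
    · exact lim_inv hμ (continuous_const_smul ((dg p k, 1) : GG p)) fun m => hA (ms m) k
    · rcases lt_or_ge k 2 with hk | hk
      · refine prob_le_one.trans (ENNReal.one_le_ofReal.2 ?_)
        have e : (p : ℝ) ^ (-1 : ℝ) ≤ (p : ℝ) ^ (-(1 / 2 * k) : ℝ) := by
          refine Real.rpow_le_rpow_of_exponent_le hp.le ?_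
          have : (k : ℝ) ≤ 2 := by exact_mod_cast hk.le
          linarith
        rw [Real.rpow_neg_one] at e
        calc (1 : ℝ) = p * (p : ℝ)⁻¹ := by field_simp
          _ ≤ _ := by gcongr; linarith
      · obtain ⟨j, hj⟩ := T2 I hI
        obtain ⟨c₀, hc₀⟩ := hj k x
        refine (measure_mono hc₀).trans
          ((lim_open hμ (T1 j c₀ k R 1).1 (hms.eventually
            ((h k 1 hk le_rfl).mono fun m hm => hm j c₀))).trans
            (ENNReal.ofReal_le_ofReal ?_))
        rw [show (-(k : ℝ) / 2) = -(1 / 2 * k) by ring, Nat.cast_one, div_one]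
        gcongr
        linarith
  · intro μ μ' h h'
    refine Subtype.ext ?_
    have := (uq μ' μ inferInstance inferInstance h' h).1
    rwa [measure_univ, one_smul] at this

end Pool.Agent.Lib.MP_9177b7_ag.S4
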