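import Pool.Agent.Lib.MP_9177b7_ag.S4.StB
import Pool.Agent.Lib.MP_9177b7_ag.B.Red

/-!
Short hyperbolic planes in symplectic lattices of rank four.
-/

open Matrix Finset

noncomputable section

namespace Pool.Agent.Lib.MP_9177b7_ag.S4

namespace Mah

section ring

variable {R : Type} [CommRing R]

/-- The bivector of two vectors. -/
def wd (e f : Fin 4 → R) : M4 R := of fun a b => e a * f b - f a * e b

/-- The symplectic form. -/
def om (e f : Fin 4 → R) : R := e 0 * f 2 + e 1 * f 3 - e 2 * f 0 - e 3 * f 1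

lemma ob_wd {e f : Fin 4 → R} (h : om e f = 1) : Ob (wd e f) := by
  unfold om at h
  refine ⟨?_, ?_, ?_⟩
  · ext a b
    simp only [wd, transpose_apply, of_apply, Matrix.neg_apply]
    ring
  · ext a b
    simp [wd, J4, Matrix.mul_apply, Fin.sum_univ_four]
    linear_combination (f a * e b - e a * f b) * h
  · simp [wd, J4, trace, Matrix.mul_apply, Fin.sum_univ_four]
    linear_combination (-2) * h

lemma cj_wd (g : M4 R) (e f : Fin 4 → R) : cj g (wd e f) = wd (g *ᵥ e) (g *ᵥ f) := by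
  ext a b
  simp only [cj, wd, Matrix.mul_apply, Fin.sum_univ_four, of_apply, transpose_apply, mulVec,
    dotProduct]
  ring

lemma om_col (U V : M4 R) (i j : Fin 4) :
    (Uᵀ * J4 R * V) i j = om (fun a => U a i) fun a => V a j := by
  simp [om, J4, Matrix.mul_apply, Fin.sum_univ_four]
  ring

lemma JJ : J4 R * J4 R = -1 := by
  ext i j
  fin_cases i <;> fin_cases j <;> simp [J4, Matrix.mul_apply, Fin.sum_univ_four]

lemma par {e f w : Fin 4 → R} (h : om e f = 1) (h0 : wd e w = 0) : w = om w f • e := by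
  funext a
  have k : ∀ b, e a * w b - w a * e b = 0 := fun b => congrFun₂ h0 a b
  unfold om at h
  simp only [om, Pi.smul_apply, smul_eq_mul]
  linear_combination -w a * h - f 2 * k 0 - f 3 * k 1 + f 0 * k 2 + f 1 * k 3

end ring

lemma J_map : (J4 ℤ).map (Int.castRingHom ℝ) = J4 ℝ := by
  ext i j
  fin_cases i <;> fin_cases j <;> simp [J4]

/-- The real vector of a lattice point. -/
def vc (g : SP ℝ) (x : Fin 4 → ℤ) : Fin 4 → ℝ := g.1.1 *ᵥ fun a => (x a : ℝ)

lemma vc_col (g : SP ℝ) (U : M4 ℤ) (k i : Fin 4) :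
    vc g (fun a => U a k) i = (g.1.1 * U.map (Int.castRingHom ℝ)) i k := rfl

lemma vc_lin (g : SP ℝ) (x y : Fin 4 → ℤ) (j : ℤ) :
    vc g (x + j • y) = vc g x + (j : ℝ) • vc g y := by
  unfold vc
  rw [← mulVec_smul, ← mulVec_add]
  congr 1
  funext a
  simp

lemma sz (g : SP ℝ) (x y : Fin 4 → ℤ) (a b : Fin 4) :
    |cj g.1.1 ((wd x y).map (Int.castRingHom ℝ)) a b| ≤ 2 * (‖vc g x‖ * ‖vc g y‖) := by
  have e : (wd x y).map (Int.castRingHom ℝ) = wd (fun a => (x a : ℝ)) fun a => (y a : ℝ) := by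
    ext a b
    simp [wd]
  rw [e, cj_wd]
  change |vc g x a * vc g y b - vc g y a * vc g x b| ≤ _
  have h : ∀ a b, |vc g x a * vc g y b| ≤ ‖vc g x‖ * ‖vc g y‖ := fun a b => by
    rw [abs_mul]
    exact mul_le_mul (norm_le_pi_norm (vc g x) a) (norm_le_pi_norm (vc g y) b) (abs_nonneg _)
      (norm_nonneg _)
  have h1 := h a b
  have h2 := h b a
  rw [mul_comm] at h2
  linarith [abs_sub (vc g x a * vc g y b) (vc g y a * vc g x b)]

lemma det_col (M : M4 ℝ) (m : Fin 4 → ℝ) (h : ∀ i j, |M i j| ≤ m j) : |M.det| ≤ 24 * ∏ j, m j := by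
  rw [det_apply']
  refine (abs_sum_le_sum_abs _ _).trans ((sum_le_card_nsmul _ _ (∏ j, m j) fun σ _ => ?_).trans ?_)
  · rw [abs_mul, abs_prod]
    have : |((Equiv.Perm.sign σ : ℤ) : ℝ)| = 1 := by
      rcases Int.units_eq_one_or (Equiv.Perm.sign σ) with e | e <;> simp [e]
    rw [this, one_mul]
    exact prod_le_prod (fun _ _ => abs_nonneg _) fun j _ => h _ j
  · rw [card_univ, Fintype.card_perm, Fintype.card_fin, nsmul_eq_mul]
    norm_num [Nat.factorial]

lemma basis : ∃ C : ℝ, 1 ≤ C ∧ ∀ g : SP ℝ, ∃ U V : M4 ℤ, IsUnit U.det ∧ Uᵀ * J4 ℤ * V = 1 ∧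
    ∏ k, ‖vc g fun a => U a k‖ ≤ C ∧ 1 ≤ 24 * ∏ k, ‖vc g fun a => U a k‖ ∧
    ∀ k, ‖vc g fun a => U a k‖ * ‖vc g fun a => V a k‖ ≤ 24 * C := by
  obtain ⟨C, C0, hC⟩ := B.Red.red_mat 4
  refine ⟨1 + C, by linarith, fun g => ?_⟩
  have dG : g.1.1.det = 1 := g.1.2
  have hG : g.1.1ᵀ * J4 ℝ * g.1.1 = J4 ℝ := g.2
  obtain ⟨U, hU, hp⟩ := hC (g.1.1ᵀ * g.1.1) (by
    rw [← conjTranspose_eq_transpose_of_trivial]
    exact PosDef.conjTranspose_mul_self _ (mulVec_injective_of_isUnit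
      ((isUnit_iff_isUnit_det _).2 (by rw [dG]; exact isUnit_one))))
  rw [det_mul, det_transpose, dG, mul_one, mul_one] at hp
  have dd : U.det * U.det = 1 := by rcases Int.isUnit_iff.1 hU with e | e <;> simp [e]
  set Bm := g.1.1 * U.map (Int.castRingHom ℝ) with hB
  set m : Fin 4 → ℝ := fun k => ‖vc g fun a => U a k‖ with hm
  have m0 : ∀ k, 0 ≤ m k := fun k => norm_nonneg _
  have m1 : ∀ i k, |Bm i k| ≤ m k := fun i k => norm_le_pi_norm (vc g fun a => U a k) i
  have m2 : ∀ k, m k ^ 2 ≤ B.Red.cg (g.1.1ᵀ * g.1.1) U k k := fun k => by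
    have e : B.Red.cg (g.1.1ᵀ * g.1.1) U k k = ∑ i, Bm i k ^ 2 := by
      have : B.Red.cg (g.1.1ᵀ * g.1.1) U = Bmᵀ * Bm := by
        rw [hB, transpose_mul]
        simp only [B.Red.cg, Matrix.mul_assoc]
        rfl
      rw [this, Matrix.mul_apply]
      simp only [transpose_apply, sq]
    rw [e]
    have s0 : 0 ≤ ∑ i, Bm i k ^ 2 := by positivity
    rw [← Real.le_sqrt (m0 k) s0]
    exact (pi_norm_le_iff_of_nonneg (Real.sqrt_nonneg _)).2 fun i => Real.abs_le_sqrt
      (single_le_sum (f := fun i => Bm i k ^ 2) (fun _ _ => sq_nonneg _) (mem_univ i))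
  have m3 : ∏ k, m k ≤ 1 + C := by
    have := (prod_le_prod (fun k _ => sq_nonneg (m k)) fun k _ => m2 k).trans hp
    rw [prod_pow] at this
    nlinarith [sq_nonneg (∏ k, m k - 1)]
  have dB : |Bm.det| = 1 := by
    have : (U.map (Int.castRingHom ℝ)).det = (U.det : ℝ) := ((Int.castRingHom ℝ).map_det U).symm
    rw [hB, det_mul, dG, one_mul, this]
    rcases Int.isUnit_iff.1 hU with e | e <;> simp [e]
  have hV : Uᵀ * J4 ℤ * (-(U.det • (J4 ℤ * adjugate Uᵀ))) = 1 := by
    rw [mul_neg, Matrix.mul_smul, Matrix.mul_assoc, ← Matrix.mul_assoc (J4 ℤ), JJ, neg_mul, one_mul,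
      mul_neg, mul_adjugate, det_transpose, smul_neg, neg_neg, smul_smul, dd, one_smul]
  refine ⟨U, _, hU, hV, m3, dB ▸ det_col Bm m m1, fun k => ?_⟩
  generalize -(U.det • (J4 ℤ * adjugate Uᵀ)) = V at hV ⊢
  set Cm := g.1.1 * V.map (Int.castRingHom ℝ) with hCm
  have e1 : Bmᵀ * (J4 ℝ * Cm) = 1 := by
    have := congrArg (·.map (Int.castRingHom ℝ)) hV
    simp only [Matrix.map_mul, J_map, transpose_map] at this
    rw [Matrix.map_one _ (map_zero _) (map_one _)] at this
    rw [← this, hB, hCm, transpose_mul]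
    conv_rhs => rw [← hG]
    simp only [Matrix.mul_assoc]
  have e2 : adjugate Bmᵀ = Bm.det • (J4 ℝ * Cm) := by
    rw [← mul_one (adjugate Bmᵀ), ← e1, ← Matrix.mul_assoc, adjugate_mul, det_transpose,
      Matrix.smul_mul, one_mul]
  have e3 : ∀ i, |Cm i k| ≤ 24 * ∏ j, Function.update m k 1 j := fun i => by
    have h1 : |Cm i k| = |(J4 ℝ * Cm) (i + 2) k| := by
      fin_cases i <;> simp [J4, Matrix.mul_apply, Fin.sum_univ_four]
    have h2 : |adjugate Bmᵀ (i + 2) k| = |(J4 ℝ * Cm) (i + 2) k| := by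
      rw [e2, Matrix.smul_apply, smul_eq_mul, abs_mul, dB, one_mul]
    rw [h1, ← h2, adjugate_def, of_apply, cramer_apply, transpose_transpose]
    refine det_col _ _ fun a b => ?_
    rw [updateCol_apply, Function.update_apply]
    split_ifs
    · rw [Pi.single_apply]
      split_ifs <;> simp
    · exact m1 a b
  have p0 : 0 ≤ ∏ j, Function.update m k 1 j := prod_nonneg fun j _ => by
    rw [Function.update_apply]
    split_ifs
    exacts [zero_le_one, m0 j]
  have e4 : ‖vc g fun a => V a k‖ ≤ 24 * ∏ j, Function.update m k 1 j :=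
    (pi_norm_le_iff_of_nonneg (by positivity)).2 e3
  have e5 : m k * ∏ j, Function.update m k 1 j = ∏ j, m j := by
    rw [prod_update_of_mem (mem_univ k), one_mul, ← erase_eq, mul_prod_erase _ _ (mem_univ k)]
  have := mul_le_mul_of_nonneg_left e4 (m0 k)
  change m k * _ ≤ _
  nlinarith

lemma cpt (T : ℝ) : IsCompact {h : SP ℝ | ∀ i j, |h.1.1 i j| ≤ T} := by
  have e1 : Topology.IsClosedEmbedding (Subtype.val : SpecialLinearGroup (Fin 4) ℝ → M4 ℝ) :=
    (isClosed_eq continuous_id.matrix_det continuous_const).isClosedEmbedding_subtypeVal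
  have e2 := (e1.comp (spClosed ℝ).isClosedEmbedding_subtypeVal).isCompact_preimage
    (isCompact_univ_pi fun _ : Fin 4 => isCompact_univ_pi fun _ : Fin 4 =>
      isCompact_closedBall (0 : ℝ) T)
  refine (congrArg IsCompact (Set.ext fun h => ?_)).mp e2
  exact ⟨fun e i j => mem_closedBall_zero_iff.1 (e i trivial j trivial),
    fun e i _ j _ => mem_closedBall_zero_iff.2 (e i j)⟩

/-- Lattices with a bounded basis form a relatively compact set. -/
lemma bdd (T : ℝ) : ∃ Ω : Set (SP ℝ), IsCompact Ω ∧ ∀ (g : SP ℝ) (U : M4 ℤ), IsUnit U.det →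
    (∀ i k, |(g.1.1 * U.map (Int.castRingHom ℝ)) i k| ≤ T) → ∃ γ ∈ G1, g * γ ∈ Ω := by
  let S : Set (M4 ℤ) := {U | IsUnit U.det ∧
    ∃ g : SP ℝ, ∀ i k, |(g.1.1 * U.map (Int.castRingHom ℝ)) i k| ≤ T}
  let s : M4 ℤ → M4 ℤ × ℤ := fun U => (Uᵀ * J4 ℤ * U, U.det)
  have hs : (s '' S).Finite := by
    refine ((Set.Finite.pi' fun _ : Fin 4 => Set.Finite.pi' fun _ : Fin 4 =>
      Set.finite_Icc (-⌈4 * T ^ 2⌉) ⌈4 * T ^ 2⌉).prod (Set.toFinite {1, -1})).subset ?_
    rintro _ ⟨U, ⟨hU, g, hg⟩, rfl⟩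
    refine ⟨fun i k => ?_, Int.isUnit_iff.1 hU⟩
    have hG : g.1.1ᵀ * J4 ℝ * g.1.1 = J4 ℝ := g.2
    have e : (((Uᵀ * J4 ℤ * U) i k : ℤ) : ℝ) = ((g.1.1 * U.map (Int.castRingHom ℝ))ᵀ * J4 ℝ *
        (g.1.1 * U.map (Int.castRingHom ℝ))) i k := by
      change ((Uᵀ * J4 ℤ * U).map (Int.castRingHom ℝ)) i k = _
      rw [Matrix.map_mul, Matrix.map_mul, J_map, transpose_map, transpose_mul]
      conv_lhs => rw [← hG]
      simp only [Matrix.mul_assoc]
    rw [om_col _ (_ * _), om] at e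
    generalize g.1.1 * U.map (Int.castRingHom ℝ) = Bm at hg e
    have h : ∀ a b, |Bm a i * Bm b k| ≤ T ^ 2 := fun a b => by
      rw [abs_mul, sq]
      exact mul_le_mul (hg _ _) (hg _ _) (abs_nonneg _) ((abs_nonneg _).trans (hg a i))
    rw [Set.mem_Icc, ← abs_le, ← Int.cast_le (R := ℝ), Int.cast_abs]
    refine le_trans ?_ (Int.le_ceil _)
    change |(((Uᵀ * J4 ℤ * U) i k : ℤ) : ℝ)| ≤ _
    rw [e, abs_le]
    have h1 := abs_le.1 (h 0 2)
    have h2 := abs_le.1 (h 1 3)
    have h3 := abs_le.1 (h 2 0)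
    have h4 := abs_le.1 (h 3 1)
    constructor <;> linarith
  obtain ⟨S', hS, hf, hT⟩ := Set.exists_subset_image_finite_and.1
    (show ∃ t ⊆ s '' S, t.Finite ∧ s '' S ⊆ t from ⟨_, subset_rfl, hs, subset_rfl⟩)
  refine ⟨_, hf.isCompact_biUnion fun W _ => cpt (T * ∑ j, ∑ k, |((W⁻¹ k j : ℤ) : ℝ)|),
    fun g U hU hg => ?_⟩
  obtain ⟨W, hW, e⟩ := hT ⟨U, ⟨hU, g, hg⟩, rfl⟩
  have e1 : Wᵀ * J4 ℤ * W = Uᵀ * J4 ℤ * U := congrArg Prod.fst e
  have e2 : W.det = U.det := congrArg Prod.snd e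
  have i1 := mul_nonsing_inv W (hS hW).1
  have d1 : (U * W⁻¹).det = 1 := by rw [det_mul, ← e2, ← det_mul, i1, det_one]
  have d2 : (U * W⁻¹)ᵀ * J4 ℤ * (U * W⁻¹) = J4 ℤ := by
    calc _ = W⁻¹ᵀ * (Uᵀ * J4 ℤ * U) * W⁻¹ := by simp only [transpose_mul, Matrix.mul_assoc]
      _ = (W * W⁻¹)ᵀ * J4 ℤ * (W * W⁻¹) := by
        rw [← e1]; simp only [transpose_mul, Matrix.mul_assoc]
      _ = _ := by rw [i1, transpose_one, one_mul, mul_one]
  refine ⟨⟨SpecialLinearGroup.map (Int.castRingHom ℝ) ⟨_, d1⟩, ?_⟩,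
    Subgroup.mem_subgroupOf.2 ⟨_, rfl⟩, Set.mem_biUnion hW fun i j => ?_⟩
  · change ((U * W⁻¹).map (Int.castRingHom ℝ))ᵀ * J4 ℝ * (U * W⁻¹).map (Int.castRingHom ℝ) = _
    rw [← J_map, ← transpose_map, ← Matrix.map_mul, ← Matrix.map_mul, d2]
  · change |(g.1.1 * (U * W⁻¹).map (Int.castRingHom ℝ)) i j| ≤ _
    have T0 : 0 ≤ T := (abs_nonneg _).trans (hg 0 0)
    rw [Matrix.map_mul, ← Matrix.mul_assoc, Matrix.mul_apply]
    refine (abs_sum_le_sum_abs _ _).trans (le_trans ?_ (mul_le_mul_of_nonneg_left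
      (single_le_sum (f := fun j => ∑ k, |((W⁻¹ k j : ℤ) : ℝ)|) (fun _ _ => by positivity)
        (mem_univ j)) T0))
    rw [mul_sum]
    refine sum_le_sum fun k _ => ?_
    rw [abs_mul]
    exact mul_le_mul_of_nonneg_right (hg i k) (abs_nonneg _)

end Mah

open Mah

theorem mahler : MahlerStmt := by
  classical
  obtain ⟨C, C1, hb⟩ := basis
  have col : ∀ {U V : M4 ℤ}, Uᵀ * J4 ℤ * V = 1 → ∀ i j,
      om (fun a => U a i) (fun a => V a j) = if i = j then 1 else 0 := fun h i j => by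
    rw [← om_col, h, one_apply]
  refine ⟨96 * C + 1, fun g => ?_, fun K₀ => ?_⟩
  · obtain ⟨U, V, -, hV, -, -, h⟩ := hb g
    exact ⟨_, ob_wd ((col hV 0 0).trans (if_pos rfl)), fun a b =>
      (sz g _ _ a b).trans_lt (by linarith [h 0])⟩
  obtain ⟨K, hK⟩ : ∃ K : ℝ, K = K₀ + 1 := ⟨_, rfl⟩
  have K1 : 1 ≤ K := by rw [hK]; linarith [Nat.cast_nonneg (α := ℝ) K₀]
  obtain ⟨ε, ε0, hε⟩ : ∃ ε : ℝ, 0 < ε ∧ 576 * C * K ^ 2 * ε = 1 :=
    ⟨1 / (576 * C * K ^ 2), by positivity, by field_simp⟩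
  obtain ⟨Ω, hΩ, hg⟩ := bdd (C / ε ^ 3)
  refine ⟨Ω, hΩ, fun g => ?_⟩
  obtain ⟨U, V, hU, hV, h1, h2, h3⟩ := hb g
  set m : Fin 4 → ℝ := fun k => ‖vc g fun a => U a k‖ with hm
  have m0 : ∀ k, 0 ≤ m k := fun k => norm_nonneg _
  obtain ⟨a, -, ha⟩ := exists_min_image univ m univ_nonempty
  have oa := (col hV a a).trans (if_pos rfl)
  by_cases hs : ε ≤ m a
  · refine Or.inl (hg g U hU fun i k => (norm_le_pi_norm (vc g fun a => U a k) i).trans ?_)
    rw [le_div_iff₀ (by positivity)]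
    refine le_trans ?_ h1
    rw [← mul_prod_erase _ _ (mem_univ k)]
    refine mul_le_mul_of_nonneg_left ?_ (m0 k)
    have := prod_le_prod (s := univ.erase k) (f := fun _ => ε) (fun _ _ => ε0.le)
      fun j _ => hs.trans (ha j (mem_univ j))
    simpa using this
  right
  rw [not_le] at hs
  have ex : ∃ k, k ≠ a ∧ K * m a ≤ m k ∧ wd (fun b => U b a) (fun b => V b k) ≠ 0 := by
    by_contra hn
    push Not at hn
    have Km : K * m a ≤ 1 := by
      have h4 : 0 ≤ K * ε := by positivity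
      have h5 : 1 ≤ 576 * C * K := by nlinarith
      have h6 := mul_le_mul_of_nonneg_left h5 h4
      have h7 := mul_le_mul_of_nonneg_left hs.le (show 0 ≤ K by linarith)
      nlinarith
    have ne : ∀ k, wd (fun b => U b a) (fun b => V b k) = 0 →
        om (fun b => V b k) (fun b => V b a) ≠ 0 := fun k h e => by
      have := (col hV k k).trans (if_pos rfl)
      rw [par oa h, e] at this
      simp [om] at this
    obtain ⟨d, hd, d1, d2⟩ : ∃ d, d ≠ a ∧ m a * m d ≤ 24 * C ∧ ∀ k, k ≠ d → m k ≤ K * m a := by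
      by_cases hx : ∃ d, d ≠ a ∧ K * m a ≤ m d
      · obtain ⟨d, hd, hx⟩ := hx
        have w := hn d hd hx
        refine ⟨d, hd, le_trans ?_ (h3 d), fun k hk => ?_⟩
        · have e := vc_lin g 0 (fun b => U b a) (om (fun b => V b d) fun b => V b a)
          rw [zero_add, ← par oa w, show vc g 0 = 0 by simp [vc, ← Pi.zero_def], zero_add] at e
          rw [mul_comm, e, norm_smul]
          refine mul_le_mul_of_nonneg_left (le_mul_of_one_le_left (m0 a) ?_) (m0 d)
          rw [Real.norm_eq_abs, ← Int.cast_abs]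
          exact_mod_cast Int.one_le_abs (ne d w)
        · by_cases hka : k = a
          · rw [hka]; exact le_mul_of_one_le_left (m0 a) K1
          by_contra hlt
          have w' := hn k hka (not_le.1 hlt).le
          have e1 := (col hV k k).trans (if_pos rfl)
          have e2 := (col hV k d).trans (if_neg hk)
          have e3 := ne d w
          rw [par oa w'] at e1
          rw [par oa w] at e2
          generalize om (fun b => V b d) (fun b => V b a) = x at e2 e3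
          generalize om (fun b => V b k) (fun b => V b a) = y at e1
          simp only [om, Pi.smul_apply, smul_eq_mul] at e1 e2
          exact e3 (by linear_combination y * e2 - x * e1)
      · push Not at hx
        obtain ⟨d, hd⟩ := exists_ne a
        refine ⟨d, hd, by nlinarith [hx d hd, m0 a, m0 d, ha d (mem_univ d)], fun k _ => ?_⟩
        by_cases hka : k = a
        · rw [hka]; exact le_mul_of_one_le_left (m0 a) K1
        · exact (hx k hka).le
    have p1 : ∏ k, m k ≤ 24 * C * (K * m a) ^ 2 := by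
      have hda : d ∈ univ.erase a := mem_erase.2 ⟨hd, mem_univ d⟩
      rw [← mul_prod_erase _ _ (mem_univ a), ← mul_prod_erase _ _ hda, ← mul_assoc]
      refine mul_le_mul d1 ?_ (prod_nonneg fun _ _ => m0 _) (by positivity)
      have := prod_le_prod (s := (univ.erase a).erase d) (g := fun _ => K * m a) (fun k _ => m0 k)
        fun k hk => d2 k (mem_erase.1 hk).1
      rwa [prod_const, card_erase_of_mem hda, card_erase_of_mem (mem_univ a), card_univ,
        Fintype.card_fin] at this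
    have p2 : m a ≤ 1 := (le_mul_of_one_le_left (m0 a) K1).trans Km
    have p3 : 0 < 576 * C * K ^ 2 := by positivity
    have p4 := mul_lt_mul_of_pos_left hs p3
    have p5 := mul_le_mul_of_nonneg_left p2 (mul_nonneg p3.le (m0 a))
    nlinarith
  obtain ⟨k, hk, k1, k2⟩ := ex
  have ok := (col hV a k).trans (if_neg hk.symm)
  refine ⟨(range K₀).image fun j : ℕ =>
    wd (fun b => U b a) ((fun b => V b a) + (j : ℤ) • fun b => V b k), ?_, fun P hP => ?_⟩
  · rw [card_image_of_injective, card_range]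
    intro i j e
    by_contra hij
    refine k2 (Matrix.ext fun b c => mul_left_cancel₀
      (sub_ne_zero.2 (Nat.cast_injective.ne hij) : (i : ℤ) - j ≠ 0) ?_)
    have := congrFun₂ e b c
    simp only [wd, of_apply, Pi.add_apply, Pi.smul_apply, smul_eq_mul, Matrix.zero_apply] at this ⊢
    linear_combination this
  · obtain ⟨j, hj, rfl⟩ := mem_image.1 hP
    refine ⟨ob_wd ?_, fun b c => (sz g _ _ b c).trans_lt ?_⟩
    · simp only [om, Pi.add_apply, Pi.smul_apply, smul_eq_mul] at oa ok ⊢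
      linear_combination oa + j * ok
    · have j1 : (j : ℝ) ≤ K := by
        rw [hK]
        exact_mod_cast (mem_range.1 hj).le.trans K₀.le_succ
      have n1 := norm_add_le (vc g fun b => V b a) (((j : ℤ) : ℝ) • vc g fun b => V b k)
      rw [← vc_lin, norm_smul, Int.cast_natCast, Real.norm_natCast] at n1
      have n2 := mul_le_mul_of_nonneg_left n1 (m0 a)
      have n3 := mul_le_mul_of_nonneg_right
        ((mul_le_mul_of_nonneg_right j1 (m0 a)).trans k1) (norm_nonneg (vc g fun b => V b k))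
      have n4 := h3 a
      have n5 := h3 k
      change 2 * (m a * _) < _
      change m a * _ ≤ _ at n4
      change m k * _ ≤ _ at n5
      nlinarith

end Pool.Agent.Lib.MP_9177b7_ag.S4
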