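import Pool.Agent.Lib.MP_9177b7_ag.S4.Disc

/-! The projections onto the real quotient and onto the Siegel threefold. -/

open Matrix Filter Topology

noncomputable section

namespace Pool.Agent.Lib.MP_9177b7_ag.S4

open Disc

namespace Proj

theorem proj_mk (g : SP ℝ) (P : Per) (d : Matrix (Fin 2) (Fin 2) ℂ)
    (hP : P.1 = d * (P0 * g.1.1.map Complex.ofReal)) :
    proj (QuotientGroup.mk g) = Quot.mk _ P := by
  obtain ⟨γ, hγ⟩ := QuotientGroup.mk_out_eq_mul G1 g
  obtain ⟨δ, e⟩ := (mem_G1 γ.1⁻¹).1 (inv_mem γ.2)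
  have u : δᵀ * J4 ℤ * δ = J4 ℤ := sp_of_map (Int.castRingHom ℝ) Int.cast_injective (e ▸ γ.1⁻¹.2)
  refine Quot.sound ⟨d, mkS δ u, ?_⟩
  have e1 : (QuotientGroup.mk g : YY).out * γ.1⁻¹ = g := by
    rw [hγ]
    group
  have e2 : (QuotientGroup.mk g : YY).out.1.1 * δ.map (Int.castRingHom ℝ) = g.1.1 := by
    rw [← e]
    exact congrArg (fun x : SP ℝ => x.1.1) e1
  have e3 := congrArg (·.map Complex.ofRealHom) e2
  simp only [Matrix.map_mul] at e3
  have e4 : (δ.map (Int.castRingHom ℝ)).map Complex.ofRealHom = δ.map (Int.cast : ℤ → ℂ) := by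
    ext i j
    simp
  rw [e4] at e3
  change P.1 = d * (P0 * (QuotientGroup.mk g : YY).out.1.1.map Complex.ofRealHom) *
    δ.map (Int.cast : ℤ → ℂ)
  rw [Matrix.mul_assoc, Matrix.mul_assoc, e3]
  exact hP

end Proj

open Proj in
theorem proj_stmt (hP : DensPStmt) : ProjStmt := by
  refine ⟨fun p _ => ?_, ?_, proj_mk⟩
  · have hr : ∀ x : XX p, ∃ r : GG p, Intg r.1 ∧ QuotientGroup.mk r = x := fun x => by
      obtain ⟨γ, hγ, h⟩ := hP p x.out.1
      exact ⟨x.out * γ, h, (QuotientGroup.mk_mul_of_mem _ hγ).trans x.out_eq⟩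
    choose r rK rx using hr
    have hj : ∀ g : GG p, Intg g.1 →
        (QuotientGroup.mk (r (QuotientGroup.mk g)).2 : YY) = QuotientGroup.mk g.2 :=
      fun g hg => QuotientGroup.eq.2 (snd_G1 (QuotientGroup.eq.1 (rx (QuotientGroup.mk g)))
        (intg_mul (intg_inv (rK _)) hg))
    refine ⟨fun x => QuotientGroup.mk (r x).2, ?_, hj, fun g x => ?_⟩
    · refine (QuotientGroup.isQuotientMap_mk _).continuous_iff.2
        (continuous_iff_continuousAt.2 fun g => ?_)
      obtain ⟨γ, hγ, h⟩ := hP p g.1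
      have c1 : Continuous fun g' : GG p => g' * γ := continuous_mul_const γ
      refine (QuotientGroup.continuous_mk.comp (continuous_snd.comp c1)).continuousAt.congr ?_
      filter_upwards [(isOpen_intg.preimage (continuous_fst.comp c1)).mem_nhds h] with g' hg'
      refine (hj (g' * γ) hg').symm.trans ?_
      rw [QuotientGroup.mk_mul_of_mem _ hγ]
      rfl
    · have e : ((1, g) : GG p) • x = QuotientGroup.mk (((1, g) : GG p) * r x) := by
        conv_lhs => rw [← rx x]
        rfl
      rw [e]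
      exact hj _ (intg_mul intg_one (rK x))
  · refine (QuotientGroup.isQuotientMap_mk _).continuous_iff.2 ?_
    have e : proj ∘ QuotientGroup.mk = fun g : SP ℝ =>
        Quot.mk _ (⟨P0 * g.1.1.map Complex.ofReal, P0_mul _⟩ : Per) :=
      funext fun g => proj_mk g _ 1 (Matrix.one_mul _).symm
    rw [e]
    have c1 : Continuous fun g : SP ℝ => g.1.1 :=
      continuous_subtype_val.comp continuous_subtype_val
    have c3 : Continuous fun g : SP ℝ => P0 * g.1.1.map Complex.ofReal :=
      continuous_const.matrix_mul (c1.matrix_map Complex.continuous_ofReal)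
    exact continuous_quot_mk.comp (c3.subtype_mk _)

end Pool.Agent.Lib.MP_9177b7_ag.S4
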