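import Pool.Agent.Lib.MP_9177b7_ag.S4.Disc
import Pool.Agent.Lib.MP_9177b7_ag.B.Tube

/-!
Tubes and neighbourhoods of the cusp are covered by the sets `WW`.
-/

open Matrix Filter Topology

noncomputable section

namespace Pool.Agent.Lib.MP_9177b7_ag.S4

open Disc

namespace TubeAux

section alg

variable {R S : Type} [CommRing R] [CommRing S]

theorem cj_mul (g h P : M4 R) : cj (g * h) P = cj g (cj h P) := by
  simp only [cj, transpose_mul, Matrix.mul_assoc]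

theorem cj_one (P : M4 R) : cj 1 P = P := by simp [cj]

theorem cj_map (f : R →+* S) (g P : M4 R) : (cj g P).map f = cj (g.map f) (P.map f) := by
  simp only [cj, Matrix.map_mul, transpose_map]

theorem mv_map (f : R →+* S) (j : Fin 3) (Q : M4 R) : f (mv j Q) = mv j (Q.map f) := by
  fin_cases j <;> simp [mv]

theorem ob_cj {P g : M4 R} (h : Ob P) (hg : gᵀ * J4 R * g = J4 R) : Ob (cj g P) := by
  refine ⟨?_, ?_, ?_⟩
  · simp only [cj, transpose_mul, transpose_transpose, h.skew, Matrix.mul_assoc, neg_mul, mul_neg]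
  · calc _ = g * (P * (gᵀ * J4 R * g) * P) * gᵀ := by simp only [cj, Matrix.mul_assoc]
      _ = _ := by rw [hg, h.idem, cj, mul_neg, neg_mul]
  · rw [← h.tr, cj, Matrix.mul_assoc, Matrix.mul_assoc, trace_mul_comm, Matrix.mul_assoc, hg]

theorem ob_map (f : R →+* S) {P : M4 R} (h : Ob P) : Ob (P.map f) := by
  refine ⟨?_, ?_, ?_⟩
  · rw [← transpose_map, h.skew, Matrix.map_neg _ (map_neg f)]
  · rw [← J4_map f, ← Matrix.map_mul, ← Matrix.map_mul, h.idem, Matrix.map_neg _ (map_neg f)]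
  · rw [← J4_map f, ← Matrix.map_mul, ← AddMonoidHom.map_trace, h.tr, map_neg, map_ofNat]

theorem ob_of_map (f : R →+* S) (hf : Function.Injective f) {P : M4 R} (h : Ob (P.map f)) :
    Ob P := by
  refine ⟨Matrix.map_injective hf ?_, Matrix.map_injective hf ?_, hf ?_⟩
  · simpa only [transpose_map, Matrix.map_neg _ (map_neg f)] using h.skew
  · simpa only [Matrix.map_mul, J4_map, Matrix.map_neg _ (map_neg f)] using h.idem
  · rw [AddMonoidHom.map_trace, Matrix.map_mul, J4_map, h.tr, map_neg, map_ofNat]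

/-- The three partitions. -/
def bl (j : Fin 3) (a : Fin 4) : Bool :=
  ![![true, false, true, false], ![true, true, false, false], ![true, false, false, true]] j a

theorem exists_bl : ∀ I : Finset (Fin 4), I.card = 2 →
    ∃ j, ∀ a b, bl j a ≠ bl j b → ¬ (a ∈ I ↔ b ∈ I) := by decide

theorem mv_cj (j : Fin 3) {h Q : M4 R} (hh : hᵀ * J4 R * h = J4 R) (hQ : Qᵀ = -Q)
    (h0 : ∀ a, Q a a = 0) (hz : ∀ a b, bl j a ≠ bl j b → h a b = 0) :
    mv j (cj h Q) = mv j Q := by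
  have e := fun a b => congrFun (congrFun hh a) b
  have e01 := e 0 1
  have e23 := e 2 3
  have e02 := e 0 2
  have e13 := e 1 3
  have e03 := e 0 3
  have e12 := e 1 2
  have q : ∀ a b, Q b a = -Q a b := fun a b => congrFun (congrFun hQ a) b
  fin_cases j
  · have z := And.intro (And.intro (hz 0 1 (by decide)) (hz 0 3 (by decide)))
      (And.intro (And.intro (hz 2 1 (by decide)) (hz 2 3 (by decide)))
        (And.intro (hz 1 0 (by decide)) (hz 3 0 (by decide))))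
    simp [J4, Matrix.mul_apply, Fin.sum_univ_four, z] at e02
    simp [mv, cj, Matrix.mul_apply, Fin.sum_univ_four, z, h0, q 0 2]
    linear_combination Q 0 2 * e02
  · have z := And.intro (And.intro (And.intro (hz 0 2 (by decide)) (hz 0 3 (by decide)))
      (And.intro (hz 1 2 (by decide)) (hz 1 3 (by decide))))
      (And.intro (And.intro (hz 2 0 (by decide)) (hz 2 1 (by decide)))
        (And.intro (hz 3 0 (by decide)) (hz 3 1 (by decide))))
    simp [J4, Matrix.mul_apply, Fin.sum_univ_four, z] at e02 e13 e03 e12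
    have k2 := congrArg₂ (· * ·) e02 e13
    have k3 := congrArg₂ (· * ·) e03 e12
    simp [mv, cj, Matrix.mul_apply, Fin.sum_univ_four, z, h0, q 0 1, q 2 3]
    linear_combination Q 0 1 * Q 2 3 * (k2 - k3)
  · have z := And.intro (And.intro (And.intro (hz 0 1 (by decide)) (hz 0 2 (by decide)))
      (And.intro (hz 3 1 (by decide)) (hz 3 2 (by decide))))
      (And.intro (And.intro (hz 1 0 (by decide)) (hz 2 0 (by decide)))
        (And.intro (hz 1 3 (by decide)) (hz 2 3 (by decide))))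
    simp [J4, Matrix.mul_apply, Fin.sum_univ_four, z] at e02 e13 e01 e23
    have k2 := congrArg₂ (· * ·) e02 e13
    have k1 := congrArg₂ (· * ·) e01 e23
    simp [mv, cj, Matrix.mul_apply, Fin.sum_univ_four, z, h0, q 0 3, q 2 1]
    linear_combination Q 0 3 * Q 2 1 * (k2 - k1)

end alg

variable {p : ℕ} [Fact p.Prime]

/-- The integral matrix with given entries. -/
def up (A : M4 ℚ_[p]) (h : ∀ a b, ‖A a b‖ ≤ 1) : M4 ℤ_[p] := Matrix.of fun a b => ⟨A a b, h a b⟩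

theorem up_map (A : M4 ℚ_[p]) (h : ∀ a b, ‖A a b‖ ≤ 1) :
    (up A h).map (PadicInt.Coe.ringHom (p := p)) = A := rfl

theorem norm_cj {g Q : M4 ℚ_[p]} (hg : ∀ a b, ‖g a b‖ ≤ 1) (hQ : ∀ a b, ‖Q a b‖ ≤ 1) (a b) :
    ‖cj g Q a b‖ ≤ 1 := by
  rw [← up_map g hg, ← up_map Q hQ, ← cj_map]
  exact (cj (up g hg) (up Q hQ) a b).2

theorem norm_iff (k : ℕ) (s : ℤ_[p]) :
    ‖(s : ℚ_[p])‖ ≤ ((p : ℝ) ^ k)⁻¹ ↔ s ∈ Ideal.span {(p : ℤ_[p]) ^ k} := by
  rw [← PadicInt.norm_le_pow_iff_mem_span_pow, _root_.zpow_neg, zpow_natCast]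
  rfl

theorem cong {j : Fin 3} {k : ℕ} {h : HQ p} {Q : M4 ℚ_[p]} (hh : Intg h)
    (hz : ∀ a b, bl j a ≠ bl j b → ‖h.1.1 a b‖ ≤ ((p : ℝ) ^ k)⁻¹) (hQ : ∀ a b, ‖Q a b‖ ≤ 1)
    (sk : Qᵀ = -Q) : ‖mv j (cj h.1.1 Q) - mv j Q‖ ≤ ((p : ℝ) ^ k)⁻¹ := by
  let c := PadicInt.Coe.ringHom (p := p)
  have ci : Function.Injective c := Subtype.val_injective
  let f := Ideal.Quotient.mk (Ideal.span {(p : ℤ_[p]) ^ k})
  have s1 : (up Q hQ)ᵀ = -up Q hQ := by
    refine Matrix.map_injective ci ?_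
    simp only [transpose_map, Matrix.map_neg _ (map_neg c)]
    exact sk
  have e : mv j (cj h.1.1 Q) - mv j Q = c (mv j (cj (up _ hh) (up Q hQ)) - mv j (up Q hQ)) := by
    rw [map_sub, mv_map, mv_map, cj_map]
    rfl
  rw [e]
  refine (norm_iff k _).2 (Ideal.Quotient.eq.1 ?_)
  rw [mv_map, mv_map, cj_map]
  refine mv_cj j (sp_map f (sp_of_map c ci h.2)) ?_ (fun a => ?_) fun a b hab =>
    Ideal.Quotient.eq_zero_iff_mem.2 ((norm_iff k _).1 (hz a b hab))
  · rw [← transpose_map, s1, Matrix.map_neg _ (map_neg f)]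
  · have : up Q hQ a a = 0 := self_eq_neg.1 (congrFun (congrFun s1 a) a)
    rw [map_apply, this, map_zero]

theorem appr (j : Fin 3) (k : ℕ) {Q : M4 ℚ_[p]} (hQ : ∀ a b, ‖Q a b‖ ≤ 1) :
    ∃ c ∈ Finset.range (p ^ k), ‖mv j Q - ((c : ℤ) : ℚ_[p])‖ ≤ ((p : ℝ) ^ k)⁻¹ := by
  refine ⟨(mv j (up Q hQ)).appr k, Finset.mem_range.2 (PadicInt.appr_lt _ k), ?_⟩
  have := (norm_iff k _).2 (PadicInt.appr_spec k (mv j (up Q hQ)))
  have e : mv j Q = ((mv j (up Q hQ) : ℤ_[p]) : ℚ_[p]) :=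
    (mv_map (PadicInt.Coe.ringHom (p := p)) j (up Q hQ)).symm
  rw [e]
  simpa using this

theorem oq_mul (a g : GG p) (P : M4 ℚ) : oq (a * g) P = cj a.1.1.1 (oq g P) := cj_mul _ _ _

theorem oR_mul (a g : GG p) (P : M4 ℚ) : oR (a * g) P = cj a.2.1.1 (oR g P) := cj_mul _ _ _

theorem oR_inj (g : GG p) : Function.Injective (oR g) := fun P P' e => by
  have := congrArg (cj g⁻¹.2.1.1) e
  rw [← oR_mul, ← oR_mul, inv_mul_cancel] at this
  exact Matrix.map_injective (Rat.castHom ℝ).injective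
    ((cj_one _).symm.trans (this.trans (cj_one _)))

theorem Wg_mul {j : Fin 3} {c₀ : ℤ} {k : ℕ} {R : ℝ} {K₀ : ℕ} {g γ : GG p}
    (hg : g ∈ Wg p j c₀ k R K₀) (hγ : γ ∈ Gp p) : g * γ ∈ Wg p j c₀ k R K₀ := by
  classical
  obtain ⟨s, hs, h⟩ := hg
  obtain ⟨β, hβ, e1, e2⟩ := (mem_Gp γ⁻¹).1 (inv_mem hγ)
  have x1 : ∀ P, oq (g * γ) (cj β P) = oq g P := fun P => by
    have e : (g * γ).1.1.1 * γ⁻¹.1.1.1 = g.1.1.1 :=
      congrArg (fun a : GG p => a.1.1.1) (mul_inv_cancel_right g γ)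
    rw [oq, cj_map, ← e1, ← cj_mul, e, oq]
  have x2 : ∀ P, oR (g * γ) (cj β P) = oR g P := fun P => by
    have e : (g * γ).2.1.1 * γ⁻¹.2.1.1 = g.2.1.1 :=
      congrArg (fun a : GG p => a.2.1.1) (mul_inv_cancel_right g γ)
    rw [oR, cj_map, ← e2, ← cj_mul, e, oR]
  have u : βᵀ * J4 ℚ * β = J4 ℚ :=
    sp_of_map (Rat.castHom ℝ) (Rat.castHom ℝ).injective (e2 ▸ γ⁻¹.2.2)
  refine ⟨s.image (cj β), hs.trans_eq (Finset.card_image_of_injective _ fun P P' e =>
    oR_inj g (by rw [← x2, ← x2, e])).symm, fun P' hP' => ?_⟩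
  obtain ⟨P, hP, rfl⟩ := Finset.mem_image.1 hP'
  obtain ⟨a1, a2, a3, a4, a5⟩ := h P hP
  refine ⟨ob_cj a1 u, fun a b => ?_, x1 P ▸ a3, x2 P ▸ a4, x1 P ▸ a5⟩
  simp only [cj, Matrix.mul_apply, transpose_apply]
  exact sum_mem fun c _ => mul_mem (sum_mem fun d _ => mul_mem (hβ a d) (a2 d c)) (hβ b c)

theorem mem_WW {j : Fin 3} {c₀ : ℤ} {k : ℕ} {R : ℝ} {K₀ : ℕ} (g : GG p) :
    QuotientGroup.mk g ∈ WW p j c₀ k R K₀ ↔ g ∈ Wg p j c₀ k R K₀ := by
  refine ⟨?_, fun h => ⟨g, h, rfl⟩⟩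
  rintro ⟨g', h, e⟩
  have := Wg_mul h (QuotientGroup.eq.1 e)
  rwa [mul_inv_cancel_left] at this

theorem isOpen_Wg (j : Fin 3) (c₀ : ℤ) (k : ℕ) (R : ℝ) (K₀ : ℕ) : IsOpen (Wg p j c₀ k R K₀) := by
  have hp : (p : ℝ) ≠ 0 := Nat.cast_ne_zero.2 (Fact.out : p.Prime).ne_zero
  rw [isOpen_iff_mem_nhds]
  rintro g ⟨s, hs, h⟩
  have k1 : Continuous fun g : GG p => g.1.1.1 :=
    (continuous_subtype_val.comp continuous_subtype_val).comp continuous_fst
  have k2 : Continuous fun g : GG p => g.2.1.1 :=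
    (continuous_subtype_val.comp continuous_subtype_val).comp continuous_snd
  have o : ∀ᶠ g' in 𝓝 g, ∀ P ∈ s, Good j c₀ k R g' P := (eventually_all_finset s).2 fun P hP => by
    obtain ⟨a1, a2, a3, a4, a5⟩ := h P hP
    have c1 : Continuous fun g : GG p => oq g P :=
      (k1.matrix_mul continuous_const).matrix_mul k1.matrix_transpose
    have c2 : Continuous fun g : GG p => oR g P :=
      (k2.matrix_mul continuous_const).matrix_mul k2.matrix_transpose
    have c3 : Continuous fun g : GG p => mv j (oq g P) - c₀ := by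
      refine Continuous.sub ?_ continuous_const
      fin_cases j
      exacts [c1.matrix_elem 0 2, ((c1.matrix_elem 0 1).mul (c1.matrix_elem 2 3)).neg,
        (c1.matrix_elem 0 3).mul (c1.matrix_elem 2 1)]
    have o1 : ∀ᶠ g' in 𝓝 g, ∀ a b, ‖oq g' P a b‖ ≤ 1 := eventually_all.2 fun a =>
      eventually_all.2 fun b =>
        (B.TubeAux.isOpen_le (c1.matrix_elem a b) one_ne_zero).mem_nhds (a3 a b)
    have o2 : ∀ᶠ g' in 𝓝 g, ∀ a b, |oR g' P a b| < R := eventually_all.2 fun a =>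
      eventually_all.2 fun b =>
        (isOpen_lt (c2.matrix_elem a b).abs continuous_const).mem_nhds (a4 a b)
    filter_upwards [o1, o2, (B.TubeAux.isOpen_le c3 (inv_ne_zero (pow_ne_zero k hp))).mem_nhds a5]
      with g' b1 b2 b3
    exact ⟨a1, a2, b1, b2, b3⟩
  exact o.mono fun g' hg' => ⟨s, hs, hg'⟩

theorem exists_intg (hP : DensPStmt) (x : XX p) :
    ∃ g : GG p, Intg g.1 ∧ QuotientGroup.mk g = x := by
  obtain ⟨g, rfl⟩ := QuotientGroup.mk_surjective x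
  obtain ⟨γ, hγ, h⟩ := hP p g.1
  exact ⟨g * γ, h, QuotientGroup.mk_mul_of_mem g hγ⟩

theorem oq_int {g : GG p} (hg : Intg g.1) (P : M4 ℤ) (a b : Fin 4) :
    ‖oq g (P.map (Int.castRingHom ℚ)) a b‖ ≤ 1 :=
  norm_cj hg (fun a b => by simpa using Padic.norm_int_le_one (p := p) (P a b)) a b

theorem oR_int (g : GG p) (P : M4 ℤ) :
    oR g (P.map (Int.castRingHom ℚ)) = cj g.2.1.1 (P.map (Int.castRingHom ℝ)) := by
  rw [oR]
  congr 1

theorem den_int (P : M4 ℤ) (a b : Fin 4) : P.map (Int.castRingHom ℚ) a b ∈ J.RM p :=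
  ⟨0, P a b, by simp⟩

theorem abs_cj {u Q : M4 ℝ} {R : ℝ} (hu : ∀ a b, |u a b| < 2) (hQ : ∀ a b, |Q a b| < R) (a b) :
    |cj u Q a b| ≤ 64 * R := by
  have h0 : 0 ≤ R := (abs_nonneg _).trans (hQ 0 0).le
  have h1 : ∀ c, |(u * Q) a c| ≤ 8 * R := fun c => by
    rw [Matrix.mul_apply]
    refine (Finset.abs_sum_le_sum_abs _ _).trans
      ((Finset.sum_le_card_nsmul _ _ (2 * R) fun d _ => ?_).trans_eq (by simp; ring))
    rw [abs_mul]
    exact mul_le_mul (hu a d).le (hQ d c).le (abs_nonneg _) zero_le_two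
  rw [cj, Matrix.mul_apply]
  refine (Finset.abs_sum_le_sum_abs _ _).trans
    ((Finset.sum_le_card_nsmul _ _ (8 * R * 2) fun c _ => ?_).trans_eq (by simp; ring))
  rw [abs_mul]
  exact mul_le_mul (h1 c) (hu b c).le (abs_nonneg _) (by positivity)

end TubeAux

open TubeAux in
theorem tube (hP : DensPStmt) (hM : MahlerStmt) : TubeStmt := by
  classical
  intro p _
  obtain ⟨R₀, hR, hK⟩ := hM
  have R0 : 0 ≤ R₀ := by
    obtain ⟨P, -, h⟩ := hR 1
    exact (abs_nonneg _).trans (h 0 0).le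
  refine ⟨fun j c₀ k R K₀ => ⟨QuotientGroup.isOpenMap_coe _ (isOpen_Wg j c₀ k R K₀), mem_WW⟩,
    fun j c₀ k R g P hg h => ?_, 64 * R₀ + 1, ⟨{u | ∀ i j, |u.1.1 i j| < 2}, ?_, fun I hI => ?_⟩,
    fun k K₀ => ?_⟩
  · have e : P.map (Rat.castHom ℚ_[p]) = cj g⁻¹.1.1.1 (oq g P) := by
      rw [← oq_mul, inv_mul_cancel]
      exact (cj_one _).symm
    choose z hz using fun a b => int_of (h.den a b) (by
      have := norm_cj (intg_inv hg) h.int a b
      exact (congrArg norm (congrFun (congrFun e a) b)).trans_le this)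
    have e' : P = (Matrix.of z).map (Int.castRingHom ℚ) := Matrix.ext hz
    exact ⟨Matrix.of z, ob_of_map (Int.castRingHom ℚ) Int.cast_injective (e' ▸ h.obj), e'⟩
  · refine eventually_all.2 fun i => eventually_all.2 fun j => ?_
    have hc : Continuous fun u : SP ℝ => |u.1.1 i j| :=
      ((continuous_subtype_val.comp continuous_subtype_val).matrix_elem i j).abs
    refine (isOpen_lt hc continuous_const).mem_nhds ?_
    change |(1 : M4 ℝ) i j| < 2
    rw [one_apply]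
    split_ifs <;> simp
  · obtain ⟨j, hj⟩ := exists_bl I hI
    refine ⟨j, fun k x => ?_⟩
    obtain ⟨g, hg, rfl⟩ := exists_intg hP x
    obtain ⟨P, P1, P2⟩ := hR g.2
    obtain ⟨c, -, hc⟩ := appr j k (oq_int hg P)
    refine ⟨c, ?_⟩
    rintro _ ⟨h, hh, u, hu, rfl⟩
    have o := ob_map (Int.castRingHom ℚ) P1
    refine ⟨(h, u) * g, ⟨{P.map (Int.castRingHom ℚ)}, le_rfl, fun P' hP' => ?_⟩, rfl⟩
    rw [Finset.mem_singleton.1 hP']
    refine ⟨o, den_int P, oq_int (intg_mul hh.1 hg) P, fun a b => ?_, ?_⟩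
    · rw [oR_mul, oR_int]
      exact (abs_cj hu P2 a b).trans_lt (lt_add_one _)
    · rw [oq_mul, ← sub_add_sub_cancel _ (mv j (oq g (P.map (Int.castRingHom ℚ))))]
      exact (IsUltrametricDist.norm_add_le_max _ _).trans (max_le
        (cong hh.1 (fun a b e => hh.2 a b (hj a b e)) (oq_int hg P)
          (ob_cj (ob_map _ o) g.1.2).skew) hc)
  · obtain ⟨Ω, hΩ, h⟩ := hK (p ^ k * K₀)
    refine ⟨QuotientGroup.mk '' ({h : HQ p | Intg h} ×ˢ Ω),
      (isCompact_intg.prod hΩ).image QuotientGroup.continuous_mk, fun x => ?_⟩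
    obtain ⟨g, hg, rfl⟩ := exists_intg hP x
    rcases h g.2 with ⟨γ, hγ, hm⟩ | ⟨s, hs, h⟩
    · obtain ⟨h', hi, hG⟩ := (disc p).2.2.2.2.2.1 γ hγ
      exact Or.inl ⟨g * (h', γ), ⟨intg_mul hg hi, hm⟩, QuotientGroup.mk_mul_of_mem g hG⟩
    · choose c c1 c2 using fun P : M4 ℤ => appr 0 k (oq_int hg P)
      obtain ⟨c₀, d1, d2⟩ := Finset.exists_le_card_fiber_of_mul_le_card_of_maps_to
        (s := s) (f := c) (n := K₀) (fun P _ => c1 P) ⟨c 0, c1 0⟩ (by rwa [Finset.card_range])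
      refine Or.inr ⟨c₀, d1, g, ⟨_, d2.trans_eq (Finset.card_image_of_injective _
        (Matrix.map_injective (f := Int.castRingHom ℚ) Int.cast_injective)).symm,
        fun P' hP' => ?_⟩, rfl⟩
      obtain ⟨P, hP, rfl⟩ := Finset.mem_image.1 hP'
      obtain ⟨m1, rfl⟩ := Finset.mem_filter.1 hP
      refine ⟨ob_map _ (h P m1).1, den_int P, oq_int hg P, fun a b => ?_, c2 P⟩
      rw [oR_int]
      linarith [(h P m1).2 a b]

end Pool.Agent.Lib.MP_9177b7_ag.S4
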