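import Pool.Agent.Lib.MP_9177b7_ag.S4.StA
import Pool.Agent.Lib.MP_9177b7_ag.B.Bow
import Pool.Agent.Lib.MP_9177b7_ag.B.Sec
import Pool.Agent.Lib.MP_9177b7_ag.B.EK

/-!
Entries of symplectic matrices, root groups and groups defined by radii.
-/

open Filter Topology Set Matrix

noncomputable section

namespace Pool.Agent.Lib.MP_9177b7_ag.S4

open B

section ring

variable {R : Type} [CommRing R] {i j : Fin 4}

/-- The entries of `g - 1`. -/
def D (g : SP R) (i j : Fin 4) : R := g.1.1 i j - (1 : Matrix (Fin 4) (Fin 4) R) i j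

theorem D_ext {g h : SP R} (e : ∀ i j, D g i j = D h i j) : g = h :=
  Subtype.ext (Subtype.ext (Matrix.ext fun i j => sub_left_injective (e i j)))

theorem D_one (i j : Fin 4) : D (1 : SP R) i j = 0 := sub_self _

theorem D_ne (g : SP R) (h : i ≠ j) : D g i j = g.1.1 i j := by rw [D, one_apply_ne h, sub_zero]

theorem D_mul (g h : SP R) (i j : Fin 4) :
    D (g * h) i j = D g i j + D h i j + ∑ m, D g i m * D h m j := by
  have : (g.1.1 * h.1.1) - 1 = (g.1.1 - 1) + (h.1.1 - 1) + (g.1.1 - 1) * (h.1.1 - 1) := by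
    noncomm_ring
  exact congrFun (congrFun this i) j

theorem a22 (i : Fin 4) : i + 2 + 2 = i := by revert i; decide

theorem sg2 (i : Fin 4) : sg R (i + 2) = -sg R i := by fin_cases i <;> simp [sg]

theorem sg_sq (i : Fin 4) : sg R i * sg R i = 1 := by fin_cases i <;> simp [sg]

theorem rel (g : SP R) (i j : Fin 4) : sg R j * D g (j + 2) (i + 2) + sg R i * D g i j =
    ∑ m, sg R m * (D g m (i + 2) * D g (m + 2) j) := by
  have e := congrFun (congrFun (show g.1.1ᵀ * J4 R * g.1.1 = J4 R from g.2) (i + 2)) j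
  fin_cases i <;> fin_cases j <;>
    simp [J4, Matrix.mul_apply, Fin.sum_univ_four, D, sg, one_apply] at e ⊢ <;>
    linear_combination -e

theorem rel0 (g : SP R) (h : ∀ m, D g m (i + 2) * D g (m + 2) j = 0) :
    D g (j + 2) (i + 2) = -(sg R i * sg R j) * D g i j := by
  have e := rel g i j
  simp only [h, mul_zero, Finset.sum_const_zero] at e
  linear_combination sg R j * e - D g (j + 2) (i + 2) * sg_sq (R := R) j

theorem D_ur (h : i ≠ j) (s : R) (a b : Fin 4) : D (ur h s) a b =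
    (if i = a ∧ j = b then s else 0) + if j + 2 = a ∧ i + 2 = b then cf R i j * s else 0 := by
  have n : j ≠ j + 2 := (by decide : ∀ j : Fin 4, j ≠ j + 2) j
  change ((1 + single i j s) * (1 + single (j + 2) (i + 2) (cf R i j * s)) :
    Matrix (Fin 4) (Fin 4) R) a b - _ = _
  rw [mul_add, add_mul, add_mul, single_mul_single_of_ne _ _ _ _ n]
  simp only [mul_one, one_mul, add_zero, Matrix.add_apply, single_apply]
  ring

theorem D_ur_self (h : i ≠ j) (s : R) : D (ur h s) i j = s := by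
  rw [D_ur, if_pos ⟨rfl, rfl⟩, cf]
  split_ifs with a b
  · simp
  · exact absurd a.2.symm b
  · simp

theorem D_ur_zero (h : i ≠ j) (s : R) {a b : Fin 4} (h1 : ¬ (i = a ∧ j = b))
    (h2 : ¬ (j + 2 = a ∧ i + 2 = b)) : D (ur h s) a b = 0 := by
  rw [D_ur, if_neg h1, if_neg h2, add_zero]

theorem ur_zero (h : i ≠ j) : ur h (0 : R) = 1 := D_ext fun a b => by simp [D_ur, D_one]

theorem ur_add (h : i ≠ j) (s t : R) : ur h (s + t) = ur h s * ur h t := D_ext fun a b => by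
  have k : ∀ i j m a b : Fin 4, i ≠ j → (¬ (i = a ∧ j = m) ∧ ¬ (j + 2 = a ∧ i + 2 = m)) ∨
      (¬ (i = m ∧ j = b) ∧ ¬ (j + 2 = m ∧ i + 2 = b)) ∨ j = i + 2 ∧ False := by decide
  rw [D_mul, Finset.sum_eq_zero, D_ur, D_ur, D_ur]
  · split_ifs <;> ring
  · intro m _
    rcases k i j m a b h with e | e | e
    · rw [D_ur_zero h s e.1 e.2, zero_mul]
    · rw [D_ur_zero h t e.1 e.2, mul_zero]
    · exact e.2.elim

theorem ur_inv (h : i ≠ j) (s : R) : (ur h s)⁻¹ = ur h (-s) :=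
  inv_eq_of_mul_eq_one_right (by rw [← ur_add, add_neg_cancel, ur_zero])

theorem eq_ur (h : i ≠ j) (g : SP R)
    (e : ∀ a b, ¬ (i = a ∧ j = b) → ¬ (j + 2 = a ∧ i + 2 = b) → D g a b = 0) :
    g = ur h (D g i j) := D_ext fun a b => by
  by_cases h1 : i = a ∧ j = b
  · rw [← h1.1, ← h1.2, D_ur_self]
  by_cases h2 : j + 2 = a ∧ i + 2 = b
  · have n : j ≠ i + 2 := fun n => h1 ⟨by rw [← h2.1, n, a22], n.trans h2.2⟩
    rw [D_ur, if_neg h1, if_pos h2, zero_add, cf, if_neg n, ← h2.1, ← h2.2]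
    refine rel0 g fun m => ?_
    have k : ∀ i j m : Fin 4, i ≠ j → j ≠ i + 2 →
      (¬ (i = m ∧ j = i + 2) ∧ ¬ (j + 2 = m ∧ i + 2 = i + 2)) ∨
        (¬ (i = m + 2 ∧ j = j) ∧ ¬ (j + 2 = m + 2 ∧ i + 2 = j)) := by decide
    rcases k i j m h n with k | k
    · rw [e _ _ k.1 k.2, zero_mul]
    · rw [e _ _ k.1 k.2, mul_zero]
  · rw [e a b h1 h2, D_ur_zero h _ h1 h2]

theorem ur_dual (h : i ≠ j) (n : j ≠ i + 2) (s : R) :
    ur (ne2 h) s = ur h (-(sg R i * sg R j) * s) := by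
  have n' : i + 2 ≠ j + 2 + 2 := by rw [a22]; exact n.symm
  refine D_ext fun a b => ?_
  rw [D_ur, D_ur, a22, a22, cf, cf, if_neg n, if_neg n', sg2, sg2, add_comm]
  congr 1
  · split_ifs
    · ring
    · rfl
  · split_ifs
    · linear_combination -s * sg R j * sg R j * sg_sq (R := R) i - s * sg_sq (R := R) j
    · rfl

end ring

variable {p : ℕ} [Fact p.Prime] {i j : Fin 4}

theorem pne : (p : ℚ_[p]) ≠ 0 := Nat.cast_ne_zero.2 (Fact.out : p.Prime).ne_zero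

theorem p1 : (1 : ℝ) < p := Nat.one_lt_cast.2 (Fact.out : p.Prime).one_lt

theorem norm_sg (i : Fin 4) : ‖sg ℚ_[p] i‖ = 1 := by fin_cases i <;> simp [sg]

theorem norm_cf (i j : Fin 4) : ‖cf ℚ_[p] i j‖ ≤ 1 := by
  rw [cf]
  split_ifs <;> simp [norm_sg]

theorem D_cont (i j : Fin 4) : Continuous fun g : HQ p => D g i j :=
  (Bow.cont i j).comp continuous_subtype_val

theorem ur_cont (h : i ≠ j) : Continuous fun s : ℚ_[p] => ur h s :=
  Continuous.subtype_mk ((EK.tv_cont (n := 1) h).mul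
    ((EK.tv_cont (n := 1) (ne2 h)).comp (continuous_const_mul _))) _

/-- The weight of an entry. -/
def wt (k : Fin 4 → ℤ) (i j : Fin 4) : ℤ := (k i - k (i + 2)) - (k j - k (j + 2))

theorem wt_add (k : Fin 4 → ℤ) (i m j : Fin 4) : wt k i j = wt k i m + wt k m j := by
  simp only [wt]
  ring

theorem wt_dual (k : Fin 4 → ℤ) (i j : Fin 4) : wt k (j + 2) (i + 2) = wt k i j := by
  simp only [wt, a22]
  ring

theorem wt_smul (n : ℤ) (k : Fin 4 → ℤ) (i j : Fin 4) : wt (n • k) i j = n * wt k i j := by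
  simp only [wt, Pi.smul_apply, smul_eq_mul]
  ring

theorem dg_add (k k' : Fin 4 → ℤ) : dg p (k + k') = dg p k * dg p k' := by
  refine Subtype.ext (Subtype.ext ?_)
  change Matrix.diagonal _ = Matrix.diagonal _ * Matrix.diagonal _
  rw [diagonal_mul_diagonal]
  refine congrArg _ (funext fun i => ?_)
  rw [← zpow_add₀ pne, Pi.add_apply, Pi.add_apply]
  congr 1
  ring

theorem dg_zpow (k : Fin 4 → ℤ) (n : ℤ) : dg p k ^ n = dg p (n • k) :=
  (map_zpow (MonoidHom.mk' (M := Multiplicative (Fin 4 → ℤ)) (fun k => dg p k.toAdd)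
    fun k k' => dg_add k.toAdd k'.toAdd) (Multiplicative.ofAdd k) n).symm

theorem dg_pow (k : Fin 4 → ℤ) (n : ℕ) : dg p k ^ n = dg p ((n : ℤ) • k) := by
  rw [← dg_zpow, zpow_natCast]

theorem dg_inv (k : Fin 4 → ℤ) : (dg p k)⁻¹ = dg p ((-1 : ℤ) • k) := by
  rw [← dg_zpow, _root_.zpow_neg_one]

theorem D_conj (k : Fin 4 → ℤ) (g : HQ p) (i j : Fin 4) :
    D (dg p k * g * (dg p k)⁻¹) i j = (p : ℚ_[p]) ^ wt k i j * D g i j := by
  have e : ((dg p k * g * (dg p k)⁻¹).1.1 * (dg p k).1.1) i j = ((dg p k).1.1 * g.1.1) i j :=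
    congrArg (fun g : HQ p => g.1.1 i j) (inv_mul_cancel_right (dg p k * g) (dg p k))
  have e' : (dg p k).1.1 = Matrix.diagonal fun i => (p : ℚ_[p]) ^ (k i - k (i + 2)) := rfl
  rw [e', mul_diagonal, diagonal_mul] at e
  have e2 : (dg p k * g * (dg p k)⁻¹).1.1 i j = (p : ℚ_[p]) ^ wt k i j * g.1.1 i j := by
    rw [wt, zpow_sub₀ pne, div_mul_eq_mul_div, eq_div_iff (zpow_ne_zero _ pne)]
    exact e
  rw [D, D, e2, mul_sub, one_apply]
  split_ifs with h
  · simp [h, wt]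
  · simp

theorem norm_conj (k : Fin 4 → ℤ) (g : HQ p) (i j : Fin 4) :
    ‖D (dg p k * g * (dg p k)⁻¹) i j‖ = (p : ℝ) ^ (-wt k i j) * ‖D g i j‖ := by
  rw [D_conj, norm_mul, Padic.norm_p_zpow]

theorem dg_ur (k : Fin 4 → ℤ) (h : i ≠ j) (s : ℚ_[p]) :
    dg p k * ur h s * (dg p k)⁻¹ = ur h ((p : ℚ_[p]) ^ wt k i j * s) := D_ext fun a b => by
  rw [D_conj, D_ur, D_ur, mul_add]
  congr 1
  · split_ifs with e
    · rw [e.1, e.2]
    · exact mul_zero _
  · split_ifs with e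
    · rw [← e.1, ← e.2, wt_dual]
      ring
    · exact mul_zero _

/-- The integral points of a root group. -/
def U (p : ℕ) [Fact p.Prime] (h : i ≠ j) : Subgroup (HQ p) where
  carrier := {u | ∃ s : ℚ_[p], ‖s‖ ≤ 1 ∧ u = ur h s}
  one_mem' := ⟨0, by simp, (ur_zero h).symm⟩
  mul_mem' := by
    rintro _ _ ⟨s, hs, rfl⟩ ⟨t, ht, rfl⟩
    exact ⟨s + t, EK.nadd hs ht, (ur_add h s t).symm⟩
  inv_mem' := by
    rintro _ ⟨s, hs, rfl⟩
    exact ⟨-s, EK.nneg hs, ur_inv h s⟩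

theorem U_cpt (h : i ≠ j) : IsCompact (U p h : Set (HQ p)) := EK.cpt (ur_cont h) fun _ => Iff.rfl

theorem U_unit (h : i ≠ j) {c : ℚ_[p]} (hc : ‖c‖ = 1) (g : HQ p) :
    g ∈ U p h ↔ ∃ s : ℚ_[p], ‖s‖ ≤ 1 ∧ g = ur h (c * s) := by
  have c0 : c ≠ 0 := norm_ne_zero_iff.1 (hc ▸ one_ne_zero)
  constructor
  · rintro ⟨s, hs, rfl⟩
    exact ⟨s / c, by rwa [norm_div, hc, div_one], by rw [mul_div_cancel₀ _ c0]⟩
  · rintro ⟨s, hs, rfl⟩
    exact ⟨_, by rwa [norm_mul, hc, one_mul], rfl⟩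

theorem U_dual (h : i ≠ j) (n : j ≠ i + 2) : U p (ne2 h) = U p h := by
  ext g
  rw [U_unit h (c := -(sg _ i * sg _ j)) (by simp [norm_sg])]
  simp only [← ur_dual h n]
  rfl

/-- Admissible radii. -/
def Rad (r : Fin 4 → Fin 4 → ℝ) : Prop := (∀ i j, 0 ≤ r i j) ∧ ∀ i k j, r i k * r k j ≤ r i j

/-- The elements with bounded entries. -/
def GS (p : ℕ) [Fact p.Prime] (r : Fin 4 → Fin 4 → ℝ) : Set (HQ p) := {g | ∀ i j, ‖D g i j‖ ≤ r i j}

theorem GS_cpt (r : Fin 4 → Fin 4 → ℝ) : IsCompact (GS p r) :=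
  (spClosed ℚ_[p]).isClosedEmbedding_subtypeVal.isCompact_preimage (Bow.cpt r)

theorem GS_opn {r : Fin 4 → Fin 4 → ℝ} (h : ∀ i j, 0 < r i j) : IsOpen (GS p r) :=
  (Bow.opn h).preimage continuous_subtype_val

/-- The group defined by admissible radii. -/
def Gr (p : ℕ) [Fact p.Prime] {r : Fin 4 → Fin 4 → ℝ} (h : Rad r) : Subgroup (HQ p) :=
  (Bow.sub_ex (p := p) h.1 h.2).choose.subgroupOf _

theorem mem_Gr {r : Fin 4 → Fin 4 → ℝ} (h : Rad r) (g : HQ p) :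
    g ∈ Gr p h ↔ ∀ i j, ‖D g i j‖ ≤ r i j := by
  rw [Gr, Subgroup.mem_subgroupOf, ← SetLike.mem_coe, (Bow.sub_ex (p := p) h.1 h.2).choose_spec]
  rfl

theorem coe_Gr {r : Fin 4 → Fin 4 → ℝ} (h : Rad r) : (Gr p h : Set (HQ p)) = GS p r :=
  Set.ext (mem_Gr h)

theorem intg_iff (g : HQ p) : Intg g ↔ ∀ i j, ‖D g i j‖ ≤ 1 := by
  refine ⟨fun h i j => Bow.sub_le (h i j) ?_, fun h i j => Bow.int_le (h i j)⟩
  rw [one_apply]
  split_ifs <;> simp

theorem ur_GS (h : i ≠ j) {s : ℚ_[p]} {r : Fin 4 → Fin 4 → ℝ} (h0 : ∀ i j, 0 ≤ r i j)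
    (h1 : ‖s‖ ≤ r i j) (h2 : ‖s‖ ≤ r (j + 2) (i + 2)) : ur h s ∈ GS p r := fun a b => by
  rw [D_ur]
  refine Bow.add_le ?_ ?_
  · split_ifs with e
    · rwa [← e.1, ← e.2]
    · simpa using h0 a b
  · split_ifs with e
    · rw [← e.1, ← e.2, norm_mul]
      exact (mul_le_of_le_one_left (norm_nonneg _) (norm_cf i j)).trans h2
    · simpa using h0 a b

theorem rad_N (k : Fin 4 → ℤ) : Rad fun i j => if 0 < wt k i j then 1 else 0 := by
  refine ⟨fun i j => by dsimp only; split_ifs <;> simp, fun i m j => ?_⟩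
  have := wt_add k i m j
  dsimp only
  split_ifs <;> first | omega | simp

/-- The integral points of the unipotent group contracted by `dg k`. -/
def N (p : ℕ) [Fact p.Prime] (k : Fin 4 → ℤ) : Subgroup (HQ p) := Gr p (rad_N k)

theorem mem_N (k : Fin 4 → ℤ) (g : HQ p) :
    g ∈ N p k ↔ (∀ i j, ‖D g i j‖ ≤ 1) ∧ ∀ i j, ¬ 0 < wt k i j → D g i j = 0 := by
  rw [N, mem_Gr]
  constructor
  · intro h
    refine ⟨fun i j => (h i j).trans ?_, fun i j e => norm_le_zero_iff.1 ?_⟩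
    · split_ifs <;> simp
    · simpa [e] using h i j
  · intro h i j
    split_ifs with e
    · exact h.1 i j
    · simp [h.2 i j e]

theorem N_cpt (k : Fin 4 → ℤ) : IsCompact (N p k : Set (HQ p)) := by
  rw [N, coe_Gr]
  exact GS_cpt _

theorem ur_N {k : Fin 4 → ℤ} (h : i ≠ j) (e : 0 < wt k i j) {s : ℚ_[p]} (hs : ‖s‖ ≤ 1) :
    ur h s ∈ N p k := by
  rw [N, ← SetLike.mem_coe, coe_Gr]
  exact ur_GS h (rad_N k).1 (by simpa [e] using hs) (by simpa [wt_dual, e] using hs)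

theorem N_mul {k : Fin 4 → ℤ} {g g' : HQ p} (hg : g ∈ N p k) (hg' : g' ∈ N p k) (s : Finset (Fin 4))
    (h : ∀ m, m ∉ s → ¬ (0 < wt k i m ∧ 0 < wt k m j)) :
    D (g * g') i j = D g i j + D g' i j + ∑ m ∈ s, D g i m * D g' m j := by
  rw [D_mul, Finset.sum_subset (Finset.subset_univ s)]
  intro m _ hm
  rcases not_and_or.1 (h m hm) with e | e
  · rw [((mem_N k g).1 hg).2 _ _ e, zero_mul]
  · rw [((mem_N k g').1 hg').2 _ _ e, mul_zero]

theorem N_add {k : Fin 4 → ℤ} {g g' : HQ p} (hg : g ∈ N p k) (hg' : g' ∈ N p k)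
    (h : ∀ m, ¬ (0 < wt k i m ∧ 0 < wt k m j)) : D (g * g') i j = D g i j + D g' i j := by
  rw [N_mul hg hg' ∅ fun m _ => h m, Finset.sum_empty, add_zero]

theorem N_dual {k : Fin 4 → ℤ} {g : HQ p} (hg : g ∈ N p k)
    (h : ∀ m, ¬ (0 < wt k i m ∧ 0 < wt k m j)) :
    D g (j + 2) (i + 2) = -(sg _ i * sg _ j) * D g i j := rel0 g fun m => by
  rcases not_and_or.1 (h (m + 2)) with e | e
  · rw [← wt_dual, a22] at e
    rw [((mem_N k g).1 hg).2 _ _ e, zero_mul]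
  · rw [((mem_N k g).1 hg).2 _ _ e, mul_zero]

theorem contr (k : Fin 4 → ℤ) {V : Set (HQ p)} (hV : V ⊆ N p k) :
    ∀ O ∈ 𝓝 (1 : HQ p), ∀ᶠ n : ℕ in atTop, ∀ w ∈ V, dg p k ^ n * w * (dg p k ^ n)⁻¹ ∈ O := by
  intro O hO
  obtain ⟨O', h1, h2⟩ := (mem_nhds_induced _ _ _).1 hO
  obtain ⟨ε, h0, hε⟩ := Sec.nhds_one (n := 1) h1
  have hp := p1 (p := p)
  filter_upwards [(tendsto_pow_atTop_nhds_zero_of_lt_one (inv_nonneg.2 (zero_lt_one.trans hp).le)
    (inv_lt_one_of_one_lt₀ hp)).eventually (gt_mem_nhds h0)] with m hm w hw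
  refine h2 (hε _ fun i j => ?_)
  change ‖D _ i j‖ < ε
  obtain ⟨a, b⟩ := (mem_N k w).1 (hV hw)
  rw [dg_pow, norm_conj, wt_smul]
  by_cases e : 0 < wt k i j
  · refine lt_of_le_of_lt ?_ hm
    rw [inv_pow, ← zpow_natCast, ← _root_.zpow_neg]
    refine (mul_le_of_le_one_right (by positivity) (a i j)).trans (zpow_le_zpow_right₀ hp.le ?_)
    nlinarith [Int.natCast_nonneg m]
  · rwa [b i j e, norm_zero, mul_zero]

/-- A Weyl chamber. -/
def Ch (a b : Fin 4) : Prop := a ≠ b ∧ a ≠ b + 2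

instance (a b : Fin 4) : Decidable (Ch a b) := inferInstanceAs (Decidable (_ ∧ _))

/-- The Klingen weight. -/
def kK (a i : Fin 4) : ℤ := if i = a then 1 else 0

/-- The Siegel weight. -/
def kS (a b i : Fin 4) : ℤ := if i = a ∨ i = b then 1 else 0

/-- The regular weight. -/
def kR (a b i : Fin 4) : ℤ := if i = a then 2 else if i = b then 1 else 0

theorem n2 (a : Fin 4) : a ≠ a + 2 := by revert a; decide

end Pool.Agent.Lib.MP_9177b7_ag.S4
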