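import Pool.Agent.Lib.MP_9177b7_ag.S4.StB
import Pool.Agent.Lib.MP_9177b7_ag.S4.Rel
import Pool.Agent.Lib.MP_9177b7_ag.B.Unimod

/-!
The groups `Sp_4(ℚ_p)`, `Sp_4(ℝ)` and their product are unimodular.
-/

open Matrix MeasureTheory
open scoped NNReal

noncomputable section

namespace Pool.Agent.Lib.MP_9177b7_ag.S4

open B.Unimod

namespace Unimod

variable {F : Type} [Field F]

/-- The entries of a diagonal element. -/
def de (i : Fin 4) (t : F) (m : Fin 4) : F := if m = i then t else if m = i + 2 then t⁻¹ else 1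

/-- A diagonal element. -/
def dd (i : Fin 4) {t : F} (ht : t ≠ 0) : SP F :=
  ⟨⟨Matrix.diagonal (de i t), by
    rw [det_diagonal, Fin.prod_univ_four]
    fin_cases i <;> simp [de, ht]⟩, by
    change (Matrix.diagonal _)ᵀ * J4 _ * Matrix.diagonal _ = J4 _
    ext a b
    rw [diagonal_transpose, mul_diagonal, diagonal_mul]
    fin_cases i <;> fin_cases a <;> fin_cases b <;> simp [J4, de, ht]⟩

theorem dd_ur {i j : Fin 4} (h : i ≠ j) {t : F} (ht : t ≠ 0) (s : F) :
    dd i ht * ur h s = ur h ((if j = i + 2 then t * t else t) * s) * dd i ht := by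
  refine Subtype.ext (Subtype.ext (Matrix.ext fun a b => ?_))
  change (Matrix.diagonal (de i t) * (ur h s).1.1 : Matrix _ _ F) a b =
    ((ur h _).1.1 * Matrix.diagonal (de i t) : Matrix _ _ F) a b
  have e : ∀ s : F, (ur h s).1.1 a b = D (ur h s) a b + (1 : Matrix (Fin 4) (Fin 4) F) a b :=
    fun s => by rw [D, sub_add_cancel]
  rw [mul_diagonal, diagonal_mul, e, e, D_ur, D_ur]
  clear e
  fin_cases i <;> fin_cases j <;> first | exact absurd rfl h | skip
  all_goals
    fin_cases a <;> fin_cases b <;> simp [de, cf, sg] <;> field_simp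

theorem triv (hg : GenStmt) [CharZero F] (χ : SP F →* ℝ≥0) (g : SP F) : χ g = 1 := by
  have h := hg F χ.ker fun i j h s => by
    refine chi_four χ (d := dd i (t := if j = i + 2 then 2 else 4) (by split_ifs <;> norm_num)) ?_
    rw [dd_ur, ← ur_add, ← ur_add]
    congr 2
    split_ifs <;> ring
  exact MonoidHom.mem_ker.1 (h ▸ Subgroup.mem_top g)

end Unimod

open Unimod in
theorem unimod : GenStmt → UnimodStmt := fun hg _ _ =>
  ⟨fun m _ => right_inv (triv hg) m, fun m _ => right_inv (triv hg) m,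
    fun m _ => right_inv (hom_prod (triv hg) (triv hg)) m⟩

end Pool.Agent.Lib.MP_9177b7_ag.S4
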