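import Pool.Agent.Lib.MP_9177b7_ag.S4.Dens
import Pool.Agent.Lib.MP_9177b7_ag.S4.Equi
import Pool.Agent.Lib.MP_9177b7_ag.S4.Gen
import Pool.Agent.Lib.MP_9177b7_ag.S4.Mahler
import Pool.Agent.Lib.MP_9177b7_ag.S4.Proj
import Pool.Agent.Lib.MP_9177b7_ag.S4.Tube
import Pool.Agent.Lib.MP_9177b7_ag.S4.Unimod

/-!
The statements on the homogeneous space, without hypotheses.
-/

namespace Pool.Agent.Lib.MP_9177b7_ag.S4

theorem densP' : DensPStmt := densP gen disc

theorem densR' : DensRStmt := densR gen disc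

theorem proj' : ProjStmt := proj_stmt densP'

theorem tube' : TubeStmt := tube densP' mahler

theorem equi' (hy : DynStmt) : EquiStmt := equi disc densR' (unimod gen) tube' hy

end Pool.Agent.Lib.MP_9177b7_ag.S4
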