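import Pool.Agent.Lib.MP_9177b7_ag.B.Cov

/-!
The covering argument with a bounded number of children at good times.
-/

open MeasureTheory Filter Topology Set
open scoped ENNReal

noncomputable section

namespace Pool.Agent.Lib.MP_9177b7_ag.S4

open B.Cov Classical

section

variable {H C X : Type} [Group H] [Group C] [MulAction (H × C) X]

theorem cover2 (B : ℕ → Subgroup H) (O V : Set C) (T : H) (Q : Set X) (W Wg : ℕ) (x : X)
    (hV : ∀ v ∈ V, ∀ w ∈ V, v / w ∈ O) (g1 : 1 ≤ Wg)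
    (h1 : ∀ l, ∃ s : Finset H, s.card ≤ W ∧ ∀ h ∈ B l, ∃ g ∈ s, h * g⁻¹ ∈ B (l + 1))
    (h2 : ∀ l, ∀ y : X, (((T ^ l)⁻¹, 1) : H × C) • y ∈ Q → ∃ s : Finset H, s.card ≤ Wg ∧
      ∀ h ∈ B l, ∀ c ∈ O, (((T ^ l)⁻¹, 1) : H × C) • ((h, c) : H × C) • y ∈ Q →
        ∃ g ∈ s, h * g⁻¹ ∈ B (l + 1)) (M : ℕ) :
    ∀ b : Finset ℕ, ∃ s : Finset H, s.card ≤ W ^ b.card * Wg ^ M ∧
      ∀ y ∈ S B V 0 1 x, bad C T Q M y = b → ∃ g ∈ s, y ∈ S B V M g x := by
  induction M with
  | zero =>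
    intro b
    by_cases hb : b = ∅
    · exact ⟨{1}, by simp [hb], fun y hy _ => ⟨1, by simp, hy⟩⟩
    · exact ⟨∅, by simp, fun y _ h => absurd (by simp [← h, bad]) hb⟩
  | succ M ih =>
    intro b
    have hb : ∀ y : X, bad C T Q (M + 1) y = b → bad C T Q M y = b.erase M := by
      intro y h
      ext l
      simp only [← h, bad, Finset.mem_filter, Finset.mem_range, Finset.mem_erase]
      constructor
      · rintro ⟨a, c⟩
        exact ⟨by omega, by omega, c⟩
      · rintro ⟨a, c, d⟩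
        exact ⟨by omega, d⟩
    obtain ⟨s, hs, hc⟩ := ih (b.erase M)
    by_cases hM : M ∈ b
    · obtain ⟨t, ht, hi⟩ := h1 M
      refine ⟨Finset.image₂ (· * ·) t s, ?_, fun y hy h => ?_⟩
      · refine (Finset.card_image₂_le _ _ _).trans ?_
        rw [← Finset.card_erase_add_one hM, pow_succ', mul_assoc]
        exact Nat.mul_le_mul ht (hs.trans (Nat.mul_le_mul_left _
          (Nat.pow_le_pow_right g1 M.le_succ)))
      · obtain ⟨g, hg, k, hk, c, hcV, rfl⟩ := hc y hy (hb y h)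
        obtain ⟨g₁, hg₁, hk'⟩ := hi k hk
        exact ⟨g₁ * g, Finset.mem_image₂_of_mem hg₁ hg, k * g₁⁻¹, hk', c, hcV, by
          simp [mul_assoc]⟩
    · have key : ∀ g : H, ∃ t : Finset H, t.card ≤ Wg ∧ ∀ y ∈ S B V M g x,
          (((T ^ M)⁻¹, 1) : H × C) • y ∈ Q → ∃ g' ∈ t, y ∈ S B V (M + 1) g' x := by
        intro g
        by_cases he : ∃ y ∈ S B V M g x, (((T ^ M)⁻¹, 1) : H × C) • y ∈ Q
        · obtain ⟨_, ⟨k', hk', c', hc', rfl⟩, hq'⟩ := he
          obtain ⟨t, ht, hi⟩ := h2 M _ hq'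
          refine ⟨t.image (· * (k' * g)), Finset.card_image_le.trans ht, ?_⟩
          rintro _ ⟨k, hk, c, hcV, rfl⟩ hq
          obtain ⟨g₁, hg₁, e⟩ := hi _ ((B M).mul_mem hk ((B M).inv_mem hk')) _ (hV c hcV c' hc') (by
            rw [← mul_smul ((k * k'⁻¹, c / c') : H × C)]
            simpa [mul_assoc] using hq)
          exact ⟨_, Finset.mem_image_of_mem _ hg₁, _, e, c, hcV, by simp [mul_assoc]⟩
        · exact ⟨∅, by simp, fun y hy hq => absurd ⟨y, hy, hq⟩ he⟩
      choose φ hφ hφ' using key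
      refine ⟨s.biUnion φ, (Finset.card_biUnion_le_card_mul _ _ Wg fun g _ => hφ g).trans ?_,
        fun y hy h => ?_⟩
      · rw [Finset.erase_eq_of_notMem hM] at hs
        rw [pow_succ, ← mul_assoc]
        exact Nat.mul_le_mul_right _ hs
      obtain ⟨g, hg, hy'⟩ := hc y hy (hb y h)
      obtain ⟨g', a, b⟩ := hφ' g y hy' (by
        by_contra hq
        exact hM (by simp [← h, bad, hq]))
      exact ⟨g', Finset.mem_biUnion.2 ⟨g, hg, a⟩, b⟩

end

theorem cov2 {H C X : Type} [Group H] [TopologicalSpace H] [Group C] [TopologicalSpace C]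
    [IsTopologicalGroup C] [TopologicalSpace X] [T2Space X] [MeasurableSpace X] [BorelSpace X]
    [MulAction (H × C) X] [ContinuousSMul (H × C) X] (ν : Measure X) (T : H) (Q : Set X)
    (K W Wg : ℕ) (w ρ C₀ : ℝ) (δ : ℝ≥0∞) (B : ℕ → Subgroup H) (O : Set C) (G : ℕ → Set X)
    (hop : ∀ x : X, IsOpenMap fun g : H × C => g • x) (hT : ν.map (((T, 1) : H × C) • ·) = ν)
    (hQ : IsCompact Q) (hO : O ∈ 𝓝 (1 : C)) (hB : IsOpen (B 0 : Set H))
    (h1 : ∀ l, ∃ s : Finset H, s.card ≤ W ∧ ∀ h ∈ B l, ∃ g ∈ s, h * g⁻¹ ∈ B (l + 1))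
    (h2 : ∀ l, ∀ y : X, (((T ^ l)⁻¹, 1) : H × C) • y ∈ Q → ∃ s : Finset H, s.card ≤ Wg ∧
      ∀ h ∈ B l, ∀ c ∈ O, (((T ^ l)⁻¹, 1) : H × C) • ((h, c) : H × C) • y ∈ Q →
        ∃ g ∈ s, h * g⁻¹ ∈ B (l + 1))
    (h3 : ∀ (M : ℕ) (y : X), ν ({z | ∃ h ∈ B M, ∃ c ∈ O, z = ((h, c) : H × C) • y} ∩ G M) ≤
      ENNReal.ofReal (C₀ * ρ ^ M))
    (h4 : ∀ᶠ M in atTop, ν (G M)ᶜ ≤ δ) (g1 : 1 ≤ Wg) (w1 : 1 ≤ w) (w2 : W ≤ w ^ K) (ρ0 : 0 ≤ ρ)
    (r1 : 2 * w * Wg * ρ < 1) : ν univ ≤ (1 + K) * ν Qᶜ + δ := by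
  have hm : ∀ g : H × C, Measurable fun y : X => g • y := fun g =>
    (continuous_const_smul g).measurable
  obtain ⟨V, hV, hVO⟩ := exists_nhds_split_inv hO
  have hn : ∀ x ∈ Q, S B V 0 1 x ∈ 𝓝 x := fun x _ => by
    have := (hop x).image_mem_nhds (x := ((1, 1) : H × C))
      (prod_mem_nhds (hB.mem_nhds (B 0).one_mem) hV)
    have e : ((1, 1) : H × C) • x = x := one_smul (H × C) x
    simp only [e] at this
    refine mem_of_superset this ?_
    rintro _ ⟨⟨k, c⟩, ⟨hk, hc⟩, rfl⟩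
    exact ⟨k, hk, c, hc, by simp⟩
  obtain ⟨F, -, hF⟩ := hQ.elim_nhds_subcover _ hn
  have g : ∀ (M : ℕ) (x : X), ν ({y ∈ S B V 0 1 x | K * (bad C T Q M y).card ≤ M} ∩ G M) ≤
      ENNReal.ofReal (|C₀| * (2 * w * Wg * ρ) ^ M) := fun M x => by
    choose s hs hc using cover2 B O V T Q W Wg x hVO g1 h1 h2 M
    have hS : ∀ g, ν (S B V M g x ∩ G M) ≤ ENNReal.ofReal (|C₀| * ρ ^ M) := fun g => by
      refine le_trans (measure_mono (inter_subset_inter_left _ ?_))
        ((h3 M (((g, 1) : H × C) • x)).trans (ENNReal.ofReal_le_ofReal ?_))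
      · rintro _ ⟨k, hk, c, hcV, rfl⟩
        exact ⟨k, hk, c, by simpa using hVO c hcV 1 (mem_of_mem_nhds hV), by simp [← mul_smul]⟩
      · exact mul_le_mul_of_nonneg_right (le_abs_self _) (by positivity)
    calc _ ≤ ν (⋃ b ∈ (Finset.range M).powerset.filter (fun b => K * b.card ≤ M),
          ⋃ g ∈ s b, S B V M g x ∩ G M) := by
          refine measure_mono fun y hy => ?_
          obtain ⟨g, hg, hy'⟩ := hc _ y hy.1.1 rfl
          refine mem_biUnion (x := bad C T Q M y) ?_ (mem_biUnion hg ⟨hy', hy.2⟩)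
          exact Finset.mem_coe.2 (Finset.mem_filter.2
            ⟨Finset.mem_powerset.2 (Finset.filter_subset _ _), hy.1.2⟩)
      _ ≤ _ := measure_biUnion_finset_le _ _
      _ ≤ _ := by
          refine (Finset.sum_le_card_nsmul _ _ (ENNReal.ofReal (w ^ M * Wg ^ M * (|C₀| * ρ ^ M)))
            fun b hb => (measure_biUnion_finset_le _ _).trans ?_).trans ?_
          · refine (Finset.sum_le_card_nsmul _ _ _ fun g _ => hS g).trans ?_
            rw [nsmul_eq_mul, ← ENNReal.ofReal_natCast, ← ENNReal.ofReal_mul (Nat.cast_nonneg _)]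
            refine ENNReal.ofReal_le_ofReal (mul_le_mul_of_nonneg_right ?_ (by positivity))
            have a : ((s b).card : ℝ) ≤ W ^ b.card * Wg ^ M := by exact_mod_cast hs b
            refine a.trans (mul_le_mul_of_nonneg_right ?_ (by positivity))
            refine (pow_le_pow_left₀ (Nat.cast_nonneg _) w2 _).trans ?_
            rw [← pow_mul]
            exact pow_le_pow_right₀ w1 (Finset.mem_filter.1 hb).2
          · rw [nsmul_eq_mul, ← ENNReal.ofReal_natCast, ← ENNReal.ofReal_mul (Nat.cast_nonneg _)]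
            refine ENNReal.ofReal_le_ofReal ?_
            have a : ((((Finset.range M).powerset.filter (fun b => K * b.card ≤ M)).card : ℕ) : ℝ)
                ≤ 2 ^ M := by
              exact_mod_cast (Finset.card_filter_le _ _).trans_eq (by simp)
            refine (mul_le_mul_of_nonneg_right a (by positivity)).trans_eq ?_
            simp only [mul_pow]
            ring
  have hb : ∀ᶠ M : ℕ in atTop, ν univ ≤ (1 + K) * ν Qᶜ + δ +
      ENNReal.ofReal (F.card * (|C₀| * (2 * w * Wg * ρ) ^ M)) := by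
    filter_upwards [eventually_ne_atTop 0, h4] with M hM hG
    calc ν univ ≤ ν (((Qᶜ ∪ {y | ¬ K * (bad C T Q M y).card ≤ M}) ∪ (G M)ᶜ) ∪
          ⋃ x ∈ F, {y ∈ S B V 0 1 x | K * (bad C T Q M y).card ≤ M} ∩ G M) := by
          refine measure_mono fun y _ => ?_
          by_cases hg : y ∈ G M
          swap
          · exact Or.inl (Or.inr hg)
          by_cases hy : y ∈ Q
          · by_cases hk : K * (bad C T Q M y).card ≤ M
            · obtain ⟨x, hx, hyx⟩ := mem_iUnion₂.1 (hF hy)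
              exact Or.inr (mem_biUnion hx ⟨⟨hyx, hk⟩, hg⟩)
            · exact Or.inl (Or.inl (Or.inr hk))
          · exact Or.inl (Or.inl (Or.inl hy))
      _ ≤ _ := measure_union_le _ _
      _ ≤ _ := by
          refine add_le_add ((measure_union_le _ _).trans
            (add_le_add ((measure_union_le _ _).trans ?_) hG)) ?_
          · rw [add_mul, one_mul]
            exact add_le_add le_rfl (markov ν T Q hQ.measurableSet hm hT K M hM)
          · refine (measure_biUnion_finset_le _ _).trans ?_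
            refine (Finset.sum_le_card_nsmul _ _ _ fun x _ => g M x).trans ?_
            rw [nsmul_eq_mul, ENNReal.ofReal_mul (Nat.cast_nonneg _), ENNReal.ofReal_natCast]
  have ht : Tendsto (fun M : ℕ => (1 + K) * ν Qᶜ + δ +
      ENNReal.ofReal (F.card * (|C₀| * (2 * w * Wg * ρ) ^ M)))
      atTop (𝓝 ((1 + K) * ν Qᶜ + δ + ENNReal.ofReal (F.card * (|C₀| * 0)))) :=
    tendsto_const_nhds.add (ENNReal.tendsto_ofReal
      (((tendsto_pow_atTop_nhds_zero_of_lt_one (by positivity) r1).const_mul _).const_mul _))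
  simpa using ge_of_tendsto ht hb

end Pool.Agent.Lib.MP_9177b7_ag.S4
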