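import Mathlib

/-!
The class number formula for a CM field and its real subfield.
-/

open NumberField NumberField.Units NumberField.InfinitePlace

noncomputable section

namespace Pool.Agent.Lib.MP_9177b7_ag.S4

theorem tors_real (K : Type) [Field K] [NumberField K] [IsTotallyReal K] : torsionOrder K ≤ 2 := by
  by_contra h
  obtain ⟨g, hg⟩ := IsCyclic.exists_ofOrder_eq_natCard (α := torsion K)
  have h1 : IsPrimitiveRoot ((g.1 : 𝓞 K) : K) (torsionOrder K) := by
    have := IsPrimitiveRoot.orderOf g
    rw [hg] at this
    exact (IsPrimitiveRoot.coe_units_iff.2 (IsPrimitiveRoot.coe_submonoidClass_iff.2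
      this)).map_of_injective (RingOfIntegers.coe_injective (K := K))
  have h2 := h1.nrRealPlaces_eq_zero_of_two_lt (not_le.1 h)
  rw [← IsTotallyReal.finrank] at h2
  exact Module.finrank_pos.ne' h2

/-- The class number formula, for the quotient of the residues. -/
theorem cnf4 (L : Type) [Field L] [NumberField L] [IsCMField L] :
    (torsionOrder L : ℝ) * classNumber (maximalRealSubfield L) * √|(discr L : ℝ)| *
        dedekindZeta_residue L ≤
      2 * (2 * Real.pi) ^ Module.finrank ℚ (maximalRealSubfield L) * classNumber L *
        √|(discr (maximalRealSubfield L) : ℝ)| * dedekindZeta_residue (maximalRealSubfield L) := by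
  set n := Module.finrank ℚ (maximalRealSubfield L) with hn
  have r1 : nrRealPlaces (maximalRealSubfield L) = n := by rw [← IsTotallyReal.finrank]
  have r2 : nrComplexPlaces L = n := by
    have h1 := IsTotallyComplex.finrank L
    have h2 := Module.finrank_mul_finrank ℚ (maximalRealSubfield L) L
    rw [Algebra.IsQuadraticExtension.finrank_eq_two (maximalRealSubfield L) L] at h2
    omega
  have r3 : rank L ≤ n := by
    rw [rank, card_eq_nrRealPlaces_add_nrComplexPlaces, r2, IsTotallyComplex.nrRealPlaces_eq_zero]
    omega
  have hR : regulator L ≤ 2 ^ n * regulator (maximalRealSubfield L) := by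
    rw [← div_le_iff₀ (regulator_pos _),
      IsCMField.regulator_div_regulator_eq_two_pow_mul_indexRealUnits_inv]
    have : ((IsCMField.indexRealUnits L : ℕ) : ℝ)⁻¹ ≤ 1 := by
      rcases IsCMField.indexRealUnits_eq_one_or_two L with h | h <;> rw [h] <;> norm_num
    calc _ ≤ (2 : ℝ) ^ n * 1 := by gcongr; norm_num
      _ = _ := mul_one _
  have hw : (torsionOrder (maximalRealSubfield L) : ℝ) ≤ 2 := by exact_mod_cast tors_real _
  have hw0 : (0 : ℝ) < torsionOrder (maximalRealSubfield L) := by exact_mod_cast torsionOrder_pos _
  have hw1 : (0 : ℝ) < torsionOrder L := by exact_mod_cast torsionOrder_pos _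
  have hs : 0 < √|(discr (maximalRealSubfield L) : ℝ)| :=
    Real.sqrt_pos.2 (abs_pos.2 (Int.cast_ne_zero.2 (discr_ne_zero _)))
  have hs' : 0 < √|(discr L : ℝ)| :=
    Real.sqrt_pos.2 (abs_pos.2 (Int.cast_ne_zero.2 (discr_ne_zero _)))
  have hR0 := regulator_pos (maximalRealSubfield L)
  rw [dedekindZeta_residue_def, dedekindZeta_residue_def, r1, r2,
    IsTotallyComplex.nrRealPlaces_eq_zero, IsTotallyReal.nrComplexPlaces_eq_zero]
  calc _ = (2 * Real.pi) ^ n * classNumber L * classNumber (maximalRealSubfield L) *
        regulator L := by field_simp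
    _ ≤ (2 * Real.pi) ^ n * classNumber L * classNumber (maximalRealSubfield L) *
        (2 ^ n * regulator (maximalRealSubfield L)) *
          (2 / torsionOrder (maximalRealSubfield L)) := by
      refine le_trans (by gcongr) (le_mul_of_one_le_right (by positivity) ?_)
      rwa [le_div_iff₀ hw0, one_mul]
    _ = _ := by field_simp

end Pool.Agent.Lib.MP_9177b7_ag.S4
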