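import Pool.Agent.Lib.MP_9177b7_ag.S4.StA

/-!
The Siegel modular threefold, its CM points of dihedral type, and the orbits given by the main
theorem of complex multiplication.
-/

open NumberField Matrix
open scoped nonZeroDivisors ComplexConjugate ComplexOrder

noncomputable section

namespace Pool.Agent.Lib.MP_9177b7_ag.S4

/-- Period matrices: `2 × 4` complex matrices that satisfy Riemann's relations.  Their quotient by
`GL₂(ℂ)` is the Siegel upper half space of degree two, through `Z ↦ (1, Z)`. -/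
abbrev Per : Type := {P : Matrix (Fin 2) (Fin 4) ℂ //
  P * J4 ℂ * Pᵀ = 0 ∧ (Complex.I • (P * J4 ℂ * Pᴴ)).PosDef}

/-- The Siegel modular threefold `GL₂(ℂ) \ Per / Sp₄(ℤ)`, with the quotient topology. -/
abbrev A2 : Type :=
  Quot fun P Q : Per => ∃ (g : Matrix (Fin 2) (Fin 2) ℂ) (γ : SP ℤ),
    Q.1 = g * P.1 * γ.1.1.map (Int.cast : ℤ → ℂ)

/-- The arithmetic group `Sp₄(ℤ)` inside `Sp₄(ℝ)`. -/
def G1 : Subgroup (SP ℝ) :=
  (SpecialLinearGroup.map (Int.castRingHom ℝ)).range.subgroupOf (SP ℝ)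

/-- The homogeneous space `Sp₄(ℝ) / Sp₄(ℤ)`. -/
abbrev YY : Type := SP ℝ ⧸ G1

/-- The period matrix `(1, i 1)`. -/
def P0 : Matrix (Fin 2) (Fin 4) ℂ := !![1, 0, Complex.I, 0; 0, 1, 0, Complex.I]

theorem SP.mul_transpose {R : Type} [CommRing R] (g : SP R) : g.1.1 * J4 R * g.1.1ᵀ = J4 R := by
  have h : g.1.1ᵀ * J4 R * g.1.1 = J4 R := g.2
  have e : J4 R * J4 R = -1 := by
    ext i j
    fin_cases i <;> fin_cases j <;> simp [J4, Matrix.mul_apply, Fin.sum_univ_four]
  have a : -(J4 R * g.1.1ᵀ * J4 R) * g.1.1 = 1 := by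
    rw [neg_mul, mul_assoc, mul_assoc, ← mul_assoc _ (J4 R), h, e, neg_neg]
  have b := congrArg (· * J4 R) (mul_eq_one_comm.1 a)
  simpa only [mul_neg, neg_mul, mul_assoc, e, mul_one, neg_neg, one_mul] using b

theorem P0_mul (g : SP ℝ) :
    (P0 * g.1.1.map Complex.ofReal) * J4 ℂ * (P0 * g.1.1.map Complex.ofReal)ᵀ = 0 ∧
      (Complex.I • ((P0 * g.1.1.map Complex.ofReal) * J4 ℂ *
        (P0 * g.1.1.map Complex.ofReal)ᴴ)).PosDef := by
  have j : (J4 ℝ).map Complex.ofRealHom = J4 ℂ := by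
    ext i j
    fin_cases i <;> fin_cases j <;> simp [J4]
  have h : g.1.1.map Complex.ofReal * J4 ℂ * (g.1.1.map Complex.ofReal)ᵀ = J4 ℂ := by
    have := congrArg (·.map Complex.ofRealHom) (SP.mul_transpose g)
    simp only [Matrix.map_mul, j, transpose_map] at this
    exact this
  have e : (g.1.1.map Complex.ofReal)ᴴ = (g.1.1.map Complex.ofReal)ᵀ := by
    ext i j
    simp
  have a : ∀ M : Matrix (Fin 4) (Fin 2) ℂ, P0 * g.1.1.map Complex.ofReal * J4 ℂ *
      ((g.1.1.map Complex.ofReal)ᵀ * M) = P0 * J4 ℂ * M := fun M => by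
    conv_rhs => rw [← h]
    simp only [Matrix.mul_assoc]
  rw [transpose_mul, conjTranspose_mul, e, a, a]
  have b : Complex.I • (P0 * J4 ℂ * P0ᴴ) = diagonal fun _ => 2 := by
    ext i j
    simp only [Matrix.smul_apply, Matrix.mul_apply, Fin.sum_univ_four, conjTranspose_apply]
    fin_cases i <;> fin_cases j <;> simp [P0, J4] <;>
      linear_combination (-2) * Complex.I_mul_I
  refine ⟨?_, b ▸ PosDef.diagonal fun _ => two_pos⟩
  ext i j
  simp only [Matrix.mul_apply, Fin.sum_univ_four, transpose_apply]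
  fin_cases i <;> fin_cases j <;> simp [P0, J4]

/-- The projection `g Γ ↦ [P0 g]` onto the Siegel threefold. -/
def proj (y : YY) : A2 := Quot.mk _ ⟨P0 * y.out.1.1.map Complex.ofReal, P0_mul _⟩

variable {E : Type} [Field E] [NumberField E] [IsCMField E]

/-- `e` is a basis of the fractional ideal `a` in which the Riemann form `Tr(ξ x ȳ)` has Gram
matrix `J4`. -/
def Frame (ξ : E) (a : FractionalIdeal (𝓞 E)⁰ E) (e : Fin 4 → E) : Prop :=
  (∀ i j, Algebra.trace ℚ E (ξ * e i * IsCMField.complexConj E (e j)) = J4 ℚ i j) ∧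
    ∀ x, x ∈ a ↔ ∃ c : Fin 4 → ℤ, x = ∑ i, c i * e i

variable (L : Type) {N : Type} [Field L] [NumberField L] [Field N] [NumberField N] [Algebra E N]
  [Algebra L N]

/-- A CM datum: `N` is dihedral of degree eight with group generated by the involutions `r`, `s`,
complex conjugation is `(r s) ^ 2`, `E` is the fixed field of `s`, `L` (the reflex field of the
type `{φ, φ ∘ r}`) is the fixed field of `r`, `p` splits completely, `d_E / d_F` is squarefree,
and `(a, ξ)` is a principally polarised lattice of that type. -/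
structure Special (p : ℕ) [Fact p.Prime] (φ : N →+* ℂ) (r s : N ≃ₐ[ℚ] N) (ξ : E)
    (a : FractionalIdeal (𝓞 E)⁰ E) : Prop where
  dim : Module.finrank ℚ N = 8
  rr : r * r = 1
  ss : s * s = 1
  cc : ∀ x, φ (((r * s) ^ 2) x) = conj (φ x)
  fixE : ∀ x, s x = x ↔ x ∈ Set.range (algebraMap E N)
  fixL : ∀ x, r x = x ↔ x ∈ Set.range (algebraMap L N)
  split : Nonempty (N →+* ℚ_[p])
  sqf : Squarefree (discr E / discr (maximalRealSubfield E))
  imag : IsCMField.complexConj E ξ = -ξ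
  pos₁ : 0 < (φ (algebraMap E N ξ)).im
  pos₂ : 0 < (φ (r (algebraMap E N ξ))).im
  frame : ∃ e, Frame ξ a e

/-- The orbit given by the main theorem of complex multiplication: the period matrices of the
polarised lattices `(N_{N/E}(b O_N)⁻¹ a, N(b) ξ)`, for `b` a nonzero ideal of `O_L`. -/
def orbit (φ : N →+* ℂ) (r : N ≃ₐ[ℚ] N) (ξ : E) (a : FractionalIdeal (𝓞 E)⁰ E) : Set A2 :=
  {x | ∃ (b : Ideal (𝓞 L)) (e : Fin 4 → E) (P : Per), b ≠ ⊥ ∧
    Frame (Ideal.absNorm b * ξ)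
      (((Ideal.relNorm (𝓞 E) (b.map (algebraMap (𝓞 L) (𝓞 N))) : Ideal (𝓞 E)) :
        FractionalIdeal (𝓞 E)⁰ E)⁻¹ * a) e ∧
    (∀ i, P.1 0 i = φ (algebraMap E N (e i)) ∧ P.1 1 i = φ (r (algebraMap E N (e i)))) ∧
    x = Quot.mk _ P}

/-- The mean of a function over a finite set. -/
def mean {X : Type} (O : Set X) (f : X → ℝ) : ℝ := (∑ᶠ x ∈ O, f x) / O.ncard

end Pool.Agent.Lib.MP_9177b7_ag.S4
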