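import Mathlib
import Pool.Agent.Lib.MP_9177b7_ag.B.ZAsm
import Pool.Agent.Lib.MP_9177b7_ag.B.Gal1
import Pool.Agent.Lib.MP_9177b7_ag.B.Zero
import Pool.Agent.Lib.MP_9177b7_ag.B.Fac
import Pool.Agent.Lib.MP_9177b7_ag.B.ZetaBd
import Pool.Agent.Lib.MP_9177b7_ag.B.Theta
import Pool.Agent.Lib.MP_9177b7_ag.B.Pack
import Pool.Agent.Lib.MP_9177b7_ag.B.Red
import Pool.Agent.Lib.MP_9177b7_ag.B.Frob
import Pool.Agent.Lib.MP_9177b7_ag.B.Mert

/-!
A lower bound for the quotient of the residues of the zeta functions of a quartic field with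
dihedral closure and of its quadratic subfield.
-/

open NumberField Pool.Agent.Shared.PrimeZeta Pool.Agent.Shared.FrobeniusDensity IntermediateField
open scoped NNReal

noncomputable section

namespace Pool.Agent.Lib.MP_9177b7_ag.S4

open B B.ZAsm

/-- `L` is the fixed field of `r`, `K` the fixed field of `r` and `c`. -/
def EStmt : Prop :=
  ∀ (d A : ℕ) (δ : ℝ), 0 < δ → ∃ C X₀ : ℝ, 0 < C ∧
    ∀ (N : Type) [Field N] [NumberField N] [IsGalois ℚ N] (r s c : N ≃ₐ[ℚ] N)
      (L K : Type) [Field L] [NumberField L] [Field K] [NumberField K] (i : L →+* N) (j : K →+* N)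
      (X x : ℝ), Module.finrank ℚ N ≤ d → r * r = 1 → c * c = 1 → c * r = r * c →
      s * r = c * r * s → r ≠ 1 → c ≠ 1 → r ≠ c → (∀ y, y ∈ i.range ↔ r y = y) →
      (∀ y, y ∈ j.range ↔ r y = y ∧ c y = y) → X₀ ≤ X → |(discr L : ℝ)| ≤ X ^ A → X ^ δ ≤ x →
      x ≤ X →
      Real.exp (tsumP (fun q => (nI L q : ℝ) - nI K q) x) * dedekindZeta_residue K ≤
        C * dedekindZeta_residue L ∧
      dedekindZeta_residue K ≤ C * Real.log X ^ Module.finrank ℚ K * dedekindZeta_residue L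

namespace EZ

theorem small_prim (L : Type) [Field L] [NumberField L] :
    ∃ θ : 𝓞 L, ℚ⟮(θ : L)⟯ = ⊤ ∧ ∀ ψ : L →+* ℂ,
      ‖ψ θ‖ ≤ (2 + 2 ^ Module.finrank ℚ L) * |(discr L : ℝ)| := by
  by_cases h : ∀ w : InfinitePlace L, w.IsComplex
  · have : IsTotallyComplex L := ⟨h⟩
    exact Gal.small_prim L
  push Not at h
  obtain ⟨w₀, hw₀⟩ := h
  rw [InfinitePlace.not_isComplex_iff_isReal] at hw₀
  set B : ℝ≥0 := NNReal.sqrt ‖discr L‖₊ * 2 ^ Module.finrank ℚ L + 1 with hB
  have h1 : mixedEmbedding.minkowskiBound L ↑1 < B := by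
    have : B - 1 < B := by
      simp_rw [hB, add_tsub_cancel_right, lt_add_iff_pos_right, zero_lt_one]
    refine lt_of_le_of_lt ?_ (ENNReal.coe_lt_coe.mpr this)
    rw [mixedEmbedding.minkowskiBound,
      mixedEmbedding.volume_fundamentalDomain_fractionalIdealLatticeBasis, hB,
      add_tsub_cancel_right, Units.val_one, FractionalIdeal.absNorm_one, Rat.cast_one,
      ENNReal.ofReal_one, one_mul, mixedEmbedding.finrank,
      mixedEmbedding.volume_fundamentalDomain_latticeBasis, ENNReal.coe_mul, ENNReal.coe_pow,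
      ENNReal.coe_ofNat]
    gcongr
    exact mul_le_of_le_one_left' (pow_le_one₀ (by positivity) (by simp))
  have h2 : mixedEmbedding.minkowskiBound L ↑1 < mixedEmbedding.convexBodyLTFactor L * B := by
    calc mixedEmbedding.minkowskiBound L 1 < B := h1
      _ = 1 * B := by rw [one_mul]
      _ ≤ mixedEmbedding.convexBodyLTFactor L * B := by
        gcongr; exact mod_cast mixedEmbedding.one_le_convexBodyLTFactor L
  obtain ⟨θ, hθ, hb⟩ := mixedEmbedding.exists_primitive_element_lt_of_isReal L hw₀ h2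
  refine ⟨θ, hθ, fun ψ => ?_⟩
  have h3 := hb (InfinitePlace.mk ψ)
  rw [InfinitePlace.apply] at h3
  have hD := one_le_discr L
  have h4 : (B : ℝ) ≤ |(discr L : ℝ)| * 2 ^ Module.finrank ℚ L + 1 := by
    rw [hB]
    push_cast
    rw [Int.norm_eq_abs]
    gcongr
    exact Real.sqrt_le_iff.2 ⟨by positivity, by nlinarith⟩
  have h5 : ((max B 1 : ℝ≥0) : ℝ) ≤ 1 + B := by
    rw [NNReal.coe_max]
    exact max_le (by linarith) (by simp)
  have h6 : ‖ψ θ‖ < ((max B 1 : ℝ≥0) : ℝ) := by simpa using h3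
  nlinarith

section grp

variable {G : Type} [Group G]

/-- The subgroup generated by an involution. -/
def two (r : G) (h : r * r = 1) : Subgroup G where
  carrier := {g | g = 1 ∨ g = r}
  one_mem' := Or.inl rfl
  mul_mem' := by
    rintro _ _ (rfl | rfl) (rfl | rfl) <;> simp [h]
  inv_mem' := by
    rintro _ (rfl | rfl)
    · simp
    · exact Or.inr (inv_eq_of_mul_eq_one_right h)

/-- The subgroup generated by two commuting involutions. -/
def four (r c : G) (h : r * r = 1) (h' : c * c = 1) (e : c * r = r * c) : Subgroup G where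
  carrier := {g | g = 1 ∨ g = r ∨ g = c ∨ g = c * r}
  one_mem' := Or.inl rfl
  mul_mem' := by
    have e1 : r * (c * r) = c := by rw [← mul_assoc, ← e, mul_assoc, h, mul_one]
    have e2 : c * (c * r) = r := by rw [← mul_assoc, h', one_mul]
    have e3 : c * r * r = c := by rw [mul_assoc, h, mul_one]
    have e4 : c * r * c = r := by rw [mul_assoc, ← e, e2]
    have e5 : c * r * (c * r) = 1 := by rw [← mul_assoc, e4, h]
    intro a b ha hb
    rcases ha with ha | ha | ha | ha <;> rcases hb with hb | hb | hb | hb <;> rw [ha, hb] <;>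
      simp [h, h', ← e, e1, e2, e3, e4, e5]
  inv_mem' := by
    intro a ha
    rcases ha with ha | ha | ha | ha <;> rw [ha]
    · simp
    · exact Or.inr (Or.inl (inv_eq_of_mul_eq_one_right h))
    · exact Or.inr (Or.inr (Or.inl (inv_eq_of_mul_eq_one_right h')))
    · refine Or.inr (Or.inr (Or.inr (inv_eq_of_mul_eq_one_right ?_)))
      rw [mul_assoc, ← mul_assoc r, ← e, mul_assoc, h, mul_one, h']

theorem cnt_le [Finite G] (G₀ H₀ H₁ : Subgroup G) (s : G)
    (h : ∀ g ∈ G₀, g ∈ H₁ ∨ g ∈ H₀ ∨ s⁻¹ * g * s ∈ H₀) (φ : G) :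
    cnt G₀ φ ≤ cnt H₁ φ + (cnt H₀ φ + cnt H₀ φ) := by
  have e : ∀ H : Subgroup G, cnt H φ = {g : G | g⁻¹ * φ * g ∈ H}.ncard := fun H => rfl
  simp only [e]
  have h3 : {g : G | (g * s)⁻¹ * φ * (g * s) ∈ H₀}.ncard ≤ {g : G | g⁻¹ * φ * g ∈ H₀}.ncard :=
    Set.ncard_le_ncard_of_injOn (· * s) (fun g hg => hg) fun a _ b _ hab => mul_right_cancel hab
  calc _ ≤ ({g : G | g⁻¹ * φ * g ∈ H₁} ∪ ({g : G | g⁻¹ * φ * g ∈ H₀} ∪
        {g : G | (g * s)⁻¹ * φ * (g * s) ∈ H₀})).ncard := by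
        refine Set.ncard_le_ncard fun g hg => ?_
        rcases h _ hg with h1 | h1 | h1
        · exact Or.inl h1
        · exact Or.inr (Or.inl h1)
        · refine Or.inr (Or.inr ?_)
          simpa only [Set.mem_ofPred_eq, mul_inv_rev, mul_assoc] using h1
    _ ≤ _ := (Set.ncard_union_le _ _).trans (Nat.add_le_add_left
        ((Set.ncard_union_le _ _).trans (Nat.add_le_add_left h3 _)) _)

end grp

section fld

variable {N : Type} [Field N] [NumberField N]

theorem nI_fix {L : Type} [Field L] [NumberField L] (i : L →+* N) (H : Subgroup (N ≃ₐ[ℚ] N))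
    (h : ∀ y, y ∈ i.range ↔ ∀ g ∈ H, g y = y) (q : ℕ) : nI (fixedField H) q = nI L q := by
  refine (nI_congr (RingEquiv.ofBijective
    (i.codRestrict (fixedField H) fun x => (mem_fixedField_iff _ _).2 ((h _).1 ⟨x, rfl⟩))
      ⟨fun a b e => i.injective (congrArg Subtype.val e), fun y => ?_⟩) q).symm
  obtain ⟨x, hx⟩ := (h y).2 ((mem_fixedField_iff _ _).1 y.2)
  exact ⟨x, Subtype.ext hx⟩

theorem exists_theta [IsGalois ℚ N] {d : ℕ} (hd : Module.finrank ℚ N ≤ d) (y z : 𝓞 N)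
    (h : ∀ σ : N ≃ₐ[ℚ] N, σ y = y → σ z = z → σ = 1) {R : ℝ} (hy : ∀ φ : N →+* ℂ, ‖φ y‖ ≤ R)
    (hz : ∀ φ : N →+* ℂ, ‖φ z‖ ≤ R) :
    ∃ Θ : 𝓞 N, (∀ σ : N ≃ₐ[ℚ] N, σ Θ = Θ → σ = 1) ∧ ∀ φ : N →+* ℂ, ‖φ Θ‖ ≤ (1 + d) * R := by
  classical
  let Th : ℕ → 𝓞 N := fun t => y + t * z
  have hTh : ∀ t, (Th t : N) = y + t * z := fun t => by
    simp only [Th, RingOfIntegers.coe_eq_algebraMap, map_add, map_mul, map_natCast]
  have bad : ∀ σ : N ≃ₐ[ℚ] N, σ ≠ 1 →
      ((Finset.range (d + 1)).filter fun t => σ (Th t) = Th t).card ≤ 1 := by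
    intro σ hσ
    refine Finset.card_le_one.2 fun a ha b hb => ?_
    have h1 := (Finset.mem_filter.1 ha).2
    have h2 := (Finset.mem_filter.1 hb).2
    rw [hTh, map_add, map_mul, map_natCast] at h1 h2
    by_contra hab
    have h3 : (a : N) - b ≠ 0 := sub_ne_zero.2 fun e => hab (Nat.cast_injective e)
    have h4 : σ z = z := mul_left_cancel₀ h3 (by linear_combination h1 - h2)
    exact hσ (h σ (by rw [h4] at h1; exact add_right_cancel h1) h4)
  have := Fintype.ofFinite (N ≃ₐ[ℚ] N)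
  have hcard : ((Finset.univ.filter fun σ : N ≃ₐ[ℚ] N => σ ≠ 1).biUnion fun σ =>
      (Finset.range (d + 1)).filter fun t => σ (Th t) = Th t).card <
        (Finset.range (d + 1)).card := by
    refine (Finset.card_biUnion_le_card_mul _ _ 1 fun σ hσ =>
      bad σ (Finset.mem_filter.1 hσ).2).trans_lt ?_
    rw [Finset.card_range, Nat.lt_succ_iff, mul_one]
    refine (Finset.card_filter_le _ _).trans ?_
    rwa [Finset.card_univ, ← Nat.card_eq_fintype_card, IsGalois.card_aut_eq_finrank]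
  obtain ⟨t, ht, hn⟩ := Finset.exists_mem_notMem_of_card_lt_card hcard
  refine ⟨Th t, fun σ hσ => ?_, fun φ => ?_⟩
  · by_contra h1
    exact hn (Finset.mem_biUnion.2 ⟨σ, by simpa using h1, Finset.mem_filter.2 ⟨ht, hσ⟩⟩)
  · rw [hTh, map_add, map_mul, map_natCast]
    have htd : (t : ℝ) ≤ d := Nat.cast_le.2 (Nat.lt_succ_iff.1 (Finset.mem_range.1 ht))
    refine (norm_add_le _ _).trans ?_
    rw [norm_mul, Complex.norm_natCast]
    have := mul_le_mul htd (hz φ) (norm_nonneg _) (Nat.cast_nonneg _)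
    linarith [hy φ]

theorem LL_le {M : Type} [Field M] [NumberField M] (i : M →+* N) {Δ : ℕ}
    (h : (discr N).natAbs ≤ Δ) : LL M ≤ Real.log Δ + 1 := by
  let := i.toAlgebra
  have h1 : (discr M).natAbs ≤ Δ :=
    (Nat.le_of_dvd (Int.natAbs_pos.2 (discr_ne_zero N))
      (Int.natAbs_dvd_natAbs.2 (discr_dvd_discr M N))).trans h
  have h2 : |(discr M : ℝ)| ≤ Δ := by
    rw [← Int.cast_abs, ← Int.natCast_natAbs, Int.cast_natCast]
    exact Nat.cast_le.2 h1
  have := Real.log_le_log (abs_pos.2 (Int.cast_ne_zero.2 (discr_ne_zero M))) h2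
  rw [LL]
  linarith

theorem rank_le {M : Type} [Field M] [NumberField M] (i : M →+* N) :
    Module.finrank ℚ M ≤ Module.finrank ℚ N :=
  LinearMap.finrank_le_finrank_of_injective (f := i.toRatAlgHom.toLinearMap) i.injective

end fld

theorem core (hZ : ZeroStmt) (hF : FrobStmt) (d : ℕ) : ∃ c C : ℝ, 0 < c ∧ c ≤ 1 ∧
    ∀ (E : Type) [Field E] [NumberField E] [IsGalois ℚ E] (G₀ H₀ H₁ : Subgroup (E ≃ₐ[ℚ] E))
      (s : E ≃ₐ[ℚ] E) (Θ : 𝓞 E) (R Lg : ℝ) (L K : Type) [Field L] [NumberField L] [Field K]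
      [NumberField K] (_ : L →+* E) (_ : K →+* E), Module.finrank ℚ E ≤ d →
      (∀ g ∈ G₀, g ∈ H₁ ∨ g ∈ H₀ ∨ s⁻¹ * g * s ∈ H₀) → Nat.card H₁ < Nat.card G₀ →
      (∀ q, nI (fixedField G₀) q = nI K q) → (∀ q, nI (fixedField H₀) q = nI L q) → 1 ≤ R →
      (∀ σ : E ≃ₐ[ℚ] E, σ Θ = Θ → σ = 1) → (∀ φ : E →+* ℂ, ‖φ Θ‖ ≤ R) →
      d ^ 2 * Real.log (2 * R) + 1 ≤ Lg →
      Real.log (dedekindZeta_residue K) + Pz L (c / Lg) ≤
        Real.log (dedekindZeta_residue L) + Pz K (c / Lg) + C := by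
  classical
  obtain ⟨c₀, B₀, hc₀, hc₁, hz⟩ := hZ d
  set B : ℝ := |B₀| with hBd
  have hB : 0 ≤ B := abs_nonneg _
  have hBB : B₀ ≤ B := le_abs_self _
  set τ : ℝ := 4 * d * B + d ^ 2 + 1 with hτ
  have hτ0 : 0 < τ := by positivity
  set T : ℝ := Real.exp τ with hT
  have hT1 : 1 ≤ T := Real.one_le_exp hτ0.le
  refine ⟨c₀, 4 * B + 3 * τ, hc₀, hc₁, ?_⟩
  intro E _ _ _ G₀ H₀ H₁ s Θ R Lg L K _ _ _ _ i j hE hG hcd eK eL hR hΘ hΘR hLg
  obtain ⟨Δ, hΔ0, hΔR, hΔE, hfr⟩ := hF E Θ R hR hΘ hΘR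
  have hlogΔ : Real.log Δ ≤ d ^ 2 * Real.log (2 * R) := by
    have h1 : (0 : ℝ) < Δ := by exact_mod_cast Nat.pos_of_ne_zero hΔ0
    refine (Real.log_le_log h1 hΔR).trans ?_
    rw [Real.log_pow]
    have h2 : 0 ≤ Real.log (2 * R) := Real.log_nonneg (by linarith)
    have h3 : ((Module.finrank ℚ E ^ 2 : ℕ) : ℝ) ≤ d ^ 2 := by
      exact_mod_cast Nat.pow_le_pow_left hE 2
    gcongr
  have hΔn := Real.log_natCast_nonneg Δ
  have hLg1 : 1 ≤ Lg := by linarith
  obtain ⟨ρL, hρL, hzL⟩ := hz L ((rank_le i).trans hE) Lg ((LL_le i hΔE).trans (by linarith))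
  obtain ⟨ρK, hρK, hzK⟩ := hz K ((rank_le j).trans hE) Lg ((LL_le j hΔE).trans (by linarith))
  obtain ⟨ρH, -, hzH⟩ := hz (fixedField H₁) ((rank_le_rank _).trans hE) Lg
    ((LL_le (algebraMap (fixedField H₁) E) hΔE).trans (by linarith))
  set b₀ : ℝ := c₀ / Lg with hb₀
  have hb₀p : 0 < b₀ := by positivity
  set mK : ℝ := min ρK b₀ with hmK
  set mL : ℝ := min ρL b₀ with hmL
  have hmK0 : 0 < mK := lt_min hρK hb₀p
  have hmL0 : 0 < mL := lt_min hρL hb₀p
  have near : ∀ (M : Type) [Field M] [NumberField M] (ρ : ℝ), 0 < ρ →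
      (ρ ≤ b₀ → |Pz M ρ - Pz M b₀| ≤ B₀) → |Pz M (min ρ b₀) - Pz M b₀| ≤ B := by
    intro M _ _ ρ _ h
    rcases le_total ρ b₀ with h1 | h1
    · rw [min_eq_left h1]; exact (h h1).trans hBB
    · rw [min_eq_right h1, sub_self, abs_zero]; exact hB
  have nL := near L ρL hρL fun h => (hzL ρL b₀ hρL h le_rfl).1 le_rfl
  have nK := near K ρK hρK fun h => (hzK ρK b₀ hρK h le_rfl).1 le_rfl
  have lL := ((hzL mL mL hmL0 le_rfl (min_le_right _ _)).2.1 (min_le_left _ _)).2
  have lK := (hzK mK mK hmK0 le_rfl (min_le_right _ _)).2.2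
  have key : mK / T ^ 3 ≤ mL := by
    by_contra hcon
    rw [not_le] at hcon
    have h3 : mK / T ^ 3 ≤ mK := div_le_self hmK0.le (one_le_pow₀ hT1)
    have hρ : ρL < mK / T ^ 3 := by
      rcases le_total ρL b₀ with h1 | h1
      · rwa [hmL, min_eq_left h1] at hcon
      · rw [hmL, min_eq_right h1] at hcon
        linarith [min_le_right ρK b₀]
    obtain ⟨k, hk, hp⟩ := pigeon (fun _ : Unit => ρH) hmK0 hT1
    rw [Fintype.card_unit] at hk
    set b : ℝ := mK / T ^ k with hb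
    set a : ℝ := mK / T ^ (k + 1) with ha
    have ha0 : 0 < a := by positivity
    have hab : a ≤ b := div_le_div_of_nonneg_left hmK0.le (by positivity)
      (pow_le_pow_right₀ hT1 (Nat.le_succ k))
    have hb1 : b ≤ mK := div_le_self hmK0.le (one_le_pow₀ hT1)
    have hb2 : b ≤ b₀ := hb1.trans (min_le_right _ _)
    have ha1 : mK / T ^ 3 ≤ a := div_le_div_of_nonneg_left hmK0.le (by positivity)
      (pow_le_pow_right₀ hT1 (by omega))
    have hlog : Real.log (b / a) = τ := by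
      have : b / a = T := by
        rw [hb, ha, pow_succ]
        field_simp
      rw [this, hT, Real.log_exp]
    have h1 : τ - B ≤ dP a b G₀ := by
      have := ((hzK a b ha0 hab hb2).2.1 (hb1.trans (min_le_left _ _))).1
      rw [hlog, abs_le] at this
      rw [dP, ← Pz_congr eK, ← Pz_congr eK]
      linarith [this.1]
    have h2 : dP a b H₀ ≤ B := by
      have := (hzL a b ha0 hab hb2).1 (hρ.le.trans ha1)
      rw [abs_le] at this
      rw [dP, ← Pz_congr eL, ← Pz_congr eL]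
      linarith [this.2]
    have h4 : dP a b H₁ ≤ τ + B := by
      rcases hp () with h | h
      · have := (hzH a b ha0 hab hb2).1 h
        rw [abs_le] at this
        rw [dP]
        linarith [this.2]
      · have := ((hzH a b ha0 hab hb2).2.1 h).1
        rw [hlog, abs_le] at this
        rw [dP]
        linarith [this.2]
    have e3 := ineqP hE hΔ0 hfr ha0 hab {G₀} (H₁ ::ₘ H₀ ::ₘ {H₀}) fun φ => by
      simpa using cnt_le G₀ H₀ H₁ s hG φ
    simp only [Multiset.map_singleton, Multiset.sum_singleton, Multiset.map_cons,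
      Multiset.sum_cons, Multiset.card_singleton, Nat.cast_one, one_mul] at e3
    have e5 : b * Real.log Δ ≤ 1 := by
      calc b * Real.log Δ ≤ 1 / Lg * Lg :=
            mul_le_mul (hb2.trans (by rw [hb₀]; gcongr)) (by linarith) hΔn (by positivity)
        _ = 1 := by field_simp
    have e6 : (d : ℝ) ^ 2 * (b * Real.log Δ) ≤ d ^ 2 := mul_le_of_le_one_right (by positivity) e5
    have c0 : (Nat.card G₀ : ℝ) ≤ d := Nat.cast_le.2 ((card_le_rank G₀).trans hE)
    have c1 : (Nat.card H₀ : ℝ) ≤ d := Nat.cast_le.2 ((card_le_rank H₀).trans hE)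
    have c2 : (Nat.card H₁ : ℝ) + 1 ≤ Nat.card G₀ := by exact_mod_cast hcd
    have p0 : (0 : ℝ) ≤ Nat.card G₀ := Nat.cast_nonneg _
    have p1 : (0 : ℝ) ≤ Nat.card H₀ := Nat.cast_nonneg _
    have p2 : (0 : ℝ) ≤ Nat.card H₁ := Nat.cast_nonneg _
    have f0 := mul_le_mul_of_nonneg_left h1 p0
    have f1 := mul_le_mul_of_nonneg_left h2 p1
    have f2 := mul_le_mul_of_nonneg_left h4 p2
    have f3 := mul_le_mul_of_nonneg_right c2 hτ0.le
    have f4 := mul_le_mul_of_nonneg_right c0 hB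
    have f5 := mul_le_mul_of_nonneg_right c1 hB
    have f6 := mul_le_mul_of_nonneg_right (show (Nat.card H₁ : ℝ) ≤ d by linarith) hB
    nlinarith
  have h7 := Real.log_le_log (by positivity) key
  rw [Real.log_div hmK0.ne' (by positivity), Real.log_pow, hT, Real.log_exp] at h7
  rw [abs_le] at nL nK
  push_cast at h7
  linarith [nL.1, nK.2]

end EZ

open EZ in
theorem ez_of (hZ : ZeroStmt) (hF : FrobStmt) (hM : MertStmt) : EStmt := by
  intro d A δ hδ
  obtain ⟨c₀, C₀, hc₀, hc₁, hcore⟩ := core hZ hF d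
  set C₁ : ℝ := (1 + d) * (2 + 2 ^ d) with hC₁d
  have hC₁ : 1 ≤ C₁ := one_le_mul_of_one_le_of_one_le (by simp)
    (by have : (0 : ℝ) ≤ 2 ^ d := by positivity
        linarith)
  have hl2 : 0 ≤ Real.log (2 * C₁) := Real.log_nonneg (by linarith)
  set κ : ℝ := d ^ 2 * (Real.log (2 * C₁) + A) + 2 with hκ
  have hκ0 : 0 < κ := by positivity
  obtain ⟨CM, hCM⟩ := hM.1 (d : ℝ) (c₀ * δ / κ) 1 (by positivity)
  obtain ⟨C₂, hC₂⟩ := hM.2
  refine ⟨Real.exp (C₀ + CM + d * |C₂|), max (Real.exp 1) (2 ^ δ⁻¹), Real.exp_pos _, ?_⟩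
  intro N _ _ _ r s c L K _ _ _ _ i j X x hN hr hc hcr hsr r1 c1 rc hi hj hD hL hx1 hx2
  have hX0 : 0 < X := (Real.exp_pos 1).trans_le ((le_max_left _ _).trans hD)
  have hlX : 1 ≤ Real.log X := by
    rw [Real.le_log_iff_exp_le hX0]
    exact (le_max_left _ _).trans hD
  have hX1 : 1 ≤ X := (Real.one_le_exp zero_le_one).trans ((le_max_left _ _).trans hD)
  obtain ⟨θ, hθ, hθb⟩ := small_prim L
  have hθb' : ∀ ψ : L →+* ℂ, ‖ψ θ‖ ≤ (2 + 2 ^ d) * X ^ A := fun ψ => (hθb ψ).trans (by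
    gcongr
    · norm_num
    · exact (rank_le i).trans hN)
  have hi' : ∀ y, y ∈ i.range ↔ ∀ g ∈ two r hr, g y = y := fun y => by
    rw [hi]
    exact ⟨fun h g hg => by rcases hg with rfl | rfl <;> simp [h], fun h => h r (Or.inr rfl)⟩
  have hj' : ∀ y, y ∈ j.range ↔ ∀ g ∈ four r c hr hc hcr, g y = y := fun y => by
    rw [hj]
    refine ⟨fun h g hg => ?_, fun h => ⟨h r (Or.inr (Or.inl rfl)),
      h c (Or.inr (Or.inr (Or.inl rfl)))⟩⟩
    rcases hg with hg | hg | hg | hg <;> rw [hg] <;> simp [h.1, h.2]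
  have fixL : ∀ σ : N ≃ₐ[ℚ] N, σ (i θ) = i θ → σ = 1 ∨ σ = r := by
    intro σ hσ
    have h2 : (σ : N →ₐ[ℚ] N).comp i.toRatAlgHom = i.toRatAlgHom := by
      have h3 : Algebra.adjoin ℚ {(θ : L)} = ⊤ := by
        rw [← adjoin_simple_toSubalgebra_of_isAlgebraic (Algebra.IsAlgebraic.isAlgebraic _), hθ,
          top_toSubalgebra]
      exact AlgHom.ext_of_adjoin_eq_top h3 fun y hy => by
        rw [Set.mem_singleton_iff.1 hy]; exact hσ
    have h4 : σ ∈ fixingSubgroup (fixedField (two r hr)) := by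
      rw [IntermediateField.mem_fixingSubgroup_iff]
      intro y hy
      obtain ⟨z, rfl⟩ := (hi' y).2 ((mem_fixedField_iff _ _).1 hy)
      exact DFunLike.congr_fun h2 z
    rwa [fixingSubgroup_fixedField] at h4
  obtain ⟨Θ, hΘ, hΘR⟩ := exists_theta hN (RingOfIntegers.mapRingHom i θ)
    (RingOfIntegers.mapRingHom ((s : N →+* N).comp i) θ) (fun σ h1 h2 => by
      have h3 : (s⁻¹ * σ * s) (i θ) = i θ := by
        have h4 : σ (s (i θ)) = s (i θ) := h2
        rw [AlgEquiv.mul_apply, AlgEquiv.mul_apply, h4]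
        exact s.symm_apply_apply _
      rcases fixL σ h1 with h | h
      · exact h
      rcases fixL _ h3 with h5 | h5
      · rw [mul_assoc, inv_mul_eq_one] at h5
        simpa using h5
      · rw [mul_assoc, inv_mul_eq_iff_eq_mul, hsr, h] at h5
        exact absurd (by simpa using h5) c1)
    (R := (2 + 2 ^ d) * X ^ A) (fun φ => hθb' (φ.comp i))
    (fun φ => hθb' (φ.comp ((s : N →+* N).comp i)))
  rw [show (1 + (d : ℝ)) * ((2 + 2 ^ d) * X ^ A) = C₁ * X ^ A by rw [hC₁d]; ring] at hΘR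
  have hx3 : 2 ≤ x := by
    refine le_trans ?_ hx1
    calc (2 : ℝ) = (2 ^ δ⁻¹) ^ δ := (Real.rpow_inv_rpow (by norm_num) hδ.ne').symm
      _ ≤ X ^ δ := Real.rpow_le_rpow (by positivity) ((le_max_right _ _).trans hD) hδ.le
  have hlx1 : δ * Real.log X ≤ Real.log x := by
    rw [← Real.log_rpow hX0]
    exact Real.log_le_log (by positivity) hx1
  have hlx2 : Real.log x ≤ Real.log X := Real.log_le_log (by linarith) hx2
  have hlx0 : 0 < Real.log x := Real.log_pos (by linarith)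
  have hR : 1 ≤ C₁ * X ^ A := one_le_mul_of_one_le_of_one_le hC₁ (one_le_pow₀ hX1)
  have hlR : Real.log (2 * (C₁ * X ^ A)) = Real.log (2 * C₁) + A * Real.log X := by
    rw [← mul_assoc, Real.log_mul (by positivity) (by positivity), Real.log_pow]
  set Lg : ℝ := d ^ 2 * Real.log (2 * (C₁ * X ^ A)) + Real.log X + 1 with hLg
  have h0 : 0 ≤ d ^ 2 * Real.log (2 * (C₁ * X ^ A)) :=
    mul_nonneg (by positivity) (Real.log_nonneg (by linarith))
  have hLg1 : Real.log X + 1 ≤ Lg := by linarith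
  have hLg2 : Lg ≤ κ * Real.log X := by
    rw [hLg, hlR, hκ]
    have h1 : Real.log (2 * C₁) ≤ Real.log (2 * C₁) * Real.log X := le_mul_of_one_le_right hl2 hlX
    have h2 : (0 : ℝ) ≤ d ^ 2 := by positivity
    nlinarith [mul_le_mul_of_nonneg_left h1 h2]
  have hcd : Nat.card (two c hc) < Nat.card (four r c hr hc hcr) := by
    have hle : two c hc ≤ four r c hr hc hcr := by
      rintro g (hg | hg)
      · exact Or.inl hg
      · exact Or.inr (Or.inr (Or.inl hg))
    by_contra h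
    have h1 := Subgroup.eq_of_le_of_card_ge hle (not_lt.1 h)
    have h2 : r ∈ two c hc := h1 ▸ Or.inr (Or.inl rfl)
    exact h2.elim r1 rc
  have hb3 := hcore N (four r c hr hc hcr) (two r hr) (two c hc) s Θ (C₁ * X ^ A) Lg L K i j hN
    (by
      rintro g (hg | hg | hg | hg)
      · exact Or.inl (Or.inl hg)
      · exact Or.inr (Or.inl (Or.inr hg))
      · exact Or.inl (Or.inr hg)
      · refine Or.inr (Or.inr (Or.inr ?_))
        rw [hg, mul_assoc, ← hsr, inv_mul_cancel_left])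
    hcd (nI_fix j _ hj') (nI_fix i _ hi') hR hΘ hΘR (by linarith)
  have hLg0 : 0 < Lg := by linarith
  set b : ℝ := c₀ / Lg with hb
  have hb0 : 0 < b := by positivity
  have hnL : ∀ q : ℕ, q.Prime → (nI L q : ℝ) ≤ d := fun q hq =>
    Nat.cast_le.2 ((nI_le' L hq).trans ((rank_le i).trans hN))
  have hnK : ∀ q : ℕ, q.Prime → (nI K q : ℝ) ≤ Module.finrank ℚ K := fun q hq =>
    Nat.cast_le.2 (nI_le' K hq)
  have hK : (Module.finrank ℚ K : ℝ) ≤ d := Nat.cast_le.2 ((rank_le j).trans hN)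
  have hm := hCM (fun q => (nI L q : ℝ) - nI K q) x b (fun q hq => by
      have h1 := hnL q hq
      have h2 := hnK q hq
      have h3 : (0 : ℝ) ≤ nI L q := Nat.cast_nonneg _
      have h4 : (0 : ℝ) ≤ nI K q := Nat.cast_nonneg _
      rw [abs_le]
      constructor <;> linarith) hx3
    (by
      calc c₀ * δ / κ = c₀ / (κ * Real.log X) * (δ * Real.log X) := by field_simp
        _ ≤ c₀ / Lg * Real.log x := by gcongr)
    (by
      calc b * Real.log x ≤ 1 / Lg * Lg := by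
            rw [hb]
            gcongr
            linarith
        _ = 1 := by field_simp)
  rw [psum_sub _ _ hb0, abs_le] at hm
  have kF := dedekindZeta_residue_pos K
  have kL := dedekindZeta_residue_pos L
  have hN' : (0 : ℝ) ≤ d * |C₂| := by positivity
  have main : tsumP (fun q => (nI L q : ℝ) - nI K q) x + Real.log (dedekindZeta_residue K) ≤
      C₀ + CM + Real.log (dedekindZeta_residue L) := by linarith [hm.1]
  constructor
  · rw [← Real.exp_log kF, ← Real.exp_log kL, ← Real.exp_add, ← Real.exp_add]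
    exact Real.exp_le_exp.2 (by linarith)
  · have h1 := tsumP_ge (c := fun q => (nI L q : ℝ) - nI K q) (N := Module.finrank ℚ K)
      (fun q hq => by
        have h2 := hnK q hq
        have h3 : (0 : ℝ) ≤ nI L q := Nat.cast_nonneg _
        linarith) x
    have h2 : tsumP (fun _ => 1) x ≤ Real.log (Real.log X) + |C₂| :=
      (hC₂ x hx3).trans (add_le_add (Real.log_le_log hlx0 hlx2) (le_abs_self _))
    have h3 := mul_le_mul_of_nonneg_left h2 (Nat.cast_nonneg (α := ℝ) (Module.finrank ℚ K))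
    have h4 := mul_le_mul_of_nonneg_right hK (abs_nonneg C₂)
    rw [← Real.exp_log kF, ← Real.exp_log kL, ← Real.exp_log (show 0 < Real.log X by linarith),
      ← Real.exp_nat_mul, ← Real.exp_add, ← Real.exp_add]
    exact Real.exp_le_exp.2 (by linarith)

theorem ez : EStmt := ez_of (zero (fac (zetaBd (theta_bd (pack red))))) frob mert

end Pool.Agent.Lib.MP_9177b7_ag.S4
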