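import Mathlib
import Pool.Agent.Lib.MP_9177b7_ag.S4.Defs
import Pool.Agent.Lib.MP_9177b7_ag.S4.EZ

/-!
Dihedral CM fields of degree eight and their quartic subfields.
-/

open NumberField IntermediateField
open scoped ComplexConjugate

noncomputable section

namespace Pool.Agent.Lib.MP_9177b7_ag.S4

/-- A field with an automorphism that induces complex conjugation for all embeddings is CM. -/
theorem isCM_of (M : Type) [Field M] [NumberField M] (σ : M ≃ₐ[ℚ] M) (h1 : σ ≠ 1)
    (h : ∀ (ψ : M →+* ℂ) x, ψ (σ x) = conj (ψ x)) : IsCMField M := by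
  obtain ⟨ψ₀⟩ := (inferInstance : Nonempty (M →+* ℂ))
  have hs : σ * σ = 1 := AlgEquiv.ext fun x => ψ₀.injective (by
    rw [AlgEquiv.mul_apply, h, h, Complex.conj_conj]; rfl)
  have : IsTotallyComplex M := ⟨fun w => by
    rw [← InfinitePlace.not_isReal_iff_isComplex, InfinitePlace.isReal_iff,
      ComplexEmbedding.isReal_iff]
    intro hw
    refine h1 (AlgEquiv.ext fun x => w.embedding.injective ?_)
    rw [h]
    exact RingHom.congr_fun hw x⟩
  let F := fixedField (EZ.two σ hs)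
  have : IsTotallyReal F := ⟨fun w => by
    rw [InfinitePlace.isReal_iff, ComplexEmbedding.isReal_iff]
    ext x
    have h2 := h (ComplexEmbedding.lift M w.embedding) x
    rw [(mem_fixedField_iff _ _).1 x.2 σ (Or.inr rfl)] at h2
    have h3 := ComplexEmbedding.lift_algebraMap_apply M w.embedding x
    rw [ComplexEmbedding.conjugate_coe_eq, ← h3]
    exact h2.symm⟩
  have : Algebra.IsQuadraticExtension F M := ⟨by
    rw [finrank_fixedField_eq_card]
    exact (Nat.card_coe_set_eq ({1, σ} : Set (M ≃ₐ[ℚ] M))).trans (Set.ncard_pair h1.symm)⟩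
  exact IsCMField.ofCMExtension F M

variable {N : Type} [Field N] [NumberField N]

/-- The dihedral relations; `c` is complex conjugation. -/
structure D4 (φ : N →+* ℂ) (r s c : N ≃ₐ[ℚ] N) : Prop where
  dim : Module.finrank ℚ N = 8
  rr : r * r = 1
  ss : s * s = 1
  df : c = (r * s) ^ 2
  cc : ∀ x, φ (c x) = conj (φ x)
  c1 : c ≠ 1

namespace D4

variable {φ : N →+* ℂ} {r s c : N ≃ₐ[ℚ] N} (h : D4 φ r s c)

include h

theorem c2 : c * c = 1 := AlgEquiv.ext fun x => φ.injective (by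
  rw [AlgEquiv.mul_apply, h.cc, h.cc, Complex.conj_conj]; rfl)

theorem sr : s * r = c * r * s := by
  have h1 : (r * s) * (s * r) = 1 := by rw [mul_assoc, ← mul_assoc s, h.ss, one_mul, h.rr]
  have h2 : (r * s) * (c * r * s) = 1 := by
    rw [← h.c2, h.df, mul_assoc ((r * s) ^ 2)]
    simp only [sq, mul_assoc]
  exact mul_left_cancel (h1.trans h2.symm)

theorem df' : c = (s * r) ^ 2 := by
  have h1 : c * (s * r) ^ 2 = 1 := by
    rw [h.df]
    calc (r * s) ^ 2 * (s * r) ^ 2 = r * (s * (r * (s * s) * r) * s) * r := by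
          simp only [sq, mul_assoc]
      _ = 1 := by rw [h.ss, mul_one, h.rr, mul_one, h.ss, mul_one, h.rr]
  exact mul_left_cancel (h.c2.trans h1.symm)

theorem symm : D4 φ s r c := ⟨h.dim, h.ss, h.rr, h.df', h.cc, h.c1⟩

theorem rs : r * s = c * s * r := h.symm.sr

theorem cr : c * r = r * c := by
  calc c * r = r * (s * r) ^ 2 := by rw [h.df]; simp only [sq, mul_assoc]
    _ = r * c := by rw [← h.df']

theorem cs : c * s = s * c := h.symm.cr

theorem ncomm : r * s ≠ s * r := fun e => h.c1 (by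
  rw [h.df, sq]
  nth_rw 2 [e]
  rw [mul_assoc, ← mul_assoc s, h.ss, one_mul, h.rr])

theorem r1 : r ≠ 1 := fun e => h.ncomm (by rw [e, one_mul, mul_one])

theorem s1 : s ≠ 1 := h.symm.r1

theorem rc : r ≠ c := fun e => h.ncomm (by rw [e, h.cs])

theorem sc : s ≠ c := h.symm.rc

theorem r_ne_s : r ≠ s := fun e => h.ncomm (by rw [e])

theorem cr_ne_s : c * r ≠ s := fun e => h.ncomm (by rw [← e, ← mul_assoc, ← h.cr])

theorem cr1 : c * r ≠ 1 := fun e => h.rc (mul_left_cancel (e.trans h.c2.symm))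

theorem card_four : Nat.card (EZ.four r c h.rr h.c2 h.cr) = 4 := by
  refine (Nat.card_coe_set_eq ({1, r, c, c * r} : Set (N ≃ₐ[ℚ] N))).trans ?_
  rw [Set.ncard_insert_of_notMem (by simp [h.r1.symm, h.c1.symm, h.cr1.symm]),
    Set.ncard_insert_of_notMem (by simp [h.rc, h.c1]), Set.ncard_pair (by simp [h.r1])]

theorem s_notMem : s ∉ EZ.four r c h.rr h.c2 h.cr := by
  rintro (e | e | e | e)
  exacts [h.s1 e, h.r_ne_s e.symm, h.sc e, h.cr_ne_s e.symm]

theorem index_four : (EZ.four r c h.rr h.c2 h.cr).index = 2 ∧ Nat.card (N ≃ₐ[ℚ] N) = 8 := by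
  have h1 := (EZ.four r c h.rr h.c2 h.cr).card_mul_index
  have h2 : Nat.card (N ≃ₐ[ℚ] N) ≤ 8 := by
    rw [← h.dim, Nat.card_eq_fintype_card]
    exact AlgEquiv.card_le
  have h3 : (EZ.four r c h.rr h.c2 h.cr).index ≠ 1 := fun e =>
    h.s_notMem (Subgroup.index_eq_one.1 e ▸ Subgroup.mem_top s)
  have h4 : 0 < Nat.card (N ≃ₐ[ℚ] N) := Nat.card_pos
  rw [h.card_four] at h1
  omega

theorem galois : IsGalois ℚ N := IsGalois.of_card_aut_eq_finrank ℚ N (h.index_four.2.trans h.dim.symm)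

/-- The eight elements of the group. -/
theorem words (σ : N ≃ₐ[ℚ] N) : (σ = 1 ∨ σ = r ∨ σ = c ∨ σ = c * r) ∨
    (σ = s ∨ σ = r * s ∨ σ = c * s ∨ σ = c * r * s) := by
  by_cases h1 : σ ∈ EZ.four r c h.rr h.c2 h.cr
  · exact Or.inl h1
  have h2 : σ * s ∈ EZ.four r c h.rr h.c2 h.cr :=
    (Subgroup.mul_mem_iff_of_index_two h.index_four.1).2 (iff_of_false h1 h.s_notMem)
  have e : σ = σ * s * s := by rw [mul_assoc, h.ss, mul_one]
  refine Or.inr ?_
  rcases h2 with h2 | h2 | h2 | h2 <;> rw [h2] at e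
  · exact Or.inl (by rw [e, one_mul])
  · exact Or.inr (Or.inl e)
  · exact Or.inr (Or.inr (Or.inl e))
  · exact Or.inr (Or.inr (Or.inr e))

theorem central (σ : N ≃ₐ[ℚ] N) : c * σ = σ * c := by
  have a : Commute c r := h.cr
  have b : Commute c s := h.cs
  have d : Commute c c := rfl
  rcases h.words σ with (e | e | e | e) | e | e | e | e
  exacts [e ▸ Commute.one_right c, e ▸ a, e ▸ d, e ▸ d.mul_right a, e ▸ b, e ▸ a.mul_right b,
    e ▸ d.mul_right b, e ▸ (d.mul_right a).mul_right b]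

theorem c_apply (σ : N ≃ₐ[ℚ] N) (x : N) : c (σ x) = σ (c x) :=
  DFunLike.congr_fun (h.central σ) x

theorem emb (ψ : N →+* ℂ) : ∃ σ : N ≃ₐ[ℚ] N, ∀ x, ψ x = φ (σ x) := by
  have := h.galois
  obtain ⟨σ, hσ⟩ := ComplexEmbedding.exists_comp_symm_eq_of_comp_eq (k := ℚ) φ ψ
    (Subsingleton.elim _ _)
  exact ⟨σ.symm, fun x => (RingHom.congr_fun hσ x).symm⟩

theorem cc' (ψ : N →+* ℂ) (x : N) : ψ (c x) = conj (ψ x) := by
  obtain ⟨σ, hσ⟩ := h.emb ψ
  rw [hσ, hσ, ← h.c_apply, h.cc]

theorem cmN : IsCMField N := isCM_of N c h.c1 h.cc'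

omit h in
theorem conj_map {M : Type} [Field M] [NumberField M] [IsCMField M]
    (hc : ∀ x, φ (c x) = conj (φ x)) (i : M →+* N) (x : M) :
    i (IsCMField.complexConj M x) = c (i x) :=
  φ.injective (by rw [hc]; exact IsCMField.complexEmbedding_complexConj M (φ.comp i) x)

section sub

variable {E : Type} [Field E] [NumberField E] [Algebra E N]
  (fx : ∀ x, s x = x ↔ x ∈ Set.range (algebraMap E N))

include fx

omit [NumberField E] in
theorem s_map (x : E) : s (algebraMap E N x) = algebraMap E N x := by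
  have _ := h
  exact (fx _).2 ⟨x, rfl⟩

omit [NumberField E] in
theorem fix {σ : N ≃ₐ[ℚ] N} (hσ : ∀ x : E, σ (algebraMap E N x) = algebraMap E N x) :
    σ = 1 ∨ σ = s := by
  have h4 : σ ∈ fixingSubgroup (fixedField (EZ.two s h.ss)) := by
    rw [IntermediateField.mem_fixingSubgroup_iff]
    intro y hy
    obtain ⟨z, rfl⟩ := (fx y).1 ((mem_fixedField_iff _ _).1 hy s (Or.inr rfl))
    exact hσ z
  rwa [fixingSubgroup_fixedField] at h4

theorem rank_top : Module.finrank E N = 2 := by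
  have e : Module.finrank (fixedField (EZ.two s h.ss)) N = 2 := by
    rw [finrank_fixedField_eq_card]
    exact (Nat.card_coe_set_eq ({1, s} : Set (N ≃ₐ[ℚ] N))).trans (Set.ncard_pair h.s1.symm)
  rw [← e]
  refine Algebra.finrank_eq_of_equiv_equiv (RingEquiv.ofBijective
    ((algebraMap E N).codRestrict (fixedField (EZ.two s h.ss)) fun x =>
      (mem_fixedField_iff _ _).2 ?_) ⟨fun a b e => (algebraMap E N).injective
        (congrArg Subtype.val e), fun y => ?_⟩) (RingEquiv.refl N) (RingHom.ext fun _ => rfl)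
  · rintro g (rfl | rfl)
    · rfl
    · exact h.s_map fx x
  · obtain ⟨x, hx⟩ := (fx y).1 ((mem_fixedField_iff _ _).1 y.2 s (Or.inr rfl))
    exact ⟨x, Subtype.ext hx⟩

theorem rank : Module.finrank ℚ E = 4 := by
  have := Module.finrank_mul_finrank ℚ E N
  rw [h.rank_top fx, h.dim] at this
  omega

theorem cm : IsCMField E := by
  have h1 : ∀ x : E, ∃ y : E, algebraMap E N y = c (algebraMap E N x) := fun x =>
    (fx _).1 (by rw [← h.c_apply, h.s_map fx])
  choose f hf using h1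
  have inj := (algebraMap E N).injective
  let g : E →+* E :=
    { toFun := f
      map_one' := inj (by simp [hf])
      map_mul' := fun a b => inj (by simp [hf])
      map_zero' := inj (by simp [hf])
      map_add' := fun a b => inj (by simp [hf]) }
  let σ : E ≃ₐ[ℚ] E := AlgEquiv.ofBijective g.toRatAlgHom g.toRatAlgHom.bijective
  have hσ : ∀ x, algebraMap E N (σ x) = c (algebraMap E N x) := hf
  refine isCM_of E σ (fun e => ?_) fun ψ x => ?_
  · exact (h.fix fx fun x => by rw [← hσ, e]; rfl).elim h.c1 h.sc.symm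
  · rw [← ComplexEmbedding.lift_algebraMap_apply N ψ, hσ, h.cc',
      ComplexEmbedding.lift_algebraMap_apply]

theorem rank_real [IsCMField E] : Module.finrank ℚ (maximalRealSubfield E) = 2 := by
  have := Module.finrank_mul_finrank ℚ (maximalRealSubfield E) E
  rw [Algebra.IsQuadraticExtension.finrank_eq_two (maximalRealSubfield E) E, h.rank fx] at this
  omega

theorem range_real [IsCMField E] (y : N) :
    y ∈ ((algebraMap E N).comp (algebraMap (maximalRealSubfield E) E)).range ↔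
      s y = y ∧ c y = y := by
  constructor
  · rintro ⟨x, rfl⟩
    refine ⟨h.s_map fx _, ?_⟩
    rw [RingHom.comp_apply, ← conj_map h.cc, AlgEquiv.commutes]
  · rintro ⟨h1, h2⟩
    obtain ⟨x, rfl⟩ := (fx y).1 h1
    rw [← conj_map h.cc] at h2
    exact ⟨⟨x, (IsCMField.complexConj_eq_self_iff E x).1 ((algebraMap E N).injective h2)⟩, rfl⟩

end sub

end D4

/-- Representatives of the four embeddings of the fixed field of `s`. -/
def sig4 (r c : N ≃ₐ[ℚ] N) : Fin 4 → (N ≃ₐ[ℚ] N) := ![1, r, c, c * r]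

namespace D4

variable {φ : N →+* ℂ} {r s c : N ≃ₐ[ℚ] N} (h : D4 φ r s c)
  {E : Type} [Field E] [NumberField E] [Algebra E N]
  (fx : ∀ x, s x = x ↔ x ∈ Set.range (algebraMap E N))

include h

theorem sig_mem (a : Fin 4) : sig4 r c a ∈ EZ.four r c h.rr h.c2 h.cr := by
  fin_cases a
  exacts [Or.inl rfl, Or.inr (Or.inl rfl), Or.inr (Or.inr (Or.inl rfl)),
    Or.inr (Or.inr (Or.inr rfl))]

theorem sig_inj : Function.Injective (sig4 r c) := by
  intro a b e
  have := h.r1
  have := h.c1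
  have := h.rc
  have := h.cr1
  fin_cases a <;> fin_cases b <;> simp_all [sig4, eq_comm]

include fx

theorem sig_inj' {a b : Fin 4}
    (e : ∀ x : E, sig4 r c a (algebraMap E N x) = sig4 r c b (algebraMap E N x)) : a = b := by
  have h1 := h.fix fx (σ := (sig4 r c b)⁻¹ * sig4 r c a) fun x => by
    rw [AlgEquiv.mul_apply, e]
    exact (sig4 r c b).symm_apply_apply _
  rcases h1 with h1 | h1
  · exact h.sig_inj (inv_mul_eq_one.1 h1).symm
  · have h2 := mul_mem (inv_mem (h.sig_mem b)) (h.sig_mem a)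
    rw [h1] at h2
    exact absurd h2 h.s_notMem

theorem exists_sig (σ : N ≃ₐ[ℚ] N) :
    ∃ a, ∀ x : E, σ (algebraMap E N x) = sig4 r c a (algebraMap E N x) := by
  rcases h.words σ with (e | e | e | e) | e | e | e | e <;> rw [e]
  exacts [⟨0, fun _ => rfl⟩, ⟨1, fun _ => rfl⟩, ⟨2, fun _ => rfl⟩, ⟨3, fun _ => rfl⟩,
    ⟨0, fun x => h.s_map fx x⟩, ⟨1, fun x => congrArg r (h.s_map fx x)⟩,
    ⟨2, fun x => congrArg c (h.s_map fx x)⟩, ⟨3, fun x => congrArg (c * r) (h.s_map fx x)⟩]

/-- The complex embeddings of the fixed field of `s`. -/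
def embE : Fin 4 ≃ (E →ₐ[ℚ] ℂ) :=
  Equiv.ofBijective
    (fun a => (φ.comp ((sig4 r c a : N →+* N).comp (algebraMap E N))).toRatAlgHom)
    ((Fintype.bijective_iff_injective_and_card _).2
      ⟨fun _ _ e => h.sig_inj' fx fun x => φ.injective (DFunLike.congr_fun e x), by
        rw [AlgHom.card, h.rank fx, Fintype.card_fin]⟩)

theorem embE_apply (a : Fin 4) (x : E) : h.embE fx a x = φ (sig4 r c a (algebraMap E N x)) := rfl

theorem emb_sub (ψ : E →+* ℂ) : ∃ a, ∀ x, ψ x = φ (sig4 r c a (algebraMap E N x)) := by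
  obtain ⟨a, ha⟩ := (h.embE fx).surjective ψ.toRatAlgHom
  exact ⟨a, fun x => (DFunLike.congr_fun ha x).symm⟩

theorem trace_eq (x : E) :
    ((Algebra.trace ℚ E x : ℚ) : N) = ∑ a, sig4 r c a (algebraMap E N x) := by
  refine φ.injective ?_
  rw [map_ratCast, map_sum, ← eq_ratCast (algebraMap ℚ ℂ), trace_eq_sum_embeddings ℂ,
    ← (h.embE fx).sum_comp]
  rfl

theorem norm_eq (x : E) :
    ((Algebra.norm ℚ x : ℚ) : N) = ∏ a, sig4 r c a (algebraMap E N x) := by
  refine φ.injective ?_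
  rw [map_ratCast, map_prod, ← eq_ratCast (algebraMap ℚ ℂ), Algebra.norm_eq_prod_embeddings ℚ ℂ,
    ← (h.embE fx).prod_comp]
  rfl

omit fx in
theorem rat {x : N} (h1 : r x = x) (h2 : s x = x) : ∃ q : ℚ, x = q := by
  have := h.galois
  have h3 : c x = x := by
    rw [h.df, sq]
    simp only [AlgEquiv.mul_apply, h1, h2]
  obtain ⟨q, hq⟩ := (IsGalois.mem_range_algebraMap_iff_fixed (F := ℚ) x).2 fun σ => by
    rcases h.words σ with (e | e | e | e) | e | e | e | e <;> rw [e] <;>
      simp only [AlgEquiv.mul_apply, AlgEquiv.one_apply, h1, h2, h3]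
  exact ⟨q, hq.symm⟩

omit fx in
theorem nodup : [1, r, c, c * r, s, r * s, c * s, s * r].Nodup := by
  classical
  have h1 : ([1, r, c, c * r, s, r * s, c * s, s * r] : List (N ≃ₐ[ℚ] N)).toFinset =
      Finset.univ := by
    refine Finset.eq_univ_of_forall fun σ => ?_
    rw [h.sr]
    rcases h.words σ with (e | e | e | e) | e | e | e | e <;> simp [← e]
  have h2 := congrArg Finset.card h1
  rw [Finset.card_univ, ← Nat.card_eq_fintype_card, h.index_four.2] at h2
  exact Multiset.toFinset_card_eq_card_iff_nodup.1 h2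

end D4

theorem Special.d4 {E : Type} [Field E] [NumberField E] [IsCMField E] {L : Type} [Field L]
    [NumberField L] [Algebra E N] [Algebra L N] {p : ℕ} [Fact p.Prime] {φ : N →+* ℂ}
    {r s : N ≃ₐ[ℚ] N} {ξ : E} {a : FractionalIdeal (nonZeroDivisors (𝓞 E)) E}
    (h : Special L p φ r s ξ a) : D4 φ r s ((r * s) ^ 2) :=
  ⟨h.dim, h.rr, h.ss, rfl, h.cc, fun e => by
    have h1 := congrArg Complex.im (h.cc (algebraMap E N ξ))
    rw [e, Complex.conj_im] at h1
    have h2 := h.pos₁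
    change (φ (algebraMap E N ξ)).im = _ at h1
    linarith⟩

end Pool.Agent.Lib.MP_9177b7_ag.S4
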