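import Pool.Agent.Lib.MP_9177b7_ag.S4.StC
import Pool.Agent.Lib.MP_9177b7_ag.S4.Gal4
import Pool.Agent.Lib.MP_9177b7_ag.S4.CNF4

/-!
The lower bound for the class number of the reflex field.
-/

open NumberField Pool.Agent.Shared.PrimeZeta

noncomputable section

namespace Pool.Agent.Lib.MP_9177b7_ag.S4

open B (tsumP)

theorem zd (δ : ℝ) (hδ : 0 < δ) : ∃ C X₀ : ℝ, 0 < C ∧ ∀ (p : ℕ) [Fact p.Prime] (D : Dat p)
    (_ : D.Ar) (X x : ℝ), X = (D.Dn : ℝ) * D.Dt → X₀ ≤ X → X ^ δ ≤ x → x ≤ X →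
    Units.torsionOrder D.L * classNumber D.K * √X *
        Real.exp (tsumP (fun q => (nI D.L q : ℝ) - nI D.K q) x) ≤ C * classNumber D.L ∧
      Units.torsionOrder D.L * classNumber D.K * √X ≤ C * Real.log X ^ 2 * classNumber D.L := by
  obtain ⟨C, X₀, hC, H⟩ := ez 8 3 δ hδ
  refine ⟨C * (2 * (2 * Real.pi) ^ 2), max X₀ 16, by positivity, ?_⟩
  intro p _ D A X x hX hX₀ hx1 hx2
  have h : D4 D.φ D.r D.s D.c := D.sp.d4
  have := h.galois
  have hK : Module.finrank ℚ D.K = 2 := h.symm.rank_real D.sp.fixL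
  have h16 : 16 ≤ X := (le_max_right _ _).trans hX₀
  have hn : (1 : ℝ) ≤ D.Dn := by exact_mod_cast A.Dn_gt.le
  have ht : (0 : ℝ) ≤ D.Dt := Nat.cast_nonneg _
  have ab : ∀ z : ℤ, |(z : ℝ)| = z.natAbs := fun z => by
    rw [← Int.cast_abs, ← Int.natCast_natAbs, Int.cast_natCast]
  have e1 : |(discr D.L : ℝ)| = D.Dn * |(discr D.K : ℝ)| ^ 2 := by
    rw [ab, ab, A.dL]; push_cast; ring
  have e2 : (D.Dt : ℝ) ≤ |(discr D.K : ℝ)| := by rw [ab]; exact_mod_cast A.dK_ge
  have e3 : |(discr D.K : ℝ)| ≤ 4 * D.Dt := by rw [ab]; exact_mod_cast A.dK_le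
  have e4 : |(discr D.L : ℝ)| ≤ X ^ 3 := by
    calc _ ≤ (D.Dn : ℝ) * (4 * D.Dt) ^ 2 := by rw [e1]; gcongr
      _ ≤ (D.Dn : ℝ) * D.Dn * (4 * D.Dt) ^ 2 := by
          gcongr; exact le_mul_of_one_le_right (by linarith) hn
      _ = 16 * X ^ 2 := by rw [hX]; ring
      _ ≤ X * X ^ 2 := by gcongr
      _ = X ^ 3 := by ring
  obtain ⟨z1, z2⟩ := H D.N D.r D.s D.c D.L D.K D.iL (D.iL.comp (algebraMap D.K D.L)) X x h.dim.le
    h.rr h.c2 h.cr h.sr h.r1 h.c1 h.rc (fun y => (D.sp.fixL y).symm)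
    (h.symm.range_real D.sp.fixL) ((le_max_left _ _).trans hX₀) e4 hx1 hx2
  have cn := cnf4 D.L
  rw [hK] at cn z2
  have kK := dedekindZeta_residue_pos D.K
  have kL := dedekindZeta_residue_pos D.L
  have hd : 0 < √|(discr D.K : ℝ)| :=
    Real.sqrt_pos.2 (abs_pos.2 (Int.cast_ne_zero.2 (discr_ne_zero _)))
  have e5 : √X * √|(discr D.K : ℝ)| ≤ √|(discr D.L : ℝ)| := by
    rw [← Real.sqrt_mul (by linarith), e1, hX, sq, ← mul_assoc]
    gcongr
  have key : Units.torsionOrder D.L * classNumber D.K * √X * dedekindZeta_residue D.L ≤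
      2 * (2 * Real.pi) ^ 2 * classNumber D.L * dedekindZeta_residue D.K := by
    refine le_of_mul_le_mul_right ?_ hd
    calc _ = Units.torsionOrder D.L * classNumber D.K * (√X * √|(discr D.K : ℝ)|) *
          dedekindZeta_residue D.L := by ring
      _ ≤ Units.torsionOrder D.L * classNumber D.K * √|(discr D.L : ℝ)| *
          dedekindZeta_residue D.L := by gcongr
      _ ≤ _ := cn
      _ = _ := by ring
  constructor
  · refine le_of_mul_le_mul_right ?_ kK
    calc _ = Units.torsionOrder D.L * classNumber D.K * √X *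
          (Real.exp (tsumP (fun q => (nI D.L q : ℝ) - nI D.K q) x) *
            dedekindZeta_residue D.K) := by ring
      _ ≤ Units.torsionOrder D.L * classNumber D.K * √X * (C * dedekindZeta_residue D.L) := by
          gcongr
      _ = C * (Units.torsionOrder D.L * classNumber D.K * √X * dedekindZeta_residue D.L) := by ring
      _ ≤ C * (2 * (2 * Real.pi) ^ 2 * classNumber D.L * dedekindZeta_residue D.K) := by gcongr
      _ = _ := by ring
  · refine le_of_mul_le_mul_right ?_ kL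
    calc _ ≤ 2 * (2 * Real.pi) ^ 2 * classNumber D.L * dedekindZeta_residue D.K := key
      _ ≤ 2 * (2 * Real.pi) ^ 2 * classNumber D.L *
          (C * Real.log X ^ 2 * dedekindZeta_residue D.L) := by gcongr
      _ = _ := by ring

end Pool.Agent.Lib.MP_9177b7_ag.S4
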