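import Pool.Agent.Lib.MP_9177b7_ag.S4.StD
import Pool.Agent.Lib.MP_9177b7_ag.S4.ZD
import Pool.Agent.Lib.MP_9177b7_ag.B.Count

/-!
The arithmetic estimate: assembly.
-/

open NumberField Filter Pool.Agent.Shared.PrimeZeta

noncomputable section

namespace Pool.Agent.Lib.MP_9177b7_ag.S4

theorem count (hA : AlgStmt) (hS : SumStmt) (hD : DStmt) : CountStmt := by
  classical
  intro p _ R hp
  have hp0 : (0 : ℝ) < p := by exact_mod_cast (Fact.out : p.Prime).pos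
  obtain ⟨δ, ε, C, hδ, hε, hC, h1⟩ := hD p (2 * R + 1) Fact.out hp
  obtain ⟨CZ, X₀, hCZ, hz⟩ := zd δ hδ
  refine ⟨C * (2 * CZ), fun K hK => ?_⟩
  obtain ⟨D₁, h1⟩ := h1 K hK
  have hq : 0 < (p : ℝ) ^ (-(K : ℝ) / 2) := by positivity
  obtain ⟨X₁, hX₁⟩ := eventually_atTop.1 (B.CountAux.ev_log 2 1 ε _ zero_le_one hε hq)
  refine ⟨max D₁ ⌈max X₀ X₁⌉₊, fun D hDn Sy j c₀ K₀ hK₀ => ?_⟩
  obtain ⟨⟨A⟩, -⟩ := hA p D
  obtain ⟨S, U, hM, hR, hsum⟩ := hS p D A Sy j c₀ K R K₀ hp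
  obtain ⟨x, x1, x2, x3⟩ := h1 S (hM.hD ▸ le_of_max_le_left hDn) trivial U hR
  have eX : S.X = (D.Dn : ℝ) * D.Dt := by rw [SD.X, hM.hD, hM.hDt]
  have hX : max X₀ X₁ ≤ S.X := by
    have h2 : (1 : ℝ) ≤ D.Dt := by exact_mod_cast A.Dt_gt.le
    have h3 : max X₀ X₁ ≤ (D.Dn : ℝ) := Nat.ceil_le.1 (le_of_max_le_right hDn)
    rw [eX]
    exact h3.trans (le_mul_of_one_le_right (Nat.cast_nonneg _) h2)
  obtain ⟨z1, z2⟩ := hz p D A S.X x eX (le_of_max_le_left hX) x1 x2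
  have l1 := hX₁ S.X (le_of_max_le_right hX)
  rw [one_mul] at l1
  rw [hM.ha, hM.hb] at x3
  have hL : (0 : ℝ) < classNumber D.L := by exact_mod_cast classNumber_pos D.L
  have hK0 : (0 : ℝ) < K₀ := by exact_mod_cast hK₀
  have hy : 0 ≤ S.X ^ (-ε) := Real.rpow_nonneg (by rw [eX]; positivity) _
  rw [Dat.pr, show (Fintype.card D.Cl : ℝ) = classNumber D.L from rfl, div_le_div_iff₀ hL hK0,
    mul_comm]
  refine hsum.trans ?_
  set w : ℝ := Units.torsionOrder D.L * classNumber D.K with hw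
  set q : ℝ := (p : ℝ) ^ (-(K : ℝ) / 2)
  set e : ℝ := Real.exp (B.tsumP (fun q => (nI D.L q : ℝ) - nI D.K q) x)
  have hw0 : 0 ≤ w := by positivity
  calc _ ≤ w * (C * √S.X * (e * q + S.X ^ (-ε))) := by gcongr
    _ = C * (w * √S.X * e * q + w * √S.X * S.X ^ (-ε)) := by ring
    _ ≤ C * (CZ * classNumber D.L * q +
        CZ * Real.log S.X ^ 2 * classNumber D.L * S.X ^ (-ε)) := by gcongr
    _ = C * (CZ * classNumber D.L * q +
        CZ * classNumber D.L * (Real.log S.X ^ 2 * S.X ^ (-ε))) := by ring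
    _ ≤ C * (CZ * classNumber D.L * q + CZ * classNumber D.L * q) := by gcongr
    _ = _ := by ring

end Pool.Agent.Lib.MP_9177b7_ag.S4
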