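import Pool.Agent.Lib.MP_9177b7_ag.S4.StC

/-!
The fibres of the invariants.
-/

open NumberField Matrix FractionalIdeal IsCMField
open scoped nonZeroDivisors

noncomputable section

namespace Pool.Agent.Lib.MP_9177b7_ag.S4

namespace FibAux

section cm

variable {L : Type} [Field L] [NumberField L] [IsCMField L]

theorem h90 (u : L) (hu : u * complexConj L u = 1) :
    ∃ v : 𝓞 L, v ≠ 0 ∧ complexConj L (v : L) = u * v := by
  have : ∃ z : L, z ≠ 0 ∧ complexConj L z = u * z := by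
    by_cases h : u = -1
    · obtain ⟨y, hy⟩ : ∃ y, complexConj L y ≠ y := by
        by_contra! h'
        exact complexConj_ne_one L (AlgEquiv.ext h')
      refine ⟨y - complexConj L y, sub_ne_zero.2 hy.symm, ?_⟩
      rw [h, map_sub, complexConj_apply_apply]; ring
    · refine ⟨1 + complexConj L u, fun e => h ?_, ?_⟩
      · linear_combination u * e - hu
      · rw [map_add, map_one, complexConj_apply_apply]; linear_combination -hu
  obtain ⟨z, hz, h⟩ := this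
  obtain ⟨a, b, hb, rfl⟩ := IsFractionRing.div_surjective (A := 𝓞 L) z
  have b0 : (b : L) ≠ 0 := by
    simpa using nonZeroDivisors.ne_zero hb
  have b1 : complexConj L (b : L) ≠ 0 := (_root_.map_ne_zero _).2 b0
  have a0 : (a : L) ≠ 0 := fun e => hz (by
    change (a : L) / b = 0
    rw [e, zero_div])
  refine ⟨a * ringOfIntegersComplexConj L b, fun e => ?_, ?_⟩
  · have := congrArg (fun x : 𝓞 L => (x : L)) e
    simp only [map_mul, map_zero] at this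
    exact mul_ne_zero a0 b1 this
  · change complexConj L ((a : L) / b) = u * ((a : L) / b) at h
    change complexConj L ((a : L) * complexConj L (b : L)) = u * ((a : L) * complexConj L (b : L))
    rw [map_div₀] at h
    rw [map_mul, complexConj_apply_apply]
    field_simp at h
    linear_combination h

theorem tors (x y : L) (hx : x ≠ 0) (h1 : spanSingleton (𝓞 L)⁰ x = spanSingleton (𝓞 L)⁰ y)
    (h2 : x * complexConj L x = y * complexConj L y) :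
    ∃ ζ : Units.torsion L, y = ((ζ : (𝓞 L)ˣ) : L) * x := by
  obtain ⟨ζ, rfl⟩ := spanSingleton_eq_spanSingleton.1 h1
  refine ⟨⟨ζ, (Units.mem_torsion L).2 fun w => ?_⟩, rfl⟩
  have h3 := congrArg w h2
  change _ = w (((ζ : L) * x) * complexConj L ((ζ : L) * x)) at h3
  rw [map_mul, map_mul, infinitePlace_complexConj, infinitePlace_complexConj, map_mul] at h3
  have h4 : 0 < w x := w.pos_iff.2 hx
  have h5 : w ζ ^ 2 = 1 := by
    have : w x ^ 2 * (w ζ ^ 2 - 1) = 0 := by linear_combination -h3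
    rcases mul_eq_zero.1 this with h | h
    · exact absurd h (by positivity)
    · linarith
  exact (pow_eq_one_iff_of_nonneg (apply_nonneg w _) two_ne_zero).1 h5

omit [IsCMField L] in
theorem int_dvd {e : ℕ} {t : ℤ} (he : Squarefree e) (h : (e : 𝓞 L) ∣ (t : 𝓞 L) ^ 2) :
    (e : ℤ) ∣ t := by
  have h1 := map_dvd (Algebra.norm ℤ) h
  have a : (e : 𝓞 L) = algebraMap ℤ (𝓞 L) e := by simp
  have b : (t : 𝓞 L) ^ 2 = algebraMap ℤ (𝓞 L) (t ^ 2) := by simp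
  have n : Module.finrank ℤ (𝓞 L) ≠ 0 := Module.finrank_pos.ne'
  rw [a, b, Algebra.norm_algebraMap, Algebra.norm_algebraMap, ← pow_mul] at h1
  exact ((Int.squarefree_natCast.2 he).dvd_pow_iff_dvd (mul_ne_zero two_ne_zero n)).1
    ((dvd_pow_self _ n).trans h1)

end cm

variable {p : ℕ} [Fact p.Prime] (D : Dat p)

theorem PP_apply (e : Fin 4 → D.E) (P : M4 ℤ) (a b : Fin 4) :
    D.PP e P a b = ∑ i, ∑ j, (P i j : D.N) * D.em a (e i) * D.em b (e j) := by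
  simp only [Dat.PP, Dat.Em, Matrix.mul_apply, Matrix.transpose_apply, Matrix.of_apply,
    Matrix.map_apply, Finset.sum_mul]
  rw [Finset.sum_comm]
  exact Finset.sum_congr rfl fun i _ => Finset.sum_congr rfl fun j _ => by ring

theorem PP_gal (e : Fin 4 → D.E) (P : M4 ℤ) (σ : D.N ≃ₐ[ℚ] D.N) (π : Fin 4 → Fin 4)
    (h : ∀ i x, σ (D.em i x) = D.em (π i) x) (a b : Fin 4) :
    σ (D.PP e P a b) = D.PP e P (π a) (π b) := by
  simp only [PP_apply, map_sum, map_mul, map_intCast, h]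

theorem PP_skew (e : Fin 4 → D.E) {P : M4 ℤ} (h : Pᵀ = -P) (a b : Fin 4) :
    D.PP e P b a = -D.PP e P a b := by
  rw [PP_apply, PP_apply, Finset.sum_comm, ← Finset.sum_neg_distrib]
  refine Finset.sum_congr rfl fun i _ => ?_
  rw [← Finset.sum_neg_distrib]
  refine Finset.sum_congr rfl fun j _ => ?_
  have : P j i = -P i j := congrFun (congrFun h i) j
  rw [this]
  push_cast
  ring

theorem PP_diag (e : Fin 4 → D.E) {P : M4 ℤ} (h : Pᵀ = -P) (a : Fin 4) : D.PP e P a a = 0 := by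
  have := PP_skew D e h a a
  linear_combination (1 / 2 : D.N) * this

/-- The projector attached to a bivector. -/
def piE (ξ : D.E) (e : Fin 4 → D.E) (P : M4 ℤ) (x : D.E) : D.E :=
  ∑ i, ∑ j, (P i j : D.E) * (Algebra.trace ℚ D.E (ξ * x * D.bE (e j)) : ℚ) * e i

theorem piE_mem (hF : FrameStmt) {ξ : D.E} {a : D.FE} {e : Fin 4 → D.E} (hξ : D.bE ξ = -ξ)
    (h : Frame ξ a e) (P : M4 ℤ) {x : D.E} (hx : x ∈ a) : piE D ξ e P x ∈ a := by
  obtain ⟨-, -, f1, -, -, f2, -⟩ := (hF p D).1 ξ a e hξ h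
  choose n hn using fun j => (f2 x).1 hx (e j) (f1 j)
  refine (h.2 _).2 ⟨fun i => ∑ j, P i j * n j, Finset.sum_congr rfl fun i _ => ?_⟩
  simp only [hn]
  push_cast
  rw [Finset.sum_mul]

theorem piE_eq (hG : GalStmt) (ξ : D.E) (e : Fin 4 → D.E) (P : M4 ℤ) (x : D.E) :
    D.iE (piE D ξ e P x) = ∑ l, D.em l ξ * D.em l x * D.PP e P 0 (l + 2) := by
  obtain ⟨-, -, -, -, -, -, -, -, -, -, g1, g2, -, -, -, g3, -⟩ := hG p D
  simp only [piE, map_sum, map_mul, map_intCast, map_ratCast, g3, PP_apply, (g2 _ _).1,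
    Finset.mul_sum, Finset.sum_mul, ← (g1 _).1]
  rw [Finset.sum_comm (γ := Fin 4) (f := fun l i => ∑ j, D.em l ξ * D.em l x * _)]
  refine Finset.sum_congr rfl fun i _ => ?_
  rw [Finset.sum_comm]
  exact Finset.sum_congr rfl fun l _ => Finset.sum_congr rfl fun j _ => by ring

theorem PP_inj (hG : GalStmt) (hF : FrameStmt) {ξ : D.E} {a : D.FE} {e : Fin 4 → D.E}
    (hξ : D.bE ξ = -ξ) (h : Frame ξ a e) {P Q : M4 ℤ} (hP : Pᵀ = -P) (hQ : Qᵀ = -Q)
    (h02 : D.PP e P 0 2 = D.PP e Q 0 2) (h23 : D.PP e P 2 3 = D.PP e Q 2 3) : P = Q := by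
  obtain ⟨-, -, -, -, -, -, -, -, -, -, -, g2, -⟩ := hG p D
  obtain ⟨-, -, -, -, -, -, f1, -⟩ := (hF p D).1 ξ a e hξ h
  have c := fun P => PP_gal D e P D.c (· + 2) fun i x => (g2 i x).2.1
  have r := fun P => PP_gal D e P D.r _ fun i x => (g2 i x).2.2.1
  have s := fun P => PP_gal D e P D.s _ fun i x => (g2 i x).2.2.2
  have h13 : D.PP e P 1 3 = D.PP e Q 1 3 := (r P 0 2).symm.trans (h02 ▸ r Q 0 2)
  have h01 : D.PP e P 0 1 = D.PP e Q 0 1 := (c P 2 3).symm.trans (h23 ▸ c Q 2 3)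
  have h21 : D.PP e P 2 1 = D.PP e Q 2 1 := (s P 2 3).symm.trans (h23 ▸ s Q 2 3)
  have h03 : D.PP e P 0 3 = D.PP e Q 0 3 := (s P 0 1).symm.trans (h01 ▸ s Q 0 1)
  have sw : ∀ a b, D.PP e P a b = D.PP e Q a b → D.PP e P b a = D.PP e Q b a := fun a b h => by
    rw [PP_skew D e hP, h, PP_skew D e hQ a b]
  have dg : ∀ a, D.PP e P a a = D.PP e Q a a := fun a => by rw [PP_diag D e hP, PP_diag D e hQ]
  have all : D.PP e P = D.PP e Q := by
    ext a b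
    fin_cases a <;> fin_cases b
    exacts [dg _, h01, h02, h03, sw _ _ h01, dg _, sw _ _ h21, h13, sw _ _ h02, h21, dg _, h23,
      sw _ _ h03, sw _ _ h13, sw _ _ h23, dg _]
  have dJ : (J4 D.N).det ≠ 0 := by
    have e : J4 D.N * J4 D.N = -1 := by
      ext i j
      fin_cases i <;> fin_cases j <;> simp [J4, Matrix.mul_apply, Fin.sum_univ_four]
    intro h0
    have := congrArg Matrix.det e
    rw [Matrix.det_mul, h0, Matrix.det_neg] at this
    norm_num at this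
  have dE : IsUnit (D.Em e).det := by
    refine isUnit_iff_ne_zero.2 fun h0 => dJ ?_
    rw [← f1, Matrix.det_mul, h0, mul_zero]
  have uE : IsUnit (D.Em e) := (Matrix.isUnit_iff_isUnit_det _).2 dE
  have uT : IsUnit (D.Em e)ᵀ := (Matrix.isUnit_iff_isUnit_det _).2 (by rwa [Matrix.det_transpose])
  have := uE.mul_left_cancel (uT.mul_right_cancel all)
  ext i j
  exact Int.cast_injective (α := D.N) (congrFun (congrFun this i) j)

variable {D} (A : D.Ar)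

theorem w_ne : D.iE A.w ≠ 0 := by
  rw [_root_.map_ne_zero]
  intro h
  have h1 : (A.w : D.E) ^ 2 = D.Dn := by exact_mod_cast congrArg (fun x : 𝓞 D.E => (x : D.E)) A.w_sq
  rw [h] at h1
  have : D.Dn = 0 := by exact_mod_cast (h1.symm.trans (by norm_num) : (D.Dn : D.E) = 0)
  have := A.Dn_gt
  omega

theorem nu_ne (t k : ℤ) : A.nu t k ≠ 0 := by
  intro h
  have h1 : (A.nn t k : D.K) = A.dl t * (A.θ : D.K) := by
    unfold Dat.Ar.nu at h
    linear_combination 2 * h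
  have h2 : (A.nn t k : D.N) = A.dl t * D.iK A.θ := by
    have := congrArg D.iK h1
    simpa [Dat.iK] using this
  have h3 := congrArg D.s h2
  rw [map_mul, map_intCast, map_intCast, A.θ_s] at h3
  have h4 : (A.dl t : D.N) * D.iK A.θ = 0 := by linear_combination (1 / 2 : D.N) * (h3 - h2)
  rcases mul_eq_zero.1 h4 with h5 | h5
  · have h6 : A.dl t = 0 := by exact_mod_cast h5
    have h7 : (D.Dn : ℤ) = (2 * t + 1) * (2 * t + 1) := by
      unfold Dat.Ar.dl at h6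
      linear_combination A.hd₀ + 4 * h6
    have h8 : Squarefree (D.Dn : ℤ) := Int.squarefree_natCast.2 (Squarefree.of_mul_left A.sqf)
    have h9 := A.Dn_gt
    rcases Int.isUnit_iff.1 (h8 _ h7.symm.dvd) with h | h <;>
      rw [h] at h7 <;> omega
  · have h6 : (A.θ : D.K) = 0 := by simpa [Dat.iK] using h5
    have h7 : (A.θ : D.K) ^ 2 = D.Dt := by
      exact_mod_cast congrArg (fun x : 𝓞 D.K => (x : D.K)) A.θ_sq
    rw [h6] at h7
    have : D.Dt = 0 := by exact_mod_cast (h7.symm.trans (by norm_num) : (D.Dt : D.K) = 0)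
    have := A.Dt_gt
    omega

theorem rel_finite (t k : ℤ) : {g | A.Rel t k g}.Finite := by
  rcases Set.eq_empty_or_nonempty {g | A.Rel t k g} with h | ⟨g₀, ν, h₀, h₁⟩
  · rw [h]; exact Set.finite_empty
  have h2 : Ideal.span {algebraMap (𝓞 D.K) (𝓞 D.L) ν} ≠ 0 := by
    rw [Ne, Submodule.zero_eq_bot, Ideal.span_singleton_eq_bot,
      map_eq_zero_iff _ (FaithfulSMul.algebraMap_injective _ _)]
    rintro rfl
    exact nu_ne A t k h₀.symm
  refine Set.Finite.subset (s := {x | x ∣ Ideal.span {algebraMap (𝓞 D.K) (𝓞 D.L) ν}})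
    (UniqueFactorizationMonoid.fintypeSubtypeDvd _ h2).finite ?_
  rintro g ⟨ν', e1, e2⟩
  obtain rfl : ν' = ν := RingOfIntegers.ext (e1.trans h₀.symm)
  exact ⟨_, by rw [← e2, mul_assoc]⟩

variable {A} {j : D.FL} {b b₀ : Ideal (𝓞 D.L)} {e e₀ : Fin 4 → D.E} {P P₀ : M4 ℤ} {t k : ℤ}
  {γ γ₀ : D.L} {g : Ideal (𝓞 D.L)}

theorem gam_ne (hF : FrameStmt) (h : A.Inv j b e P t k γ g) : γ ≠ 0 := by
  rintro rfl
  obtain ⟨e', he'⟩ := D.sp.frame
  have a0 := ((hF p D).1 _ _ _ D.sp.imag he').1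
  have h1 := h.nrm
  rw [mul_zero, zero_mul, eq_comm, mul_eq_zero] at h1
  rcases h1 with h1 | h1
  · exact a0 (absNorm_eq_zero_iff.1 (by exact_mod_cast h1))
  · exact nu_ne A t k (by exact_mod_cast h1)

theorem cmp_nrm (h : A.Inv j b e P t k γ g) (h₀ : A.Inv j b₀ e₀ P₀ t k γ₀ g) :
    γ₀ * D.bL γ₀ = γ * D.bL γ := by
  have : (D.Dn : D.L) ≠ 0 := by
    have := A.Dn_gt
    exact_mod_cast (by omega : D.Dn ≠ 0)
  refine mul_left_cancel₀ this ?_
  rw [← mul_assoc, ← mul_assoc, h.nrm, h₀.nrm]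

theorem cmp_idl (hj : j ≠ 0) (h : A.Inv j b e P t k γ g) (h₀ : A.Inv j b₀ e₀ P₀ t k γ₀ g) :
    spanSingleton _ γ₀ * ((b * D.cL' b₀ : Ideal (𝓞 D.L)) : D.FL) =
      spanSingleton _ γ * ((D.cL' b * b₀ : Ideal (𝓞 D.L)) : D.FL) := by
  refine mul_left_cancel₀ hj ?_
  rw [coeIdeal_mul, coeIdeal_mul]
  calc _ = (b : D.FL) * (spanSingleton _ γ₀ * j * ((D.cL' b₀ : Ideal (𝓞 D.L)) : D.FL)) := by ring
    _ = (b₀ : D.FL) * (spanSingleton _ γ * j * ((D.cL' b : Ideal (𝓞 D.L)) : D.FL)) := by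
      rw [← h.idl, ← h₀.idl]; ring
    _ = _ := by ring

theorem piE_inv (hG : GalStmt) (hP : Pᵀ = -P) (h : A.Inv j b e P t k γ g) (x : D.E) :
    D.iE (piE D (D.xi b) e P x) = (1 / 2 + (2 * t + 1) / (2 * D.iE A.w)) * D.iE x +
      D.em 1 D.ξ * D.iE A.w * (D.s (D.iL (D.bL γ)) * D.em 1 x - D.iL (D.bL γ) * D.em 3 x) := by
  rw [piE_eq D hG]
  obtain ⟨-, -, -, -, -, -, -, -, g4, g5, g1, g2, -⟩ := hG p D
  have c := PP_gal D e P D.c (· + 2) (fun i x => (g2 i x).2.1) 2 3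
  have s := PP_gal D e P D.s _ (fun i x => (g2 i x).2.2.2) 0 1
  have h1 := congrArg D.c h.gam
  rw [map_mul, map_mul, map_natCast, c, ← g4, ← g5, A.w_bar] at h1
  have h2 := congrArg D.s h1
  rw [map_mul, map_mul, map_natCast, (D.sp.fixE _).2 ⟨_, rfl⟩] at h2
  have h3 : D.em 3 D.ξ = -D.em 1 D.ξ := by
    have := (g2 1 D.ξ).1
    rw [Dat.bE, D.sp.imag, map_neg] at this
    exact this.symm
  have h4 : D.em 0 (D.xi b) * D.PP e P 0 2 = _ := h.eta
  rw [Fin.sum_univ_four]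
  change D.em 0 _ * D.em 0 x * D.PP e P 0 2 + D.em 1 _ * D.em 1 x * D.PP e P 0 3 +
    D.em 2 _ * D.em 2 x * D.PP e P 0 0 + D.em 3 _ * D.em 3 x * D.PP e P 0 1 = _
  change _ = _ * D.s (D.PP e P 0 1) at h2
  rw [s] at h2
  change _ = _ * D.PP e P 0 3 at h2
  change _ = _ * D.PP e P 0 1 at h1
  rw [PP_diag D e hP, ← h4, map_mul (D.em 1), map_mul (D.em 3), map_natCast, map_natCast, h3,
    (g1 x).1]
  linear_combination (-D.em 1 D.ξ * D.em 1 x) * h2 + (D.em 1 D.ξ * D.em 3 x) * h1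

theorem piE_mul (hG : GalStmt) (hP : Pᵀ = -P) (hP₀ : P₀ᵀ = -P₀) (h : A.Inv j b e P t k γ g)
    (h₀ : A.Inv j b₀ e₀ P₀ t k γ₀ g) {y : D.E}
    (hy : D.iL (D.bL γ) * D.em 3 y = D.iE y * D.iL (D.bL γ₀)) (x : D.E) :
    piE D (D.xi b) e P (y * x) = y * piE D (D.xi b₀) e₀ P₀ x := by
  refine D.iE.injective ?_
  rw [map_mul, piE_inv hG hP h, piE_inv hG hP₀ h₀]
  obtain ⟨-, -, -, -, -, -, -, -, -, -, -, g2, -⟩ := hG p D
  have h1 := congrArg D.s hy
  rw [map_mul, map_mul, (g2 3 y).2.2.2, (D.sp.fixE _).2 ⟨_, rfl⟩] at h1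
  change _ * D.em 1 y = _ at h1
  simp only [map_mul]
  linear_combination (D.em 1 D.ξ * D.iE A.w) * (D.em 1 x * h1 - D.em 3 x * hy)

theorem piE_w (hG : GalStmt) (hP : Pᵀ = -P) (h : A.Inv j b e P t k γ g) (x : D.E) :
    piE D (D.xi b) e P (A.w * x) + A.w * piE D (D.xi b) e P x = (A.w + (2 * t + 1 : ℤ)) * x := by
  refine D.iE.injective ?_
  rw [map_add, map_mul, piE_inv hG hP h, piE_inv hG hP h]
  obtain ⟨-, -, -, -, -, -, -, -, g4, -, g1, -⟩ := hG p D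
  have h1 : D.em 1 A.w = -D.iE A.w := (g1 _).2.1.trans A.w_r
  have h3 : D.em 3 A.w = -D.iE A.w := by
    rw [(g1 _).2.2.2, A.w_r, map_neg, ← g4, A.w_bar]
  have h0 := w_ne A
  simp only [map_mul, map_add, map_intCast, h1, h3]
  push_cast
  field_simp
  ring

theorem cL_cL (hG : GalStmt) (hN : NrmStmt) (b : Ideal (𝓞 D.L)) : D.cL' (D.cL' b) = b := by
  obtain ⟨-, -, g, -⟩ := hG p D
  obtain ⟨-, -, -, n1, -, n2, n3, -, -, n4, -⟩ := hN p D
  refine n1 ?_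
  rw [← (n4 _).2, ← (n4 _).2, ← n2, g, n3]

theorem cL_ne (hG : GalStmt) (hN : NrmStmt) (hb : b ≠ ⊥) : D.cL' b ≠ ⊥ := fun h => hb <| by
  rw [← cL_cL hG hN b, h, Dat.cL', Ideal.map_bot]

theorem Df_ne {n : ℕ} (hn : n ∣ D.Dn) : A.Df ⊔ Ideal.span {(n : 𝓞 D.L)} ≠ ⊥ := fun h => by
  have h1 := (A.nE_amb n hn).1
  rw [h, Ideal.absNorm_bot] at h1
  have := A.Dn_gt
  rw [← h1, zero_dvd_iff] at hn
  omega

theorem dvd_t (hG : GalStmt) (hN : NrmStmt) (hF : FrameStmt) (hb : b ≠ ⊥) (hb₀ : b₀ ≠ ⊥)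
    (he : Frame (D.xi b) (D.tw b) e) (he₀ : Frame (D.xi b₀) (D.tw b₀) e₀)
    (hP : Pᵀ = -P) (hP₀ : P₀ᵀ = -P₀) (h : A.Inv j b e P t k γ g)
    (h₀ : A.Inv j b₀ e₀ P₀ t k γ₀ g) {v : 𝓞 D.L} (v0 : v ≠ 0) (hv : D.bL v * γ₀ = γ * v)
    {f : Ideal (𝓞 D.K)} {n : ℕ} (hn : n ∣ D.Dn)
    (hf : D.xK f = Ideal.span {v} * (b * D.cL' b₀) * (A.Df ⊔ Ideal.span {(n : 𝓞 D.L)})) :
    (n : ℤ) ∣ 2 * t + 1 := by
  have x1 := ((hF p D).2 b hb).1
  have x0 := ((hF p D).2 b₀ hb₀).1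
  have t1 := ((hF p D).1 _ _ _ x1 he).1
  have t0 := ((hF p D).1 _ _ _ x0 he₀).1
  have f0 : f ≠ ⊥ := by
    rintro rfl
    rw [Dat.xK, Ideal.map_bot] at hf
    exact mul_ne_zero (mul_ne_zero (by simpa using v0) (mul_ne_zero hb (cL_ne hG hN hb₀)))
      (Df_ne hn) hf.symm
  obtain ⟨-, -, -, -, g3, -, -, -, -, g5, g1, -⟩ := hG p D
  obtain ⟨-, n1, -, -, -, -, -, -, -, -, n2, -, -, -, n3, n4⟩ := hN p D
  obtain ⟨y, y1, y2, y3⟩ := n3 v
  set m := Ideal.absNorm (Ideal.relNorm (𝓞 D.K) b₀) with hm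
  have e0 : D.nE' b₀ * D.nE' (D.cL' b₀) = Ideal.span {(m : 𝓞 D.E)} := by rw [← n2, ← n1, n4]
  have e1 : Ideal.span {(Ideal.absNorm f : 𝓞 D.E)} = Ideal.span {y} *
      (D.nE' b * D.nE' (D.cL' b₀)) * Ideal.span {A.w, (n : 𝓞 D.E)} := by
    rw [← n4, hf, n2, n2, n2, y2, (A.nE_amb n hn).2]
  have F0 : (Ideal.absNorm f : D.E) ≠ 0 := by
    rw [Nat.cast_ne_zero, Ne, Ideal.absNorm_eq_zero_iff]
    exact f0
  have M1 : ((D.nE' b : Ideal (𝓞 D.E)) : D.FE) ≠ 0 := fun h => t1 (by rw [Dat.tw, h]; simp)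
  have M0 : ((D.nE' b₀ : Ideal (𝓞 D.E)) : D.FE) ≠ 0 := fun h => t0 (by rw [Dat.tw, h]; simp)
  set W : D.FE := ((Ideal.span {A.w, (n : 𝓞 D.E)} : Ideal (𝓞 D.E)) : D.FE) with hW
  set y' : D.E := y * m / Ideal.absNorm f with hy'
  have key : spanSingleton _ y' * (W * D.tw b₀) = D.tw b := by
    have a0 := congrArg (fun I : Ideal (𝓞 D.E) => (I : D.FE)) e0
    have a1 := congrArg (fun I : Ideal (𝓞 D.E) => (I : D.FE)) e1
    simp only [coeIdeal_mul, coeIdeal_span_singleton, map_natCast] at a0 a1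
    refine mul_left_cancel₀ (spanSingleton_ne_zero_iff.2 F0) ?_
    rw [← mul_assoc, spanSingleton_mul_spanSingleton, hy', mul_div_cancel₀ _ F0,
      ← spanSingleton_mul_spanSingleton, ← a0, a1, Dat.tw, Dat.tw, ← hW]
    field_simp
  have y0 : y' ≠ 0 := by
    intro e
    rw [e, spanSingleton_zero, zero_mul] at key
    exact t1 key.symm
  have hy : D.iL (D.bL γ) * D.em 3 y' = D.iE y' * D.iL (D.bL γ₀) := by
    have r1 : D.r (D.iL v) = D.iL v := (D.sp.fixL _).2 ⟨_, rfl⟩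
    have a1 : D.c (D.r (D.s (D.iL v))) = D.s (D.iL v) := by
      have := congrArg (fun σ : D.N ≃ₐ[ℚ] D.N => σ (D.iL v)) g3
      simp only [AlgEquiv.mul_apply, r1] at this
      exact this.symm
    have a2 : D.em 3 y = D.iL (D.bL v) * D.s (D.iL v) := by
      rw [(g1 _).2.2.2, y1, map_mul, map_mul, r1, a1, g5]
    have a3 := congrArg (fun x => D.iL (D.bL x)) hv
    simp only [Dat.bL, map_mul, complexConj_apply_apply] at a3
    simp only [hy', map_div₀, map_mul, map_natCast, a2, y1]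
    linear_combination (-D.s (D.iL v) * m / Ideal.absNorm f) * a3
  have pW : ∀ x ∈ W * D.tw b₀, piE D (D.xi b₀) e₀ P₀ x ∈ W * D.tw b₀ := fun x hx => by
    have a1 : y' * x ∈ D.tw b := key ▸ mul_mem_mul (mem_spanSingleton_self _ _) hx
    have a2 := piE_mem D hF x1 he P a1
    rw [piE_mul hG hP hP₀ h h₀ hy, ← key] at a2
    obtain ⟨z, z1, z2⟩ := mem_singleton_mul.1 a2
    rwa [mul_left_cancel₀ y0 z2]
  have wW : (A.w : D.E) ∈ W := mem_coeIdeal_of_mem _ (Ideal.subset_span (by simp))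
  have le : spanSingleton _ ((A.w : D.E) + (2 * t + 1 : ℤ)) * D.tw b₀ ≤ W * D.tw b₀ := by
    intro z hz
    obtain ⟨x, hx, rfl⟩ := mem_singleton_mul.1 hz
    rw [← piE_w hG hP₀ h₀]
    exact Submodule.add_mem _ (pW _ (mul_mem_mul wW hx))
      (mul_mem_mul wW (piE_mem D hF x0 he₀ P₀ hx))
  have le' := mul_le_mul_left le (D.tw b₀)⁻¹
  rw [mul_inv_cancel_right₀ t0, mul_inv_cancel_right₀ t0, spanSingleton_le_iff_mem, hW,
    mem_coeIdeal] at le'
  obtain ⟨z, z1, z2⟩ := le'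
  obtain rfl : z = A.w + (2 * t + 1 : ℤ) := RingOfIntegers.ext (z2.trans (by
    rw [RingOfIntegers.coe_eq_algebraMap, RingOfIntegers.coe_eq_algebraMap, map_add, map_intCast]))
  obtain ⟨α, β, hα⟩ := Ideal.mem_span_pair.1 z1
  obtain ⟨n', hn'⟩ := hn
  refine int_dvd (L := D.E) ((Squarefree.of_mul_left A.sqf).squarefree_of_dvd ⟨n', hn'⟩)
    ⟨(α - 1) ^ 2 * n' + 2 * (α - 1) * A.w * β + β ^ 2 * n, ?_⟩
  have a1 := A.w_sq
  rw [hn', Nat.cast_mul] at a1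
  have a2 : ((2 * t + 1 : ℤ) : 𝓞 D.E) = (α - 1) * A.w + β * n := by linear_combination -hα
  rw [a2]
  linear_combination (α - 1) ^ 2 * a1

theorem amb_of (hG : GalStmt) (hN : NrmStmt) (hF : FrameStmt) (hj : j ≠ 0) (hb : b ≠ ⊥)
    (hb₀ : b₀ ≠ ⊥) (he : Frame (D.xi b) (D.tw b) e) (he₀ : Frame (D.xi b₀) (D.tw b₀) e₀)
    (hP : Pᵀ = -P) (hP₀ : P₀ᵀ = -P₀) (h : A.Inv j b e P t k γ g)
    (h₀ : A.Inv j b₀ e₀ P₀ t k γ₀ g) :
    ∃ (f : (Ideal (𝓞 D.K))⁰) (n : ℕ) (v : 𝓞 D.L), n ∣ D.Dn ∧ (n : ℤ) ∣ 2 * t + 1 ∧ v ≠ 0 ∧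
      D.xK f = Ideal.span {v} * (b * D.cL' b₀) * (A.Df ⊔ Ideal.span {(n : 𝓞 D.L)}) := by
  have g0 := gam_ne hF h₀
  have g1 : D.bL γ₀ ≠ 0 := (_root_.map_ne_zero _).2 g0
  obtain ⟨v, v0, hv⟩ := h90 (γ / γ₀) (by
    rw [map_div₀, div_mul_div_comm, ← cmp_nrm h h₀, div_self (mul_ne_zero g0 g1)])
  have hv' : D.bL v * γ₀ = γ * v := by
    rw [Dat.bL, hv]
    field_simp
  have I0 : Ideal.span {v} * (b * D.cL' b₀) ≠ ⊥ :=
    mul_ne_zero (by simpa using v0) (mul_ne_zero hb (cL_ne hG hN hb₀))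
  obtain ⟨f, n, hn, hf⟩ := A.amb _ I0 (by
    have c := cL_cL hG hN b₀
    rw [Dat.cL', Ideal.map_mul, Ideal.map_mul, Ideal.map_span, Set.image_singleton]
    change _ * (D.cL' b * D.cL' (D.cL' b₀)) = _
    rw [c]
    refine coeIdeal_injective (K := D.L) (mul_left_cancel₀ (spanSingleton_ne_zero_iff.2 g0) ?_)
    have a := cmp_idl hj h h₀
    simp only [coeIdeal_mul (Ideal.span _), coeIdeal_span_singleton]
    rw [mul_left_comm _ (spanSingleton _ (algebraMap _ _ v)), a, ← mul_assoc, ← mul_assoc,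
      spanSingleton_mul_spanSingleton, spanSingleton_mul_spanSingleton]
    congr 2
    exact (mul_comm _ _).trans (hv'.trans (mul_comm _ _)))
  have f0 : f ≠ ⊥ := by
    rintro rfl
    rw [Dat.xK, Ideal.map_bot] at hf
    exact mul_ne_zero I0 (Df_ne hn) hf.symm
  exact ⟨⟨f, mem_nonZeroDivisors_of_ne_zero f0⟩, n, v, hn,
    dvd_t hG hN hF hb hb₀ he he₀ hP hP₀ h h₀ v0 hv' hn hf, v0, hf⟩

theorem cls_eq {f f' : (Ideal (𝓞 D.K))⁰} {b b' : (Ideal (𝓞 D.L))⁰} {v v' : 𝓞 D.L}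
    {I J : Ideal (𝓞 D.L)} (hI : I ≠ ⊥) (hJ : J ≠ ⊥) (v0 : v ≠ 0) (v1 : v' ≠ 0)
    (hf : D.xK f = Ideal.span {v} * (b * I) * J) (hf' : D.xK f' = Ideal.span {v'} * (b' * I) * J)
    (h : ClassGroup.mk0 f = ClassGroup.mk0 f') : ClassGroup.mk0 b = ClassGroup.mk0 b' := by
  obtain ⟨x, y, hx, hy, h⟩ := ClassGroup.mk0_eq_mk0_iff.1 h
  have inj := FaithfulSMul.algebraMap_injective (𝓞 D.K) (𝓞 D.L)
  have h1 := congrArg D.xK h
  simp only [Dat.xK, Ideal.map_mul, Ideal.map_span, Set.image_singleton] at h1 hf hf'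
  rw [hf, hf'] at h1
  refine ClassGroup.mk0_eq_mk0_iff.2 ⟨algebraMap _ _ x * v, algebraMap _ _ y * v',
    mul_ne_zero ((map_ne_zero_iff _ inj).2 hx) v0, mul_ne_zero ((map_ne_zero_iff _ inj).2 hy) v1,
    mul_right_cancel₀ (mul_ne_zero hI hJ) ?_⟩
  rw [← Ideal.span_singleton_mul_span_singleton, ← Ideal.span_singleton_mul_span_singleton]
  simpa only [mul_assoc] using h1

theorem P_eq (hG : GalStmt) (hF : FrameStmt) (hb : b ≠ ⊥) (he : Frame (D.xi b) (D.tw b) e)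
    (hP : Pᵀ = -P) (hP₀ : P₀ᵀ = -P₀) (h : A.Inv j b e P t k γ g) (h₀ : A.Inv j b e P₀ t k γ g) :
    P = P₀ := by
  have x1 := ((hF p D).2 b hb).1
  have x0 := ((hF p D).1 _ _ _ x1 he).2.1
  refine PP_inj D hG hF x1 he hP hP₀ ?_ ?_
  · exact mul_left_cancel₀ ((_root_.map_ne_zero (D.em 0)).2 x0) (h.eta.trans h₀.eta.symm)
  · refine mul_left_cancel₀ ?_ (h.gam.symm.trans h₀.gam)
    rw [Nat.cast_ne_zero, Ne, Ideal.absNorm_eq_zero_iff]
    exact hb

end FibAux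

open FibAux in
theorem fib (hG : GalStmt) (hN : NrmStmt) (hF : FrameStmt) : FibStmt := by
  classical
  intro p _ D A j S t k T hj hT
  choose! γ g h using fun x hx => (hT x hx).2
  have b0 : ∀ x, (S.b x : Ideal (𝓞 D.L)) ≠ ⊥ := fun x => nonZeroDivisors.ne_zero (S.b x).2
  have fin := rel_finite A t k
  have hr : A.rr t k = fin.toFinset.card := by
    rw [← Set.ncard_eq_toFinset_card _ fin]
    rfl
  rw [hr]
  refine Finset.card_le_mul_card_image_of_maps_to (f := g)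
    (fun x hx => fin.mem_toFinset.2 (h x hx).rel) _ fun g₀ _ => ?_
  set T' := T.filter fun x => g x = g₀ with hT'
  have h' : ∀ x ∈ T', x.2ᵀ = -x.2 ∧ A.Inv j (S.b x.1) (S.e x.1) x.2 t k (γ x) g₀ := fun x hx => by
    obtain ⟨a, rfl⟩ := Finset.mem_filter.1 hx
    exact ⟨(hT x a).1.skew, h x a⟩
  rcases T'.eq_empty_or_nonempty with e | ⟨q₀, hq₀⟩
  · rw [e]; exact Nat.zero_le _
  rw [mul_assoc]
  refine (Finset.card_le_mul_card_image (f := Prod.fst) T' (Units.torsionOrder D.L)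
    fun x hx => ?_).trans (Nat.mul_le_mul_left _ ?_)
  · obtain ⟨q₁, hq₁, rfl⟩ := Finset.mem_image.1 hx
    have := Fintype.ofFinite (Units.torsion D.L)
    rw [Units.torsionOrder, Nat.card_eq_fintype_card, ← Finset.card_univ]
    refine Finset.card_le_card_of_forall_subsingleton
      (fun q (ζ : Units.torsion D.L) => γ q = ((ζ : (𝓞 D.L)ˣ) : D.L) * γ q₁) (fun q hq => ?_)
      fun ζ _ q hq q' hq' => ?_
    · obtain ⟨a, e⟩ := Finset.mem_filter.1 hq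
      have a1 := (h' q a).2
      have a2 := (h' q₁ hq₁).2
      rw [e] at a1
      have a3 := cmp_idl hj a1 a2
      rw [mul_comm (D.cL' _)] at a3
      obtain ⟨ζ, hζ⟩ := tors _ _ (gam_ne hF a2) (mul_right_cancel₀ (coeIdeal_ne_zero.2
        (mul_ne_zero (b0 _) (cL_ne hG hN (b0 _)))) a3) (cmp_nrm a1 a2)
      exact ⟨ζ, Finset.mem_univ _, hζ⟩
    · obtain ⟨a, e⟩ := Finset.mem_filter.1 hq.1
      obtain ⟨a', e'⟩ := Finset.mem_filter.1 hq'.1
      have a1 := (h' q a).2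
      have a2 := (h' q' a').2
      rw [e, hq.2] at a1
      rw [e', hq'.2] at a2
      exact Prod.ext (e.trans e'.symm) (P_eq hG hF (b0 _) (S.he _) (h' q a).1 (h' q' a').1 a1 a2)
  · rw [classNumber, ← Finset.card_univ, ← Finset.card_product]
    refine Finset.card_le_card_of_forall_subsingleton
      (fun x (u : ClassGroup (𝓞 D.K) × ℕ) => ∃ (f : (Ideal (𝓞 D.K))⁰) (v : 𝓞 D.L),
        ClassGroup.mk0 f = u.1 ∧ v ≠ 0 ∧ D.xK f = Ideal.span {v} * (S.b x * D.cL' (S.b q₀.1)) *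
          (A.Df ⊔ Ideal.span {(u.2 : 𝓞 D.L)})) (fun x hx => ?_) fun u hu x hx x' hx' => ?_
    · obtain ⟨q, hq, rfl⟩ := Finset.mem_image.1 hx
      obtain ⟨f, n, v, a1, a2, a3, a4⟩ := amb_of hG hN hF hj (b0 _) (b0 _) (S.he _) (S.he _)
        (h' q hq).1 (h' q₀ hq₀).1 (h' q hq).2 (h' q₀ hq₀).2
      refine ⟨(ClassGroup.mk0 f, n), Finset.mem_product.2 ⟨Finset.mem_univ _,
        Nat.mem_divisors.2 ⟨Nat.dvd_gcd (Int.natCast_dvd.1 a2) a1, ?_⟩⟩, f, v, rfl, a3, a4⟩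
      have := A.Dn_gt
      exact (Nat.gcd_pos_of_pos_right _ (by omega)).ne'
    · obtain ⟨f, v, a1, a2, a3⟩ := hx.2
      obtain ⟨f', v', c1, c2, c3⟩ := hx'.2
      have hn : u.2 ∣ D.Dn :=
        (Nat.dvd_of_mem_divisors (Finset.mem_product.1 hu).2).trans (Nat.gcd_dvd_right _ _)
      rw [← S.hb x, ← S.hb x']
      exact cls_eq (cL_ne hG hN (b0 _)) (Df_ne hn) a2 c2 a3 c3 (a1.trans c1.symm)

end Pool.Agent.Lib.MP_9177b7_ag.S4
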