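import Pool.Agent.Lib.MP_9177b7_ag.S4.StA

/-!
Unimodular alternating forms of rank four over the integers have a symplectic basis.
-/

open Matrix

namespace Pool.Agent.Lib.MP_9177b7_ag.S4

theorem cop_ker (a b : ℤ) : ∃ u v α β : ℤ, α * u + β * v = 1 ∧ a * u + b * v = 0 := by
  by_cases h : a = 0
  · exact ⟨1, 0, 1, 0, by simp, by simp [h]⟩
  obtain ⟨m, n, h1, h2, h3⟩ := Int.exists_gcd_one (Int.gcd_pos_of_ne_zero_left b h)
  obtain ⟨α, β, h4⟩ := Int.isCoprime_iff_gcd_eq_one.2 h1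
  refine ⟨-n, m, -β, α, by linarith, ?_⟩
  generalize (a.gcd b : ℤ) = g at h2 h3
  rw [h2, h3]; ring

theorem det_J4 (R : Type) [CommRing R] : (J4 R).det = 1 := by
  simp [J4, det_succ_row_zero, Fin.sum_univ_succ, Fin.succAbove]

theorem sympl (A : Matrix (Fin 4) (Fin 4) ℤ) (hA : Aᵀ = -A) (hd : IsUnit A.det) :
    ∃ U : Matrix (Fin 4) (Fin 4) ℤ, IsUnit U.det ∧ Uᵀ * A * U = J4 ℤ := by
  let B : (Fin 4 → ℤ) →ₗ[ℤ] (Fin 4 → ℤ) →ₗ[ℤ] ℤ := Matrix.toBilin' A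
  have hB : ∀ x y, B x y = x ⬝ᵥ A *ᵥ y := fun x y => toBilin'_apply' A x y
  have an : ∀ x y, B x y = -B y x := fun x y => by
    rw [hB, hB, dotProduct_mulVec, ← mulVec_transpose, hA, neg_mulVec, neg_dotProduct,
      dotProduct_comm]
  have al : ∀ x, B x x = 0 := fun x => by linarith [an x x]
  have sj : ∀ c, ∃ f, ∀ x, B x f = x ⬝ᵥ c := fun c => ⟨A⁻¹ *ᵥ c, fun x => by
    rw [hB, mulVec_mulVec, mul_nonsing_inv _ hd, one_mulVec]⟩
  obtain ⟨f, hf⟩ := sj ![1, 0, 0, 0]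
  obtain ⟨u, v, α, β, h1, h2⟩ := cop_ker (A 0 1) (A 0 2)
  obtain ⟨g, hg⟩ := sj ![0, α, β, 0]
  set e : Fin 4 → ℤ := ![1, 0, 0, 0] with he
  set e' : Fin 4 → ℤ := ![0, u, v, 0] with he'
  have p1 : B e f = 1 := by rw [hf]; simp [he]
  have p2 : B e' f = 0 := by rw [hf]; simp [he, he']
  have p3 : B e e' = 0 := by
    rw [hB, ← h2]; simp [he, he', mulVec, dotProduct, Fin.sum_univ_four]
  have p4 : B e' g = 1 := by rw [hg, ← h1]; simp [he', mul_comm]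
  set g' := g - B g f • e + B g e • f with hg'
  have p5 : B g' e = 0 := by simp [-zsmul_eq_mul, hg', al, an f e, p1]
  have p6 : B g' f = 0 := by simp [-zsmul_eq_mul, hg', al, p1]
  have p7 : B e' g' = 1 := by simp [-zsmul_eq_mul, hg', an e' e, p2, p3, p4]
  let c : Fin 4 → Fin 4 → ℤ := ![e, e', f, g']
  have k : (of c)ᵀᵀ * A * (of c)ᵀ = J4 ℤ := by
    have m : ∀ i j, ((of c)ᵀᵀ * A * (of c)ᵀ) i j = B (c i) (c j) := fun i j => by
      rw [hB, Matrix.mul_assoc]; rfl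
    ext i j
    rw [m]
    fin_cases i <;> fin_cases j <;>
      simp [c, J4, al, p1, p2, p3, p5, p6, p7, an e' e, an f e, an f e', an e g', an f g',
        an g' e']
  refine ⟨(of c)ᵀ, ?_, k⟩
  have := congrArg det k
  rw [det_mul, det_mul, det_J4] at this
  exact IsUnit.of_mul_eq_one_right _ this

end Pool.Agent.Lib.MP_9177b7_ag.S4
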