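import Pool.Agent.Lib.MP_9177b7_ag.S4.Defs
import Pool.Agent.Lib.MP_9177b7_ag.S4.Sympl

/-!
A fractional ideal has a symplectic frame exactly when it is self-dual for the Riemann form; twists
by an ideal `c` with `c c̄ = (n)` keep self-duality.
-/

open NumberField Matrix
open scoped nonZeroDivisors

noncomputable section

namespace Pool.Agent.Lib.MP_9177b7_ag.S4

theorem unit_of_int (A : Matrix (Fin 4) (Fin 4) ℤ)
    (h : ∀ v : Fin 4 → ℚ, (∀ j, ∃ n : ℤ, (v ᵥ* A.map (Int.castRingHom ℚ)) j = n) →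
      ∀ i, ∃ n : ℤ, v i = n) : IsUnit A.det := by
  have d : IsUnit (A.map (Int.castRingHom ℚ)).det := by
    rw [isUnit_iff_ne_zero]
    intro d
    obtain ⟨v, hv, e⟩ := exists_vecMul_eq_zero_iff.2 d
    obtain ⟨i, hi⟩ := Function.ne_iff.1 hv
    obtain ⟨n, hn⟩ := h ((2 * v i)⁻¹ • v) (fun j => ⟨0, by rw [smul_vecMul, e]; simp⟩) i
    have hi : v i ≠ 0 := hi
    have : (1 : ℚ) = 2 * n := by
      rw [← hn, Pi.smul_apply, smul_eq_mul]
      field_simp
    have : (1 : ℤ) = 2 * n := by exact_mod_cast this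
    omega
  have m := nonsing_inv_mul _ d
  choose B hB using fun i => h ((A.map (Int.castRingHom ℚ))⁻¹ i) fun j =>
    ⟨(1 : Matrix (Fin 4) (Fin 4) ℤ) i j, by
      rw [← mul_apply_eq_vecMul, m, one_apply, one_apply]; split_ifs <;> simp⟩
  have : (Matrix.of B) * A = 1 := by
    apply Matrix.map_injective (f := Int.castRingHom ℚ) Int.cast_injective
    simp only [Matrix.map_mul, Matrix.map_one _ (map_zero _) (map_one _)]
    rw [← m]
    congr 1
    ext i j
    exact (hB i j).symm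
  exact isUnit_det_of_left_inverse this

variable {E : Type} [Field E] [NumberField E] [IsCMField E]

/-- The Riemann form `Tr(ξ x ȳ)`. -/
def rf (ξ : E) : E →ₗ[ℚ] E →ₗ[ℚ] ℚ :=
  LinearMap.mk₂ ℚ (fun x y => Algebra.trace ℚ E (ξ * x * IsCMField.complexConj E y))
    (fun x x' y => by rw [mul_add, add_mul, map_add])
    (fun q x y => by rw [mul_smul_comm, smul_mul_assoc, map_smul])
    (fun x y y' => by rw [map_add, mul_add, map_add])
    (fun q x y => by rw [map_rat_smul, mul_smul_comm, map_smul])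

theorem rf_apply (ξ x y : E) :
    rf ξ x y = Algebra.trace ℚ E (ξ * x * IsCMField.complexConj E y) := rfl

theorem trace_conj (x : E) :
    Algebra.trace ℚ E (IsCMField.complexConj E x) = Algebra.trace ℚ E x :=
  Algebra.trace_eq_of_algEquiv ((IsCMField.complexConj E).restrictScalars ℚ) x

theorem rf_anti {ξ : E} (hξ : IsCMField.complexConj E ξ = -ξ) (x y : E) :
    rf ξ x y = -rf ξ y x := by
  rw [rf_apply, rf_apply, ← trace_conj, ← map_neg]
  simp only [map_mul, hξ, IsCMField.complexConj_apply_apply]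
  congr 1
  ring

theorem rf_sum (ξ : E) (b : Fin 4 → E) (c d : Fin 4 → ℚ) :
    rf ξ (∑ i, c i • b i) (∑ j, d j • b j) = ∑ i, ∑ j, c i * rf ξ (b i) (b j) * d j := by
  simp only [map_sum, map_smul, LinearMap.sum_apply, LinearMap.smul_apply, smul_eq_mul,
    Finset.mul_sum]
  rw [Finset.sum_comm]
  exact Finset.sum_congr rfl fun i _ => Finset.sum_congr rfl fun j _ => by ring

/-- `a` is its own dual for the Riemann form. -/
def SelfD (ξ : E) (a : FractionalIdeal (𝓞 E)⁰ E) : Prop :=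
  ∀ x, x ∈ a ↔ ∀ y ∈ a, ∃ n : ℤ, rf ξ x y = n

variable {ξ : E} {a : FractionalIdeal (𝓞 E)⁰ E} {e : Fin 4 → E}

theorem Frame.mem (h : Frame ξ a e) (i : Fin 4) : e i ∈ a :=
  (h.2 _).2 ⟨Pi.single i 1, by simp [Pi.single_apply]⟩

theorem Frame.co (h : Frame ξ a e) (c : Fin 4 → ℚ) (j : Fin 4) :
    rf ξ (∑ i, c i • e i) (e j) = (c ᵥ* J4 ℚ) j := by
  simp only [map_sum, map_smul, LinearMap.sum_apply, LinearMap.smul_apply, smul_eq_mul, rf_apply,
    h.1, vecMul, dotProduct]

theorem Frame.li (h : Frame ξ a e) : LinearIndependent ℚ e := by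
  refine Fintype.linearIndependent_iff.2 fun c hc i => ?_
  have := h.co c
  simp only [hc, map_zero, LinearMap.zero_apply] at this
  have h0 := this 0; have h1 := this 1; have h2 := this 2; have h3 := this 3
  simp [J4, vecMul, dotProduct, Fin.sum_univ_four] at h0 h1 h2 h3
  fin_cases i
  exacts [h2.symm, h3.symm, h0, h1]

theorem Frame.span (hd : Module.finrank ℚ E = 4) (h : Frame ξ a e) (x : E) :
    ∃ c : Fin 4 → ℚ, x = ∑ i, c i • e i := by
  let b := basisOfLinearIndependentOfCardEqFinrank h.li (by simp [hd])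
  exact ⟨b.repr x, by simpa [b] using (b.sum_repr x).symm⟩

theorem Frame.sd (hd : Module.finrank ℚ E = 4) (h : Frame ξ a e) : SelfD ξ a := by
  intro x
  constructor
  · intro hx y hy
    obtain ⟨c, rfl⟩ := (h.2 x).1 hx
    obtain ⟨d, rfl⟩ := (h.2 y).1 hy
    refine ⟨∑ i, ∑ j, c i * J4 ℤ i j * d j, ?_⟩
    have := rf_sum ξ e (fun i => c i) (fun i => d i)
    simp only [Int.cast_smul_eq_zsmul, zsmul_eq_mul] at this
    rw [this]
    simp [rf_apply, h.1, J4, Fin.sum_univ_four]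
  · intro hx
    obtain ⟨c, rfl⟩ := h.span hd x
    have k : ∀ i, ∃ n : ℤ, c i = n := by
      choose n hn using fun j => hx _ (h.mem j)
      simp only [h.co] at hn
      have h0 := hn 0; have h1 := hn 1; have h2 := hn 2; have h3 := hn 3
      simp [J4, vecMul, dotProduct, Fin.sum_univ_four] at h0 h1 h2 h3
      intro i
      fin_cases i
      exacts [⟨n 2, h2⟩, ⟨n 3, h3⟩, ⟨-n 0, by simp; linarith⟩, ⟨-n 1, by simp; linarith⟩]
    choose n hn using k
    exact (h.2 _).2 ⟨n, by simp [hn, Int.cast_smul_eq_zsmul]⟩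

omit [IsCMField E] in
theorem exists_basis (hd : Module.finrank ℚ E = 4) (ha : a ≠ 0) :
    ∃ b : Module.Basis (Fin 4) ℚ E, ∀ x, x ∈ a ↔ ∃ c : Fin 4 → ℤ, x = ∑ i, c i * b i := by
  let I : (FractionalIdeal (𝓞 E)⁰ E)ˣ := Units.mk0 a ha
  let b := basisOfFractionalIdeal E I
  let σ : _ ≃ Fin 4 := Fintype.equivFinOfCardEq ((Module.finrank_eq_card_basis b).symm.trans hd)
  refine ⟨b.reindex σ, fun x => ?_⟩
  have := mem_span_basisOfFractionalIdeal E (I := I) (x := x)
  rw [← b.range_reindex σ, Submodule.mem_span_range_iff_exists_fun] at this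
  simp only [zsmul_eq_mul, eq_comm (b := x)] at this
  exact this.symm

theorem SelfD.frame (hd : Module.finrank ℚ E = 4) (hξ : IsCMField.complexConj E ξ = -ξ)
    (h : SelfD ξ a) : ∃ e, Frame ξ a e := by
  have ha : a ≠ 0 := by
    rintro rfl
    have := (h 1).2 fun y hy => ⟨0, by simp [(FractionalIdeal.mem_zero_iff _).1 hy]⟩
    exact one_ne_zero ((FractionalIdeal.mem_zero_iff _).1 this)
  obtain ⟨b, hb⟩ := exists_basis hd ha
  have m : ∀ i, b i ∈ a := fun i => (hb _).2 ⟨Pi.single i 1, by simp [Pi.single_apply]⟩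
  choose A hA using fun i j => (h _).1 (m i) _ (m j)
  have cs : ∀ c : Fin 4 → ℤ, ∑ i, (c i : E) * b i = ∑ i, (c i : ℚ) • b i := fun c => by
    simp only [Int.cast_smul_eq_zsmul, zsmul_eq_mul]
  have hu : IsUnit (Matrix.of A).det := by
    refine unit_of_int _ fun v hv => ?_
    choose n hn using hv
    obtain ⟨c, hc⟩ := (hb _).1 ((h (∑ i, v i • b i)).2 fun y hy => by
      obtain ⟨d, rfl⟩ := (hb y).1 hy
      refine ⟨∑ j, n j * d j, ?_⟩
      rw [cs, rf_sum, Finset.sum_comm]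
      simp [← hn, hA, vecMul, dotProduct, Finset.sum_mul])
    rw [cs] at hc
    have := (Fintype.linearIndependent_iff.1 b.linearIndependent) (fun i => v i - c i)
      (by simp only [sub_smul, Finset.sum_sub_distrib, hc, sub_self])
    exact fun i => ⟨c i, sub_eq_zero.1 (this i)⟩
  obtain ⟨U, hU, e⟩ := sympl (Matrix.of A) (by
    ext i j
    have := rf_anti hξ (b j) (b i)
    rw [hA, hA] at this
    exact_mod_cast this) hu
  refine ⟨fun i => ∑ j, (U j i : E) * b j, fun i j => ?_, fun x => ?_⟩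
  · beta_reduce
    rw [← rf_apply, cs (U · i), cs (U · j), rf_sum]
    have : J4 ℚ i j = (J4 ℤ i j : ℤ) := by fin_cases i <;> fin_cases j <;> simp [J4]
    rw [this, ← e, Finset.sum_comm]
    simp [hA, Matrix.mul_apply, Finset.sum_mul]
  · have k : ∀ c : Fin 4 → ℤ, ∑ i, (c i : E) * ∑ j, (U j i : E) * b j =
        ∑ j, ((U *ᵥ c) j : E) * b j := fun c => by
      simp only [Finset.mul_sum, mulVec, dotProduct, Int.cast_sum, Int.cast_mul, Finset.sum_mul]
      rw [Finset.sum_comm]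
      exact Finset.sum_congr rfl fun i _ => Finset.sum_congr rfl fun j _ => by ring
    simp only [k, hb]
    exact ⟨fun ⟨c, hc⟩ => ⟨U⁻¹ *ᵥ c, by rw [mulVec_mulVec, mul_nonsing_inv _ hU, one_mulVec, hc]⟩,
      fun ⟨c, hc⟩ => ⟨_, hc⟩⟩

theorem SelfD.twist (h : SelfD ξ a) {c : Ideal (𝓞 E)} {n : ℕ} (hn : n ≠ 0)
    (hc : c * c.map (IsCMField.ringOfIntegersComplexConj E) = Ideal.span {(n : 𝓞 E)}) :
    SelfD (n * ξ) ((c : FractionalIdeal (𝓞 E)⁰ E)⁻¹ * a) := by
  have hn' : (n : E) ≠ 0 := Nat.cast_ne_zero.2 hn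
  have c0 : (c : FractionalIdeal (𝓞 E)⁰ E) ≠ 0 := by
    rw [FractionalIdeal.coeIdeal_ne_zero]
    rintro rfl
    rw [Ideal.bot_mul, eq_comm, Ideal.span_singleton_eq_bot] at hc
    exact hn (Nat.cast_eq_zero.1 hc)
  have mem : ∀ x, x ∈ (c : FractionalIdeal (𝓞 E)⁰ E)⁻¹ * a ↔ ∀ u ∈ c, x * (u : E) ∈ a := fun x => by
    rw [mul_comm, ← div_eq_mul_inv, FractionalIdeal.mem_div_iff_of_ne_zero c0]
    exact ⟨fun k u hu => k _ (FractionalIdeal.mem_coeIdeal_of_mem _ hu), fun k y hy => by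
      obtain ⟨u, hu, rfl⟩ := (FractionalIdeal.mem_coeIdeal _).1 hy
      exact k u hu⟩
  intro x
  simp only [mem]
  constructor
  · intro hx y hy
    have : (n : 𝓞 E) ∈ c * c.map (IsCMField.ringOfIntegersComplexConj E) :=
      hc ▸ Ideal.mem_span_singleton_self _
    suffices k : ∃ k : ℤ, rf (((n : 𝓞 E) : E) * ξ) x y = k by simpa using k
    refine Submodule.mul_induction_on (C := fun m : 𝓞 E => ∃ k : ℤ, rf ((m : E) * ξ) x y = k) this
      (fun u hu v hv => ?_) (fun u v ⟨k, hk⟩ ⟨l, hl⟩ => ⟨k + l, ?_⟩)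
    · obtain ⟨v, hv', rfl⟩ := (Ideal.mem_map_of_equiv _ _).1 hv
      obtain ⟨k, hk⟩ := (h _).1 (hx u hu) _ (hy v hv')
      refine ⟨k, ?_⟩
      rw [← hk, rf_apply, rf_apply]
      congr 1
      simp only [map_mul, IsCMField.coe_ringOfIntegersComplexConj]
      ring
    · rw [Int.cast_add, ← hk, ← hl, rf_apply, rf_apply, rf_apply, ← map_add]
      congr 1
      simp only [map_add]
      ring
  · intro hx u hu
    refine (h _).2 fun z hz => ?_
    obtain ⟨k, hk⟩ := hx (IsCMField.complexConj E u * z / n) fun v hv => by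
      obtain ⟨w, hw⟩ := Ideal.mem_span_singleton'.1
        (hc ▸ Ideal.mul_mem_mul hv (Ideal.mem_map_of_mem _ hu))
      have hw := congrArg (algebraMap (𝓞 E) E) hw
      simp only [map_mul, map_natCast] at hw
      have : IsCMField.complexConj E u * z / n * v = w • z := by
        rw [Algebra.smul_def]
        field_simp
        rw [← IsCMField.coe_ringOfIntegersComplexConj]
        linear_combination -z * hw
      rw [this]
      exact Submodule.smul_mem (a : Submodule (𝓞 E) E) w hz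
    refine ⟨k, ?_⟩
    rw [← hk, rf_apply, rf_apply]
    congr 1
    simp only [map_mul, map_div₀, map_natCast, IsCMField.complexConj_apply_apply]
    field_simp

theorem Frame.twist (hd : Module.finrank ℚ E = 4) (hξ : IsCMField.complexConj E ξ = -ξ)
    (h : Frame ξ a e) {c : Ideal (𝓞 E)} {n : ℕ} (hn : n ≠ 0)
    (hc : c * c.map (IsCMField.ringOfIntegersComplexConj E) = Ideal.span {(n : 𝓞 E)}) :
    ∃ e', Frame (n * ξ) ((c : FractionalIdeal (𝓞 E)⁰ E)⁻¹ * a) e' :=
  ((h.sd hd).twist hn hc).frame hd (by simp [hξ])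

end Pool.Agent.Lib.MP_9177b7_ag.S4
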