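import Pool.Agent.Lib.MP_9177b7_ag.S4.StC
import Pool.Agent.Lib.MP_9177b7_ag.S4.Frame0

/-!
Linear algebra of frames.
-/

open NumberField Matrix
open scoped nonZeroDivisors ComplexConjugate ComplexOrder

noncomputable section

namespace Pool.Agent.Lib.MP_9177b7_ag.S4

section

variable {E : Type} [Field E] [NumberField E] [IsCMField E] {ξ : E}
  {a : FractionalIdeal (𝓞 E)⁰ E} {e : Fin 4 → E}

theorem Frame.discr_eq (hd : Module.finrank ℚ E = 4) (h : Frame ξ a e) :
    Algebra.discr ℚ e = (FractionalIdeal.absNorm a : ℚ) ^ 2 * discr E := by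
  let b : Module.Basis (Fin 4) ℤ (𝓞 E) := (RingOfIntegers.basis E).reindex
    (Fintype.equivFinOfCardEq ((Module.finrank_eq_card_basis (integralBasis E)).symm.trans hd))
  let v : Fin 4 → (a : Submodule (𝓞 E) E) := fun i => ⟨e i, h.mem i⟩
  have li : LinearIndependent ℤ v := LinearIndependent.of_comp
    ((a : Submodule (𝓞 E) E).subtype.restrictScalars ℤ) (h.li.restrict_scalars' ℤ)
  have sp : ⊤ ≤ Submodule.span ℤ (Set.range v) := fun x _ => by
    obtain ⟨c, hc⟩ := (h.2 x).1 x.2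
    exact (Submodule.mem_span_range_iff_exists_fun ℤ).2 ⟨c, Subtype.ext (by simp [hc, v])⟩
  have n := FractionalIdeal.abs_det_basis_change b a (Module.Basis.mk li sp)
  have k : Subtype.val ∘ Module.Basis.mk li sp = e := by
    ext i
    simp [v]
  rw [k] at n
  rw [← n, sq_abs, ← discr_eq_discr E b, ← eq_intCast (algebraMap ℤ ℚ),
    ← Algebra.discr_localizationLocalization ℤ ℤ⁰ E b, Module.Basis.det_apply,
    ← Algebra.discr_of_matrix_vecMul, Module.Basis.toMatrix_map_vecMul]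

theorem Frame.scale (h : Frame ξ a e) {y ξ' : E} (k : ξ = y * IsCMField.complexConj E y * ξ') :
    Frame ξ' (FractionalIdeal.spanSingleton _ y * a) fun i => y * e i := by
  refine ⟨fun i j => ?_, fun x => ?_⟩
  · rw [← h.1 i j, k, map_mul (IsCMField.complexConj E)]
    congr 1
    ring
  · simp only [FractionalIdeal.mem_singleton_mul, h.2]
    constructor
    · rintro ⟨_, ⟨c, rfl⟩, rfl⟩
      exact ⟨c, by simp only [Finset.mul_sum, mul_left_comm]⟩
    · rintro ⟨c, rfl⟩
      exact ⟨_, ⟨c, rfl⟩, by simp only [Finset.mul_sum, mul_left_comm]⟩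

theorem Frame.gram (h : Frame ξ a e) (γ : M4 ℚ) (k l : Fin 4) :
    rf ξ (∑ i, (γ i k : E) * e i) (∑ i, (γ i l : E) * e i) = (γᵀ * J4 ℚ * γ) k l := by
  have := rf_sum ξ e (γ · k) (γ · l)
  simp only [Rat.smul_def, rf_apply ξ (e _), h.1] at this
  rw [this, Finset.sum_comm]
  simp only [Matrix.mul_apply, transpose_apply, Finset.sum_mul]

theorem Frame.sp (h : Frame ξ a e) (γ : SP ℤ) : Frame ξ a fun k => ∑ i, γ.1.1 i k * e i := by
  refine ⟨fun k l => ?_, fun x => ?_⟩
  · have g := congrArg (fun M : M4 ℤ => (M k l : ℚ)) (show γ.1.1ᵀ * J4 ℤ * γ.1.1 = J4 ℤ from γ.2)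
    have := h.gram (γ.1.1.map (Int.cast : ℤ → ℚ)) k l
    simp only [Matrix.map_apply, Rat.cast_intCast, rf_apply] at this
    have j : ∀ i j, ((J4 ℤ i j : ℤ) : ℚ) = J4 ℚ i j := fun i j => by
      fin_cases i <;> fin_cases j <;> simp [J4]
    beta_reduce
    rw [this, ← j, ← g]
    simp [Matrix.mul_apply, j]
  · have k : ∀ c : Fin 4 → ℤ, ∑ i, (c i : E) * ∑ j, (γ.1.1 j i : E) * e j =
        ∑ j, ((γ.1.1 *ᵥ c) j : E) * e j := fun c => by
      simp only [Finset.mul_sum, mulVec, dotProduct, Int.cast_sum, Int.cast_mul, Finset.sum_mul]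
      rw [Finset.sum_comm]
      exact Finset.sum_congr rfl fun i _ => Finset.sum_congr rfl fun j _ => by ring
    have hU : IsUnit γ.1.1.det := by rw [γ.1.2]; exact isUnit_one
    simp only [k, h.2]
    exact ⟨fun ⟨c, hc⟩ => ⟨γ.1.1⁻¹ *ᵥ c, by
      rw [mulVec_mulVec, mul_nonsing_inv _ hU, one_mulVec, hc]⟩, fun ⟨c, hc⟩ => ⟨_, hc⟩⟩

theorem Frame.change (hD : DetStmt) (hd : Module.finrank ℚ E = 4) (h : Frame ξ a e)
    {a' : FractionalIdeal (𝓞 E)⁰ E} {e' : Fin 4 → E} (h' : Frame ξ a' e') :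
    ∃ γ : SP ℚ, (∀ k, e' k = ∑ i, γ.1.1 i k * e i) ∧
      ∀ n : ℕ, (∀ x ∈ a', n * x ∈ a) → ∀ i k, ∃ z : ℤ, n * γ.1.1 i k = z := by
  choose c hc using fun k => h.span hd (e' k)
  simp only [Rat.smul_def] at hc
  have g : (Matrix.of fun i k => c k i)ᵀ * J4 ℚ * (Matrix.of fun i k => c k i) = J4 ℚ := by
    ext k l
    rw [← h.gram]
    simp only [of_apply, ← hc, rf_apply, h'.1]
  refine ⟨⟨⟨_, (hD ℚ _ g).1⟩, g⟩, hc, fun n hn i k => ?_⟩
  obtain ⟨z, hz⟩ := (h.2 _).1 (hn _ (h'.mem k))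
  have := Fintype.linearIndependent_iff.1 h.li (fun i => n * c k i - z i) (by
    simp only [Rat.smul_def, Rat.cast_sub, Rat.cast_mul, Rat.cast_natCast, Rat.cast_intCast,
      sub_mul, Finset.sum_sub_distrib, mul_assoc, ← Finset.mul_sum, ← hc, hz, sub_self])
  exact ⟨z i, sub_eq_zero.1 (this i)⟩

end

theorem J4_flip {R : Type} [CommRing R] {M X : M4 R} (h : Mᵀ * (X * J4 R) * M = J4 R) :
    M * J4 R * Mᵀ * X = J4 R := by
  have e : J4 R * J4 R = -1 := by
    ext i j
    fin_cases i <;> fin_cases j <;> simp [J4, Matrix.mul_apply, Fin.sum_univ_four]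
  have a : -(J4 R * (Mᵀ * (X * J4 R))) * M = 1 := by
    rw [neg_mul, mul_assoc, h, e, neg_neg]
  have b := congrArg (· * J4 R) (mul_eq_one_comm.1 a)
  simpa only [mul_neg, neg_mul, mul_assoc, e, mul_one, neg_neg, one_mul] using b

theorem frame (hD : DetStmt) (hG : GalStmt) : FrameStmt := by
  intro p _ D
  obtain ⟨-, -, -, -, -, -, -, hc, -, -, h01, hb, -, -, -, ht, -, -, -, hd, -⟩ := hG p D
  refine ⟨fun ξ a e hξ h => ?_, fun b hb => ?_⟩
  · have x2 : ∀ i, D.em (i + 2) ξ = -D.em i ξ := fun i => by rw [← (hb i ξ).1, hξ, map_neg]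
    have ξ0 : ξ ≠ 0 := by
      rintro rfl
      simpa [J4] using h.1 0 2
    have g : (D.Em e)ᵀ * (diagonal ![D.em 0 ξ, D.em 1 ξ, D.em 0 ξ, D.em 1 ξ] * J4 D.N) * D.Em e =
        J4 D.N := by
      ext k l
      have t := ht (ξ * e k * D.bE (e l))
      have j : ((J4 ℚ k l : ℚ) : D.N) = J4 D.N k l := by
        fin_cases k <;> fin_cases l <;> simp [J4]
      have y2 : D.em 2 ξ = -D.em 0 ξ := x2 0
      have y3 : D.em 3 ξ = -D.em 1 ξ := x2 1
      rw [h.1, j] at t
      rw [t]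
      simp only [map_mul, (hb _ _).1]
      simp [Matrix.mul_apply, Fin.sum_univ_four, Dat.Em, J4, y2, y3, diagonal_apply]
      ring
    have g' := J4_flip g
    refine ⟨fun k => ?_, ξ0, h.mem, h.li, fun x => by simpa [Rat.smul_def] using h.span hd x,
      h.sd hd, g, g', ?_, fun h0 h1 => ?_, fun y ξ' _ k => h.scale k, h.sp,
      fun a' e' h' => h.change hD hd h'⟩
    · exact h.li.ne_zero 0 ((FractionalIdeal.mem_zero_iff _).1 (k ▸ h.mem 0))
    · have d := congrArg det g
      have t : (Algebra.traceMatrix ℚ e).map (Rat.castHom D.N) = (D.Em e)ᵀ * D.Em e := by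
        ext k l
        simp [Algebra.traceMatrix_apply, Algebra.traceForm_apply, ht, Matrix.mul_apply, Dat.Em]
      have t := congrArg det t
      rw [← RingHom.mapMatrix_apply, ← RingHom.map_det, ← Algebra.discr_def, h.discr_eq hd] at t
      simp only [det_mul, det_transpose, det_J4, det_diagonal, Fin.prod_univ_four] at d t
      simp at d t
      linear_combination (D.em 0 ξ * D.em 1 ξ) ^ 2 * t + d
    · have n : ∀ i, D.φ (D.em i ξ) ≠ 0 := fun i => by simpa using ξ0
      have w : ∀ i j, D.φ ((D.Em e * J4 D.N * (D.Em e)ᵀ) i j) *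
          D.φ (![D.em 0 ξ, D.em 1 ξ, D.em 0 ξ, D.em 1 ξ] j) = J4 ℂ i j := fun i j => by
        rw [← map_mul, ← mul_diagonal, g']
        fin_cases i <;> fin_cases j <;> simp [J4]
      have cj : ∀ i x, conj (D.φ (D.em i x)) = D.φ (D.em (i + 2) x) := fun i x => by
        rw [← hc, (hb i x).2.1]
      have im : ∀ i, D.φ (D.em i ξ) = (D.φ (D.em i ξ)).im * Complex.I := fun i => by
        have := congrArg Complex.re (cj i ξ)
        rw [x2, map_neg, Complex.conj_re, Complex.neg_re] at this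
        apply Complex.ext <;> simp
        linarith
      have c0 : ∀ x, conj (D.φ (D.em 0 x)) = D.φ (D.em 2 x) := cj 0
      have c1 : ∀ x, conj (D.φ (D.em 1 x)) = D.φ (D.em 3 x) := cj 1
      have n0 := n 0
      have n1 := n 1
      refine ⟨⟨D.Pm e, ?_, ?_⟩, rfl⟩
      · ext i j
        have := w (Fin.castLE (by norm_num) i) (Fin.castLE (by norm_num) j)
        fin_cases i <;> fin_cases j <;>
          simpa [Matrix.mul_apply, Fin.sum_univ_four, Dat.Em, Dat.Pm, J4, n0, n1] using this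
      · have b : Complex.I • (D.Pm e * J4 ℂ * (D.Pm e)ᴴ) =
            diagonal ![(((D.φ (D.em 0 ξ)).im⁻¹ : ℝ) : ℂ), (((D.φ (D.em 1 ξ)).im⁻¹ : ℝ) : ℂ)] := by
          ext i j
          have := w (Fin.castLE (by norm_num) i) (Fin.castLE (by norm_num) j + 2)
          have i0 := im 0
          have i1 := im 1
          have m0 : ((D.φ (D.em 0 ξ)).im : ℂ) ≠ 0 := by exact_mod_cast h0.ne'
          have m1 : ((D.φ (D.em 1 ξ)).im : ℂ) ≠ 0 := by exact_mod_cast h1.ne'
          generalize (D.φ (D.em 0 ξ)).im = u at *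
          generalize (D.φ (D.em 1 ξ)).im = v at *
          fin_cases i <;> fin_cases j <;>
            simp [Matrix.mul_apply, Fin.sum_univ_four, Dat.Em, Dat.Pm, J4, c0, c1, i0, i1, m0, m1]
              at this ⊢
          exacts [eq_inv_of_mul_eq_one_left (by linear_combination this), this, this,
            eq_inv_of_mul_eq_one_left (by linear_combination this)]
        rw [b]
        refine PosDef.diagonal fun i => ?_
        fin_cases i <;> simpa
  · have n : (0 : ℝ) < Ideal.absNorm b := Nat.cast_pos.2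
      (Nat.pos_of_ne_zero fun k => hb (Ideal.absNorm_eq_zero_iff.1 k))
    refine ⟨by simp [D.sp.imag], ?_, ?_⟩
    · simpa [(h01 _).1] using mul_pos n D.sp.pos₁
    · simpa [(h01 _).2.1] using mul_pos n D.sp.pos₂

end Pool.Agent.Lib.MP_9177b7_ag.S4
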