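import Pool.Agent.Lib.MP_9177b7_ag.S4.StC
import Pool.Agent.Lib.MP_9177b7_ag.S4.Gal4

/-!
The Galois group of a CM datum.
-/

open NumberField
open scoped ComplexConjugate

noncomputable section

namespace Pool.Agent.Lib.MP_9177b7_ag.S4

theorem gal : GalStmt := by
  intro p _ D
  have h : D4 D.φ D.r D.s D.c := D.sp.d4
  have fx := D.sp.fixE
  have fl := D.sp.fixL
  have em : ∀ i x, D.em i x = sig4 D.r D.c i (D.iE x) := fun _ _ => rfl
  have ap : ∀ {σ τ : D.N ≃ₐ[ℚ] D.N}, σ = τ → ∀ x, σ x = τ x := fun e x => by rw [e]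
  have cc : ∀ x, D.c (D.c x) = x := ap h.c2
  have rr : ∀ x, D.r (D.r x) = x := ap h.rr
  have rc : ∀ x, D.r (D.c x) = D.c (D.r x) := ap h.cr.symm
  have sc : ∀ x, D.s (D.c x) = D.c (D.s x) := ap h.cs.symm
  have sr : ∀ x, D.s (D.r x) = D.c (D.r (D.s x)) := ap h.sr
  have sE : ∀ x, D.s (D.iE x) = D.iE x := h.s_map fx
  have bE : ∀ x, D.iE (D.bE x) = D.c (D.iE x) := D4.conj_map h.cc D.iE
  have inj : Function.Injective D.em := fun a b e =>
    h.sig_inj' fx fun x => RingHom.congr_fun e x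
  refine ⟨h.galois, h.c1, h.c2, fun σ => (h.central σ).symm, h.sr, fun σ => ?_, h.nodup, h.cc',
    bE, D4.conj_map h.cc D.iL, fun x => ⟨rfl, rfl, rfl, rfl⟩, fun i x => ?_, inj,
    fun a b e => inj (RingHom.ext fun x => D.ψ.injective (RingHom.congr_fun e x)), fun u hu => ?_,
    h.trace_eq fx, h.norm_eq fx, fun x => h.rat, fun x h1 h2 => ?_, h.rank fx, h.symm.rank fl,
    h.rank_real fx, h.symm.rank_real fl, h.rank_top fx, h.symm.rank_top fl⟩
  · rw [h.sr]
    rcases h.words σ with (e | e | e | e) | e | e | e | e <;> simp [← e]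
  · simp only [em, bE]
    fin_cases i <;> simp [sig4, cc, rr, rc, sc, sr, sE]
  · have li := (linearIndependent_monoidHom D.E D.N).comp
      (fun i : Fin 4 => (D.em i : D.E →* D.N)) fun a b e => inj (RingHom.coe_monoidHom_injective e)
    funext i
    exact Fintype.linearIndependent_iff.1 li u (funext fun x => by simpa using hu x) i
  · obtain ⟨y, hy⟩ := (h.symm.range_real fl x).2 ⟨h1, h2⟩
    exact ⟨y, hy.symm⟩

end Pool.Agent.Lib.MP_9177b7_ag.S4
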