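import Pool.Agent.Lib.MP_9177b7_ag.S4.StC

/-!
The genus condition at the primes that divide both `D` and `2 t + 1`.
-/

open NumberField
open scoped nonZeroDivisors

noncomputable section

namespace Pool.Agent.Lib.MP_9177b7_ag.S4

namespace Genus

/-- A fraction can be written in lowest terms at a given proper ideal. -/
theorem red {R : Type} [CommRing R] [IsDedekindDomain R] (P : Ideal R) (hP : P ≠ ⊤) (x₀ y₀ : R)
    (hy : y₀ ≠ 0) : ∃ x z, z * x₀ = y₀ * x ∧ (x ∉ P ∨ z ∉ P) := by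
  obtain ⟨J, hJ⟩ : Ideal.span {x₀, y₀} ∣ Ideal.span {y₀} :=
    Ideal.dvd_iff_le.2 (Ideal.span_mono (by simp))
  by_contra hc
  push Not at hc
  have h0 : ∀ z ∈ J, ∃ x ∈ P, z * x₀ = y₀ * x ∧ z ∈ P := fun z hz => by
    have h1 : x₀ * z ∈ Ideal.span {y₀} :=
      hJ ▸ Ideal.mul_mem_mul (Ideal.subset_span (by simp)) hz
    obtain ⟨x, hx⟩ := Ideal.mem_span_singleton'.1 h1
    have h2 : z * x₀ = y₀ * x := by linear_combination -hx
    exact ⟨x, (hc x z h2).1, h2, (hc x z h2).2⟩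
  have h1 : Ideal.span {y₀} * ⊤ ≤ Ideal.span {y₀} * P := by
    rw [Ideal.mul_top]
    nth_rewrite 1 [hJ]
    rw [Ideal.span_insert, Ideal.sup_mul]
    refine sup_le ?_ (Ideal.mul_mono_right fun z hz => (h0 z hz).choose_spec.2.2)
    rw [Ideal.span_singleton_mul_le_iff]
    intro z hz
    obtain ⟨x, hx, e, -⟩ := h0 z hz
    rw [mul_comm x₀, e]
    exact Ideal.mul_mem_mul (Ideal.mem_span_singleton_self _) hx
  exact hP (top_le_iff.1 ((Ideal.span_singleton_mul_right_mono hy).1 h1))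

open Classical in
/-- At most `(l + 1) / 2` residues are in a square class. -/
theorem count {l : ℕ} [Fact l.Prime] (h2 : l % 2 = 1) {m : ZMod l} (hm : m ≠ 0) :
    2 * ((Finset.range l).filter fun x : ℕ => IsSquare (((x : ℤ) : ZMod l) * m)).card ≤ l + 1 := by
  have h : ((Finset.range l).filter fun x : ℕ => IsSquare (((x : ℤ) : ZMod l) * m)) ⊆
      (Finset.range (l / 2 + 1)).image fun y : ℕ => ((y : ZMod l) ^ 2 / m).val := fun x hx => by
    obtain ⟨h1, y, hy⟩ := Finset.mem_filter.1 hx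
    refine Finset.mem_image.2 ⟨y.valMinAbs.natAbs,
      Finset.mem_range.2 (Nat.lt_succ_of_le (ZMod.natAbs_valMinAbs_le y)), ?_⟩
    have e : ((y.valMinAbs.natAbs : ℕ) : ZMod l) ^ 2 = y * y := by
      rw [← Int.cast_natCast, ← Int.cast_pow, Int.natAbs_sq, Int.cast_pow, ZMod.coe_valMinAbs, sq]
    rw [e, ← hy, mul_div_cancel_right₀ _ hm, Int.cast_natCast,
      ZMod.val_cast_of_lt (Finset.mem_range.1 h1)]
  have := (Finset.card_le_card h).trans Finset.card_image_le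
  rw [Finset.card_range] at this
  omega

/-- Norms are squares modulo a ramified prime. -/
theorem sq {L : Type} [Field L] [NumberField L] [IsCMField L] {l : ℕ} [Fact l.Prime]
    (f : 𝓞 L →+* ZMod l) (hf : ∀ z, f (IsCMField.ringOfIntegersComplexConj L z) = f z) (v : L)
    (M : 𝓞 L) (h : v * IsCMField.complexConj L v = M) : IsSquare (f M) := by
  obtain ⟨x₀, y₀, hy, rfl⟩ := IsFractionRing.div_surjective (A := 𝓞 L) v
  have y0 := nonZeroDivisors.ne_zero hy
  obtain ⟨x, z, e, hx⟩ := red (RingHom.ker f) (RingHom.ker_ne_top f) x₀ y₀ y0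
  have y1 : algebraMap (𝓞 L) L y₀ ≠ 0 := RingOfIntegers.coe_ne_zero_iff.2 y0
  have e1 : (z : L) * (algebraMap (𝓞 L) L x₀ / algebraMap (𝓞 L) L y₀) = x := by
    have := congrArg (algebraMap (𝓞 L) L) e
    simp only [map_mul] at this
    field_simp
    exact this
  have e2 : x * IsCMField.ringOfIntegersComplexConj L x =
      z * IsCMField.ringOfIntegersComplexConj L z * M := by
    refine RingOfIntegers.ext ?_
    simp only [map_mul, IsCMField.coe_ringOfIntegersComplexConj]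
    change (x : L) * IsCMField.complexConj L x = z * IsCMField.complexConj L z * M
    rw [← e1, ← h, map_mul]
    ring
  have e3 := congrArg f e2
  simp only [map_mul, hf] at e3
  have z0 : f z ≠ 0 := fun h0 => by
    rw [h0, zero_mul, zero_mul, mul_self_eq_zero] at e3
    exact hx.elim (fun a => a e3) fun a => a h0
  exact ⟨f x / f z, by field_simp; linear_combination -e3⟩

variable {p : ℕ} [Fact p.Prime] {D : Dat p} (A : D.Ar)

/-- Reduction modulo the ramified prime above `l`. -/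
theorem hom {l : ℕ} [Fact l.Prime] (hl : l ∣ D.Dn) : ∃ f : 𝓞 D.L →+* ZMod l,
    (∀ z, f (IsCMField.ringOfIntegersComplexConj D.L z) = f z) ∧
      f (algebraMap (𝓞 D.K) (𝓞 D.L) A.θ) = -A.c := by
  have h := (A.nE_amb l hl).1
  set P := A.Df ⊔ Ideal.span {(l : 𝓞 D.L)}
  have l0 : l ≠ 0 := (Fact.out : l.Prime).ne_zero
  rw [Ideal.absNorm_apply, Submodule.cardQuot_apply] at h
  haveI : Finite (𝓞 D.L ⧸ P) := Nat.finite_of_card_ne_zero (h ▸ l0)
  haveI := Fintype.ofFinite (𝓞 D.L ⧸ P)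
  let e := ZMod.ringEquivOfPrime (𝓞 D.L ⧸ P) Fact.out (Nat.card_eq_fintype_card.symm.trans h)
  let f : 𝓞 D.L →+* ZMod l := (e.symm : 𝓞 D.L ⧸ P →+* ZMod l).comp (Ideal.Quotient.mk P)
  have h0 : ∀ z ∈ A.Df, f z = 0 := fun z hz => by
    change e.symm (Ideal.Quotient.mk P z) = 0
    rw [Ideal.Quotient.eq_zero_iff_mem.2 (Ideal.mem_sup_left hz), map_zero]
  refine ⟨f, fun z => ?_, ?_⟩
  · have := h0 _ (A.Df_mem z)
    rw [map_sub] at this
    exact (sub_eq_zero.1 this).symm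
  · have h1 : algebraMap (𝓞 D.K) (𝓞 D.L) (A.θ + A.c) ∈ A.Df ^ 2 :=
      A.Df_sq ▸ Ideal.mem_map_of_mem _ A.θ_d
    have := h0 _ (Ideal.pow_le_self two_ne_zero h1)
    rw [map_add, map_add, map_intCast, map_intCast] at this
    exact eq_neg_of_add_eq_zero_left this

include A in
theorem odd {l : ℕ} (hl : l ∣ D.Dn) : l % 2 = 1 := by
  obtain ⟨u, hu⟩ := hl
  have h := A.hd₀
  by_contra hc
  obtain ⟨v, rfl⟩ : 2 ∣ l := by omega
  rw [hu, mul_assoc] at h
  push_cast at h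
  omega

/-- The invariant `2 ν / l` is integral. -/
theorem mu {l : ℕ} [Fact l.Prime] (hl : l ∣ D.Dn) (t k : ℤ) (ht : (l : ℤ) ∣ 2 * t + 1) :
    ∃ n d : ℤ, A.nn t k = l * n ∧ A.dl t = l * d := by
  have h1 : (l : ℤ) ∣ D.Dn := Int.natCast_dvd_natCast.2 hl
  have h2 : (l : ℤ) ∣ 4 * A.dl t := by
    have e : 4 * A.dl t = D.Dn - (2 * t + 1) * (2 * t + 1) := by
      rw [A.hd₀, Dat.Ar.dl]
      ring
    exact e ▸ dvd_sub h1 (ht.mul_right _)
  have h3 : (l : ℤ) ∣ A.dl t := by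
    have o := odd A hl
    have e : A.dl t = l * (l * A.dl t) - (l / 2 : ℕ) * ((l / 2 : ℕ) + 1) * (4 * A.dl t) := by
      have : (l : ℤ) = 2 * (l / 2 : ℕ) + 1 := by omega
      generalize ((l / 2 : ℕ) : ℤ) = u at this
      rw [this]
      ring
    exact e ▸ dvd_sub (dvd_mul_right _ _) (h2.mul_left _)
  obtain ⟨n, hn⟩ : (l : ℤ) ∣ A.nn t k := dvd_add (h3.mul_left _) (h1.mul_right _)
  obtain ⟨d, hd⟩ := h3
  exact ⟨n, d, hn, hd⟩

/-- Two objects lie in the same square class. -/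
theorem pair {l : ℕ} [Fact l.Prime] (hl : l ∣ D.Dn) {t k t' k' : ℤ} {γ γ' : D.L}
    (h : D.Dn * γ * D.bL γ = (FractionalIdeal.absNorm D.a : ℚ) * (A.nu t k : D.L))
    (h' : D.Dn * γ' * D.bL γ' = (FractionalIdeal.absNorm D.a : ℚ) * (A.nu t' k' : D.L))
    (ht : (l : ℤ) ∣ 2 * t + 1) (ht' : (l : ℤ) ∣ 2 * t' + 1) :
    IsSquare ((((A.nn t k + A.c * A.dl t) / l : ℤ) : ZMod l) *
      ((A.nn t' k' + A.c * A.dl t') / l : ℤ)) := by
  obtain ⟨f, hf, hθ⟩ := hom A hl
  obtain ⟨n, d, hn, hd⟩ := mu A hl t k ht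
  obtain ⟨n', d', hn', hd'⟩ := mu A hl t' k' ht'
  have l0 : l ≠ 0 := (Fact.out : l.Prime).ne_zero
  have l1 : (l : ℤ) ≠ 0 := by exact_mod_cast l0
  have l2 : (l : D.L) ≠ 0 := by exact_mod_cast l0
  have a0 : ((FractionalIdeal.absNorm D.a : ℚ) : D.L) ≠ 0 := fun e => by
    have := A.θ_nrm
    rw [Rat.cast_eq_zero.1 e] at this
    simp at this
  set θ := algebraMap (𝓞 D.K) (𝓞 D.L) A.θ
  have e0 : ∀ t k, (A.nu t k : D.L) = (A.nn t k - A.dl t * (θ : D.L)) / 2 := fun t k => by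
    change algebraMap D.K D.L (A.nu t k) = _
    rw [Dat.Ar.nu, map_div₀, map_sub, map_mul, map_intCast, map_intCast, map_ofNat]
    rfl
  have key := sq f hf (2 * D.Dn * γ * γ' / ((FractionalIdeal.absNorm D.a : ℚ) * l))
    ((n - d * θ) * (n' - d' * θ)) (by
      rw [e0, hn, hd] at h
      rw [e0, hn', hd'] at h'
      simp only [map_div₀, map_mul, map_natCast, map_ofNat, map_ratCast, map_sub, map_intCast]
      push_cast at h h'
      change _ = (n - d * (θ : D.L)) * (n' - d' * (θ : D.L))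
      field_simp
      linear_combination 4 * D.Dn * γ' * D.bL γ' * h +
        2 * ((FractionalIdeal.absNorm D.a : ℚ) : D.L) * l * (n - d * (θ : D.L)) * h')
  rw [hn, hd, hn', hd', mul_left_comm, mul_left_comm A.c, ← mul_add, ← mul_add,
    Int.mul_ediv_cancel_left _ l1, Int.mul_ediv_cancel_left _ l1]
  simp only [map_mul, map_sub, map_intCast, hθ] at key
  convert key using 1
  push_cast
  ring

end Genus

open Genus in
theorem genus : GenusStmt := by
  intro p _ D A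
  have ex : ∀ l : ℕ, ∃ m : ℤ, l.Prime → l ∣ D.Dn → (m : ZMod l) ≠ 0 ∧ ∀ j b e P t k γ g,
      A.Inv j b e P t k γ g → (l : ℤ) ∣ 2 * t + 1 →
      IsSquare ((((A.nn t k + A.c * A.dl t) / l : ℤ) : ZMod l) * m) := fun l => by
    by_cases h : ∃ j b e P t k γ g, A.Inv j b e P t k γ g ∧ (l : ℤ) ∣ 2 * t + 1 ∧
        (((A.nn t k + A.c * A.dl t) / l : ℤ) : ZMod l) ≠ 0
    · obtain ⟨j', b', e', P', t', k', γ', g', hI, ht', h0⟩ := h
      refine ⟨_, fun hp hl => ⟨h0, fun j b e P t k γ g hJ ht => ?_⟩⟩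
      haveI := Fact.mk hp
      exact pair A hl hJ.nrm hI.nrm ht ht'
    · refine ⟨1, fun hp hl => ⟨?_, fun j b e P t k γ g hJ ht => ?_⟩⟩
      · haveI := Fact.mk hp
        simp
      · push Not at h
        rw [h j b e P t k γ g hJ ht, zero_mul]
        exact IsSquare.zero
  choose m hm using ex
  refine ⟨fun l x => IsSquare ((x : ZMod l) * m l), fun l x y hxy h => ?_, fun l hp hl => ?_,
    fun j b e P t k γ g hI l hp hl ht => (hm l hp hl).2 j b e P t k γ g hI ht⟩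
  · beta_reduce
    rwa [(ZMod.intCast_eq_intCast_iff_dvd_sub y x l).2 hxy]
  · haveI := Fact.mk hp
    convert count (odd A hl) (hm l hp hl).1

end Pool.Agent.Lib.MP_9177b7_ag.S4
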