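import Pool.Agent.Lib.MP_9177b7_ag.B.Geo

/-!
Quadratic extensions of number fields: the different, invariant ideals, ideals of squarefree norm.
-/

open NumberField Module
open scoped nonZeroDivisors Pointwise

noncomputable section

namespace Pool.Agent.Lib.MP_9177b7_ag.S4.Quad

open B

section cyc

variable {M : Type} [Field M] [NumberField M] {I : Ideal (𝓞 M)}

theorem int_mem (h : Squarefree (Ideal.absNorm I)) (z : ℤ) :
    (z : 𝓞 M) ∈ I ↔ (Ideal.absNorm I : ℤ) ∣ z := by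
  constructor
  · intro hz
    have h1 := Ideal.absNorm_dvd_absNorm_of_le ((Ideal.span_singleton_le_iff_mem _).2 hz)
    rw [Ideal.absNorm_span_singleton, ← eq_intCast (algebraMap ℤ (𝓞 M)), Algebra.norm_algebraMap,
      Int.natAbs_pow, h.dvd_pow_iff_dvd finrank_pos.ne'] at h1
    exact Int.natCast_dvd.2 h1
  · rintro ⟨k, rfl⟩
    push_cast
    exact Ideal.mul_mem_right _ _ (Ideal.absNorm_mem I)

theorem cyc (h : Squarefree (Ideal.absNorm I)) : Cyc I := by
  have h0 : Ideal.absNorm I ≠ 0 := h.ne_zero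
  have hc : Nat.card (𝓞 M ⧸ I) = Ideal.absNorm I := by
    rw [Ideal.absNorm_apply, Submodule.cardQuot_apply]
  have : Finite (𝓞 M ⧸ I) := Nat.finite_of_card_ne_zero (hc ▸ h0)
  have hi : Function.Injective fun i : Fin (Ideal.absNorm I) =>
      Ideal.Quotient.mk I ((i : ℕ) : ℤ) := by
    intro i j e
    have k := Ideal.Quotient.eq.1 e
    rw [← Int.cast_sub, int_mem h] at k
    have := Int.eq_zero_of_abs_lt_dvd k (by have := i.2; have := j.2; rw [abs_lt]; omega)
    exact Fin.ext (by omega)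
  intro x
  obtain ⟨i, e⟩ := (hi.bijective_of_nat_card_le (by rw [hc, Nat.card_fin])).2
    (Ideal.Quotient.mk I x)
  exact ⟨_, Ideal.Quotient.eq.1 e.symm⟩

theorem norm_of_cyc (hc : Cyc I) {e : ℕ} (he : ∀ z : ℤ, (z : 𝓞 M) ∈ I ↔ (e : ℤ) ∣ z) :
    Ideal.absNorm I = e := by
  have hs : Function.Surjective (Int.castRingHom (𝓞 M ⧸ I)) := by
    intro q
    obtain ⟨x, rfl⟩ := Ideal.Quotient.mk_surjective q
    obtain ⟨z, hz⟩ := hc x
    exact ⟨z, by rw [eq_intCast, ← map_intCast (Ideal.Quotient.mk I), eq_comm]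
                 exact Ideal.Quotient.eq.2 hz⟩
  have hk : RingHom.ker (Int.castRingHom (𝓞 M ⧸ I)) = Ideal.span {(e : ℤ)} := by
    ext z
    rw [RingHom.mem_ker, eq_intCast, ← map_intCast (Ideal.Quotient.mk I),
      Ideal.Quotient.eq_zero_iff_mem, he, Ideal.mem_span_singleton]
  rw [Ideal.absNorm_apply, Submodule.cardQuot_apply,
    ← Nat.card_congr (RingHom.quotientKerEquivOfSurjective hs).toEquiv, hk,
    Nat.card_congr (Int.quotientSpanNatEquivZMod e).toEquiv, Nat.card_zmod]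

/-- The divisors of an ideal of squarefree norm. -/
theorem sup_norm (h : Squarefree (Ideal.absNorm I)) {e : ℕ} (he : e ∣ Ideal.absNorm I) :
    Ideal.absNorm (I ⊔ Ideal.span {(e : 𝓞 M)}) = e := by
  refine norm_of_cyc (fun x => (cyc h x).imp fun z hz => Ideal.mem_sup_left hz) fun z => ?_
  constructor
  · intro hz
    obtain ⟨y, hy, t, ht, e1⟩ := Submodule.mem_sup.1 hz
    obtain ⟨a, rfl⟩ := Ideal.mem_span_singleton'.1 ht
    obtain ⟨k, hk⟩ := cyc h a
    have : ((z - k * e : ℤ) : 𝓞 M) ∈ I := by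
      rw [show ((z - k * e : ℤ) : 𝓞 M) = y + (a - k) * e by push_cast; rw [← e1]; ring]
      exact add_mem hy (Ideal.mul_mem_right _ _ hk)
    have := (Int.natCast_dvd_natCast.2 he).trans ((int_mem h _).1 this)
    exact (dvd_sub_left (dvd_mul_left _ _)).1 this
  · rintro ⟨k, rfl⟩
    push_cast
    exact Ideal.mem_sup_right (Ideal.mul_mem_right _ _ (Ideal.mem_span_singleton_self _))

theorem eq_sup (h : Squarefree (Ideal.absNorm I)) {J : Ideal (𝓞 M)} (hJ : I ≤ J) :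
    Ideal.absNorm J ∣ Ideal.absNorm I ∧ J = I ⊔ Ideal.span {(Ideal.absNorm J : 𝓞 M)} := by
  have hd := Ideal.absNorm_dvd_absNorm_of_le hJ
  refine ⟨hd, le_antisymm (fun x hx => ?_)
    (sup_le hJ ((Ideal.span_singleton_le_iff_mem _).2 (Ideal.absNorm_mem J)))⟩
  obtain ⟨z, hz⟩ := cyc h x
  obtain ⟨k, hk⟩ := (int_mem (h.squarefree_of_dvd hd) z).1
    (by simpa using sub_mem hx (hJ hz))
  rw [show x = x - z + Ideal.absNorm J * k by rw [hk]; push_cast; ring]
  exact add_mem (Ideal.mem_sup_left hz)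
    (Ideal.mem_sup_right (Ideal.mul_mem_right _ _ (Ideal.mem_span_singleton_self _)))

omit [NumberField M] in
theorem top_of_coprime {a b : ℤ} (h : IsCoprime a b) (ha : (a : 𝓞 M) ∈ I) (hb : (b : 𝓞 M) ∈ I) :
    I = ⊤ := by
  obtain ⟨u, v, e⟩ := h
  have := congrArg (Int.cast : ℤ → 𝓞 M) e
  push_cast at this
  exact (Ideal.eq_top_iff_one _).2
    (this ▸ add_mem (Ideal.mul_mem_left _ _ ha) (Ideal.mul_mem_left _ _ hb))

theorem eq_of_norm {J : Ideal (𝓞 M)} (h : I ≤ J) (h0 : Ideal.absNorm J ≠ 0)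
    (e : Ideal.absNorm I = Ideal.absNorm J) : I = J := by
  obtain ⟨T, rfl⟩ := Ideal.dvd_iff_le.2 h
  rw [map_mul, mul_eq_left₀ h0, Ideal.absNorm_eq_one_iff] at e
  rw [e, Ideal.mul_top]

theorem norm_map (ρ : 𝓞 M ≃+* 𝓞 M) (I : Ideal (𝓞 M)) :
    Ideal.absNorm (I.map ρ) = Ideal.absNorm I := by
  rw [Ideal.absNorm_apply, Ideal.absNorm_apply, Submodule.cardQuot_apply, Submodule.cardQuot_apply]
  exact (Nat.card_congr (Ideal.quotientEquiv I _ ρ rfl).toEquiv).symm

/-- Polarisation. -/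
theorem pol (ρ : 𝓞 M ≃+* 𝓞 M) (S : Set (𝓞 M)) (w : 𝓞 M)
    (ha : ∀ x ∈ S, ∀ y ∈ S, x + y ∈ S) (hw : ∀ x ∈ S, w ∣ x * ρ x) :
    Ideal.span S * (Ideal.span S).map ρ ≤ Ideal.span {w} := by
  rw [Ideal.map_span, Ideal.span_mul_span, Ideal.span_le]
  rintro _ ⟨x, hx, _, ⟨y, hy, rfl⟩, rfl⟩
  obtain ⟨a, ea⟩ := hw x hx
  obtain ⟨b, eb⟩ := hw y hy
  obtain ⟨t, et⟩ := hw _ (ha x hx y hy)
  rw [map_add] at et
  set u := x * ρ y with hu
  have key : u * u = w * ((t - a - b) * u - a * b * w) := by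
    have e1 : u + y * ρ x = w * (t - a - b) := by linear_combination et - ea - eb
    have e2 : u * (y * ρ x) = w * a * (w * b) := by rw [← ea, ← eb, hu]; ring
    linear_combination u * e1 - e2
  by_cases u0 : u = 0
  · change u ∈ Ideal.span {w}
    rw [u0]; exact zero_mem _
  have J0 : (Ideal.span {u, w} : Ideal (𝓞 M)) ≠ 0 := fun e =>
    u0 ((Submodule.eq_bot_iff _).1 e u (Ideal.subset_span (by simp)))
  have m1 : u ∈ Ideal.span {u, w} := Ideal.subset_span (by simp)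
  have m2 : w ∈ Ideal.span {u, w} := Ideal.subset_span (by simp)
  have h3 : Ideal.span {u} * Ideal.span {u, w} ≤ Ideal.span {w} * Ideal.span {u, w} := by
    rw [Ideal.span_mul_span, Ideal.span_le]
    rintro _ ⟨_, rfl, v, rfl | rfl, rfl⟩
    · change u * u ∈ _
      rw [key]
      exact Ideal.mul_mem_mul (Ideal.mem_span_singleton_self _)
        (sub_mem (Ideal.mul_mem_left _ _ m1) (Ideal.mul_mem_left _ _ m2))
    · change u * v ∈ _
      rw [mul_comm u]
      exact Ideal.mul_mem_mul (Ideal.mem_span_singleton_self _) m1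
  rw [← Ideal.dvd_iff_le, mul_dvd_mul_iff_right J0, Ideal.dvd_span_singleton] at h3
  exact h3

end cyc

/-- The action of an automorphism on the ring of integers. -/
def oa {F M : Type} [Field F] [Field M] [Algebra F M] (σ : M ≃ₐ[F] M) : 𝓞 M ≃+* 𝓞 M :=
  RingOfIntegers.mapRingEquiv σ.toRingEquiv

/-- The ideal generated by the differences `a - σ a`. -/
def Df {F M : Type} [Field F] [Field M] [Algebra F M] (σ : M ≃ₐ[F] M) : Ideal (𝓞 M) :=
  Ideal.span (Set.range fun a => a - oa σ a)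

variable {F M : Type} [Field F] [Field M] [Algebra F M] {σ : M ≃ₐ[F] M}

@[simp] theorem oa_coe (x : 𝓞 M) : (oa σ x : M) = σ x := rfl

theorem oa_alg (x : 𝓞 F) : oa σ (algebraMap _ _ x) = algebraMap _ _ x :=
  RingOfIntegers.ext (σ.commutes (x : F))

theorem sub_mem_Df (a : 𝓞 M) : a - oa σ a ∈ Df σ := Ideal.subset_span ⟨a, rfl⟩

variable [NumberField F] [NumberField M] (h2 : finrank F M = 2) (hσ : σ ≠ 1)

include h2 hσ

theorem trace_eq (x : M) : algebraMap F M (Algebra.trace F M x) = x + σ x := by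
  classical
  have : Algebra.IsQuadraticExtension F M := ⟨h2⟩
  have h : (Finset.univ : Finset (M ≃ₐ[F] M)) = {1, σ} := by
    refine (Finset.eq_univ_of_card _ ?_).symm
    rw [Finset.card_pair hσ.symm, ← Nat.card_eq_fintype_card, IsGalois.card_aut_eq_finrank, h2]
  rw [trace_eq_sum_automorphisms, h, Finset.sum_pair hσ.symm]
  rfl

theorem invol (x : M) : σ (σ x) = x := by
  have h := σ.commutes (Algebra.trace F M x)
  rw [trace_eq h2 hσ, map_add] at h
  linear_combination h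

theorem fix {x : M} (h : σ x = x) : ∃ y : F, algebraMap F M y = x :=
  ⟨Algebra.trace F M x / 2, by rw [map_div₀, trace_eq h2 hσ, h, map_ofNat]; ring⟩

theorem oa_oa (x : 𝓞 M) : oa σ (oa σ x) = x := RingOfIntegers.ext (invol h2 hσ x)

theorem fixO {x : 𝓞 M} (h : oa σ x = x) : ∃ y : 𝓞 F, algebraMap _ _ y = x := by
  obtain ⟨y, hy⟩ := fix h2 hσ (congrArg (fun z : 𝓞 M => (z : M)) h)
  refine ⟨⟨y, ?_⟩, RingOfIntegers.ext hy⟩
  exact (isIntegral_algebraMap_iff (algebraMap F M).injective).1 (hy ▸ x.isIntegral_coe)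

omit [NumberField F] h2 in
theorem Df_ne : Df σ ≠ ⊥ := by
  intro e
  refine hσ (AlgEquiv.ext fun x => ?_)
  obtain ⟨a, b, hb, rfl⟩ := IsFractionRing.div_surjective (A := 𝓞 M) x
  have k : ∀ a : 𝓞 M, σ (algebraMap _ M a) = algebraMap _ M a := fun a => by
    have := sub_mem_Df (σ := σ) a
    rw [e, Ideal.mem_bot, sub_eq_zero] at this
    exact (congrArg (fun z : 𝓞 M => (z : M)) this).symm
  rw [map_div₀, k, k, AlgEquiv.one_apply]

theorem Df_map : (Df σ).map (oa σ) = Df σ := by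
  rw [Df, Ideal.map_span, ← Set.range_comp]
  congr 1
  ext t
  constructor <;> rintro ⟨a, rfl⟩
  · exact ⟨oa σ a, by simp⟩
  · exact ⟨oa σ a, by simp [oa_oa h2 hσ]⟩

theorem diff_eq : differentIdeal (𝓞 F) (𝓞 M) = Df σ := by
  apply le_antisymm
  · rw [differentialIdeal_le_iff (K := F) (L := M) (Df_ne hσ)]
    rintro _ ⟨x, hx, rfl⟩
    have hx' : ∀ t ∈ Df σ, ∃ y : 𝓞 M, (y : M) = x * t := fun t ht =>
      (FractionalIdeal.mem_one_iff _).1 ((FractionalIdeal.mem_inv_iff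
        (FractionalIdeal.coeIdeal_ne_zero.2 (Df_ne hσ))).1 hx _
          (FractionalIdeal.mem_coeIdeal_of_mem _ ht))
    have T0 : ((Df σ * Df σ : Ideal (𝓞 M)) : FractionalIdeal (𝓞 M)⁰ M) ≠ 0 :=
      FractionalIdeal.coeIdeal_ne_zero.2 (mul_ne_zero (Df_ne hσ) (Df_ne hσ))
    have key : ∀ z ∈ Ideal.span ((Set.range fun a => a - oa σ a) *
        (Set.range fun a => a - oa σ a)),
        ∃ y ∈ Df σ * Df σ, algebraMap _ M y = (x + σ x) * algebraMap _ M z := by
      intro z hz'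
      induction hz' using Submodule.span_induction with
      | mem z hz =>
        obtain ⟨_, ⟨a, rfl⟩, _, ⟨b, rfl⟩, rfl⟩ := hz
        obtain ⟨y, hy⟩ := hx' _ (sub_mem_Df a)
        refine ⟨_, Ideal.mul_mem_mul (sub_mem_Df y) (sub_mem_Df b), ?_⟩
        have e := congrArg σ hy
        simp only [map_mul, map_sub, RingOfIntegers.coe_eq_algebraMap] at e hy ⊢
        change (y - σ y) * _ = _
        change σ y = σ x * (σ a - σ (σ a)) at e
        change (y : M) = x * (a - σ a) at hy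
        rw [e, hy, invol h2 hσ]
        change _ = (x + σ x) * ((a - σ a) * _)
        ring
      | zero => exact ⟨0, zero_mem _, by simp⟩
      | add y z _ _ hy hz =>
        obtain ⟨a, ha, ea⟩ := hy
        obtain ⟨b, hb, eb⟩ := hz
        exact ⟨a + b, add_mem ha hb, by rw [map_add, map_add, ea, eb, mul_add]⟩
      | smul r y _ hy =>
        obtain ⟨a, ha, ea⟩ := hy
        exact ⟨r * a, Ideal.mul_mem_left _ _ ha, by
          rw [smul_eq_mul, map_mul, map_mul, ea]; ring⟩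
    have h1 : FractionalIdeal.spanSingleton _ (x + σ x) *
        ((Df σ * Df σ : Ideal (𝓞 M)) : FractionalIdeal (𝓞 M)⁰ M) ≤
        1 * ((Df σ * Df σ : Ideal (𝓞 M)) : FractionalIdeal (𝓞 M)⁰ M) := by
      rw [one_mul, FractionalIdeal.mul_le]
      intro _ hv _ hz
      obtain ⟨v, rfl⟩ := (FractionalIdeal.mem_spanSingleton _).1 hv
      obtain ⟨z, hz, rfl⟩ := (FractionalIdeal.mem_coeIdeal _).1 hz
      rw [smul_mul_assoc]
      refine Submodule.smul_mem (FractionalIdeal.coeToSubmodule _) _ ?_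
      exact (FractionalIdeal.mem_coeIdeal _).2 (key z (by rwa [← Ideal.span_mul_span']))
    rw [mul_le_mul_iff_left₀ (bot_lt_iff_ne_bot.2 T0), FractionalIdeal.spanSingleton_le_iff_mem,
      FractionalIdeal.mem_one_iff] at h1
    obtain ⟨y, hy⟩ := h1
    obtain ⟨z, rfl⟩ := fixO h2 hσ (x := y) (RingOfIntegers.ext (by
      change σ (algebraMap _ M y) = algebraMap _ M y
      rw [hy, map_add, invol h2 hσ, add_comm]))
    refine Submodule.mem_one.2 ⟨z, (algebraMap F M).injective ?_⟩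
    change _ = algebraMap F M (Algebra.trace F M x)
    rw [trace_eq h2 hσ, ← hy, ← IsScalarTower.algebraMap_apply, ← IsScalarTower.algebraMap_apply]
  · rw [Df, Ideal.span_le]
    rintro _ ⟨d, rfl⟩
    have h : algebraMap (𝓞 M) M (d - oa σ d) ∈ ((differentIdeal (𝓞 F) (𝓞 M) :
        Ideal (𝓞 M)) : FractionalIdeal (𝓞 M)⁰ M) := by
      rw [coeIdeal_differentIdeal _ F M, FractionalIdeal.mem_inv_iff
        (FractionalIdeal.dual_ne_zero _ _ (one_ne_zero' (FractionalIdeal (𝓞 M)⁰ M)))]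
      intro t ht
      rw [FractionalIdeal.mem_dual (one_ne_zero' (FractionalIdeal (𝓞 M)⁰ M))] at ht
      obtain ⟨y, hy⟩ := ht 1 (FractionalIdeal.one_mem_one _)
      obtain ⟨z, hz⟩ := ht _ (FractionalIdeal.coe_mem_one _ d)
      have hy' := congrArg (algebraMap _ M) hy
      have hz' := congrArg (algebraMap _ M) hz
      rw [Algebra.traceForm_apply, trace_eq h2 hσ, ← IsScalarTower.algebraMap_apply,
        IsScalarTower.algebraMap_apply _ (𝓞 M) M] at hy' hz'
      refine (FractionalIdeal.mem_one_iff _).2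
        ⟨algebraMap _ _ z - oa σ d * algebraMap _ _ y, ?_⟩
      have hd' : algebraMap (𝓞 M) M (oa σ d) = σ (algebraMap (𝓞 M) M d) := rfl
      rw [map_sub, map_mul, hy', hz', map_mul, map_mul, map_sub, hd', map_one]
      ring
    obtain ⟨x, hx, e⟩ := (FractionalIdeal.mem_coeIdeal _).1 h
    change d - oa σ d ∈ _
    rwa [← IsFractionRing.injective (𝓞 M) M e]

theorem disc : (discr M).natAbs = Ideal.absNorm (Df σ) * (discr F).natAbs ^ 2 := by
  rw [natAbs_discr_eq_absNorm_differentIdeal_mul_natAbs_discr_pow F (𝓞 F) M (𝓞 M), h2,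
    diff_eq h2 hσ]

omit hσ in
theorem norm_ext (I : Ideal (𝓞 F)) :
    Ideal.absNorm (I.map (algebraMap (𝓞 F) (𝓞 M))) = Ideal.absNorm I ^ 2 := by
  rw [Ideal.absNorm_algebraMap, ← IsFractionRing.finrank_eq (𝓞 F) F (𝓞 M) M, h2]

/-- The relative discriminant. -/
theorem sq_Df : ∃ d : Ideal (𝓞 F), d.map (algebraMap (𝓞 F) (𝓞 M)) = Df σ * Df σ ∧
    Ideal.absNorm d = Ideal.absNorm (Df σ) := by
  have e : ((Df σ * Df σ).comap (algebraMap (𝓞 F) (𝓞 M))).map (algebraMap (𝓞 F) (𝓞 M)) =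
      Df σ * Df σ := by
    refine le_antisymm Ideal.map_comap_le ?_
    conv_lhs => rw [Df, Ideal.span_mul_span']
    rw [Ideal.span_le]
    rintro _ ⟨_, ⟨a, rfl⟩, _, ⟨b, rfl⟩, rfl⟩
    obtain ⟨z, hz⟩ := fixO h2 hσ (x := (a - oa σ a) * (b - oa σ b))
      (by simp only [map_mul, map_sub, oa_oa h2 hσ]; ring)
    change (a - oa σ a) * (b - oa σ b) ∈ _
    rw [← hz]
    exact Ideal.mem_map_of_mem _ (by
      rw [Ideal.mem_comap, hz]; exact Ideal.mul_mem_mul (sub_mem_Df a) (sub_mem_Df b))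
  refine ⟨_, e, ?_⟩
  have := congrArg Ideal.absNorm e
  rw [norm_ext h2, map_mul, ← sq (Ideal.absNorm _)] at this
  exact (pow_left_inj₀ (Nat.zero_le _) (Nat.zero_le _) two_ne_zero).1 this

/-- Invariant ideals. -/
theorem amb (hs : Squarefree (Ideal.absNorm (Df σ))) {g : Ideal (𝓞 M)} (g0 : g ≠ ⊥)
    (hg : ∀ x ∈ g, oa σ x ∈ g) : ∃ (f : Ideal (𝓞 F)) (e : ℕ), f ≠ ⊥ ∧ e ∣ Ideal.absNorm (Df σ) ∧
      g * (Df σ ⊔ Ideal.span {(e : 𝓞 M)}) = f.map (algebraMap (𝓞 F) (𝓞 M)) := by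
  set E := (g.comap (algebraMap (𝓞 F) (𝓞 M))).map (algebraMap (𝓞 F) (𝓞 M)) with hE
  have h1 : ∀ x ∈ g, x + oa σ x ∈ E := by
    intro x hx
    obtain ⟨z, hz⟩ := fixO h2 hσ (x := x + oa σ x) (by rw [map_add, oa_oa h2 hσ, add_comm])
    rw [← hz]
    exact Ideal.mem_map_of_mem _ (by rw [Ideal.mem_comap, hz]; exact add_mem hx (hg x hx))
  have h3 : Df σ * g ≤ E := by
    rw [Ideal.mul_le]
    intro t ht x hx
    induction ht using Submodule.span_induction with
    | mem t ht =>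
      obtain ⟨a, rfl⟩ := ht
      have := sub_mem (h1 _ (Ideal.mul_mem_left _ a hx)) (Ideal.mul_mem_left _ (oa σ a) (h1 x hx))
      convert this using 1
      rw [map_mul]; ring
    | zero => simp
    | add y z _ _ hy hz => rw [add_mul]; exact add_mem hy hz
    | smul r y _ hy => rw [smul_eq_mul, mul_assoc]; exact Ideal.mul_mem_left _ _ hy
  obtain ⟨d, hd⟩ : g ∣ E := Ideal.dvd_iff_le.2 Ideal.map_comap_le
  have h4 : Df σ ≤ d := by
    rwa [hd, mul_comm g, ← Ideal.dvd_iff_le, mul_dvd_mul_iff_right g0, Ideal.dvd_iff_le] at h3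
  obtain ⟨a1, a2⟩ := eq_sup hs h4
  refine ⟨_, _, fun e => ?_, a1, by rw [← a2, ← hd]⟩
  rw [hE, e, Ideal.map_bot] at hd
  exact mul_ne_zero g0 (fun e' => Df_ne hσ (le_bot_iff.1 (h4.trans (le_of_eq e')))) hd.symm

omit h2 hσ

variable {τ : F ≃ₐ[ℚ] F} (h : finrank ℚ F = 2) (hτ : τ ≠ 1)

include h hτ

/-- The integral basis of a quadratic field. -/
theorem basis : ∃ ω : 𝓞 F, (∀ x : 𝓞 F, ∃ a b : ℤ, x = a + b * ω) ∧
    (ω - oa τ ω) ^ 2 = (discr F : ℤ) := by
  obtain ⟨l, hl⟩ := Geo.retr (F := F)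
  have hr : finrank ℤ (LinearMap.ker l) = 1 := by
    have h1 := (Geo.cons hl (finBasis ℤ (LinearMap.ker l))).mk_eq_rank''
    rw [← finrank_eq_rank, RingOfIntegers.rank, h, Cardinal.mk_fin, Nat.cast_inj] at h1
    omega
  let b := Geo.cons hl (finBasisOfFinrankEq ℤ (LinearMap.ker l) hr)
  have b0 : b 0 = 1 := Geo.cons_zero _ _
  refine ⟨b 1, fun x => ⟨b.repr x 0, b.repr x 1, ?_⟩, ?_⟩
  · conv_lhs => rw [← b.sum_repr x, Fin.sum_univ_two, b0]
    simp
  · have t : ∀ x : 𝓞 F, ((Algebra.trace ℤ (𝓞 F) x : ℤ) : 𝓞 F) = x + oa τ x := fun x => by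
      apply RingOfIntegers.ext
      have := trace_eq h hτ (x : F)
      rw [← Algebra.coe_trace_int] at this
      simpa using this
    rw [← discr_eq_discr F b, Algebra.discr_def, Matrix.det_fin_two]
    simp only [Algebra.traceMatrix_apply, Algebra.traceForm_apply, b0]
    push_cast
    simp only [t, map_mul, map_one]
    ring

/-- An ideal of a quadratic field times its conjugate. -/
theorem mul_conj {I : Ideal (𝓞 F)} (h0 : I ≠ ⊥) :
    I * I.map (oa τ) = Ideal.span {(Ideal.absNorm I : 𝓞 F)} := by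
  have hN : ∀ x : 𝓞 F, x * oa τ x = (Algebra.norm ℤ x : ℤ) := fun x => by
    classical
    have : Algebra.IsQuadraticExtension ℚ F := ⟨h⟩
    have hu : (Finset.univ : Finset (F ≃ₐ[ℚ] F)) = {1, τ} := by
      refine (Finset.eq_univ_of_card _ ?_).symm
      rw [Finset.card_pair hτ.symm, ← Nat.card_eq_fintype_card, IsGalois.card_aut_eq_finrank, h]
    apply RingOfIntegers.ext
    have := Algebra.norm_eq_prod_automorphisms ℚ (x : F)
    rw [hu, Finset.prod_pair hτ.symm, ← Algebra.coe_norm_int] at this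
    simpa using this.symm
  have n0 : Ideal.absNorm I ≠ 0 := by rwa [Ne, Ideal.absNorm_eq_zero_iff]
  have e : Ideal.absNorm (Ideal.span {(Ideal.absNorm I : 𝓞 F)}) = Ideal.absNorm I ^ 2 := by
    rw [Ideal.absNorm_span_natCast, RingOfIntegers.rank, h]
  refine eq_of_norm ?_ (e ▸ pow_ne_zero _ n0) (by rw [e, map_mul, norm_map, sq])
  have := pol (oa τ) I (Ideal.absNorm I) (fun x hx y hy => add_mem hx hy) fun x hx => by
    obtain ⟨k, hk⟩ := Ideal.absNorm_dvd_norm_of_mem hx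
    exact ⟨k, by rw [hN, hk]; push_cast; rfl⟩
  rwa [Ideal.span_eq] at this

end Pool.Agent.Lib.MP_9177b7_ag.S4.Quad
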