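import Pool.Agent.Lib.MP_9177b7_ag.S4.StC
import Pool.Agent.Lib.MP_9177b7_ag.S4.Quad

/-!
The invariants of an object of a twisted lattice.
-/

open NumberField Matrix
open scoped nonZeroDivisors

noncomputable section

namespace Pool.Agent.Lib.MP_9177b7_ag.S4

namespace Inv

/-- The relations between the coordinates of an object in a diagonal frame. -/
theorem wedge {R : Type} [Field R] [CharZero R] (M : M4 R) (P : M4 ℤ) (x y : R) (hP : Ob P)
    (hM : Mᵀ * (diagonal ![x, y, x, y] * J4 R) * M = J4 R) (Q : M4 R)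
    (hQ : Q = M * P.map (Int.cast : ℤ → R) * Mᵀ) :
    (∀ i j, Q j i = -Q i j) ∧ x * Q 0 2 + y * Q 1 3 = 1 ∧
      Q * (diagonal ![x, y, x, y] * J4 R) * Q = -Q ∧
      -(x * y * Q 0 1 * Q 2 3) + x * y * Q 0 3 * Q 2 1 = (x * Q 0 2) ^ 2 - x * Q 0 2 := by
  have j : (J4 ℤ).map (Int.castRingHom R) = J4 R := by
    ext i j
    fin_cases i <;> fin_cases j <;> simp [J4]
  set P' := P.map (Int.cast : ℤ → R) with hP'
  have e : P' = P.map (Int.castRingHom R) := rfl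
  have s1 : P'ᵀ = -P' := by
    ext i j
    have := congrFun (congrFun hP.skew i) j
    simp only [transpose_apply, neg_apply] at this
    simp [hP', this]
  have s2 : P' * J4 R * P' = -P' := by
    have := congrArg (·.map (Int.castRingHom R)) hP.idem
    simp only [Matrix.map_mul, j] at this
    rw [e, this]
    ext i j
    simp
  have s3 : trace (P' * J4 R) = -2 := by
    have := congrArg (Int.castRingHom R) hP.tr
    rw [AddMonoidHom.map_trace, Matrix.map_mul, j] at this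
    rw [e, this]
    simp
  have k1 : ∀ i j, Q j i = -Q i j := fun i j => by
    have : Qᵀ = -Q := by
      rw [hQ, transpose_mul, transpose_mul, transpose_transpose, s1]
      simp only [mul_neg, neg_mul, mul_assoc]
    exact congrFun (congrFun this i) j
  have k2 : Q * (diagonal ![x, y, x, y] * J4 R) * Q = -Q := by
    calc _ = M * (P' * (Mᵀ * (diagonal ![x, y, x, y] * J4 R) * M) * P') * Mᵀ := by
          rw [hQ]; simp only [mul_assoc]
      _ = _ := by rw [hM, s2, hQ]; simp only [mul_neg, neg_mul]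
  have k3 : trace (Q * (diagonal ![x, y, x, y] * J4 R)) = -2 := by
    calc _ = trace (P' * (Mᵀ * (diagonal ![x, y, x, y] * J4 R) * M)) := by
          rw [hQ, mul_assoc, mul_assoc, trace_mul_comm]
          simp only [mul_assoc]
      _ = _ := by rw [hM, s3]
  have z : ∀ i, Q i i = 0 := fun i => by
    have := k1 i i
    linear_combination this / 2
  have k4 := congrFun (congrFun k2 0) 2
  simp [trace, Matrix.mul_apply, Fin.sum_univ_four, J4, diagonal_apply] at k3 k4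
  refine ⟨k1, ?_, k2, ?_⟩
  · rw [k1 0 2, k1 1 3] at k3
    linear_combination -k3 / 2
  · rw [z, k1 2 1, k1 2 3] at k4
    linear_combination x * k4

variable {p : ℕ} [Fact p.Prime] (D : Dat p)

theorem PP_apply (e : Fin 4 → D.E) (P : M4 ℤ) (a b : Fin 4) :
    D.PP e P a b = ∑ j, ∑ i, D.em a (e i) * P i j * D.em b (e j) := by
  simp only [Dat.PP, Dat.Em, Matrix.mul_apply, transpose_apply, map_apply, of_apply,
    Finset.sum_mul]

theorem PP_map (e : Fin 4 → D.E) (P : M4 ℤ) (σ : D.N ≃ₐ[ℚ] D.N) (f : Fin 4 → Fin 4)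
    (h : ∀ i x, σ (D.em i x) = D.em (f i) x) (a b : Fin 4) :
    σ (D.PP e P a b) = D.PP e P (f a) (f b) := by
  simp only [PP_apply, map_sum, map_mul, h, map_intCast]

theorem iK_inj : Function.Injective D.iK := fun _ _ h =>
  Subtype.ext (D.iL.injective h)

/-- The invariants that do not depend on ideals. -/
theorem first (hG : GalStmt) (hF : FrameStmt) (A : D.Ar) (b : Ideal (𝓞 D.L)) (e : Fin 4 → D.E)
    (P : M4 ℤ) (hb : b ≠ ⊥) (he : Frame (D.xi b) (D.tw b) e) (hP : Ob P) :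
    ∃ (t : ℤ) (γ : D.L) (ν : D.K) (q : ℚ),
      D.iv (D.xi b) e P 0 = 1 / 2 + (2 * t + 1) / (2 * D.iE A.w) ∧
      D.Dn * D.iK A.θ * D.iv (D.xi b) e P 1 = D.iK ν ∧
      D.Dn * D.iK A.θ * D.iv (D.xi b) e P 1 = (q - A.dl t * D.iK A.θ) / 2 ∧
      D.Dn * D.iK A.θ * D.iv (D.xi b) e P 2 = -(q + A.dl t * D.iK A.θ) / 2 ∧
      D.iL γ * D.iE A.w = Ideal.absNorm b * D.PP e P 2 3 ∧
      D.Dn * γ * D.bL γ = (FractionalIdeal.absNorm D.a : ℚ) * (ν : D.L) := by
  obtain ⟨-, -, -, -, -, -, -, -, cE, cL, em0, ema, -, -, -, tr, -, fixQ, fixK, -⟩ := hG p D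
  obtain ⟨hx, -⟩ := (hF p D).2 b hb
  obtain ⟨-, -, ea, -, -, sd, hM, -⟩ := (hF p D).1 _ _ e hx he
  obtain ⟨k1, k2, -, k4⟩ := wedge _ P _ _ hP hM (D.PP e P) rfl
  have qc := PP_map D e P D.c (· + 2) fun i x => (ema i x).2.1
  have qr := PP_map D e P D.r _ fun i x => (ema i x).2.2.1
  have qs := PP_map D e P D.s _ fun i x => (ema i x).2.2.2
  have i0 : D.iv (D.xi b) e P 0 = D.em 0 (D.xi b) * D.PP e P 0 2 := rfl
  have i1 : D.iv (D.xi b) e P 1 =
    -(D.em 0 (D.xi b) * D.em 1 (D.xi b) * D.PP e P 0 1 * D.PP e P 2 3) := rfl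
  have i2 : D.iv (D.xi b) e P 2 =
    D.em 0 (D.xi b) * D.em 1 (D.xi b) * D.PP e P 0 3 * D.PP e P 2 1 := rfl
  have x2 : D.em 2 (D.xi b) = -D.em 0 (D.xi b) := by
    rw [← map_neg, ← hx, (ema 0 _).1]; rfl
  have x3 : D.em 3 (D.xi b) = -D.em 1 (D.xi b) := by
    rw [← map_neg, ← hx, (ema 1 _).1]; rfl
  have xr0 : D.r (D.em 0 (D.xi b)) = D.em 1 (D.xi b) := (ema 0 _).2.2.1
  have xr1 : D.r (D.em 1 (D.xi b)) = D.em 0 (D.xi b) := (ema 1 _).2.2.1
  have xs0 : D.s (D.em 0 (D.xi b)) = D.em 0 (D.xi b) := (ema 0 _).2.2.2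
  have xs1 : D.s (D.em 1 (D.xi b)) = -D.em 1 (D.xi b) := x3 ▸ (ema 1 _).2.2.2
  have xc0 : D.c (D.em 0 (D.xi b)) = -D.em 0 (D.xi b) := x2 ▸ (ema 0 _).2.1
  have xc1 : D.c (D.em 1 (D.xi b)) = -D.em 1 (D.xi b) := x3 ▸ (ema 1 _).2.1
  have n0 : D.em 0 (D.xi b) = Ideal.absNorm b * D.em 0 D.ξ := by rw [map_mul, map_natCast]
  have n1 : D.em 1 (D.xi b) = Ideal.absNorm b * D.em 1 D.ξ := by rw [map_mul, map_natCast]
  have r02 : D.r (D.PP e P 0 2) = D.PP e P 1 3 := qr 0 2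
  have r01 : D.r (D.PP e P 0 1) = -D.PP e P 0 1 := (qr 0 1).trans (k1 0 1)
  have r23 : D.r (D.PP e P 2 3) = -D.PP e P 2 3 := (qr 2 3).trans (k1 2 3)
  have r03 : D.r (D.PP e P 0 3) = -D.PP e P 2 1 := (qr 0 3).trans (k1 2 1)
  have r21 : D.r (D.PP e P 2 1) = -D.PP e P 0 3 := (qr 2 1).trans (k1 0 3)
  have s02 : D.s (D.PP e P 0 2) = D.PP e P 0 2 := qs 0 2
  have s01 : D.s (D.PP e P 0 1) = D.PP e P 0 3 := qs 0 1
  have s23 : D.s (D.PP e P 2 3) = D.PP e P 2 1 := qs 2 3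
  have s03 : D.s (D.PP e P 0 3) = D.PP e P 0 1 := qs 0 3
  have s21 : D.s (D.PP e P 2 1) = D.PP e P 2 3 := qs 2 1
  have c01 : D.c (D.PP e P 0 1) = D.PP e P 2 3 := qc 0 1
  have c23 : D.c (D.PP e P 2 3) = D.PP e P 0 1 := qc 2 3
  have ws : D.s (D.iE A.w) = D.iE A.w := (D.sp.fixE _).2 ⟨_, rfl⟩
  have wc : D.c (D.iE A.w) = D.iE A.w := by rw [← cE, A.w_bar]
  have w2 : D.iE A.w ^ 2 = D.Dn := by
    have := congrArg (fun x : 𝓞 D.E => D.iE x) A.w_sq
    simpa using this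
  have d0 : (D.Dn : D.N) ≠ 0 := Nat.cast_ne_zero.2 (by have := A.Dn_gt; omega)
  have w0 : D.iE A.w ≠ 0 := fun h => d0 (by rw [← w2, h]; ring)
  have tr' : D.r (D.iK A.θ) = D.iK A.θ := (D.sp.fixL _).2 ⟨_, rfl⟩
  have tc : D.c (D.iK A.θ) = D.iK A.θ := by
    rw [← cL]
    exact congrArg D.iL (IsCMField.complexConj_apply_eq_self D.L _)
  have dd : (D.Dn : D.N) = 4 * A.d₀ + 1 := by exact_mod_cast congrArg (Int.cast : ℤ → D.N) A.hd₀
  -- the integer `t`
  obtain ⟨ω, hω⟩ := A.w_int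
  have o2 : 2 * D.iE ω = 1 + D.iE A.w := by
    have := congrArg (fun x : 𝓞 D.E => D.iE x) hω
    simpa [map_ofNat] using this
  have o3 : 2 * D.r (D.iE ω) = 1 - D.iE A.w := by
    have := congrArg D.r o2
    rwa [map_mul, map_add, map_one, A.w_r, map_ofNat, ← sub_eq_add_neg] at this
  have oc : D.c (D.iE ω) = D.iE ω := by
    have := congrArg D.c o2
    rw [map_mul, map_add, map_one, wc, map_ofNat, ← o2] at this
    exact mul_left_cancel₀ two_ne_zero this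
  have ob : D.bE ω = ω := D.iE.injective (by rw [cE, oc])
  have ti : ∀ i j, ∃ n : ℤ, Algebra.trace ℚ D.E (D.xi b * (ω * e i) * D.bE (e j)) = n :=
    fun i j => (sd _).1 (by
      have := (D.tw b).1.smul_mem ω (ea i)
      rwa [Algebra.smul_def] at this) _ (ea j)
  choose n hn using ti
  have hn' : ∀ i j, (n i j : D.N) =
      D.em 0 (D.xi b) * D.iE ω * (D.em 0 (e i) * D.em 2 (e j) - D.em 0 (e j) * D.em 2 (e i)) +
      D.em 1 (D.xi b) * D.r (D.iE ω) *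
        (D.em 1 (e i) * D.em 3 (e j) - D.em 1 (e j) * D.em 3 (e i)) := fun i j => by
    have h := tr (D.xi b * (ω * e i) * D.bE (e j))
    rw [hn, Rat.cast_intCast, Fin.sum_univ_four] at h
    have a2 : D.em 2 ω = D.iE ω := by rw [← (em0 _).1, ← ob, (ema 2 _).1, ob]; rfl
    have a3 : D.em 3 ω = D.r (D.iE ω) := by rw [← (em0 _).2.1, ← ob, (ema 3 _).1, ob]; rfl
    have b0 : D.em 0 (D.bE (e j)) = D.em 2 (e j) := (ema 0 _).1
    have b1 : D.em 1 (D.bE (e j)) = D.em 3 (e j) := (ema 1 _).1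
    have b2 : D.em 2 (D.bE (e j)) = D.em 0 (e j) := (ema 2 _).1
    have b3 : D.em 3 (D.bE (e j)) = D.em 1 (e j) := (ema 3 _).1
    rw [h]
    simp only [map_mul (D.em _) (_ * _) (D.bE _), map_mul (D.em _) (D.xi b),
      map_mul (D.em _) (ω : D.E), x2, x3, a2, a3, b0, b1, b2, b3, (em0 (ω : D.E)).1,
      (em0 (ω : D.E)).2.1]
    ring
  have sk : ∀ i j, (P j i : D.N) = -P i j := fun i j => by
    have : P j i = -P i j := congrFun (congrFun hP.skew i) j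
    rw [this, Int.cast_neg]
  have sz : ∀ i, (P i i : D.N) = 0 := fun i => by
    have := sk i i
    linear_combination this / 2
  obtain ⟨z, hz⟩ : ∃ z : ℤ, (z : D.N) = D.em 0 (D.xi b) * D.iE ω * D.PP e P 0 2 +
      D.em 1 (D.xi b) * D.r (D.iE ω) * D.PP e P 1 3 := by
    refine ⟨P 0 1 * n 0 1 + P 0 2 * n 0 2 + P 0 3 * n 0 3 + P 1 2 * n 1 2 + P 1 3 * n 1 3 +
      P 2 3 * n 2 3, ?_⟩
    push_cast
    simp only [hn', PP_apply, Fin.sum_univ_four, sz, sk 0 1, sk 0 2, sk 0 3, sk 1 2, sk 1 3, sk 2 3]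
    ring
  have eta : D.em 0 (D.xi b) * D.PP e P 0 2 =
      1 / 2 + (2 * ((z - 1 : ℤ) : D.N) + 1) / (2 * D.iE A.w) := by
    push_cast
    field_simp
    linear_combination -2 * hz - (D.em 0 (D.xi b) * D.PP e P 0 2) * o2 -
      (D.em 1 (D.xi b) * D.PP e P 1 3) * o3 - (1 - D.iE A.w) * k2
  have dl : D.Dn * (D.iv (D.xi b) e P 1 + D.iv (D.xi b) e P 2) = -A.dl (z - 1) := by
    rw [i1, i2, k4, eta, Dat.Ar.dl, ← w2]
    push_cast
    field_simp
    linear_combination -dd - w2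
  obtain ⟨γ, hγ⟩ := (D.sp.fixL (Ideal.absNorm b * D.PP e P 2 3 / D.iE A.w)).1 (by
    rw [map_div₀, map_mul, map_natCast, r23, A.w_r, mul_neg, neg_div_neg_eq])
  obtain ⟨ν, hν⟩ := fixK (D.Dn * D.iK A.θ * D.iv (D.xi b) e P 1)
    (by simp only [i1, map_mul D.r, map_neg, map_natCast, tr', xr0, xr1, r01, r23]; ring)
    (by simp only [i1, map_mul D.c, map_neg, map_natCast, tc, xc0, xc1, c01, c23]; ring)
  obtain ⟨q, hq⟩ := fixQ (D.Dn * D.iK A.θ * (D.iv (D.xi b) e P 1 - D.iv (D.xi b) e P 2))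
    (by simp only [i1, i2, map_mul D.r, map_sub, map_neg, map_natCast, tr', xr0, xr1, r01, r23,
          r03, r21]; ring)
    (by simp only [i1, i2, map_mul D.s, map_sub, map_neg, map_natCast, A.θ_s, xs0, xs1, s01, s23,
          s03, s21]; ring)
  refine ⟨z - 1, γ, ν, q, eta, hν, ?_, ?_, ?_, D.iL.injective ?_⟩
  · linear_combination hq / 2 + D.iK A.θ / 2 * dl
  · linear_combination -hq / 2 + D.iK A.θ / 2 * dl
  · rw [hγ, div_mul_cancel₀ _ w0]
  · rw [map_mul, map_mul, map_mul, cL, map_natCast, map_ratCast, hγ, map_div₀, map_mul,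
      map_natCast, c23, wc]
    change _ = _ * D.iK ν
    rw [← hν, i1, n0, n1]
    have e1 : (D.Dn : D.N) * (D.iE A.w)⁻¹ ^ 2 = 1 := by rw [← w2]; field_simp
    linear_combination (Ideal.absNorm b) ^ 2 * D.PP e P 2 3 * D.PP e P 0 1 * (A.θ_nrm + e1)

/-- The integer `k`. -/
theorem second (hN : NrmStmt) (A : D.Ar) (t : ℤ) (q : ℚ) (ν : 𝓞 D.K) (g : Ideal (𝓞 D.L))
    (h : D.iK ν = (q - A.dl t * D.iK A.θ) / 2)
    (hg : g * D.cL' g * D.xK A.nK = Ideal.span {algebraMap (𝓞 D.K) (𝓞 D.L) ν}) :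
    ∃ k : ℤ, q = A.nn t k ∧ (ν : D.K) = A.nu t k := by
  obtain ⟨-, -, -, -, inj, -⟩ := hN p D
  have h1 : (q : D.K) = ((2 * ν + A.dl t * A.θ : 𝓞 D.K) : D.K) := iK_inj D (by
    have e : D.iK ((2 * ν + A.dl t * A.θ : 𝓞 D.K) : D.K) = 2 * D.iK ν + A.dl t * D.iK A.θ := by
      have : ((2 : D.K) : D.L) = 2 := rfl
      simp [Dat.iK, map_ofNat, this]
    rw [e, h]
    simp only [Dat.iK, SubfieldClass.coe_ratCast, map_ratCast]
    ring)
  have h2 : IsIntegral ℤ (algebraMap ℚ D.K q) := by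
    rw [eq_ratCast, h1]
    exact RingOfIntegers.isIntegral_coe _
  obtain ⟨n, hn⟩ := IsIntegrallyClosed.isIntegral_iff.1
    ((isIntegral_algebraMap_iff (algebraMap ℚ D.K).injective).1 h2)
  obtain rfl : (n : ℚ) = q := hn
  have h3 : (n : 𝓞 D.K) = 2 * ν + A.dl t * A.θ := RingOfIntegers.ext (by rw [← h1]; simp)
  have h4 : ν ∈ A.nK := by
    have : D.xK (A.nK ⊔ Ideal.span {ν}) = D.xK A.nK := by
      rw [Dat.xK, Ideal.map_sup, Ideal.map_span, Set.image_singleton, ← hg]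
      exact sup_eq_left.2 Ideal.mul_le_right
    rw [← inj this]
    exact Ideal.mem_sup_right (Ideal.mem_span_singleton_self _)
  have h5 : ((n - A.c * A.dl t : ℤ) : 𝓞 D.K) ∈ A.nK := by
    rw [show ((n - A.c * A.dl t : ℤ) : 𝓞 D.K) = 2 * ν + A.dl t * (A.θ - A.c) by
      push_cast; rw [h3]; ring]
    exact add_mem (Ideal.mul_mem_left _ _ h4) (Ideal.mul_mem_left _ _ A.θ_n)
  obtain ⟨k, hk⟩ := (Quad.int_mem (A.n_nrm ▸ A.sqf.of_mul_left) _).1 h5
  have h6 : n = A.nn t k := by rw [Dat.Ar.nn, ← A.n_nrm, ← hk]; ring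
  refine ⟨k, by rw [h6], ?_⟩
  rw [Dat.Ar.nu, ← h6, eq_div_iff two_ne_zero]
  have := congrArg (fun x : 𝓞 D.K => (x : D.K)) h3
  simp only [map_add, map_mul, map_intCast, map_ofNat] at this
  linear_combination -this

theorem map3 {R₁ R₂ R₃ S : Type} [CommRing R₁] [CommRing R₂] [CommRing R₃] [CommRing S]
    (f₁ : R₁ →+* S) (f₂ : R₂ →+* S) (f₃ : R₃ →+* S) (I₁ : Ideal R₁) (I₂ : Ideal R₂) (I₃ : Ideal R₃)
    (J : Ideal S) (h : ∀ x ∈ I₁, ∀ y ∈ I₂, ∀ z ∈ I₃, f₁ x * (f₂ y * f₃ z) ∈ J) :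
    I₁.map f₁ * (I₂.map f₂ * I₃.map f₃) ≤ J := by
  simp only [Ideal.map, Ideal.span_mul_span', Ideal.span_le]
  rintro _ ⟨_, ⟨x, hx, rfl⟩, _, ⟨_, ⟨y, hy, rfl⟩, _, ⟨z, hz, rfl⟩, rfl⟩, rfl⟩
  exact h x hx y hy z hz

/-- An integral multiple of the inverse lattice. -/
theorem den (h4 : Module.finrank ℚ D.E = 4) (h0 : D.a ≠ 0) : ∃ (d : ℕ) (a₂ : Ideal (𝓞 D.E)),
    d ≠ 0 ∧ (a₂ : D.FE) * D.a = FractionalIdeal.spanSingleton _ (d : D.E) ∧
      (Ideal.absNorm a₂ : ℚ) * FractionalIdeal.absNorm D.a = d ^ 4 := by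
  obtain ⟨α, a₁, hα, e⟩ := FractionalIdeal.exists_eq_spanSingleton_mul D.a
  have h1 : a₁ ≠ ⊥ := by
    rintro rfl
    exact h0 (by rw [e]; simp)
  have h2 : (Ideal.absNorm a₁ : D.E) ∈ D.a := by
    have hα' : algebraMap (𝓞 D.E) D.E α ≠ 0 := RingOfIntegers.coe_ne_zero_iff.2 hα
    rw [e, show (Ideal.absNorm a₁ : D.E) = (algebraMap (𝓞 D.E) D.E α)⁻¹ *
      algebraMap (𝓞 D.E) D.E (α * Ideal.absNorm a₁) by
        rw [map_mul, map_natCast, inv_mul_cancel_left₀ hα']]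
    exact FractionalIdeal.mul_mem_mul (FractionalIdeal.mem_spanSingleton_self _ _)
      (FractionalIdeal.mem_coeIdeal_of_mem _ (Ideal.mul_mem_left _ _ (Ideal.absNorm_mem a₁)))
  obtain ⟨a₂, h3⟩ := FractionalIdeal.le_one_iff_exists_coeIdeal.1
    (show FractionalIdeal.spanSingleton (𝓞 D.E)⁰ (Ideal.absNorm a₁ : D.E) * D.a⁻¹ ≤ 1 by
      rw [← mul_inv_cancel₀ h0]
      gcongr
      exact FractionalIdeal.spanSingleton_le_iff_mem.2 h2)
  have h5 : (a₂ : D.FE) * D.a = FractionalIdeal.spanSingleton _ (Ideal.absNorm a₁ : D.E) := by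
    rw [h3, inv_mul_cancel_right₀ h0]
  refine ⟨_, a₂, Ideal.absNorm_eq_zero_iff.not.2 h1, h5, ?_⟩
  have := congrArg FractionalIdeal.absNorm h5
  rw [map_mul, FractionalIdeal.coeIdeal_absNorm, FractionalIdeal.absNorm_span_singleton,
    ← map_natCast (algebraMap ℚ D.E), Algebra.norm_algebraMap, h4,
    abs_of_nonneg (by positivity)] at this
  exact this

/-- The entry `P₁₂` is divisible by the relative different. -/
theorem kill (hG : GalStmt) (hN : NrmStmt) (A : D.Ar) (I : Ideal (𝓞 D.E)) (e : Fin 4 → D.E)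
    (P : M4 ℤ) (d : ℕ) (h0 : D.PP e P 0 0 = 0)
    (hI : ∀ x ∈ I, ∀ i, ∃ u : 𝓞 D.E, (x : D.E) * e i = d * u) (u : 𝓞 D.L)
    (hu : u ∈ A.Df * D.cL' (D.nL' I)) :
    ∃ v : 𝓞 D.N, D.iL u * D.PP e P 2 3 = d ^ 2 * D.iE A.w * v := by
  obtain ⟨-, -, -, -, -, -, -, -, cE, cL, em0, ema, -⟩ := hG p D
  obtain ⟨n1, -, -, -, -, -, -, am, -, n2, -⟩ := hN p D
  have wc : D.c (D.iE A.w) = D.iE A.w := by rw [← cE, A.w_bar]
  let J : Ideal (𝓞 D.N) :=
    { carrier := {x | ∃ v : 𝓞 D.N, (x : D.N) * D.PP e P 2 3 = d ^ 2 * D.iE A.w * v}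
      zero_mem' := ⟨0, by simp⟩
      add_mem' := by
        rintro x y ⟨v, hv⟩ ⟨v', hv'⟩
        exact ⟨v + v', by push_cast; linear_combination hv + hv'⟩
      smul_mem' := by
        rintro c x ⟨v, hv⟩
        exact ⟨c * v, by rw [smul_eq_mul]; push_cast; linear_combination (c : D.N) * hv⟩ }
  have key : D.xL (A.Df * D.cL' (D.nL' I)) ≤ J := by
    rw [Dat.xL, Ideal.map_mul, ← Dat.xL, ← Dat.xL, ← (n2 _).2, (n1 _).2, am]
    simp only [Dat.act, Dat.xE, Dat.xL, Ideal.map_map]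
    refine map3 _ _ _ _ _ _ _ fun z hz x hx y hy => ?_
    have hz' : IsCMField.ringOfIntegersComplexConj D.L z ∈ A.Df := by
      simpa using sub_mem hz (A.Df_mem z)
    choose u hu using hI x hx
    choose v hv using hI y hy
    choose k hk using fun j => A.Df_kill _ hz' (v j)
    have a1 : ∀ i, D.iE x * D.em 0 (e i) = d * D.iE (u i) := fun i => by
      rw [(em0 _).1, ← map_mul, hu, map_mul, map_natCast]
    have a2 : ∀ i, D.iE y * D.em 0 (e i) = d * D.iE (v i) := fun i => by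
      rw [(em0 _).1, ← map_mul, hv, map_mul, map_natCast]
    have a3 : ∀ i, D.r (D.iE y) * D.em 1 (e i) = d * D.r (D.iE (v i)) := fun i => by
      rw [(em0 _).2.1, ← map_mul, ← (em0 (e i)).1, a2, map_mul, map_natCast]
    let V : 𝓞 D.N := -∑ j, ∑ i, algebraMap (𝓞 D.E) (𝓞 D.N) (u i) * P i j * k j
    have hV : (V : D.N) = -∑ j, ∑ i, D.iE (u i) * P i j * k j := by
      simp only [V, map_neg, map_sum, map_mul, map_intCast]
      rfl
    have main : D.iL (D.bL z) * (D.iE x * D.r (D.iE y)) * D.PP e P 0 1 =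
        d ^ 2 * D.iE A.w * V := by
      have b1 : D.iL (D.bL z) * (D.iE x * D.r (D.iE y)) * D.PP e P 0 1 =
          D.iL (D.bL z) * (D.iE x * D.r (D.iE y)) * D.PP e P 0 1 -
            D.iL (D.bL z) * (D.iE x * D.iE y) * D.PP e P 0 0 := by rw [h0, mul_zero, sub_zero]
      rw [b1, hV, PP_apply, PP_apply, mul_neg]
      simp only [Finset.mul_sum, ← Finset.sum_sub_distrib, ← Finset.sum_neg_distrib]
      refine Finset.sum_congr rfl fun j _ => Finset.sum_congr rfl fun i _ => ?_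
      have c1 : D.iL (D.bL z) * (D.iE (v j) - D.r (D.iE (v j))) = D.iE A.w * k j := hk j
      linear_combination D.iL (D.bL z) * P i j * (D.r (D.iE y) * D.em 1 (e j) -
        D.iE y * D.em 0 (e j)) * a1 i + D.iL (D.bL z) * P i j * d * D.iE (u i) * (a3 j - a2 j) -
        d ^ 2 * P i j * D.iE (u i) * c1
    refine ⟨RingOfIntegers.mapRingHom (D.c : D.N →+* D.N) V, ?_⟩
    have := congrArg D.c main
    rw [map_mul, map_mul, map_mul, map_mul, map_mul, map_pow, map_natCast, wc, ← cL,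
      show D.bL (D.bL z) = z from IsCMField.complexConj_apply_apply _ _,
      PP_map D e P D.c (· + 2) fun i x => (ema i x).2.1] at this
    exact this
  exact key (Ideal.mem_map_of_mem _ hu)

/-- Integrality of the ideal attached to an object. -/
theorem idl (hG : GalStmt) (hN : NrmStmt) (hF : FrameStmt) (A : D.Ar) : ∃ j : D.FL, j ≠ 0 ∧
    ∀ (b : Ideal (𝓞 D.L)) (e : Fin 4 → D.E) (P : M4 ℤ) (γ : D.L) (ν : D.K), b ≠ ⊥ →
      Frame (D.xi b) (D.tw b) e → Ob P →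
      D.iL γ * D.iE A.w = Ideal.absNorm b * D.PP e P 2 3 →
      D.Dn * γ * D.bL γ = (FractionalIdeal.absNorm D.a : ℚ) * (ν : D.L) →
      ∃ g : Ideal (𝓞 D.L), (g : D.FL) * (b : D.FL) =
          FractionalIdeal.spanSingleton _ γ * j * ((D.cL' b : Ideal (𝓞 D.L)) : D.FL) ∧
        ∃ ν' : 𝓞 D.K, (ν' : D.K) = ν ∧
          g * D.cL' g * D.xK A.nK = Ideal.span {algebraMap (𝓞 D.K) (𝓞 D.L) ν'} := by
  obtain ⟨e₀, he₀⟩ := D.sp.frame
  obtain ⟨a0, -⟩ := (hF p D).1 _ _ e₀ D.sp.imag he₀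
  obtain ⟨-, -, -, -, -, -, -, -, -, -, -, -, -, -, -, -, -, -, -, h4, -⟩ := hG p D
  obtain ⟨-, -, -, -, -, -, -, -, -, -, -, nm, nb, na, -⟩ := hN p D
  obtain ⟨d, a₂, d0, ha, hn⟩ := den D h4 a0
  have dL : (d : D.L) ≠ 0 := Nat.cast_ne_zero.2 d0
  have D0 : D.Dn ≠ 0 := by have := A.Dn_gt; omega
  have cc : ∀ I, D.cL' (D.cL' I) = I := fun I => by
    rw [Dat.cL', Dat.cL', ← Ideal.map_coe, ← Ideal.map_coe _ I, Ideal.map_map]
    convert Ideal.map_id I
    ext x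
    exact IsCMField.complexConj_apply_apply D.L _
  have cm : ∀ I I', D.cL' (I * I') = D.cL' I * D.cL' I' := fun I I' => Ideal.map_mul _ _ _
  have cs : ∀ x, D.cL' (Ideal.span {x}) =
      Ideal.span {IsCMField.ringOfIntegersComplexConj D.L x} := fun x => by
    rw [Dat.cL', Ideal.map_span, Set.image_singleton]
  refine ⟨((A.Df * D.cL' (D.nL' a₂) : Ideal (𝓞 D.L)) : D.FL) *
    FractionalIdeal.spanSingleton _ ((d : D.L) ^ 2)⁻¹, mul_ne_zero ?_ ?_, ?_⟩
  · refine FractionalIdeal.coeIdeal_ne_zero.2 (mul_ne_zero ?_ fun h => ?_)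
    · exact Ideal.absNorm_eq_zero_iff.not.1 (A.Df_nrm ▸ D0)
    · have := (na a₂).1
      rw [h, mul_zero, eq_comm, Ideal.zero_eq_bot, Ideal.span_singleton_eq_bot,
        Nat.cast_eq_zero] at this
      rw [this, Nat.cast_zero, zero_mul] at hn
      exact pow_ne_zero _ (Nat.cast_ne_zero.2 d0) hn.symm
  · exact FractionalIdeal.spanSingleton_ne_zero_iff.2 (inv_ne_zero (pow_ne_zero _ dL))
  intro b e P γ ν hb he hP hγ hν
  have b0 : Ideal.absNorm b ≠ 0 := Ideal.absNorm_eq_zero_iff.not.2 hb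
  obtain ⟨hx, -⟩ := (hF p D).2 b hb
  obtain ⟨-, -, ea, -, -, -, hM, -⟩ := (hF p D).1 _ _ e hx he
  obtain ⟨k1, -⟩ := wedge _ P _ _ hP hM (D.PP e P) rfl
  have C0 : ((D.nE' b : Ideal (𝓞 D.E)) : D.FE) ≠ 0 := FractionalIdeal.coeIdeal_ne_zero.2
    (Ideal.absNorm_eq_zero_iff.not.1 ((nb b).2.1 ▸ pow_ne_zero _ b0))
  have w0 : D.iE A.w ≠ 0 := fun h => by
    have := A.w_sq
    rw [RingOfIntegers.coe_eq_zero_iff.1 ((map_eq_zero _).1 h), zero_pow two_ne_zero] at this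
    exact D0 (Nat.cast_eq_zero.1 this.symm)
  have kl := kill D hG hN A (D.nE' b * a₂) e P d (by linear_combination k1 0 0 / 2) fun x hx i => by
    have := FractionalIdeal.mul_mem_mul (FractionalIdeal.mem_coeIdeal_of_mem (𝓞 D.E)⁰ hx) (ea i)
    rw [FractionalIdeal.coeIdeal_mul, Dat.tw, mul_mul_mul_comm, mul_inv_cancel₀ C0, one_mul, ha,
      FractionalIdeal.mem_spanSingleton] at this
    obtain ⟨u, hu⟩ := this
    exact ⟨u, by rw [← hu, Algebra.smul_def, mul_comm]⟩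
  obtain ⟨γ₂, g0, hi⟩ := ((IsFractionRing.isAlgebraic_iff ℤ ℚ D.L).2
    (Algebra.IsAlgebraic.isAlgebraic γ)).exists_integral_multiple
  obtain ⟨γ₁, h1⟩ : ∃ γ₁ : 𝓞 D.L, (γ₁ : D.L) = γ₂ * γ := ⟨⟨_, hi⟩, zsmul_eq_mul _ _⟩
  obtain ⟨m, hm⟩ : ∃ m : ℤ, m = γ₂ * Ideal.absNorm b * d ^ 2 := ⟨_, rfl⟩
  have m0 : (m : 𝓞 D.L) ≠ 0 := Int.cast_ne_zero.2 (by rw [hm]; positivity)
  have mL : (m : D.L) = γ₂ * Ideal.absNorm b * d ^ 2 := by rw [hm]; push_cast; rfl
  have m0' : (m : D.L) ≠ 0 := Int.cast_ne_zero.2 (Int.cast_ne_zero.1 m0)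
  obtain ⟨g, hg⟩ : Ideal.span {(m : 𝓞 D.L)} ∣
      Ideal.span {γ₁} * (A.Df * D.cL' (D.nL' (D.nE' b * a₂))) := by
    rw [Ideal.dvd_iff_le, Ideal.span_singleton_mul_le_iff]
    intro u hu
    obtain ⟨v, hv⟩ := kl u hu
    have e1 : algebraMap D.L D.N (γ₁ * u / m) = v := by
      rw [map_div₀, map_mul, h1, map_mul, mL, map_intCast, map_mul, map_mul, map_pow, map_intCast,
        map_natCast, map_natCast, div_eq_iff (by exact_mod_cast (by positivity :
          γ₂ * Ideal.absNorm b * d ^ 2 ≠ 0))]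
      refine mul_left_cancel₀ w0 ?_
      linear_combination γ₂ * D.iL u * hγ + γ₂ * Ideal.absNorm b * hv
    have e2 : IsIntegral ℤ ((γ₁ : D.L) * u / m) :=
      (isIntegral_algebraMap_iff (algebraMap D.L D.N).injective).1
        (e1 ▸ RingOfIntegers.isIntegral_coe v)
    exact Ideal.mem_span_singleton'.2 ⟨⟨_, e2⟩, RingOfIntegers.ext (by
      simp only [map_mul, map_intCast]
      exact div_mul_cancel₀ _ m0')⟩
  refine ⟨g, ?_, ?_⟩
  · have e1 := congrArg D.cL' (nb b).2.2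
    rw [cm, cm, cc, cs, map_natCast] at e1
    have e2 : Ideal.span {(m : 𝓞 D.L)} * (g * b) = Ideal.span {γ₁ * Ideal.absNorm b} *
        (A.Df * D.cL' (D.nL' a₂) * D.cL' b) := by
      rw [← mul_assoc, ← hg, nm, cm, ← Ideal.span_singleton_mul_span_singleton]
      calc _ = Ideal.span {γ₁} * A.Df * D.cL' (D.nL' a₂) * (D.cL' (D.nL' (D.nE' b)) * b) := by
            ring
        _ = _ := by rw [e1]; ring
    have e3 := congrArg (fun I : Ideal (𝓞 D.L) => (I : D.FL)) e2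
    simp only [FractionalIdeal.coeIdeal_mul, FractionalIdeal.coeIdeal_span_singleton, map_mul,
      map_natCast, map_intCast] at e3 ⊢
    refine mul_left_cancel₀ (FractionalIdeal.spanSingleton_ne_zero_iff.2 m0') ?_
    rw [e3, show algebraMap (𝓞 D.L) D.L γ₁ * Ideal.absNorm b = m * (γ * ((d : D.L) ^ 2)⁻¹) by
      rw [mL, ← RingOfIntegers.coe_eq_algebraMap, h1]; field_simp,
      ← FractionalIdeal.spanSingleton_mul_spanSingleton,
      ← FractionalIdeal.spanSingleton_mul_spanSingleton]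
    ring
  · have e1 := congrArg D.cL' hg
    rw [cm, cm, cm, cc, cs, cs, map_intCast, A.Df_bar] at e1
    have e2 : A.Df * A.Df * D.xK A.nK = Ideal.span {(D.Dn : 𝓞 D.L)} := by
      rw [← sq, A.Df_sq, ← Ideal.map_mul, A.dn, Ideal.map_span, Set.image_singleton, map_natCast]
    have e3 : Ideal.span {(m * m : 𝓞 D.L)} * (g * D.cL' g * D.xK A.nK) =
        Ideal.span {γ₁ * IsCMField.ringOfIntegersComplexConj D.L γ₁ * D.Dn *
          Ideal.absNorm (D.nE' b * a₂)} := by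
      simp only [← Ideal.span_singleton_mul_span_singleton]
      rw [← e2, ← (na _).1]
      calc _ = (Ideal.span {(m : 𝓞 D.L)} * g) * (Ideal.span {(m : 𝓞 D.L)} * D.cL' g) *
            D.xK A.nK := by ring
        _ = _ := by rw [← hg, ← e1]; ring
    obtain ⟨ν₁, h2⟩ := Ideal.mem_span_singleton'.1 ((Ideal.span_singleton_le_iff_mem _).1
      (e3.symm.trans_le Ideal.mul_le_left))
    have h3 : (ν₁ : D.L) = ν := by
      have := congrArg (fun x : 𝓞 D.L => (x : D.L)) h2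
      simp only [map_mul, map_intCast, map_natCast, (nb b).2.1, Nat.cast_mul, Nat.cast_pow,
        map_pow] at this
      have e4 : algebraMap (𝓞 D.L) D.L (IsCMField.ringOfIntegersComplexConj D.L γ₁) =
          γ₂ * D.bL γ := by
        rw [← map_intCast (IsCMField.complexConj D.L), ← map_mul, ← h1]; rfl
      have e5 : (Ideal.absNorm a₂ : D.L) * (FractionalIdeal.absNorm D.a : ℚ) = d ^ 4 := by
        exact_mod_cast congrArg (Rat.cast : ℚ → D.L) hn
      rw [e4, ← RingOfIntegers.coe_eq_algebraMap γ₁, h1] at this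
      refine mul_right_cancel₀ (mul_ne_zero m0' m0') (this.trans ?_)
      rw [mL]
      linear_combination γ₂ ^ 2 * Ideal.absNorm b ^ 2 * (Ideal.absNorm a₂ * hν + (ν : D.L) * e5)
    have h5 : IsIntegral ℤ ν := (isIntegral_algebraMap_iff (algebraMap D.K D.L).injective).1
      (show IsIntegral ℤ (ν : D.L) from h3 ▸ RingOfIntegers.isIntegral_coe ν₁)
    refine ⟨⟨ν, h5⟩, rfl, ?_⟩
    rw [show algebraMap (𝓞 D.K) (𝓞 D.L) ⟨ν, h5⟩ = ν₁ from RingOfIntegers.ext h3.symm]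
    rw [← h2, mul_comm ν₁, ← Ideal.span_singleton_mul_span_singleton _ ν₁] at e3
    exact mul_left_cancel₀ (Ideal.span_singleton_eq_bot.not.2 (mul_ne_zero m0 m0)) e3

end Inv

theorem inv (hG : GalStmt) (hN : NrmStmt) (hF : FrameStmt) : InvStmt := by
  intro p _ D A
  obtain ⟨j, j0, hj⟩ := Inv.idl D hG hN hF A
  refine ⟨j, j0, fun b e P hb he hP => ?_⟩
  obtain ⟨t, γ, ν, q, h0, h1, h2, h3, h4, h5⟩ := Inv.first D hG hF A b e P hb he hP
  obtain ⟨g, h6, ν, rfl, h7⟩ := hj b e P γ ν hb he hP h4 h5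
  obtain ⟨k, rfl, h8⟩ := Inv.second D hN A t q ν g (h1.symm.trans h2) h7
  exact ⟨t, k, γ, g, h0, by simpa using h2, by simpa using h3, h4, h8 ▸ h5, h6, ν, h8, h7⟩

end Pool.Agent.Lib.MP_9177b7_ag.S4
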