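import Pool.Agent.Lib.MP_9177b7_ag.S4.StC

/-! Multiplication by the class of the type norm of a prime above `p`. -/

set_option autoImplicit false

open NumberField
open scoped nonZeroDivisors

namespace Pool.Agent.Lib.MP_9177b7_ag.S4

open B (Pp)

/-- The conjugate of the prime of an embedding is the prime of the conjugate embedding. -/
theorem conj_Pp (hG : GalStmt) {p : ℕ} [Fact p.Prime] (D : Dat p) (i : Fin 4) :
    D.cE' (Pp (D.ψE i)) = Pp (D.ψE (i + 2)) := by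
  obtain ⟨-, -, -, -, -, -, -, -, -, -, -, hem, -⟩ := hG p D
  have h4 : i + 2 + 2 = i := by fin_cases i <;> rfl
  ext x
  rw [Ideal.mem_map_iff_of_surjective _ (IsCMField.ringOfIntegersComplexConj D.E).surjective]
  constructor
  · rintro ⟨y, hy, rfl⟩
    change ‖D.ψ (D.em (i + 2) (D.bE y))‖ < 1
    rw [(hem _ _).1, h4]
    exact hy
  · intro hx
    refine ⟨IsCMField.ringOfIntegersComplexConj D.E x, ?_, ?_⟩
    · change ‖D.ψ (D.em i (D.bE x))‖ < 1
      rw [(hem _ _).1]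
      exact hx
    · exact RingOfIntegers.ext (IsCMField.complexConj_apply_apply D.E (x : D.E))

theorem iso (hP : B.PadStmt) (hG : GalStmt) (hN : NrmStmt) : IsoStmt := by
  intro p hp D i
  obtain ⟨-, -, -, -, -, -, -, -, -, -, hm, -, hE, hL, hz, -⟩ := hN p D
  have hp0 : p ≠ 0 := hp.out.ne_zero
  have hn : Ideal.absNorm (Pp (D.ψE i)) = p := ((hP D.E p).1 (D.ψE i)).2.2.1
  obtain ⟨-, h2, h3⟩ := hL (Pp (D.ψE i))
  rw [hn] at h2 h3
  rw [conj_Pp hG] at h3
  have h0 : D.nL' (Pp (D.ψE i)) ∈ (Ideal (𝓞 D.L))⁰ := by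
    refine mem_nonZeroDivisors_of_ne_zero fun h => ?_
    rw [h, map_zero] at h2
    exact pow_ne_zero 2 hp0 h2.symm
  refine ⟨ClassGroup.mk0 ⟨_, h0⟩, fun b b' h => ?_⟩
  rw [← map_mul] at h
  obtain ⟨x, y, hx, hy, e⟩ := ClassGroup.mk0_eq_mk0_iff.1 h
  rw [Submonoid.coe_mul] at e
  obtain ⟨X, -, hX, hX'⟩ := hz x
  obtain ⟨Y, -, hY, hY'⟩ := hz y
  have nx : (Ideal.absNorm (Ideal.span {x}) : D.E) ≠ 0 := by
    rw [Nat.cast_ne_zero, Ne, Ideal.absNorm_eq_zero_iff, Ideal.span_singleton_eq_bot]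
    exact hx
  have ny : (Ideal.absNorm (Ideal.span {y}) : D.E) ≠ 0 := by
    rw [Nat.cast_ne_zero, Ne, Ideal.absNorm_eq_zero_iff, Ideal.span_singleton_eq_bot]
    exact hy
  rw [← hX'] at nx
  rw [← hY'] at ny
  have X0 : (X : D.E) ≠ 0 := left_ne_zero_of_mul nx
  have X1 : D.bE X ≠ 0 := right_ne_zero_of_mul nx
  have Y0 : (Y : D.E) ≠ 0 := left_ne_zero_of_mul ny
  have p0 : (p : D.E) ≠ 0 := Nat.cast_ne_zero.2 hp0
  have e1 := congrArg (fun I => ((Ideal.absNorm I : ℕ) : D.E)) e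
  simp only [map_mul, Nat.cast_mul, h2, Nat.cast_pow, ← hX', ← hY'] at e1
  have e2 := congrArg D.nE' e
  rw [hm, hm, hm, hX, hY] at e2
  refine ⟨p * Y / X, div_ne_zero (mul_ne_zero p0 Y0) X0, ?_, ?_⟩
  · have : D.bE (p * Y / X) = p * D.bE Y / D.bE X := by
      simp only [Dat.bE, map_div₀, map_mul, map_natCast]
    rw [this, Dat.xi, Dat.xi]
    field_simp
    linear_combination D.ξ * e1
  · have f2 := congrArg (fun I : Ideal (𝓞 D.E) => (I : D.FE)) e2
    have f3 := congrArg (fun I : Ideal (𝓞 D.E) => (I : D.FE)) h3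
    simp only [FractionalIdeal.coeIdeal_mul, FractionalIdeal.coeIdeal_span_singleton] at f2 f3
    have nz : ∀ c : (Ideal (𝓞 D.L))⁰, ((D.nE' c : Ideal (𝓞 D.E)) : D.FE) ≠ 0 := by
      intro c hc
      have h5 := (hE c).2.1
      rw [FractionalIdeal.coeIdeal_eq_zero.1 hc, Ideal.absNorm_bot] at h5
      exact nonZeroDivisors.ne_zero c.2
        (Ideal.absNorm_eq_zero_iff.1 (pow_eq_zero_iff two_ne_zero |>.1 h5.symm))
    have sX : FractionalIdeal.spanSingleton (𝓞 D.E)⁰ (X : D.E) ≠ 0 :=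
      FractionalIdeal.spanSingleton_ne_zero_iff.2 X0
    have f1 : FractionalIdeal.spanSingleton (𝓞 D.E)⁰ (p * Y / X : D.E) *
        FractionalIdeal.spanSingleton (𝓞 D.E)⁰ (X : D.E) =
        FractionalIdeal.spanSingleton (𝓞 D.E)⁰ (p : D.E) *
          FractionalIdeal.spanSingleton (𝓞 D.E)⁰ (Y : D.E) := by
      rw [FractionalIdeal.spanSingleton_mul_spanSingleton,
        FractionalIdeal.spanSingleton_mul_spanSingleton, div_mul_cancel₀ _ X0]
    rw [map_natCast] at f3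
    have n1 := nz b
    have n2 := nz b'
    rw [Dat.tw, Dat.tw]
    simp only [← RingOfIntegers.coe_eq_algebraMap] at f2
    generalize FractionalIdeal.spanSingleton (𝓞 D.E)⁰ (p * Y / X : D.E) = u at *
    generalize FractionalIdeal.spanSingleton (𝓞 D.E)⁰ (X : D.E) = v at *
    generalize FractionalIdeal.spanSingleton (𝓞 D.E)⁰ (Y : D.E) = w at *
    generalize FractionalIdeal.spanSingleton (𝓞 D.E)⁰ (p : D.E) = q at *
    generalize ((D.nE' b : Ideal (𝓞 D.E)) : D.FE) = c at *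
    generalize ((D.nE' b' : Ideal (𝓞 D.E)) : D.FE) = c' at *
    generalize ((D.nE' (D.nL' (Pp (D.ψE i))) : Ideal (𝓞 D.E)) : D.FE) = d at *
    generalize ((Pp (D.ψE i) : Ideal (𝓞 D.E)) : D.FE) = P at *
    generalize ((Pp (D.ψE (i + 2)) : Ideal (𝓞 D.E)) : D.FE) = P' at *
    refine mul_left_cancel₀ (mul_ne_zero sX (mul_ne_zero n1 n2)) ?_
    calc v * (c * c') * (u * (c'⁻¹ * D.a) * P) = u * v * P * c * D.a * (c' * c'⁻¹) := by ring
      _ = w * (c * d) * P' * D.a := by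
        rw [mul_inv_cancel₀ n2, f1, mul_one, mul_assoc w, mul_assoc c, f3]; ring
      _ = v * c' * P' * D.a * (c * c⁻¹) := by rw [← f2, mul_inv_cancel₀ n1, mul_one]
      _ = _ := by ring

end Pool.Agent.Lib.MP_9177b7_ag.S4
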