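import Pool.Agent.Lib.MP_9177b7_ag.S4.StC

/-!
Lifts of frames to the `p`-arithmetic group.
-/

open NumberField Matrix Topology
open scoped nonZeroDivisors ComplexConjugate

noncomputable section

namespace Pool.Agent.Lib.MP_9177b7_ag.S4

namespace Lift

section alg

variable {R : Type} [CommRing R]

theorem tor {Φ Q g : M4 R} {t x : Fin 4 → R} {κ : R} (hg : g * J4 R * gᵀ = J4 R)
    (hQ : Q * J4 R * Qᵀ = κ • J4 R) (h : Q * g = diagonal t * Φ)
    (hΦ : Φ * J4 R * Φᵀ * diagonal x = J4 R) : t 0 * t 2 = κ * x 2 ∧ t 1 * t 3 = κ * x 3 := by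
  have e : diagonal t * (Φ * J4 R * Φᵀ) * diagonal t = κ • J4 R := by
    rw [← hQ]
    conv_rhs => rw [← hg]
    calc _ = (diagonal t * Φ) * J4 R * (diagonal t * Φ)ᵀ := by
          simp only [transpose_mul, diagonal_transpose, mul_assoc]
      _ = _ := by simp only [← h, transpose_mul, mul_assoc]
  have a := fun i j => congrFun (congrFun e i) j
  have b := fun i j => congrFun (congrFun hΦ i) j
  simp only [mul_diagonal, diagonal_mul, Matrix.smul_apply, smul_eq_mul] at a b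
  have a1 := a 0 2
  have a2 := a 1 3
  have b1 := b 0 2
  have b2 := b 1 3
  have j1 : J4 R 0 2 = 1 := rfl
  have j2 : J4 R 1 3 = 1 := rfl
  rw [j1] at a1 b1
  rw [j2] at a2 b2
  exact ⟨by linear_combination x 2 * a1 - t 0 * t 2 * b1,
    by linear_combination x 3 * a2 - t 1 * t 3 * b2⟩

theorem tor' {Φ : M4 R} {t : Fin 4 → R} {x y κ : R}
    (hΦ : Φᵀ * (diagonal ![x, y, x, y] * J4 R) * Φ = J4 R) (h0 : t 0 * t 2 = κ * x)
    (h1 : t 1 * t 3 = κ * y) : (diagonal t * Φ)ᵀ * J4 R * (diagonal t * Φ) = κ • J4 R := by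
  have e : diagonal t * J4 R * diagonal t = κ • (diagonal ![x, y, x, y] * J4 R) := by
    ext i j
    rw [mul_diagonal, diagonal_mul, Matrix.smul_apply, diagonal_mul, smul_eq_mul]
    fin_cases i <;> fin_cases j <;> simp [J4] <;>
      first | exact h0 | exact h1 | linear_combination h0 | linear_combination h1
  calc _ = Φᵀ * (diagonal t * J4 R * diagonal t) * Φ := by
        simp only [transpose_mul, diagonal_transpose, mul_assoc]
    _ = _ := by rw [e, Matrix.mul_smul, Matrix.smul_mul, hΦ]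

theorem cj_tor {Φ Q g : M4 R} {t : Fin 4 → R} (h : Q * g = diagonal t * Φ) (P : M4 R)
    (a b : Fin 4) : cj Q (cj g P) a b = t a * cj Φ P a b * t b := by
  have e : cj Q (cj g P) = diagonal t * cj Φ P * diagonal t := by
    calc _ = (Q * g) * P * (Q * g)ᵀ := by simp only [cj, transpose_mul, mul_assoc]
      _ = _ := by simp only [h, cj, transpose_mul, diagonal_transpose, mul_assoc]
  rw [e, mul_diagonal, diagonal_mul]

theorem J4_map {S : Type} [CommRing S] (f : R →+* S) : (J4 R).map f = J4 S := by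
  ext i j
  fin_cases i <;> fin_cases j <;> simp [J4]

theorem cj_map {S : Type} [CommRing S] (f : R →+* S) (g P : M4 R) :
    (cj g P).map f = cj (g.map f) (P.map f) := by
  simp only [cj, Matrix.map_mul, transpose_map]

theorem dg_map {S : Type} [CommRing S] (f : R →+* S) (x y : R) :
    (diagonal ![x, y, x, y]).map f = diagonal ![f x, f y, f x, f y] := by
  rw [diagonal_map (map_zero f)]
  congr 1
  funext i
  fin_cases i <;> rfl

end alg

/-- A period matrix together with its conjugate. -/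
def ex (X : Matrix (Fin 2) (Fin 4) ℂ) : M4 ℂ :=
  Matrix.of fun i k => ![X 0 k, X 1 k, conj (X 0 k), conj (X 1 k)] i

/-- A pair of numbers together with the conjugate pair. -/
def tt (t : Fin 2 → ℂ) : Fin 4 → ℂ := ![t 0, t 1, conj (t 0), conj (t 1)]

/-- The real matrix with a given image of the base point. -/
def rm (X : Matrix (Fin 2) (Fin 4) ℂ) : M4 ℝ :=
  Matrix.of fun i k => ![(X 0 k).re, (X 1 k).re, (X 0 k).im, (X 1 k).im] i

theorem ex_mul (X : Matrix (Fin 2) (Fin 4) ℂ) (g : M4 ℝ) :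
    ex (X * g.map Complex.ofReal) = ex X * g.map Complex.ofReal := by
  ext i k
  fin_cases i <;> simp [ex, Matrix.mul_apply]

theorem ex_diag (t : Fin 2 → ℂ) (X : Matrix (Fin 2) (Fin 4) ℂ) :
    ex (diagonal t * X) = diagonal (tt t) * ex X := by
  ext i k
  rw [diagonal_mul]
  fin_cases i <;> simp [ex, tt]

theorem ex_P0 : ex P0 = !![1, 0, Complex.I, 0; 0, 1, 0, Complex.I; 1, 0, -Complex.I, 0;
    0, 1, 0, -Complex.I] := by
  ext i k
  fin_cases i <;> fin_cases k <;> simp [ex, P0]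

theorem Q_J : ex P0 * J4 ℂ * (ex P0)ᵀ = (-2 * Complex.I) • J4 ℂ := by
  rw [ex_P0]
  ext i k
  simp only [Matrix.mul_apply, Fin.sum_univ_four, transpose_apply, Matrix.smul_apply]
  fin_cases i <;> fin_cases k <;> simp [J4] <;> ring_nf

theorem J_Q : (ex P0)ᵀ * J4 ℂ * ex P0 = (-2 * Complex.I) • J4 ℂ := by
  rw [ex_P0]
  ext i k
  simp only [Matrix.mul_apply, Fin.sum_univ_four, transpose_apply, Matrix.smul_apply]
  fin_cases i <;> fin_cases k <;> simp [J4] <;> ring_nf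

theorem P0_rm (X : Matrix (Fin 2) (Fin 4) ℂ) : P0 * (rm X).map Complex.ofReal = X := by
  ext i k
  fin_cases i <;> simp [P0, rm, Matrix.mul_apply, Fin.sum_univ_four, mul_comm Complex.I]

theorem rm_P0 (g : M4 ℝ) : rm (P0 * g.map Complex.ofReal) = g := by
  ext i k
  fin_cases i <;> simp [P0, rm, Matrix.mul_apply, Fin.sum_univ_four]

theorem sp_c (g : SP ℝ) :
    g.1.1.map Complex.ofReal * J4 ℂ * (g.1.1.map Complex.ofReal)ᵀ = J4 ℂ := by
  have := congrArg (·.map Complex.ofRealHom) (SP.mul_transpose g)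
  simp only [Matrix.map_mul, J4_map, transpose_map] at this
  exact this

theorem Q_le (W : M4 ℝ) {R : ℝ} (h : ∀ a b, |W a b| < R) (a b : Fin 4) :
    ‖cj (ex P0) (W.map Complex.ofReal) a b‖ ≤ 4 * R := by
  have k : ∀ (x y z w : ℂ), ‖x‖ < R → ‖y‖ < R → ‖z‖ < R → ‖w‖ < R → ‖x + y + z + w‖ ≤ 4 * R :=
    fun x y z w h1 h2 h3 h4 => by
      have := norm_add_le (x + y + z) w
      have := norm_add_le (x + y) z
      have := norm_add_le x y
      linarith
  have e : ∀ a b : Fin 4, ∃ (i j : Fin 4) (u v : ℂ), ‖u‖ = 1 ∧ ‖v‖ = 1 ∧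
      cj (ex P0) (W.map Complex.ofReal) a b =
        W i j + u * W (i + 2) j + v * W i (j + 2) + u * v * W (i + 2) (j + 2) := by
    intro a b
    refine ⟨![0, 1, 0, 1] a, ![0, 1, 0, 1] b, ![1, 1, -1, -1] a * Complex.I,
      ![1, 1, -1, -1] b * Complex.I, by fin_cases a <;> simp, by fin_cases b <;> simp, ?_⟩
    rw [ex_P0, cj]
    simp only [Matrix.mul_apply, Fin.sum_univ_four, transpose_apply]
    fin_cases a <;> fin_cases b <;> simp <;> ring_nf <;> simp <;> ring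
  obtain ⟨i, j, u, v, hu, hv, e⟩ := e a b
  rw [e]
  refine k _ _ _ _ ?_ ?_ ?_ ?_ <;> simp [hu, hv, h]

variable {p : ℕ} [Fact p.Prime]

/-! The torus. -/

theorem M0_rep {m : GG p} (h : m ∈ M0 p) : ∃ (s : Fin 4 → ℚ_[p]) (u : Fin 2 → ℂ),
    m.1.1.1 = diagonal s ∧ (∀ i, ‖s i‖ ≤ 1) ∧ s 0 * s 2 = 1 ∧ s 1 * s 3 = 1 ∧
      P0 * m.2.1.1.map Complex.ofReal = diagonal u * P0 ∧ ∀ i, ‖u i‖ = 1 := by
  obtain ⟨h1, h2, u, h3⟩ := h
  have e : m.1.1.1 = diagonal (diag m.1.1.1) := (IsDiag.diagonal_diag h2).symm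
  have a := tor (Φ := 1) (Q := 1) (x := 1) (κ := 1) (t := diag m.1.1.1) (SP.mul_transpose m.1)
    (by simp) (by rw [one_mul, mul_one]; exact e) (by simp)
  have i0 : (-2 * Complex.I) ≠ 0 := by simp
  have b := tor (Φ := ex P0) (x := fun _ => (-2 * Complex.I)⁻¹) (t := tt u) (sp_c m.2) Q_J
    (by rw [← ex_mul, h3, ex_diag]) (by
      rw [Q_J, ← smul_one_eq_diagonal, Matrix.mul_smul, mul_one, smul_smul, inv_mul_cancel₀ i0,
        one_smul])
  rw [mul_inv_cancel₀ i0] at b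
  have c : ∀ z : ℂ, z * conj z = 1 → ‖z‖ = 1 := fun z hz => by
    rw [Complex.mul_conj', ← Complex.ofReal_pow, Complex.ofReal_eq_one] at hz
    exact (pow_eq_one_iff_of_nonneg (norm_nonneg _) two_ne_zero).1 hz
  refine ⟨_, u, e, fun i => h1 i i, by simpa using a.1, by simpa using a.2, h3, fun i => ?_⟩
  fin_cases i
  · exact c _ b.1
  · exact c _ b.2

theorem mem_M0 {m : GG p} {s : Fin 4 → ℚ_[p]} {u : Fin 2 → ℂ} (h1 : m.1.1.1 = diagonal s)
    (hs : ∀ i, ‖s i‖ ≤ 1) (h2 : P0 * m.2.1.1.map Complex.ofReal = diagonal u * P0) :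
    m ∈ M0 p := by
  refine ⟨fun i j => ?_, fun i j h => by rw [h1, diagonal_apply_ne _ h], u, h2⟩
  rw [h1, diagonal_apply]
  split_ifs
  · exact hs i
  · simp

theorem compact_M0 : IsCompact (M0 p) := by
  have hE : IsClosedEmbedding fun g : GG p => (g.1.1.1, g.2.1.1) :=
    (SpecialLinearGroup.isClosedEmbedding_val.comp
      (spClosed ℚ_[p]).isClosedEmbedding_subtypeVal).prodMap
      (SpecialLinearGroup.isClosedEmbedding_val.comp (spClosed ℝ).isClosedEmbedding_subtypeVal)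
  have k1 : IsCompact ((fun s : Fin 4 → ℚ_[p] => diagonal s) '' Metric.closedBall 0 1) :=
    (isCompact_closedBall _ _).image continuous_id.matrix_diagonal
  have k2 : IsCompact ((fun u : Fin 2 → ℂ => rm (diagonal u * P0)) '' Metric.closedBall 0 1) := by
    refine (isCompact_closedBall _ _).image (continuous_matrix fun i k => ?_)
    fin_cases i <;> simp only [rm, of_apply, diagonal_mul] <;> simp <;> fun_prop
  convert hE.isCompact_preimage (k1.prod k2) using 1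
  ext m
  simp only [Set.mem_preimage, Set.mem_prod, Set.mem_image, mem_closedBall_zero_iff,
    pi_norm_le_iff_of_nonneg zero_le_one]
  constructor
  · intro h
    obtain ⟨s, u, h1, hs, -, -, h2, hu⟩ := M0_rep h
    exact ⟨⟨s, hs, h1.symm⟩, u, fun i => (hu i).le, by rw [← h2, rm_P0]⟩
  · rintro ⟨⟨s, hs, h1⟩, u, -, h2⟩
    exact mem_M0 h1.symm hs (by rw [← h2, P0_rm])

theorem map_mul' (a b : SP ℝ) : (a * b).1.1.map Complex.ofReal =
    a.1.1.map Complex.ofReal * b.1.1.map Complex.ofReal :=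
  Matrix.map_mul (f := Complex.ofRealHom)

/-- The torus as a subgroup. -/
def MM (p : ℕ) [Fact p.Prime] : Subgroup (GG p) where
  carrier := M0 p
  one_mem' := mem_M0 (s := 1) (u := 1) diagonal_one.symm (fun i => by simp) (by
    change P0 * (1 : M4 ℝ).map Complex.ofReal = diagonal (fun _ => 1) * P0
    rw [Matrix.map_one _ rfl rfl, diagonal_one, Matrix.mul_one, Matrix.one_mul])
  mul_mem' {a b} ha hb := by
    obtain ⟨s, u, h1, hs, -, -, h2, -⟩ := M0_rep ha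
    obtain ⟨s', u', h1', hs', -, -, h2', -⟩ := M0_rep hb
    refine mem_M0 (s := fun i => s i * s' i) (u := fun i => u i * u' i) ?_ (fun i => ?_) ?_
    · change a.1.1.1 * b.1.1.1 = _
      rw [h1, h1', diagonal_mul_diagonal]
    · rw [norm_mul]
      exact mul_le_one₀ (hs i) (norm_nonneg _) (hs' i)
    · rw [Prod.snd_mul, map_mul', ← Matrix.mul_assoc, h2, Matrix.mul_assoc, h2',
        ← Matrix.mul_assoc, diagonal_mul_diagonal]
  inv_mem' {a} ha := by
    obtain ⟨s, u, h1, hs, s1, s2, h2, hu⟩ := M0_rep ha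
    refine mem_M0 (s := fun i => s (i + 2)) (u := fun i => (u i)⁻¹) ?_ (fun i => hs _) ?_
    · refine left_inv_eq_right_inv (a := a.1.1.1) (congrArg (·.1.1) (inv_mul_cancel a.1)) ?_
      rw [h1, diagonal_mul_diagonal, ← diagonal_one]
      congr 1
      funext i
      fin_cases i
      exacts [s1, s2, (mul_comm _ _).trans s1, (mul_comm _ _).trans s2]
    · have e : diagonal (fun i => (u i)⁻¹) * diagonal u = 1 := by
        rw [diagonal_mul_diagonal, ← diagonal_one]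
        congr 1
        funext i
        exact inv_mul_cancel₀ (norm_pos_iff.1 (by rw [hu]; exact one_pos))
      have f : P0 = diagonal u * (P0 * a⁻¹.2.1.1.map Complex.ofReal) := by
        rw [← Matrix.mul_assoc, ← h2, Matrix.mul_assoc, ← map_mul', Prod.snd_inv, mul_inv_cancel]
        change P0 = P0 * (1 : M4 ℝ).map Complex.ofReal
        rw [Matrix.map_one _ rfl rfl, Matrix.mul_one]
      conv_rhs => rw [f, ← Matrix.mul_assoc, e, Matrix.one_mul]

theorem torus : ∃ M : Subgroup (GG p), (M : Set (GG p)) = M0 p ∧ IsCompact (M0 p) ∧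
    ∀ m ∈ M0 p, ∀ k, m * (dg p k, 1) = (dg p k, 1) * m := by
  refine ⟨MM p, rfl, compact_M0, fun m hm k => ?_⟩
  obtain ⟨s, -, h1, -⟩ := M0_rep hm
  refine Prod.ext (Subtype.ext (Subtype.ext ?_)) ((mul_one _).trans (one_mul _).symm)
  change m.1.1.1 * diagonal _ = diagonal _ * m.1.1.1
  rw [h1, diagonal_mul_diagonal, diagonal_mul_diagonal]
  simp only [mul_comm]

/-! Lifts. -/

variable {D : Dat p} {ξ : D.E} {a : D.FE} {e : Fin 4 → D.E}

theorem mul_lift {g m : GG p} (hg : D.IsLift e g) (hm : m ∈ M0 p) : D.IsLift e (m * g) := by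
  obtain ⟨s, u, h1, hs, -, -, h2, -⟩ := M0_rep hm
  obtain ⟨hi, t, t', g1, g2⟩ := hg
  refine ⟨fun i j => ?_, fun i => s i * t i, fun i => u i * t' i, ?_, ?_⟩
  · change ‖(m.1.1.1 * g.1.1.1) i j‖ ≤ 1
    rw [h1, diagonal_mul, norm_mul]
    exact mul_le_one₀ (hs i) (norm_nonneg _) (hi i j)
  · change m.1.1.1 * g.1.1.1 = _
    rw [h1, g1, ← mul_assoc, diagonal_mul_diagonal]
  · rw [Prod.snd_mul, map_mul', ← Matrix.mul_assoc, h2, Matrix.mul_assoc, g2, ← Matrix.mul_assoc,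
      diagonal_mul_diagonal]

theorem ex_Pm (hG : GalStmt) (e : Fin 4 → D.E) : ex (D.Pm e) = (D.Em e).map D.φ := by
  obtain ⟨-, -, -, -, -, -, -, g8, -, -, -, g12, -⟩ := hG p D
  have h : ∀ i x, conj (D.φ (D.em i x)) = D.φ (D.em (i + 2) x) := fun i x => by
    rw [← g8, (g12 i x).2.1]
  ext i k
  fin_cases i
  exacts [rfl, rfl, h 0 _, h 1 _]

theorem fr_map (hF : FrameStmt) (hξ : D.bE ξ = -ξ) (h : Frame ξ a e) {S : Type} [CommRing S]
    (f : D.N →+* S) :
    ((D.Em e).map f)ᵀ * (diagonal ![f (D.em 0 ξ), f (D.em 1 ξ), f (D.em 0 ξ), f (D.em 1 ξ)] *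
      J4 S) * (D.Em e).map f = J4 S ∧
    (D.Em e).map f * J4 S * ((D.Em e).map f)ᵀ *
      diagonal ![f (D.em 0 ξ), f (D.em 1 ξ), f (D.em 0 ξ), f (D.em 1 ξ)] = J4 S := by
  obtain ⟨-, -, -, -, -, -, f7, f8, -⟩ := (hF p D).1 ξ a e hξ h
  have a7 := congrArg (·.map f) f7
  have a8 := congrArg (·.map f) f8
  simp only [Matrix.map_mul, J4_map, transpose_map, dg_map] at a7 a8
  exact ⟨a7, a8⟩

theorem ad_le (hP : B.PadStmt) (hG : GalStmt) (hF : FrameStmt) (hξ : D.bE ξ = -ξ)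
    (h : Frame ξ a e) {x y : D.E} (hx : x ∈ a) (hy : y ∈ a) (i : Fin 4) :
    ‖D.ψE i (ξ * x * D.bE y)‖ ≤ 1 := by
  obtain ⟨-, -, -, -, -, f6, -⟩ := (hF p D).1 ξ a e hξ h
  obtain ⟨-, -, -, -, -, -, -, -, -, -, -, -, -, g14, -, -, -, -, -, g20, -⟩ := hG p D
  obtain ⟨-, p2, p3⟩ := (hP D.E p).2 _ D.ψE g14
  refine p2 _ (fun z => ?_) i
  obtain ⟨n, hn⟩ := (f6 ((z : D.E) * x)).1 (a.1.smul_mem z hx) y hy
  rw [(p3 (by rw [g20]; rfl)).1, show ξ * x * D.bE y * z = ξ * (z * x) * D.bE y by ring, hn,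
    Rat.cast_intCast]
  exact Padic.norm_int_le_one n

theorem exists_p (hP : B.PadStmt) (hD : DetStmt) (hG : GalStmt) (hF : FrameStmt)
    (hξ : D.bE ξ = -ξ) (h : Frame ξ a e) :
    ∃ (g : HQ p) (t : Fin 4 → ℚ_[p]), Intg g ∧ g.1.1 = diagonal t * (D.Em e).map D.ψ := by
  obtain ⟨-, -, f3, f4, -⟩ := (hF p D).1 ξ a e hξ h
  obtain ⟨-, -, -, -, -, -, -, -, -, -, -, g12, -⟩ := hG p D
  choose k hk using fun i => Finite.exists_max fun l => ‖D.ψE i (e l)‖
  have h0 : ∀ i, D.ψE i (e (k i)) ≠ 0 := fun i h0 => by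
    have := hk i 0
    rw [h0, norm_zero, norm_le_zero_iff, map_eq_zero] at this
    exact f4.ne_zero 0 this
  let t : Fin 4 → ℚ_[p] := ![(D.ψE 0 (e (k 0)))⁻¹, (D.ψE 1 (e (k 1)))⁻¹,
    D.ψE 0 (ξ * e (k 0)), D.ψE 1 (ξ * e (k 1))]
  have u : ∀ i, (D.ψE i (e (k i)))⁻¹ * D.ψE i (ξ * e (k i)) = 1 * D.ψ (D.em i ξ) := fun i => by
    rw [map_mul, mul_left_comm, inv_mul_cancel₀ (h0 i), mul_one, one_mul]
    rfl
  have s := tor' (t := t) (fr_map hF hξ h D.ψ).1 (u 0) (u 1)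
  rw [one_smul] at s
  have x1 : ∀ i l, ‖(D.ψE i (e (k i)))⁻¹ * D.ψE i (e l)‖ ≤ 1 := fun i l => by
    rw [norm_mul, norm_inv, inv_mul_le_iff₀ (norm_pos_iff.2 (h0 i)), mul_one]
    exact hk i l
  have x2 : ∀ i l, ‖D.ψE i (ξ * e (k i)) * D.ψ (D.em (i + 2) (e l))‖ ≤ 1 := fun i l => by
    rw [← (g12 i _).1]
    exact (congrArg norm (map_mul (D.ψE i) _ _).symm).trans_le
      (ad_le hP hG hF hξ h (f3 _) (f3 _) i)
  refine ⟨⟨⟨_, (hD _ _ s).1⟩, s⟩, t, fun i l => ?_, rfl⟩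
  refine (congrArg norm (diagonal_mul t _ i l)).trans_le ?_
  fin_cases i
  exacts [x1 0 l, x1 1 l, x2 0 l, x2 1 l]

theorem exists_r (hD : DetStmt) (hG : GalStmt) (hF : FrameStmt) (hξ : D.bE ξ = -ξ)
    (h0 : 0 < (D.φ (D.em 0 ξ)).im) (h1 : 0 < (D.φ (D.em 1 ξ)).im) (h : Frame ξ a e) :
    ∃ (g : SP ℝ) (t : Fin 2 → ℂ), P0 * g.1.1.map Complex.ofReal = diagonal t * D.Pm e := by
  obtain ⟨-, -, -, -, -, -, -, g8, -, -, -, g12, -⟩ := hG p D
  have u : ∀ i, 0 < (D.φ (D.em i ξ)).im → ((√(2 * (D.φ (D.em i ξ)).im) : ℝ) : ℂ) *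
      conj ((√(2 * (D.φ (D.em i ξ)).im) : ℝ) : ℂ) = -2 * Complex.I * D.φ (D.em i ξ) :=
    fun i hi => by
      have c : conj (D.φ (D.em i ξ)) = -D.φ (D.em i ξ) := by
        rw [← g8, (g12 i ξ).2.1, ← (g12 i ξ).1, hξ, map_neg, map_neg]
      have r : (D.φ (D.em i ξ)).re = 0 := by
        have := congrArg Complex.re c
        rw [Complex.conj_re, Complex.neg_re] at this
        linarith
      rw [Complex.conj_ofReal, ← Complex.ofReal_mul, Real.mul_self_sqrt (by positivity)]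
      apply Complex.ext <;> simp [r]
  let t : Fin 2 → ℂ := ![(√(2 * (D.φ (D.em 0 ξ)).im) : ℝ), (√(2 * (D.φ (D.em 1 ξ)).im) : ℝ)]
  have s := tor' (t := tt t) (fr_map hF hξ h D.φ).1 (u 0 h0) (u 1 h1)
  rw [← ex_Pm hG, ← ex_diag, ← P0_rm (diagonal t * D.Pm e), ex_mul, transpose_mul, mul_assoc,
    mul_assoc, ← mul_assoc (J4 ℂ), ← mul_assoc (ex P0)ᵀ, ← mul_assoc (ex P0)ᵀ,
    J_Q, Matrix.smul_mul, Matrix.mul_smul] at s
  have s' : (rm (diagonal t * D.Pm e))ᵀ * J4 ℝ * rm (diagonal t * D.Pm e) = J4 ℝ := by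
    apply Matrix.map_injective (f := Complex.ofRealHom) Complex.ofReal_injective
    simp only [Matrix.map_mul, J4_map, transpose_map, mul_assoc]
    exact smul_right_injective _ (by simp) s
  exact ⟨⟨⟨_, (hD _ _ s').1⟩, s'⟩, t, P0_rm _⟩

theorem short (hG : GalStmt) (hF : FrameStmt) (hξ : D.bE ξ = -ξ)
    (h : Frame ξ a e) {g : GG p} (hg : D.IsLift e g) {j : Fin 3} {c₀ : ℤ} {k : ℕ} {R : ℝ}
    {P : M4 ℤ} (hP : Ob P) (hw : Good j c₀ k R g (P.map (Int.castRingHom ℚ))) :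
    D.Good ξ e j c₀ k (4 * (|R| + 1) ^ 2) P := by
  obtain ⟨-, t, t', g1, g2⟩ := hg
  have pp : ∀ {S : Type} [CommRing S] (f : D.N →+* S) (a b : Fin 4), f (D.PP e P a b) =
      cj ((D.Em e).map f) (P.map (Int.cast : ℤ → S)) a b := fun f a b => by
    have := congrFun (congrFun (cj_map f (D.Em e) (P.map (Int.cast : ℤ → D.N))) a) b
    rwa [Matrix.map_map, show (f ∘ Int.cast : ℤ → _) = Int.cast from
      funext (map_intCast f)] at this
  refine ⟨hP, fun j' => ?_, ?_⟩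
  · have q : ex P0 * g.2.1.1.map Complex.ofReal = diagonal (tt t') * (D.Em e).map D.φ := by
      rw [← ex_mul, g2, ex_diag, ex_Pm hG]
    obtain ⟨a1, a2⟩ := tor (sp_c g.2) Q_J q (fr_map hF hξ h D.φ).2
    have w : ∀ a b, ‖tt t' a * D.φ (D.PP e P a b) * tt t' b‖ ≤ 4 * |R| := fun a b => by
      rw [pp, ← cj_tor q]
      refine le_trans (le_of_eq ?_) ((Q_le _ hw.sz a b).trans (by gcongr; exact le_abs_self R))
      congr 3
      refine Eq.trans ?_ (cj_map Complex.ofRealHom _ _).symm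
      congr 1
    have i2 : Complex.I ^ 2 = -1 := Complex.I_sq
    have m : ∀ x y : ℂ, ‖x‖ ≤ 4 * |R| → ‖y‖ ≤ 4 * |R| → ∀ z : ℂ, 4 * z = x * y ∨ 4 * z = -(x * y) →
        ‖z‖ ≤ 4 * (|R| + 1) ^ 2 := fun x y hx hy z hz => by
      have : 4 * ‖z‖ = ‖x‖ * ‖y‖ := by
        rcases hz with hz | hz <;> simpa using congrArg norm hz
      have := mul_le_mul hx hy (norm_nonneg _) (by positivity)
      nlinarith [abs_nonneg R]
    change tt t' 0 * tt t' 2 = -2 * Complex.I * D.φ (D.em 0 ξ) at a1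
    change tt t' 1 * tt t' 3 = -2 * Complex.I * D.φ (D.em 1 ξ) at a2
    fin_cases j'
    · have := w 0 2
      rw [mul_right_comm, a1, mul_assoc, ← map_mul, norm_mul] at this
      simp only [norm_mul, norm_neg, Complex.norm_ofNat, Complex.norm_I, mul_one] at this
      change ‖D.φ (D.em 0 ξ * D.PP e P 0 2)‖ ≤ _
      nlinarith [abs_nonneg R]
    · refine m _ _ (w 0 1) (w 2 3) _ (Or.inl ?_)
      simp only [Dat.iv, Fin.mk_one, cons_val_one, cons_val_zero, map_neg, map_mul]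
      linear_combination (-D.φ (D.PP e P 0 1) * D.φ (D.PP e P 2 3)) * (tt t' 1 * tt t' 3 * a1 +
        (-2 * Complex.I * D.φ (D.em 0 ξ)) * a2 + 4 * D.φ (D.em 0 ξ) * D.φ (D.em 1 ξ) * i2)
    · refine m _ _ (w 0 3) (w 2 1) _ (Or.inr ?_)
      simp only [Dat.iv, Fin.reduceFinMk, cons_val, map_mul]
      linear_combination (D.φ (D.PP e P 0 3) * D.φ (D.PP e P 2 1)) * (tt t' 1 * tt t' 3 * a1 +
        (-2 * Complex.I * D.φ (D.em 0 ξ)) * a2 + 4 * D.φ (D.em 0 ξ) * D.φ (D.em 1 ξ) * i2)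
  · have q : 1 * g.1.1.1 = diagonal t * (D.Em e).map D.ψ := by rw [one_mul, g1]
    obtain ⟨a1, a2⟩ := tor (κ := 1) (SP.mul_transpose g.1) (by simp) q (fr_map hF hξ h D.ψ).2
    have w : ∀ a b, oq g (P.map (Int.castRingHom ℚ)) a b = t a * D.ψ (D.PP e P a b) * t b :=
      fun a b => by
        rw [pp, ← cj_tor q, cj, one_mul, transpose_one, mul_one, oq]
        congr 1
    change t 0 * t 2 = 1 * D.ψ (D.em 0 ξ) at a1
    change t 1 * t 3 = 1 * D.ψ (D.em 1 ξ) at a2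
    refine le_of_eq_of_le ?_ hw.cg
    congr 2
    fin_cases j
    · simp only [Dat.iv, mv, Fin.zero_eta, cons_val_zero, map_mul, w]
      linear_combination (-D.ψ (D.PP e P 0 2)) * a1
    · simp only [Dat.iv, mv, Fin.mk_one, cons_val_one, cons_val_zero, map_neg, map_mul, w]
      linear_combination (D.ψ (D.PP e P 0 1) * D.ψ (D.PP e P 2 3)) * (t 1 * t 3 * a1 +
        D.ψ (D.em 0 ξ) * a2)
    · simp only [Dat.iv, mv, Fin.reduceFinMk, cons_val, map_mul, w]
      linear_combination (-D.ψ (D.PP e P 0 3) * D.ψ (D.PP e P 2 1)) * (t 1 * t 3 * a1 +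
        D.ψ (D.em 0 ξ) * a2)

end Lift

theorem lift : B.PadStmt → DetStmt → TubeStmt → GalStmt → FrameStmt → LiftStmt := by
  intro hP hD hT hG hF p _
  refine ⟨Lift.torus, fun D ξ a e hξ h0 h1 h => ⟨?_, fun g hg =>
    ⟨fun m hm => Lift.mul_lift hg hm, fun j c₀ k R K₀ ⟨s, hs, hw⟩ => ?_⟩⟩⟩
  · obtain ⟨g, t, a1, a2⟩ := Lift.exists_p hP hD hG hF hξ h
    obtain ⟨g', t', a3⟩ := Lift.exists_r hD hG hF hξ h0 h1 h
    exact ⟨(g, g'), a1, t, t', a2, a3⟩
  · classical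
    choose! f f1 f2 using fun P hP => (hT p).2.1 j c₀ k R g P hg.1 (hw P hP)
    refine ⟨s.image f, ?_, fun P' hP' => ?_⟩
    · rwa [Finset.card_image_of_injOn fun x hx y hy e => by rw [f2 x hx, f2 y hy, e]]
    · obtain ⟨P, hP, rfl⟩ := Finset.mem_image.1 hP'
      exact Lift.short hG hF hξ h hg (f1 P hP) (f2 P hP ▸ hw P hP)

end Pool.Agent.Lib.MP_9177b7_ag.S4
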