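import Pool.Agent.Lib.MP_9177b7_ag.S4.StD
import Pool.Agent.Lib.MP_9177b7_ag.S4.Quad

/-!
The integer data of a CM datum.
-/

open NumberField Finset Pool.Agent.Shared.PrimeZeta

noncomputable section

namespace Pool.Agent.Lib.MP_9177b7_ag.S4

namespace Loc

theorem dvd_of_int {N : Type} [Field N] [NumberField N] {u v : ℤ} {w : N} (hw : IsIntegral ℤ w)
    (hv : v ≠ 0) (h : v * w = u) : v ∣ u := by
  have v0 : (v : N) ≠ 0 := Int.cast_ne_zero.2 hv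
  have e : w = algebraMap ℚ N (u / v) := by
    rw [map_div₀, map_intCast, map_intCast, eq_div_iff v0, ← h, mul_comm]
  rw [e, isIntegral_algebraMap_iff (algebraMap ℚ N).injective] at hw
  obtain ⟨z, hz⟩ := IsIntegrallyClosed.isIntegral_iff.1 hw
  refine ⟨z, ?_⟩
  have v1 : (v : ℚ) ≠ 0 := Int.cast_ne_zero.2 hv
  rw [eq_div_iff v1, eq_intCast, mul_comm] at hz
  exact_mod_cast hz.symm

variable {M : Type} [Field M] [NumberField M] {q : ℕ}

theorem max (hq : q.Prime) {Q : Ideal (𝓞 M)} (h : Ideal.absNorm Q = q) : Q.IsMaximal := by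
  refine (Ideal.isPrime_of_irreducible_absNorm (h ▸ hq)).isMaximal ?_
  rintro rfl
  rw [Ideal.absNorm_bot] at h
  exact hq.ne_zero h.symm

theorem res_uniq (hq : q.Prime) {Q : Ideal (𝓞 M)} (h : Ideal.absNorm Q = q) {θ : 𝓞 M} {x y : ℕ}
    (hx : x < q) (hy : y < q) (a : θ - x ∈ Q) (b : θ - y ∈ Q) : x = y := by
  have c : (((x : ℤ) - y : ℤ) : 𝓞 M) ∈ Q := by
    convert Q.sub_mem b a using 1
    push_cast
    ring
  rw [Quad.int_mem (h ▸ hq.squarefree), h] at c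
  have := Int.eq_zero_of_abs_lt_dvd c (abs_lt.2 ⟨by omega, by omega⟩)
  omega

theorem res (hq : q.Prime) {Q : Ideal (𝓞 M)} (h : Ideal.absNorm Q = q) (θ : 𝓞 M) :
    ∃ x < q, θ - (x : ℕ) ∈ Q := by
  obtain ⟨z, hz⟩ := Quad.cyc (h ▸ hq.squarefree) θ
  have q0 : (0 : ℤ) < q := by exact_mod_cast hq.pos
  have a := Int.emod_nonneg z q0.ne'
  have b := Int.emod_lt_of_pos z q0
  refine ⟨(z % q).toNat, by omega, ?_⟩
  have c : ((z - z % q : ℤ) : 𝓞 M) ∈ Q := by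
    rw [Quad.int_mem (h ▸ hq.squarefree), h]
    exact Int.dvd_self_sub_emod
  have d : (((z % q).toNat : ℕ) : 𝓞 M) = ((z % q : ℤ) : 𝓞 M) := by
    rw [← Int.cast_natCast, Int.toNat_of_nonneg a]
  rw [d]
  convert Q.add_mem hz c using 1
  push_cast
  ring

open Classical in
theorem rho_sum (hq : q.Prime) (θ : 𝓞 M) :
    ∑ x ∈ range q, Nat.card {Q : Ideal (𝓞 M) // Ideal.absNorm Q = q ∧ θ - (x : 𝓞 M) ∈ Q} ≤
      nI M q := by
  have e : ∀ x : ℕ, Nat.card {Q : Ideal (𝓞 M) // Ideal.absNorm Q = q ∧ θ - (x : 𝓞 M) ∈ Q} =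
      #((idl M q).filter fun Q => θ - (x : 𝓞 M) ∈ Q) := fun x =>
    Nat.subtype_card _ fun Q => by rw [mem_filter, mem_idl]
  simp only [e]
  rw [← card_biUnion, ← card_idl]
  · exact card_le_card (biUnion_subset.2 fun x _ => filter_subset _ _)
  · intro x hx y hy n
    refine disjoint_filter.2 fun Q hQ a b => n ?_
    exact res_uniq hq (mem_idl.1 hQ) (mem_range.1 hx) (mem_range.1 hy) a b

theorem two (h2 : Module.finrank ℚ M = 2) (hq : q.Prime) {Q Q' : Ideal (𝓞 M)}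
    (h : Ideal.absNorm Q = q) (h' : Ideal.absNorm Q' = q) (n : Q ≠ Q') {z : 𝓞 M} (a : z ∈ Q)
    (b : z ∈ Q') : (q : 𝓞 M) ∣ z := by
  have c : Q ⊓ Q' = Q * Q' :=
    (Ideal.mul_eq_inf_of_coprime ((max hq h).coprime_of_ne (max hq h') n)).symm
  have d : Ideal.span {(q : 𝓞 M)} = Q * Q' := by
    refine Quad.eq_of_norm ?_ (by rw [map_mul, h, h']; exact mul_ne_zero hq.ne_zero hq.ne_zero) ?_
    · rw [← c, Ideal.span_singleton_le_iff_mem]
      exact ⟨h ▸ Ideal.absNorm_mem Q, h' ▸ Ideal.absNorm_mem Q'⟩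
    · rw [Ideal.absNorm_span_natCast, RingOfIntegers.rank, h2, map_mul, h, h', sq]
  rw [← Ideal.mem_span_singleton, d, ← c]
  exact ⟨a, b⟩

variable {p : ℕ} [Fact p.Prime] {D : Dat p}

theorem not_dvd (A : D.Ar) (hq : q.Prime) (h2 : ¬ q ∣ 2) (x : ℕ) : ¬ (q : 𝓞 D.K) ∣ A.θ - x := by
  rintro ⟨y, hy⟩
  let f : 𝓞 D.K →+* D.N := (D.iL.comp (algebraMap D.K D.L)).comp (algebraMap (𝓞 D.K) D.K)
  have e : f A.θ = D.iK A.θ := rfl
  have i1 : IsIntegral ℤ (f y) := (RingOfIntegers.isIntegral y).map f.toIntAlgHom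
  have i2 : IsIntegral ℤ (D.s (f y)) := i1.map (D.s : D.N →+* D.N).toIntAlgHom
  have a := congrArg f hy
  rw [map_sub, map_mul, map_natCast, map_natCast, e] at a
  have b := congrArg D.s a
  rw [map_sub, map_mul, map_natCast, map_natCast, A.θ_s] at b
  have c := congrArg f A.θ_sq
  rw [map_pow, map_natCast, e] at c
  have q0 : (q : ℤ) ≠ 0 := by exact_mod_cast hq.ne_zero
  have d1 : (q : ℤ) ∣ -(2 * x) :=
    dvd_of_int (i1.add i2) q0 (by push_cast; linear_combination -a - b)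
  have d2 : (q : ℤ) ^ 2 ∣ x ^ 2 - D.Dt := dvd_of_int (i1.mul i2) (pow_ne_zero 2 q0) (by
    push_cast
    linear_combination (-(q : D.N) * D.s (f y)) * a - (D.iK A.θ - x) * b - c)
  have d3 : q ∣ x := by
    have : q ∣ 2 * x := by exact_mod_cast dvd_neg.1 d1
    exact ((Nat.Prime.dvd_mul hq).1 this).resolve_left h2
  have d4 : (q : ℤ) ^ 2 ∣ D.Dt := by
    have : (q : ℤ) ^ 2 ∣ (x : ℤ) ^ 2 := pow_dvd_pow_of_dvd (Int.natCast_dvd_natCast.2 d3) 2
    simpa using this.sub d2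
  exact hq.one_lt.ne' (Nat.isUnit_iff.1
    (A.sqf.of_mul_right q (by rw [← sq]; exact_mod_cast d4)))

theorem b_root (h2 : Module.finrank ℚ D.K = 2) (A : D.Ar) (hq : q.Prime) (h : ¬ q ∣ 2 * D.Dn) :
    nI D.K q ≤ #((range q).filter fun x : ℕ => (q : ℤ) ∣ x ^ 2 - D.Dt) := by
  rw [← card_idl]
  choose! x hx hm using fun (Q : Ideal (𝓞 D.K)) (h : Ideal.absNorm Q = q) => res hq h A.θ
  refine card_le_card_of_injOn x (fun Q hQ => ?_) fun Q hQ Q' hQ' e => ?_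
  · have a := mem_idl.1 hQ
    refine mem_filter.2 ⟨mem_range.2 (hx Q a), ?_⟩
    rw [← a, ← Quad.int_mem (a ▸ hq.squarefree)]
    convert Q.mul_mem_left (-(A.θ + x Q)) (hm Q a) using 1
    push_cast
    linear_combination A.θ_sq
  · by_contra n
    exact not_dvd A hq (fun c => h (c.mul_right _)) (x Q) (two h2 hq (mem_idl.1 hQ) (mem_idl.1 hQ')
      n (hm Q (mem_idl.1 hQ)) (e ▸ hm Q' (mem_idl.1 hQ')))

end Loc

theorem loc (hG : GalStmt) : LocStmt := by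
  intro p _ D A Sg h1 h2
  obtain ⟨-, -, -, -, -, -, -, -, -, -, -, -, -, -, -, -, -, -, -, -, rL, -, rK, -⟩ := hG p D
  refine ⟨⟨D.Dn, D.Dt, A.d₀, A.c, A.m, nI D.L, nI D.K, A.rho, Sg, A.sqf, A.Dn_gt, A.Dt_gt, A.cop,
    A.hd₀, A.hm, fun q hq => ?_, fun q hq => ?_, fun q _ h => ?_, fun q hq => Loc.rho_sum hq _,
    fun q hq h => Loc.b_root rK A hq h, h1, h2⟩, ⟨rfl, rfl, rfl, rfl, rfl, rfl, rfl, rfl⟩, rfl⟩
  · exact (nI_le hq).trans_eq (by rw [RingOfIntegers.rank, rL])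
  · exact (nI_le hq).trans_eq (by rw [RingOfIntegers.rank, rK])
  · rw [← card_idl]
    exact card_pos.2 ⟨_, mem_idl.2 (A.nE_amb q h).1⟩

end Pool.Agent.Lib.MP_9177b7_ag.S4
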