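import Pool.Agent.Lib.MP_9177b7_ag.S4.StC

/-!
Moving a frame by a quotient of two conjugate primes above `p`.
-/

open NumberField Matrix
open scoped nonZeroDivisors

noncomputable section

namespace Pool.Agent.Lib.MP_9177b7_ag.S4

open B (Pp)

namespace Move

variable {p : ℕ} [Fact p.Prime]

theorem row_one (hD : DiscStmt) {g : HQ p} (hg : Intg g) (r : Fin 4) : ∃ k, 1 ≤ ‖g.1.1 r k‖ := by
  have hi := (hD p).2.2.2.2.2.2.2.1 g hg
  have e : g.1.1 * g⁻¹.1.1 = 1 := congrArg (fun x : HQ p => x.1.1) (mul_inv_cancel g)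
  obtain ⟨k, -, hk⟩ := IsUltrametricDist.exists_norm_finsetSum_le_of_nonempty
    Finset.univ_nonempty fun k => g.1.1 r k * g⁻¹.1.1 k r
  rw [← mul_apply, e, one_apply_eq, norm_one, norm_mul] at hk
  exact ⟨k, hk.trans (mul_le_of_le_one_right (norm_nonneg _) (hi k r))⟩

variable {D : Dat p}

theorem Em_mul {e e' : Fin 4 → D.E} {y : D.E} {γ : M4 ℚ}
    (h : ∀ k, e k = ∑ i, γ i k * (y * e' i)) {F : Type} [Field F] [CharZero F] (f : D.N →+* F)
    (r k : Fin 4) :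
    f (D.em r (e k)) = f (D.em r y) * ∑ i, f (D.em r (e' i)) * γ i k := by
  simp only [h k, map_sum, map_mul, map_ratCast, Finset.mul_sum]
  exact Finset.sum_congr rfl fun i _ => by ring

theorem pp_ne (hP : B.PadStmt) (ψ : D.E →+* ℚ_[p]) : ((Pp ψ : Ideal (𝓞 D.E)) : D.FE) ≠ 0 := by
  rw [FractionalIdeal.coeIdeal_ne_zero]
  intro h
  have := ((hP D.E p).1 ψ).2.2.1
  rw [h, Ideal.absNorm_bot] at this
  exact (Fact.out : p.Prime).ne_zero this.symm

theorem p_mem (ψ : D.E →+* ℚ_[p]) : (p : D.E) ∈ ((Pp ψ : Ideal (𝓞 D.E)) : D.FE) := by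
  refine (FractionalIdeal.mem_coeIdeal _).2 ⟨p, ?_, map_natCast _ _⟩
  change ‖ψ ((p : 𝓞 D.E) : D.E)‖ < 1
  rw [RingOfIntegers.coe_eq_algebraMap, map_natCast, map_natCast]
  exact Padic.norm_p_lt_one

theorem val (hP : B.PadStmt) (hG : GalStmt) (r i : Fin 4) :
    (∀ x ∈ ((Pp (D.ψE i) : Ideal (𝓞 D.E)) : D.FE),
      ‖D.ψE r x‖ ≤ (p : ℝ) ^ (-(Pi.single i 1 : Fin 4 → ℤ) r)) ∧
    ∃ x ∈ ((Pp (D.ψE i) : Ideal (𝓞 D.E)) : D.FE),
      ‖D.ψE r x‖ = (p : ℝ) ^ (-(Pi.single i 1 : Fin 4 → ℤ) r) := by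
  obtain ⟨-, -, -, -, v, v1, -, v3, v4⟩ := (hP D.E p).1 (D.ψE r)
  obtain ⟨-, -, -, -, -, -, -, -, -, -, -, -, -, hi, -⟩ := hG p D
  have := v1 _ (pp_ne hP (D.ψE i))
  by_cases hs : r = i
  · subst hs
    rwa [v3, ← Pi.single_eq_same (M := fun _ : Fin 4 => ℤ) r 1] at this
  · rwa [v4 _ fun e1 => hs (hi e1).symm, ← Pi.single_eq_of_ne (M := fun _ : Fin 4 => ℤ) hs 1] at this

end Move

open Move in
theorem move (hP : B.PadStmt) (hD : DiscStmt) (hG : GalStmt) (hF : FrameStmt) : MoveStmt := by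
  intro p _ D i ξ ξ' y a a' e e' g g' hξ y0 hy ha h h' ⟨gi, t, τ, gp, gr⟩ ⟨gi', t', τ', gp', gr'⟩
  have hb : D.bE ξ' = -ξ' := by
    simp only [hy, map_mul, hξ, IsCMField.complexConj_apply_apply]
    ring
  obtain ⟨-, -, -, -, -, -, -, -, -, -, f, -⟩ := (hF p D).1 ξ' a' e' hb h'
  have h2 := f y ξ y0 hy
  obtain ⟨-, -, m2, -, -, -, -, -, -, -, -, -, f⟩ := (hF p D).1 ξ _ _ hξ h2
  obtain ⟨γ, hγ, hn⟩ := f a e h
  have p0 : (p : ℝ) ≠ 0 := Nat.cast_ne_zero.2 (Fact.out : p.Prime).ne_zero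
  obtain ⟨G, hG', G1, G2⟩ := (hD p).2.1 γ.1.1 (fun r k => by
    obtain ⟨z, hz⟩ := hn p (fun x hx => by
      have := FractionalIdeal.mul_mem_mul (p_mem (D.ψE (i + 2))) hx
      rw [← ha] at this
      simpa only [mul_one] using mul_le_mul_right FractionalIdeal.coeIdeal_le_one _ this)
      r k
    exact ⟨1, z, by rw [pow_one, mul_comm, hz]⟩) γ.2
  have en : ∀ r k, g.1.1.1 r k = t r * D.ψE r (e k) := fun r k => by rw [gp, diagonal_mul]; rfl
  have en' : ∀ r k, g'.1.1.1 r k = t' r * D.ψE r (e' k) := fun r k => by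
    rw [gp', diagonal_mul]; rfl
  have t0 : ∀ r, t' r ≠ 0 := fun r h0 => by
    obtain ⟨k, hk⟩ := row_one hD gi' r
    rw [en', h0, zero_mul, norm_zero] at hk
    exact not_lt.2 hk one_pos
  let κ : Fin 4 → ℤ := fun r =>
    (Pi.single i 1 : Fin 4 → ℤ) r - (Pi.single i 1 : Fin 4 → ℤ) (r + 2)
  let s : Fin 4 → ℚ_[p] := fun r => (p : ℚ_[p]) ^ κ r * t r * D.ψE r y / t' r
  have hs : ∀ r, ‖s r‖ ≤ 1 := fun r => by
    obtain ⟨k, hk⟩ := row_one hD gi' r
    obtain ⟨u, hu, nu⟩ := (val hP hG (D := D) r i).2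
    have b1 : ∀ x ∈ a, ‖t r * D.ψE r x‖ ≤ 1 := fun x hx => by
      obtain ⟨c, rfl⟩ := (h.2 x).1 hx
      rw [map_sum, Finset.mul_sum, ← PadicInt.mem_subring_iff]
      refine sum_mem fun l _ => ?_
      rw [map_mul, map_intCast, mul_left_comm, ← en]
      exact mul_mem (intCast_mem _ _) (gi r l)
    have b2 : ‖t r * D.ψE r (y * e' k * u)‖ ≤ (p : ℝ) ^ (-(Pi.single (i + 2) 1 : Fin 4 → ℤ) r) := by
      have := FractionalIdeal.mul_mem_mul (m2 k) hu
      rw [ha] at this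
      refine FractionalIdeal.mul_induction_on (C := fun x => ‖t r * D.ψE r x‖ ≤ _) this
        (fun x hx z hz => ?_) fun x z hx hz => ?_
      · rw [map_mul, mul_left_comm, norm_mul]
        exact (mul_le_of_le_one_right (norm_nonneg _) (b1 z hz)).trans ((val hP hG r _).1 x hx)
      · rw [map_add, mul_add]
        exact (IsUltrametricDist.norm_add_le_max _ _).trans (max_le hx hz)
    have k2 := (by decide : ∀ i r : Fin 4,
      (Pi.single (i + 2) 1 : Fin 4 → ℤ) r = (Pi.single i 1 : Fin 4 → ℤ) (r + 2)) i r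
    have pp : (0 : ℝ) < p := Nat.cast_pos.2 (Fact.out : p.Prime).pos
    rw [k2, map_mul, ← mul_assoc, norm_mul, nu, ← le_div_iff₀ (zpow_pos pp _), ← zpow_sub₀ p0] at b2
    refine (le_mul_of_one_le_right (norm_nonneg _) hk).trans ?_
    have : s r * g'.1.1.1 r k = (p : ℚ_[p]) ^ κ r * (t r * D.ψE r (y * e' k)) := by
      rw [en', map_mul]
      simp only [s]
      field_simp [t0 r]
    rw [← norm_mul, this, norm_mul, Padic.norm_p_zpow]
    refine (mul_le_mul_of_nonneg_left b2 (zpow_pos pp _).le).trans_eq ?_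
    rw [← zpow_add₀ p0, ← zpow_zero (p : ℝ)]
    congr 1
    simp only [κ]
    ring
  have e1 : (dg p (Pi.single i 1)).1.1 * g.1.1.1 = diagonal s * (g'.1.1.1 * G.1.1.1) := by
    ext r k
    change (diagonal _ * _ : M4 ℚ_[p]) r k = _
    rw [diagonal_mul, diagonal_mul, G1, mul_apply, en]
    simp only [en', map_apply, eq_ratCast, mul_assoc, ← Finset.mul_sum, s]
    have := Em_mul hγ D.ψ r k
    change D.ψE r _ = D.ψE r _ * ∑ i, D.ψE r _ * _ at this
    rw [this]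
    simp only [κ]
    field_simp [t0 r]
  have τ0 : ∀ r, τ' r ≠ 0 := fun r h0 => by
    have i1 : g'.2.1.1 * g'.2⁻¹.1.1 = 1 := congrArg (fun x : SP ℝ => x.1.1) (mul_inv_cancel g'.2)
    have := congrArg (fun M => (M * g'.2⁻¹.1.1.map Complex.ofRealHom) r (Fin.castLE (by norm_num) r)) gr'
    change (P0 * g'.2.1.1.map Complex.ofRealHom * _ : Matrix _ _ ℂ) _ _ = _ at this
    rw [Matrix.mul_assoc, ← Matrix.map_mul, i1, Matrix.mul_assoc, diagonal_mul, h0, zero_mul,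
      Matrix.map_one _ (map_zero _) (map_one _), Matrix.mul_one] at this
    fin_cases r <;> simp [P0] at this
  let u : Fin 2 → ℂ := fun r => τ r * D.φ (D.em (Fin.castLE (by norm_num) r) y) / τ' r
  have e2 : P0 * g.2.1.1.map Complex.ofReal =
      diagonal u * P0 * (g'.2.1.1 * G.2.1.1).map Complex.ofRealHom := by
    rw [Matrix.map_mul, Matrix.mul_assoc, ← Matrix.mul_assoc P0]
    change _ = diagonal u * (P0 * g'.2.1.1.map Complex.ofReal * _)
    rw [gr, gr', G2, Matrix.mul_assoc]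
    ext r k
    rw [diagonal_mul, diagonal_mul, diagonal_mul, mul_apply]
    simp only [Dat.Pm, of_apply, map_apply, eq_ratCast, map_ratCast, u]
    rw [Em_mul hγ D.φ]
    field_simp [τ0 r]
  have i1 : g'.1.1.1 * G.1.1.1 * (g' * G)⁻¹.1.1.1 = 1 :=
    congrArg (fun x : GG p => x.1.1.1) (mul_inv_cancel (g' * G))
  have i2 : g'.2.1.1 * G.2.1.1 * (g' * G)⁻¹.2.1.1 = 1 :=
    congrArg (fun x : GG p => x.2.1.1) (mul_inv_cancel (g' * G))
  have e3 : ((dg p (Pi.single i 1), 1) * g * (g' * G)⁻¹ : GG p).1.1.1 = diagonal s := by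
    change (dg p (Pi.single i 1)).1.1 * g.1.1.1 * (g' * G)⁻¹.1.1.1 = _
    rw [e1, mul_assoc, i1, mul_one]
  refine ⟨(dg p (Pi.single i 1), 1) * g * (g' * G)⁻¹, ⟨fun r k => ?_, fun r k hk => ?_, u, ?_⟩,
    G, hG', by group⟩
  · rw [e3, diagonal_apply]
    split_ifs
    exacts [hs r, by simp]
  · rw [e3, diagonal_apply_ne _ hk]
  · change P0 * (1 * g.2.1.1 * (g' * G)⁻¹.2.1.1).map Complex.ofRealHom = _
    rw [one_mul, Matrix.map_mul, ← Matrix.mul_assoc]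
    change P0 * g.2.1.1.map Complex.ofReal * _ = _
    rw [e2, Matrix.mul_assoc, ← Matrix.map_mul, i2, Matrix.map_one _ (map_zero _) (map_one _),
      Matrix.mul_one]

end Pool.Agent.Lib.MP_9177b7_ag.S4
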