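import Pool.Agent.Lib.MP_9177b7_ag.S4.StC
import Pool.Agent.Lib.MP_9177b7_ag.S4.Quad

/-!
Norms of ideals in a dihedral field.
-/

open NumberField Module
open scoped nonZeroDivisors ComplexConjugate

noncomputable section

namespace Pool.Agent.Lib.MP_9177b7_ag.S4

namespace Nrm

open Quad

section quad

variable {F M : Type} [Field F] [Field M] [Algebra F M] [NumberField F] [NumberField M]
  {σ : M ≃ₐ[F] M} (h2 : finrank F M = 2)

include h2

theorem norm_eq (hσ : σ ≠ 1) (x : M) : algebraMap F M (Algebra.norm F x) = x * σ x := by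
  classical
  have : Algebra.IsQuadraticExtension F M := ⟨h2⟩
  have h : (Finset.univ : Finset (M ≃ₐ[F] M)) = {1, σ} := by
    refine (Finset.eq_univ_of_card _ ?_).symm
    rw [Finset.card_pair hσ.symm, ← Nat.card_eq_fintype_card, IsGalois.card_aut_eq_finrank, h2]
  rw [Algebra.norm_eq_prod_automorphisms, h, Finset.prod_pair hσ.symm]
  rfl

theorem intNorm_eq (hσ : σ ≠ 1) (x : 𝓞 M) :
    algebraMap (𝓞 F) (𝓞 M) (Algebra.intNorm (𝓞 F) (𝓞 M) x) = x * oa σ x := by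
  apply RingOfIntegers.ext
  change algebraMap F M (algebraMap (𝓞 F) F (Algebra.intNorm (𝓞 F) (𝓞 M) x)) = x * σ x
  rw [Algebra.algebraMap_intNorm (L := M), norm_eq h2 hσ]

theorem map_rel (hσ : σ ≠ 1) (I : Ideal (𝓞 M)) :
    (Ideal.relNorm (𝓞 F) I).map (algebraMap (𝓞 F) (𝓞 M)) = I * I.map (oa σ) := by
  by_cases h0 : I = ⊥
  · simp [h0]
  have n0 : Ideal.absNorm I ≠ 0 := by rwa [Ne, Ideal.absNorm_eq_zero_iff]
  refine eq_of_norm ?_ (by rw [map_mul, Quad.norm_map]; exact mul_ne_zero n0 n0)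
    (by rw [norm_ext h2, Ideal.absNorm_relNorm, map_mul, Quad.norm_map, sq])
  rw [Ideal.map_relNorm, Ideal.span_le]
  rintro _ ⟨x, hx, rfl⟩
  change algebraMap (𝓞 F) (𝓞 M) (Algebra.intNorm (𝓞 F) (𝓞 M) x) ∈ I * I.map (oa σ)
  rw [intNorm_eq h2 hσ]
  exact Ideal.mul_mem_mul hx (Ideal.mem_map_of_mem _ hx)

theorem map_inj :
    Function.Injective fun I : Ideal (𝓞 F) => I.map (algebraMap (𝓞 F) (𝓞 M)) := by
  have k : ∀ I J : Ideal (𝓞 F), I.map (algebraMap (𝓞 F) (𝓞 M)) =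
      J.map (algebraMap (𝓞 F) (𝓞 M)) → J ≤ I := fun I J e => by
    have e1 : Ideal.absNorm I ^ 2 = Ideal.absNorm (I ⊔ J) ^ 2 := by
      rw [← norm_ext h2, ← norm_ext h2, Ideal.map_sup, ← e, sup_idem]
    have e2 := (pow_left_inj₀ (Nat.zero_le _) (Nat.zero_le _) two_ne_zero).1 e1
    by_cases h0 : Ideal.absNorm (I ⊔ J) = 0
    · rw [Ideal.absNorm_eq_zero_iff] at h0
      exact le_sup_right.trans (h0.le.trans bot_le)
    · exact le_sup_right.trans (eq_of_norm le_sup_left h0 e2).ge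
  exact fun I J e => le_antisymm (k J I e.symm) (k I J e)

end quad

section act

variable {N : Type} [Field N] [NumberField N]

/-- The action of an automorphism on ideals. -/
def ac (σ : N ≃ₐ[ℚ] N) (I : Ideal (𝓞 N)) : Ideal (𝓞 N) :=
  I.map (RingOfIntegers.mapRingHom (σ : N →+* N))

theorem ac_mul (σ τ : N ≃ₐ[ℚ] N) (I : Ideal (𝓞 N)) : ac (σ * τ) I = ac σ (ac τ I) := by
  unfold ac
  rw [Ideal.map_map]
  rfl

theorem ac_one (I : Ideal (𝓞 N)) : ac 1 I = I := Ideal.map_id I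

theorem ac_mul' (σ : N ≃ₐ[ℚ] N) (I J : Ideal (𝓞 N)) : ac σ (I * J) = ac σ I * ac σ J :=
  Ideal.map_mul _ _ _

variable {L : Type} [Field L] [NumberField L] [Algebra L N]

omit [NumberField L] in
theorem ac_ext {G : Type} [FunLike G (𝓞 L) (𝓞 L)] [RingHomClass G (𝓞 L) (𝓞 L)] (σ : N ≃ₐ[ℚ] N)
    (ρ : G) (h : ∀ x : 𝓞 L, σ (algebraMap L N x) = algebraMap L N (ρ x)) (I : Ideal (𝓞 L)) :
    ac σ (I.map (algebraMap (𝓞 L) (𝓞 N))) = (I.map ρ).map (algebraMap (𝓞 L) (𝓞 N)) := by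
  change _ = (I.map (ρ : 𝓞 L →+* 𝓞 L)).map _
  unfold ac
  rw [Ideal.map_map, Ideal.map_map]
  congr 1
  ext x
  exact h x

omit [NumberField L] in
theorem ac_fix (σ : N ≃ₐ[ℚ] N) (h : ∀ x : L, σ (algebraMap L N x) = algebraMap L N x)
    (I : Ideal (𝓞 L)) :
    ac σ (I.map (algebraMap (𝓞 L) (𝓞 N))) = I.map (algebraMap (𝓞 L) (𝓞 N)) := by
  rw [ac_ext σ (RingHom.id _) fun x => h x, Ideal.map_id]

/-- An automorphism that fixes `L`, as an automorphism over `L`. -/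
def ov (σ : N ≃ₐ[ℚ] N) (h : ∀ x : L, σ (algebraMap L N x) = algebraMap L N x) : N ≃ₐ[L] N :=
  AlgEquiv.ofRingEquiv (f := σ.toRingEquiv) h

omit [NumberField L] in
theorem ov_ne {σ : N ≃ₐ[ℚ] N} (h : ∀ x : L, σ (algebraMap L N x) = algebraMap L N x)
    (h1 : σ ≠ 1) : ov σ h ≠ 1 := fun e =>
  h1 (AlgEquiv.ext fun x => DFunLike.congr_fun e x)

theorem rel {σ : N ≃ₐ[ℚ] N} (h : ∀ x : L, σ (algebraMap L N x) = algebraMap L N x)
    (h1 : σ ≠ 1) (h2 : finrank L N = 2) (I : Ideal (𝓞 N)) :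
    (Ideal.relNorm (𝓞 L) I).map (algebraMap (𝓞 L) (𝓞 N)) = I * ac σ I :=
  map_rel h2 (ov_ne h h1) I

theorem quadr (s : N ≃ₐ[ℚ] N) (h2 : finrank ℚ L = 2)
    (hs : ∀ y : L, s (algebraMap L N y) = algebraMap L N y → ∃ q : ℚ, algebraMap L N y = q)
    (f : Ideal (𝓞 L)) :
    f.map (algebraMap (𝓞 L) (𝓞 N)) * ac s (f.map (algebraMap (𝓞 L) (𝓞 N))) =
      Ideal.span {(Ideal.absNorm f : 𝓞 N)} := by
  by_cases h0 : f = ⊥
  · simp [h0]
  have : Algebra.IsQuadraticExtension ℚ L := ⟨h2⟩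
  have hc := s.restrictNormal_commutes L
  have hτ : s.restrictNormal L ≠ 1 := fun e => by
    have : Function.Surjective (algebraMap ℚ L) := fun y => by
      obtain ⟨q, hq⟩ := hs y (by rw [← hc, e]; rfl)
      exact ⟨q, (algebraMap L N).injective (by rw [hq]; simp)⟩
    have := (Algebra.finrank_eq_one_iff_bijective_algebraMap (F := ℚ) (E := L)).2
      ⟨(algebraMap ℚ L).injective, this⟩
    omega
  rw [ac_ext s (oa (s.restrictNormal L)) fun x => (hc x).symm, ← Ideal.map_mul]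
  rw [mul_conj h2 hτ h0, Ideal.map_span, Set.image_singleton, map_natCast]

theorem rel_cm [IsCMField L] (I : Ideal (𝓞 L)) :
    (Ideal.relNorm (𝓞 (maximalRealSubfield L)) I).map (algebraMap _ (𝓞 L)) =
      I * I.map (IsCMField.ringOfIntegersComplexConj L) :=
  map_rel (Algebra.IsQuadraticExtension.finrank_eq_two _ _) (IsCMField.complexConj_ne_one L) I

theorem real (s : N ≃ₐ[ℚ] N) (h2 : finrank ℚ (maximalRealSubfield L) = 2)
    (hs : ∀ y : L, s (algebraMap L N y) = algebraMap L N y → ∃ q : ℚ, algebraMap L N y = q)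
    (f : Ideal (𝓞 (maximalRealSubfield L))) :
    (f.map (algebraMap _ (𝓞 L))).map (algebraMap (𝓞 L) (𝓞 N)) *
      ac s ((f.map (algebraMap _ (𝓞 L))).map (algebraMap (𝓞 L) (𝓞 N))) =
      Ideal.span {(Ideal.absNorm f : 𝓞 N)} := by
  let : Algebra (maximalRealSubfield L) N :=
    ((algebraMap L N).comp (algebraMap (maximalRealSubfield L) L)).toAlgebra
  rw [Ideal.map_map]
  exact quadr s h2 (fun y => hs y) f

end act

section pair

variable {E L N : Type} [Field E] [NumberField E] [IsCMField E] [Field L] [NumberField L]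
  [IsCMField L] [Field N] [NumberField N] [Algebra E N] [Algebra L N] {r s c : N ≃ₐ[ℚ] N}

/-- The relations between a quartic field and its reflex field. -/
structure Pr (E L : Type) {N : Type} [Field E] [NumberField E] [IsCMField E] [Field L]
    [NumberField L] [IsCMField L] [Field N] [NumberField N] [Algebra E N] [Algebra L N]
    (r s c : N ≃ₐ[ℚ] N) : Prop where
  fE : ∀ x : E, s (algebraMap E N x) = algebraMap E N x
  fL : ∀ x : L, r (algebraMap L N x) = algebraMap L N x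
  s1 : s ≠ 1
  r1 : r ≠ 1
  dE : finrank E N = 2
  dL : finrank L N = 2
  dF : finrank ℚ (maximalRealSubfield E) = 2
  dK : finrank ℚ (maximalRealSubfield L) = 2
  cE : ∀ x : E, algebraMap E N (IsCMField.complexConj E x) = c (algebraMap E N x)
  cL : ∀ x : L, algebraMap L N (IsCMField.complexConj L x) = c (algebraMap L N x)
  cen : ∀ σ, σ * c = c * σ
  sr : s * r = c * r * s
  rs : r * s = c * s * r
  rat : ∀ x, r x = x → s x = x → ∃ q : ℚ, x = q

namespace Pr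

variable (h : Pr E L r s c)

include h

theorem symm : Pr L E s r c :=
  ⟨h.fL, h.fE, h.r1, h.s1, h.dL, h.dE, h.dK, h.dF, h.cL, h.cE, h.cen, h.rs, h.sr,
    fun x a b => h.rat x b a⟩

theorem bar (b : Ideal (𝓞 L)) : ac c (b.map (algebraMap (𝓞 L) (𝓞 N))) =
    (b.map (IsCMField.ringOfIntegersComplexConj L)).map (algebraMap (𝓞 L) (𝓞 N)) :=
  ac_ext c (IsCMField.ringOfIntegersComplexConj L) (fun x => (h.cL x).symm) b

theorem nK (f : Ideal (𝓞 (maximalRealSubfield L))) :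
    Ideal.relNorm (𝓞 E) ((f.map (algebraMap _ (𝓞 L))).map (algebraMap (𝓞 L) (𝓞 N))) =
      Ideal.span {(Ideal.absNorm f : 𝓞 E)} := by
  apply map_inj h.dE
  dsimp only
  rw [rel h.fE h.s1 h.dE, real s h.dK fun y hy => h.rat _ (h.fL y) hy, Ideal.map_span,
    Set.image_singleton, map_natCast]

theorem four (b : Ideal (𝓞 L)) {B : Ideal (𝓞 N)} (e : B = b.map (algebraMap (𝓞 L) (𝓞 N))) :
    B * ac c B * ac s (B * ac c B) = Ideal.span {(Ideal.absNorm b : 𝓞 N)} := by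
  rw [e, h.bar, ← Ideal.map_mul, ← rel_cm, real s h.dK fun y hy => h.rat _ (h.fL y) hy,
    Ideal.absNorm_relNorm]

theorem tn (b : Ideal (𝓞 L)) :
    Ideal.relNorm (𝓞 E) (b.map (algebraMap (𝓞 L) (𝓞 N))) *
      (Ideal.relNorm (𝓞 E) (b.map (algebraMap (𝓞 L) (𝓞 N)))).map
        (IsCMField.ringOfIntegersComplexConj E) = Ideal.span {(Ideal.absNorm b : 𝓞 E)} ∧
    Ideal.absNorm (Ideal.relNorm (𝓞 E) (b.map (algebraMap (𝓞 L) (𝓞 N)))) = Ideal.absNorm b ^ 2 ∧
    Ideal.relNorm (𝓞 L) ((Ideal.relNorm (𝓞 E) (b.map (algebraMap (𝓞 L) (𝓞 N)))).map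
      (algebraMap (𝓞 E) (𝓞 N))) * b.map (IsCMField.ringOfIntegersComplexConj L) =
      Ideal.span {(Ideal.absNorm b : 𝓞 L)} * b := by
  have k := h.four b rfl
  have kr := ac_fix r h.fL b
  refine ⟨map_inj h.dE ?_, by rw [Ideal.absNorm_relNorm, norm_ext h.dL], map_inj h.dL ?_⟩
  · dsimp only
    rw [Ideal.map_mul, ← h.symm.bar, rel h.fE h.s1 h.dE, Ideal.map_span, Set.image_singleton,
      map_natCast, ← k, ac_mul', ac_mul', ← ac_mul, ← ac_mul, h.cen]
    ring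
  · dsimp only
    rw [Ideal.map_mul, Ideal.map_mul, ← h.bar, rel h.fL h.r1 h.dL, rel h.fE h.s1 h.dE,
      Ideal.map_span, Set.image_singleton, map_natCast, ← k, ac_mul', ac_mul', ← ac_mul, h.rs,
      ac_mul, kr, ← ac_mul s c, h.cen]
    ring

end Pr

end pair

end Nrm

open Nrm Quad

theorem nrm : GalStmt → NrmStmt := by
  intro hG p _ D
  obtain ⟨-, -, cc, cen, sr, -, nd, hφ, cE, cL, -, -, -, -, -, -, -, rat, -, dE4, -, dF, dK, dE,
    dL⟩ := hG p D
  have r1 : D.r ≠ 1 := fun e => by simp [e] at nd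
  have s1 : D.s ≠ 1 := fun e => by simp [e] at nd
  have rs : D.r * D.s = D.c * D.s * D.r := by
    rw [mul_assoc, sr, ← mul_assoc, ← mul_assoc, cc, one_mul]
  have h : Pr D.E D.L D.r D.s D.c :=
    ⟨fun x => (D.sp.fixE _).2 ⟨x, rfl⟩, fun x => (D.sp.fixL _).2 ⟨x, rfl⟩, s1, r1, dE, dL, dF, dK,
      cE, cL, cen, sr, rs, rat⟩
  refine ⟨fun I => ⟨rel h.fE s1 dE I, rel h.fL r1 dL I⟩, rel_cm, map_inj dE, map_inj dL,
    map_inj (Algebra.IsQuadraticExtension.finrank_eq_two _ _), ac_mul, ac_one, ac_mul',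
    fun a => ⟨ac_fix _ h.fE a, h.symm.bar a⟩, fun b => ⟨ac_fix _ h.fL b, h.bar b⟩,
    fun b b' => ?_, fun a a' => ?_, h.tn, h.symm.tn, fun z => ?_, h.nK⟩
  · rw [Dat.nE', Dat.xL, Ideal.map_mul, map_mul]
  · rw [Dat.nL', Dat.xE, Ideal.map_mul, map_mul]
  set y := Algebra.intNorm (𝓞 D.E) (𝓞 D.N) (algebraMap (𝓞 D.L) (𝓞 D.N) z) with hy
  have e1 : D.iE y = D.iL z * D.s (D.iL z) :=
    congrArg (fun u : 𝓞 D.N => (u : D.N)) (intNorm_eq dE (ov_ne h.fE s1) (algebraMap _ _ z))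
  have e2 : D.nE' (Ideal.span {z}) = Ideal.span {y} := by
    rw [Dat.nE', Dat.xL, Ideal.map_span, Set.image_singleton, Ideal.relNorm_singleton]
  refine ⟨y, e1, e2, ?_⟩
  have a1 : D.r (D.s (D.iL z)) = D.c (D.s (D.iL z)) := by
    have := DFunLike.congr_fun rs (D.iL z)
    rwa [AlgEquiv.mul_apply, AlgEquiv.mul_apply, AlgEquiv.mul_apply, h.fL] at this
  have a2 : ∀ x, D.r (D.c x) = D.c (D.r x) := fun x => DFunLike.congr_fun (cen D.r) x
  have a3 : ∀ x, D.c (D.c x) = x := fun x => DFunLike.congr_fun cc x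
  obtain ⟨q, hq⟩ := rat (D.iE (y * D.bE y)) (by
    rw [map_mul, cE, e1]
    simp only [map_mul, a2, a1, a3, h.fL]
    ring) (h.fE _)
  have q0 : 0 ≤ q := by
    have := congrArg D.φ hq
    rw [map_mul, map_mul, cE, hφ, Complex.mul_conj, map_ratCast] at this
    have := Complex.ofReal_injective (this.trans (Complex.ofReal_ratCast q).symm)
    exact_mod_cast this ▸ Complex.normSq_nonneg _
  have hq' : (y : D.E) * D.bE y = q := D.iE.injective (by rw [hq, map_ratCast])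
  have hi : IsIntegral ℤ q := by
    rw [← isIntegral_algebraMap_iff (algebraMap ℚ D.E).injective, eq_ratCast, ← hq']
    exact (y * IsCMField.ringOfIntegersComplexConj D.E y).isIntegral_coe
  obtain ⟨m, rfl⟩ := IsIntegrallyClosed.isIntegral_iff.1 hi
  lift m to ℕ using by simpa using q0
  have e3 : y * IsCMField.ringOfIntegersComplexConj D.E y = m :=
    RingOfIntegers.ext (by simpa using hq')
  have e4 := (h.tn (Ideal.span {z})).1
  change D.nE' _ * (D.nE' _).map _ = _ at e4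
  rw [e2, Ideal.map_span, Set.image_singleton, Ideal.span_singleton_mul_span_singleton, e3] at e4
  have e5 := congrArg Ideal.absNorm e4
  rw [Ideal.absNorm_span_natCast, Ideal.absNorm_span_natCast, RingOfIntegers.rank, dE4] at e5
  rw [hq', ← (pow_left_inj₀ (Nat.zero_le _) (Nat.zero_le _) four_ne_zero).1 e5]
  simp

end Pool.Agent.Lib.MP_9177b7_ag.S4
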