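import Pool.Agent.Lib.MP_9177b7_ag.S4.StC
import Pool.Agent.Lib.MP_9177b7_ag.B.Orb

/-!
The mean over the orbit of a CM point is the mean over the class group of the reflex field.
-/

open NumberField Matrix
open scoped nonZeroDivisors ComplexConjugate ComplexOrder

noncomputable section

namespace Pool.Agent.Lib.MP_9177b7_ag.S4

namespace Orb

theorem JJ (R : Type) [CommRing R] : J4 R * J4 R = -1 := by
  ext i j
  fin_cases i <;> fin_cases j <;> simp [J4, Matrix.mul_apply, Fin.sum_univ_four]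

/-- The relation that defines the Siegel threefold. -/
abbrev Rel (P Q : Per) : Prop := ∃ (g : Matrix (Fin 2) (Fin 2) ℂ) (γ : SP ℤ),
  Q.1 = g * P.1 * γ.1.1.map (Int.cast : ℤ → ℂ)

theorem map_mul' (γ δ : SP ℤ) : (γ * δ).1.1.map (Int.cast : ℤ → ℂ) =
    γ.1.1.map (Int.cast : ℤ → ℂ) * δ.1.1.map (Int.cast : ℤ → ℂ) :=
  Matrix.map_mul (f := Int.castRingHom ℂ)

theorem map_one' : (1 : SP ℤ).1.1.map (Int.cast : ℤ → ℂ) = 1 :=
  Matrix.map_one _ Int.cast_zero Int.cast_one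

theorem rel_equiv : Equivalence Rel where
  refl P := ⟨1, 1, by rw [map_one', Matrix.one_mul, Matrix.mul_one]⟩
  symm := by
    rintro P Q ⟨g, γ, e⟩
    have hg : IsUnit g.det := by
      have h := Q.2.2.det_pos.ne'
      have e2 : Complex.I • (Q.1 * J4 ℂ * Q.1ᴴ) = g * (Complex.I •
          (P.1 * γ.1.1.map (Int.cast : ℤ → ℂ) * J4 ℂ * Q.1ᴴ)) := by
        nth_rw 1 [e]
        simp only [Matrix.mul_smul, Matrix.mul_assoc]
      rw [e2, det_mul] at h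
      exact (left_ne_zero_of_mul h).isUnit
    refine ⟨g⁻¹, γ⁻¹, ?_⟩
    rw [e, Matrix.mul_assoc, Matrix.mul_assoc, ← map_mul', mul_inv_cancel, map_one',
      Matrix.mul_one, nonsing_inv_mul_cancel_left _ _ hg]
  trans := by
    rintro P Q T ⟨g, γ, e⟩ ⟨g', γ', e'⟩
    refine ⟨g' * g, γ * γ', ?_⟩
    rw [e', e, map_mul']
    simp only [Matrix.mul_assoc]

theorem mk_eq (P Q : Per) : (Quot.mk _ P : A2) = Quot.mk _ Q ↔ Rel P Q :=
  Quot.eq.trans rel_equiv.eqvGen_iff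

/-- A rational symplectic matrix with integer entries is integral. -/
theorem int_of (γ : SP ℚ) (h : ∀ i k, ∃ z : ℤ, γ.1.1 i k = z) :
    ∃ δ : SP ℤ, ∀ i k, γ.1.1 i k = δ.1.1 i k := by
  choose z hz using h
  have e : (Matrix.of z).map (Int.castRingHom ℚ) = γ.1.1 := by
    ext i k
    exact (hz i k).symm
  have j : (J4 ℤ).map (Int.castRingHom ℚ) = J4 ℚ := by
    ext i j
    fin_cases i <;> fin_cases j <;> simp [J4]
  refine ⟨⟨⟨Matrix.of z, ?_⟩, ?_⟩, hz⟩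
  · refine (Int.castRingHom ℚ).injective_int ?_
    rw [RingHom.map_det, RingHom.mapMatrix_apply, e, map_one]
    exact γ.1.2
  · refine Matrix.map_injective (Int.castRingHom ℚ).injective_int ?_
    change ((Matrix.of z)ᵀ * J4 ℤ * Matrix.of z).map (Int.castRingHom ℚ) =
      (J4 ℤ).map (Int.castRingHom ℚ)
    rw [Matrix.map_mul, Matrix.map_mul, transpose_map, e, j]
    exact γ.2

variable {p : ℕ} [Fact p.Prime] (D : Dat p)

/-- A frame determines its lattice. -/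
theorem lat_eq {ξ ξ' : D.E} {a a' : D.FE} {e : Fin 4 → D.E} (h : Frame ξ a e)
    (h' : Frame ξ' a' e) : a = a' :=
  FractionalIdeal.ext fun x => (h.2 x).trans (h'.2 x).symm

theorem Pm_mat (γ : SP ℤ) (e : Fin 4 → D.E) :
    D.Pm (fun k => ∑ i, γ.1.1 i k * e i) = D.Pm e * γ.1.1.map (Int.cast : ℤ → ℂ) := by
  ext i k
  simp only [Dat.Pm, of_apply, mul_apply, map_apply, map_sum, map_mul, map_intCast, mul_comm]

theorem Pm_mul (y : D.E) (e : Fin 4 → D.E) : D.Pm (fun k => y * e k) =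
    diagonal (fun i : Fin 2 => D.φ (D.em (Fin.castLE (by norm_num) i) y)) * D.Pm e := by
  ext i k
  simp only [Dat.Pm, of_apply, diagonal_mul, map_mul]

/-- Isomorphic polarised lattices. -/
def Is (ξ : D.E) (a : D.FE) (ξ' : D.E) (a' : D.FE) : Prop :=
  ∃ y : D.E, y ≠ 0 ∧ ξ = y * D.bE y * ξ' ∧ a' = FractionalIdeal.spanSingleton _ y * a

/-- Frames of isomorphic lattices give the same point. -/
theorem rel_of (hF : FrameStmt) {ξ ξ' : D.E} {a a' : D.FE} {e e' : Fin 4 → D.E}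
    (hξ : D.bE ξ = -ξ) (hξ' : D.bE ξ' = -ξ') (h : Frame ξ a e) (h' : Frame ξ' a' e')
    (hi : Is D ξ a ξ' a') {P Q : Per} (hP : P.1 = D.Pm e) (hQ : Q.1 = D.Pm e') : Rel P Q := by
  obtain ⟨y, y0, h1, rfl⟩ := hi
  obtain ⟨-, -, -, -, -, -, -, -, -, -, tw, -⟩ := (hF p D).1 ξ a e hξ h
  obtain ⟨-, -, -, -, -, -, -, -, -, -, -, -, ch⟩ := (hF p D).1 ξ' _ _ hξ' (tw y ξ' y0 h1)
  obtain ⟨γ, g1, g2⟩ := ch _ e' h'
  obtain ⟨δ, hδ⟩ := int_of γ fun i k => by simpa using g2 1 (fun x hx => by simpa using hx) i k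
  refine ⟨diagonal fun i : Fin 2 => D.φ (D.em (Fin.castLE (by norm_num) i) y), δ, ?_⟩
  rw [hP, hQ, ← Pm_mul, ← Pm_mat]
  congr 1
  funext k
  rw [g1 k]
  simp only [hδ, Rat.cast_intCast]

/-- The same point comes from isomorphic lattices. -/
theorem of_rel (hG : GalStmt) (hF : FrameStmt) {ξ ξ' : D.E} {a a' : D.FE} {e e' : Fin 4 → D.E}
    (hξ : D.bE ξ = -ξ) (hξ' : D.bE ξ' = -ξ') (h : Frame ξ a e) (h' : Frame ξ' a' e')
    {P Q : Per} (hP : P.1 = D.Pm e) (hQ : Q.1 = D.Pm e') (hr : Rel P Q) : Is D ξ a ξ' a' := by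
  obtain ⟨g, γ, hz⟩ := hr
  obtain ⟨-, -, -, -, -, -, -, -, -, -, -, h2, -⟩ := (hF p D).1 ξ a e hξ h
  have h3 := h2 γ
  rw [hP, hQ, Matrix.mul_assoc, ← Pm_mat] at hz
  generalize (fun k => ∑ i, γ.1.1 i k * e i) = f at h3 hz
  obtain ⟨-, -, -, -, -, -, -, m1, -, -, tw, -⟩ := (hF p D).1 ξ a f hξ h3
  obtain ⟨-, -, -, li, -, -, -, m2, -⟩ := (hF p D).1 ξ' a' e' hξ' h'
  obtain ⟨-, -, -, -, -, -, -, -, -, -, g1, g2, -⟩ := hG p D
  obtain ⟨W, hW⟩ : ∃ W : M4 D.N, D.Em f * W = 1 := by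
    refine ⟨J4 D.N * (D.Em f)ᵀ * diagonal ![D.em 0 ξ, D.em 1 ξ, D.em 0 ξ, D.em 1 ξ] * -J4 D.N, ?_⟩
    rw [← mul_assoc, ← mul_assoc, ← mul_assoc, m1, mul_neg, JJ, neg_neg]
  have ind : ∀ (R : Type) [CommRing R] (ψ : D.N →+* R) (v : Fin 4 → R),
      (∀ k, ∑ j, v j * ψ (D.em j (f k)) = 0) → v = 0 := fun R _ ψ v hv => by
    have e1 : v ᵥ* (D.Em f).map ψ = 0 := funext hv
    have e2 := congrArg (· ᵥ* W.map ψ) e1
    simpa only [vecMul_vecMul, ← Matrix.map_mul, hW, Matrix.map_one ψ ψ.map_zero ψ.map_one,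
      vecMul_one, zero_vecMul] using e2
  obtain ⟨u, hu⟩ : ∃ u : Fin 4 → D.N, ∀ k, D.em 0 (e' k) = ∑ j, u j * D.em j (f k) := by
    refine ⟨(fun k => D.em 0 (e' k)) ᵥ* W, fun k => ?_⟩
    change _ = (((fun k => D.em 0 (e' k)) ᵥ* W) ᵥ* D.Em f) k
    rw [vecMul_vecMul, mul_eq_one_comm.1 hW, vecMul_one]
  have v1 := ind ℂ D.φ ![D.φ (u 0) - g 0 0, D.φ (u 1) - g 0 1, D.φ (u 2), D.φ (u 3)] fun k => by
    have a1 := congrArg D.φ (hu k)
    have a2 : D.φ (D.em 0 (e' k)) =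
        g 0 0 * D.φ (D.em 0 (f k)) + g 0 1 * D.φ (D.em 1 (f k)) := by
      have := congrFun (congrFun hz 0) k
      rw [mul_apply, Fin.sum_univ_two] at this
      exact this
    simp only [Fin.sum_univ_four, map_add, map_mul] at a1
    simp only [Fin.sum_univ_four, cons_val_zero, cons_val_one, cons_val]
    linear_combination a2 - a1
  have u2 : u 2 = 0 := (map_eq_zero D.φ).1 (congrFun v1 2)
  have u3 : u 3 = 0 := (map_eq_zero D.φ).1 (congrFun v1 3)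
  have v2 := ind D.N (RingHom.id _) ![u 0 - D.s (u 0), u 1, 0, -D.s (u 1)] fun k => by
    have a1 := hu k
    simp only [Fin.sum_univ_four, u2, u3, zero_mul, add_zero] at a1
    have a2 := congrArg D.s a1
    rw [map_add, map_mul, map_mul, (g2 0 _).2.2.2, (g2 0 _).2.2.2, (g2 1 _).2.2.2] at a2
    simp only [cons_val_zero, cons_val_one] at a2
    simp only [Fin.sum_univ_four, cons_val_zero, cons_val_one, cons_val, RingHom.id_apply]
    linear_combination a2 - a1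
  have u1 : u 1 = 0 := congrFun v2 1
  obtain ⟨y, hy⟩ := (D.sp.fixE (u 0)).1 (sub_eq_zero.1 (congrFun v2 0)).symm
  obtain rfl : e' = fun k => y * f k := funext fun k => (D.em 0).injective (by
    rw [hu k, Fin.sum_univ_four, u1, u2, u3, map_mul, ← hy, (g1 y).1]
    ring)
  have y0 : y ≠ 0 := fun h0 => li.ne_zero 0 (by simp [h0])
  have hx : ξ = y * D.bE y * ξ' := by
    have a1 := congrFun (congrFun m1 0) 2
    have a2 := congrFun (congrFun m2 0) 2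
    have a3 : D.em 0 (D.bE y) = D.em 2 y := (g2 0 y).1
    rw [mul_diagonal] at a1 a2
    simp only [mul_apply, Fin.sum_univ_four, Dat.Em, of_apply, transpose_apply, map_mul,
      cons_val] at a1 a2
    refine (D.em 0).injective ?_
    rw [map_mul, map_mul, a3]
    simp [J4] at a1 a2
    linear_combination (D.em 0 y * D.em 2 y * D.em 0 ξ') * a1 - D.em 0 ξ * a2
  exact ⟨y, y0, hx, lat_eq D h' (tw y ξ' y0 hx)⟩

/-- Ideals with the same type norm. -/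
def R (b b' : Ideal (𝓞 D.L)) : Prop :=
  ∃ y : D.E, y ≠ 0 ∧ (Ideal.absNorm b : D.E) = y * D.bE y * Ideal.absNorm b' ∧
    ((D.nE' b : Ideal (𝓞 D.E)) : D.FE) =
      FractionalIdeal.spanSingleton _ y * ((D.nE' b' : Ideal (𝓞 D.E)) : D.FE)

variable {D}

theorem R.symm {b b' : Ideal (𝓞 D.L)} (h : R D b b') : R D b' b := by
  obtain ⟨y, y0, h1, h2⟩ := h
  have y1 : D.bE y ≠ 0 := (map_ne_zero _).2 y0
  refine ⟨y⁻¹, inv_ne_zero y0, ?_, ?_⟩
  · rw [h1, Dat.bE, map_inv₀]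
    field_simp
  · rw [h2, ← mul_assoc, FractionalIdeal.spanSingleton_mul_spanSingleton, inv_mul_cancel₀ y0,
      FractionalIdeal.spanSingleton_one, one_mul]

theorem R.trans {b b' b'' : Ideal (𝓞 D.L)} (h : R D b b') (h' : R D b' b'') : R D b b'' := by
  obtain ⟨y, y0, h1, h2⟩ := h
  obtain ⟨z, z0, h3, h4⟩ := h'
  refine ⟨y * z, mul_ne_zero y0 z0, ?_, ?_⟩
  · rw [h1, h3]
    simp only [Dat.bE, map_mul]
    ring
  · rw [h2, h4, ← mul_assoc, FractionalIdeal.spanSingleton_mul_spanSingleton]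

theorem R.mul (hN : NrmStmt) {b b' : Ideal (𝓞 D.L)} (h : R D b b') (c : Ideal (𝓞 D.L)) :
    R D (b * c) (b' * c) := by
  obtain ⟨y, y0, h1, h2⟩ := h
  obtain ⟨-, -, -, -, -, -, -, -, -, -, m, -⟩ := hN p D
  refine ⟨y, y0, ?_, ?_⟩
  · rw [map_mul, map_mul, Nat.cast_mul, Nat.cast_mul, h1]
    ring
  · rw [m, m, FractionalIdeal.coeIdeal_mul, FractionalIdeal.coeIdeal_mul, h2, mul_assoc]

theorem R.pr (hN : NrmStmt) {z : 𝓞 D.L} (hz : z ≠ 0) (b : Ideal (𝓞 D.L)) :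
    R D (Ideal.span {z} * b) b := by
  obtain ⟨-, -, -, -, -, -, -, -, -, -, m, -, -, -, q, -⟩ := hN p D
  obtain ⟨y, -, h1, h2⟩ := q z
  refine ⟨y, fun h0 => hz ?_, ?_, ?_⟩
  · rw [h0, zero_mul, eq_comm, Nat.cast_eq_zero, Ideal.absNorm_eq_zero_iff] at h2
    exact Ideal.span_singleton_eq_bot.1 h2
  · rw [map_mul, Nat.cast_mul, h2]
  · rw [m, h1, FractionalIdeal.coeIdeal_mul, FractionalIdeal.coeIdeal_span_singleton]

theorem R.cl (hN : NrmStmt) {b b' : (Ideal (𝓞 D.L))⁰} (h : ClassGroup.mk0 b = ClassGroup.mk0 b') :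
    R D b b' := by
  obtain ⟨x, y, hx, hy, e⟩ := ClassGroup.mk0_eq_mk0_iff.1 h
  exact (R.pr hN hx _).symm.trans (e ▸ R.pr hN hy _)

theorem is_iff (hN : NrmStmt) (hF : FrameStmt) {b b' : Ideal (𝓞 D.L)} (hb : b ≠ ⊥) (hb' : b' ≠ ⊥) :
    Is D (D.xi b) (D.tw b) (D.xi b') (D.tw b') ↔ R D b b' := by
  obtain ⟨e, he⟩ := D.sp.frame
  obtain ⟨a0, x0, -⟩ := (hF p D).1 _ _ e D.sp.imag he
  obtain ⟨-, -, -, -, -, -, -, -, -, -, -, -, q, -⟩ := hN p D
  have n0 : ∀ c : Ideal (𝓞 D.L), c ≠ ⊥ → ((D.nE' c : Ideal (𝓞 D.E)) : D.FE) ≠ 0 := fun c hc h => by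
    have h1 := (q c).2.1
    rw [FractionalIdeal.coeIdeal_eq_zero.1 h, Ideal.absNorm_bot, eq_comm, pow_eq_zero_iff two_ne_zero,
      Ideal.absNorm_eq_zero_iff] at h1
    exact hc h1
  refine exists_congr fun y => and_congr_right fun _ => and_congr ?_ ?_
  · rw [Dat.xi, Dat.xi, ← mul_assoc, mul_left_inj' x0]
  · rw [Dat.tw, Dat.tw, ← mul_assoc, mul_left_inj' a0, eq_mul_inv_iff_mul_eq₀ (n0 b hb),
      inv_mul_eq_iff_eq_mul₀ (n0 b' hb'), mul_comm]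

end Orb

open Orb in
theorem orb : GalStmt → NrmStmt → FrameStmt → OrbStmt := by
  intro hG hN hF p _ D S P hP
  have nz : ∀ b : (Ideal (𝓞 D.L))⁰, (b : Ideal (𝓞 D.L)) ≠ ⊥ := fun b => nonZeroDivisors.ne_zero b.2
  have im : ∀ b : (Ideal (𝓞 D.L))⁰, D.bE (D.xi b) = -D.xi b := fun b => ((hF p D).2 b (nz b)).1
  have pm : ∀ (e : Fin 4 → D.E) (Q : Per), (∀ i, Q.1 0 i = D.φ (algebraMap D.E D.N (e i)) ∧
      Q.1 1 i = D.φ (D.r (algebraMap D.E D.N (e i)))) ↔ Q.1 = D.Pm e := fun e Q =>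
    ⟨fun h => by
      ext i k
      fin_cases i
      exacts [(h k).1, (h k).2], fun h i => by rw [h]; exact ⟨rfl, rfl⟩⟩
  have hR : orbit D.L D.φ D.r D.ξ D.a = Set.range fun x => (Quot.mk _ (P x) : A2) := by
    ext o
    constructor
    · rintro ⟨b, e, Q, hb, he, hQ, rfl⟩
      let b' : (Ideal (𝓞 D.L))⁰ := ⟨b, mem_nonZeroDivisors_of_ne_zero hb⟩
      exact ⟨ClassGroup.mk0 b', (mk_eq _ _).2 (rel_of D hF (im _) (im b') (S.he _) he
        ((is_iff hN hF (nz _) hb).2 (R.cl hN (b' := b') (S.hb _))) (hP _) ((pm e Q).1 hQ))⟩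
    · rintro ⟨x, rfl⟩
      exact ⟨S.b x, S.e x, P x, nz _, S.he x, (pm _ _).2 (hP x), rfl⟩
  have hE : ∀ x y, (Quot.mk _ (P x) : A2) = Quot.mk _ (P y) ↔ R D (S.b x) (S.b y) := by
    intro x y
    rw [mk_eq, ← is_iff hN hF (nz _) (nz _)]
    exact ⟨of_rel D hG hF (im _) (im _) (S.he x) (S.he y) (hP x) (hP y), fun h =>
      rel_of D hF (im _) (im _) (S.he x) (S.he y) h (hP x) (hP y)⟩
  have hT : ∀ x y t, R D (S.b x) (S.b y) → R D (S.b (x * t)) (S.b (y * t)) := by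
    have a : ∀ x t, R D (S.b (x * t)) (S.b x * S.b t) := fun x t =>
      R.cl hN (b' := S.b x * S.b t) (by rw [map_mul, S.hb, S.hb, S.hb])
    exact fun x y t h => (a x t).trans ((h.mul hN _).trans (a y t).symm)
  refine ⟨hR ▸ Set.finite_range _, fun f => ?_⟩
  rw [hR]
  have : Nonempty {y // (Quot.mk _ (P y) : A2) = Quot.mk _ (P 1)} := ⟨⟨1, rfl⟩⟩
  refine B.Orb.mean_range _ (Nat.card {y // (Quot.mk _ (P y) : A2) = Quot.mk _ (P 1)})
    Nat.card_pos.ne' (fun x => Nat.card_congr ((Equiv.mulRight x⁻¹).subtypeEquiv fun y => ?_)) f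
  rw [hE, hE, Equiv.coe_mulRight]
  exact ⟨fun h => by simpa using hT _ _ x⁻¹ h, fun h => by simpa using hT _ _ x h⟩

end Pool.Agent.Lib.MP_9177b7_ag.S4
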