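import Pool.Agent.Lib.MP_9177b7_ag.S4.StD

/-!
The invariants of good objects are small and satisfy a congruence.
-/

open NumberField

noncomputable section

namespace Pool.Agent.Lib.MP_9177b7_ag.S4

namespace Reg

variable {p : ℕ} [Fact p.Prime]

theorem dvd_of_norm {z : ℤ} {K : ℕ} (h : ‖(z : ℚ_[p])‖ ≤ ((p : ℝ) ^ K)⁻¹) : (p : ℤ) ^ K ∣ z := by
  rw [← Padic.norm_int_le_pow_iff_dvd, zpow_neg, zpow_natCast]
  exact h

theorem norm_of_sq {x : ℚ_[p]} {n : ℕ} (h : x ^ 2 = n) (hn : ¬ p ∣ n) : ‖x‖ = 1 := by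
  have h1 : ‖x‖ ^ 2 = 1 := by
    rw [← norm_pow, h]
    exact Padic.norm_natCast_eq_one_iff.2 ((Nat.Prime.coprime_iff_not_dvd Fact.out).2 hn)
  exact (pow_eq_one_iff_of_nonneg (norm_nonneg _) two_ne_zero).1 h1

theorem exists_int {x : ℚ_[p]} (h : ‖x‖ ≤ 1) (K : ℕ) :
    ∃ z : ℤ, ‖x - z‖ ≤ ((p : ℝ) ^ K)⁻¹ := by
  obtain ⟨z, hz⟩ := PadicInt.denseRange_intCast.exists_dist_lt (⟨x, h⟩ : ℤ_[p])
    (show 0 < ((p : ℝ) ^ K)⁻¹ by have := (Fact.out : p.Prime).pos; positivity)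
  rw [dist_eq_norm] at hz
  exact ⟨z, by simpa [PadicInt.norm_def] using hz.le⟩

theorem cong {n d c₀ x : ℤ} {Dn K : ℕ} {θ v : ℚ_[p]} (hθ : ‖θ‖ ≤ 1)
    (hx : ‖θ - x‖ ≤ ((p : ℝ) ^ K)⁻¹) (hv : ‖v - c₀‖ ≤ ((p : ℝ) ^ K)⁻¹)
    (e : Dn * θ * v = (n - d * θ) / 2) : (p : ℤ) ^ K ∣ n - d * x - 2 * Dn * x * c₀ := by
  refine dvd_of_norm ?_
  have e1 : ((n - d * x - 2 * Dn * x * c₀ : ℤ) : ℚ_[p]) =
      ((d + 2 * Dn * c₀ : ℤ) : ℚ_[p]) * (θ - x) + ((2 * Dn : ℤ) : ℚ_[p]) * θ * (v - c₀) := by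
    push_cast
    linear_combination (-2) * e
  rw [e1]
  refine (IsUltrametricDist.norm_add_le_max _ _).trans (max_le ?_ ?_)
  · rw [norm_mul]
    exact (mul_le_of_le_one_left (norm_nonneg _) (Padic.norm_int_le_one _)).trans hx
  · rw [norm_mul, norm_mul]
    exact (mul_le_of_le_one_left (norm_nonneg _)
      (mul_le_one₀ (Padic.norm_int_le_one _) (norm_nonneg _) hθ)).trans hv

theorem norm_sqrt {z : ℂ} {n : ℕ} (h : z ^ 2 = n) : ‖z‖ = √(n : ℝ) := by
  rw [← Complex.norm_natCast, ← h, norm_pow, Real.sqrt_sq (norm_nonneg _)]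

end Reg

open Reg in
theorem reg {p : ℕ} [Fact p.Prime] (D : Dat p) (A : D.Ar) (S : SD p) (h1 : S.D = D.Dn)
    (h2 : S.Dt = D.Dt) (h3 : S.d₀ = A.d₀) (h4 : S.c = A.c) (j : Fin 3) (c₀ : ℤ) (K : ℕ) (R : ℝ)
    (U : Finset (ℤ × ℤ)) (hU : ∀ u ∈ U, ∃ J b e P γ g, A.Inv J b e P u.1 u.2 γ g ∧
      D.Good (D.xi b) e j c₀ K R P) : S.Reg (2 * R + 1) K U := by
  have el : ∀ t, S.dl t = A.dl t := fun t => by rw [SD.dl, h3]; rfl
  have en : ∀ t k, S.nn t k = A.nn t k := fun t k => by rw [SD.nn, h4, el, h1]; rfl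
  have hw : D.iE A.w ^ 2 = D.Dn := by
    have := congrArg (fun x : 𝓞 D.E => D.iE x) A.w_sq
    simpa using this
  have hθ : D.iK A.θ ^ 2 = D.Dt := by
    have := congrArg (fun x : 𝓞 D.K => D.iK x) A.θ_sq
    simpa [Dat.iK] using this
  have hD1 : (1 : ℝ) ≤ √(D.Dn : ℝ) := Real.one_le_sqrt.2 (by exact_mod_cast A.Dn_gt.le)
  have hw0 : D.iE A.w ≠ 0 := fun e => by
    rw [e, zero_pow two_ne_zero, eq_comm, Nat.cast_eq_zero] at hw
    have := A.Dn_gt
    omega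
  have cw : ‖D.φ (D.iE A.w)‖ = √(D.Dn : ℝ) := norm_sqrt (by rw [← map_pow, hw, map_natCast])
  have cθ : ‖D.φ (D.iK A.θ)‖ = √(D.Dt : ℝ) := norm_sqrt (by rw [← map_pow, hθ, map_natCast])
  have pw : ‖D.ψ (D.iE A.w)‖ = 1 := norm_of_sq (n := D.Dn) (by rw [← map_pow, hw, map_natCast])
    fun h => A.cop (h.mul_right _)
  have pθ : ‖D.ψ (D.iK A.θ)‖ = 1 := norm_of_sq (n := D.Dt) (by rw [← map_pow, hθ, map_natCast])
    fun h => A.cop (h.mul_left _)
  have eta : ∀ {J b e P t k γ g}, A.Inv J b e P t k γ g →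
      ((2 * t + 1 : ℤ) : D.N) = D.iE A.w * (2 * D.iv (D.xi b) e P 0 - 1) := fun hI => by
    rw [hI.eta]
    push_cast
    field_simp
    ring
  rw [SD.Reg, h1, h2]
  simp only [el, en]
  refine ⟨fun u hu => ?_, ?_⟩
  · obtain ⟨J, b, e, P, γ, g, hI, -, hs, -⟩ := hU u hu
    have hR : 0 ≤ R := (norm_nonneg _).trans (hs 0)
    constructor
    · have e1 := congrArg (fun x => ‖D.φ x‖) (eta hI)
      simp only [map_intCast, Complex.norm_intCast, map_mul, norm_mul, cw, map_sub, map_one,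
        map_ofNat] at e1
      push_cast at e1
      rw [e1, mul_comm]
      gcongr
      refine (norm_sub_le _ _).trans ?_
      rw [norm_mul, norm_one, Complex.norm_ofNat]
      linarith [hs 0]
    · have e1 : ((A.nn u.1 u.2 : ℤ) : D.N) =
          D.Dn * D.iK A.θ * (D.iv (D.xi b) e P 1 - D.iv (D.xi b) e P 2) := by
        linear_combination hI.tau' - hI.tau
      have e2 := congrArg (fun x => ‖D.φ x‖) e1
      simp only [map_intCast, Complex.norm_intCast, map_mul, norm_mul, cθ, map_sub, map_natCast,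
        Complex.norm_natCast] at e2
      rw [e2, mul_comm, mul_assoc]
      gcongr
      refine (norm_sub_le _ _).trans ?_
      linarith [hs 1, hs 2]
  · obtain ⟨x, hx⟩ := exists_int pθ.le K
    fin_cases j
    · left
      rcases U.eq_empty_or_nonempty with rfl | ⟨u₀, hu₀⟩
      · exact ⟨0, by simp⟩
      refine ⟨u₀.1, fun u hu => dvd_of_norm ?_⟩
      obtain ⟨J, b, e, P, γ, g, hI, -, -, hc⟩ := hU u hu
      obtain ⟨J', b', e', P', γ', g', hI', -, -, hc'⟩ := hU u₀ hu₀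
      have e1 : ((u.1 - u₀.1 : ℤ) : D.N) = D.iE A.w *
          ((D.iv (D.xi b) e P 0 - c₀) - (D.iv (D.xi b') e' P' 0 - c₀)) := by
        have a := eta hI
        have a' := eta hI'
        push_cast at a a' ⊢
        linear_combination (a - a') / 2
      rw [← map_intCast D.ψ, e1, map_mul, norm_mul, pw, one_mul, map_sub, map_sub, map_sub,
        map_intCast, sub_eq_add_neg]
      exact (IsUltrametricDist.norm_add_le_max _ _).trans (max_le hc (by rw [norm_neg]; exact hc'))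
    · refine Or.inr ⟨x, 2 * D.Dn * x * c₀, fun u hu => ?_⟩
      obtain ⟨J, b, e, P, γ, g, hI, -, -, hc⟩ := hU u hu
      refine cong pθ.le hx hc ?_
      have := congrArg D.ψ hI.tau
      simpa [map_ofNat] using this
    · refine Or.inr ⟨-x, 2 * D.Dn * (-x) * c₀, fun u hu => ?_⟩
      obtain ⟨J, b, e, P, γ, g, hI, -, -, hc⟩ := hU u hu
      refine cong (θ := -D.ψ (D.iK A.θ)) (v := D.ψ (D.iv (D.xi b) e P 2))
        (by rw [norm_neg, pθ]) ?_ hc ?_
      · rw [Int.cast_neg, ← neg_sub', norm_neg]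
        exact hx
      · have := congrArg D.ψ hI.tau'
        simp only [map_mul, map_natCast, map_div₀, map_neg, map_add, map_intCast, map_ofNat] at this
        linear_combination -this

theorem size : SizeStmt := fun _ _ D A S j c₀ K R U _ h hU =>
  reg D A S h.hD h.hDt h.hd h.hc j c₀ K R U hU

end Pool.Agent.Lib.MP_9177b7_ag.S4
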