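import Pool.Agent.Lib.MP_9177b7_ag.S4.StD
import Pool.Agent.Lib.MP_9177b7_ag.S4.Quad
import Pool.Agent.Lib.MP_9177b7_ag.B.Rep
import Pool.Agent.Lib.MP_9177b7_ag.B.Idc

/-!
The bound for the number of ideals of given relative norm.
-/

open NumberField Module Pool.Agent.Shared.PrimeZeta

noncomputable section

namespace Pool.Agent.Lib.MP_9177b7_ag.S4

namespace RepL

open Quad B.Rep

/-- Norms in a quadratic field. -/
theorem norm_quad {K : Type} [Field K] [NumberField K] (h : finrank ℚ K = 2) {θ : 𝓞 K} {d : ℕ}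
    (hθ : θ ^ 2 = d) (hs : Squarefree d) (h1 : 1 < d) (a b : ℤ) :
    Ideal.absNorm (Ideal.span {(a : 𝓞 K) + b * θ}) = (a ^ 2 - b ^ 2 * d).natAbs := by
  classical
  have : Algebra.IsQuadraticExtension ℚ K := ⟨h⟩
  have hc : Fintype.card (K ≃ₐ[ℚ] K) = 2 := by
    rw [← Nat.card_eq_fintype_card, IsGalois.card_aut_eq_finrank, h]
  have : Nontrivial (K ≃ₐ[ℚ] K) := Fintype.one_lt_card_iff_nontrivial.1 (by omega)
  obtain ⟨τ, hτ⟩ := exists_ne (1 : K ≃ₐ[ℚ] K)
  have hN : ∀ x : 𝓞 K, x * oa τ x = (Algebra.norm ℤ x : ℤ) := fun x => by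
    have hu : (Finset.univ : Finset (K ≃ₐ[ℚ] K)) = {1, τ} :=
      (Finset.eq_univ_of_card _ (by rw [Finset.card_pair hτ.symm, hc])).symm
    apply RingOfIntegers.ext
    have := Algebra.norm_eq_prod_automorphisms ℚ (x : K)
    rw [hu, Finset.prod_pair hτ.symm, ← Algebra.coe_norm_int] at this
    simpa using this.symm
  have e : oa τ θ = -θ := by
    have e1 : (oa τ θ - θ) * (oa τ θ + θ) = 0 := by
      have := congrArg (oa τ) hθ
      rw [map_pow, map_natCast] at this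
      linear_combination this - hθ
    refine eq_neg_of_add_eq_zero_left ((mul_eq_zero.1 e1).resolve_left fun e2 => ?_)
    have e3 := hN (1 + θ)
    rw [map_add, map_one, sub_eq_zero.1 e2] at e3
    refine SD.not_sq hs h1 (x := Algebra.norm ℤ (1 + θ) - 1 - d) two_ne_zero ?_
    apply Int.cast_injective (α := 𝓞 K)
    push_cast
    rw [← e3, ← hθ]
    ring
  rw [Ideal.absNorm_span_singleton]
  congr 1
  apply Int.cast_injective (α := 𝓞 K)
  rw [← hN, map_add, map_mul, map_intCast, map_intCast, e]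
  push_cast
  rw [← hθ]
  ring

variable {p : ℕ} [Fact p.Prime] {D : Dat p} {A : D.Ar} {t k : ℤ} {g : Ideal (𝓞 D.L)}

/-- The image of `θ`. -/
abbrev th (A : D.Ar) : 𝓞 D.L := algebraMap (𝓞 D.K) (𝓞 D.L) A.θ

theorem two_nu {ν : 𝓞 D.K} (h : (ν : D.K) = A.nu t k) :
    2 * ν = (A.nn t k : 𝓞 D.K) + (-A.dl t : ℤ) * A.θ := by
  apply RingOfIntegers.ext
  simp only [RingOfIntegers.coe_eq_algebraMap, map_mul, map_add, map_intCast, map_ofNat] at h ⊢
  rw [h, Dat.Ar.nu]
  push_cast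
  simp only [RingOfIntegers.coe_eq_algebraMap]
  ring

theorem four_norm (h2 : finrank ℚ D.K = 2) (h : A.Rel t k g) :
    (A.QQ t k).natAbs = 4 * Ideal.absNorm g := by
  obtain ⟨ν, hν, e⟩ := h
  have q2 : finrank D.K D.L = 2 := Algebra.IsQuadraticExtension.finrank_eq_two _ _
  have e1 := congrArg Ideal.absNorm e
  have e2 : Ideal.absNorm (D.cL' g) = Ideal.absNorm g :=
    norm_map (IsCMField.ringOfIntegersComplexConj D.L).toRingEquiv g
  rw [map_mul, map_mul, e2, norm_ext q2, A.n_nrm, ← Set.image_singleton, ← Ideal.map_span,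
    norm_ext q2, ← sq, ← mul_pow] at e1
  have e3 := (pow_left_inj₀ (Nat.zero_le _) (Nat.zero_le _) two_ne_zero).1 e1
  have e4 := norm_quad h2 A.θ_sq A.sqf.of_mul_right A.Dt_gt (A.nn t k) (-A.dl t)
  have e5 : A.nn t k ^ 2 - (-A.dl t) ^ 2 * D.Dt = D.Dn * A.QQ t k := by
    rw [Dat.Ar.QQ, Dat.Ar.nn]
    linear_combination (A.dl t ^ 2) * A.hm
  rw [← two_nu hν, ← Ideal.span_singleton_mul_span_singleton, map_mul, ← e3, e5, Int.natAbs_mul,
    Int.natAbs_natCast, ← Nat.cast_ofNat, Ideal.absNorm_span_natCast, RingOfIntegers.rank,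
    h2] at e4
  have := A.Dn_gt
  refine Nat.eq_of_mul_eq_mul_left (by omega : 0 < D.Dn) ?_
  rw [← e4]
  ring

theorem mem_of_rel (h : A.Rel t k g) :
    (A.nn t k : 𝓞 D.L) - A.dl t * th A ∈ g := by
  obtain ⟨ν, hν, e⟩ := h
  have e1 := congrArg (algebraMap (𝓞 D.K) (𝓞 D.L)) (two_nu hν)
  simp only [map_mul, map_add, map_intCast, map_ofNat] at e1
  have e2 : algebraMap (𝓞 D.K) (𝓞 D.L) ν ∈ g := by
    have := Ideal.mem_span_singleton_self (algebraMap (𝓞 D.K) (𝓞 D.L) ν)
    rw [← e, mul_assoc] at this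
    exact Ideal.mul_le_left this
  convert Ideal.mul_mem_left _ 2 e2 using 1
  rw [e1]
  push_cast
  ring

/-- The ramified prime above `q`. -/
abbrev Lq (A : D.Ar) (q : ℕ) : Ideal (𝓞 D.L) := A.Df ⊔ Ideal.span {(q : 𝓞 D.L)}

variable {q : ℕ}

theorem th_mem (q : ℕ) : th A + A.c ∈ Lq A q := by
  have h := Ideal.mem_map_of_mem (algebraMap (𝓞 D.K) (𝓞 D.L)) A.θ_d
  rw [map_add, map_intCast] at h
  have h' : th A + A.c ∈ A.Df ^ 2 := A.Df_sq ▸ h
  exact Ideal.mem_sup_left (Ideal.pow_le_self two_ne_zero h')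

theorem int_prime (hq : q.Prime) {I : Ideal (𝓞 D.L)} (h : Ideal.absNorm I = q) (z : ℤ) :
    (z : 𝓞 D.L) ∈ I ↔ (q : ℤ) ∣ z := h ▸ int_mem (h ▸ hq.squarefree) z

theorem not_two (A : D.Ar) (hq : q.Prime) (h : q ∣ D.Dn) : ¬ (q : ℤ) ∣ 2 := fun e => by
  have h1 : q = 2 := (Nat.prime_dvd_prime_iff_eq hq Nat.prime_two).1 (by exact_mod_cast e)
  subst h1
  have h2 : (2 : ℤ) ∣ D.Dn := by exact_mod_cast h
  have := A.hd₀
  omega

theorem not_c (A : D.Ar) (hq : q.Prime) (h : q ∣ D.Dn) : ¬ (q : ℤ) ∣ A.c := fun e => by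
  have h1 : (q : ℤ) ∣ D.Dt := by
    rw [show (D.Dt : ℤ) = A.c ^ 2 - D.Dn * A.m by linear_combination -A.hm]
    exact dvd_sub (dvd_pow e two_ne_zero) ((Int.natCast_dvd_natCast.2 h).mul_right _)
  exact hq.not_isUnit (A.sqf q (mul_dvd_mul h (Int.natCast_dvd_natCast.1 h1)))

theorem dvd_dl (A : D.Ar) (hq : q.Prime) (h : q ∣ D.Dn) :
    (q : ℤ) ∣ A.dl t ↔ (q : ℤ) ∣ 2 * t + 1 := by
  have hq' := Nat.prime_iff_prime_int.1 hq
  have e : 2 * (2 * A.dl t) = D.Dn - (2 * t + 1) ^ 2 := by rw [Dat.Ar.dl, A.hd₀]; ring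
  have h' := Int.natCast_dvd_natCast.2 h
  constructor
  · intro h1
    exact hq'.dvd_of_dvd_pow ((dvd_sub_right h').1 (e ▸ (h1.mul_left 2).mul_left 2))
  · intro h1
    have h2 : (q : ℤ) ∣ 2 * (2 * A.dl t) := e ▸ dvd_sub h' (dvd_pow h1 two_ne_zero)
    exact (hq'.dvd_or_dvd ((hq'.dvd_or_dvd h2).resolve_left (not_two A hq h))).resolve_left
      (not_two A hq h)

theorem le_Lq (hq : q.Prime) (hD : q ∣ D.Dn) (h : A.Rel t k g) :
    g ≤ Lq A q ↔ (q : ℤ) ∣ 2 * t + 1 := by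
  have hq' := Nat.prime_iff_prime_int.1 hq
  have hn := (A.nE_amb q hD).1
  have h' := Int.natCast_dvd_natCast.2 hD
  rw [← dvd_dl A hq hD]
  constructor
  · intro H
    have h1 : ((A.dl t * (2 * A.c) + D.Dn * k : ℤ) : 𝓞 D.L) ∈ Lq A q := by
      convert add_mem (H (mem_of_rel h)) (Ideal.mul_mem_left _ (A.dl t : 𝓞 D.L) (th_mem q)) using 1
      rw [Dat.Ar.nn]
      push_cast
      ring
    have h2 := (dvd_add_left (h'.mul_right k)).1 ((int_prime hq hn _).1 h1)
    exact (hq'.dvd_or_dvd h2).resolve_right fun h3 =>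
      (hq'.dvd_or_dvd h3).elim (not_two A hq hD) (not_c A hq hD)
  · intro H
    have hP : (Lq A q).IsPrime :=
      Ideal.isPrime_of_irreducible_absNorm (hn.symm ▸ (Nat.irreducible_iff_nat_prime q).2 hq)
    obtain ⟨ν, hν, e⟩ := h
    have e1 := congrArg (algebraMap (𝓞 D.K) (𝓞 D.L)) (two_nu hν)
    simp only [map_mul, map_add, map_intCast, map_ofNat] at e1
    have h1 : 2 * algebraMap (𝓞 D.K) (𝓞 D.L) ν ∈ Lq A q := by
      rw [e1]
      exact add_mem ((int_prime hq hn _).2 (dvd_add (H.mul_left _) (h'.mul_right _)))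
        (Ideal.mul_mem_right _ _ ((int_prime hq hn _).2 H.neg_right))
    have h2 := (hP.mem_or_mem h1).resolve_left fun h3 =>
      not_two A hq hD ((int_prime hq hn 2).1 (by exact_mod_cast h3))
    rw [← Ideal.span_singleton_le_iff_mem, ← e, hP.mul_le, hP.mul_le] at h2
    rcases h2 with (h2 | h2) | h2
    · exact h2
    · intro x hx
      have := add_mem (Ideal.mem_sup_left (A.Df_mem x) : _ ∈ Lq A q)
        (h2 (Ideal.mem_map_of_mem _ hx))
      rwa [sub_add_cancel] at this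
    · have h3 := h2 (Ideal.mem_map_of_mem _ A.θ_n)
      rw [map_sub, map_intCast] at h3
      have h4 : ((2 * A.c : ℤ) : 𝓞 D.L) ∈ Lq A q := by
        convert sub_mem (th_mem q) h3 using 1
        push_cast
        ring
      exact ((hq'.dvd_or_dvd ((int_prime hq hn _).1 h4)).elim (not_two A hq hD)
        (not_c A hq hD)).elim

theorem card_res (A : D.Ar) (hq : q.Prime) (n δ : ℤ) :
    Nat.card {Q : Ideal (𝓞 D.L) | Ideal.absNorm Q = q ∧ (n : 𝓞 D.L) - δ * th A ∈ Q} ≤
      ∑ x ∈ (Finset.range q).filter fun x : ℕ => (q : ℤ) ∣ n - δ * x, A.rho q x := by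
  classical
  have hr : ∀ x : ℕ, A.rho q x = ((idl D.L q).filter fun Q => th A - x ∈ Q).card := fun x => by
    rw [Dat.Ar.rho, ← Nat.card_eq_finsetCard]
    exact Nat.card_congr (Equiv.subtypeEquivRight fun Q => by simp [mem_idl])
  simp only [hr]
  refine .trans ?_ Finset.card_biUnion_le
  rw [← Nat.card_eq_finsetCard]
  refine Nat.card_mono (Finset.finite_toSet _) ?_
  rintro Q ⟨h1, h2⟩
  obtain ⟨z, hz⟩ := cyc (h1 ▸ hq.squarefree) (th A)
  have h0 : (q : ℤ) ≠ 0 := by exact_mod_cast hq.ne_zero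
  obtain ⟨x, hx⟩ := Int.eq_ofNat_of_zero_le (Int.emod_nonneg z h0)
  have h3 : th A - x ∈ Q := by
    convert add_mem hz ((int_prime hq h1 (z - x)).2 (hx ▸ Int.dvd_self_sub_emod)) using 1
    push_cast
    ring
  refine Finset.mem_coe.2 (Finset.mem_biUnion.2 ⟨x, Finset.mem_filter.2 ⟨?_, ?_⟩,
    Finset.mem_filter.2 ⟨mem_idl.2 h1, h3⟩⟩)
  · have := Int.emod_lt_of_pos z (by exact_mod_cast hq.pos : (0 : ℤ) < q)
    exact Finset.mem_range.2 (by omega)
  · refine (int_prime hq h1 _).1 ?_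
    convert add_mem h2 (Ideal.mul_mem_left _ (δ : 𝓞 D.L) h3) using 1
    push_cast
    ring

end RepL

open RepL B.Rep in
theorem rep (hG : GalStmt) : RepStmt := by
  classical
  intro p _ D A S t k hM hS
  obtain ⟨-, -, -, -, -, -, -, -, -, -, -, -, -, -, -, -, -, -, -, -, h4, -, h2, -⟩ := hG p D
  set n := (2 * t + 1).natAbs.gcd D.Dn with hn
  set m := (S.QQ t k).natAbs with hm
  have m0 : m ≠ 0 := Int.natAbs_ne_zero.2 (S.QQ_ne t k)
  have hd : ∀ q : ℕ, q ∣ n ↔ (q : ℤ) ∣ 2 * t + 1 ∧ q ∣ D.Dn := fun q => by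
    rw [hn, Nat.dvd_gcd_iff, Int.natCast_dvd]
  have hs : Squarefree n := A.sqf.of_mul_left.squarefree_of_dvd (Nat.gcd_dvd_right _ _)
  let e : ℕ → ℝ := fun q => if q ∣ n then 2 else 1
  have e0 : ∀ q, 1 ≤ e q ∧ e q ≤ 2 := fun q => by
    simp only [e]
    split_ifs <;> norm_num
  have h1 : (n.divisors.card : ℝ) ≤ ∏ q ∈ m.primeFactors, e q := by
    rw [Nat.card_divisors hs.ne_zero, Nat.cast_prod]
    refine (Finset.prod_le_prod (fun _ _ => Nat.cast_nonneg _) fun q hq => ?_).trans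
      (Finset.prod_le_prod_of_subset_of_one_le (fun q hq => ?_) (fun q _ => ?_) fun q _ _ => (e0 q).1)
    · have := hs.natFactorization_le_one q
      simp only [e, if_pos (Nat.dvd_of_mem_primeFactors hq)]
      exact_mod_cast (by omega)
    · have hq' := Nat.prime_of_mem_primeFactors hq
      obtain ⟨a, b⟩ := (hd q).1 (Nat.dvd_of_mem_primeFactors hq)
      have c := (dvd_dl A hq' b).2 a
      refine Nat.mem_primeFactors.2 ⟨hq', ?_, m0⟩
      rw [hm, ← Int.natCast_dvd, hM.QQ, Dat.Ar.QQ]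
      exact dvd_add (dvd_add ((Int.natCast_dvd_natCast.2 b).mul_right _)
        ((c.mul_left _).mul_right _)) ((dvd_pow c two_ne_zero).mul_left _)
    · exact zero_le_one.trans (e0 q).1
  have hN : ∀ g, A.Rel t k g → m = 4 * Ideal.absNorm g := fun g hg => by
    rw [hm, hM.QQ, four_norm h2 hg]
  have h3 : (A.rr t k : ℝ) ≤ ∏ q ∈ m.primeFactors, S.G q (m.factorization q) t k / e q := by
    refine card_le (A.Rel t k) _ _ (fun g hg => ?_) fun q hq => ?_
    · have := hN g hg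
      exact ⟨by omega, Nat.primeFactors_mono ⟨4, by omega⟩ m0⟩
    have hq' := Nat.prime_of_mem_primeFactors hq
    have hp : ∀ g, A.Rel t k g →
        Ideal.absNorm (part q g) = q ^ (m / 4).factorization q := fun g hg => by
      have := hN g hg
      rw [norm_part hq' (by omega), show m / 4 = Ideal.absNorm g by omega]
    unfold SD.G
    split_ifs with c1 c2 c3 c4
    rotate_left 4
    · by_cases h0 : 4 ∣ m
      · refine ⟨_, Ideal.finite_setOfPred_absNorm_eq (q ^ (m / 4).factorization q), ?_, hp⟩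
        have a1 := B.Idc.count (M := D.L) (i := (m / 4).factorization q) hq'
        have a2 : (m / 4).factorization q ≤ m.factorization q :=
          (Nat.factorization_le_iff_dvd (by omega) m0).2 (Nat.div_dvd_of_dvd h0) q
        rw [h4] at a1
        have a3 : ((nI D.L (q ^ (m / 4).factorization q) : ℕ) : ℝ) ≤
            ((m.factorization q : ℝ) + 1) ^ 4 := by
          exact_mod_cast a1.trans (Nat.pow_le_pow_left (by omega) _)
        rw [le_div_iff₀ (one_pos.trans_le (e0 q).1), mul_comm 2]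
        exact mul_le_mul a3 (e0 q).2 (zero_le_one.trans (e0 q).1) (by positivity)
      · refine ⟨∅, Set.finite_empty, ?_, fun g hg => (h0 ⟨_, hN g hg⟩).elim⟩
        have := (e0 q).1
        simp only [Nat.card_eq_fintype_card, Fintype.card_eq_zero, Nat.cast_zero]
        positivity
    all_goals
      have hp1 : ∀ g, A.Rel t k g → Ideal.absNorm (part q g) = q := fun g hg => by
        have a1 := hN g hg
        have a2 := c1.1
        have a3 : ¬ q ∣ 4 := fun h => c1.2.1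
          ((Nat.prime_dvd_prime_iff_eq hq' Nat.prime_two).1 (hq'.dvd_of_dvd_pow (n := 2) h))
        rw [a1, Nat.factorization_mul (by norm_num) (by omega), Finsupp.add_apply,
          Nat.factorization_eq_zero_of_not_dvd a3, zero_add] at a2
        rw [norm_part hq' (by omega), a2, pow_one]
    · rw [hM.hD] at c2
      refine ⟨{Lq A q}, Set.finite_singleton _, ?_, fun g hg => ?_⟩
      · simp [e, (hd q).2 ⟨c3, c2⟩]
      · have a1 := (A.nE_amb q c2).1
        refine Quad.eq_of_norm (sup_le ((le_Lq hq' c2 hg).2 c3) ?_) (a1.trans_ne hq'.ne_zero)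
          ((hp1 g hg).trans a1.symm)
        have a2 := hp1 g hg
        have a3 := hN g hg
        rw [norm_part hq' (by omega)] at a2
        rw [a2]
        exact le_sup_right
    · rw [hM.hD] at c2
      rw [hM.nn, hM.hc, hM.dl] at c4
      exact (c4 (hS q hq' c2 c3)).elim
    · rw [hM.hD] at c2
      have a1 := mem_idl.2 (A.nE_amb q c2).1
      refine ⟨((idl D.L q).erase (Lq A q) : Finset _), Finset.finite_toSet _, ?_, fun g hg => ?_⟩
      · simp only [e, if_neg fun h => c3 ((hd q).1 h).1, div_one, hM.ha]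
        rw [Finset.coe_sort_coe, Nat.card_eq_finsetCard, Finset.cast_card_erase_of_mem a1, card_idl]
      · refine Finset.mem_coe.2 (Finset.mem_erase.2 ⟨fun h => c3 ?_, mem_idl.2 (hp1 g hg)⟩)
        exact (le_Lq hq' c2 hg).1 (h ▸ le_sup_left)
    · rw [hM.hD] at c2
      refine ⟨{Q | Ideal.absNorm Q = q ∧ (A.nn t k : 𝓞 D.L) - A.dl t * th A ∈ Q},
        (Ideal.finite_setOfPred_absNorm_eq q).subset fun _ h => h.1, ?_,
        fun g hg => ⟨hp1 g hg, Ideal.mem_sup_left (mem_of_rel hg)⟩⟩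
      simp only [e, if_neg fun h => c2 ((hd q).1 h).2, div_one, hM.hρ, hM.nn, hM.dl]
      exact_mod_cast card_res A hq' _ _
  rw [Nat.cast_mul]
  refine (mul_le_mul h1 h3 (Nat.cast_nonneg _) ((Nat.cast_nonneg _).trans h1)).trans_eq ?_
  rw [← Finset.prod_mul_distrib]
  exact Finset.prod_congr rfl fun q _ => mul_div_cancel₀ _ (one_pos.trans_le (e0 q).1).ne'

end Pool.Agent.Lib.MP_9177b7_ag.S4
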