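import Pool.Agent.Lib.MP_9177b7_ag.S4.StD

/-!
From classes with many good objects to the weights.
-/

open NumberField Finset

noncomputable section

namespace Pool.Agent.Lib.MP_9177b7_ag.S4

theorem sum (hI : InvStmt) (hF : FibStmt) (hG : GenusStmt) (hL : LocStmt) (hR : RepStmt)
    (hS : SizeStmt) : SumStmt := by
  classical
  intro p _ D A Sy j c₀ K R K₀ hp
  obtain ⟨J, hJ, hinv⟩ := hI p D A
  obtain ⟨Sg, g1, g2, g3⟩ := hG p D A
  obtain ⟨S, hm, hSg⟩ := hL p D A Sg g1 g2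
  set X := univ.filter fun x => D.Ev (D.xi (Sy.b x)) (Sy.e x) j c₀ K R K₀ with hX
  have hO : ∀ x, ∃ O : Finset (M4 ℤ), (x ∈ X → K₀ ≤ O.card) ∧
      ∀ P ∈ O, D.Good (D.xi (Sy.b x)) (Sy.e x) j c₀ K R P := fun x => by
    by_cases hx : x ∈ X
    · obtain ⟨O, h1, h2⟩ := (mem_filter.1 hx).2
      exact ⟨O, fun _ => h1, h2⟩
    · exact ⟨∅, fun h => absurd h hx, by simp⟩
  choose O hO1 hO2 using hO
  have hu : ∀ y : D.Cl × M4 ℤ, ∃ u : ℤ × ℤ, Ob y.2 →
      ∃ γ g, A.Inv J (Sy.b y.1) (Sy.e y.1) y.2 u.1 u.2 γ g := fun y => by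
    by_cases hy : Ob y.2
    · obtain ⟨t, k, h⟩ := hinv (Sy.b y.1) (Sy.e y.1) y.2
        (nonZeroDivisors.ne_zero (Sy.b y.1).2) (Sy.he y.1) hy
      exact ⟨(t, k), fun _ => h⟩
    · exact ⟨0, fun h => absurd h hy⟩
  choose u hu using hu
  set T : Finset (D.Cl × M4 ℤ) := X.biUnion fun x => (O x).image fun P => (x, P) with hT
  have hTm : ∀ y ∈ T, y.2 ∈ O y.1 := fun y hy => by
    obtain ⟨x, -, hx⟩ := mem_biUnion.1 hy
    obtain ⟨P, hP, rfl⟩ := mem_image.1 hx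
    exact hP
  have hTc : K₀ * X.card ≤ T.card := by
    rw [hT, card_biUnion, mul_comm, ← smul_eq_mul]
    · refine card_nsmul_le_sum _ _ _ fun x hx => ?_
      rw [card_image_of_injective _ (Prod.mk_right_injective x)]
      exact hO1 x hx
    · intro x _ x' _ hne
      refine disjoint_left.2 fun y h1 h2 => hne ?_
      obtain ⟨P, -, rfl⟩ := mem_image.1 h1
      obtain ⟨P', -, h⟩ := mem_image.1 h2
      exact (congrArg Prod.fst h).symm
  have hU : ∀ v ∈ T.image u, ∃ J b e P γ g, A.Inv J b e P v.1 v.2 γ g ∧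
      D.Good (D.xi b) e j c₀ K R P := fun v hv => by
    obtain ⟨y, hy, rfl⟩ := mem_image.1 hv
    have hg := hO2 y.1 y.2 (hTm y hy)
    obtain ⟨γ, g, h⟩ := hu y hg.1
    exact ⟨J, _, _, _, γ, g, h, hg⟩
  refine ⟨S, T.image u, hm, hS p D A S j c₀ K R _ hp hm hU, ?_⟩
  have h1 : ((K₀ * X.card : ℕ) : ℝ) ≤ T.card := by exact_mod_cast hTc
  rw [Nat.cast_mul] at h1
  refine h1.trans ?_
  rw [card_eq_sum_card_image u T, Nat.cast_sum, mul_sum]
  refine sum_le_sum fun v hv => ?_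
  have h2 := hF p D A J Sy v.1 v.2 (T.filter fun y => u y = v) hJ fun y hy => by
    obtain ⟨hy', e⟩ := mem_filter.1 hy
    have hg := hO2 y.1 y.2 (hTm y hy')
    exact ⟨hg.1, e ▸ hu y hg.1⟩
  obtain ⟨J', b, e, P, γ, g, h, -⟩ := hU v hv
  have h3 := hR p D A S v.1 v.2 hm fun l hl h1 h2 => by
    rw [hSg]
    exact g3 J' b e P _ _ γ g h l hl h1 h2
  calc ((T.filter fun y => u y = v).card : ℝ)
      ≤ Units.torsionOrder D.L * classNumber D.K *
        (((2 * v.1 + 1).natAbs.gcd D.Dn).divisors.card * A.rr v.1 v.2 : ℕ) := by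
        rw [mul_assoc] at h2
        exact_mod_cast h2
    _ ≤ _ := by gcongr

end Pool.Agent.Lib.MP_9177b7_ag.S4
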