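import Pool.Agent.Lib.MP_9177b7_ag.S4.StC
import Pool.Agent.Lib.MP_9177b7_ag.S4.Frame0

/-!
Every twisted lattice has a frame.
-/

namespace Pool.Agent.Lib.MP_9177b7_ag.S4

theorem tw (hG : GalStmt) (hN : NrmStmt) : TwStmt := by
  intro p _ D b hb
  obtain ⟨e, he⟩ := D.sp.frame
  obtain ⟨-, -, -, -, -, -, -, -, -, -, -, -, -, -, -, -, -, -, -, hd, -⟩ := hG p D
  obtain ⟨-, -, -, -, -, -, -, -, -, -, -, -, h, -⟩ := hN p D
  exact he.twist hd D.sp.imag (fun k => hb (Ideal.absNorm_eq_zero_iff.1 k)) (h b).1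

end Pool.Agent.Lib.MP_9177b7_ag.S4
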