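import Pool.Agent.Lib.MP_9177b7_ag.B.Pad
import Pool.Agent.Lib.MP_9177b7_ag.S4.BAll
import Pool.Agent.Lib.MP_9177b7_ag.S4.Gal
import Pool.Agent.Lib.MP_9177b7_ag.S4.Nrm
import Pool.Agent.Lib.MP_9177b7_ag.S4.Frame
import Pool.Agent.Lib.MP_9177b7_ag.S4.Tw
import Pool.Agent.Lib.MP_9177b7_ag.S4.Orb
import Pool.Agent.Lib.MP_9177b7_ag.S4.Iso
import Pool.Agent.Lib.MP_9177b7_ag.S4.Lift
import Pool.Agent.Lib.MP_9177b7_ag.S4.Move
import Pool.Agent.Lib.MP_9177b7_ag.S4.Meas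
import Pool.Agent.Lib.MP_9177b7_ag.S4.Alg
import Pool.Agent.Lib.MP_9177b7_ag.S4.Inv
import Pool.Agent.Lib.MP_9177b7_ag.S4.Fib
import Pool.Agent.Lib.MP_9177b7_ag.S4.Genus
import Pool.Agent.Lib.MP_9177b7_ag.S4.Loc
import Pool.Agent.Lib.MP_9177b7_ag.S4.Rep
import Pool.Agent.Lib.MP_9177b7_ag.S4.Reg
import Pool.Agent.Lib.MP_9177b7_ag.S4.Sum
import Pool.Agent.Lib.MP_9177b7_ag.S4.Count

/-!
The theorem follows from the measure classification and the sieve bound.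
-/

namespace Pool.Agent.Lib.MP_9177b7_ag.S4

theorem final_of (hy : DynStmt) (hD : DStmt) : FinalStmt :=
  have hN := nrm gal
  have hF := frame det_stmt gal
  fin (tw gal hN) proj'
    (meas hF (orb gal hN hF) (iso B.pad gal hN) (lift B.pad det_stmt tube' gal hF)
      (move B.pad disc gal hF) proj' tube')
    (count (alg gal hN hF)
      (sum (inv gal hN hF) (fib gal hN hF) genus (loc gal) (rep gal) size) hD)
    (equi' hy)

end Pool.Agent.Lib.MP_9177b7_ag.S4
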