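import Pool.Agent.Lib.MP_9177b7_ag.S4.D1c
import Pool.Agent.Lib.MP_9177b7_ag.S4.Roots

/-!
Levels of the values of a quadratic polynomial.
-/

noncomputable section

namespace Pool.Agent.Lib.MP_9177b7_ag.S4.D1

open B B.Slice Finset ShiuN Roots Classical

/-- The exponents at the primes dividing `Δ` are halved. -/
def hf (Δ n : ℕ) : ℕ :=
  ∏ q ∈ n.primeFactors, q ^ (if q ∣ Δ then (n.factorization q + 1) / 2 else n.factorization q)

lemma hf_ne (Δ n : ℕ) : hf Δ n ≠ 0 :=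
  prod_ne_zero_iff.2 fun _ h => pow_ne_zero _ (Nat.prime_of_mem_primeFactors h).ne_zero

lemma hf_fact (Δ n q : ℕ) : (hf Δ n).factorization q =
    if q ∣ Δ then (n.factorization q + 1) / 2 else n.factorization q := by
  rw [hf, Nat.factorization_prod fun _ h => pow_ne_zero _ (Nat.prime_of_mem_primeFactors h).ne_zero,
    Finsupp.finsetSum_apply,
    sum_congr rfl fun l h => by rw [(Nat.prime_of_mem_primeFactors h).factorization_pow]]
  simp only [Finsupp.single_apply, sum_ite_eq']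
  by_cases h : q ∈ n.primeFactors
  · rw [if_pos h]
  · rw [if_neg h, Finsupp.notMem_support_iff.1 (Nat.support_factorization _ ▸ h)]
    simp

lemma hf_le (Δ : ℕ) {n : ℕ} (h : n ≠ 0) : hf Δ n ∣ n :=
  (Nat.factorization_le_iff_dvd (hf_ne Δ n) h).1 fun q => by
    rw [hf_fact]; split_ifs <;> omega

lemma hf_dvd (Δ : ℕ) {z : ℤ} (h : z ≠ 0) {q : ℕ} (hq : q.Prime) (j : ℕ) :
    q ^ j ∣ hf Δ z.natAbs ↔ ((q ^ (if q ∣ Δ then 2 * j - 1 else j) : ℕ) : ℤ) ∣ z := by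
  rw [Int.natCast_dvd, hq.pow_dvd_iff_le_factorization (hf_ne _ _),
    hq.pow_dvd_iff_le_factorization (Int.natAbs_ne_zero.2 h), hf_fact]
  split_ifs <;> omega

lemma aff {q : ℕ} (hq : q.Prime) {a : ℤ} (ha : ¬ (q : ℤ) ∣ a) (b : ℤ) (h : ℤ → ℝ)
    (hp : ∀ x y, (q : ℤ) ∣ x - y → h x = h y) :
    ∑ u ∈ range q, h (a * u + b) = ∑ x ∈ range q, h x := by
  have q0 : (q : ℤ) ≠ 0 := by exact_mod_cast hq.ne_zero
  have e : (((a % q).toNat : ℕ) : ℤ) = a % q := Int.toNat_of_nonneg (Int.emod_nonneg _ q0)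
  have c : (a % q).toNat.Coprime q := ((Nat.Prime.coprime_iff_not_dvd hq).2 fun h =>
    ha (Int.dvd_of_emod_eq_zero (Int.eq_zero_of_dvd_of_nonneg_of_lt (Int.emod_nonneg _ q0)
      (Int.emod_lt_of_pos _ (by exact_mod_cast hq.pos))
      (e ▸ Int.natCast_dvd_natCast.2 h)))).symm
  have := den_af (d := 1) hq.pos c (h := fun u => h (u 0)) (fun u v c => hp _ _ (c 0)) fun _ => b
  rw [den1 q h] at this
  simp only [af] at this
  rw [den1 q fun x => h (b + ((a % q).toNat : ℕ) * x), div_left_inj' (by exact_mod_cast q0)] at this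
  rw [← this]
  refine sum_congr rfl fun u _ => hp _ _ ?_
  rw [e]
  exact ⟨a / q * u, by linear_combination (-u : ℤ) * Int.mul_ediv_add_emod a q⟩

/-- The local shape of a quadratic polynomial. -/
structure Qd (Δ : ℕ) (α β γ : ℤ) : Prop where
  ne : ∀ u : ℤ, α * u ^ 2 + β * u + γ ≠ 0
  sh : ∀ q : ℕ, q.Prime → (q : ℤ) ∣ α → (q : ℤ) ∣ β → ¬ (q : ℤ) ∣ γ
  dc : ∀ q : ℕ, q.Prime → ¬ q ∣ Δ → ¬ (q : ℤ) ^ 2 ∣ β ^ 2 - 4 * α * γ

namespace Qd

variable {Δ q : ℕ} {α β γ : ℤ} (H : Qd Δ α β γ) (hq : q.Prime)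
include H hq

lemma one (h : (q : ℤ) ∣ α) (i : ℕ) : rt (q ^ i) α β γ ≤ 1 := by
  by_cases h' : (q : ℤ) ∣ β
  · rcases i with _ | i
    · exact (card_filter_le _ _).trans (by simp)
    · refine le_trans (le_of_eq (card_eq_zero.2 (filter_eq_empty_iff.2 fun k _ e =>
        H.sh q hq h h' ?_))) zero_le_one
      push_cast at e
      exact (dvd_add_right (dvd_add (h.mul_right _) (h'.mul_right _))).1
        ((dvd_pow_self _ i.succ_ne_zero).trans e)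
  · exact r3 hq h h' γ i

lemma all (i : ℕ) : rt (q ^ i) α β γ ≤ 2 * q ^ (i / 2) := by
  by_cases h : (q : ℤ) ∣ α
  · have := Nat.one_le_pow (i / 2) q hq.pos
    have := H.one hq h i
    omega
  · exact r1 hq h β γ i

lemma two (h0 : ¬ q ∣ Δ) {i : ℕ} (hi : 2 ≤ i) : rt (q ^ i) α β γ ≤ 2 := by
  by_cases h : (q : ℤ) ∣ α
  · exact (H.one hq h i).trans one_le_two
  · exact r2b hq h (H.dc q hq h0) hi

omit H hq in
lemma per {M : ℕ} {u v : Fin 1 → ℤ} (c : CgN M u v) (h : (M : ℤ) ∣ α * u 0 ^ 2 + β * u 0 + γ) :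
    (M : ℤ) ∣ α * v 0 ^ 2 + β * v 0 + γ := by
  exact (dvd_sub h ((c 0).mul_right (α * (u 0 + v 0) + β))).trans (dvd_of_eq (by ring))

lemma den (j : ℕ) {M : ℕ} (hM : (if q ∣ Δ then 2 * j - 1 else j) ≤ M) :
    denN (q ^ M) (fun t : Fin 1 → ℤ =>
      if q ^ j ∣ hf Δ (α * t 0 ^ 2 + β * t 0 + γ).natAbs then (1 : ℝ) else 0) =
      rt (q ^ (if q ∣ Δ then 2 * j - 1 else j)) α β γ /
        (q : ℝ) ^ (if q ∣ Δ then 2 * j - 1 else j) := by
  simp only [hf_dvd Δ (H.ne _) hq]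
  rw [← Nat.cast_pow, ← den_rt]
  have := den_of_dvd (per_ind fun u v => per (α := α) (β := β) (γ := γ) (u := u) (v := v))
    (pow_dvd_pow q hM) (pow_pos hq.pos _)
  convert this

lemma den1' : denN q (fun t : Fin 1 → ℤ =>
      if q ^ 1 ∣ hf Δ (α * t 0 ^ 2 + β * t 0 + γ).natAbs then (1 : ℝ) else 0) =
      rt q α β γ / (q : ℝ) := by
  have := H.den hq 1 (M := 1) (by simp)
  simpa using this

omit H in
lemma bd {i r : ℕ} {x : ℝ} (h : rt (q ^ i) α β γ ≤ 2 * q ^ r) (hx : (r : ℝ) - i ≤ x) :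
    (rt (q ^ i) α β γ : ℝ) / (q : ℝ) ^ i ≤ 2 * (q : ℝ) ^ x := by
  have q0 : (0 : ℝ) < q := by exact_mod_cast hq.pos
  have : (rt (q ^ i) α β γ : ℝ) ≤ 2 * (q : ℝ) ^ r := by exact_mod_cast h
  calc _ ≤ 2 * (q : ℝ) ^ r / (q : ℝ) ^ i := by gcongr
    _ = 2 * (q : ℝ) ^ ((r : ℝ) - i) := by
        rw [Real.rpow_sub q0, Real.rpow_natCast, Real.rpow_natCast, mul_div_assoc]
    _ ≤ _ := by
        gcongr
        exact_mod_cast hq.one_le

omit hq in
theorem hyp {p e : ℕ} (hp : p.Prime) (z : ℤ) {n : ℕ → (Fin 1 → ℤ) → ℕ} {a b : ℕ → ℕ}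
    (lo : ∀ q : ℕ, q.Prime → b q ≤ rt q α β γ)
    (nper : ∀ (q : ℕ) t t', q.Prime → CgN q t t' → n q t = n q t')
    (nle : ∀ (q : ℕ) t, q.Prime → n q t ≤ e)
    (nden : ∀ q : ℕ, q.Prime → denN q (fun t => n q t) ≤ (a q : ℝ) / q)
    (ale : ∀ q : ℕ, q.Prime → a q ≤ e) :
    Hyp p e 2 (fun t => hf Δ (α * t 0 ^ 2 + β * t 0 + γ).natAbs) n
      (fun j t => (p : ℤ) ^ j ∣ t 0 - z) a b := by
  refine ⟨fun q j t t' hq c => ?_, fun q t t' hq c => ?_, fun q hq => ?_, fun q hq => ?_,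
    fun q j hq => ?_, fun q j hq hj => ?_, nper, nle, nden, ale, fun j t t' c h => ?_,
    fun j => ?_, fun i j t hij h => (pow_dvd_pow _ hij).trans h⟩
  · rw [hf_dvd Δ (H.ne _) hq, hf_dvd Δ (H.ne _) hq]
    exact per (CgN.of_dvd (pow_dvd_pow _ (by split_ifs <;> omega)) c)
  · rw [hf_dvd Δ (H.ne _) hq, hf_dvd Δ (H.ne _) hq]
    exact per (CgN.of_dvd (by simp) c)
  · rw [H.den1' hq]
    have : (rt q α β γ : ℝ) ≤ 2 := by exact_mod_cast (by simpa using H.all hq 1)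
    gcongr
  · rw [H.den1' hq]
    have : (b q : ℝ) ≤ rt q α β γ := by exact_mod_cast lo q hq
    refine le_trans (sub_le_self _ (by positivity)) ?_
    gcongr
  · rw [H.den hq j (by split_ifs <;> omega)]
    refine bd hq (H.all hq _) ?_
    obtain ⟨i, hi, hj⟩ : ∃ i, (if q ∣ Δ then 2 * j - 1 else j) = i ∧ 4 * (i / 2) + j ≤ 4 * i :=
      ⟨_, rfl, by split_ifs <;> omega⟩
    rw [hi]
    have : 4 * ((i / 2 : ℕ) : ℝ) + j ≤ 4 * i := by exact_mod_cast hj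
    linarith
  · rw [H.den hq j (by split_ifs <;> omega)]
    have j2 : (2 : ℝ) ≤ j := by exact_mod_cast hj
    split_ifs with h
    · refine bd hq (H.all hq _) ?_
      have : 4 * (((2 * j - 1) / 2 : ℕ) : ℝ) + 4 + j ≤ 4 * (2 * j - 1 : ℕ) := by
        exact_mod_cast (by omega : 4 * ((2 * j - 1) / 2) + 4 + j ≤ 4 * (2 * j - 1))
      linarith
    · exact bd hq (r := 0) (H.two hq h hj) (by push_cast; linarith)
  · exact (dvd_sub h (by exact_mod_cast c 0)).trans (dvd_of_eq (by ring))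
  · have h1 := den_rt (p ^ j) 0 1 (-z)
    have h2 : (rt (p ^ j) 0 1 (-z) : ℝ) ≤ 1 := by
      exact_mod_cast r3 hp (dvd_zero _) (Nat.prime_iff_prime_int.1 hp).not_dvd_one _ j
    simp only [zero_mul, one_mul, zero_add, Nat.cast_pow, ← sub_eq_add_neg] at h1
    have h3 : (rt (p ^ j) 0 1 (-z) : ℝ) / (p : ℝ) ^ j ≤ ((p : ℝ) ^ j)⁻¹ := by
      rw [← one_div]
      gcongr
    refine le_of_eq_of_le ?_ h3
    convert h1

end Qd

end Pool.Agent.Lib.MP_9177b7_ag.S4.D1
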