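import Pool.Agent.Lib.MP_9177b7_ag.S4.StI

/-!
A divisor bound for the product of the local weights.
-/

open Finset

noncomputable section

namespace Pool.Agent.Lib.MP_9177b7_ag.S4

namespace WDiv

theorem le_pow {j : ℕ} (hj : 1 ≤ j) : 2 * ((j : ℝ) + 1) ^ 4 ≤ 32 ^ j := by
  have h1 : (j : ℝ) + 1 ≤ 2 ^ j := by
    have : j + 1 ≤ 2 ^ j := Nat.lt_two_pow_self
    exact_mod_cast this
  have h2 : (2 : ℝ) ≤ 2 ^ j := le_self_pow₀ one_le_two (by omega)
  calc 2 * ((j : ℝ) + 1) ^ 4 ≤ 2 ^ j * (2 ^ j) ^ 4 := by gcongr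
    _ = 32 ^ j := by rw [← pow_succ', ← pow_mul, mul_comm, pow_mul]; norm_num

theorem poly_le {η : ℝ} (hη : 0 < η) :
    ∃ C : ℝ, 1 ≤ C ∧ ∀ j : ℕ, 2 * ((j : ℝ) + 1) ^ 4 ≤ C * ((2 : ℝ) ^ η) ^ j := by
  set s := η * Real.log 2 with hs
  have hs0 : 0 < s := mul_pos hη (Real.log_pos one_lt_two)
  refine ⟨max 1 (48 * Real.exp s / s ^ 4), le_max_left _ _, fun j => ?_⟩
  have e : ((2 : ℝ) ^ η) ^ j = Real.exp (j * s) := by
    rw [Real.rpow_def_of_pos two_pos, ← Real.exp_nat_mul, hs, mul_comm (Real.log 2)]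
  have h := Real.pow_div_factorial_le_exp (((j : ℝ) + 1) * s) (by positivity) 4
  have f : ((Nat.factorial 4 : ℕ) : ℝ) = 24 := by norm_num [Nat.factorial]
  rw [f, div_le_iff₀ (by norm_num), mul_pow, add_mul, one_mul, Real.exp_add] at h
  rw [e]
  calc 2 * ((j : ℝ) + 1) ^ 4 ≤ 48 * Real.exp s / s ^ 4 * Real.exp (j * s) := by
        rw [div_mul_eq_mul_div, le_div_iff₀ (by positivity)]
        linarith
    _ ≤ _ := by gcongr; exact le_max_right _ _

/-- The divisor bound. -/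
theorem prod_le {η : ℝ} (hη : 0 < η) : ∃ C : ℝ, 0 < C ∧ ∀ n : ℕ, n ≠ 0 →
    ∏ q ∈ n.primeFactors, 2 * ((n.factorization q : ℝ) + 1) ^ 4 ≤ C * (n : ℝ) ^ η := by
  obtain ⟨C, hC, h⟩ := poly_le hη
  set M := ⌈(32 : ℝ) ^ η⁻¹⌉₊ with hM
  refine ⟨C ^ M, by positivity, fun n hn => ?_⟩
  have e : (n : ℝ) ^ η = ∏ q ∈ n.primeFactors, ((q : ℝ) ^ η) ^ n.factorization q := by
    conv_lhs => rw [← Nat.prod_factorization_pow_eq_self hn]
    rw [Finsupp.prod, Nat.support_factorization, Nat.cast_prod,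
      ← Real.finsetProd_rpow _ _ (fun _ _ => by positivity)]
    refine prod_congr rfl fun q _ => ?_
    rw [Nat.cast_pow, ← Real.rpow_natCast, ← Real.rpow_natCast,
      ← Real.rpow_mul (Nat.cast_nonneg _), ← Real.rpow_mul (Nat.cast_nonneg _), mul_comm]
  have c : ∏ q ∈ n.primeFactors, (if q < M then C else 1) ≤ C ^ M := by
    rw [prod_ite, prod_const, prod_const_one, mul_one]
    refine pow_le_pow_right₀ hC ?_
    calc _ ≤ #(range M) := card_le_card fun q hq => mem_range.2 (mem_filter.1 hq).2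
      _ = M := card_range M
  calc _ ≤ ∏ q ∈ n.primeFactors,
        (if q < M then C else 1) * ((q : ℝ) ^ η) ^ n.factorization q := by
        refine prod_le_prod (fun _ _ => by positivity) fun q hq => ?_
        have hp := Nat.prime_of_mem_primeFactors hq
        have h2 : (2 : ℝ) ≤ q := by exact_mod_cast hp.two_le
        split_ifs with hq'
        · refine (h _).trans ?_
          gcongr
        · have h1 : 1 ≤ n.factorization q :=
            (hp.dvd_iff_one_le_factorization hn).1 (Nat.dvd_of_mem_primeFactors hq)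
          have h3 : (32 : ℝ) ^ η⁻¹ ≤ q :=
            (Nat.le_ceil _).trans (by exact_mod_cast not_lt.1 hq')
          have h4 : (32 : ℝ) ≤ (q : ℝ) ^ η := by
            calc (32 : ℝ) = ((32 : ℝ) ^ η⁻¹) ^ η := by
                  rw [← Real.rpow_mul (by norm_num), inv_mul_cancel₀ hη.ne', Real.rpow_one]
              _ ≤ _ := by gcongr
          rw [one_mul]
          refine (le_pow h1).trans ?_
          gcongr
    _ ≤ _ := by
        rw [prod_mul_distrib, ← e]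
        gcongr

end WDiv

namespace SD

variable {p : ℕ} (S : SD p)

theorem G_le {q : ℕ} (hq : q.Prime) (j : ℕ) (t k : ℤ) :
    S.G q j t k ≤ 2 * ((j : ℝ) + 1) ^ 4 := by
  have ha : (S.a q : ℝ) ≤ 4 := by exact_mod_cast S.a_le q hq
  unfold G
  split_ifs with h1 h2 h3 h4
  · rw [h1.1]; norm_num
  · positivity
  · rw [h1.1, Nat.cast_one]; linarith
  · have h5 : ∑ x ∈ range q, (S.ρ q x : ℝ) ≤ S.a q := by exact_mod_cast S.ρ_sum q hq
    have h6 := sum_le_sum_of_subset_of_nonneg (f := fun x => (S.ρ q x : ℝ))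
      (filter_subset (fun x : ℕ => (q : ℤ) ∣ S.nn t k - S.dl t * x) (range q))
      (fun _ _ _ => by positivity)
    rw [h1.1, Nat.cast_one]; linarith
  · exact le_rfl

theorem one_le_X : 1 ≤ S.X := by
  have := S.D_gt
  have := S.Dt_gt
  exact one_le_mul_of_one_le_of_one_le (by exact_mod_cast (by omega))
    (by exact_mod_cast (by omega))

/-- The size of the quadratic form in the region. -/
theorem QQ_le' {R : ℝ} {t k : ℤ} (h1 : |(2 * t + 1 : ℝ)| ≤ R * √(S.D : ℝ))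
    (h2 : |(S.nn t k : ℝ)| ≤ R * S.D * √(S.Dt : ℝ)) :
    |(S.QQ t k : ℝ)| ≤ (R ^ 2 + (1 + R ^ 2) ^ 2) * S.X := by
  have hD : (0 : ℝ) < S.D := by have := S.D_gt; positivity
  have hT : (0 : ℝ) < S.Dt := by have := S.Dt_gt; positivity
  have a1 : (2 * t + 1 : ℝ) ^ 2 ≤ R ^ 2 * S.D := by
    have := pow_le_pow_left₀ (abs_nonneg _) h1 2
    rwa [sq_abs, mul_pow, Real.sq_sqrt hD.le] at this
  have a2 : (S.nn t k : ℝ) ^ 2 ≤ R ^ 2 * S.D ^ 2 * S.Dt := by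
    have := pow_le_pow_left₀ (abs_nonneg _) h2 2
    rwa [sq_abs, mul_pow, mul_pow, Real.sq_sqrt hT.le] at this
  have a3 : (4 * S.dl t : ℝ) = S.D - (2 * t + 1) ^ 2 := by exact_mod_cast S.four_dl t
  have a4 : (S.D * S.QQ t k : ℝ) = S.nn t k ^ 2 - S.dl t ^ 2 * S.Dt := by
    exact_mod_cast S.D_QQ t k
  have a5 : |(S.dl t : ℝ)| ≤ (1 + R ^ 2) * S.D := by
    have := sq_nonneg (2 * t + 1 : ℝ)
    have := mul_nonneg (sq_nonneg R) hD.le
    rw [abs_le]; constructor <;> linarith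
  have a6 : (S.dl t : ℝ) ^ 2 * S.Dt ≤ (1 + R ^ 2) ^ 2 * S.D ^ 2 * S.Dt := by
    have := pow_le_pow_left₀ (abs_nonneg _) a5 2
    rw [sq_abs, mul_pow] at this
    gcongr
  have a7 : 0 ≤ (S.dl t : ℝ) ^ 2 * S.Dt := by positivity
  have a8 := sq_nonneg (S.nn t k : ℝ)
  have a9 : 0 ≤ R ^ 2 * S.D ^ 2 * S.Dt := by positivity
  have a10 : 0 ≤ (1 + R ^ 2) ^ 2 * S.D ^ 2 * S.Dt := by positivity
  refine le_of_mul_le_mul_left ?_ hD
  rw [← abs_of_pos hD, ← abs_mul, a4, abs_of_pos hD, X, abs_le]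
  constructor <;> nlinarith

theorem QQ_le {R : ℝ} {K : ℕ} {U : Finset (ℤ × ℤ)} (h : S.Reg R K U) {u : ℤ × ℤ} (hu : u ∈ U) :
    |(S.QQ u.1 u.2 : ℝ)| ≤ (R ^ 2 + (1 + R ^ 2) ^ 2) * S.X :=
  S.QQ_le' (h.1 u hu).1 (h.1 u hu).2

end SD

/-- The divisor bound for the weight, in terms of the quadratic form. -/
theorem wdiv {η : ℝ} (hη : 0 < η) : ∃ C : ℝ, 0 < C ∧ ∀ (p : ℕ) (S : SD p) (t k : ℤ),
    S.W t k ≤ C * |(S.QQ t k : ℝ)| ^ η := by
  obtain ⟨C, hC, h⟩ := WDiv.prod_le hη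
  refine ⟨C, hC, fun p S t k => ?_⟩
  have := h _ (Int.natAbs_ne_zero.2 (S.QQ_ne t k))
  rw [Nat.cast_natAbs, Int.cast_abs] at this
  refine le_trans (prod_le_prod (fun q hq => ?_) fun q hq => ?_) this
  · exact S.G_nonneg (Nat.prime_of_mem_primeFactors hq) _ _ _
  · exact S.G_le (Nat.prime_of_mem_primeFactors hq) _ _ _

/-- The divisor bound for the weight of a point of size `R`. -/
theorem wdivX' {η : ℝ} (hη : 0 < η) (R : ℝ) : ∃ C : ℝ, 0 < C ∧ ∀ (p : ℕ) (S : SD p) (t k : ℤ),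
    |(2 * t + 1 : ℝ)| ≤ R * √(S.D : ℝ) → |(S.nn t k : ℝ)| ≤ R * S.D * √(S.Dt : ℝ) →
      S.W t k ≤ C * S.X ^ η := by
  obtain ⟨C, hC, h⟩ := wdiv hη
  refine ⟨C * (R ^ 2 + (1 + R ^ 2) ^ 2) ^ η, by positivity, fun p S t k h1 h2 => ?_⟩
  have hX := S.one_le_X
  refine (h p S t k).trans ?_
  rw [mul_assoc, ← Real.mul_rpow (by positivity) (by positivity)]
  gcongr
  exact S.QQ_le' h1 h2

/-- The divisor bound for the weight in the region. -/
theorem wdivX {η : ℝ} (hη : 0 < η) (R : ℝ) : ∃ C : ℝ, 0 < C ∧ ∀ (p : ℕ) (S : SD p) (K : ℕ)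
    (U : Finset (ℤ × ℤ)), S.Reg R K U → ∀ u ∈ U, S.W u.1 u.2 ≤ C * S.X ^ η := by
  obtain ⟨C, hC, h⟩ := wdivX' hη R
  exact ⟨C, hC, fun p S K U hU u hu => h p S _ _ (hU.1 u hu).1 (hU.1 u hu).2⟩

end Pool.Agent.Lib.MP_9177b7_ag.S4
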