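import Pool.Agent.Lib.MP_9177b7_ag.S4.D1a
import Pool.Agent.Lib.MP_9177b7_ag.S4.D1s
import Pool.Agent.Lib.MP_9177b7_ag.S4.WDiv

/-!
The polynomial attached to a slice and its local data.
-/

noncomputable section

namespace Pool.Agent.Lib.MP_9177b7_ag.S4.D1

open B B.Slice Finset ShiuN Roots Classical

variable {p : ℕ} (S : SD p) (t k₀ : ℤ) {q : ℕ}

lemma ee_D : S.ee t ∣ S.D := Nat.gcd_dvd_right _ _

lemma ee_t : (S.ee t : ℤ) ∣ 2 * t + 1 := Int.natCast_dvd.2 (Nat.gcd_dvd_left _ _)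

lemma ee_ne : S.ee t ≠ 0 := fun h => by
  have := ee_D S t
  have := S.D_gt
  rw [h, zero_dvd_iff] at *
  omega

lemma ee_dl : (S.ee t : ℤ) ∣ S.dl t := by
  have h1 : (S.ee t : ℤ) ∣ S.D := Int.natCast_dvd_natCast.2 (ee_D S t)
  have h2 : (S.ee t : ℤ) ∣ 4 * S.dl t := by
    rw [S.four_dl]
    exact dvd_sub h1 ((ee_t S t).pow two_ne_zero)
  refine (dvd_sub (h1.mul_right (S.dl t)) (h2.mul_left S.d₀)).trans (dvd_of_eq ?_)
  rw [S.hd₀]
  ring

lemma D_two (hq : q.Prime) (h : q ∣ S.D) : ¬ (q : ℤ) ∣ 2 := fun e => by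
  have h1 : (q : ℤ) ∣ S.D := Int.natCast_dvd_natCast.2 h
  rw [S.hd₀] at h1
  exact (Nat.prime_iff_prime_int.1 hq).not_dvd_one ((dvd_add_right
    ((e.mul_right (2 * S.d₀)).trans (dvd_of_eq (by ring)))).1 h1)

lemma D_Dt (hq : q.Prime) (h : q ∣ S.D) : ¬ (q : ℤ) ∣ S.Dt := fun e =>
  hq.not_isUnit (S.sqf q (mul_dvd_mul h (Int.natCast_dvd_natCast.1 e)))

lemma D_c (hq : q.Prime) (h : q ∣ S.D) : ¬ (q : ℤ) ∣ S.c := fun e => D_Dt S hq h <| by
  refine (dvd_sub (e.pow two_ne_zero) ((Int.natCast_dvd_natCast.2 h).mul_right S.m)).trans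
    (dvd_of_eq ?_)
  linear_combination S.hm

lemma D_dl (hq : q.Prime) (h : q ∣ S.D) (e : (q : ℤ) ∣ S.dl t) : q ∣ S.ee t := by
  refine Nat.dvd_gcd (Int.natCast_dvd.1 ((Nat.prime_iff_prime_int.1 hq).dvd_of_dvd_pow (n := 2)
    ((dvd_sub (Int.natCast_dvd_natCast.2 h) (e.mul_left 4)).trans (dvd_of_eq ?_)))) h
  rw [S.four_dl]
  ring

/-- The polynomial of a slice. -/
structure Pol (e₁ : ℕ) (α β γ : ℤ) : Prop where
  dvd : e₁ ∣ S.ee t
  val : ∀ u, S.QQ t (k₀ + S.ee t * u) = S.ee t * e₁ * (α * u ^ 2 + β * u + γ)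
  qd : Qd (2 * S.dl t).natAbs α β γ
  al : ∀ q : ℕ, q.Prime → q ∣ S.D → (q : ℤ) ∣ α
  be : ∀ q : ℕ, q.Prime → q ∣ S.D → ¬ q ∣ S.ee t → ¬ (q : ℤ) ∣ β
  ga : ∀ q : ℕ, q.Prime → q ∣ S.ee t → ¬ q ∣ e₁ → (q : ℤ) ∣ β

lemma pol : ∃ e₁ α β γ, Pol S t k₀ e₁ α β γ := by
  obtain ⟨D₁, hD⟩ := ee_D S t
  obtain ⟨δ, hδ⟩ := ee_dl S t
  have e0 := ee_ne S t
  have sq : Squarefree S.D := S.sqf.of_mul_left
  set e := S.ee t with he
  have hD' : (S.D : ℤ) = e * D₁ := by exact_mod_cast hD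
  set Q : ℤ := D₁ * k₀ ^ 2 + 2 * S.c * δ * k₀ + S.m * e * δ ^ 2 with hQ
  obtain ⟨e₂, h2⟩ : Q.gcd e ∣ e := Int.natCast_dvd_natCast.1 (Int.gcd_dvd_right _ _)
  obtain ⟨γ, hγ⟩ : (Q.gcd e : ℤ) ∣ Q := Int.gcd_dvd_left _ _
  have g0 : 0 < Q.gcd e := Int.gcd_pos_of_ne_zero_right _ (by exact_mod_cast e0)
  have cop : ∀ q : ℕ, q.Prime → q ∣ e₂ → ¬ (q : ℤ) ∣ γ := fun q hq h1 h => by
    have : Q.gcd e * q ∣ Q.gcd e := Int.dvd_gcd (c := Q.gcd e * q)
      (by push_cast; conv_rhs => rw [hγ]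
          exact mul_dvd_mul_left _ h)
      (Int.natCast_dvd_natCast.2 (by conv_rhs => rw [h2]
                                     exact mul_dvd_mul_left _ h1))
    have := Nat.le_of_dvd g0 this
    have := hq.two_le
    nlinarith
  set e₁ := Q.gcd e
  have h2' : (e : ℤ) = e₁ * e₂ := by exact_mod_cast h2
  have val : ∀ u, S.QQ t (k₀ + e * u) =
      e * e₁ * (D₁ * e * e₂ * u ^ 2 + 2 * e₂ * (D₁ * k₀ + S.c * δ) * u + γ) := fun u => by
    rw [SD.QQ, hδ, hD']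
    linear_combination e * hγ - e * hQ + (e * e * D₁ * u ^ 2 + 2 * e * u * (D₁ * k₀ + S.c * δ)) * h2'
  have be : ∀ q : ℕ, q.Prime → q ∣ S.D → (q : ℤ) ∣ 2 * e₂ * (D₁ * k₀ + S.c * δ) → q ∣ e₂ := by
    intro q hq h h1
    have hp := Nat.prime_iff_prime_int.1 hq
    by_contra h3
    have h4 : (q : ℤ) ∣ D₁ * k₀ + S.c * δ := (hp.dvd_or_dvd h1).resolve_left fun h =>
      (hp.dvd_or_dvd h).elim (D_two S hq ‹_›) fun h => h3 (Int.natCast_dvd_natCast.1 h)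
    by_cases h5 : q ∣ e
    · have h6 : (q : ℤ) ∣ e₁ := Int.natCast_dvd_natCast.2
        (((Nat.Prime.dvd_mul hq).1 (h2 ▸ h5)).resolve_right h3)
      have h7 : (q : ℤ) ∣ δ ^ 2 * S.Dt := by
        refine (dvd_sub (h4.pow two_ne_zero) (h6.mul_right (γ * D₁))).trans (dvd_of_eq ?_)
        linear_combination D₁ * hγ - D₁ * hQ + δ ^ 2 * S.hm + δ ^ 2 * S.m * hD'
      have h8 := hp.dvd_of_dvd_pow ((hp.dvd_or_dvd h7).resolve_right (D_Dt S hq h))
      have h9 : (q : ℤ) ∣ e := Int.natCast_dvd_natCast.2 h5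
      refine hq.not_isUnit (sq q (Int.natCast_dvd_natCast.1 ?_))
      push_cast
      refine (dvd_add ((mul_dvd_mul h9 h8).mul_left 4) (mul_dvd_mul (h9.trans (ee_t S t))
        (h9.trans (ee_t S t)))).trans (dvd_of_eq ?_)
      linear_combination S.four_dl t - 4 * hδ
    · have h6 : (q : ℤ) ∣ D₁ := Int.natCast_dvd_natCast.2
        (((Nat.Prime.dvd_mul hq).1 (hD ▸ h)).resolve_left h5)
      exact h5 (D_dl S t hq h (hδ ▸ ((hp.dvd_or_dvd ((dvd_add_right (h6.mul_right _)).1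
        h4)).resolve_left (D_c S hq h)).mul_left _))
  refine ⟨e₁, D₁ * e * e₂, 2 * e₂ * (D₁ * k₀ + S.c * δ), γ, ⟨_, h2⟩, val,
    ⟨fun u h => S.QQ_ne t _ (by rw [val, h, mul_zero]), fun q hq h1 h3 => cop q hq (be q hq ?_ h3),
      fun q hq h1 h3 => ?_⟩, fun q hq h => ?_, fun q hq h h1 h3 => h1 ?_, fun q hq h h1 => ?_⟩
  · rcases (Nat.Prime.dvd_mul hq).1 (Int.natCast_dvd_natCast.1 (by push_cast; exact h1) :
      q ∣ D₁ * e * e₂) with h | h
    · rwa [hD, mul_comm]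
    · exact (h.trans ⟨e₁, by rw [h2, mul_comm]⟩).trans ⟨_, hD⟩
  · have h4 : (q : ℤ) ^ 2 ∣ (2 * S.dl t) ^ 2 * S.Dt := by
      refine (h3.mul_left (e₁ ^ 2)).trans (dvd_of_eq ?_)
      rw [hδ]
      have : S.Dt = S.c ^ 2 - e * D₁ * S.m := by linear_combination -S.hm - S.m * hD'
      rw [this, h2']
      rw [h2'] at hQ
      linear_combination (4 * D₁ * e₁ ^ 2 * e₂ ^ 2 : ℤ) * hγ - (4 * D₁ * e₁ ^ 2 * e₂ ^ 2 : ℤ) * hQ
    have hp := Nat.prime_iff_prime_int.1 hq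
    have h5 := (((hp.irreducible.coprime_iff_not_dvd).2 fun h =>
      h1 (Int.natCast_dvd.1 h)).pow (m := 2) (n := 2)).dvd_of_dvd_mul_left h4
    exact hq.not_isUnit (S.sqf.of_mul_right q (Int.natCast_dvd_natCast.1 (by
      push_cast; rwa [← pow_two])))
  · exact ((Int.natCast_dvd_natCast.2 h).trans (dvd_of_eq (by rw [hD', mul_comm]))).mul_right _
  · exact (be q hq h h3).trans ⟨e₁, h2.trans (mul_comm _ _)⟩
  · exact ((Int.natCast_dvd_natCast.2 (((Nat.Prime.dvd_mul hq).1 (h2 ▸ h)).resolve_left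
      h1)).mul_left 2).mul_right _

/-- The weights of level one. -/
def n1 (α β γ : ℤ) (q : ℕ) (u : Fin 1 → ℤ) : ℕ :=
  if q ∣ (2 * S.dl t).natAbs then (if (q : ℤ) ∣ α * u 0 ^ 2 + β * u 0 + γ then 162 else 0)
  else if q ∣ S.D then (if (q : ℤ) ∣ α * u 0 ^ 2 + β * u 0 + γ then S.a q - 1 else 0)
  else ∑ x ∈ (range q).filter fun x : ℕ => (q : ℤ) ∣ S.nn t (k₀ + S.ee t * u 0) - S.dl t * x,
    S.ρ q x

/-- The upper density. -/
def a1 (q : ℕ) : ℕ :=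
  if q ∣ (2 * S.dl t).natAbs then 324 else if q ∣ S.D then S.a q - 1 else S.a q

/-- The lower density. -/
def b1 (q : ℕ) : ℕ := if q ∣ (2 * S.dl t).natAbs then 0 else if q ∣ S.D then 1 else S.b q

lemma ee_Δ (h : q ∣ S.ee t) : q ∣ (2 * S.dl t).natAbs :=
  Int.natCast_dvd.1 (((Int.natCast_dvd_natCast.2 h).trans (ee_dl S t)).mul_left 2)

lemma De (hq : q.Prime) (h : ¬ q ∣ S.D) : ¬ (q : ℤ) ∣ S.D * S.ee t := fun e =>
  h (((Nat.Prime.dvd_mul hq).1 (Int.natCast_dvd_natCast.1 (by push_cast; exact e))).elim id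
    fun h => h.trans (ee_D S t))

variable {S t k₀} {e₁ : ℕ} {α β γ : ℤ} (H : Pol S t k₀ e₁ α β γ)
include H

lemma Pol.lo (hq : q.Prime) : b1 S t q ≤ rt q α β γ := by
  unfold b1
  split_ifs with h1 h2
  · exact Nat.zero_le _
  · exact (r3' hq (H.al q hq h2) (H.be q hq h2 fun h => h1 (ee_Δ S t h)) γ).ge
  have hp := Nat.prime_iff_prime_int.1 hq
  have h3 : ¬ (q : ℤ) ∣ S.dl t := fun h => h1 (Int.natCast_dvd.1 (h.mul_left 2))
  refine (S.b_root q hq fun h => ((Nat.Prime.dvd_mul hq).1 h).elim (fun h => h1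
    (Int.natCast_dvd.1 ((Int.natCast_dvd_natCast.2 h).mul_right _))) h2).trans ?_
  let h : ℤ → ℝ := fun y => if (q : ℤ) ∣ y ^ 2 - S.dl t ^ 2 * S.Dt then 1 else 0
  have hh : ∀ x y, (q : ℤ) ∣ x - y → h x = h y := fun x y c =>
    if_congr (dvd_iff_dvd_of_dvd_sub ((c.mul_right (x + y)).trans (dvd_of_eq (by ring)))) rfl rfl
  have a1 := aff hq (De S t hq h2) (S.nn t k₀) h hh
  rw [← aff hq h3 0 h hh] at a1
  refine Nat.cast_le (α := ℝ).1 ?_
  rw [Roots.rt, ← sum_boole, ← sum_boole]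
  refine (sum_le_sum fun x _ => ?_).trans (a1.ge.trans (sum_le_sum fun u _ => ?_))
  · split_ifs with c
    · exact (if_pos ((c.mul_left (S.dl t ^ 2)).trans (dvd_of_eq (by ring)))).ge
    · simp only [h]; positivity
  · split_ifs with c
    · simp only [h]; split_ifs <;> norm_num
    · refine (if_neg fun e => c ?_).le
      have e1 : S.D * S.ee t * u + S.nn t k₀ = S.nn t (k₀ + S.ee t * u) := by
        simp only [SD.nn]; ring
      rw [e1, ← S.D_QQ, H.val, ← mul_assoc, ← mul_assoc] at e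
      exact (hp.dvd_or_dvd e).resolve_left fun e => (hp.dvd_or_dvd e).elim (De S t hq h2)
        fun e => h2 (((Int.natCast_dvd_natCast.1 e).trans H.dvd).trans (ee_D S t))

lemma Pol.nden (hq : q.Prime) :
    denN q (fun u => n1 S t k₀ α β γ q u) ≤ (a1 S t q : ℝ) / q := by
  have k1 : ∀ c r : ℕ, rt q α β γ ≤ r → denN q (fun u : Fin 1 → ℤ =>
      ((if (q : ℤ) ∣ α * u 0 ^ 2 + β * u 0 + γ then c else 0 : ℕ) : ℝ)) ≤ ((c * r : ℕ) : ℝ) / q := by
    intro c r h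
    have : (rt q α β γ : ℝ) ≤ r := by exact_mod_cast h
    calc _ = c * (rt q α β γ / (q : ℝ)) := by
          rw [← den_rt, ← den_smul]
          congr 1
          ext u
          split_ifs <;> simp
      _ ≤ _ := by
          push_cast
          rw [mul_div_assoc]
          gcongr
  unfold n1 a1
  split_ifs with h1 h2
  · exact k1 162 2 (by simpa using H.qd.all hq 1)
  · simpa using k1 (S.a q - 1) 1 (by simpa using H.qd.one hq (H.al q hq h2) 1)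
  · rw [den1 q fun u => ((∑ x ∈ (range q).filter fun x : ℕ =>
      (q : ℤ) ∣ S.nn t (k₀ + S.ee t * u) - S.dl t * x, S.ρ q x : ℕ) : ℝ)]
    refine div_le_div_of_nonneg_right ?_ q.cast_nonneg
    rw [← Nat.cast_sum, Nat.cast_le]
    refine le_trans ?_ (S.ρ_sum q hq)
    simp only [sum_filter]
    rw [sum_comm]
    refine sum_le_sum fun x _ => ?_
    have := r3 hq (dvd_zero _) (De S t hq h2) (S.nn t k₀ - S.dl t * x) 1
    rw [pow_one, Roots.rt] at this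
    rw [← sum_filter, sum_const, smul_eq_mul]
    refine (Nat.mul_le_mul_right _ (le_of_eq_of_le ?_ this)).trans (one_mul _).le
    congr 2
    ext u
    rw [SD.nn, SD.nn]
    ring_nf

lemma Pol.hyp (hp : p.Prime) (z : ℤ) :
    Hyp p 324 2 (fun t' => hf (2 * S.dl t).natAbs (α * t' 0 ^ 2 + β * t' 0 + γ).natAbs)
      (n1 S t k₀ α β γ) (fun j t' => (p : ℤ) ^ j ∣ t' 0 - z) (a1 S t) (b1 S t) := by
  refine H.qd.hyp hp z (fun q => H.lo) (fun q u v hq c => ?_) (fun q u hq => ?_) (fun q => H.nden)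
    fun q hq => ?_
  · have e1 : (q : ℤ) ∣ α * u 0 ^ 2 + β * u 0 + γ ↔ (q : ℤ) ∣ α * v 0 ^ 2 + β * v 0 + γ :=
      ⟨Qd.per c, Qd.per (CgN.symm c)⟩
    have e2 : ∀ x : ℕ, (q : ℤ) ∣ S.nn t (k₀ + S.ee t * u 0) - S.dl t * x ↔
        (q : ℤ) ∣ S.nn t (k₀ + S.ee t * v 0) - S.dl t * x := fun x =>
      dvd_iff_dvd_of_dvd_sub (((c 0).mul_left (S.D * S.ee t)).trans
        (dvd_of_eq (by simp only [SD.nn]; ring)))
    simp only [n1, e1, e2]
  · have := S.a_le q hq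
    have := (sum_le_sum_of_subset (f := S.ρ q) (filter_subset (fun x : ℕ =>
      (q : ℤ) ∣ S.nn t (k₀ + S.ee t * u 0) - S.dl t * x) (range q))).trans (S.ρ_sum q hq)
    unfold n1
    split_ifs <;> omega
  · have := S.a_le q hq
    unfold a1
    split_ifs <;> omega

end Pool.Agent.Lib.MP_9177b7_ag.S4.D1
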