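import Pool.Agent.Lib.MP_9177b7_ag.B.Slice

/-!
The sieve bound for levels that are periodic modulo the square of the prime power.
-/

noncomputable section

namespace Pool.Agent.Lib.MP_9177b7_ag.S4.D1

open B B.Slice Finset ShiuN Classical

variable {d : ℕ}

/-- The local data. -/
structure Hyp (p e : ℕ) (κ : ℝ) (N : (Fin d → ℤ) → ℕ) (n : ℕ → (Fin d → ℤ) → ℕ)
    (R : ℕ → (Fin d → ℤ) → Prop) (a b : ℕ → ℕ) : Prop where
  per : ∀ (q j : ℕ) t t', q.Prime → CgN (q ^ (2 * j)) t t' → q ^ j ∣ N t → q ^ j ∣ N t'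
  per1 : ∀ (q : ℕ) t t', q.Prime → CgN q t t' → q ^ 1 ∣ N t → q ^ 1 ∣ N t'
  up : ∀ q : ℕ, q.Prime → denN q (fun t => if q ^ 1 ∣ N t then 1 else 0) ≤ κ / q
  lo : ∀ q : ℕ, q.Prime → (b q : ℝ) / q - κ / q ^ 2 ≤ denN q fun t => if q ^ 1 ∣ N t then 1 else 0
  lv : ∀ q j : ℕ, q.Prime →
    denN (q ^ (2 * j)) (fun t => if q ^ j ∣ N t then 1 else 0) ≤ κ * (q : ℝ) ^ (-(j : ℝ) / 4)
  lv2 : ∀ q j : ℕ, q.Prime → 2 ≤ j →
    denN (q ^ (2 * j)) (fun t => if q ^ j ∣ N t then 1 else 0) ≤ κ * (q : ℝ) ^ (-1 - (j : ℝ) / 4)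
  nper : ∀ (q : ℕ) t t', q.Prime → CgN q t t' → n q t = n q t'
  nle : ∀ (q : ℕ) t, q.Prime → n q t ≤ e
  nden : ∀ q : ℕ, q.Prime → denN q (fun t => n q t) ≤ (a q : ℝ) / q
  ale : ∀ q : ℕ, q.Prime → a q ≤ e
  rper : ∀ j t t', CgN (p ^ j) t t' → R j t → R j t'
  rden : ∀ j, denN (p ^ j) (fun t => if R j t then 1 else 0) ≤ ((p : ℝ) ^ j)⁻¹
  ranti : ∀ i j t, i ≤ j → R j t → R i t

variable {p k bad e : ℕ} {κ : ℝ} {N : (Fin d → ℤ) → ℕ} {n : ℕ → (Fin d → ℤ) → ℕ}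
  {R : ℕ → (Fin d → ℤ) → Prop} {a b : ℕ → ℕ} {q j : ℕ}

namespace Hyp

variable (H : Hyp p e κ N n R a b)
include H

lemma up2 (hq : q.Prime) :
    denN (q ^ (2 * 1)) (fun t => if q ^ 1 ∣ N t then 1 else 0) ≤ κ / q := by
  have := den_of_dvd (per_ind fun u v => H.per1 q u v hq) (dvd_pow_self q (by omega : 2 * 1 ≠ 0))
    (pow_pos hq.pos _)
  refine le_of_eq_of_le ?_ (H.up q hq)
  convert this

lemma ww_le (hq : q.Prime) (u) : ww bad e n q j u ≤ ((j : ℝ) + 1) ^ e := by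
  unfold ww
  split_ifs with h
  · rw [h.1]
    norm_num
    exact_mod_cast (H.nle q u hq).trans Nat.lt_two_pow_self.le
  · exact le_rfl

lemma gg_le (hq : q.Prime) (u) : gg p k bad e n q j u ≤ (((j - sh p k q : ℕ) : ℝ) + 1) ^ e := by
  unfold gg
  split_ifs
  exacts [by positivity, H.ww_le hq u]

lemma anti (u) (h : LV p k N R q (j + 1) u) : LV p k N R q j u :=
  ⟨fun e => H.ranti _ _ _ (by omega) (h.1 e), (pow_dvd_pow _ (by omega)).trans h.2⟩

lemma perL (hq : q.Prime) (u v) (c : CgN (q ^ (2 * j)) u v) (h : LV p k N R q j u) :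
    LV p k N R q j v :=
  ⟨fun e => H.rper _ _ _ (CgN.of_dvd (pow_dvd_pow _ (by omega)) (e ▸ c)) (h.1 e),
    H.per _ _ _ _ hq (CgN.of_dvd (pow_dvd_pow _ (by omega)) c) h.2⟩

lemma perL1 (hk : 2 ≤ k) (hq : q.Prime) (u v) (c : CgN q u v) (h : LV p k N R q 1 u) :
    LV p k N R q 1 v := by
  refine ⟨fun e => H.rper _ _ _ (CgN.of_dvd ?_ (e ▸ c)) (h.1 e), ?_⟩
  · rw [min_eq_left (by omega), pow_one]
  · by_cases e : q = p
    · rw [e, sh_eq, Nat.sub_eq_zero_of_le (by omega), pow_zero]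
      exact one_dvd _
    · have := h.2
      rw [sh_ne e] at this ⊢
      exact H.per1 q u v hq c this

lemma perG (hq : q.Prime) (u v) (c : CgN q u v) : gg p k bad e n q j u = gg p k bad e n q j v := by
  simp only [gg, ww, H.nper q u v hq c]

/-- The bound by the divisibility condition. -/
lemma denA (hq : q.Prime) {M i : ℕ} (hM : 2 * j ≤ M) (hi : j - sh p k q = i)
    {P : (Fin d → ℤ) → Prop} {_ : DecidablePred P} {f : (Fin d → ℤ) → ℝ}
    {c x : ℝ} (hc : 0 ≤ c) (h : ∀ u, P u → LV p k N R q j u ∧ f u ≤ c)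
    (hx : denN (q ^ (2 * i)) (fun t => if q ^ i ∣ N t then 1 else 0) ≤ x) :
    denN (q ^ M) (fun u => if P u then f u else 0) ≤ c * x :=
  den_ite (M := q ^ (2 * i)) (Ω := fun t => q ^ i ∣ N t) (pow_dvd_pow _ (by omega)) (pow_pos hq.pos _) hc
    (fun _ _ => H.per _ _ _ _ hq) (fun u hu => ⟨hi ▸ (h u hu).1.2, (h u hu).2⟩) (by convert hx)

/-- The bound by the congruence. -/
lemma denB (hp : p.Prime) {M : ℕ} (hM : j ≤ M) {P : (Fin d → ℤ) → Prop} {_ : DecidablePred P}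
    {f : (Fin d → ℤ) → ℝ} {c : ℝ} (hc : 0 ≤ c) (h : ∀ u, P u → LV p k N R p j u ∧ f u ≤ c) :
    denN (p ^ M) (fun u => if P u then f u else 0) ≤ c * (p : ℝ) ^ (-((min j k : ℕ) : ℝ)) := by
  rw [Real.rpow_neg p.cast_nonneg, Real.rpow_natCast]
  exact den_ite (pow_dvd_pow _ (by omega)) (pow_pos hp.pos _) hc (H.rper _)
    (fun u hu => ⟨(h u hu).1.1 rfl, (h u hu).2⟩) (H.rden _)

lemma den1 (hκ : 1 ≤ κ) (hk : 2 ≤ k) (hq : q.Prime) :
    denN q (fun u => if LV p k N R q 1 u then 1 else 0) ≤ κ / q := by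
  have h0 : (0 : ℝ) < q := by exact_mod_cast hq.pos
  suffices denN (q ^ 2) (fun u => if LV p k N R q 1 u then 1 else 0) ≤ κ / q by
    rwa [den_of_dvd (per_ind (H.perL1 hk hq)) (dvd_pow_self q two_ne_zero) (pow_pos hq.pos _)]
      at this
  by_cases e : q = p
  · subst e
    refine (H.denB (k := k) (j := 1) hq one_le_two zero_le_one fun u h => ⟨h, le_rfl⟩).trans ?_
    rw [min_eq_left (by omega), Nat.cast_one, Real.rpow_neg_one, ← div_eq_mul_inv]
    gcongr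
  · exact (H.denA (k := k) (j := 1) hq le_rfl (by rw [sh_ne e]) zero_le_one
      (fun u h => ⟨h, le_rfl⟩) (H.up2 hq)).trans (one_mul _).le

lemma den2 (hκ : 1 ≤ κ) (hp : p.Prime) (hq : q.Prime) (hj : 2 ≤ j) :
    denN (q ^ (2 * j)) (fun u => if LV p k N R q j u then 1 else 0) ≤
      κ * p * (q : ℝ) ^ (-1 - 1 / 5 * (j : ℝ)) := by
  have h1 : (1 : ℝ) ≤ q := by exact_mod_cast hq.one_le
  have h2 : (1 : ℝ) ≤ p := by exact_mod_cast hp.one_le
  have hj' : (2 : ℝ) ≤ j := by exact_mod_cast hj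
  by_cases e : q = p
  · subst e
    have e1 : κ * q * (q : ℝ) ^ (-1 - 1 / 5 * (j : ℝ)) = κ * (q : ℝ) ^ (-(j : ℝ) / 5) := by
      rw [mul_assoc, mul_comm (q : ℝ), ← Real.rpow_add_one (by positivity)]
      congr 2
      ring
    rw [e1]
    by_cases c : j ≤ 5 * k
    · refine (H.denB hq (by omega) zero_le_one fun u h => ⟨h, le_rfl⟩).trans ?_
      have : (j : ℝ) ≤ 5 * (min j k : ℕ) := by exact_mod_cast (by omega : j ≤ 5 * min j k)
      exact mul_le_mul hκ (Real.rpow_le_rpow_of_exponent_le h1 (by linarith)) (by positivity)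
        (by positivity)
    · refine (H.denA hq le_rfl (by rw [sh_eq]) zero_le_one (fun u h => ⟨h, le_rfl⟩)
        (H.lv q (j - k) hq)).trans ?_
      have : 4 * (j : ℝ) ≤ 5 * (j - k : ℕ) := by exact_mod_cast (by omega : 4 * j ≤ 5 * (j - k))
      rw [one_mul]
      exact mul_le_mul_of_nonneg_left (Real.rpow_le_rpow_of_exponent_le h1 (by linarith))
        (by positivity)
  · refine (H.denA hq le_rfl (by rw [sh_ne e]; rfl) zero_le_one (fun u h => ⟨h, le_rfl⟩)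
      (H.lv2 q j hq hj)).trans ?_
    rw [one_mul]
    exact mul_le_mul (by nlinarith) (Real.rpow_le_rpow_of_exponent_le h1 (by linarith))
      (by positivity) (by positivity)

/-- The first error term. -/
lemma den3 (hk : 2 ≤ k) (hq : q.Prime) (P : (Fin d → ℤ) → Prop)
    {_ : DecidablePred fun u => LV p k N R q 1 u ∧ P u} :
    denN (q ^ (2 * 2)) (fun u => if LV p k N R q 1 u ∧ P u then gg p k bad e n q 1 u else 0) ≤
      if q = p then 0 else if q ∣ bad then 2 ^ e * (κ / q) else (a q : ℝ) / q := by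
  split_ifs with e1 e2
  · subst e1
    have : ∀ u, gg q k bad e n q 1 u = 0 := fun u => if_pos (by rw [sh_eq]; omega)
    simp [this, denN]
  · refine H.denA (k := k) (j := 1) hq (by omega) (by rw [sh_ne e1]) (by positivity)
      (fun u h => ⟨h.1, ?_⟩) (H.up2 hq)
    have := H.gg_le (k := k) (bad := bad) (j := 1) hq u
    rw [sh_ne e1] at this
    norm_num at this
    exact this
  · refine le_trans ?_ (H.nden q hq)
    rw [← den_of_dvd (h := fun t => (n q t : ℝ)) (fun u v c => congrArg _ (H.nper q u v hq c))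
      (dvd_pow_self q (by omega : 2 * 2 ≠ 0)) (pow_pos hq.pos _)]
    refine den_le _ fun u => ?_
    split_ifs
    · simp [gg, ww, sh_ne e1, e2]
    · positivity

/-- The second error term. -/
lemma den4 (hκ : 1 ≤ κ) (hq : q.Prime) {S : ℝ} (hS : ∀ (k : ℕ) (s : Finset ℕ),
    ∑ j ∈ s, (if j < k then 0 else (((j - k : ℕ) : ℝ) + 3) ^ e * rt ^ (j - k)) ≤ S)
    (P : ℕ → (Fin d → ℤ) → Prop) {_ : ∀ j, DecidablePred fun u => LV p k N R q j u ∧ P j u}
    (J : ℕ) :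
    ∑ j ∈ Icc 2 J, denN (q ^ (2 * (j + 1)))
      (fun u => if LV p k N R q j u ∧ P j u then gg p k bad e n q j u else 0) ≤
      κ * S * if q = p then (p : ℝ) ^ (-(k : ℝ) / 2) else (q : ℝ) ^ (-(3 : ℝ) / 2) := by
  have h0 : (0 : ℝ) < q := by exact_mod_cast hq.pos
  have h1 : (1 : ℝ) ≤ q := by exact_mod_cast hq.one_le
  have h2 : 0 < rt := Real.rpow_pos_of_pos zero_lt_two _
  rw [mul_right_comm]
  split_ifs with e1
  · subst e1
    refine le_trans ?_ (mul_le_mul_of_nonneg_left (hS k (Icc 2 J)) (by positivity))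
    rw [mul_sum]
    refine sum_le_sum fun j _ => ?_
    split_ifs with c
    · have : ∀ u, gg q k bad e n q j u = 0 := fun u => if_pos (by rwa [sh_eq])
      simp [this, denN]
    have g1 : ∀ u, LV q k N R q j u ∧ P j u → LV q k N R q j u ∧
        gg q k bad e n q j u ≤ (((j - k : ℕ) : ℝ) + 3) ^ e := fun u h => ⟨h.1, by
      refine (H.gg_le hq u).trans ?_
      rw [sh_eq]
      gcongr
      norm_num⟩
    set D := denN (q ^ (2 * (j + 1)))
      (fun u => if LV q k N R q j u ∧ P j u then gg q k bad e n q j u else 0)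
    have a1 : D ≤ _ := H.denA hq (by omega) (by rw [sh_eq]) (by positivity) g1 (H.lv q (j - k) hq)
    have a2 : D ≤ _ := H.denB hq (by omega) (by positivity) g1
    rw [min_eq_right (by omega)] at a2
    have a3 := rt_pow hq (j - k)
    have b1 : (q : ℝ) ^ (-(k : ℝ)) = ((q : ℝ) ^ (-(k : ℝ) / 2)) ^ 2 := by
      rw [← Real.rpow_natCast, ← Real.rpow_mul h0.le]; congr 1; push_cast; ring
    have b2 : (q : ℝ) ^ (-((j - k : ℕ) : ℝ) / 4) = ((q : ℝ) ^ (-((j - k : ℕ) : ℝ) / 8)) ^ 2 := by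
      rw [← Real.rpow_natCast, ← Real.rpow_mul h0.le]; congr 1; rw [Nat.cast_ofNat]; ring
    rw [b1] at a2
    rw [b2] at a1
    by_contra hD
    have a4 := (not_le.1 hD).le
    have a5 : 0 < κ * (q : ℝ) ^ (-(k : ℝ) / 2) * ((((j - k : ℕ) : ℝ) + 3) ^ e * rt ^ (j - k)) := by
      positivity
    refine hD (abs_le_of_sq_le_sq' ?_ a5.le).2
    calc D ^ 2 = D * D := sq D
      _ ≤ _ := mul_le_mul a1 a2 (a5.le.trans a4) (by positivity)
      _ = κ * 1 * ((q : ℝ) ^ (-(k : ℝ) / 2) * ((((j - k : ℕ) : ℝ) + 3) ^ e *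
          (q : ℝ) ^ (-((j - k : ℕ) : ℝ) / 8))) ^ 2 := by ring
      _ ≤ κ * κ * ((q : ℝ) ^ (-(k : ℝ) / 2) * ((((j - k : ℕ) : ℝ) + 3) ^ e * rt ^ (j - k))) ^ 2 := by
          gcongr
      _ = _ := by ring
  · refine le_trans ?_ (mul_le_mul_of_nonneg_left (hS 2 (Icc 2 J)) (by positivity))
    rw [mul_sum]
    refine sum_le_sum fun j hj => ?_
    have hj := (mem_Icc.1 hj).1
    have c1 : ((j - 2 : ℕ) : ℝ) = j - 2 := by rw [Nat.cast_sub hj]; rfl
    have c2 : (2 : ℝ) ≤ j := by exact_mod_cast hj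
    rw [if_neg (by omega)]
    refine (H.denA (k := k) (j := j) (c := (((j - 2 : ℕ) : ℝ) + 3) ^ e) hq (by omega)
      (by rw [sh_ne e1]; rfl) (by positivity) (fun u h => ⟨h.1, ?_⟩) (H.lv2 q j hq hj)).trans ?_
    · refine (H.gg_le hq u).trans (le_of_eq ?_)
      rw [sh_ne e1, c1, Nat.sub_zero]
      ring
    · have a3 := rt_pow hq (j - 2)
      have a4 : (q : ℝ) ^ (-1 - (j : ℝ) / 4) ≤
          (q : ℝ) ^ (-(3 : ℝ) / 2) * (q : ℝ) ^ (-((j - 2 : ℕ) : ℝ) / 8) := by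
        rw [← Real.rpow_add h0, c1]
        exact Real.rpow_le_rpow_of_exponent_le h1 (by linarith)
      calc _ ≤ (((j - 2 : ℕ) : ℝ) + 3) ^ e * (κ * ((q : ℝ) ^ (-(3 : ℝ) / 2) * rt ^ (j - 2))) := by
            gcongr
            exact a4.trans (by gcongr)
        _ = _ := by ring

end Hyp

/-- The exponent. -/
lemma expo (H : Hyp p e κ N n R a b) (hκ : 1 ≤ κ) (hp : p.Prime) (hpb : p ∣ bad) (hb : bad ≠ 0)
    {S : ℝ} (hS : 0 ≤ S) (x : ℝ) (T : Finset ℕ)
    (h1 : ∀ q ∈ T, q ≠ p ∧ q ∈ (range (⌊x⌋₊ + 1)).filter Nat.Prime)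
    (h2 : ∀ q ∈ (range (⌊x⌋₊ + 1)).filter Nat.Prime, q ∉ T → q = p) :
    ∑ q ∈ T, ((if q = p then 0 else if q ∣ bad then 2 ^ e * (κ / q) else (a q : ℝ) / q) +
      (κ * S * if q = p then (p : ℝ) ^ (-(k : ℝ) / 2) else (q : ℝ) ^ (-(3 : ℝ) / 2)) -
      denN q fun u => if LV p k N R q 1 u then 1 else 0) ≤
    tsumP (fun q => (a q : ℝ) - b q) x +
      (κ * S + κ + (2 ^ e + 2) * κ * bad ^ 2) * ∑' q : ℕ, (q : ℝ) ^ (-(3 : ℝ) / 2) := by
  have z1 : ∀ q : ℕ, q.Prime → 1 / (q : ℝ) ^ 2 ≤ (q : ℝ) ^ (-(3 : ℝ) / 2) := fun q hq => by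
    rw [one_div, ← Real.rpow_natCast, ← Real.rpow_neg q.cast_nonneg]
    exact Real.rpow_le_rpow_of_exponent_le (by exact_mod_cast hq.one_le) (by norm_num)
  have z2 : ∀ q : ℕ, q.Prime → q ∣ bad → 1 ≤ (bad : ℝ) ^ 2 * (q : ℝ) ^ (-(3 : ℝ) / 2) :=
    fun q hq h => by
      have h0 : (0 : ℝ) < q := by exact_mod_cast hq.pos
      have : (q : ℝ) ≤ bad := by exact_mod_cast Nat.le_of_dvd (Nat.pos_of_ne_zero hb) h
      calc (1 : ℝ) = q ^ 2 * (1 / q ^ 2) := by field_simp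
        _ ≤ _ := mul_le_mul (by gcongr) (z1 q hq) (by positivity) (by positivity)
  have sm : Summable fun q : ℕ => (q : ℝ) ^ (-(3 : ℝ) / 2) :=
    Real.summable_nat_rpow.2 (by norm_num)
  refine le_trans (b := ∑ q ∈ (range (⌊x⌋₊ + 1)).filter Nat.Prime, (((a q : ℝ) - b q) / q +
    (κ * S + κ + (2 ^ e + 2) * κ * bad ^ 2) * (q : ℝ) ^ (-(3 : ℝ) / 2))) ?_ ?_
  · refine (sum_le_sum fun q hq => ?_).trans
      (sum_le_sum_of_subset_of_nonneg (fun q hq => (h1 q hq).2) fun q hq hq' => ?_)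
    · obtain ⟨e1, hq⟩ := h1 q hq
      have hq := (mem_filter.1 hq).2
      have q1 : (1 : ℝ) ≤ q := by exact_mod_cast hq.one_le
      have l1 : (denN q fun u => if LV p k N R q 1 u then 1 else 0) =
          denN q fun u => if q ^ 1 ∣ N u then 1 else 0 := by
        simp [LV, sh_ne e1, e1]
      have l2 := H.lo q hq
      have l3 : κ / q ^ 2 ≤ κ * (q : ℝ) ^ (-(3 : ℝ) / 2) := by
        rw [div_eq_mul_one_div]
        exact mul_le_mul_of_nonneg_left (z1 q hq) (by positivity)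
      have l4 : 0 ≤ κ * bad ^ 2 * (q : ℝ) ^ (-(3 : ℝ) / 2) := by positivity
      have l5 : (0 : ℝ) ≤ a q / q := by positivity
      rw [l1, if_neg e1, if_neg e1, sub_div]
      split_ifs with e2
      · have l6 : 2 ^ e * (κ / q) ≤ 2 ^ e * κ * (bad ^ 2 * (q : ℝ) ^ (-(3 : ℝ) / 2)) := by
          rw [mul_assoc]
          exact mul_le_mul_of_nonneg_left ((div_le_self (by positivity) q1).trans
            (le_mul_of_one_le_right (by positivity) (z2 q hq e2))) (by positivity)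
        nlinarith
      · have : 0 ≤ 2 ^ e * (κ * bad ^ 2 * (q : ℝ) ^ (-(3 : ℝ) / 2)) := by positivity
        nlinarith
    · obtain rfl := h2 q hq hq'
      have q1 : (1 : ℝ) ≤ q := by exact_mod_cast hp.one_le
      have l1 := H.lo q hp
      have l2 := H.up q hp
      have l3 : κ / q ≤ κ := div_le_self (by positivity) q1
      have l4 : κ / q ^ 2 ≤ κ := div_le_self (by positivity) (one_le_pow₀ q1)
      have l5 : (0 : ℝ) ≤ a q / q := by positivity
      have l6 := mul_le_mul_of_nonneg_left (z2 q hp hpb) (show 0 ≤ 2 * κ by positivity)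
      have l7 : 0 ≤ (κ * S + κ + 2 ^ e * κ * bad ^ 2) * (q : ℝ) ^ (-(3 : ℝ) / 2) := by positivity
      rw [sub_div]
      nlinarith
  · rw [sum_add_distrib, ← mul_sum]
    exact add_le_add le_rfl (mul_le_mul_of_nonneg_left
      (sm.sum_le_tsum _ fun q _ => by positivity) (by positivity))

lemma core (hS : ShiuNStmt) (E : ℝ) (hp : p.Prime) (hd : 0 < d) (hb : bad ≠ 0) (hpb : p ∣ bad)
    (hκ : 1 ≤ κ) : ∃ δ ε C : ℝ, 0 < δ ∧ δ ≤ 1 ∧ 0 < ε ∧ 0 < C ∧ ∀ k : ℕ, 2 ≤ k → ∃ y₀ : ℝ,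
      ∀ y : ℝ, y₀ ≤ y → ∀ (N : (Fin d → ℤ) → ℕ) (n : ℕ → (Fin d → ℤ) → ℕ)
        (R : ℕ → (Fin d → ℤ) → Prop) (a b : ℕ → ℕ) (a₀ : Fin d → ℤ) (A : Fin d → ℕ)
        (U : Finset (Fin d → ℤ)), Hyp p e κ N n R a b → (∀ i, y ≤ A i) → U ⊆ boxN a₀ A →
        (∀ t ∈ U, N t ≠ 0 ∧ (N t : ℝ) ≤ y ^ E ∧ R k t) →
        ∑ t ∈ U, ∏ q ∈ (N t).primeFactors, ww bad e n q ((N t).factorization q) t ≤
          C * (∏ i, (A i : ℝ)) * (Real.exp (tsumP (fun q => (a q : ℝ) - b q) (y ^ δ)) *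
            (p : ℝ) ^ (-(k : ℝ) / 2) + y ^ (-ε)) := by
  obtain ⟨S, S1, hg⟩ := geo e
  have p1 : (1 : ℝ) ≤ p := by exact_mod_cast hp.one_le
  have t1 : (1 : ℝ) ≤ 2 ^ e := one_le_pow₀ one_le_two
  obtain ⟨K, K1, K2, K3⟩ : ∃ K : ℝ, κ * p ≤ K ∧ κ * S ≤ K ∧ 2 ^ e * κ ≤ K :=
    ⟨κ * p + κ * S + 2 ^ e * κ, by nlinarith, by nlinarith, by nlinarith⟩
  have K4 : κ ≤ K := by nlinarith
  have K5 : (2 : ℝ) ^ e ≤ K := by nlinarith
  have K6 : K ≤ K ^ 2 := by nlinarith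
  obtain ⟨δ₀, ε, d0, e0, h⟩ := hS d K (E + 1) (1 / 5) 2 hd (hκ.trans K4) (by norm_num) one_le_two
  have d1 : 0 < min δ₀ 1 := lt_min d0 one_pos
  obtain ⟨C, hC⟩ := h _ d1 (min_le_left _ _)
  obtain ⟨y₁, hy₁⟩ := dvb e E e0
  set δ := min δ₀ 1
  set Z := (κ * S + κ + (2 ^ e + 2) * κ * bad ^ 2) * ∑' q : ℕ, (q : ℝ) ^ (-(3 : ℝ) / 2)
  refine ⟨δ, ε, (|C| + 1) * (Real.exp Z * (κ * S) + 1), d1, min_le_right _ _, e0, by positivity,
    fun k hk => ⟨max y₁ (max (p ^ k) (p ^ δ⁻¹)), fun y hy N n R a b a₀ A U H hA hU hN => ?_⟩⟩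
  simp only [max_le_iff] at hy
  obtain ⟨y1, y2, y3⟩ := hy
  have y4 : 1 ≤ y := (one_le_pow₀ p1).trans y2
  have y5 : (p : ℝ) ≤ y ^ δ := by
    rw [← Real.rpow_inv_rpow p.cast_nonneg d1.ne']
    exact Real.rpow_le_rpow (by positivity) y3 d1.le
  let S₀ := (range (⌊y ^ δ⌋₊ + 1)).filter Nat.Prime
  have m0 : ∀ q : ℕ, q ∈ S₀ ↔ (q : ℝ) ≤ y ^ δ ∧ q.Prime := fun q => by
    rw [mem_filter, mem_range, Nat.lt_succ_iff, Nat.le_floor_iff (by positivity)]
  let P := S₀ ∪ U.biUnion fun t => (N t).primeFactors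
  have hP : ∀ q ∈ P, q.Prime := fun q hq => by
    rcases mem_union.1 hq with h | h
    · exact ((m0 q).1 h).2
    · obtain ⟨t, -, h⟩ := mem_biUnion.1 h
      exact Nat.prime_of_mem_primeFactors h
  have pP : p ∈ P := mem_union_left _ ((m0 p).2 ⟨y5, hp⟩)
  have pr : ∀ t ∈ U, ∀ f : ℕ → ℕ → ℝ, (∀ q, f q 0 = 1) → ∏ q ∈ P, f q ((N t).factorization q) =
      ∏ q ∈ (N t).primeFactors, f q ((N t).factorization q) := fun t ht f hf =>
    (prod_subset (fun q hq => mem_union_right _ (mem_biUnion.2 ⟨t, ht, hq⟩)) fun q _ hq => by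
      rw [Finsupp.notMem_support_iff.1 (Nat.support_factorization _ ▸ hq), hf]).symm
  have g0 : ∀ q j u, gg p k bad e n q (sh p k q + j) u = ww bad e n q j u := fun q j u => by
    rw [gg, if_neg (by omega), Nat.add_sub_cancel_left]
  have key := hC y a₀ A P {p} U (LV p k N R) (gg p k bad e n)
    (fun u q => sh p k q + (N u).factorization q)
    (fun q => if q = p then 0 else if q ∣ bad then 2 ^ e * (κ / q) else (a q : ℝ) / q)
    (fun q => κ * S * if q = p then (p : ℝ) ^ (-(k : ℝ) / 2) else (q : ℝ) ^ (-(3 : ℝ) / 2))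
    y4 hA hU hP (singleton_subset_iff.2 pP) (fun q hq => mem_singleton.1 hq ▸ y5)
    (fun q _ j => H.anti) (fun q hq u v c => H.perL1 hk (hP q hq) u v c)
    (fun q hq j u v c => H.perL (hP q hq) u v c)
    (fun q hq j u v c => H.perG (hP q hq) u v (CgN.of_dvd (dvd_pow_self q (by omega)) c))
    (fun q _ j => gg_nonneg) (fun q hq u => (H.gg_le (hP q hq) u).trans (by simp))
    (fun q hq u => ?_) (fun q hq => ?_) (fun q hq j hj => ?_) (fun q hq => ?_) (fun q hq => ?_)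
    (fun q hq J => ?_) (fun u hu q hq => ?_) (fun u _ q hq => ?_) (fun u hu => ?_)
    (fun u hu q hq h => ?_) (fun u hu => ?_)
  · rw [← sum_congr rfl fun t ht => pr t ht (fun q j => ww bad e n q j t) fun q => by simp [ww]]
    simp only [g0] at key
    refine key.trans ?_
    rw [prod_singleton, if_pos rfl]
    have x1 := expo (k := k) H hκ hp hpb hb (zero_le_one.trans S1) (y ^ δ)
      ((P \ {p}).filter fun q : ℕ => (q : ℝ) ≤ y ^ δ) (fun q hq => by
        rw [mem_filter, mem_sdiff, mem_singleton] at hq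
        exact ⟨hq.1.2, (m0 q).2 ⟨hq.2, hP q hq.1.1⟩⟩) fun q hq h => by_contra fun e =>
      h (mem_filter.2 ⟨mem_sdiff.2 ⟨mem_union_left _ hq, mt mem_singleton.1 e⟩, ((m0 q).1 hq).1⟩)
    have x2 := Real.exp_le_exp.2 x1
    rw [Real.exp_add] at x2
    have x3 : 0 ≤ Real.exp Z * (κ * S) := by positivity
    calc _ ≤ (|C| + 1) * (∏ i, (A i : ℝ)) * (Real.exp (tsumP (fun q => (a q : ℝ) - b q) (y ^ δ)) *
          Real.exp Z * (κ * S * (p : ℝ) ^ (-(k : ℝ) / 2)) + y ^ (-ε)) := by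
          gcongr
          linarith [le_abs_self C]
      _ = (|C| + 1) * (∏ i, (A i : ℝ)) * (Real.exp Z * (κ * S) *
          (Real.exp (tsumP (fun q => (a q : ℝ) - b q) (y ^ δ)) * (p : ℝ) ^ (-(k : ℝ) / 2)) +
          1 * y ^ (-ε)) := by ring
      _ ≤ (|C| + 1) * (∏ i, (A i : ℝ)) * ((Real.exp Z * (κ * S) + 1) *
          (Real.exp (tsumP (fun q => (a q : ℝ) - b q) (y ^ δ)) * (p : ℝ) ^ (-(k : ℝ) / 2)) +
          (Real.exp Z * (κ * S) + 1) * y ^ (-ε)) := by gcongr <;> linarith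
      _ = _ := by ring
  · refine (H.gg_le (hP q hq) u).trans (le_trans ?_ K5)
    have : ((1 - sh p k q : ℕ) : ℝ) ≤ 1 := by exact_mod_cast Nat.sub_le _ _
    gcongr
    linarith
  · exact (H.den1 hκ hk (hP q hq)).trans (by gcongr)
  · exact (H.den2 hκ hp (hP q hq) hj).trans (by gcongr)
  · exact H.den3 hk (hP q hq) fun u => ¬ LV p k N R q 2 u
  · have q1 : (1 : ℝ) ≤ q := by exact_mod_cast (hP q hq).one_le
    have k2 : (2 : ℝ) ≤ k := by exact_mod_cast hk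
    constructor
    · split_ifs
      · positivity
      · rw [← mul_div_assoc]
        gcongr
        linarith
      · have : (a q : ℝ) ≤ 2 ^ e := by
          exact_mod_cast (H.ale q (hP q hq)).trans Nat.lt_two_pow_self.le
        gcongr
        linarith
    · rw [div_eq_mul_inv (K ^ 2), ← Real.rpow_neg_one]
      refine mul_le_mul (K2.trans K6) ?_ (by split_ifs <;> positivity) (by positivity)
      split_ifs with e1
      · exact e1 ▸ Real.rpow_le_rpow_of_exponent_le (e1 ▸ q1) (by linarith)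
      · exact Real.rpow_le_rpow_of_exponent_le q1 (by norm_num)
  · exact H.den4 hκ (hP q hq) hg (fun j u => ¬ LV p k N R q (j + 1) u) J
  · refine ⟨Or.inr ⟨fun e => ?_, ?_⟩, fun h => ?_⟩
    · rw [e, sh_eq, min_eq_right (Nat.le_add_right _ _)]
      exact (hN u hu).2.2
    · rw [Nat.add_sub_cancel_left]
      exact Nat.ordProj_dvd _ _
    · have := h.2
      rw [add_assoc, Nat.add_sub_cancel_left] at this
      exact Nat.pow_succ_factorization_not_dvd (hN u hu).1 (hP q hq) this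
  · rw [mem_singleton.1 hq, sh_eq]
    omega
  · simp only [pow_add, prod_mul_distrib]
    rw [pr u hu (fun q j => (q : ℝ) ^ j) fun q => pow_zero _,
      prod_eq_single_of_mem p pP fun q _ e => by rw [sh_ne e, pow_zero], sh_eq,
      Real.rpow_add_one (by positivity), mul_comm]
    refine mul_le_mul (le_of_eq_of_le ?_ (hN u hu).2.1) y2 (by positivity) (by positivity)
    exact_mod_cast Nat.prod_factorization_pow_eq_self (hN u hu).1
  · have e1 : q ≠ p := fun e => (e ▸ h).not_ge y5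
    rw [g0, sh_ne e1, zero_add]
    refine (H.ww_le (hP q hq) u).trans (le_trans ?_ (pow_le_pow_left₀ (by positivity) K5 _))
    rw [pow_right_comm]
    gcongr
    exact_mod_cast Nat.lt_two_pow_self
  · simp only [g0]
    refine le_trans (prod_le_prod (fun q _ => ww_nonneg u) fun q hq => H.ww_le (hP q hq) u) ?_
    rw [pr u hu (fun _ j => ((j : ℝ) + 1) ^ e) fun q => by simp]
    exact hy₁ y y1 _ (hN u hu).1 (hN u hu).2.1

end Pool.Agent.Lib.MP_9177b7_ag.S4.D1
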