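import Pool.Agent.Lib.MP_9177b7_ag.B.StE

/-!
The sieve problem on a neighbourhood of a parabola: definitions and statements.
-/

open Finset

noncomputable section

namespace Pool.Agent.Lib.MP_9177b7_ag.S4

open B (tsumP)

/-- Integer data of the sieve problem. -/
structure SD (p : ℕ) where
  D : ℕ
  Dt : ℕ
  d₀ : ℤ
  c : ℤ
  m : ℤ
  a : ℕ → ℕ
  b : ℕ → ℕ
  ρ : ℕ → ℕ → ℕ
  Sg : ℕ → ℤ → Prop
  sqf : Squarefree (D * Dt)
  D_gt : 1 < D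
  Dt_gt : 1 < Dt
  cop : ¬ p ∣ D * Dt
  hd₀ : (D : ℤ) = 4 * d₀ + 1
  hm : c ^ 2 - Dt = D * m
  a_le : ∀ q : ℕ, q.Prime → a q ≤ 4
  b_le : ∀ q : ℕ, q.Prime → b q ≤ 2
  a_pos : ∀ q : ℕ, q.Prime → q ∣ D → 1 ≤ a q
  ρ_sum : ∀ q : ℕ, q.Prime → ∑ x ∈ range q, ρ q x ≤ a q
  b_root : ∀ q : ℕ, q.Prime → ¬ q ∣ 2 * D →
    b q ≤ #((range q).filter fun x : ℕ => (q : ℤ) ∣ x ^ 2 - Dt)
  Sg_per : ∀ (l : ℕ) x y, (l : ℤ) ∣ x - y → Sg l x → Sg l y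
  Sg_card : ∀ l : ℕ, l.Prime → l ∣ D →
    2 * (@filter _ (fun x : ℕ => Sg l x) (Classical.decPred _) (range l)).card ≤ l + 1

namespace SD

variable {p : ℕ} (S : SD p)

/-- The invariant `δ`. -/
def dl (t : ℤ) : ℤ := S.d₀ - t * (t + 1)

/-- The invariant `n`. -/
def nn (t k : ℤ) : ℤ := S.c * S.dl t + S.D * k

/-- The quadratic form. -/
def QQ (t k : ℤ) : ℤ := S.D * k ^ 2 + 2 * S.c * S.dl t * k + S.m * S.dl t ^ 2

/-- The size parameter. -/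
def X : ℝ := (S.D : ℝ) * S.Dt

open Classical in
/-- The local weights. -/
def G (q j : ℕ) (t k : ℤ) : ℝ :=
  if j = 1 ∧ q ≠ 2 ∧ q ≠ p then
    if q ∣ S.D then
      if (q : ℤ) ∣ 2 * t + 1 then (if S.Sg q ((S.nn t k + S.c * S.dl t) / q) then 2 else 0)
      else (S.a q : ℝ) - 1
    else ∑ x ∈ (range q).filter fun x : ℕ => (q : ℤ) ∣ S.nn t k - S.dl t * x, (S.ρ q x : ℝ)
  else 2 * ((j : ℝ) + 1) ^ 4

/-- The product of the local weights. -/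
def W (t k : ℤ) : ℝ :=
  ∏ q ∈ (S.QQ t k).natAbs.primeFactors, S.G q ((S.QQ t k).natAbs.factorization q) t k

/-- `U` lies in the region of size `R` and satisfies one congruence modulo `p ^ K`. -/
def Reg (R : ℝ) (K : ℕ) (U : Finset (ℤ × ℤ)) : Prop :=
  (∀ u ∈ U, |(2 * u.1 + 1 : ℝ)| ≤ R * √(S.D : ℝ) ∧
    |(S.nn u.1 u.2 : ℝ)| ≤ R * S.D * √(S.Dt : ℝ)) ∧
  ((∃ t₀ : ℤ, ∀ u ∈ U, (p : ℤ) ^ K ∣ u.1 - t₀) ∨
    ∃ x y : ℤ, ∀ u ∈ U, (p : ℤ) ^ K ∣ S.nn u.1 u.2 - S.dl u.1 * x - y)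

theorem four_dl (t : ℤ) : 4 * S.dl t = S.D - (2 * t + 1) ^ 2 := by
  rw [dl, S.hd₀]; ring

theorem D_QQ (t k : ℤ) : S.D * S.QQ t k = S.nn t k ^ 2 - S.dl t ^ 2 * S.Dt := by
  rw [QQ, nn]
  linear_combination (-S.dl t ^ 2) * S.hm

theorem not_sq {n : ℕ} (h : Squarefree n) (h1 : 1 < n) {x y : ℤ} (hy : y ≠ 0) :
    x ^ 2 ≠ y ^ 2 * n := by
  intro e
  have e' : x.natAbs ^ 2 = y.natAbs ^ 2 * n := by
    have := congrArg Int.natAbs e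
    simpa [Int.natAbs_mul, Int.natAbs_pow] using this
  obtain ⟨z, hz⟩ : y.natAbs ∣ x.natAbs := (Nat.pow_dvd_pow_iff two_ne_zero).1 ⟨n, e'⟩
  rw [hz, mul_pow] at e'
  have hn : z ^ 2 = n := Nat.eq_of_mul_eq_mul_left (by positivity) e'
  have := h z ⟨1, by rw [← hn]; ring⟩
  rw [Nat.isUnit_iff] at this
  subst this
  omega

theorem dl_ne (t : ℤ) : S.dl t ≠ 0 := fun h => by
  have := S.four_dl t
  refine not_sq S.sqf.of_mul_left S.D_gt (x := 2 * t + 1) one_ne_zero ?_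
  rw [h] at this
  linarith

theorem QQ_ne (t k : ℤ) : S.QQ t k ≠ 0 := fun h => by
  have := S.D_QQ t k
  refine not_sq S.sqf.of_mul_right S.Dt_gt (x := S.nn t k) (S.dl_ne t) ?_
  rw [h] at this
  linarith

theorem G_nonneg {q : ℕ} (hq : q.Prime) (j : ℕ) (t k : ℤ) : 0 ≤ S.G q j t k := by
  unfold G
  split_ifs with h1 h2
  · norm_num
  · exact le_rfl
  · have : (1 : ℝ) ≤ S.a q := by exact_mod_cast S.a_pos q hq h2
    linarith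
  · positivity
  · positivity

theorem W_nonneg (t k : ℤ) : 0 ≤ S.W t k :=
  prod_nonneg fun _ hq => S.G_nonneg (Nat.prime_of_mem_primeFactors hq) _ _ _

end SD

/-- The sieve bound for the data with property `H`. -/
def DOn (H : ℕ → ℕ → Prop) : Prop :=
  ∀ (p : ℕ) (R : ℝ), p.Prime → p ≠ 2 → ∃ δ ε C : ℝ, 0 < δ ∧ 0 < ε ∧ 0 < C ∧
    ∀ K : ℕ, 2 ≤ K → ∃ D₀ : ℕ, ∀ S : SD p, D₀ ≤ S.D → H S.D S.Dt → ∀ U : Finset (ℤ × ℤ),
      S.Reg R K U → ∃ x : ℝ, S.X ^ δ ≤ x ∧ x ≤ S.X ∧ ∑ u ∈ U, S.W u.1 u.2 ≤ C * √S.X *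
        (Real.exp (tsumP (fun q => (S.a q : ℝ) - S.b q) x) * (p : ℝ) ^ (-(K : ℝ) / 2) +
          S.X ^ (-ε))

/-- The first regime. -/
def D1Stmt : Prop := DOn fun D Dt => D < Dt ^ 9

/-- The second regime. -/
def D2Stmt : Prop := DOn fun D Dt => Dt ^ 9 ≤ D

/-- The sieve bound. -/
def DStmt : Prop := DOn fun _ _ => True

theorem dstmt (h1 : D1Stmt) (h2 : D2Stmt) : DStmt := by
  intro p R hp hp2
  obtain ⟨δ₁, ε₁, C₁, a1, b1, c1, h1⟩ := h1 p R hp hp2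
  obtain ⟨δ₂, ε₂, C₂, a2, b2, c2, h2⟩ := h2 p R hp hp2
  refine ⟨min δ₁ δ₂, min ε₁ ε₂, max C₁ C₂, lt_min a1 a2, lt_min b1 b2, lt_max_of_lt_left c1,
    fun K hK => ?_⟩
  obtain ⟨D₁, h1⟩ := h1 K hK
  obtain ⟨D₂, h2⟩ := h2 K hK
  refine ⟨max D₁ D₂, fun S hS _ U hU => ?_⟩
  have hX : 1 ≤ S.X := by
    have := S.D_gt
    have := S.Dt_gt
    exact one_le_mul_of_one_le_of_one_le (by exact_mod_cast (by omega))
      (by exact_mod_cast (by omega))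
  rcases lt_or_ge S.D (S.Dt ^ 9) with h | h
  · obtain ⟨x, x1, x2, x3⟩ := h1 S (le_of_max_le_left hS) h U hU
    refine ⟨x, (Real.rpow_le_rpow_of_exponent_le hX (min_le_left _ _)).trans x1, x2,
      x3.trans ?_⟩
    gcongr
    · exact le_max_left _ _
    · exact min_le_left _ _
  · obtain ⟨x, x1, x2, x3⟩ := h2 S (le_of_max_le_right hS) h U hU
    refine ⟨x, (Real.rpow_le_rpow_of_exponent_le hX (min_le_right _ _)).trans x1, x2,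
      x3.trans ?_⟩
    gcongr
    · exact le_max_right _ _
    · exact min_le_right _ _

end Pool.Agent.Lib.MP_9177b7_ag.S4
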