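import Pool.Agent.Lib.MP_9177b7_ag.S4.Eqd
import Pool.Agent.Lib.MP_9177b7_ag.S4.StI
import Pool.Agent.Lib.MP_9177b7_ag.B.Slice1

/-!
Roots of quadratic congruences and local densities in two variables.
-/

open Finset Classical

noncomputable section

namespace Pool.Agent.Lib.MP_9177b7_ag.S4.D2

open B Eqd

lemma dv {q x y : ℤ} (h : q ∣ x) (e : y = x) : q ∣ y := e ▸ h

/-- The number of residues with a property. -/
def cn (M : ℕ) (P : ℤ → Prop) : ℝ := ∑ k ∈ range M, if P k then 1 else 0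

lemma cn_nonneg (M : ℕ) (P : ℤ → Prop) : 0 ≤ cn M P := sum_nonneg fun _ _ => by positivity

lemma cn_mono {M : ℕ} {P P' : ℤ → Prop} (h : ∀ k, P k → P' k) : cn M P ≤ cn M P' :=
  sum_le_sum fun k _ => by
    by_cases e : P k
    · simp [e, h k e]
    · rw [if_neg e]; positivity

lemma cn_card (M : ℕ) (P : ℤ → Prop) : cn M P = #((range M).filter fun k : ℕ => P k) := by
  rw [cn, sum_boole]

lemma cn_cls {M M' : ℕ} (hd : M ∣ M') (h0 : 0 < M') (k₁ : ℤ) :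
    cn M' (fun k => (M : ℤ) ∣ k - k₁) = M' / M := by
  obtain ⟨N, rfl⟩ := hd
  have hM : 0 < M := Nat.pos_of_mul_pos_right h0
  have hM' : (0 : ℤ) < M := by exact_mod_cast hM
  have h1 := Int.emod_lt_of_pos k₁ hM'
  have h2 := Int.emod_nonneg k₁ hM'.ne'
  have h3 := Int.mul_ediv_add_emod k₁ M
  rw [cn, blocks, sum_eq_single_of_mem (k₁ % M).toNat (mem_range.2 (by omega))]
  · rw [sum_congr rfl (g := fun _ => 1), sum_const, card_range]
    · push_cast
      field_simp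
      simp
    · intro i _
      rw [if_pos ⟨i - k₁ / M, by
        push_cast; rw [Int.toNat_of_nonneg h2]; linear_combination h3⟩]
  · intro r hr hne
    refine sum_eq_zero fun i _ => if_neg ?_
    rintro ⟨w, hw⟩
    refine hne ?_
    have h4 := mem_range.1 hr
    rw [show k₁ = r + M * (i - w) by push_cast at hw; linear_combination -hw,
      Int.add_mul_emod_self_left, Int.emod_eq_of_lt (by omega) (by omega)]
    simp

/-- A set contained in two residue classes. -/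
def Two (M : ℕ) (P : ℤ → Prop) : Prop :=
  ∃ k₁ k₂ : ℤ, ∀ k, P k → (M : ℤ) ∣ k - k₁ ∨ (M : ℤ) ∣ k - k₂

lemma Two.mono {M : ℕ} {P P' : ℤ → Prop} (h : Two M P') (h' : ∀ k, P k → P' k) : Two M P :=
  h.imp fun _ h => h.imp fun _ h k hk => h k (h' k hk)

lemma Two.le {M M' : ℕ} {P : ℤ → Prop} (h : Two M P) (hd : M ∣ M') (h0 : 0 < M') :
    cn M' P ≤ 2 * (M' / M) := by
  obtain ⟨k₁, k₂, h⟩ := h
  rw [two_mul]
  nth_rewrite 1 [← cn_cls hd h0 k₁]
  rw [← cn_cls hd h0 k₂, cn, cn, cn, ← sum_add_distrib]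
  refine sum_le_sum fun k _ => ?_
  by_cases e : P k
  · rcases h k e with h | h <;> simp only [e, h, if_true] <;> split_ifs <;> norm_num
  · rw [if_neg e]; positivity

lemma lin {M A : ℤ} (h : IsCoprime A M) (B : ℤ) : ∃ k₁, ∀ k, M ∣ A * k + B ↔ M ∣ k - k₁ := by
  obtain ⟨u, v, e⟩ := id h
  refine ⟨-(u * B), fun k => ?_⟩
  rw [show A * k + B = A * (k - -(u * B)) + M * (v * B) by linear_combination (-B) * e,
    dvd_add_left (dvd_mul_right _ _)]
  exact ⟨h.symm.dvd_of_dvd_mul_left, fun h => h.mul_left _⟩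

lemma cn_lin {M : ℕ} {A : ℤ} (h0 : 0 < M) (h : IsCoprime A M) (B : ℤ) :
    cn M (fun k => (M : ℤ) ∣ A * k + B) = 1 := by
  obtain ⟨k₁, e⟩ := lin h B
  simp only [e]
  rw [cn_cls dvd_rfl h0, div_self (by positivity)]

variable {q : ℕ}

lemma cop (hq : q.Prime) {A : ℤ} (h : ¬ (q : ℤ) ∣ A) (j : ℕ) : IsCoprime A ((q ^ j : ℕ) : ℤ) := by
  push_cast
  exact (((Nat.prime_iff_prime_int.1 hq).coprime_iff_not_dvd).2 h).symm.pow_right

lemma split (hq : q.Prime) {i j : ℕ} (h : 2 * i ≤ j + 1) {x y : ℤ} (hd : (q : ℤ) ^ j ∣ x * y) :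
    (q : ℤ) ^ i ∣ x ∨ (q : ℤ) ^ i ∣ y := by
  by_contra hn
  rw [not_or, ← emultiplicity_lt_iff_not_dvd, ← emultiplicity_lt_iff_not_dvd] at hn
  rw [pow_dvd_iff_le_emultiplicity, emultiplicity_mul (Nat.prime_iff_prime_int.1 hq)] at hd
  obtain ⟨h1, h2⟩ := hn
  generalize emultiplicity (q : ℤ) x = a at *
  generalize emultiplicity (q : ℤ) y = b at *
  lift a to ℕ using h1.ne_top
  lift b to ℕ using h2.ne_top
  norm_cast at h1 h2 hd
  omega

/-- Quadratic polynomials with unit leading coefficient. -/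
lemma R1 (hq : q.Prime) {A : ℤ} (hA : ¬ (q : ℤ) ∣ A) (B C : ℤ) {i j : ℕ} (h : 2 * i ≤ j + 1) :
    Two (q ^ i) fun k => (q : ℤ) ^ j ∣ A * k ^ 2 + B * k + C := by
  by_cases h0 : ∃ k, (q : ℤ) ^ j ∣ A * k ^ 2 + B * k + C
  · obtain ⟨k₁, h1⟩ := h0
    obtain ⟨k₂, h2⟩ := lin (cop hq hA i) (A * k₁ + B)
    refine ⟨k₁, k₂, fun k hk => ?_⟩
    rw [← h2]
    push_cast
    exact split hq h (dv (dvd_sub hk h1) (by ring))
  · exact ⟨0, 0, fun k hk => (h0 ⟨k, hk⟩).elim⟩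

/-- Quadratic polynomials with unit discriminant. -/
lemma R2 (hq : q.Prime) {A B C : ℤ} (hA : ¬ (q : ℤ) ∣ B ^ 2 - 4 * A * C) {j : ℕ} (hj : 1 ≤ j) :
    Two (q ^ j) fun k => (q : ℤ) ^ j ∣ A * k ^ 2 + B * k + C := by
  have hp := Nat.prime_iff_prime_int.1 hq
  by_cases h0 : ∃ k, (q : ℤ) ^ j ∣ A * k ^ 2 + B * k + C
  · obtain ⟨k₁, h1⟩ := h0
    have h3 : ¬ (q : ℤ) ∣ 2 * A * k₁ + B := fun h => hA (dv
      (dvd_sub (h.mul_left (2 * A * k₁ + B))
        (((dvd_pow_self _ (by omega)).trans h1).mul_left (4 * A))) (by ring))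
    have key : ∀ k, (q : ℤ) ^ j ∣ A * k ^ 2 + B * k + C →
        (q : ℤ) ^ j ∣ k - k₁ ∨ (q : ℤ) ^ j ∣ A * k + (A * k₁ + B) := fun k hk => by
      have h4 : (q : ℤ) ^ j ∣ (k - k₁) * (A * k + (A * k₁ + B)) :=
        dv (dvd_sub hk h1) (by ring)
      by_cases h5 : (q : ℤ) ∣ k - k₁
      · exact Or.inl (hp.pow_dvd_of_dvd_mul_right j
          (fun h6 => h3 (dv (dvd_sub h6 (h5.mul_left A)) (by ring))) h4)
      · exact Or.inr (hp.pow_dvd_of_dvd_mul_left j h5 h4)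
    by_cases h5 : (q : ℤ) ∣ A
    · refine ⟨k₁, k₁, fun k hk => Or.inl ?_⟩
      push_cast
      exact (key k hk).resolve_right fun h6 => h3 (dv
        (dvd_sub ((dvd_pow_self _ (by omega)).trans h6) (h5.mul_right (k - k₁))) (by ring))
    · obtain ⟨k₂, h2⟩ := lin (cop hq h5 j) (A * k₁ + B)
      refine ⟨k₁, k₂, fun k hk => ?_⟩
      rw [← h2]
      push_cast
      exact key k hk
  · exact ⟨0, 0, fun k hk => (h0 ⟨k, hk⟩).elim⟩

lemma den2 (M : ℕ) (f : (Fin 2 → ℤ) → ℝ) :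
    denN M f = (∑ t ∈ range M, ∑ k ∈ range M, f ![t, k]) / M ^ 2 := by
  simp only [B.SieveN.den_cons, B.SieveN.den_zero, ← sum_div]
  rw [div_div, ← sq]
  congr 1
  refine sum_congr rfl fun r _ => sum_congr rfl fun k _ => congrArg f ?_
  ext i
  fin_cases i <;> rfl

lemma den_ind (M : ℕ) (P : ℤ → ℤ → Prop) {_ : DecidablePred fun u : Fin 2 → ℤ => P (u 0) (u 1)} :
    denN M (fun u : Fin 2 → ℤ => if P (u 0) (u 1) then 1 else 0) =
      (∑ t ∈ range M, cn M (P t)) / M ^ 2 := by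
  rw [den2]
  simp [cn]

lemma sum_aff (M : ℕ) (x y : ℝ) (T : ℤ → Prop) {_ : ∀ t : ℕ, Decidable (T t)} :
    ∑ t ∈ range M, (x + y * if T t then 1 else 0) = M * x + y * cn M T := by
  rw [sum_add_distrib, sum_const, card_range, nsmul_eq_mul, ← mul_sum, cn]
  congr!

lemma cn_aff (hq : q.Prime) {P : ℤ → Prop} (hP : ∀ x y, (q : ℤ) ∣ x - y → P x → P y) (A : ℤ)
    {B : ℤ} (hB : ¬ (q : ℤ) ∣ B) : cn q (fun k => P (A + B * k)) ≤ cn q P := by
  have q1 : (0 : ℤ) < q := by exact_mod_cast hq.pos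
  rw [cn_card, cn_card]
  norm_cast
  refine card_le_card_of_injOn (fun x => ((A + B * x) % q).toNat) (fun x hx => ?_)
    fun x hx y hy hxy => ?_
  · have a1 := Int.emod_lt_of_pos (A + B * x) q1
    have a2 := Int.emod_nonneg (A + B * x) q1.ne'
    have a3 := Int.mul_ediv_add_emod (A + B * x) q
    simp only [coe_filter, mem_range, Set.mem_ofPred_eq] at hx ⊢
    rw [Int.toNat_of_nonneg a2]
    exact ⟨by omega, hP _ _ ⟨(A + B * x) / q, by linarith⟩ hx.2⟩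
  · simp only [coe_filter, mem_range, Set.mem_ofPred_eq] at hx hy hxy
    have a2 := Int.emod_nonneg (A + B * x) q1.ne'
    have a3 := Int.emod_nonneg (A + B * y) q1.ne'
    have a4 : (q : ℤ) ∣ A + B * y - (A + B * x) := Int.ModEq.dvd (show _ % _ = _ % _ by omega)
    have a6 := ((Nat.prime_iff_prime_int.1 hq).dvd_or_dvd
      (dv a4 (show B * (y - x) = _ by ring))).resolve_left hB
    have a7 := Int.eq_zero_of_abs_lt_dvd a6 (by rw [abs_lt]; omega)
    omega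

variable {p : ℕ} (S : SD p)

lemma nsq (hq : q.Prime) : ¬ (q : ℤ) * q ∣ S.D * S.Dt := fun h =>
  hq.ne_one (Nat.isUnit_iff.1 (S.sqf q (by exact_mod_cast h)))

lemma odd (hq : q.Prime) (h : (q : ℤ) ∣ S.D) : ¬ (q : ℤ) ∣ 2 := fun h2 =>
  (Nat.prime_iff_prime_int.1 hq).not_dvd_one
    (dv (dvd_sub h (h2.mul_right (2 * S.d₀))) (by rw [S.hd₀]; ring))

lemma ncop (hq : q.Prime) (h : (q : ℤ) ∣ S.D) : ¬ (q : ℤ) ∣ S.Dt := fun h2 =>
  nsq S hq (mul_dvd_mul h h2)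

lemma four (hq : q.Prime) (h : (q : ℤ) ∣ S.D) {x : ℤ} (hx : (q : ℤ) ∣ 4 * x) : (q : ℤ) ∣ x := by
  have hp := Nat.prime_iff_prime_int.1 hq
  exact (hp.dvd_or_dvd ((hp.dvd_or_dvd (dv hx (show 2 * (2 * x) = _ by ring))).resolve_left
    (odd S hq h))).resolve_left (odd S hq h)

lemma dl_iff (hq : q.Prime) (h : (q : ℤ) ∣ S.D) (t : ℤ) :
    (q : ℤ) ∣ S.dl t ↔ (q : ℤ) ∣ 2 * t + 1 :=
  ⟨fun h1 => (Nat.prime_iff_prime_int.1 hq).dvd_of_dvd_pow (n := 2)
    (dv (dvd_sub h (h1.mul_left 4)) (by rw [S.four_dl]; ring)), fun h1 => four S hq h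
    (dv (dvd_sub h (h1.mul_left (2 * t + 1))) (by rw [S.four_dl]; ring))⟩

lemma quo (hq : q.Prime) {D₁ : ℤ} (h : (S.D : ℤ) = q * D₁) : ¬ (q : ℤ) ∣ D₁ := fun h1 =>
  nsq S hq (by rw [h]; exact (mul_dvd_mul_left _ h1).mul_right _)

lemma good (hq : q.Prime) {t : ℤ} (ht : ¬ (q : ℤ) ∣ 2 * S.dl t) {j : ℕ} (hj : 1 ≤ j) :
    Two (q ^ j) fun k => (q : ℤ) ^ j ∣ S.QQ t k := by
  have hp := Nat.prime_iff_prime_int.1 hq
  by_cases h1 : (q : ℤ) ∣ S.Dt
  · rcases hj.eq_or_lt with rfl | hj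
    · exact R1 hq (fun h => ncop S hq h h1) _ _ le_rfl
    · refine ⟨0, 0, fun k hk => (ht ?_).elim⟩
      have h2 : (q : ℤ) ^ 2 ∣ S.QQ t k := (pow_dvd_pow _ hj).trans hk
      have h3 : (q : ℤ) ∣ S.nn t k := hp.dvd_of_dvd_pow (n := 2) (dv
        (dvd_add (((dvd_pow_self _ two_ne_zero).trans h2).mul_left S.D)
          (h1.mul_left (S.dl t ^ 2))) (by rw [S.D_QQ]; ring))
      have h4 : (q : ℤ) ^ 2 ∣ S.Dt * S.dl t ^ 2 :=
        dv (dvd_sub (pow_dvd_pow_of_dvd h3 2) (h2.mul_left S.D)) (by rw [S.D_QQ]; ring)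
      by_contra h5
      have h6 := hp.pow_dvd_of_dvd_mul_right 2
        (fun h => h5 ((hp.dvd_of_dvd_pow h).mul_left 2)) h4
      exact nsq S hq ((sq (q : ℤ) ▸ h6).mul_left _)
  · refine R2 hq (fun h => ?_) hj
    have h2 : (q : ℤ) ∣ S.Dt * (2 * S.dl t) ^ 2 :=
      dv h (by linear_combination (-4 * S.dl t ^ 2) * S.hm)
    exact ht (hp.dvd_of_dvd_pow ((hp.dvd_or_dvd h2).resolve_left h1))

lemma bad (hq : q.Prime) {t : ℤ} (ht : (q : ℤ) ∣ 2 * S.dl t) {j : ℕ} (hj : 1 ≤ j) :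
    Two (q ^ (j / 2)) fun k => (q : ℤ) ^ j ∣ S.QQ t k := by
  have hp := Nat.prime_iff_prime_int.1 hq
  by_cases h1 : (q : ℤ) ∣ S.D
  · obtain ⟨δ, h2⟩ := (hp.dvd_or_dvd ht).resolve_left (odd S hq h1)
    obtain ⟨D₁, h3⟩ := h1
    refine (R1 hq (quo S hq h3) (2 * S.c * δ) (S.m * q * δ ^ 2) (j := j - 1) (by omega)).mono
      fun k hk => ?_
    obtain ⟨i, rfl⟩ := Nat.exists_eq_add_of_le' hj
    rw [Nat.add_sub_cancel]
    refine (mul_dvd_mul_iff_right hp.ne_zero).1 ?_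
    rw [← pow_succ]
    exact dv hk (by rw [SD.QQ, h2, h3]; ring)
  · exact R1 hq h1 _ _ (by omega)

lemma twoT (hq : q.Prime) : Two q fun t => (q : ℤ) ∣ 2 * S.dl t := by
  have hp := Nat.prime_iff_prime_int.1 hq
  by_cases h2 : q = 2
  · subst h2
    exact ⟨0, 1, fun k _ => by push_cast; omega⟩
  · have := R1 hq (A := -1) (fun h => hp.not_dvd_one (dvd_neg.1 h)) (-1) S.d₀ (i := 1) (j := 1)
      le_rfl
    rw [pow_one] at this
    refine this.mono fun t ht => ?_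
    rw [pow_one]
    exact dv ((hp.dvd_or_dvd ht).resolve_left fun h => h2
      ((Nat.prime_dvd_prime_iff_eq hq Nat.prime_two).1 (by exact_mod_cast h)))
      (by rw [SD.dl]; ring)

lemma lev (hq : q.Prime) {j : ℕ} (hj : 1 ≤ j) :
    (∑ t ∈ range (q ^ j), cn (q ^ j) fun k => (q : ℤ) ^ j ∣ S.QQ t k) / ((q ^ j : ℕ) : ℝ) ^ 2
      ≤ 2 / q ^ j + 4 / (q * q ^ (j / 2)) := by
  have q0 : (0 : ℝ) < q := by exact_mod_cast hq.pos
  have h0 : 0 < q ^ j := pow_pos hq.pos j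
  have h1 := (twoT S hq).le (dvd_pow_self q (by omega : j ≠ 0)) h0
  have h2 : ∀ t ∈ range (q ^ j), (cn (q ^ j) fun k => (q : ℤ) ^ j ∣ S.QQ t k) ≤
      2 + 2 * (q ^ j / q ^ (j / 2)) * if (q : ℤ) ∣ 2 * S.dl t then 1 else 0 := fun t _ => by
    split_ifs with h
    · have := (bad S hq h hj).le (pow_dvd_pow q (Nat.div_le_self j 2)) h0
      push_cast at this
      linarith
    · have := (good S hq h hj).le dvd_rfl h0
      rw [div_self (by positivity)] at this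
      linarith
  have h3 := sum_le_sum h2
  rw [sum_aff _ _ _ fun t => (q : ℤ) ∣ 2 * S.dl t] at h3
  rw [div_le_iff₀ (by positivity)]
  refine h3.trans ?_
  push_cast at h1 ⊢
  calc _ ≤ (q : ℝ) ^ j * 2 + 2 * (q ^ j / q ^ (j / 2)) * (2 * (q ^ j / q)) := by gcongr
    _ = _ := by field_simp; ring

lemma one (hq : q.Prime) (h1 : (q : ℤ) ∣ S.D) {t : ℤ} (h : ¬ (q : ℤ) ∣ 2 * t + 1) :
    (cn q fun k => (q : ℤ) ∣ S.QQ t k) = 1 := by
  have hp := Nat.prime_iff_prime_int.1 hq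
  have h3 : ¬ (q : ℤ) ∣ 2 * S.c * S.dl t := fun h4 => by
    rcases hp.dvd_or_dvd h4 with h4 | h4
    · exact ncop S hq h1 (dv (dvd_sub
        (dvd_pow ((hp.dvd_or_dvd h4).resolve_left (odd S hq h1)) two_ne_zero) (h1.mul_right S.m))
        (by linear_combination -S.hm))
    · exact h ((dl_iff S hq h1 t).1 h4)
  rw [← cn_lin hq.pos (by simpa using cop hq h3 1) (S.m * S.dl t ^ 2)]
  simp only [SD.QQ, add_assoc, dvd_add_right (h1.mul_right _)]

lemma low (hq : q.Prime) :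
    (S.b q : ℝ) * q - 4 ≤ ∑ t ∈ range q, cn q fun k => (q : ℤ) ∣ S.QQ t k := by
  have hp := Nat.prime_iff_prime_int.1 hq
  have q0 : (0 : ℝ) < q := by exact_mod_cast hq.pos
  have b2 : (S.b q : ℝ) ≤ 2 := by exact_mod_cast S.b_le q hq
  by_cases h1 : (q : ℤ) ∣ S.D
  · have h2 : ∀ t ∈ range q, (1 + (q - 1) * if (q : ℤ) ∣ 2 * t + 1 then 1 else 0 : ℝ) ≤
        cn q fun k => (q : ℤ) ∣ S.QQ t k := fun t _ => by
      split_ifs with h
      · have h3 := (dl_iff S hq h1 t).2 h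
        have : ∀ k, (q : ℤ) ∣ S.QQ t k := fun k => dvd_add (dvd_add (h1.mul_right _)
          ((h3.mul_left _).mul_right _)) ((dvd_pow h3 two_ne_zero).mul_left _)
        simp [cn, this]
      · rw [one S hq h1 h, mul_zero, add_zero]
    have h3 := sum_le_sum h2
    rw [sum_aff _ _ _ fun t => (q : ℤ) ∣ 2 * t + 1,
      cn_lin hq.pos (by simpa using cop hq (odd S hq h1) 1)] at h3
    nlinarith
  by_cases h2 : q = 2
  · subst h2
    refine le_trans (by push_cast; linarith) (sum_nonneg fun _ _ => cn_nonneg _ _)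
  have h3 := S.b_root q hq fun h => (hq.dvd_mul.1 h).elim
    (fun h => h2 ((Nat.prime_dvd_prime_iff_eq hq Nat.prime_two).1 h))
    fun h => h1 (by exact_mod_cast h)
  obtain ⟨u, v, e⟩ : IsCoprime (S.D : ℤ) q := by simpa using cop hq h1 1
  have q1 : (0 : ℤ) < q := by exact_mod_cast hq.pos
  have h4 : ∀ t ∈ range q, (S.b q + -2 * if (q : ℤ) ∣ 2 * S.dl t then 1 else 0 : ℝ) ≤
      cn q fun k => (q : ℤ) ∣ S.QQ t k := fun t _ => by
    split_ifs with h
    · linarith [cn_nonneg q fun k => (q : ℤ) ∣ S.QQ t k]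
    rw [mul_zero, add_zero, cn_card]
    norm_cast
    refine h3.trans (card_le_card_of_injOn (fun x => (u * S.dl t * (x - S.c) % q).toNat)
      (fun x hx => ?_) fun x hx y hy hxy => ?_)
    · have a1 := Int.emod_lt_of_pos (u * S.dl t * (x - S.c)) q1
      have a2 := Int.emod_nonneg (u * S.dl t * (x - S.c)) q1.ne'
      have a3 := Int.mul_ediv_add_emod (u * S.dl t * (x - S.c)) q
      simp only [coe_filter, mem_range, Set.mem_ofPred_eq] at hx ⊢
      refine ⟨by omega, (hp.dvd_or_dvd (a := S.D) ?_).resolve_left h1⟩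
      rw [Int.toNat_of_nonneg a2, S.D_QQ]
      obtain ⟨w, hw⟩ : ∃ w, S.nn t (u * S.dl t * (x - S.c) % q) = S.dl t * x + q * w :=
        ⟨-(v * S.dl t * (x - S.c)) - S.D * (u * S.dl t * (x - S.c) / q), by
          rw [SD.nn]; linear_combination S.D * a3 + S.dl t * (x - S.c) * e⟩
      exact dv (dvd_add (hx.2.mul_left (S.dl t ^ 2))
        (dvd_mul_right (q : ℤ) (w * (2 * S.dl t * x + q * w)))) (by rw [hw]; ring)
    · simp only [coe_filter, mem_range, Set.mem_ofPred_eq] at hx hy hxy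
      have a2 := Int.emod_nonneg (u * S.dl t * (x - S.c)) q1.ne'
      have a3 := Int.emod_nonneg (u * S.dl t * (y - S.c)) q1.ne'
      have a4 : (q : ℤ) ∣ u * S.dl t * (y - S.c) - u * S.dl t * (x - S.c) :=
        Int.ModEq.dvd (show _ % _ = _ % _ by omega)
      have a5 : (q : ℤ) ∣ S.dl t * (y - x) := dv
        (dvd_add (a4.mul_left S.D) (dvd_mul_right (q : ℤ) (v * (S.dl t * (y - x)))))
        (by linear_combination (-(S.dl t * (y - x))) * e)
      have a6 := (hp.dvd_or_dvd a5).resolve_left fun h5 => h (h5.mul_left 2)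
      have a7 := Int.eq_zero_of_abs_lt_dvd a6 (by rw [abs_lt]; omega)
      omega
  have h5 := sum_le_sum h4
  rw [sum_aff _ _ _ fun t => (q : ℤ) ∣ 2 * S.dl t] at h5
  have h6 := (twoT S hq).le dvd_rfl hq.pos
  rw [div_self q0.ne'] at h6
  linarith

end Pool.Agent.Lib.MP_9177b7_ag.S4.D2
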