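import Pool.Agent.Lib.MP_9177b7_ag.S4.StB
import Pool.Agent.Lib.MP_9177b7_ag.S4.Rel
import Pool.Agent.Lib.MP_9177b7_ag.B.DensP

/-!
Density of the `p`-arithmetic group at `p` and at the real place.
-/

set_option autoImplicit false

open Matrix Topology

noncomputable section

namespace Pool.Agent.Lib.MP_9177b7_ag.S4

namespace Dens

variable {i j : Fin 4}

theorem ur_val {R : Type} [CommRing R] (h : i ≠ j) (s : R) (a b : Fin 4) :
    (ur h s).1.1 a b = (1 : M4 R) a b +
      ((if i = a ∧ j = b then s else 0) + if j + 2 = a ∧ i + 2 = b then cf R i j * s else 0) := by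
  rw [← D_ur h, D]
  ring

theorem cf_map {R S : Type} [CommRing R] [CommRing S] (f : R →+* S) (i j : Fin 4) :
    f (cf R i j) = cf S i j := by
  have e : ∀ i, f (sg R i) = sg S i := fun i => by fin_cases i <;> simp [sg]
  simp only [cf, apply_ite f, map_zero, map_neg, map_mul, e]

theorem ur_map {R S : Type} [CommRing R] [CommRing S] (f : R →+* S) (h : i ≠ j) (s : R) :
    (ur h s).1.1.map f = (ur h (f s)).1.1 := by
  ext a b
  simp only [map_apply, ur_val, one_apply, map_add, apply_ite f, map_one, map_zero, map_mul, cf_map]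

theorem cont {F : Type} [NormedField F] (h : i ≠ j) : Continuous fun s : F => ur h s := by
  refine continuous_induced_rng.2 (continuous_induced_rng.2 (continuous_matrix fun a b => ?_))
  change Continuous fun s : F => (ur h s).1.1 a b
  simp only [ur_val]
  split_ifs <;> fun_prop

theorem dense (hG : GenStmt) {F : Type} [NormedField F] (A : Subgroup (SP F)) {T : Set F}
    (hT : Dense T) (h : ∀ (i j : Fin 4) (h : i ≠ j), ∀ s ∈ T, ur h s ∈ A) :
    Dense (A : Set (SP F)) := by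
  have top := hG F A.topologicalClosure fun i j e s =>
    hT.induction (P := fun s => ur e s ∈ A.topologicalClosure)
      (fun s hs => subset_closure (h i j e s hs)) (isClosed_closure.preimage (cont e)) s
  exact fun x => top.ge (Subgroup.mem_top x)

variable {p : ℕ} [hp : Fact p.Prime]

theorem mem (hD : DiscStmt) (h : i ≠ j) {s : ℚ} (hs : s ∈ J.RM p) :
    ((ur h (s : ℚ_[p]), ur h (s : ℝ)) : GG p) ∈ Gp p := by
  have e1 : (ur h (s : ℚ_[p])).1.1 = (ur h s).1.1.map (Rat.castHom ℚ_[p]) :=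
    (ur_map (Rat.castHom ℚ_[p]) h s).symm
  have e2 : (ur h (s : ℝ)).1.1 = (ur h s).1.1.map (Rat.castHom ℝ) :=
    (ur_map (Rat.castHom ℝ) h s).symm
  have e3 : ∀ a b, (ur h s).1.1 a b ∈ J.RM p := fun a b => by
    have c : cf ℚ i j ∈ J.RM p := cf_map (J.RM p).subtype i j ▸ Subtype.property _
    rw [ur_val, one_apply]
    refine add_mem ?_ (add_mem ?_ ?_) <;> split_ifs <;>
      first | exact one_mem _ | exact zero_mem _ | exact hs | exact mul_mem c hs
  exact ((hD p).1 (ur h (s : ℚ_[p]), ur h (s : ℝ))).2 ⟨_, e3, e1, e2⟩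

theorem mem_RM (q : ℤ × ℕ) : (q.1 : ℚ) / (p : ℚ) ^ q.2 ∈ J.RM p :=
  ⟨q.2, q.1, div_mul_cancel₀ _ (pow_ne_zero _ (Nat.cast_ne_zero.2 hp.out.ne_zero))⟩

theorem dense_R : Dense {x : ℝ | ∃ r ∈ J.RM p, (r : ℝ) = x} := by
  have h1 : (1 : ℝ) < p := by exact_mod_cast hp.out.one_lt
  refine AddSubgroup.dense_of_not_isolated_zero ((J.RM p).toAddSubgroup.map
    (Rat.castHom ℝ).toAddMonoidHom) fun ε h => ?_
  obtain ⟨m, hm⟩ := exists_pow_lt_of_lt_one h (inv_lt_one_of_one_lt₀ h1)
  exact ⟨_, ⟨_, mem_RM (1, m), by simp⟩, by positivity, hm⟩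

end Dens

open Dens

theorem densP (hG : GenStmt) (hD : DiscStmt) : DensPStmt := by
  intro p _ h
  have hd := dense hG ((Gp p).map (MonoidHom.fst _ _)) (B.DensP.dense_zp (p := p)) (by
    rintro i j e _ ⟨q, rfl⟩
    exact ⟨_, mem hD e (mem_RM q), by simp⟩)
  obtain ⟨_, h1, γ, hγ, rfl⟩ := hd.inter_open_nonempty {g | Intg (h * g)}
    ((hD p).2.2.2.2.2.2.2.2.2.1.preimage (continuous_const_mul h))
    ⟨h⁻¹, by
      change Intg (h * h⁻¹)
      rw [mul_inv_cancel, intg_iff]
      simp [D_one]⟩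
  exact ⟨γ, hγ, h1⟩

theorem densR (hG : GenStmt) (hD : DiscStmt) : DensRStmt := by
  intro p _
  have hd := dense hG ((Gp p).map (MonoidHom.snd _ _)) (dense_R (p := p)) (by
    rintro i j e _ ⟨r, hr, rfl⟩
    exact ⟨_, mem hD e hr, rfl⟩)
  refine (dense_univ.prod hd).mono ?_
  rintro ⟨h, _⟩ ⟨-, γ, hγ, rfl⟩
  exact ⟨h * γ.1⁻¹, γ, hγ, Prod.ext (by simp) (by simp)⟩

end Pool.Agent.Lib.MP_9177b7_ag.S4
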