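import Pool.Agent.Lib.MP_9177b7_ag.S4.StA

/-!
Stabilisers in the quotient by an irreducible discrete subgroup.
-/

open Filter Topology Set

namespace Pool.Agent.Lib.MP_9177b7_ag.S4

theorem lift_cpt {G : Type} [Group G] [TopologicalSpace G] [IsTopologicalGroup G]
    [LocallyCompactSpace G] (Γ : Subgroup G) {Q : Set (G ⧸ Γ)} (hQ : IsCompact Q) :
    ∃ Q' : Set G, IsCompact Q' ∧ Q ⊆ QuotientGroup.mk '' Q' := by
  refine hQ.induction_on (p := fun Q => ∃ Q' : Set G, IsCompact Q' ∧ Q ⊆ QuotientGroup.mk '' Q')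
    ⟨∅, isCompact_empty, empty_subset _⟩ (fun s t h ⟨Q', a, b⟩ => ⟨Q', a, h.trans b⟩)
    (fun s t ⟨A, a, b⟩ ⟨B, c, d⟩ => ⟨A ∪ B, a.union c, by
      rw [image_union]; exact union_subset_union b d⟩) fun x _ => ?_
  obtain ⟨g, rfl⟩ := QuotientGroup.mk_surjective x
  obtain ⟨N, a, b⟩ := exists_compact_mem_nhds g
  exact ⟨_, mem_nhdsWithin_of_mem_nhds (QuotientGroup.isOpenMap_coe.image_mem_nhds b), N, a,
    subset_rfl⟩

theorem inj : InjStmt := by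
  intro H C _ _ _ _ _ _ _ _ _ _ Γ _ K hK hΓ Q hQ
  obtain ⟨Q', c1, c2⟩ := lift_cpt Γ hQ
  obtain ⟨W, w1, w2⟩ := exists_compact_mem_nhds (1 : C)
  have T1 : IsCompact ((fun q : (H × C) × (H × C) => q.1⁻¹ * q.2 * q.1) '' (Q' ×ˢ (K ×ˢ W))) :=
    (c1.prod (hK.prod w1)).image (by fun_prop)
  have F := Γ.tendsto_coe_cofinite_of_discrete (isDiscrete_iff_discreteTopology.2 inferInstance)
    T1.compl_mem_cocompact
  rw [mem_map, mem_cofinite, ← preimage_compl, compl_compl] at F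
  have B : IsClosed (⋃ γ ∈ {γ : Γ | γ ∈ (↑) ⁻¹' ((fun q : (H × C) × (H × C) => q.1⁻¹ * q.2 * q.1) ''
      (Q' ×ˢ (K ×ˢ W))) ∧ γ.1 ≠ 1}, (fun g : H × C => g.2 * γ.1.2 * g.2⁻¹) '' Q') :=
    (F.subset fun _ h => h.1).isClosed_biUnion fun γ _ => (c1.image (by fun_prop)).isClosed
  refine ⟨_, inter_mem w2 (B.isOpen_compl.mem_nhds fun h => ?_), fun x hx h hh c hc e => ?_⟩
  · obtain ⟨γ, a, g, -, b⟩ := mem_iUnion₂.1 h
    exact a.2 (hΓ _ γ.2 (conj_eq_one_iff.1 b))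
  obtain ⟨g, hg, rfl⟩ := c2 hx
  have m : g⁻¹ * ((h, c) : H × C) * g ∈ Γ := by
    rw [mul_assoc]
    exact QuotientGroup.eq.1 e.symm
  by_contra n
  refine hc.2 (mem_iUnion₂.2 ⟨⟨_, m⟩, ⟨⟨(g, (h, c)), ⟨hg, hh, hc.1⟩, rfl⟩, fun q => n ?_⟩, g, hg, ?_⟩)
  · have : ((h, c) : H × C) = 1 := by
      have q : g⁻¹ * ((h, c) : H × C) * g = 1 := q
      calc _ = g * (g⁻¹ * ((h, c) : H × C) * g) * g⁻¹ := by group
        _ = 1 := by rw [q]; group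
    exact congrArg Prod.fst this
  · change g.2 * (g.2⁻¹ * c * g.2) * g.2⁻¹ = c
    group

end Pool.Agent.Lib.MP_9177b7_ag.S4
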