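import Pool.Agent.Lib.MP_9177b7_ag.S4.StB
import Pool.Agent.Lib.MP_9177b7_ag.S4.Inj
import Pool.Agent.Lib.MP_9177b7_ag.B.Disc
import Pool.Agent.Lib.MP_9177b7_ag.J.Pol

/-!
Discreteness of the arithmetic groups and their integral points.
-/

open Matrix Topology

noncomputable section

namespace Pool.Agent.Lib.MP_9177b7_ag.S4

theorem det_stmt : DetStmt := by
  intro R _ γ h
  have d : γ.det = 1 := by
    have e := fun a b => congrFun (congrFun h a) b
    have e01 := e 0 1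
    have e23 := e 2 3
    have e02 := e 0 2
    have e13 := e 1 3
    have e03 := e 0 3
    have e12 := e 1 2
    simp [J4, Matrix.mul_apply, Fin.sum_univ_four] at e01 e23 e02 e13 e03 e12
    have k1 := congrArg₂ (· * ·) e01 e23
    have k2 := congrArg₂ (· * ·) e02 e13
    have k3 := congrArg₂ (· * ·) e03 e12
    rw [det_succ_row_zero]
    simp [Fin.sum_univ_succ, det_fin_three, Fin.succAbove, submatrix_apply]
    linear_combination k2 - k1 - k3
  exact ⟨d, SP.mul_transpose ⟨⟨γ, d⟩, h⟩⟩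

namespace Disc

theorem J4_map {R S : Type} [CommRing R] [CommRing S] (f : R →+* S) : (J4 R).map f = J4 S := by
  ext i j
  fin_cases i <;> fin_cases j <;> simp [J4]

theorem sp_map {R S : Type} [CommRing R] [CommRing S] (f : R →+* S) {γ : M4 R}
    (h : γᵀ * J4 R * γ = J4 R) : (γ.map f)ᵀ * J4 S * γ.map f = J4 S := by
  have := congrArg (·.map f) h
  simpa only [Matrix.map_mul, J4_map, transpose_map] using this

theorem sp_of_map {R S : Type} [CommRing R] [CommRing S] (f : R →+* S)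
    (hf : Function.Injective f) {γ : M4 R} (h : (γ.map f)ᵀ * J4 S * γ.map f = J4 S) :
    γᵀ * J4 R * γ = J4 R := by
  refine Matrix.map_injective hf ?_
  simpa only [Matrix.map_mul, J4_map, transpose_map] using h

/-- The symplectic element with a given matrix. -/
def mkS {R : Type} [CommRing R] (γ : M4 R) (h : γᵀ * J4 R * γ = J4 R) : SP R :=
  ⟨⟨γ, (det_stmt R γ h).1⟩, h⟩

variable {p : ℕ} [Fact p.Prime]

theorem intg_one : Intg (1 : HQ p) := B.Disc.Intg.one (n := 1)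

theorem intg_mul {g h : HQ p} (a : Intg g) (b : Intg h) : Intg (g * h) :=
  B.Disc.Intg.mul (n := 1) (h := g.1) (h' := h.1) a b

theorem intg_inv {g : HQ p} (a : Intg g) : Intg g⁻¹ := B.Disc.Intg.inv (n := 1) (h := g.1) a

theorem isOpen_intg : IsOpen {h : HQ p | Intg h} :=
  (B.Disc.isOpen_intg (n := 1) (p := p)).preimage continuous_subtype_val

theorem isCompact_intg : IsCompact {h : HQ p | Intg h} :=
  (spClosed ℚ_[p]).isClosedEmbedding_subtypeVal.isCompact_preimage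
    (B.Disc.isCompact_intg (n := 1) (p := p))

theorem mem_Gp (g : GG p) : g ∈ Gp p ↔ ∃ γ : M4 ℚ, (∀ i j, γ i j ∈ J.RM p) ∧
    g.1.1.1 = γ.map (Rat.castHom ℚ_[p]) ∧ g.2.1.1 = γ.map (Rat.castHom ℝ) := by
  constructor
  · rintro ⟨s, e⟩
    exact ⟨s.1.map (J.RM p).subtype, fun i j => (s.1 i j).2,
      (congrArg (fun x => x.1.1) e).symm, (congrArg (fun x => x.2.1) e).symm⟩
  · rintro ⟨γ, h, e1, e2⟩
    obtain ⟨s, e, e3⟩ := B.Disc.mem_range ((Rat.castHom ℚ_[p]).comp (J.RM p).subtype)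
      ((Rat.castHom ℚ_[p]).injective.comp Subtype.val_injective) g.1.1
      (Matrix.of fun i j => ⟨γ i j, h i j⟩) e1
    refine ⟨s, Prod.ext e3 (Subtype.ext ?_)⟩
    show s.1.map _ = g.2.1.1
    rw [e, e2]
    rfl

theorem mem_G1 (g : SP ℝ) : g ∈ G1 ↔ ∃ γ : M4 ℤ, g.1.1 = γ.map (Int.castRingHom ℝ) := by
  constructor
  · rintro ⟨s, e⟩
    exact ⟨s.1, (congrArg Subtype.val e).symm⟩
  · rintro ⟨γ, e⟩
    obtain ⟨s, -, e'⟩ := B.Disc.mem_range (Int.castRingHom ℝ) Int.cast_injective g.1 γ e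
    exact ⟨s, e'⟩

theorem int_of {x : ℚ} (hx : x ∈ J.RM p) (h : ‖(x : ℚ_[p])‖ ≤ 1) : ∃ z : ℤ, x = z := by
  obtain ⟨k, z, e⟩ := hx
  have hp : (p : ℚ) ≠ 0 := Nat.cast_ne_zero.2 (Fact.out : p.Prime).ne_zero
  have e' : (z : ℚ_[p]) = x * (p : ℚ_[p]) ^ k := by exact_mod_cast congrArg (Rat.cast (K := ℚ_[p])) e.symm
  have h1 : ‖(z : ℚ_[p])‖ ≤ (p : ℝ) ^ (-(k : ℤ)) := by
    rw [e', norm_mul, Padic.norm_p_pow]
    exact mul_le_of_le_one_left (by positivity) h
  obtain ⟨w, rfl⟩ := (Padic.norm_int_le_pow_iff_dvd z k).1 h1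
  refine ⟨w, mul_right_cancel₀ (pow_ne_zero k hp) ?_⟩
  rw [e]
  push_cast
  ring

theorem isOpen_near : IsOpen {g : SP ℝ | ∀ i j, |g.1.1 i j - (1 : M4 ℝ) i j| < 1} := by
  rw [Set.ofPred_forall]
  refine isOpen_iInter_of_finite fun i => ?_
  rw [Set.ofPred_forall]
  refine isOpen_iInter_of_finite fun j => isOpen_lt ?_ continuous_const
  have h : Continuous fun g : SP ℝ => g.1.1 := continuous_subtype_val.comp continuous_subtype_val
  exact ((h.matrix_elem i j).sub continuous_const).abs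

theorem eq_one {g : SP ℝ} (hg : g ∈ G1) (h : ∀ i j, |g.1.1 i j - (1 : M4 ℝ) i j| < 1) : g = 1 := by
  obtain ⟨γ, e⟩ := (mem_G1 g).1 hg
  refine Subtype.ext (Subtype.ext (Matrix.ext fun i j => ?_))
  have h1 := h i j
  have e1 : g.1.1 i j - (1 : M4 ℝ) i j = ((γ i j - (1 : M4 ℤ) i j : ℤ) : ℝ) := by
    rw [e, one_apply, one_apply]
    split_ifs <;> simp
  rw [e1, ← Int.cast_abs] at h1
  have h2 : γ i j - (1 : M4 ℤ) i j = 0 := Int.abs_lt_one_iff.1 (by exact_mod_cast h1)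
  rw [h2, Int.cast_zero] at e1
  exact sub_eq_zero.1 e1

theorem snd_G1 {g : GG p} (hg : g ∈ Gp p) (hi : Intg g.1) : g.2 ∈ G1 := by
  obtain ⟨γ, h, e1, e2⟩ := (mem_Gp g).1 hg
  choose z hz using fun i j => int_of (h i j) (by
    have := hi i j
    rwa [show g.1.1 i j = (γ i j : ℚ_[p]) from congrFun (congrFun e1 i) j] at this)
  refine (mem_G1 _).2 ⟨Matrix.of z, e2.trans (Matrix.ext fun i j => ?_)⟩
  simp [hz]

theorem irr {g : GG p} (hg : g ∈ Gp p) (e : g.2 = 1) : g = 1 := by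
  obtain ⟨γ, -, e1, e2⟩ := (mem_Gp g).1 hg
  have e3 : γ = 1 := by
    refine Matrix.map_injective (Rat.castHom ℝ).injective ?_
    show γ.map _ = Matrix.map 1 _
    rw [← e2, e, Matrix.map_one _ (map_zero _) (map_one _)]
    rfl
  refine Prod.ext (Subtype.ext (Subtype.ext ?_)) e
  rw [e1, e3, Matrix.map_one _ (map_zero _) (map_one _)]
  rfl

instance discGp : DiscreteTopology (Gp p) := by
  refine discreteTopology_of_isOpen_singleton_one ?_
  convert (isOpen_intg.prod isOpen_near).preimage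
    (continuous_subtype_val (p := fun g => g ∈ Gp p)) using 1
  ext g
  constructor
  · rintro rfl
    exact ⟨intg_one, fun i j => by simp⟩
  · rintro ⟨h1, h2⟩
    exact Subtype.ext (irr g.2 (eq_one (snd_G1 g.2 h1) h2))

instance discG1 : DiscreteTopology G1 := by
  refine discreteTopology_of_isOpen_singleton_one ?_
  convert isOpen_near.preimage (continuous_subtype_val (p := fun g => g ∈ G1)) using 1
  ext g
  constructor
  · rintro rfl
    exact fun i j => by simp
  · exact fun h => Subtype.ext (eq_one g.2 h)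

end Disc

open Disc in
theorem disc : DiscStmt := by
  intro p _
  refine ⟨mem_Gp, fun γ h u => ⟨(mkS _ (sp_map _ u), mkS _ (sp_map _ u)),
    (mem_Gp _).2 ⟨γ, h, rfl, rfl⟩, rfl, rfl⟩, mem_G1, fun x => int_of, fun g => snd_G1,
    fun g hg => ?_, fun g h => intg_mul, fun g => intg_inv, isCompact_intg, isOpen_intg,
    inferInstance, inferInstance, J.pol _ _, J.pol _ _,
    inj _ _ (Gp p) _ isCompact_intg fun γ => irr⟩
  obtain ⟨γ, e⟩ := (mem_G1 g).1 hg
  have u : γᵀ * J4 ℤ * γ = J4 ℤ := sp_of_map (Int.castRingHom ℝ) Int.cast_injective (e ▸ g.2)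
  refine ⟨mkS _ (sp_map (Int.castRingHom ℚ_[p]) u), fun i j => Padic.norm_int_le_one (γ i j),
    (mem_Gp _).2 ⟨γ.map (Int.castRingHom ℚ), fun i j => ⟨0, γ i j, by simp⟩, ?_, ?_⟩⟩
  · ext i j
    simp [mkS]
  · rw [e]
    ext i j
    simp

end Pool.Agent.Lib.MP_9177b7_ag.S4
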