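import Pool.Agent.Lib.MP_786755_nt.Tools
import Pool.Agent.Lib.MP_9177b7_ag.B.SieveN

/-!
Equidistribution in residue classes of a smoothed neighbourhood of a parabola.
-/

open Finset Pool.Agent.Lib.MP_028aa5_nt Pool.Agent.Lib.MP_786755_nt

noncomputable section

namespace Pool.Agent.Lib.MP_9177b7_ag.S4

/-- The value `c (d₀ - t² - t) + D k` at `u = (t, k)`. -/
def nn (c d0 : ℤ) (D : ℕ) (u : Fin 2 → ℤ) : ℤ := c * (d0 - u 0 ^ 2 - u 0) + D * u 1

/-- A trapezoid weight. -/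
def Wt (D K1 : ℕ) (B0 n : ℤ) : ℝ :=
  (#((range D).filter fun j : ℕ => B0 ≤ n - j ∧ n - j < B0 + K1 * D) : ℝ) / D

/-- Equidistribution of the weight in classes to small moduli. -/
def EqdStmt : Prop :=
  ∀ R : ℝ, ∃ D0 : ℕ, ∀ (D Dt K1 T M : ℕ) (c d0 a B0 : ℤ) (S : Finset (Fin 2 → ℤ))
    (f : (Fin 2 → ℤ) → ℝ), D0 ≤ D → ¬ IsSquare Dt → Dt ^ 9 ≤ D → (D : ℤ) ∣ c ^ 2 - Dt → 1 ≤ K1 →
    √(D : ℝ) ≤ T → (T : ℝ) ≤ R * √(D : ℝ) → 1 ≤ M → (M : ℝ) ≤ (D : ℝ) ^ (1 / 200 : ℝ) →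
    (∀ u, u ∈ S ↔ a ≤ u 0 ∧ u 0 < a + T ∧ B0 ≤ nn c d0 D u ∧ nn c d0 D u < B0 + (K1 + 1) * D) →
    (∀ u, |f u| ≤ 1) → (∀ u v, B.CgN M u v → f u = f v) →
    |∑ u ∈ S, Wt D K1 B0 (nn c d0 D u) * f u - K1 * T * B.denN M f| ≤
      K1 * T * ((D : ℝ) ^ (1 / 200 : ℝ)) ^ (-3 : ℝ)

theorem Wt_nonneg (D K1 : ℕ) (B0 n : ℤ) : 0 ≤ Wt D K1 B0 n := by
  unfold Wt
  positivity

theorem Wt_le_one (D K1 : ℕ) (B0 n : ℤ) : Wt D K1 B0 n ≤ 1 := by
  unfold Wt
  refine div_le_one_of_le₀ ?_ (Nat.cast_nonneg _)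
  exact_mod_cast (card_filter_le _ _).trans (card_range D).le

theorem Wt_eq_one {D K1 : ℕ} {B0 n : ℤ} (hD : 0 < D) (h1 : B0 + D - 1 ≤ n)
    (h2 : n < B0 + K1 * D) : Wt D K1 B0 n = 1 := by
  unfold Wt
  rw [filter_true_of_mem, card_range, div_self (by positivity)]
  intro j hj
  have := mem_range.1 hj
  constructor <;> omega

/-- The region of `EqdStmt` is finite. -/
theorem exists_region {D : ℕ} (hD : 0 < D) (K1 T : ℕ) (c d0 a B0 : ℤ) :
    ∃ S : Finset (Fin 2 → ℤ), ∀ u, u ∈ S ↔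
      a ≤ u 0 ∧ u 0 < a + T ∧ B0 ≤ nn c d0 D u ∧ nn c d0 D u < B0 + (K1 + 1) * D := by
  classical
  refine ⟨(((Ico a (a + T) ×ˢ Ico B0 (B0 + (K1 + 1) * D)).image
    fun x => ![x.1, (x.2 - c * (d0 - x.1 ^ 2 - x.1)) / D]).filter fun u =>
      a ≤ u 0 ∧ u 0 < a + T ∧ B0 ≤ nn c d0 D u ∧ nn c d0 D u < B0 + (K1 + 1) * D),
    fun u => ⟨fun h => (mem_filter.1 h).2, fun h => mem_filter.2 ⟨mem_image.2
      ⟨(u 0, nn c d0 D u), by simpa using ⟨⟨h.1, h.2.1⟩, h.2.2⟩, ?_⟩, h⟩⟩⟩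
  ext i
  fin_cases i
  · simp
  · simp only [nn, add_sub_cancel_left]
    simp [Int.mul_ediv_cancel_left _ (show (D : ℤ) ≠ 0 by positivity)]

namespace Eqd

lemma e_nat (n : ℕ) (x : ℝ) : e (n * x) = e x ^ n := by
  induction n with
  | zero => simp
  | succ n ih => rw [Nat.cast_succ, add_mul, one_mul, e_add, ih, pow_succ]

lemma orth {Q : ℕ} (hQ : 0 < Q) (L z : ℤ) :
    ∑ h ∈ range Q, e ((((h : ℤ) - L : ℤ) : ℝ) * z / Q) = if (Q : ℤ) ∣ z then (Q : ℂ) else 0 := by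
  have hQ' : (Q : ℝ) ≠ 0 := by positivity
  split_ifs with hz
  · obtain ⟨w, rfl⟩ := hz
    rw [sum_congr rfl (g := fun _ => 1), sum_const, card_range, nsmul_eq_mul, mul_one]
    intro h _
    rw [← e_int (((h : ℤ) - L) * w)]
    congr 1
    push_cast
    field_simp
  · have h1 : ∀ h ∈ range Q, e ((((h : ℤ) - L : ℤ) : ℝ) * z / Q) =
        e (-(L * z / Q)) * e (z / Q) ^ h := by
      intro h _
      rw [← e_nat, ← e_add]
      congr 1
      push_cast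
      ring
    have h2 : e (z / Q) - 1 ≠ 0 := by
      intro h0
      have h3 := le_norm_e_sub_one (abs_sub_round ((z : ℝ) / Q))
      rw [e_sub_int, h0, norm_zero] at h3
      have h4 : (z : ℝ) / Q - round ((z : ℝ) / Q) = 0 := by
        rw [← abs_eq_zero]
        linarith [abs_nonneg ((z : ℝ) / Q - round ((z : ℝ) / Q))]
      rw [sub_eq_zero, div_eq_iff hQ'] at h4
      exact hz ⟨round ((z : ℝ) / Q), by rw [mul_comm]; exact_mod_cast h4⟩
    have h5 := geom_sum_mul (e (z / Q)) Q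
    rw [← e_nat, mul_div_cancel₀ _ hQ', e_int, sub_self] at h5
    rw [sum_congr rfl h1, ← mul_sum, (mul_eq_zero.1 h5).resolve_right h2, mul_zero]

lemma geo {θ : ℝ} (h0 : θ ≠ 0) (h1 : |θ| ≤ 1 / 2) (L : ℕ) :
    ‖∑ m ∈ range L, e (m * θ)‖ ≤ 1 / (2 * |θ|) := by
  have h2 := congrArg norm (geom_sum_mul (e θ) L)
  have h3 := le_norm_e_sub_one h1
  have h4 : ‖e θ ^ L - 1‖ ≤ 2 := (norm_sub_le _ _).trans (by simp; norm_num)
  have h5 : 0 < |θ| := abs_pos.2 h0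
  simp only [e_nat]
  rw [norm_mul] at h2
  rw [le_div_iff₀ (by positivity)]
  nlinarith [norm_nonneg (∑ m ∈ range L, e θ ^ m)]

lemma dioph {D Dt : ℕ} {c m : ℤ} (hD : 0 < D) (hs : ¬ IsSquare Dt) (hc : (D : ℤ) ∣ c ^ 2 - Dt)
    (hm : m ≠ 0) : ∃ (q : ℕ) (r : ℤ), 1 ≤ q ∧ IsCoprime r q ∧
      |(m * c / D : ℝ) - r / q| ≤ 1 / (q : ℝ) ^ 2 ∧ q ^ 2 ≤ D ∧ (D : ℤ) ≤ (m * q) ^ 2 * Dt := by
  obtain ⟨ρ, h1, h2⟩ := Real.exists_rat_abs_sub_le_and_den_le (m * c / D : ℝ)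
    (Nat.sqrt_pos.2 hD)
  rw [Rat.cast_def] at h1
  have hq : (0 : ℝ) < ρ.den := by exact_mod_cast ρ.pos
  have hD' : (0 : ℝ) < D := by exact_mod_cast hD
  have h3 : (ρ.den : ℝ) ≤ Nat.sqrt D := by exact_mod_cast h2
  have h4 : (D : ℝ) < (Nat.sqrt D + 1) ^ 2 := by exact_mod_cast Nat.lt_succ_sqrt' D
  refine ⟨ρ.den, ρ.num, ρ.pos, ?_, h1.trans ?_, ?_, ?_⟩
  · exact Int.isCoprime_iff_gcd_eq_one.2 ρ.reduced
  · rw [sq]
    gcongr
    linarith
  · exact (Nat.pow_le_pow_left h2 2).trans (Nat.sqrt_le' D)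
  · obtain ⟨b, hb⟩ : ∃ b : ℤ, b = m * ρ.den * c - ρ.num * D := ⟨_, rfl⟩
    have h5 : |(b : ℝ)| * (Nat.sqrt D + 1) ≤ D := by
      have : (b : ℝ) = D * ρ.den * ((m * c / D : ℝ) - ρ.num / ρ.den) := by
        rw [hb]
        push_cast
        field_simp
      rw [this, abs_mul, abs_of_pos (mul_pos hD' hq)]
      rw [le_div_iff₀ (by positivity)] at h1
      nlinarith
    have h6 : b ^ 2 < D := by
      have h7 : (|(b : ℝ)| * (Nat.sqrt D + 1)) ^ 2 ≤ (D : ℝ) ^ 2 := by gcongr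
      rw [mul_pow, sq_abs] at h7
      have : (b : ℝ) ^ 2 < D := by
        by_contra h8
        push Not at h8
        nlinarith
      exact_mod_cast this
    have h8 : (D : ℤ) ∣ (m * ρ.den) ^ 2 * Dt - b ^ 2 := by
      obtain ⟨k, hk⟩ := hc
      exact ⟨-((m * ρ.den) ^ 2 * k) + 2 * m * ρ.den * c * ρ.num - ρ.num ^ 2 * D, by
        rw [hb]; linear_combination (-(m * (ρ.den : ℤ)) ^ 2) * hk⟩
    have h9 : (m * ρ.den) ^ 2 * Dt - b ^ 2 ≠ 0 := by
      intro h0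
      have ha : (m * ρ.den : ℤ) ≠ 0 := mul_ne_zero hm (by exact_mod_cast ρ.den_nz)
      obtain ⟨k, hk⟩ := (Int.pow_dvd_pow_iff two_ne_zero).1
        (⟨Dt, by linarith⟩ : (m * ρ.den) ^ 2 ∣ b ^ 2)
      rw [hk, mul_pow _ k, ← mul_sub, mul_eq_zero, sub_eq_zero] at h0
      have h10 := h0.resolve_left (pow_ne_zero 2 ha)
      exact hs (Int.isSquare_natCast_iff.1 ⟨k, by rw [h10, sq]⟩)
    have h10 := Int.le_of_dvd (abs_pos.2 h9) ((dvd_abs _ _).2 h8)
    have h11 : 0 ≤ (m * ρ.den) ^ 2 * (Dt : ℤ) := by positivity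
    rcases abs_choice ((m * ρ.den) ^ 2 * (Dt : ℤ) - b ^ 2) with h | h <;> rw [h] at h10 <;>
      nlinarith [sq_nonneg b]

lemma weyl2 {β : ℝ} (γ δ : ℝ) {q : ℕ} {r : ℤ} (hq : 1 ≤ q) (hr : IsCoprime r q)
    (hβ : |2 * β - r / q| ≤ 1 / (q : ℝ) ^ 2) (N : ℕ) :
    ‖∑ i ∈ range N, e (β * i ^ 2 + γ * i + δ)‖ ^ 2 ≤
      N + 4 * ((2 * N / q + 1) * (3 * N + 4 * q * (1 + Real.log q))) := by
  set u : ℕ → ℝ := fun n => β * (n - 1) ^ 2 + γ * (n - 1) + δ with hu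
  have h1 : ∑ i ∈ range N, e (β * i ^ 2 + γ * i + δ) = ∑ n ∈ Ioc 0 N, e (u n) := by
    rw [show Ioc 0 N = Ico 1 (N + 1) by ext; simp; omega, sum_Ico_eq_sum_range]
    simp [hu]
  have h2 := vdC u (a := 0) (b := N) (N := N) (by omega)
  have h3 := vino_sum hq hr hβ (Nat.cast_nonneg N) N
  have h4 : ∀ h ∈ Icc 1 N, ‖∑ n ∈ Ioc 0 (N - h), e (u (n + h) - u n)‖ ≤
      2 * gm N (h * (2 * β)) := fun h _ =>
    geom_gm (fun n => u (n + h) - u n) (fun n => by simp only [hu]; push_cast; ring)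
      (Nat.cast_nonneg N) (by simp)
  have h5 := sum_le_sum h4
  rw [← mul_sum] at h5
  rw [h1]
  linarith

lemma harm {Q L : ℕ} (hL : L ≤ Q) :
    ∑ h ∈ (range Q).erase L, 1 / |(((h : ℤ) - L : ℤ) : ℝ)| ≤ 2 * (1 + Real.log Q) := by
  have key : ∀ A : Finset ℕ, A ⊆ (range Q).erase L →
      Set.InjOn (fun h : ℕ => ((h : ℤ) - L).natAbs) A →
      ∑ h ∈ A, 1 / |(((h : ℤ) - L : ℤ) : ℝ)| ≤ 1 + Real.log Q := by
    intro A hA hi
    refine le_trans ?_ (sum_inv_le_log Q)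
    have h1 : ∑ h ∈ A, 1 / |(((h : ℤ) - L : ℤ) : ℝ)| =
        ∑ j ∈ A.image fun h : ℕ => ((h : ℤ) - L).natAbs, (1 / j : ℝ) := by
      rw [sum_image hi]
      refine sum_congr rfl fun h _ => ?_
      rw [Nat.cast_natAbs, Int.cast_abs]
    rw [h1]
    refine sum_le_sum_of_subset_of_nonneg (fun j hj => ?_) fun _ _ _ => by positivity
    obtain ⟨h, hh, rfl⟩ := mem_image.1 hj
    have := hA hh
    simp only [mem_erase, mem_range, mem_Icc] at this ⊢
    omega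
  rw [← sum_filter_add_sum_filter_not _ (· < L), two_mul]
  refine add_le_add (key _ (filter_subset _ _) ?_) (key _ (filter_subset _ _) ?_) <;>
  · intro x hx y hy h
    simp only [coe_filter, Set.mem_ofPred_eq] at hx hy h
    omega

/-- The periodised weight. -/
def P (D K1 M : ℕ) (z : ℤ) : ℝ :=
  (∑ m ∈ range (K1 * D), ∑ j ∈ range D, if ((D * M : ℕ) : ℤ) ∣ z - m - j then 1 else 0) / D

lemma per {ι : Type*} (I : Finset ι) (z : ι → ℤ) {D M : ℕ} (K1 : ℕ) (hD : 0 < D) (hM : 0 < M)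
    {W : ℝ} (hW0 : 0 ≤ W)
    (hW : ∀ h : ℤ, h ≠ 0 → ‖∑ i ∈ I, e (h * z i / (D * M : ℕ))‖ ≤ |(h : ℝ)| * W) :
    |∑ i ∈ I, P D K1 M (z i) - #I * K1 / M| ≤ M * (1 + Real.log (D * M : ℕ)) * W := by
  obtain ⟨Q, hQ⟩ : ∃ Q, Q = D * M := ⟨_, rfl⟩
  have hQ0 : 0 < Q := hQ ▸ Nat.mul_pos hD hM
  have hQr : (Q : ℝ) = D * M := by rw [hQ, Nat.cast_mul]
  have hQc : (Q : ℂ) = D * M := by rw [hQ, Nat.cast_mul]
  have hD' : (0 : ℝ) < D := by exact_mod_cast hD
  have hM' : (0 : ℝ) < M := by exact_mod_cast hM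
  have hQ' : (0 : ℝ) < Q := by exact_mod_cast hQ0
  unfold P
  rw [← hQ] at hW ⊢
  set L := Q / 2 with hL
  set g : ℕ → ℤ := fun h => (h : ℤ) - L with hg
  set t : ℕ → ℂ := fun h => (∑ i ∈ I, e (g h * z i / Q)) *
    ((∑ m ∈ range (K1 * D), e (m * (-(g h) / Q))) * ∑ j ∈ range D, e (j * (-(g h) / Q))) with ht
  have h1 : ∑ h ∈ range Q, t h = ∑ i ∈ I, ∑ m ∈ range (K1 * D), ∑ j ∈ range D,
      if (Q : ℤ) ∣ z i - m - j then (Q : ℂ) else 0 := by
    have h0 : ∀ h, t h = ∑ i ∈ I, ∑ m ∈ range (K1 * D), ∑ j ∈ range D,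
        e ((g h : ℝ) * ((z i - m - j : ℤ) : ℝ) / Q) := by
      intro h
      simp only [ht]
      rw [sum_mul_sum (range _), sum_mul]
      refine sum_congr rfl fun i _ => ?_
      rw [mul_sum]
      refine sum_congr rfl fun m _ => ?_
      rw [mul_sum]
      refine sum_congr rfl fun j _ => ?_
      rw [← e_add, ← e_add]
      congr 1
      push_cast
      ring
    simp only [h0, ← orth hQ0 L]
    rw [sum_comm]
    refine sum_congr rfl fun i _ => ?_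
    rw [sum_comm]
    exact sum_congr rfl fun m _ => sum_comm
  have h2 : t L = #I * ((K1 * D : ℕ) * D) := by simp [ht, hg]
  have h3 : ∀ h ∈ (range Q).erase L, ‖t h‖ ≤ W * Q ^ 2 / 4 * (1 / |(g h : ℝ)|) := by
    intro h hh
    simp only [mem_erase, mem_range] at hh
    have g0 : g h ≠ 0 := by simp only [hg]; omega
    have g1 : 0 < |(g h : ℝ)| := abs_pos.2 (by exact_mod_cast g0)
    have g2 : |(-(g h) / Q : ℝ)| = |(g h : ℝ)| / Q := by rw [abs_div, abs_neg, abs_of_pos hQ']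
    have g3 : |(-(g h) / Q : ℝ)| ≤ 1 / 2 := by
      rw [g2, div_le_div_iff₀ hQ' two_pos]
      have : |g h| * 2 ≤ 1 * Q := by
        simp only [hg]
        rcases abs_choice ((h : ℤ) - L) with h | h <;> rw [h] <;> omega
      exact_mod_cast this
    have g4 : (-(g h) / Q : ℝ) ≠ 0 := by rw [← abs_pos, g2]; positivity
    have g5 := geo g4 g3
    rw [g2] at g5
    simp only [ht, norm_mul]
    calc _ ≤ (|(g h : ℝ)| * W) * (1 / (2 * (|(g h : ℝ)| / Q)) * (1 / (2 * (|(g h : ℝ)| / Q)))) := by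
          gcongr
          exacts [hW _ g0, g5 _, g5 _]
      _ = _ := by field_simp; norm_num
  have h4 : ‖∑ h ∈ (range Q).erase L, t h‖ ≤ W * Q ^ 2 / 4 * (2 * (1 + Real.log Q)) := by
    refine (norm_sum_le _ _).trans ((sum_le_sum h3).trans ?_)
    rw [← mul_sum]
    gcongr
    exact harm (Nat.div_le_self _ _)
  have h5 : (((∑ i ∈ I, (∑ m ∈ range (K1 * D), ∑ j ∈ range D,
      if (Q : ℤ) ∣ z i - m - j then (1 : ℝ) else 0) / D - #I * K1 / M : ℝ)) : ℂ) * (D * Q) =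
      ∑ h ∈ (range Q).erase L, t h := by
    rw [sum_erase_eq_sub (mem_range.2 (by omega)), h1, h2, ← sum_div]
    have hDc : (D : ℂ) ≠ 0 := by exact_mod_cast hD.ne'
    have hMc : (M : ℂ) ≠ 0 := by exact_mod_cast hM.ne'
    push_cast
    rw [sub_mul, div_mul_eq_mul_div, ← mul_assoc, mul_right_comm, mul_div_cancel_right₀ _ hDc]
    congr 1
    · simp only [sum_mul]
      refine sum_congr rfl fun i _ => sum_congr rfl fun m _ => sum_congr rfl fun j _ => ?_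
      split_ifs <;> simp
    · rw [hQc]
      field_simp
  rw [← h5, norm_mul, Complex.norm_real, Real.norm_eq_abs, norm_mul, Complex.norm_natCast,
    Complex.norm_natCast] at h4
  have h6 : 0 ≤ 1 + Real.log Q := by have := Real.log_natCast_nonneg Q; linarith
  refine le_of_mul_le_mul_right (h4.trans ?_) (mul_pos hD' hQ')
  have h7 : 0 ≤ W * Q ^ 2 * (1 + Real.log Q) := by positivity
  have h8 : M * (1 + Real.log Q) * W * (D * Q) = W * Q ^ 2 * (1 + Real.log Q) := by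
    rw [sq]
    nth_rewrite 3 [hQr]
    ring
  linarith

lemma cls {D Dt M N : ℕ} (K1 : ℕ) {c : ℤ} (d0 t w : ℤ) {y : ℝ} (hy : 202 ≤ y)
    (hD : (D : ℝ) = y ^ 200) (hs : ¬ IsSquare Dt) (hDt : Dt ^ 9 ≤ D)
    (hc : (D : ℤ) ∣ c ^ 2 - Dt) (hM : 1 ≤ M) (hMy : (M : ℝ) ≤ y) (hN : (N : ℝ) ≤ y ^ 101) :
    |∑ i ∈ range N, P D K1 M (c * (d0 - (t + M * i) ^ 2 - (t + M * i)) + w) - N * K1 / M| ≤
      y ^ 63 := by
  have y0 : 0 < y := by linarith
  have y1 : 1 ≤ y := by linarith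
  have hD' : (0 : ℝ) < D := by rw [hD]; positivity
  have hD0 : 0 < D := by exact_mod_cast hD'
  have hM' : (0 : ℝ) < M := by exact_mod_cast hM
  have lg : ∀ x : ℝ, 0 < x → x ≤ y ^ 201 → 1 + Real.log x ≤ y ^ 2 := by
    intro x h0 h1
    have h2 := Real.log_le_log h0 h1
    rw [Real.log_pow] at h2
    have h3 := Real.log_le_sub_one_of_pos y0
    push_cast at h2
    nlinarith
  have hDt' : (Dt : ℝ) ≤ y ^ 24 := by
    refine le_of_pow_le_pow_left₀ (n := 9) (by norm_num) (by positivity) ?_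
    have : (Dt : ℝ) ^ 9 ≤ D := by exact_mod_cast hDt
    rw [← pow_mul]
    rw [hD] at this
    exact this.trans (pow_le_pow_right₀ y1 (by norm_num))
  have h1 := per (range N) (fun i => c * (d0 - (t + M * i) ^ 2 - (t + M * i)) + w) K1 hD0 hM
    (W := y ^ 60) (by positivity) fun h hh => ?_
  · rw [card_range] at h1
    refine h1.trans ?_
    have h2 := lg (D * M : ℕ) (by push_cast; positivity) (by
      push_cast
      rw [hD, pow_succ y 200]
      gcongr)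
    have h3 : 0 ≤ 1 + Real.log (D * M : ℕ) := by
      have := Real.log_natCast_nonneg (D * M); linarith
    calc _ ≤ y * y ^ 2 * y ^ 60 := by gcongr
      _ = _ := by ring
  obtain ⟨q, r, hq, hr, ha, hqD, hqm⟩ := dioph hD0 hs hc (m := -(2 * h * M))
    (neg_ne_zero.2 (mul_ne_zero (mul_ne_zero two_ne_zero hh) (by omega)))
  have h2 := weyl2 (β := -(h * c * M / D)) (-(h * c * (2 * t + 1) / D))
    (h * (c * (d0 - t ^ 2 - t) + w) / (D * M)) hq hr (by convert ha using 3; push_cast; ring) N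
  have hq' : (0 : ℝ) < q := by exact_mod_cast hq
  have hh1 : 1 ≤ |(h : ℝ)| := by exact_mod_cast Int.one_le_abs hh
  have hqy : (q : ℝ) ≤ y ^ 100 := by
    refine le_of_pow_le_pow_left₀ (n := 2) (by norm_num) (by positivity) ?_
    rw [← pow_mul, ← hD]
    exact_mod_cast hqD
  have h3 : y ^ 87 ≤ 2 * |(h : ℝ)| * q := by
    refine le_of_pow_le_pow_left₀ (n := 2) (by norm_num) (by positivity) ?_
    have h4 : (D : ℝ) ≤ (-(2 * h * M) * q) ^ 2 * Dt := by exact_mod_cast hqm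
    refine le_of_mul_le_mul_right ?_ (show 0 < y ^ 26 by positivity)
    calc (y ^ 87) ^ 2 * y ^ 26 = D := by rw [hD]; ring
      _ ≤ _ := h4
      _ = (2 * h * q) ^ 2 * (M ^ 2 * Dt) := by ring
      _ ≤ (2 * h * q) ^ 2 * (y ^ 2 * y ^ 24) := by gcongr
      _ = _ := by rw [mul_pow, mul_pow, mul_pow, mul_pow, sq_abs]; ring
  have h4 : 2 * (N : ℝ) / q + 1 ≤ |(h : ℝ)| * y ^ 15 := by
    have h5 : 2 * (N : ℝ) / q ≤ 4 * |(h : ℝ)| * y ^ 14 := by
      rw [div_le_iff₀ hq']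
      calc 2 * (N : ℝ) ≤ 2 * (y ^ 14 * y ^ 87) := by rw [← pow_add]; gcongr
        _ ≤ 2 * (y ^ 14 * (2 * |(h : ℝ)| * q)) := by gcongr
        _ = _ := by ring
    have h6 : 1 ≤ |(h : ℝ)| * y ^ 14 := one_le_mul_of_one_le_of_one_le hh1 (one_le_pow₀ y1)
    have h7 : |(h : ℝ)| * y ^ 15 = |(h : ℝ)| * y ^ 14 * y := by ring
    nlinarith
  have h5 : 3 * (N : ℝ) + 4 * q * (1 + Real.log q) ≤ y ^ 103 := by
    have h6 := lg q hq' (hqy.trans (pow_le_pow_right₀ y1 (by norm_num)))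
    have h7 : 0 ≤ 1 + Real.log q := by have := Real.log_natCast_nonneg q; linarith
    have h8 : (q : ℝ) * (1 + Real.log q) ≤ y ^ 100 * y ^ 2 := by gcongr
    have h9 : y ^ 101 ≤ y ^ 102 := pow_le_pow_right₀ y1 (by norm_num)
    have h10 : y ^ 103 = y ^ 102 * y := by ring
    have h11 : y ^ 100 * y ^ 2 = y ^ 102 := by ring
    have h12 : 0 < y ^ 102 := by positivity
    nlinarith
  refine le_of_pow_le_pow_left₀ (n := 2) (by norm_num) (by positivity) ?_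
  have h6 : ∑ i ∈ range N, e (h * ((c * (d0 - (t + M * i) ^ 2 - (t + M * i)) + w : ℤ) : ℝ) /
      (D * M : ℕ)) = ∑ i ∈ range N, e (-(h * c * M / D) * i ^ 2 + -(h * c * (2 * t + 1) / D) * i +
        h * (c * (d0 - t ^ 2 - t) + w) / (D * M)) := by
    refine sum_congr rfl fun i _ => ?_
    congr 1
    push_cast
    field_simp
    ring
  rw [h6]
  refine h2.trans ?_
  have h7 : 0 ≤ 1 + Real.log q := by have := Real.log_natCast_nonneg q; linarith
  have h8 : (2 * (N : ℝ) / q + 1) * (3 * N + 4 * q * (1 + Real.log q)) ≤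
      |(h : ℝ)| * y ^ 15 * y ^ 103 := by gcongr
  have h9 : y ^ 101 ≤ y ^ 118 := pow_le_pow_right₀ y1 (by norm_num)
  have h10 : 0 < y ^ 118 := by positivity
  have h11 : (|(h : ℝ)| * y ^ 60) ^ 2 = |(h : ℝ)| * y ^ 118 * (|(h : ℝ)| * y ^ 2) := by ring
  have h12 : |(h : ℝ)| * y ^ 15 * y ^ 103 = |(h : ℝ)| * y ^ 118 := by ring
  have h13 : 5 ≤ |(h : ℝ)| * y ^ 2 := by nlinarith
  have h14 : y ^ 118 ≤ |(h : ℝ)| * y ^ 118 := le_mul_of_one_le_left h10.le hh1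
  nlinarith

lemma sumS {D K1 T : ℕ} {c d0 a B0 : ℤ} {S : Finset (Fin 2 → ℤ)} (f : (Fin 2 → ℤ) → ℝ)
    (hD : 0 < D) (hS : ∀ u, u ∈ S ↔
      a ≤ u 0 ∧ u 0 < a + T ∧ B0 ≤ nn c d0 D u ∧ nn c d0 D u < B0 + (K1 + 1) * D) :
    ∑ u ∈ S, Wt D K1 B0 (nn c d0 D u) * f u = ∑ s ∈ range T, (∑ m ∈ range (K1 * D),
      f ![a + s, -((c * (d0 - (a + s) ^ 2 - (a + s)) - B0 - m) / D)]) / D := by
  have hD' : (0 : ℤ) < D := by exact_mod_cast hD
  have h1 : ∑ u ∈ S, Wt D K1 B0 (nn c d0 D u) * f u = (∑ x ∈ (S ×ˢ range D).filter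
      (fun x => B0 ≤ nn c d0 D x.1 - x.2 ∧ nn c d0 D x.1 - x.2 < B0 + K1 * D), f x.1) / D := by
    rw [sum_filter, sum_product, sum_div]
    refine sum_congr rfl fun u _ => ?_
    rw [← sum_filter, Wt]
    simp only [sum_const, nsmul_eq_mul]
    ring
  rw [h1, ← sum_div, ← sum_product']
  congr 1
  have key : ∀ (u : Fin 2 → ℤ) (j : ℕ), j < D → a ≤ u 0 → B0 ≤ nn c d0 D u - j →
      ![a + (u 0 - a).toNat, -((c * (d0 - (a + (u 0 - a).toNat) ^ 2 - (a + (u 0 - a).toNat)) - B0 -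
        (nn c d0 D u - j - B0).toNat) / D)] = u ∧ (c * (d0 - (a + (u 0 - a).toNat) ^ 2 -
        (a + (u 0 - a).toNat)) - B0 - (nn c d0 D u - j - B0).toNat) % D = j := by
    intro u j hj h0 h2
    rw [show a + (u 0 - a).toNat = u 0 by omega, show c * (d0 - u 0 ^ 2 - u 0) - B0 -
      (nn c d0 D u - j - B0).toNat = j + D * -u 1 by
        rw [Int.toNat_of_nonneg (by omega), nn]; ring,
      Int.add_mul_ediv_left _ _ hD'.ne', Int.add_mul_emod_self_left,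
      Int.ediv_eq_zero_of_lt (by omega) (by omega), Int.emod_eq_of_lt (by omega) (by omega)]
    refine ⟨?_, rfl⟩
    ext i
    fin_cases i <;> simp
  have key2 : ∀ (t : ℤ) (m : ℕ), nn c d0 D ![t, -((c * (d0 - t ^ 2 - t) - B0 - m) / D)] -
      ((c * (d0 - t ^ 2 - t) - B0 - m) % D).toNat = B0 + m := by
    intro t m
    have := Int.mul_ediv_add_emod (c * (d0 - t ^ 2 - t) - B0 - m) D
    rw [Int.toNat_of_nonneg (Int.emod_nonneg _ hD'.ne'), nn]
    simp only [Matrix.cons_val_zero, Matrix.cons_val_one]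
    linarith
  refine sum_nbij' (fun x => ((x.1 0 - a).toNat, (nn c d0 D x.1 - x.2 - B0).toNat))
    (fun x => (![a + x.1, -((c * (d0 - (a + x.1) ^ 2 - (a + x.1)) - B0 - x.2) / D)],
      ((c * (d0 - (a + x.1) ^ 2 - (a + x.1)) - B0 - x.2) % D).toNat))
    (fun x hx => ?_) (fun x hx => ?_) (fun x hx => ?_) (fun x hx => ?_) fun x hx => ?_
  · simp only [mem_filter, mem_product, mem_range, hS] at hx ⊢
    have : ((K1 * D : ℕ) : ℤ) = K1 * D := Nat.cast_mul _ _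
    omega
  · simp only [mem_filter, mem_product, mem_range, hS] at hx ⊢
    have h2 := key2 (a + x.1) x.2
    have h3 := Int.emod_lt_of_pos (c * (d0 - (a + x.1) ^ 2 - (a + x.1)) - B0 - x.2) hD'
    have h4 := Int.emod_nonneg (c * (d0 - (a + x.1) ^ 2 - (a + x.1)) - B0 - x.2) hD'.ne'
    have : ((K1 * D : ℕ) : ℤ) = K1 * D := Nat.cast_mul _ _
    rw [Matrix.cons_val_zero, add_one_mul]
    omega
  · simp only [mem_filter, mem_product, mem_range, hS] at hx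
    obtain ⟨h2, h3⟩ := key x.1 x.2 hx.1.2 hx.1.1.1 hx.2.1
    simp only [h2, h3, Int.toNat_natCast]
  · simp only [key2, Matrix.cons_val_zero, add_sub_cancel_left, Int.toNat_natCast]
  · simp only [mem_filter, mem_product, mem_range, hS] at hx
    simp only [(key x.1 x.2 hx.1.2 hx.1.1.1 hx.2.1).1]

lemma col {D M : ℕ} (K1 : ℕ) (hD : 0 < D) (hM : 0 < M) {g : ℤ → ℝ}
    (hg : ∀ k k', (M : ℤ) ∣ k - k' → g k = g k') (x : ℤ) :
    (∑ m ∈ range (K1 * D), g (-((x - m) / D))) / D =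
      ∑ k ∈ range M, g k * P D K1 M (x + D * k) := by
  have hD' : (0 : ℤ) < D := by exact_mod_cast hD
  have hM' : (0 : ℤ) < M := by exact_mod_cast hM
  simp only [P, ← mul_div_assoc, ← sum_div, mul_sum]
  rw [sum_comm]
  congr 1
  refine sum_congr rfl fun m _ => ?_
  obtain ⟨z, hz⟩ : ∃ z, z = x - m := ⟨_, rfl⟩
  have h1 := Int.emod_lt_of_pos z hD'
  have h2 := Int.emod_nonneg z hD'.ne'
  have h3 := Int.emod_lt_of_pos (-(z / D)) hM'
  have h4 := Int.emod_nonneg (-(z / D)) hM'.ne'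
  have h5 := Int.mul_ediv_add_emod z D
  have h6 := Int.mul_ediv_add_emod (-(z / D)) M
  rw [← hz, ← sum_product', sum_eq_single_of_mem ((-(z / D) % M).toNat, (z % D).toNat)
    (by simp only [mem_product, mem_range]; omega)]
  · simp only [Int.toNat_of_nonneg h2, Int.toNat_of_nonneg h4]
    rw [if_pos ⟨-(-(z / D) / M), by push_cast; linear_combination -hz - h5 + D * h6⟩, mul_one]
    exact hg _ _ ⟨-(z / D) / M, by linarith⟩
  · rintro ⟨k, j⟩ hkj hne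
    simp only [mem_product, mem_range] at hkj
    rw [if_neg, mul_zero]
    rintro ⟨w, hw⟩
    have h7 : z = j + D * (M * w - k) := by push_cast at hw; linear_combination hz + hw
    refine hne ?_
    rw [h7, Int.add_mul_ediv_left _ _ hD'.ne', Int.add_mul_emod_self_left,
      Int.ediv_eq_zero_of_lt (by omega) (by omega), Int.emod_eq_of_lt (a := j) (by omega) (by omega),
      show -(0 + ((M : ℤ) * w - k)) = k + M * -w by ring, Int.add_mul_emod_self_left,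
      Int.emod_eq_of_lt (by omega) (by omega)]
    simp

lemma blocks (F : ℕ → ℝ) (M N : ℕ) :
    ∑ s ∈ range (M * N), F s = ∑ r ∈ range M, ∑ i ∈ range N, F (M * i + r) := by
  rw [sum_comm]
  induction N with
  | zero => simp
  | succ N ih => rw [mul_add_one, sum_range_add, sum_range_succ, ih]

lemma den_two {M : ℕ} (hM : 0 < M) {f : (Fin 2 → ℤ) → ℝ} (hf : ∀ u v, B.CgN M u v → f u = f v)
    (a : ℤ) : ∑ r ∈ range M, ∑ k ∈ range M, f ![a + r, k] = M ^ 2 * B.denN M f := by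
  have hM' : (M : ℝ) ≠ 0 := by positivity
  rw [J.Sieve.shift (p := M) (f := fun t => ∑ k ∈ range M, f ![t, k])
    fun t => sum_congr rfl fun k _ => hf _ _ fun i => by fin_cases i <;> simp]
  simp only [B.SieveN.den_cons, B.SieveN.den_zero, ← sum_div]
  rw [div_div, ← sq, mul_div_cancel₀ _ (by positivity)]
  refine sum_congr rfl fun r _ => sum_congr rfl fun k _ => congrArg f ?_
  ext i
  fin_cases i <;> rfl

end Eqd

open Eqd in
theorem eqd : EqdStmt := by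
  intro R
  refine ⟨⌈max R 202⌉₊ ^ 200, fun D Dt K1 T M c d0 a B0 S f h0 hs hDt hc hK hT1 hT2 hM hMy hS
    hf1 hf => ?_⟩
  obtain ⟨y, hy⟩ : ∃ y, y = (D : ℝ) ^ (1 / 200 : ℝ) := ⟨_, rfl⟩
  have hD : (D : ℝ) = y ^ 200 := by
    rw [hy, one_div]
    exact (Real.rpow_inv_natCast_pow (n := 200) (Nat.cast_nonneg D) (by norm_num)).symm
  have y0 : 0 ≤ y := by rw [hy]; positivity
  have hy1 : max R 202 ≤ y := by
    refine (Nat.le_ceil _).trans (le_of_pow_le_pow_left₀ (n := 200) (by norm_num) y0 ?_)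
    rw [← hD]
    exact_mod_cast h0
  have hy2 : 202 ≤ y := (le_max_right _ _).trans hy1
  have y1 : 1 ≤ y := by linarith
  have hD0 : 0 < D := by
    have : (0 : ℝ) < D := by rw [hD]; positivity
    exact_mod_cast this
  have hD' : (0 : ℝ) < D := by exact_mod_cast hD0
  have hM' : (0 : ℝ) < M := by exact_mod_cast hM
  have hK' : (1 : ℝ) ≤ K1 := by exact_mod_cast hK
  have hsq : √(D : ℝ) = y ^ 100 := by
    rw [hD, show y ^ 200 = (y ^ 100) ^ 2 by ring, Real.sqrt_sq (by positivity)]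
  rw [← hy] at hMy ⊢
  rw [hsq] at hT1 hT2
  obtain ⟨N, ρ, hρ, rfl⟩ : ∃ N ρ, ρ < M ∧ T = M * N + ρ :=
    ⟨T / M, T % M, Nat.mod_lt _ hM, (Nat.div_add_mod T M).symm⟩
  have hN : (N : ℝ) ≤ y ^ 101 := by
    have h1 : N ≤ M * N + ρ := le_add_right (Nat.le_mul_of_pos_left N hM)
    calc (N : ℝ) ≤ (M * N + ρ : ℕ) := by exact_mod_cast h1
      _ ≤ R * y ^ 100 := hT2
      _ ≤ y * y ^ 100 := by gcongr; exact (le_max_left _ _).trans hy1
      _ = _ := by ring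
  have hρ' : (ρ : ℝ) ≤ y := le_trans (by exact_mod_cast hρ.le) hMy
  set F : ℕ → ℝ := fun s => (∑ m ∈ range (K1 * D),
    f ![a + s, -((c * (d0 - (a + s) ^ 2 - (a + s)) - B0 - m) / D)]) / D with hF
  have h1 : |∑ s ∈ range ρ, F (M * N + s)| ≤ y * K1 := by
    refine (abs_sum_le_sum_abs _ _).trans ((sum_le_card_nsmul _ _ (K1 : ℝ) fun s _ => ?_).trans ?_)
    · simp only [hF]
      rw [abs_div, abs_of_pos hD', div_le_iff₀ hD']
      refine (abs_sum_le_sum_abs _ _).trans ((sum_le_card_nsmul _ _ 1 fun m _ => hf1 _).trans ?_)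
      simp
    · rw [card_range, nsmul_eq_mul]
      gcongr
  have h2 : ∀ r : ℕ, ∑ i ∈ range N, F (M * i + r) = ∑ k ∈ range M, f ![a + r, k] * ∑ i ∈ range N,
      P D K1 M (c * (d0 - (a + r + M * i) ^ 2 - (a + r + M * i)) + (D * k - B0)) := by
    intro r
    simp only [mul_sum]
    rw [sum_comm]
    refine sum_congr rfl fun i _ => ?_
    simp only [hF]
    rw [col K1 hD0 hM (g := fun k => f ![a + (M * i + r : ℕ), k])
      fun k k' h => hf _ _ fun j => by fin_cases j <;> simp [h]]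
    refine sum_congr rfl fun k _ => ?_
    congr 1
    · exact hf _ _ fun j => by fin_cases j <;> simp
    · congr 1
      push_cast
      ring
  have h3 : |∑ s ∈ range (M * N), F s - M ^ 2 * B.denN M f * (N * K1 / M)| ≤ y * (y * y ^ 63) := by
    rw [blocks, ← den_two hM hf a, sum_mul, ← sum_sub_distrib]
    refine (abs_sum_le_sum_abs _ _).trans
      ((sum_le_card_nsmul _ _ (y * y ^ 63) fun r _ => ?_).trans ?_)
    · rw [h2, sum_mul, ← sum_sub_distrib]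
      refine (abs_sum_le_sum_abs _ _).trans
        ((sum_le_card_nsmul _ _ (y ^ 63) fun k _ => ?_).trans ?_)
      · rw [← mul_sub, abs_mul]
        exact (mul_le_of_le_one_left (abs_nonneg _) (hf1 _)).trans
          (cls K1 d0 (a + r) (D * k - B0) hy2 hD hs hDt hc hM hMy hN)
      · rw [card_range, nsmul_eq_mul]
        gcongr
    · rw [card_range, nsmul_eq_mul]
      gcongr
  have h4 : |(ρ : ℝ) * K1 * B.denN M f| ≤ y * K1 := by
    rw [abs_mul, abs_of_nonneg (by positivity)]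
    refine (mul_le_of_le_one_right (by positivity) (B.SieveN.den_abs hM hf1)).trans ?_
    gcongr
  have h5 : K1 * y ^ 97 ≤ K1 * (M * N + ρ : ℕ) * y ^ (-3 : ℝ) := by
    rw [mul_assoc, Real.rpow_neg y0, ← div_eq_mul_inv, Real.rpow_ofNat]
    gcongr
    rw [le_div_iff₀ (by positivity), ← pow_add]
    exact hT1
  refine le_trans ?_ h5
  rw [sumS f hD0 hS, sum_range_add]
  have h6 : M ^ 2 * B.denN M f * (N * K1 / M) + ρ * K1 * B.denN M f =
      K1 * (M * N + ρ : ℕ) * B.denN M f := by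
    push_cast
    field_simp
  have h7 : y * (y * y ^ 63) ≤ K1 * y ^ 96 := by
    calc y * (y * y ^ 63) = 1 * y ^ 65 := by ring
      _ ≤ _ := by gcongr; norm_num
  have h8 : y * K1 ≤ K1 * y ^ 96 := by
    rw [mul_comm]
    gcongr
    exact le_self_pow₀ y1 (by norm_num)
  have h9 : K1 * y ^ 97 = K1 * y ^ 96 * y := by ring
  have h10 : 0 ≤ K1 * y ^ 96 := by positivity
  rw [← h6, abs_le] at *
  constructor <;> nlinarith [h1.1, h1.2, h3.1, h3.2, h4.1, h4.2]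

end Pool.Agent.Lib.MP_9177b7_ag.S4

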