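import Pool.Agent.Lib.MP_9177b7_ag.B.EK1

/-!
The decay rate of conditional measures along a contracted group.
-/

open MeasureTheory ProbabilityTheory Filter Topology Set
open scoped ENNReal

noncomputable section

namespace Pool.Agent.Lib.MP_9177b7_ag.S4

open B B.EK

theorem vn {Y : Type} [MeasurableSpace Y] (ν : Measure Y) [IsFiniteMeasure ν]
    {T : Y → Y} (hT : MeasurePreserving T ν ν) {φ : Y → ℝ} (hm : MemLp φ 2 ν) :
    ∃ L : Y → ℝ, Measurable L ∧ L ∘ T =ᵐ[ν] L ∧
      TendstoInMeasure ν (fun N => birkhoffAverage ℝ T φ N) atTop L := by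
  obtain ⟨U, hU⟩ : ∃ U : Lp ℝ 2 ν →L[ℝ] Lp ℝ 2 ν,
      U = (Lp.compMeasurePreservingₗᵢ ℝ T hT).toContinuousLinearMap := ⟨_, rfl⟩
  have hU1 : ‖U‖ ≤ 1 := hU ▸ LinearIsometry.norm_toContinuousLinearMap_le _
  have hU2 : ∀ g, U g = Lp.compMeasurePreserving T hT g := fun g => by rw [hU]; rfl
  have hU3 : ∀ g : Lp ℝ 2 ν, U g =ᵐ[ν] g ∘ T := fun g => by
    rw [hU2]; exact Lp.coeFn_compMeasurePreserving g hT
  have hx : hm.toLp φ =ᵐ[ν] φ := hm.coeFn_toLp
  generalize hm.toLp φ = x at hx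
  have it : ∀ n, U^[n] x =ᵐ[ν] φ ∘ T^[n] := fun n => by
    induction n with
    | zero => exact hx
    | succ n ih =>
      rw [Function.iterate_succ_apply']
      exact (hU3 _).trans (hT.quasiMeasurePreserving.ae_eq_comp ih)
  have sm : ∀ n, (birkhoffSum U _root_.id n x : Lp ℝ 2 ν) =ᵐ[ν] birkhoffSum T φ n := fun n => by
    induction n with
    | zero => simpa using Lp.coeFn_zero ℝ 2 ν
    | succ n ih =>
      rw [birkhoffSum_succ]
      filter_upwards [Lp.coeFn_add (birkhoffSum U _root_.id n x) (U^[n] x), ih, it n]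
        with z h1 h2 h3
      rw [birkhoffSum_succ, id_eq, h1, Pi.add_apply, h2, h3]
      rfl
  have av : ∀ n, (birkhoffAverage ℝ U _root_.id n x : Lp ℝ 2 ν) =ᵐ[ν]
      birkhoffAverage ℝ T φ n := fun n => by
    filter_upwards [Lp.coeFn_smul ((n : ℝ)⁻¹) (birkhoffSum U _root_.id n x), sm n] with z h1 h2
    rw [birkhoffAverage, birkhoffAverage, h1, Pi.smul_apply, h2]
  have lim := tendstoInMeasure_of_tendsto_Lp
    (U.tendsto_birkhoffAverage_orthogonalProjection hU1 x)
  have fix : U _ = _ :=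
    ((U.eqLocus (1 : Lp ℝ 2 ν →L[ℝ] Lp ℝ 2 ν)).orthogonalProjectionOnto x).2
  refine ⟨_, (Lp.stronglyMeasurable _).measurable, ?_, TendstoInMeasure.congr_left av lim⟩
  have := hU3 ((U.eqLocus (1 : Lp ℝ 2 ν →L[ℝ] Lp ℝ 2 ν)).orthogonalProjectionOnto x)
  rw [fix] at this
  exact this.symm

/-- The conjugates of a subgroup. -/
def Vn {G : Type} [Group G] (U : Subgroup G) (T : G) (n : ℕ) : Subgroup G where
  carrier := {g | (T ^ n)⁻¹ * g * T ^ n ∈ U}
  one_mem' := by simp
  mul_mem' {a b} ha hb := by simpa [mul_assoc] using U.mul_mem ha hb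
  inv_mem' {a} ha := by simpa [mul_assoc] using U.inv_mem ha

theorem mem_Vn {G : Type} [Group G] {U : Subgroup G} {T g : G} {n : ℕ} :
    g ∈ Vn U T n ↔ (T ^ n)⁻¹ * g * T ^ n ∈ U := Iff.rfl

theorem tlog (t : ℝ≥0∞) (h : t ≤ 1) : ENNReal.ofReal (Real.log t.toReal ^ 2) * t ≤ 4 := by
  have t1 : t ≠ ∞ := ne_top_of_le_ne_top ENNReal.one_ne_top h
  lift t to NNReal using t1
  rcases eq_or_ne t 0 with rfl | t0
  · simp
  have p0 : (0 : ℝ) < t := by positivity
  have p1 : (t : ℝ) ≤ 1 := by exact_mod_cast h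
  have := Real.abs_log_mul_self_lt (√t) (Real.sqrt_pos.2 p0) (Real.sqrt_le_one.2 p1)
  rw [Real.log_sqrt p0.le, abs_lt] at this
  rw [ENNReal.coe_toReal, ← ENNReal.ofReal_coe_nnreal, ← ENNReal.ofReal_mul (sq_nonneg _),
    ← ENNReal.ofReal_ofNat]
  refine ENNReal.ofReal_le_ofReal ?_
  have e := Real.sq_sqrt p0.le
  nlinarith

section

variable {G X : Type} [Group G] [TopologicalSpace G] [IsTopologicalGroup G] [MeasurableSpace G]
  [BorelSpace G] [MeasurableSpace X] [MulAction G X] {U V : Subgroup G}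
  {ν : Measure X} {κ : Kernel X G}

theorem coset (hκ : IsCond U ν κ) (hV : MeasurableSet (V : Set G)) {c g : G} (hc : c ∈ U)
    (h : c * g⁻¹ ∈ V) (x : X) : κ (c • x) V = κ x {b | b * g⁻¹ ∈ V} := by
  rw [hκ.equi c hc, Measure.map_apply (measurable_mul_const _) hV]
  congr 1
  ext b
  refine ⟨fun e => ?_, fun e => ?_⟩
  · simpa [mul_assoc] using mul_mem e h
  · simpa [mul_assoc] using mul_mem e (inv_mem h)

theorem fin_bd (hκ : IsCond U ν κ) (hV : MeasurableSet (V : Set G)) (s : Finset G)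
    (hs : ∀ u ∈ U, ∃ g ∈ s, u * g⁻¹ ∈ V) (F : ℝ≥0∞ → ℝ≥0∞) (hF : Measurable F) {c : ℝ≥0∞}
    (hc : ∀ t, t ≤ 1 → F t * t ≤ c) : ∫⁻ x, F (κ x V) ∂ν ≤ s.card * c * ν univ := by
  have := hκ.markov
  rw [← hκ.dis (fun x => F (κ x V)) (hF.comp (κ.measurable_coe hV)), ← lintegral_const]
  refine lintegral_mono fun x => ?_
  have m : ∀ g, MeasurableSet {b : G | b * g⁻¹ ∈ V} := fun g => measurable_mul_const _ hV
  calc _ ≤ ∫⁻ b, ∑ g ∈ s, {b | b * g⁻¹ ∈ V}.indicator (fun _ => F (κ x {b | b * g⁻¹ ∈ V})) b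
        ∂κ x := by
        have a : ∀ᵐ b ∂κ x, b ∈ U := hκ.supp x
        refine lintegral_mono_ae (a.mono fun b hb => ?_)
        obtain ⟨g, hg, e⟩ := hs b hb
        refine le_trans ?_ (Finset.single_le_sum (fun _ _ => zero_le) hg)
        rw [indicator_of_mem (show b ∈ {b | b * g⁻¹ ∈ V} from e), ← coset hκ hV hb e]
    _ ≤ _ := by
        rw [lintegral_finsetSum _ fun g _ => measurable_const.indicator (m g)]
        refine (Finset.sum_le_card_nsmul _ _ c fun g _ => ?_).trans_eq (nsmul_eq_mul _ _)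
        rw [lintegral_indicator_const (m g)]
        exact hc _ prob_le_one

end

theorem erg (hC : CondStmt) (hW : TowerStmt) {G X : Type} [Group G] [TopologicalSpace G]
    [IsTopologicalGroup G] [PolishSpace G] [MeasurableSpace G] [BorelSpace G] [TopologicalSpace X]
    [PolishSpace X] [MeasurableSpace X] [BorelSpace X] [MulAction G X] [ContinuousSMul G X]
    (ν : Measure X) [IsFiniteMeasure ν] (U : Subgroup G) (κ : Kernel X G) (T : G)
    (hU : IsCompact (U : Set G)) (hκ : IsCond U ν κ) (hT : ν.map (T • ·) = ν)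
    (le : ∀ u ∈ U, T * u * T⁻¹ ∈ U) (s : Finset G) (hs : ∀ u ∈ U, ∃ g ∈ s, u * g⁻¹ ∈ Vn U T 1) :
    ∃ h : X → ℝ, Measurable h ∧ (∀ᵐ x ∂ν, h (T • x) = h x) ∧ ∀ ε : ℝ, 0 < ε →
      Tendsto (fun n : ℕ => ν {x | ¬ (ENNReal.ofReal (Real.exp (-(n * (h x + ε)))) ≤
        κ x (Vn U T n) ∧ κ x (Vn U T n) ≤ ENNReal.ofReal (Real.exp (-(n * (h x - ε)))))})
        atTop (𝓝 0) := by
  have := hκ.markov
  have cl : ∀ n, IsClosed (Vn U T n : Set G) := fun n =>
    hU.isClosed.preimage (f := fun g => (T ^ n)⁻¹ * g * T ^ n) (by fun_prop)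
  have me := fun n => (cl n).measurableSet
  have st : ∀ n g, g ∈ Vn U T (n + 1) ↔ T⁻¹ * g * T ∈ Vn U T n := fun n g => by
    simp only [mem_Vn, pow_succ', mul_inv_rev, mul_assoc]
  have l0 : ∀ n, Vn U T n ≤ U := fun n => by
    induction n with
    | zero => exact fun g hg => by simpa [mem_Vn] using hg
    | succ n ih => exact fun g hg => by simpa [mul_assoc] using le _ (ih ((st n g).1 hg))
  have l1 : ∀ n, Vn U T (n + 1) ≤ Vn U T 1 := fun n g hg => by
    simpa [mem_Vn] using l0 n ((st n g).1 hg)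
  have c1 := hU.of_isClosed_subset (cl 1) (l0 1)
  obtain ⟨lam, hl⟩ := (hC G X ν _ c1).1
  obtain ⟨w1, w2⟩ := hW G X ν U _ κ lam hU c1 hκ hl
  have mT : ∀ g : G, Measurable fun x : X => g • x := fun g => (continuous_const_smul g).measurable
  have pT : MeasurePreserving (fun x : X => T • x) ν ν := ⟨mT T, hT⟩
  have pS : MeasurePreserving (fun x : X => T⁻¹ • x) ν ν := ⟨mT _, by
    conv_lhs => rw [← hT]
    rw [Measure.map_map (mT _) (mT _)]
    simp [Function.comp_def]⟩
  have co : ∀ᵐ x ∂ν, ∀ n, κ x (Vn U T (n + 1)) = κ x (Vn U T 1) * κ (T⁻¹ • x) (Vn U T n) := by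
    filter_upwards [w1 (l0 1), pS.quasiMeasurePreserving.ae (w2 T hT fun g => by simp [mem_Vn])]
      with x h1 h2 n
    rw [smul_inv_smul] at h2
    have e : lam x (Vn U T (n + 1)) = κ (T⁻¹ • x) (Vn U T n) := by
      rw [h2, Measure.map_apply (by fun_prop) (me _)]
      congr 1
      ext g
      simp [st, mul_assoc]
    rw [← e, ← lintegral_indicator_one (me _), ← h1.1 _ (measurable_one.indicator (me _)),
      mul_comm, ← lintegral_indicator_const (me 1)]
    refine lintegral_congr fun c => ?_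
    by_cases hc : c ∈ Vn U T 1
    · rw [indicator_of_mem (show c ∈ (Vn U T 1 : Set G) from hc), hl.equi c hc,
        lintegral_map (f := fun b => (Vn U T (n + 1) : Set G).indicator 1 (b * c))
          ((measurable_one.indicator (me _)).comp (measurable_mul_const _))
          (measurable_mul_const _)]
      simp only [inv_mul_cancel_right]
      exact lintegral_indicator_one (me _)
    · rw [indicator_of_notMem (show c ∉ (Vn U T 1 : Set G) from hc)]
      have a : ∀ᵐ b ∂lam (c • x), b ∈ Vn U T 1 := hl.supp _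
      refine (lintegral_congr_ae (a.mono fun b hb => ?_)).trans lintegral_zero
      exact indicator_of_notMem (fun h => hc ((mul_mem_cancel_left hb).1 (l1 n h))) _
  have m1 : Measurable fun x => κ x (Vn U T 1) := κ.measurable_coe (me 1)
  have pos : ∀ᵐ x ∂ν, κ x (Vn U T 1) ≠ 0 := by
    have m : Measurable (({0} : Set ℝ≥0∞).indicator (1 : ℝ≥0∞ → ℝ≥0∞)) :=
      measurable_one.indicator (measurableSet_singleton _)
    have := fin_bd hκ (me 1) s hs _ m (c := 0) fun t _ => by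
      rcases eq_or_ne t 0 with rfl | h
      · simp
      · simp [h]
    rw [mul_zero, zero_mul, nonpos_iff_eq_zero] at this
    filter_upwards [(lintegral_eq_zero_iff (m.comp m1)).1 this] with x hx h
    simp [h] at hx
  let φ : X → ℝ := fun x => -Real.log (κ x (Vn U T 1)).toReal
  have mφ : Measurable φ := m1.ennreal_toReal.log.neg
  have L2 : MemLp φ 2 ν := by
    rw [memLp_two_iff_integrable_sq mφ.aestronglyMeasurable]
    refine ⟨(mφ.pow_const 2).aestronglyMeasurable,
      (hasFiniteIntegral_iff_ofReal (.of_forall fun x => sq_nonneg _)).2 ?_⟩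
    simp only [φ, neg_sq]
    exact (fin_bd hκ (me 1) s hs (fun t => ENNReal.ofReal (Real.log t.toReal ^ 2))
      (by fun_prop) tlog).trans_lt (by finiteness)
  have bs : ∀ n, ∀ᵐ x ∂ν, κ x (Vn U T n) =
      ENNReal.ofReal (Real.exp (-birkhoffSum (fun x => T⁻¹ • x) φ n x)) := fun n => by
    induction n with
    | zero =>
      refine .of_forall fun x => ?_
      rw [birkhoffSum_zero, neg_zero, Real.exp_zero, ENNReal.ofReal_one,
        ← prob_compl_eq_zero_iff (me 0)]
      simpa [Vn] using hκ.supp x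
    | succ n ih =>
      filter_upwards [co, pos, pS.quasiMeasurePreserving.ae ih] with x h1 h2 h3
      rw [h1, h3, birkhoffSum_succ', neg_add, Real.exp_add, ENNReal.ofReal_mul (Real.exp_pos _).le,
        neg_neg, Real.exp_log (ENNReal.toReal_pos h2 (measure_ne_top _ _)),
        ENNReal.ofReal_toReal (measure_ne_top _ _)]
  obtain ⟨h, mh, ih, lim⟩ := vn ν pS L2
  refine ⟨h, mh, ?_, fun ε e0 => ?_⟩
  · filter_upwards [pT.quasiMeasurePreserving.ae ih] with x hx
    simpa using hx.symm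
  refine tendsto_of_tendsto_of_tendsto_of_le_of_le' tendsto_const_nhds
    (tendstoInMeasure_iff_dist.1 lim ε e0) (.of_forall fun _ => zero_le) ?_
  filter_upwards [eventually_gt_atTop 0] with n hn
  refine measure_mono_ae ((bs n).mono fun x hx k => ?_)
  by_contra d
  have n0 : (0 : ℝ) < n := by exact_mod_cast hn
  have d : |(n : ℝ)⁻¹ * birkhoffSum (fun x => T⁻¹ • x) φ n x - h x| < ε := not_le.1 d
  rw [abs_lt, lt_sub_iff_add_lt, sub_lt_iff_lt_add, lt_inv_mul_iff₀ n0, inv_mul_lt_iff₀ n0] at d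
  exact k (hx ▸ ⟨ENNReal.ofReal_le_ofReal (Real.exp_le_exp.2 (by linarith [d.2])),
    ENNReal.ofReal_le_ofReal (Real.exp_le_exp.2 (by linarith [d.1]))⟩)

end Pool.Agent.Lib.MP_9177b7_ag.S4
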