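import Pool.Agent.Lib.MP_9177b7_ag.S4.StC
import Pool.Agent.Lib.MP_9177b7_ag.S4.Rel
import Pool.Agent.Lib.MP_9177b7_ag.S4.Disc
import Pool.Agent.Lib.MP_9177b7_ag.B.Meas

/-!
The measure attached to a CM datum.
-/

open NumberField Matrix MeasureTheory Filter Topology
open scoped nonZeroDivisors ENNReal BoundedContinuousFunction

noncomputable section

namespace Pool.Agent.Lib.MP_9177b7_ag.S4

namespace Meas

/-- Invariance under the generators gives invariance under the diagonal group. -/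
theorem ainv {p : ℕ} [Fact p.Prime] (ν : Measure (XX p))
    (h : ∀ i : Fin 4, ν.map (((dg p (Pi.single i 1), 1) : GG p) • ·) = ν) (k : Fin 4 → ℤ) :
    ν.map (((dg p k, 1) : GG p) • ·) = ν := by
  have : PolishSpace (XX p) := J.pol _ _
  have ms : ∀ g : GG p, Measurable fun x : XX p => g • x := fun g =>
    (continuous_const_smul g).measurable
  have ad : ∀ k k', (ν.map (((dg p k', 1) : GG p) • ·)).map (((dg p k, 1) : GG p) • ·) =
      ν.map (((dg p (k + k'), 1) : GG p) • ·) := fun k k' => by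
    rw [Measure.map_map (ms _) (ms _), dg_add k k']
    congr 1
    funext x
    simp only [Function.comp, ← mul_smul, Prod.mk_mul_mk, mul_one]
  have z : ν.map (((dg p 0, 1) : GG p) • ·) = ν := by
    have e : dg p 0 = 1 := by simpa using (dg_zpow (p := p) 0 0).symm
    rw [e]
    simp only [Prod.mk_one_one, one_smul, Measure.map_id']
  let A : AddSubgroup (Fin 4 → ℤ) :=
    { carrier := {k | ν.map (((dg p k, 1) : GG p) • ·) = ν}
      zero_mem' := z
      add_mem' := fun {k k'} e e' => by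
        change _ = _ at e e' ⊢
        rw [← ad k k', e', e]
      neg_mem' := fun {k} e => by
        change _ = _ at e ⊢
        have := ad (-k) k
        rwa [e, neg_add_cancel, z] at this }
  have e : k = ∑ r, k r • (Pi.single r 1 : Fin 4 → ℤ) := by
    funext i
    simp [Finset.sum_apply, Pi.single_apply]
  have : k ∈ A := by
    rw [e]
    exact A.sum_mem fun r _ => A.zsmul_mem (h r) _
  exact this

end Meas

open Meas B.Meas in
theorem meas (hF : FrameStmt) (hO : OrbStmt) (hI : IsoStmt) (hL : LiftStmt) (hM : MoveStmt)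
    (hJ : ProjStmt) (hT : TubeStmt) : MeasStmt := by
  intro p _ π hπ D S
  classical
  have : PolishSpace (XX p) := J.pol _ _
  obtain ⟨⟨M, hM0, hMc, hMd⟩, L2⟩ := hL p
  obtain ⟨μ, hμ, h1, h2⟩ := B.Cond.exists_haar M (hM0 ▸ hMc)
  have hmem : ∀ g, g ∈ M ↔ g ∈ M0 p := fun g => by rw [← hM0]; rfl
  simp only [hmem] at h1 h2
  obtain ⟨F1, F2⟩ := hF p D
  have F3 := fun x : D.Cl => F2 (S.b x) (nonZeroDivisors.ne_zero (S.b x).2)
  have L3 := fun x : D.Cl => L2 D _ _ _ (F3 x).1 (F3 x).2.1 (F3 x).2.2 (S.he x)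
  choose g hg using fun x => (L3 x).1
  choose P hP using fun x =>
    (F1 _ _ _ (F3 x).1 (S.he x)).2.2.2.2.2.2.2.2.2.1 (F3 x).2.1 (F3 x).2.2
  obtain ⟨O1, O2⟩ := hO p D S P hP
  refine ⟨avg (Gp p) μ g, avg_prob _ _ _, ainv _ fun i => ?_, O1, fun f => ?_,
    fun j c₀ k R K₀ => ?_⟩
  · obtain ⟨z, hz⟩ := hI p D i
    refine avg_move (d := ((dg p _, 1) : GG p)) (· * z) (mul_left_injective z) fun x => ?_
    obtain ⟨y, y0, y1, y2⟩ := hz (S.b x) (S.b (x * z)) (by rw [S.hb, S.hb])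
    obtain ⟨m, hm, γ, hγ, e⟩ := hM p D i _ _ y _ _ _ _ _ _ (F3 x).1 y0 y1 y2 (S.he x)
      (S.he (x * z)) (hg x) (hg (x * z))
    exact orb_move h1 h2 (fun m hm => hMd m hm _) hm hγ e
  · obtain ⟨-, hpr, J3⟩ := hJ
    have := avg_int h1 g (f.compContinuous ⟨fun x => proj (π x), hpr.comp hπ.cont⟩)
      (fun x => f (Quot.mk _ (P x))) fun x m hm => by
        obtain ⟨l1, t, t', -, l2⟩ := ((L3 x).2 _ (hg x)).1 m hm
        change f (proj (π _)) = _
        rw [hπ.mk' _ l1, J3 _ ⟨_, P0_mul _⟩ 1 (Matrix.one_mul _).symm]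
        refine congrArg f (Quot.sound ⟨diagonal t', 1, ?_⟩).symm
        change _ = diagonal t' * (P x).1 * (1 : M4 ℤ).map (Int.cast : ℤ → ℂ)
        rw [Matrix.map_one _ Int.cast_zero Int.cast_one, Matrix.mul_one, hP]
        exact l2
    exact (O2 f).trans this.symm
  · obtain ⟨T1, T2⟩ := (hT p).1 j c₀ k R K₀
    refine (avg_le h1 g T1 (Finset.univ.filter fun x =>
      D.Ev (D.xi (S.b x)) (S.e x) j c₀ k (4 * (|R| + 1) ^ 2) K₀)
      fun x m hm hy => ?_).trans (le_of_eq ?_)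
    · have l := ((L3 x).2 _ (hg x)).1 m hm
      simpa using ((L3 x).2 _ l).2 j c₀ k R K₀ ((T2 _).1 hy)
    · rw [Dat.pr, ENNReal.ofReal_div_of_pos (Nat.cast_pos.2 Fintype.card_pos),
        ENNReal.ofReal_natCast, ENNReal.ofReal_natCast, mul_comm, ← div_eq_mul_inv]

end Pool.Agent.Lib.MP_9177b7_ag.S4
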