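import Pool.Agent.Lib.MP_9177b7_ag.S4.Rel4

/-!
Some short root has nontrivial conditional measures.
-/

open MeasureTheory ProbabilityTheory Filter Topology Set
open scoped ENNReal

noncomputable section

namespace Pool.Agent.Lib.MP_9177b7_ag.S4

open B (IsCond CondStmt TowerStmt)

variable {p : ℕ} [Fact p.Prime] {S : Sp p} {ν : Measure S.X}

/-- The decay rate along a long root. -/
def Rate (ν : Measure S.X) (a : Fin 4) (κ : Kernel S.X (HQ p)) (h : S.X → ℝ) (ε : ℝ) : Prop :=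
  Tendsto (fun n : ℕ => ν {x | ¬ (ENNReal.ofReal (Real.exp (-(n * (h x + ε)))) ≤
    κ x (Vn (U p (n2 a)) (dg p (kK a)) n) ∧ κ x (Vn (U p (n2 a)) (dg p (kK a)) n) ≤
      ENNReal.ofReal (Real.exp (-(n * (h x - ε)))))}) atTop (𝓝 0)

theorem wK (a : Fin 4) : 0 < wt (kK a) a (a + 2) := by revert a; decide

theorem heavy {G : Type} [Group G] [MeasurableSpace G] [MeasurableMul G] (μ : Measure G)
    [IsProbabilityMeasure μ] {V : Subgroup G} (mV : MeasurableSet (V : Set G)) (s : Finset G)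
    (h : ∀ g ∈ s, ∀ g' ∈ s, g * g'⁻¹ ∈ V → g = g') {t : ℝ}
    (ht : ∀ g ∈ s, ENNReal.ofReal (Real.exp (-t)) ≤ μ {b | b * g⁻¹ ∈ V}) :
    s.card ≤ ⌊Real.exp t⌋₊ := by
  have a := Finset.card_nsmul_le_sum s _ _ ht
  rw [← measure_biUnion_finset (f := fun g => {b | b * g⁻¹ ∈ V}) (fun g hg g' hg' n => disjoint_left.2 fun b h1 h2 =>
    n (h g hg g' hg' (by simpa [mul_assoc] using V.mul_mem (V.inv_mem h1) h2)))
    fun g _ => measurable_mul_const _ mV] at a
  have b := a.trans prob_le_one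
  rw [nsmul_eq_mul, ← ENNReal.ofReal_natCast, ← ENNReal.ofReal_mul (Nat.cast_nonneg _),
    ENNReal.ofReal_le_one, Real.exp_neg, mul_inv_le_iff₀ (Real.exp_pos _), one_mul] at b
  exact Nat.le_floor b

theorem core4 [IsProbabilityMeasure ν] {a : Fin 4} {κ κ' : Kernel S.X (HQ p)}
    (hκ : IsCond (U p (n2 a)) ν κ) (hκ' : IsCond (U p (n2 (a + 2))) ν κ') {O : Set S.C}
    (hO : O ∈ 𝓝 (1 : S.C)) {C₀ τ ε α : ℝ} (t0 : 0 < τ) (e0 : 0 < ε)
    (he : Real.exp (8 * ε) * τ < 1) (hT : ∀ (m : ℕ) (x : S.X),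
      ν (S.orb (KI p {a, a + 2} m) O x) ≤ ENNReal.ofReal (C₀ * τ ^ m)) {h h' : S.X → ℝ}
    (r : Rate ν a κ h ε) (r' : Rate ν (a + 2) κ' h' ε) {D Z : Set S.X} (mD : MeasurableSet D)
    (mZ : MeasurableSet Z) (iD : (ν.restrict D).map (dg p (kK a) • ·) = ν.restrict D)
    (DZ : ∀ᵐ x ∂ν, x ∈ D → x ∈ Z)
    (sZ : ∀ g ∈ N p (kK a), ∀ x ∈ Z, g • x ∈ Z → g ∈ U p (n2 a))
    (hD : ∀ x ∈ D, α ≤ h x ∧ h x ≤ α + ε ∧ α ≤ h' x) : ν D = 0 := by
  classical
  have := hκ.markov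
  obtain ⟨W, hW⟩ := bowG p (kK a)
  obtain ⟨K, hK⟩ := pow_unbounded_of_one_lt (W : ℝ) (Real.one_lt_exp_iff.2 e0)
  have ex : ∀ {s t : ℝ}, s ≤ t → ENNReal.ofReal (Real.exp (-t)) ≤ ENNReal.ofReal (Real.exp (-s)) :=
    fun h => ENNReal.ofReal_le_ofReal (Real.exp_le_exp.2 (neg_le_neg h))
  suffices H : ∀ η : ℝ, 0 < η → ν.restrict D univ ≤
      (1 + K) * (ENNReal.ofReal η + ENNReal.ofReal η) + 5 * ENNReal.ofReal η by
    have c : Tendsto (fun η : ℝ => ENNReal.ofReal η) (𝓝[>] 0) (𝓝 0) := by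
      simpa using (ENNReal.continuous_ofReal.tendsto 0).mono_left nhdsWithin_le_nhds
    have := ge_of_tendsto ((ENNReal.Tendsto.const_mul (c.add c) (Or.inr (by finiteness))).add
      (ENNReal.Tendsto.const_mul c (Or.inr (by finiteness))))
      (Eventually.mono self_mem_nhdsWithin H)
    simpa using this
  intro η η0
  have η1 : (0 : ℝ≥0∞) < ENNReal.ofReal η := ENNReal.ofReal_pos.2 η0
  have ev := r.eventually (ge_mem_nhds η1)
  obtain ⟨L, ⟨L0, hL⟩, hL2⟩ := (((eventually_ne_atTop 0).and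
    ((tendsto_pow_atTop_nhds_zero_of_lt_one (by positivity) he).eventually
      (gt_mem_nhds (show (0 : ℝ) < 1 / 2 by norm_num)))).and
    ((tendsto_id.const_mul_atTop' (show 0 < 2 by norm_num)).eventually ev)).exists
  simp only [id] at hL2
  have mV := Vn_me (p := p) (k := kK a) (n := 2 * L) (n2 a)
  obtain ⟨s, s1, s2⟩ := Vn_cov (p := p) (n2 a) (wK a) (2 * L)
  set V := Vn (U p (n2 a)) (dg p (kK a)) (2 * L) with hV
  set t := ((2 * L : ℕ) : ℝ) * (α + 2 * ε) with ht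
  set D₁ := Z ∩ {x | ENNReal.ofReal (Real.exp (-t)) ≤ κ x V} with hD₁
  have b1 : ν.restrict D D₁ᶜ ≤ ENNReal.ofReal η := by
    refine le_trans (measure_mono_ae ?_) ((Measure.restrict_le_self _).trans hL2)
    filter_upwards [ae_restrict_mem mD, ae_restrict_of_ae DZ] with x h1 h2 h3 h4
    exact h3 ⟨h2 h1, (ex (mul_le_mul_of_nonneg_left (by linarith [(hD x h1).2.1])
      (Nat.cast_nonneg _))).trans h4.1⟩
  rcases D₁.eq_empty_or_nonempty with e | ⟨x₀, hx₀⟩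
  · rw [e, compl_empty] at b1
    exact b1.trans (le_add_left (le_mul_of_one_le_left' (by norm_num)))
  have g1 : 1 ≤ ⌊Real.exp t⌋₊ := by
    have := hx₀.2.trans prob_le_one
    rw [ENNReal.ofReal_le_one, Real.exp_le_one_iff] at this
    exact Nat.le_floor (by simpa using this)
  let ι := ↥(s.powerset.filter fun θ => θ.card ≤ ⌊Real.exp t⌋₊)
  let E : ι → Set S.X := fun θ => D₁ ∩ ⋂ g ∈ s \ θ.1,
    {x | κ x {b | b * g⁻¹ ∈ V} < ENNReal.ofReal (Real.exp (-t))}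
  have mE : ∀ θ, MeasurableSet (E θ) := fun θ => (mZ.inter (measurableSet_le measurable_const
    (κ.measurable_coe mV))).inter (Finset.measurableSet_biInter _ fun g _ =>
      measurableSet_lt (κ.measurable_coe (measurable_mul_const _ mV)) measurable_const)
  choose Q q1 q2 q3 using fun θ => (mE θ).exists_isCompact_sdiff_lt (μ := ν.restrict D)
    (measure_ne_top _ _) (ε := ENNReal.ofReal η / Fintype.card ι)
    (ENNReal.div_ne_zero.2 ⟨η1.ne', by simp⟩)
  have b2 : ν.restrict D (⋃ θ, Q θ)ᶜ ≤ ENNReal.ofReal η + ENNReal.ofReal η := by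
    refine (measure_mono (t := D₁ᶜ ∪ ⋃ θ, E θ \ Q θ) fun x hx => ?_).trans
      ((measure_union_le _ _).trans (add_le_add b1 ((measure_iUnion_fintype_le _ _).trans
        ((Finset.sum_le_card_nsmul _ _ _ fun θ _ => (q3 θ).le).trans ?_))))
    · by_cases e : x ∈ D₁
      swap
      · exact Or.inl e
      refine Or.inr (mem_iUnion.2 ⟨⟨s.filter fun g => ENNReal.ofReal (Real.exp (-t)) ≤
        κ x {b | b * g⁻¹ ∈ V}, Finset.mem_filter.2 ⟨Finset.mem_powerset.2 (Finset.filter_subset _ _),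
          heavy (κ x) mV _ (fun g hg g' hg' => s2 g (Finset.mem_filter.1 hg).1 g'
            (Finset.mem_filter.1 hg').1) fun g hg => (Finset.mem_filter.1 hg).2⟩⟩,
        ⟨e, mem_iInter₂.2 fun g hg => ?_⟩, fun e' => hx (mem_iUnion.2 ⟨_, e'⟩)⟩)
      obtain ⟨g1, g2⟩ := Finset.mem_sdiff.1 hg
      exact not_le.1 fun e => g2 (Finset.mem_filter.2 ⟨g1, e⟩)
    · rw [nsmul_eq_mul, Finset.card_univ]
      exact ENNReal.mul_div_le
  obtain ⟨Q₀, -, c0, b0⟩ := MeasurableSet.univ.exists_isCompact_sdiff_lt (μ := ν)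
    (measure_ne_top _ _) η1.ne'
  rw [← compl_eq_univ_sdiff] at b0
  obtain ⟨O₁, o1, inj⟩ := S.inj Q₀ c0
  obtain ⟨O₂, o2, o3⟩ := exists_nhds_split_inv o1
  have o4 := inter_mem o2 hO
  choose G' m1 m2 using fun n : ℕ => mass hκ hκ' c0.measurableSet (O := interior (O₂ ∩ O))
    isOpen_interior (fun v hv w hw => o3 v (interior_subset hv).1 w (interior_subset hw).1) inj
    (ENNReal.ofReal (Real.exp (-(n * (α - ε))))) (ENNReal.ofReal η) n
  refine (hW S (ν.restrict D) ι Q (fun θ => θ.1) K L _ (Real.exp ε)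
    (Real.exp (-(2 * (α - ε))) * τ) (C₀ / η) (5 * ENNReal.ofReal η) _
    (fun n => (Q₀ ∩ {x | κ x (Vn (U p (n2 a)) (dg p (kK a)) n) ≤
      ENNReal.ofReal (Real.exp (-(n * (α - ε))))}) ∩ G' n) iD q2
    (fun θ => (Finset.mem_filter.1 θ.2).2) (fun θ u hu x hx e => ?_) (interior_mem_nhds.2 o4)
    (fun n y => (Measure.restrict_le_self _).trans ?_) ?_ L0 g1 (Real.one_le_exp e0.le) hK.le
    (by positivity) ?_).trans (by gcongr)
  · obtain ⟨θ', e⟩ := mem_iUnion.1 e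
    have u1 := sZ u hu x (q1 θ hx).1.1 (q1 θ' e).1.1
    obtain ⟨g, g2, g3⟩ := s1 u u1
    refine ⟨g, ?_, Vn_Bl _ (wK a) g3⟩
    by_contra n
    exact (mem_iInter₂.1 (q1 θ hx).2 g (Finset.mem_sdiff.2 ⟨g2, n⟩)).not_ge
      ((q1 θ' e).1.2.trans_eq (coset hκ mV u1 g3 x))
  · have a0 : S.orb (KI p {a, a + 2} n) (interior (O₂ ∩ O)) y ⊆ S.orb (KI p {a, a + 2} n) O y :=
      fun z ⟨h, hh, c, hc, r⟩ => ⟨h, hh, c, (interior_subset hc).2, r⟩
    have a1 := (m2 n y).trans (mul_le_mul_right (mul_le_mul_right ((measure_mono a0).trans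
      (hT n y)) _) _)
    rw [← ENNReal.mul_le_mul_iff_right η1.ne' ENNReal.ofReal_ne_top]
    refine a1.trans_eq ?_
    rw [← ENNReal.ofReal_mul (Real.exp_pos _).le, ← ENNReal.ofReal_mul (Real.exp_pos _).le,
      ← ENNReal.ofReal_mul η0.le, mul_pow, ← Real.exp_nat_mul, ← mul_assoc, ← mul_assoc,
      ← Real.exp_add, ← mul_assoc η, mul_div_cancel₀ _ η0.ne']
    congr 1
    rw [show -(n * (α - ε)) + -(n * (α - ε)) = n * -(2 * (α - ε)) by ring]
    ring
  · filter_upwards [ev, r'.eventually (ge_mem_nhds η1)] with n n1 n2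
    have n3 := m1 n
    rw [measure_univ, mul_one] at n3
    refine le_trans (measure_mono_ae ?_) ((Measure.restrict_le_self _).trans
      ((measure_union_le _ _).trans ((add_le_add ((measure_union_le _ _).trans (add_le_add
        ((measure_union_le _ _).trans (add_le_add b0.le n1)) n2)) n3).trans ?_)))
    · filter_upwards [ae_restrict_mem mD] with x h1 h2
      by_contra h3
      have i0 : x ∈ Q₀ := by_contra fun e => h3 (Or.inl (Or.inl (Or.inl e)))
      have i1 := (not_not.1 fun e => h3 (Or.inl (Or.inl (Or.inr e)))).2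
      have i2 := (not_not.1 fun e => h3 (Or.inl (Or.inr e))).2
      have k : ∀ z, α ≤ z → (n : ℝ) * (α - ε) ≤ n * (z - ε) := fun z hz =>
        mul_le_mul_of_nonneg_left (by linarith) (Nat.cast_nonneg _)
      exact h2 ⟨⟨i0, i1.trans (ex (k _ (hD x h1).1))⟩,
        by_contra fun e => h3 (Or.inr ⟨⟨i0, i2.trans (ex (k _ (hD x h1).2.2))⟩, e⟩)⟩
    · calc _ = 4 * ENNReal.ofReal η := by ring
        _ ≤ _ := by gcongr; norm_num
  · refine (mul_le_mul_of_nonneg_left (Nat.floor_le (Real.exp_pos _).le)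
      (by positivity)).trans_lt ?_
    have : (Real.exp ε ^ 2 * (Real.exp (-(2 * (α - ε))) * τ)) ^ L * Real.exp t =
        (Real.exp (8 * ε) * τ) ^ L := by
      rw [← mul_assoc, mul_pow, mul_pow _ τ, ← Real.exp_nat_mul, ← Real.exp_add,
        ← Real.exp_nat_mul, ← Real.exp_nat_mul, mul_right_comm, ← Real.exp_add, ht]
      congr 2
      push_cast
      ring
    linarith

/-- The stabiliser of a measure. -/
def stab (ν : Measure S.X) : Subgroup (HQ p) where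
  carrier := {g | ν.map (g • ·) = ν}
  one_mem' := by simp
  mul_mem' := by
    intro g g' hg hg'
    have e : ((g * g') • · : S.X → S.X) = (g • ·) ∘ (g' • ·) := funext fun x => mul_smul g g' x
    change ν.map _ = ν at hg hg' ⊢
    rw [e, ← Measure.map_map (continuous_const_smul g).measurable
      (continuous_const_smul g').measurable, hg', hg]
  inv_mem' := by
    intro g hg
    change ν.map _ = ν at hg ⊢
    conv_lhs => rw [← hg]
    rw [Measure.map_map (continuous_const_smul _).measurable (continuous_const_smul g).measurable]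
    simp [Function.comp_def]

theorem restr {T : HQ p} (hT : T ∈ stab ν) {D : Set S.X} (mD : MeasurableSet D)
    (h : ∀ᵐ x ∂ν, T • x ∈ D ↔ x ∈ D) : T ∈ stab (ν.restrict D) := by
  have hpre : (T • ·) ⁻¹' D =ᵐ[ν] D := h.mono fun x hx => propext hx
  change Measure.map _ _ = _ at hT ⊢
  conv_rhs => rw [← hT]
  rw [Measure.restrict_map (continuous_const_smul _).measurable mD,
    Measure.restrict_congr_set hpre]

theorem ae_inv {T : HQ p} (hT : T ∈ stab ν) {Y : Type} {f : S.X → Y}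
    (h : ∀ᵐ x ∂ν, f (T⁻¹ • x) = f x) : ∀ᵐ x ∂ν, f (T • x) = f x := by
  filter_upwards [(⟨(continuous_const_smul T).measurable, hT⟩ :
    MeasurePreserving (fun x : S.X => T • x) ν ν).quasiMeasurePreserving.ae h] with x hx
  rw [← hx, inv_smul_smul]

theorem dg_op (a : Fin 4) : dg p (kK (a + 2)) = (dg p (kK a))⁻¹ := by
  rw [dg_inv]
  refine Subtype.ext (Subtype.ext (congrArg Matrix.diagonal (funext fun i => congrArg _ ?_)))
  revert a i
  decide

theorem short (hC : CondStmt) (hW : TowerStmt) [IsProbabilityMeasure ν] (hA : S.AInv ν)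
    (hT : S.Tube ν) {D : Set S.X} (mD : MeasurableSet D)
    (iD : ∀ᵐ x ∂ν, dg p (kK 0) • x ∈ D ↔ x ∈ D) (hZ : ∀ a : Fin 4, a = 0 ∨ a = 2 → ∃ Z : Set S.X,
      MeasurableSet Z ∧ (∀ᵐ x ∂ν, x ∈ D → x ∈ Z) ∧
        ∀ g ∈ N p (kK a), ∀ x ∈ Z, g • x ∈ Z → g ∈ U p (n2 a)) : ν D = 0 := by
  choose κ hκ using fun a => (hC _ S.X ν _ (U_cpt (p := p) (n2 a))).1
  choose h m i r using fun a => erg hC hW ν _ _ _ (U_cpt (n2 a)) (hκ a) (hA (kK a))
    (fun u hu => U_conj _ (wK a).le hu) _ (Vn_cov (p := p) (n2 a) (wK a) 1).choose_spec.1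
  obtain ⟨O, hO, C₀, τ, -, t0, t1, hτ⟩ := tube_pow hT
  obtain ⟨ε, e0, he⟩ := par t1
  let E : ℤ × ℤ → Set S.X := fun q => D ∩ ({x | ⌊h 0 x / ε⌋ = q.1} ∩ {x | ⌊h 2 x / ε⌋ = q.2})
  refine measure_mono_null (t := ⋃ q, E q)
    (fun x hx => mem_iUnion.2 ⟨(_, _), hx, rfl, rfl⟩) (measure_iUnion_null fun q => ?_)
  have mE : MeasurableSet (E q) := mD.inter
    ((((m 0).div_const ε).floor (measurableSet_singleton _)).inter
      (((m 2).div_const ε).floor (measurableSet_singleton _)))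
  have i2 : ∀ᵐ x ∂ν, h 2 (dg p (kK 0) • x) = h 2 x := ae_inv (hA _) (dg_op (p := p) 0 ▸ i 2)
  have iE : dg p (kK 0) ∈ stab (ν.restrict (E q)) := restr (hA _) mE (by
    filter_upwards [iD, i 0, i2] with x h1 h2 h3
    simp only [E, mem_inter_iff, mem_ofPred_eq, h1, h2, h3])
  have fl : ∀ (z : ℝ) (j : ℤ), ⌊z / ε⌋ = j → j * ε ≤ z ∧ z ≤ j * ε + ε := fun z j e => by
    rw [Int.floor_eq_iff, le_div_iff₀ e0, div_lt_iff₀ e0] at e
    exact ⟨e.1, by linarith [e.2]⟩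
  rcases le_total q.1 q.2 with c | c
  · obtain ⟨Z, z1, z2, z3⟩ := hZ 0 (Or.inl rfl)
    exact core4 (α := q.1 * ε) (hκ 0) (hκ 2) hO t0 e0 he (hτ _ (by decide)) (r 0 ε e0) (r 2 ε e0)
      mE z1 iE (z2.mono fun x hx e => hx e.1) z3 fun x e => ⟨(fl _ _ e.2.1).1, (fl _ _ e.2.1).2,
        (mul_le_mul_of_nonneg_right (Int.cast_le.2 c) e0.le).trans (fl _ _ e.2.2).1⟩
  · obtain ⟨Z, z1, z2, z3⟩ := hZ 2 (Or.inr rfl)
    exact core4 (a := 2) (α := q.2 * ε) (hκ 2) (hκ 0) hO t0 e0 he (hτ _ (by decide)) (r 2 ε e0)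
      (r 0 ε e0) mE z1 (show dg p (kK (0 + 2)) ∈ stab _ from dg_op (p := p) 0 ▸ inv_mem iE)
      (z2.mono fun x hx e => hx e.1) z3 fun x e => ⟨(fl _ _ e.2.2).1, (fl _ _ e.2.2).2,
        (mul_le_mul_of_nonneg_right (Int.cast_le.2 c) e0.le).trans (fl _ _ e.2.1).1⟩

end Pool.Agent.Lib.MP_9177b7_ag.S4
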