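import Pool.Agent.Lib.MP_9177b7_ag.B.SieveN
import Pool.Agent.Lib.MP_9177b7_ag.B.ShiuN1

/-! Selberg's upper bound sieve for a weight on `ℤ ^ d` that is well distributed in classes. -/

open Finset Function
open Pool.Agent.Shared.SelbergUpper

noncomputable section

namespace Pool.Agent.Lib.MP_9177b7_ag.S4

open B

/-- The weight `w` on `W` has mass about `V` and is well distributed in the classes to all moduli
up to `y`. -/
def PB {d : ℕ} (W : Finset (Fin d → ℤ)) (w : (Fin d → ℤ) → ℝ) (V y : ℝ) : Prop :=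
  ∀ (M : ℕ) (f : (Fin d → ℤ) → ℝ), 1 ≤ M → (M : ℝ) ≤ y → (∀ u, |f u| ≤ 1) →
    (∀ u v, CgN M u v → f u = f v) → ∑ u ∈ W, w u * f u ≤ V * denN M f + V / y ^ d

theorem PB.of_abs {d : ℕ} {W : Finset (Fin d → ℤ)} {w : (Fin d → ℤ) → ℝ} {V y e : ℝ} (hy : 1 ≤ y)
    (V0 : 0 ≤ V) (he : e ≤ -(d : ℝ))
    (h : ∀ (M : ℕ) (f : (Fin d → ℤ) → ℝ), 1 ≤ M → (M : ℝ) ≤ y → (∀ u, |f u| ≤ 1) →
      (∀ u v, CgN M u v → f u = f v) → |∑ u ∈ W, w u * f u - V * denN M f| ≤ V * y ^ e) :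
    PB W w V y := fun M f h1 h2 h3 h4 => by
  have e1 := (abs_le.1 (h M f h1 h2 h3 h4)).2
  have e2 : y ^ e ≤ (y ^ d)⁻¹ := by
    rw [← Real.rpow_natCast, ← Real.rpow_neg (by linarith)]
    exact Real.rpow_le_rpow_of_exponent_le hy he
  have := mul_le_mul_of_nonneg_left e2 V0
  rw [div_eq_mul_inv]
  linarith

namespace ShiuA

/-- distribution in the classes to squarefree moduli -/
def Sq {d : ℕ} (W : Finset (Fin d → ℤ)) (w : (Fin d → ℤ) → ℝ) (V Z : ℝ) (P : Finset ℕ) : Prop :=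
  ∀ S ⊆ P, ∀ f : (Fin d → ℤ) → ℝ, ((∏ p ∈ S, p : ℕ) : ℝ) ≤ Z →
    (∀ u v, CgN (∏ p ∈ S, p) u v → f u = f v) → (∀ u, |f u| ≤ 1) →
    ∑ u ∈ W, w u * f u ≤ V * denN (∏ p ∈ S, p) f + V / Z

section
open SieveN

open Classical in
/-- Selberg's sieve for a weight. -/
theorem selberg {d : ℕ} (P : Finset ℕ) (hP : ∀ p ∈ P, p.Prime) (e : ℕ → (Fin d → ℤ) → Prop)
    (he : ∀ p ∈ P, ∀ u v, CgN p u v → (e p u ↔ e p v))
    (α : ℕ → ℝ) (hα : ∀ p ∈ P, denN p (fun u => if e p u then (1 : ℝ) else 0) = α p)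
    (a0 : ∀ p ∈ P, 0 ≤ α p) (a2 : ∀ p ∈ P, α p ≤ 1 / 2)
    {z Q : ℝ} (hz : 1 ≤ z) (Q0 : 0 ≤ Q) {W : Finset (Fin d → ℤ)} {w : (Fin d → ℤ) → ℝ}
    (w0 : ∀ u, 0 ≤ w u) (hH : Sq W w Q (z ^ 2) P) :
    (∑ u ∈ W, w u * if ∀ p ∈ P, ¬ e p u then (1 : ℝ) else 0) *
      G P (fun p => α p / (1 - α p)) z ≤ 2 * Q := by
  have a1 : ∀ p ∈ P, 0 < 1 - α p := fun p hp => by linarith [a2 p hp]
  set g : ℕ → ℝ := fun p => α p / (1 - α p) with hg
  have g0 : ∀ p ∈ P, 0 ≤ g p := fun p hp => div_nonneg (a0 p hp) (a1 p hp).le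
  have G1 := one_le_G g0 hz
  let η : ℕ → (Fin d → ℤ) → ℝ := fun p u => (α p - if e p u then 1 else 0) / (1 - α p)
  have m1 : ∀ p ∈ P, denN p (η p) = 0 := fun p hp => by
    have : η p = fun u => α p / (1 - α p) + (-1 / (1 - α p)) * if e p u then 1 else 0 :=
      funext fun u => by simp only [η]; ring
    rw [this, den_aff (hP p hp).pos, hα p hp]
    ring
  have m2 : ∀ p ∈ P, denN p (fun u => η p u * η p u) = g p := fun p hp => by
    have : (fun u => η p u * η p u) = fun u => α p ^ 2 / (1 - α p) ^ 2 +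
        (1 - 2 * α p) / (1 - α p) ^ 2 * if e p u then 1 else 0 :=
      funext fun u => by
        simp only [η]
        rw [div_mul_div_comm, ← sq, ← sq]
        split_ifs <;> ring
    have h1 := (a1 p hp).ne'
    rw [this, den_aff (hP p hp).pos, hα p hp]
    simp only [hg]
    field_simp
    ring
  have b1 : ∀ p ∈ P, ∀ u, |η p u| ≤ 1 := fun p hp u => by
    simp only [η]
    rw [abs_div, abs_of_pos (a1 p hp), div_le_iff₀ (a1 p hp), abs_le]
    have := a0 p hp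
    have := a2 p hp
    split_ifs <;> constructor <;> linarith
  have sub : ∀ S ∈ Sm P z, S ⊆ P := fun S hS => mem_powerset.1 (mem_filter.1 hS).1
  have b2 : ∀ S ∈ Sm P z, ∀ u, |∏ p ∈ S, η p u| ≤ 1 := fun S hS u => by
    rw [abs_prod]
    exact prod_le_one (fun _ _ => abs_nonneg _) fun p hp => b1 p (sub S hS hp) u
  have key : ∀ S ∈ Sm P z, ∀ T ∈ Sm P z,
      ∑ u ∈ W, w u * ((∏ p ∈ S, η p u) * ∏ p ∈ T, η p u) ≤
      Q * (if S = T then ∏ p ∈ S, g p else 0) + Q / z ^ 2 := fun S hS T hT => by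
    have u : S ∪ T ⊆ P := union_subset (sub S hS) (sub T hT)
    have e1 : ∀ x, (∏ p ∈ S, η p x) * ∏ p ∈ T, η p x =
        ∏ p ∈ S ∪ T, (if p ∈ S then η p x else 1) * if p ∈ T then η p x else 1 :=
      fun x => by
      rw [prod_mul_distrib, prod_ite_mem, prod_ite_mem, union_inter_cancel_left,
        union_inter_cancel_right]
    have per1 : ∀ p ∈ S ∪ T,
        Per p fun x => (if p ∈ S then η p x else 1) * if p ∈ T then η p x else 1 :=
      fun p hp x x' h => by simp only [η, he p (u hp) x x' h]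
    have D1 : ((∏ p ∈ S ∪ T, p : ℕ) : ℝ) ≤ z ^ 2 := by
      have : ∏ p ∈ S ∪ T, p ≤ (∏ p ∈ S, p) * ∏ p ∈ T, p := by
        rw [← prod_union_inter]
        exact Nat.le_mul_of_pos_right _ (prod_pos fun p hp =>
          (hP p (sub S hS (mem_inter.1 hp).1)).pos)
      refine (Nat.cast_le.2 this).trans ?_
      push_cast
      rw [sq]
      exact mul_le_mul (mem_filter.1 hS).2 (mem_filter.1 hT).2 (by positivity) (by linarith)
    have := hH (S ∪ T) u (fun x => ∏ p ∈ S ∪ T,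
        (if p ∈ S then η p x else 1) * if p ∈ T then η p x else 1) D1
      (fun x x' h => prod_congr rfl fun p hp => per1 p hp x x' fun i =>
        (Int.natCast_dvd_natCast.2 (dvd_prod_of_mem (fun p => p) hp)).trans (h i))
      (fun x => by
        rw [← e1, abs_mul]
        exact mul_le_one₀ (b2 S hS x) (abs_nonneg _) (b2 T hT x))
    rw [crtN _ (fun p hp => hP p (u hp)) d _ per1] at this
    simp only [e1]
    refine this.trans (add_le_add (le_of_eq ?_) le_rfl)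
    congr 1
    split_ifs with h
    · subst h
      rw [union_self]
      refine prod_congr rfl fun p hp => ?_
      simp only [if_pos hp, m2 p (sub S hS hp)]
    · obtain ⟨p, hp⟩ : ∃ p, ¬ (p ∈ S ↔ p ∈ T) := not_forall.1 fun h' => h (Finset.ext h')
      have hp' : p ∈ S ∪ T := by rw [mem_union]; tauto
      refine prod_eq_zero hp' ?_
      by_cases h1 : p ∈ S
      · simp only [if_pos h1, if_neg (show p ∉ T by tauto), mul_one]
        exact m1 p (u hp')
      · simp only [if_neg h1, if_pos (show p ∈ T by tauto), one_mul]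
        exact m1 p (u hp')
  have cnt : (#(Sm P z) : ℝ) ≤ z := by
    have := inj_sum (A := Sm P z) (fun S hS p hp => hP p (sub S hS hp)) (B := Icc 1 ⌊z⌋₊)
      (fun S hS => mem_Icc.2 ⟨prod_pos fun p hp => (hP p (sub S hS hp)).pos,
        Nat.le_floor (by simpa using (mem_filter.1 hS).2)⟩) (F := fun _ => 1) fun _ => zero_le_one
    simpa using this.trans (by simpa using Nat.floor_le (by linarith))
  have up : ∑ u ∈ W, w u * (∑ S ∈ Sm P z, ∏ p ∈ S, η p u) ^ 2 ≤ Q * G P g z + Q := by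
    have e : ∑ u ∈ W, w u * (∑ S ∈ Sm P z, ∏ p ∈ S, η p u) ^ 2 =
        ∑ S ∈ Sm P z, ∑ T ∈ Sm P z, ∑ u ∈ W, w u * ((∏ p ∈ S, η p u) * ∏ p ∈ T, η p u) := by
      simp only [sq (∑ S ∈ Sm P z, _), sum_mul_sum]
      simp only [mul_sum _ _ (w _)]
      rw [sum_comm]
      exact sum_congr rfl fun S _ => sum_comm
    rw [e]
    refine (sum_le_sum fun S hS => sum_le_sum (key S hS)).trans ?_
    simp only [sum_add_distrib, ← mul_sum, sum_ite_eq, sum_const, nsmul_eq_mul]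
    rw [sum_congr rfl fun S hS => if_pos hS]
    have h1 := mul_le_mul cnt cnt (Nat.cast_nonneg _) (by linarith)
    have z4 : 0 ≤ Q / z ^ 2 := by positivity
    have h2 := mul_le_mul_of_nonneg_right h1 z4
    have h3 : z * z * (Q / z ^ 2) = Q := by field_simp
    unfold G
    linarith
  have low : (∑ u ∈ W, w u * if ∀ p ∈ P, ¬ e p u then (1 : ℝ) else 0) *
      G P g z ^ 2 ≤ ∑ u ∈ W, w u * (∑ S ∈ Sm P z, ∏ p ∈ S, η p u) ^ 2 := by
    rw [sum_mul]
    refine sum_le_sum fun u _ => ?_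
    rw [mul_assoc]
    refine mul_le_mul_of_nonneg_left ?_ (w0 u)
    split_ifs with h
    · rw [one_mul]
      refine le_of_eq ?_
      congr 1
      refine sum_congr rfl fun S hS => prod_congr rfl fun p hp => ?_
      simp only [η, if_neg (h p (sub S hS hp)), sub_zero, hg]
    · rw [zero_mul]; exact sq_nonneg _
  have G2 : 0 < G P g z := by linarith
  refine le_of_mul_le_mul_right (a := G P g z) ?_ G2
  nlinarith [mul_le_mul_of_nonneg_left G1 Q0]

open J.Sieve Classical in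
theorem sieve (d : ℕ) (κ : ℝ) : ∃ δ C : ℝ, 0 < δ ∧ 0 < C ∧ ∀ (y V : ℝ) (W : Finset (Fin d → ℤ))
    (w : (Fin d → ℤ) → ℝ) (P : Finset ℕ) (Ω : ℕ → (Fin d → ℤ) → Prop), 1 ≤ y → 0 ≤ V →
    (∀ u, 0 ≤ w u) → Sq W w V √y P → (∀ q ∈ P, q.Prime ∧ (q : ℝ) ≤ y ^ δ) →
    (∀ q ∈ P, ∀ u v, CgN q u v → Ω q u → Ω q v) →
    (∀ q ∈ P, denN q (fun u => if Ω q u then 1 else 0) ≤ κ / q) →
    (∑ u ∈ W, w u * if ∀ q ∈ P, ¬ Ω q u then (1 : ℝ) else 0) ≤
      C * V * Real.exp (-∑ q ∈ P, denN q fun u => if Ω q u then 1 else 0) := by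
  set k := max κ 1 with hk
  have k1 : 1 ≤ k := le_max_right _ _
  refine ⟨1 / (80 * k), 4 * Real.exp ((2 * k + 1) * k), by positivity, by positivity,
    fun y V W w P Ω hy V0 w0 hH hP hΩ hden => ?_⟩
  set ρ : ℕ → ℝ := fun q => denN q fun u => if Ω q u then 1 else 0 with hρ
  have ρ0 : ∀ q, 0 ≤ ρ q := fun q =>
    div_nonneg (sum_nonneg fun u _ => by split_ifs <;> norm_num) (by positivity)
  have q0 : ∀ q ∈ P, (1 : ℝ) ≤ q := fun q hq => by exact_mod_cast (hP q hq).1.pos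
  have ρ1 : ∀ q ∈ P, ρ q ≤ k / q := fun q hq =>
    (hden q hq).trans (div_le_div_of_nonneg_right (le_max_left _ _) (by linarith [q0 q hq]))
  set P₁ := P.filter fun q : ℕ => 2 * k < q with hP₁
  have s1 : ∀ q ∈ P₁, q ∈ P := fun q hq => (mem_filter.1 hq).1
  have ρ2 : ∀ q ∈ P₁, ρ q ≤ 1 / 2 := fun q hq => by
    have h1 := (mem_filter.1 hq).2
    refine (ρ1 q (s1 q hq)).trans ?_
    rw [div_le_iff₀ (by linarith)]
    linarith
  have small : ∑ q ∈ P, ρ q ≤ ∑ q ∈ P₁, ρ q + (2 * k + 1) * k := by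
    rw [← sum_filter_add_sum_filter_not P fun q : ℕ => 2 * k < q]
    refine add_le_add le_rfl ((sum_le_card_nsmul _ _ k fun q hq => ?_).trans ?_)
    · have hq' := (mem_filter.1 hq).1
      exact (ρ1 q hq').trans (div_le_self (by linarith) (q0 q hq'))
    · rw [nsmul_eq_mul]
      refine mul_le_mul_of_nonneg_right ?_ (by linarith)
      have : (P.filter fun q : ℕ => ¬ 2 * k < q) ⊆ range (⌊2 * k⌋₊ + 1) := fun q hq =>
        mem_range.2 (Nat.lt_succ_of_le (Nat.le_floor (not_lt.1 (mem_filter.1 hq).2)))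
      have h2 := card_le_card this
      rw [card_range] at h2
      have h3 : ((P.filter fun q : ℕ => ¬ 2 * k < q).card : ℝ) ≤ ⌊2 * k⌋₊ + 1 := by
        exact_mod_cast h2
      linarith [Nat.floor_le (show 0 ≤ 2 * k by linarith)]
  set z := y ^ (1 / 4 : ℝ) with hz
  have z1 : 1 ≤ z := Real.one_le_rpow hy (by norm_num)
  have z4 : z ^ 2 = √y := by
    rw [hz, ← Real.rpow_natCast, ← Real.rpow_mul (by linarith), Real.sqrt_eq_rpow]; norm_num
  have main := selberg P₁ (fun p hp => (hP p (s1 p hp)).1) Ω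
    (fun p hp u v h => ⟨hΩ p (s1 p hp) u v h, hΩ p (s1 p hp) v u fun i => dvd_sub_comm.1 (h i)⟩) ρ
    (fun _ _ => rfl) (fun p _ => ρ0 p) ρ2 z1 V0 w0
    (W := W) (z4 ▸ fun S hS => hH S fun q hq => s1 q (hS hq))
  set g : ℕ → ℝ := fun p => ρ p / (1 - ρ p) with hg
  have g0 : ∀ p ∈ P₁, 0 ≤ g p := fun p hp => div_nonneg (ρ0 p) (by linarith [ρ2 p hp])
  have low : Real.exp (∑ q ∈ P₁, ρ q) ≤ 2 * G P₁ g z := by
    rcases P₁.eq_empty_or_nonempty with h | ⟨q, hq⟩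
    · have := one_le_G g0 z1
      rw [h, sum_empty, Real.exp_zero, ← h]
      linarith
    have w2 : 2 ≤ y ^ (1 / (80 * k)) :=
      le_trans (by exact_mod_cast (hP q (s1 q hq)).1.two_le) (hP q (s1 q hq)).2
    have y1 : 1 < y := by
      rcases eq_or_lt_of_le hy with h | h
      · rw [← h, Real.one_rpow] at w2; linarith
      · exact h
    have h1 := mertens P₁ (fun p hp => (hP p (s1 p hp)).1) w2 fun p hp => (hP p (s1 p hp)).2
    rw [Real.log_rpow (by linarith)] at h1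
    refine le_trans ?_ (G_low P₁ (fun p hp => (hP p (s1 p hp)).1) g g0
      (Real.one_lt_rpow y1 (by norm_num)) ?_)
    · rw [Real.exp_sum]
      refine prod_le_prod (fun p _ => (Real.exp_pos _).le) fun p hp => ?_
      have h2 : 0 < 1 - ρ p := by linarith [ρ2 p hp]
      have h3 := Real.add_one_le_exp (-ρ p)
      have h4 : 1 + g p = (1 - ρ p)⁻¹ := by simp only [hg]; field_simp; ring
      rw [h4, ← inv_inv (Real.exp (ρ p)), ← Real.exp_neg]
      exact inv_anti₀ h2 (by linarith)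
    · rw [hz, Real.log_rpow (by linarith)]
      have h2 : ∑ p ∈ P₁, g p / (1 + g p) * Real.log p ≤ k * ∑ p ∈ P₁, Real.log p / p := by
        rw [mul_sum]
        refine sum_le_sum fun p hp => ?_
        have h2 : 0 < 1 - ρ p := by linarith [ρ2 p hp]
        have h4 : g p / (1 + g p) = ρ p := by simp only [hg]; field_simp; ring
        rw [h4]
        refine (mul_le_mul_of_nonneg_right (ρ1 p (s1 p hp)) (Real.log_natCast_nonneg p)).trans
          (le_of_eq (by ring))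
      refine h2.trans ((mul_le_mul_of_nonneg_left h1 (by linarith)).trans (le_of_eq ?_))
      field_simp
      ring
  have cnt : (∑ u ∈ W, w u * if ∀ q ∈ P, ¬ Ω q u then (1 : ℝ) else 0) ≤
      ∑ u ∈ W, w u * if ∀ p ∈ P₁, ¬ Ω p u then (1 : ℝ) else 0 := by
    refine sum_le_sum fun u _ => mul_le_mul_of_nonneg_left ?_ (w0 u)
    by_cases h : ∀ q ∈ P, ¬ Ω q u
    · rw [if_pos h, if_pos fun p hp => h p (s1 p hp)]
    · rw [if_neg h]
      split_ifs <;> norm_num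
  have G0 : 0 ≤ G P₁ g z := G_nonneg g0 z
  have n0 : 0 ≤ ∑ u ∈ W, w u * if ∀ q ∈ P, ¬ Ω q u then (1 : ℝ) else 0 :=
    sum_nonneg fun u _ => mul_nonneg (w0 u) (by split_ifs <;> norm_num)
  have h5 := (mul_le_mul_of_nonneg_right cnt G0).trans main
  have h6 := mul_le_mul_of_nonneg_left low n0
  have h7 : Real.exp (∑ q ∈ P, ρ q) ≤ Real.exp (∑ q ∈ P₁, ρ q) * Real.exp ((2 * k + 1) * k) := by
    rw [← Real.exp_add]; exact Real.exp_le_exp.2 small
  have h8 := mul_le_mul_of_nonneg_left h7 n0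
  have e1 := Real.exp_pos ((2 * k + 1) * k)
  rw [Real.exp_neg, ← div_eq_mul_inv, le_div_iff₀ (Real.exp_pos _)]
  refine h8.trans ?_
  rw [← mul_assoc]
  have h9 := mul_le_mul_of_nonneg_right (h6.trans (show _ ≤ 4 * V by linarith)) e1.le
  linarith

end

open ShiuN

open Classical in
/-- the bound for a periodic weight and a sieve condition -/
def Pb {d : ℕ} (κ δ C : ℝ) (W : Finset (Fin d → ℤ)) (w : (Fin d → ℤ) → ℝ) (V y : ℝ) : Prop :=
  ∀ (M : ℕ) (H : (Fin d → ℤ) → ℝ) (P : Finset ℕ) (Ω : ℕ → (Fin d → ℤ) → Prop), 0 < M →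
    (M : ℝ) ≤ √y → (∀ u, 0 ≤ H u) → Per M H →
    (∀ q ∈ P, q.Prime ∧ (q : ℝ) ≤ √y ^ δ ∧ M.Coprime q) →
    (∀ q ∈ P, ∀ u v, CgN q u v → Ω q u → Ω q v) →
    (∀ q ∈ P, denN q (fun u => if Ω q u then 1 else 0) ≤ κ / q) →
    ∑ u ∈ W, w u * (H u * if ∀ q ∈ P, ¬ Ω q u then 1 else 0) ≤
      C * V * denN M H * Real.exp (-∑ q ∈ P, denN q fun u => if Ω q u then 1 else 0)

theorem cg_trans {d M : ℕ} {u v x : Fin d → ℤ} (h : CgN M u v) (h' : CgN M v x) : CgN M u x :=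
  fun i => (dvd_add (h i) (h' i)).trans (dvd_of_eq (by ring))

open Classical in
theorem pb {d : ℕ} (hd : 0 < d) (κ : ℝ) : ∃ δ C : ℝ, 0 < δ ∧ 0 < C ∧ ∀ (y V : ℝ)
    (W : Finset (Fin d → ℤ)) (w : (Fin d → ℤ) → ℝ), 1 ≤ y → 0 ≤ V → (∀ u, 0 ≤ w u) →
    PB W w V y → Pb κ δ C W w V y := by
  obtain ⟨δ, C, δ0, C0, hs⟩ := sieve d κ
  refine ⟨δ, C, δ0, C0, fun y V W w hy V0 w0 h M H P Ω hM hMy H0 Hp hP hΩ hd' => ?_⟩
  have hM' : (0 : ℝ) < (M : ℝ) ^ d := by positivity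
  have s1 : 1 ≤ √y := Real.one_le_sqrt.2 hy
  have s2 : 1 ≤ √√y := Real.one_le_sqrt.2 s1
  have ss : √y * √y = y := Real.mul_self_sqrt (by linarith)
  have s3 : √√y ≤ √y := by nlinarith [Real.mul_self_sqrt (show 0 ≤ √y by linarith)]
  let I : (Fin d → ℤ) → (Fin d → ℤ) → ℝ := fun u₀ u => if CgN M u u₀ then 1 else 0
  have I0 : ∀ u₀ u, 0 ≤ I u₀ u := fun u₀ u => by simp only [I]; split_ifs <;> norm_num
  have I1 : ∀ u₀ u, |I u₀ u| ≤ 1 := fun u₀ u => by simp only [I]; split_ifs <;> norm_num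
  have Ip : ∀ u₀, Per M (I u₀) := fun u₀ => per_ind fun u v h1 h2 => cg_trans (CgN.symm h1) h2
  have Id : ∀ u₀ ∈ boxN (0 : Fin d → ℤ) fun _ => M, denN M (I u₀) = 1 / (M : ℝ) ^ d :=
    fun u₀ h0 => by
      rw [denN, sum_eq_single_of_mem u₀ h0 fun u hu hne => if_neg fun h => hne (eq_of_cg hu h0 h),
        if_pos (show CgN M u₀ u₀ from fun i => by simp)]
  have Is : ∀ u, H u = ∑ u₀ ∈ boxN (0 : Fin d → ℤ) fun _ => M, H u₀ * I u₀ u := fun u => by
    have h1 : CgN M u fun i => u i % M := fun i => Int.dvd_self_sub_emod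
    rw [sum_eq_single_of_mem _ (mod_mem hM u) fun v hv hne => ?_]
    · simp only [I]
      rw [if_pos h1, mul_one]
      exact Hp _ _ h1
    · simp only [I]
      rw [if_neg fun h => hne (eq_of_cg hv (mod_mem hM u) (cg_trans (CgN.symm h) h1)), mul_zero]
  have key : ∀ u₀ ∈ boxN (0 : Fin d → ℤ) fun _ => M,
      (∑ u ∈ W, w u * I u₀ u * if ∀ q ∈ P, ¬ Ω q u then (1 : ℝ) else 0) ≤ C * (V / (M : ℝ) ^ d) *
        Real.exp (-∑ q ∈ P, denN q fun u => if Ω q u then 1 else 0) := fun u₀ h0 => by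
    refine hs √y _ W (fun u => w u * I u₀ u) P Ω s1 (by positivity)
      (fun u => mul_nonneg (w0 u) (I0 _ _)) (fun S hS f f1 fp f2 => ?_)
      (fun q hq => ⟨(hP q hq).1, (hP q hq).2.1⟩) hΩ hd'
    have N0 : 0 < ∏ p ∈ S, p := prod_pos fun p hp => (hP p (hS hp)).1.pos
    have := h (M * ∏ p ∈ S, p) (fun u => I u₀ u * f u) (mul_pos hM N0)
      (by
        rw [Nat.cast_mul, ← ss]
        exact mul_le_mul hMy (f1.trans s3) (Nat.cast_nonneg _) (by linarith))
      (fun u => by rw [abs_mul]; exact mul_le_one₀ (I1 _ _) (abs_nonneg _) (f2 u))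
      (fun u v huv => by
        rw [Ip u₀ u v (CgN.of_dvd (dvd_mul_right _ _) huv),
          fp u v (CgN.of_dvd (dvd_mul_left _ _) huv)])
    rw [den_mul hM N0 (Nat.Coprime.prod_right fun p hp => (hP p (hS hp)).2.2) (Ip u₀) fp,
      Id u₀ h0] at this
    simp only [mul_assoc]
    refine this.trans (add_le_add (le_of_eq (by ring)) ?_)
    rw [div_div]
    refine div_le_div_of_nonneg_left V0 (by positivity) ?_
    calc (M : ℝ) ^ d * √√y ≤ √y ^ d * √y ^ d :=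
          mul_le_mul (by gcongr) (s3.trans (le_self_pow₀ s1 hd.ne')) (by positivity)
            (by positivity)
      _ = y ^ d := by rw [← mul_pow, ss]
  calc _ = ∑ u₀ ∈ boxN (0 : Fin d → ℤ) fun _ => M, H u₀ *
        ∑ u ∈ W, w u * I u₀ u * if ∀ q ∈ P, ¬ Ω q u then (1 : ℝ) else 0 := by
        simp only [mul_sum]
        rw [sum_comm]
        refine sum_congr rfl fun u _ => ?_
        rw [Is u, sum_mul, mul_sum]
        exact sum_congr rfl fun v _ => by ring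
    _ ≤ _ := sum_le_sum fun u₀ h0 => mul_le_mul_of_nonneg_left (key u₀ h0) (H0 u₀)
    _ = _ := by
        rw [← sum_mul, denN]
        ring

end ShiuA

end Pool.Agent.Lib.MP_9177b7_ag.S4
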