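import Pool.Agent.Lib.MP_9177b7_ag.B.ShiuN4
import Pool.Agent.Lib.MP_9177b7_ag.S4.ShiuA1

/-! Weighted sums over patterns. -/

noncomputable section

namespace Pool.Agent.Lib.MP_9177b7_ag.S4.ShiuA

open Finset B
open J.Shiu (mert sum_rpow_le inter exp_le loc pat expo sum_range_le)
open ShiuN hiding cover bad cls pb

variable {d : ℕ}

open Classical in
lemma cover {κ δ C y A : ℝ} (hC : 0 < C) (A0 : 0 ≤ A) {B : Finset (Fin d → ℤ)}
    {v : (Fin d → ℤ) → ℝ} (v0 : ∀ u, 0 ≤ v u) (hs : Pb κ δ C B v A y) {ι : Type} [Fintype ι] (p : ι → ℕ) (hi : Function.Injective p)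
    (hp : ∀ i, (p i).Prime) (hz : ∀ i, (p i : ℝ) ≤ √y ^ δ) (m : ℕ → ℕ)
    (h : ι → ℕ → (Fin d → ℤ) → ℝ) (h0 : ∀ i j u, 0 ≤ h i j u) (hP : ∀ i j, Per (p i ^ m j) (h i j))
    (w : ι → Prop) (Ω : ℕ → (Fin d → ℤ) → Prop) (hΩ : ∀ i u v, CgN (p i) u v → Ω (p i) u → Ω (p i) v)
    (hd : ∀ i, denN (p i) (fun u => if Ω (p i) u then 1 else 0) ≤ κ / p i)
    (V : Finset (Fin d → ℤ)) (hV : V ⊆ B) (f : (Fin d → ℤ) → ℝ) {K s : ℝ} (hK : 0 ≤ K) (hs0 : 0 ≤ s)
    (b : ι → ℕ → ℝ) (hb : ∀ i j, 0 ≤ b i j) (J : ℕ)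
    (hf : ∀ u ∈ V, ∃ π : ι → ℕ, (∀ i, π i ≤ J) ∧
      ∏ i, (p i : ℝ) ^ (if π i = 0 then 0 else m (π i)) ≤ √y ∧
      ∏ i, bb (p i) m (h i) (w i) (Ω (p i)) (π i) ≤ s * ∏ i, b i (π i) ∧
      f u ≤ K * ∏ i, (if π i = 0 then 1 else h i (π i) u) ∧ ∀ i, π i = 0 → w i → ¬ Ω (p i) u) :
    ∑ u ∈ V, v u * f u ≤ K * (C * A) * s * ∏ i, ∑ j ∈ range (J + 1), b i j := by
  let H : (ι → ℕ) → (Fin d → ℤ) → ℝ := fun π u => ∏ i, (if π i = 0 then 1 else h i (π i) u)
  have H0 : ∀ π u, 0 ≤ H π u := fun π u => prod_nonneg fun i _ => by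
    split_ifs
    · norm_num
    · exact h0 _ _ _
  let W : (ι → ℕ) → Finset ℕ := fun π => (univ.filter fun i => π i = 0 ∧ w i).image p
  let Φ : (ι → ℕ) → (Fin d → ℤ) → ℝ := fun π u => H π u * if ∀ q ∈ W π, ¬ Ω q u then 1 else 0
  have Φ0 : ∀ π u, 0 ≤ Φ π u := fun π u => mul_nonneg (H0 π u) (by split_ifs <;> norm_num)
  let Ad : Finset (ι → ℕ) := (Fintype.piFinset fun _ => range (J + 1)).filter fun π =>
    ∏ i, (p i : ℝ) ^ (if π i = 0 then 0 else m (π i)) ≤ √y ∧
      ∏ i, bb (p i) m (h i) (w i) (Ω (p i)) (π i) ≤ s * ∏ i, b i (π i)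
  have one : ∀ π ∈ Ad, ∑ u ∈ B, v u * Φ π u ≤ C * A * s * ∏ i, b i (π i) := by
    intro π hπ
    obtain ⟨-, h1, h2⟩ := mem_filter.1 hπ
    have hper : ∀ i, Per (p i ^ (if π i = 0 then 0 else m (π i)))
        fun u => if π i = 0 then 1 else h i (π i) u := fun i u v huv => by
      split_ifs at huv ⊢
      · rfl
      · exact hP _ _ u v huv
    have hW : ∀ q ∈ W π, ∃ i, π i = 0 ∧ p i = q := fun q hq => by
      obtain ⟨i, hi, rfl⟩ := mem_image.1 hq
      exact ⟨i, (mem_filter.1 hi).2.1, rfl⟩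
    have := hs (∏ i, p i ^ (if π i = 0 then 0 else m (π i))) (H π) (W π) Ω
      (prod_pos fun i _ => pow_pos (hp i).pos _) (by push_cast; exact h1) (H0 π)
      (fun u v huv => prod_congr rfl fun i _ =>
        (hper i).of_dvd (dvd_prod_of_mem (fun i => p i ^ (if π i = 0 then 0 else m (π i)))
          (mem_univ i)) u v huv)
      (fun q hq => by
        obtain ⟨i, h3, rfl⟩ := hW q hq
        refine ⟨hp i, hz i, Nat.Coprime.prod_left fun k _ => ?_⟩
        split_ifs with hk
        · simp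
        · exact Nat.Coprime.pow_left _ ((Nat.coprime_primes (hp k) (hp i)).2
            fun e => hk (hi e ▸ h3)))
      (fun q hq => by obtain ⟨i, -, rfl⟩ := hW q hq; exact hΩ i)
      (fun q hq => by obtain ⟨i, -, rfl⟩ := hW q hq; exact hd i)
    refine this.trans ?_
    rw [den_prod univ _ (fun i => pow_pos (hp i).pos _) (fun i j hij => Nat.Coprime.pow _ _
      ((Nat.coprime_primes (hp i) (hp j)).2 fun e => hij (hi e))) _ hper,
      sum_image hi.injOn, ← sum_neg_distrib, Real.exp_sum, prod_filter, mul_assoc, mul_assoc _ s,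
      ← prod_mul_distrib]
    refine mul_le_mul_of_nonneg_left ((le_of_eq (prod_congr rfl fun i _ => ?_)).trans h2)
      (by positivity)
    by_cases hk : π i = 0 <;> simp [bb, hk, den_one]
  calc ∑ u ∈ V, v u * f u ≤ ∑ u ∈ V, v u * (K * ∑ π ∈ Ad, Φ π u) := by
        refine sum_le_sum fun u hu => mul_le_mul_of_nonneg_left ?_ (v0 u)
        obtain ⟨π, h1, h2, h3, h4, h5⟩ := hf u hu
        refine h4.trans (mul_le_mul_of_nonneg_left ?_ hK)
        refine le_trans (le_of_eq ?_) (single_le_sum (fun π _ => Φ0 π u) (a := π)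
          (mem_filter.2 ⟨Fintype.mem_piFinset.2 fun i => mem_range.2 (Nat.lt_succ_of_le (h1 i)),
            h2, h3⟩))
        simp only [Φ]
        rw [if_pos, mul_one]
        intro q hq
        obtain ⟨i, hi, rfl⟩ := mem_image.1 hq
        exact h5 i (mem_filter.1 hi).2.1 (mem_filter.1 hi).2.2
    _ ≤ ∑ u ∈ B, v u * (K * ∑ π ∈ Ad, Φ π u) :=
        sum_le_sum_of_subset_of_nonneg hV fun u _ _ =>
          mul_nonneg (v0 u) (mul_nonneg hK (sum_nonneg fun π _ => Φ0 π u))
    _ ≤ K * ∑ π ∈ Ad, C * A * s * ∏ i, b i (π i) := by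
        simp only [mul_left_comm _ K, mul_sum _ _ (v _)]
        rw [← mul_sum, sum_comm]
        exact mul_le_mul_of_nonneg_left (sum_le_sum one) hK
    _ ≤ _ := by
        rw [← mul_sum, prod_univ_sum, mul_assoc K, mul_assoc K]
        gcongr
        · exact fun π _ _ => prod_nonneg fun i _ => hb _ _
        · exact filter_subset _ _

open Classical in
lemma bad {κ δ C θ : ℝ} (hκ : 0 ≤ κ) (hθ : 0 < θ) (hC : 0 < C) : ∃ K : ℝ, 0 ≤ K ∧
    ∀ {y A : ℝ} {B : Finset (Fin d → ℤ)} {v : (Fin d → ℤ) → ℝ} {ι : Type} [Fintype ι] (p : ι → ℕ) (c : ℕ) (z Y : ℝ)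
      (Lv : ι → ℕ → (Fin d → ℤ) → Prop) (lev : (Fin d → ℤ) → ι → ℕ) (V : Finset (Fin d → ℤ)),
      0 ≤ A → (∀ u, 0 ≤ v u) → Pb κ δ C B v A y → Function.Injective p → (∀ i, (p i).Prime) →
      (∀ i, (p i : ℝ) ≤ √y ^ δ) → (∀ i, (p i : ℝ) ≤ z) → 1 ≤ Y → (z ^ 2 * Y) ^ c ≤ √y →
      (∀ i j u v, CgN (p i ^ (c * j)) u v → Lv i j u → Lv i j v) →
      (∀ i j, 2 ≤ j → denN (p i ^ (c * j)) (fun u => if Lv i j u then 1 else 0) ≤
        κ * (p i : ℝ) ^ (-1 - θ * j)) → V ⊆ B →
      (∀ u ∈ V, ∀ i j, 2 ≤ j → j ≤ lev u i → Lv i j u) →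
      (∀ u ∈ V, Y < ∏ i, (p i : ℝ) ^ (if 2 ≤ lev u i then lev u i else 0)) →
      ∑ u ∈ V, v u ≤ K * A * Y ^ (-(θ / 2)) := by
  obtain ⟨K, hK⟩ := sum_rpow_le hθ
  set r : ℝ := 2 ^ (-(θ / 2)) with hr
  have r0 : 0 < r := by positivity
  have r1 : r < 1 := Real.rpow_lt_one_of_one_lt_of_neg one_lt_two (by linarith)
  have r2 : 0 < 1 - r := by linarith
  refine ⟨C * Real.exp (κ * (r ^ 2)⁻¹ * (1 - r)⁻¹ * K), by positivity, ?_⟩
  intro y A B v ι _ p c z Y Lv lev V A0 v0 hs hi hp hz hz' hY hM hP hd hV hL hbig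
  have p2 : ∀ i, (2 : ℝ) ≤ p i := fun i => by exact_mod_cast (hp i).two_le
  have p0 : ∀ i, (0 : ℝ) < p i := fun i => by linarith [p2 i]
  let b : ι → ℕ → ℝ := fun i j =>
    if j = 0 then 1 else if j = 1 then 0 else κ * (p i : ℝ) ^ (-1 - θ / 2 * j)
  have hb : ∀ i j, 0 ≤ b i j := fun i j => by
    simp only [b]
    split_ifs <;> positivity
  have := cover hC A0 v0 hs p hi hp hz (fun j => c * j)
    (fun i j u => if Lv i j u then 1 else 0) (fun i j u => by split_ifs <;> norm_num)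
    (fun i j => per_ind (hP i j)) (fun _ => False) (fun _ _ => False) (fun _ _ _ _ h => h)
    (fun i => by simp only [denN, if_false, sum_const_zero, zero_div]; positivity) V hV
    (fun _ => 1) (K := 1) (s := Y ^ (-(θ / 2))) zero_le_one (by positivity) b hb
    (V.sup fun u => univ.sup (lev u)) ?_
  · simp only [mul_one, one_mul] at this
    refine this.trans ?_
    have h1 : ∏ i, ∑ j ∈ range ((V.sup fun u => univ.sup (lev u)) + 1), b i j ≤
        Real.exp (κ * (r ^ 2)⁻¹ * (1 - r)⁻¹ * K) := by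
      refine le_trans (prod_le_prod (fun i _ => sum_nonneg fun j _ => hb i j)
        (g := fun i => Real.exp (κ * (r ^ 2)⁻¹ * (1 - r)⁻¹ * (p i : ℝ) ^ (-1 - θ)))
        fun i _ => ?_) ?_
      · refine le_trans ?_ (Real.add_one_le_exp _)
        have h2 : ∀ j, b i j ≤ κ * (r ^ 2)⁻¹ * (p i : ℝ) ^ (-1 - θ) * r ^ j +
            if j = 0 then 1 else 0 := fun j => by
          simp only [b]
          split_ifs with h0 h1
          · have : 0 ≤ κ * (r ^ 2)⁻¹ * (p i : ℝ) ^ (-1 - θ) * r ^ j := by positivity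
            linarith
          · positivity
          · obtain ⟨k, rfl⟩ : ∃ k, j = k + 2 := ⟨j - 2, by omega⟩
            have e1 : (p i : ℝ) ^ (-1 - θ / 2 * ((k + 2 : ℕ) : ℝ)) =
                (p i : ℝ) ^ (-1 - θ) * ((p i : ℝ) ^ (-(θ / 2))) ^ k := by
              rw [← Real.rpow_mul_natCast (p0 i).le, ← Real.rpow_add (p0 i)]
              congr 1
              push_cast
              ring
            have e2 : (p i : ℝ) ^ (-(θ / 2)) ≤ r :=
              Real.rpow_le_rpow_of_nonpos two_pos (p2 i) (by linarith)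
            have e3 : κ * (r ^ 2)⁻¹ * (p i : ℝ) ^ (-1 - θ) * r ^ (k + 2) =
                κ * ((p i : ℝ) ^ (-1 - θ) * r ^ k) := by field_simp; ring
            rw [e1, e3, add_zero]
            gcongr
        refine (sum_le_sum fun j _ => h2 j).trans ?_
        rw [sum_add_distrib, ← mul_sum, sum_ite_eq', if_pos (by simp)]
        have h3 := (summable_geometric_of_lt_one r0.le r1).sum_le_tsum
          (range ((V.sup fun u => univ.sup (lev u)) + 1)) fun j _ => by positivity
        rw [tsum_geometric_of_lt_one r0.le r1] at h3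
        have := mul_le_mul_of_nonneg_left h3
          (show 0 ≤ κ * (r ^ 2)⁻¹ * (p i : ℝ) ^ (-1 - θ) by positivity)
        linarith
      · rw [← Real.exp_sum, ← mul_sum]
        gcongr
        exact hK p hi
    calc _ ≤ C * A * Y ^ (-(θ / 2)) * Real.exp (κ * (r ^ 2)⁻¹ * (1 - r)⁻¹ * K) := by gcongr
      _ = _ := by ring
  intro u hu
  obtain ⟨π, h1, h2, h3⟩ := inter (fun i j => (p i : ℝ) ^ j) (fun i j => by positivity)
    (fun i j => j = 0 ∨ 2 ≤ j ∧ j ≤ lev u i) (fun _ => 0) (Y := Y) (Z := z ^ 2) (by positivity)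
    (fun i j hj h0 => by
      have hj := hj.resolve_left h0
      have z1 : 1 ≤ z := by linarith [p2 i, hz' i]
      by_cases h2 : j = 2
      · subst h2
        exact ⟨0, two_pos, Or.inl rfl, by rw [pow_zero, mul_one]; gcongr; exact hz' i⟩
      · obtain ⟨k, rfl⟩ : ∃ k, j = k + 1 := ⟨j - 1, by omega⟩
        refine ⟨k, by omega, Or.inr ⟨by omega, by omega⟩, ?_⟩
        rw [pow_succ']
        gcongr
        nlinarith [hz' i])
    (by simpa using hY) (fun i => if 2 ≤ lev u i then lev u i else 0)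
    (fun i => by split_ifs <;> simp [*]) (hbig u hu)
  refine ⟨π, fun i => ?_, ?_, ?_, le_of_eq ?_, fun _ _ h => h.elim⟩
  · rcases h1 i with h | h
    · omega
    · exact h.2.trans (le_sup2 lev hu i)
  · refine le_trans (le_of_eq ?_) ((pow_le_pow_left₀ (by positivity) h3 c).trans hM)
    rw [← prod_pow]
    refine prod_congr rfl fun i _ => ?_
    rw [← pow_mul, mul_comm]
    split_ifs with h <;> simp [*]
  · calc _ ≤ ∏ i, ((p i : ℝ) ^ π i) ^ (-(θ / 2)) * b i (π i) := by
          refine prod_le_prod (fun i _ => ?_) fun i _ => ?_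
          · exact bb_nonneg _ _ _ _ _ fun j u => by split_ifs <;> norm_num
          · rcases h1 i with h | h
            · simp [bb, b, h]
            · simp only [bb, b]
              rw [if_neg (by omega), if_neg (by omega), if_neg (by omega)]
              refine (hd i _ h.1).trans (le_of_eq ?_)
              rw [← Real.rpow_natCast_mul (p0 i).le, mul_left_comm, ← Real.rpow_add (p0 i)]
              congr 2
              ring
      _ ≤ _ := by
          rw [prod_mul_distrib, Real.finsetProd_rpow _ _ fun i _ => by positivity]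
          exact mul_le_mul_of_nonneg_right (Real.rpow_le_rpow_of_nonpos (by linarith) h2.le
            (by linarith)) (prod_nonneg fun i _ => hb _ _)
  · rw [one_mul]
    refine (prod_eq_one fun i _ => ?_).symm
    rcases h1 i with h | h
    · rw [if_pos h]
    · rw [if_pos (hL u hu i _ h.1 h.2), ite_self]

open Classical in
lemma cls {κ δ C T : ℝ} (hκ : 1 ≤ κ) (hT : 0 ≤ T) (hC : 0 < C) : ∃ K : ℝ, 0 ≤ K ∧
    ∀ {y A : ℝ} {B : Finset (Fin d → ℤ)} {v : (Fin d → ℤ) → ℝ} {ι : Type} [Fintype ι] (p : ι → ℕ) (c J : ℕ)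
      (z X Y lo hi σ W : ℝ) (Q : ι → Prop) (Ω : ℕ → (Fin d → ℤ) → Prop) (h : ι → ℕ → (Fin d → ℤ) → ℝ)
      (e₁ e₂ : ι → ℝ) (V : Finset (Fin d → ℤ)) (f : (Fin d → ℤ) → ℝ),
      0 ≤ A → (∀ u, 0 ≤ v u) → Pb κ δ C B v A y → Function.Injective p → (∀ i, (p i).Prime) →
      (∀ i, (p i : ℝ) ≤ √y ^ δ) → (∀ i, (p i : ℝ) ≤ z) → 1 ≤ z → 1 < lo → 1 ≤ hi → 0 ≤ σ →
      σ * Real.log hi ≤ T → 0 < Y → 0 ≤ W → X ^ (2 * c) ≤ √y →
      (∀ i j u, 0 ≤ h i j u) → (∀ i j, Per (p i ^ (c * (j + 1))) (h i j)) →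
      (∀ i u v, CgN (p i) u v → Ω (p i) u → Ω (p i) v) →
      (∀ i, denN (p i) (fun u => if Ω (p i) u then 1 else 0) ≤ κ / p i) →
      (∀ i, denN (p i ^ (c * 2)) (h i 1) ≤ e₁ i) → (∀ i, e₁ i ≤ κ ^ 2 / p i ∧ e₂ i ≤ κ ^ 2 / p i) →
      (∀ i, ∑ j ∈ Icc 2 J, denN (p i ^ (c * (j + 1))) (h i j) ≤ e₂ i) → V ⊆ B →
      (∀ u ∈ V, ∃ π : ι → ℕ, (∀ i, π i ≤ J) ∧ ∏ i, (p i : ℝ) ^ π i ≤ X ∧
        Y ^ σ ≤ (∏ i, if π i = 1 then (p i : ℝ) else 1) ^ σ ∧ (∀ i, Q i → 2 ≤ π i) ∧
        (∀ i, π i = 1 → (p i : ℝ) ≤ hi) ∧ (∀ i, π i = 0 → (p i : ℝ) ≤ lo → ¬ Ω (p i) u) ∧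
        f u ≤ W * ∏ i, if π i = 0 then 1 else h i (π i) u) →
      ∑ u ∈ V, v u * f u ≤ K * A * (W * Y ^ (-σ) * Real.exp (3 * κ * (Real.log z / Real.log lo))) *
        (Real.exp (∑ i with ¬ Q i, (e₁ i + e₂ i - denN (p i) fun u => if Ω (p i) u then 1 else 0)) *
          ∏ i with Q i, e₂ i) := by
  obtain ⟨K₁, hK₁⟩ := sum_rpow_le one_pos
  set K := κ ^ 2 * (2 + T * Real.exp T) with hK
  have κ0 : 0 ≤ κ := by linarith
  have K0 : 0 ≤ K := by positivity
  refine ⟨C * Real.exp (3 * κ ^ 2 * Real.exp T * T + K * κ * Real.exp κ * K₁), by positivity, ?_⟩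
  intro y A B v ι _ p c J z X Y lo hi σ W Q Ω h e₁ e₂ V f A0 v0 hs hi' hp hz hz' z1 lo1 hi1 σ0 σT Y0
    W0 hX h0 hP hΩ hd he₁ he he₂ hV hf
  have p2 : ∀ i, (2 : ℝ) ≤ p i := fun i => by exact_mod_cast (hp i).two_le
  have p0 : ∀ i, (0 : ℝ) < p i := fun i => by linarith [p2 i]
  have l0 : 0 < Real.log lo := Real.log_pos lo1
  let β : ι → ℕ → ℝ := fun i j =>
    bb (p i) (fun j => c * (j + 1)) (h i) ((p i : ℝ) ≤ lo) (Ω (p i)) j
  have β0 : ∀ i j, 0 ≤ β i j := fun i j => bb_nonneg _ _ _ _ _ (h0 i)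
  let b : ι → ℕ → ℝ := fun i j => if Q i then (if 2 ≤ j then β i j else 0) else
    if j = 1 then (if (p i : ℝ) ≤ hi then β i j * (p i : ℝ) ^ σ else 0) else β i j
  have hb : ∀ i j, 0 ≤ b i j := fun i j => by
    have := β0 i j
    simp only [b]
    split_ifs <;> positivity
  have e20 : ∀ i, 0 ≤ e₂ i := fun i =>
    (sum_nonneg fun j _ => den_nonneg _ (h0 i j)).trans (he₂ i)
  have hβ : ∀ i, ∑ j ∈ Icc 2 J, β i j ≤ e₂ i := fun i => by
    refine (le_of_eq (sum_congr rfl fun j hj => ?_)).trans (he₂ i)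
    simp only [β, bb]
    rw [if_neg (by have := (mem_Icc.1 hj).1; omega)]
  have := cover hC A0 v0 hs p hi' hp hz (fun j => c * (j + 1)) h h0 hP
    (fun i => (p i : ℝ) ≤ lo) Ω hΩ hd V hV f W0 (s := Y ^ (-σ)) (by positivity) b hb J ?_
  · refine this.trans ?_
    let er : ι → ℝ := fun i =>
      (if (p i : ℝ) ≤ hi then κ ^ 2 * Real.exp T * σ * (Real.log (p i) / p i) else 0) +
        K * κ * Real.exp κ / (p i : ℝ) ^ 2 + if (p i : ℝ) ≤ lo then 0 else κ / p i
    have er0 : ∀ i, 0 ≤ er i := fun i => by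
      have := Real.log_natCast_nonneg (p i)
      simp only [er]
      split_ifs <;> positivity
    have h1 : ∀ i, ∑ j ∈ range (J + 1), b i j ≤ (if Q i then e₂ i else
        Real.exp (e₁ i + e₂ i - denN (p i) fun u => if Ω (p i) u then 1 else 0)) *
          Real.exp (er i) := by
      intro i
      refine (sum_range_le (hb i) J).trans ?_
      by_cases hq : Q i
      · simp only [b, if_pos hq]
        rw [if_neg (by omega), if_neg (by omega), zero_add, zero_add,
          sum_congr rfl fun j hj => if_pos (mem_Icc.1 hj).1]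
        exact (hβ i).trans (le_mul_of_one_le_right (e20 i) (Real.one_le_exp (er0 i)))
      · simp only [b, if_neg hq]
        rw [if_neg zero_ne_one, if_pos trivial, sum_congr rfl fun j hj =>
          if_neg (show j ≠ 1 by have := (mem_Icc.1 hj).1; omega), ← Real.exp_add]
        have b1 : β i 1 ≤ e₁ i := (le_of_eq (by simp only [β, bb]; rw [if_neg one_ne_zero])).trans
          (he₁ i)
        have lg := Real.log_natCast_nonneg (p i)
        have b2 : (if (p i : ℝ) ≤ hi then β i 1 * (p i : ℝ) ^ σ else 0) ≤ e₁ i +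
            (if (p i : ℝ) ≤ hi then κ ^ 2 * Real.exp T * σ * (Real.log (p i) / p i) else 0) ∧
            (if (p i : ℝ) ≤ hi then κ ^ 2 * Real.exp T * σ * (Real.log (p i) / p i) else 0) ≤
              κ ^ 2 * (T * Real.exp T) / p i := by
          split_ifs with hh
          · have a1 : σ * Real.log (p i) ≤ T :=
              (mul_le_mul_of_nonneg_left (Real.log_le_log (p0 i) hh) σ0).trans σT
            have a2 : (p i : ℝ) ^ σ ≤ 1 + σ * Real.log (p i) * Real.exp T := by
              rw [Real.rpow_def_of_pos (p0 i), mul_comm]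
              refine (exp_le _).trans ?_
              gcongr
            constructor
            · calc _ ≤ β i 1 * (1 + σ * Real.log (p i) * Real.exp T) :=
                    mul_le_mul_of_nonneg_left a2 (β0 i 1)
                _ = β i 1 + β i 1 * (σ * Real.log (p i) * Real.exp T) := by ring
                _ ≤ e₁ i + κ ^ 2 / p i * (σ * Real.log (p i) * Real.exp T) := by
                    gcongr
                    exact b1.trans (he i).1
                _ = _ := by ring
            · calc _ = κ ^ 2 * (σ * Real.log (p i) * Real.exp T) / p i := by ring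
                _ ≤ _ := by gcongr
          · exact ⟨by linarith [β0 i 1], by have := p0 i; positivity⟩
        have b3 : 0 ≤ (if (p i : ℝ) ≤ hi then κ ^ 2 * Real.exp T * σ * (Real.log (p i) / p i)
            else 0) := by split_ifs <;> positivity
        have := loc (K := K) ((p i : ℝ) ≤ lo) (den_nonneg _ fun u => by split_ifs <;> norm_num) (hd i)
          (by linarith [p2 i]) κ0 (x := e₁ i + e₂ i +
            if (p i : ℝ) ≤ hi then κ ^ 2 * Real.exp T * σ * (Real.log (p i) / p i) else 0)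
          (by linarith [β0 i 1, e20 i]) (by
            have : K / p i = κ ^ 2 / p i + κ ^ 2 / p i + κ ^ 2 * (T * Real.exp T) / p i := by
              rw [hK]; ring
            linarith [(he i).1, (he i).2, b2.2])
        refine le_trans ?_ (this.trans (le_of_eq ?_))
        · have : β i 0 = if (p i : ℝ) ≤ lo then
              Real.exp (-denN (p i) fun u => if Ω (p i) u then 1 else 0) else 1 := by
            simp only [β, bb, if_true]
          linarith [b2.1, hβ i]
        · congr 1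
          simp only [er]
          ring
    have h2 : ∑ i, er i ≤ 3 * κ ^ 2 * Real.exp T * T + K * κ * Real.exp κ * K₁ +
        3 * κ * (Real.log z / Real.log lo) := by
      simp only [er, sum_add_distrib]
      gcongr ?_ + ?_ + ?_
      · rw [← sum_filter, ← mul_sum]
        calc _ ≤ κ ^ 2 * Real.exp T * σ * (3 * Real.log hi) := by
              gcongr
              exact mert _ p hi' hp hi1 fun i hi => (mem_filter.1 hi).2
          _ = 3 * κ ^ 2 * Real.exp T * (σ * Real.log hi) := by ring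
          _ ≤ _ := by gcongr
      · refine le_trans (le_of_eq ?_) (mul_le_mul_of_nonneg_left (hK₁ p hi') (by positivity))
        rw [mul_sum]
        refine sum_congr rfl fun i _ => ?_
        rw [show (-1 - 1 : ℝ) = -(2 : ℕ) by norm_num, Real.rpow_neg (p0 i).le, Real.rpow_natCast,
          div_eq_mul_inv]
      · calc _ ≤ ∑ i, κ / Real.log lo * (Real.log (p i) / p i) := by
              refine sum_le_sum fun i _ => ?_
              have lg := Real.log_natCast_nonneg (p i)
              split_ifs with hh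
              · positivity
              · have : Real.log lo ≤ Real.log (p i) := Real.log_le_log (by linarith) (not_le.1 hh).le
                calc _ = κ / Real.log lo * (Real.log lo / p i) := by field_simp
                  _ ≤ _ := by gcongr
          _ ≤ κ / Real.log lo * (3 * Real.log z) := by
              rw [← mul_sum]
              gcongr
              exact mert _ p hi' hp z1 fun i _ => hz' i
          _ = _ := by ring
    have h3 := prod_le_prod (s := univ) (fun i _ => sum_nonneg fun j _ => hb i j) fun i _ => h1 i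
    rw [prod_mul_distrib, prod_ite, ← Real.exp_sum, ← Real.exp_sum] at h3
    have h4 : 0 ≤ ∏ i with Q i, e₂ i := prod_nonneg fun i _ => e20 i
    calc _ ≤ W * (C * A) * Y ^ (-σ) * (((∏ i with Q i, e₂ i) * Real.exp (∑ i with ¬ Q i,
          (e₁ i + e₂ i - denN (p i) fun u => if Ω (p i) u then 1 else 0))) *
          Real.exp (3 * κ ^ 2 * Real.exp T * T + K * κ * Real.exp κ * K₁ +
            3 * κ * (Real.log z / Real.log lo))) := by
          gcongr
          exact h3.trans (by gcongr)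
      _ = _ := by rw [Real.exp_add]; ring
  intro u hu
  obtain ⟨π, h1, h2, h3, h4, h5, h6, h7⟩ := hf u hu
  refine ⟨π, h1, ?_, ?_, h7, h6⟩
  · refine le_trans ?_ ((pow_le_pow_left₀ (prod_nonneg fun i _ => by positivity) h2 _).trans hX)
    rw [← prod_pow]
    refine prod_le_prod (fun i _ => by positivity) fun i _ => ?_
    rw [← pow_mul]
    refine pow_le_pow_right₀ (by linarith [p2 i]) ?_
    split_ifs with hh
    · omega
    · have : 1 ≤ π i := by omega
      nlinarith
  · have e : ∏ i, b i (π i) = (∏ i, if π i = 1 then (p i : ℝ) else 1) ^ σ * ∏ i, β i (π i) := by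
      rw [← Real.finsetProd_rpow _ _ fun i _ => by split_ifs <;> positivity, ← prod_mul_distrib]
      refine prod_congr rfl fun i _ => ?_
      simp only [b]
      by_cases hq : Q i
      · have := h4 i hq
        rw [if_pos hq, if_pos this, if_neg (by omega), Real.one_rpow, one_mul]
      · rw [if_neg hq]
        by_cases hh : π i = 1
        · rw [if_pos hh, if_pos hh, if_pos (h5 i hh), mul_comm]
        · rw [if_neg hh, if_neg hh, Real.one_rpow, one_mul]
    rw [e, ← mul_assoc]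
    refine le_mul_of_one_le_left (prod_nonneg fun i _ => β0 _ _) ?_
    rw [Real.rpow_neg Y0.le, ← div_eq_inv_mul, one_le_div (by positivity)]
    exact h3

end Pool.Agent.Lib.MP_9177b7_ag.S4.ShiuA
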