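import Pool.Agent.Lib.MP_9177b7_ag.B.StA

/-!
Measures invariant under the diagonal group of `Sp_4(ℚ_p)`: definitions and statements.
-/

open MeasureTheory ProbabilityTheory Filter Topology Set Matrix
open scoped ENNReal

noncomputable section

namespace Pool.Agent.Lib.MP_9177b7_ag.S4

/-- The standard symplectic form. -/
def J4 (R : Type) [CommRing R] : Matrix (Fin 4) (Fin 4) R :=
  !![0, 0, 1, 0; 0, 0, 0, 1; -1, 0, 0, 0; 0, -1, 0, 0]

/-- The symplectic group. -/
def SP (R : Type) [CommRing R] : Subgroup (SpecialLinearGroup (Fin 4) R) where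
  carrier := {g | g.1ᵀ * J4 R * g.1 = J4 R}
  one_mem' := by simp
  mul_mem' {g h} hg hh := by
    change (g.1 * h.1)ᵀ * J4 R * (g.1 * h.1) = J4 R
    calc _ = h.1ᵀ * (g.1ᵀ * J4 R * g.1) * h.1 := by simp only [transpose_mul, mul_assoc]
      _ = _ := by rw [hg, hh]
  inv_mem' {g} hg := by
    change g⁻¹.1ᵀ * J4 R * g⁻¹.1 = J4 R
    have e : g.1 * g⁻¹.1 = 1 := congrArg Subtype.val (mul_inv_cancel g)
    calc _ = g⁻¹.1ᵀ * (g.1ᵀ * J4 R * g.1) * g⁻¹.1 := by rw [hg]
      _ = (g.1 * g⁻¹.1)ᵀ * J4 R * (g.1 * g⁻¹.1) := by simp only [transpose_mul, mul_assoc]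
      _ = _ := by rw [e, transpose_one, one_mul, mul_one]

/-- The signs of the form. -/
def sg (R : Type) [CommRing R] (i : Fin 4) : R := ![1, 1, -1, -1] i

/-- The coefficient of the second entry of a root element. -/
def cf (R : Type) [CommRing R] (i j : Fin 4) : R := if j = i + 2 then 0 else -(sg R i * sg R j)

theorem ne2 {i j : Fin 4} (h : i ≠ j) : j + 2 ≠ i + 2 := fun e => h (add_right_cancel e).symm

/-- Root elements: the entry `(i, j)` is `s`. -/
def ur {R : Type} [CommRing R] {i j : Fin 4} (h : i ≠ j) (s : R) : SP R :=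
  ⟨SpecialLinearGroup.transvection h s * SpecialLinearGroup.transvection (ne2 h) (cf R i j * s), by
    change (transvection i j s * transvection (j + 2) (i + 2) (cf R i j * s))ᵀ * J4 R *
      (transvection i j s * transvection (j + 2) (i + 2) (cf R i j * s)) = J4 R
    fin_cases i <;> fin_cases j <;> first | exact absurd rfl h | skip
    all_goals
      ext a b
      fin_cases a <;> fin_cases b <;>
        simp [J4, cf, sg, transvection, Matrix.mul_apply, Fin.sum_univ_four, one_apply,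
          single_apply]⟩

instance spMeas (F : Type) [CommRing F] [TopologicalSpace F] : MeasurableSpace (SP F) := borel _

instance spBorel (F : Type) [CommRing F] [TopologicalSpace F] : BorelSpace (SP F) := ⟨rfl⟩

theorem spClosed (F : Type) [NormedField F] :
    IsClosed (SP F : Set (SpecialLinearGroup (Fin 4) F)) :=
  isClosed_eq (f := fun g : SpecialLinearGroup (Fin 4) F => g.1ᵀ * J4 F * g.1)
    (((continuous_subtype_val.matrix_transpose).matrix_mul continuous_const).matrix_mul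
      continuous_subtype_val) continuous_const

instance spPolish (F : Type) [NormedField F] [ProperSpace F] : PolishSpace (SP F) :=
  haveI := B.slPolishN 1 F
  (spClosed F).polishSpace

instance spLC (F : Type) [NormedField F] [ProperSpace F] : LocallyCompactSpace (SP F) :=
  haveI := B.slLCN 1 F
  (spClosed F).locallyCompactSpace

section conc

variable (p : ℕ) [Fact p.Prime]

/-- The group `Sp_4(ℚ_p)`. -/
abbrev HQ : Type := SP ℚ_[p]

/-- The diagonal matrix with entries `p ^ (k i - k (i + 2))`. -/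
def dg (k : Fin 4 → ℤ) : HQ p :=
  have hp : (p : ℚ_[p]) ≠ 0 := Nat.cast_ne_zero.2 (Fact.out : p.Prime).ne_zero
  ⟨⟨Matrix.diagonal fun i => (p : ℚ_[p]) ^ (k i - k (i + 2)), by
    rw [det_diagonal, Fin.prod_univ_four, ← zpow_add₀ hp, ← zpow_add₀ hp, ← zpow_add₀ hp]
    change (p : ℚ_[p]) ^ (k 0 - k 2 + (k 1 - k 3) + (k 2 - k 0) + (k 3 - k 1)) = 1
    rw [show k 0 - k 2 + (k 1 - k 3) + (k 2 - k 0) + (k 3 - k 1) = 0 by ring, zpow_zero]⟩, by
    change (Matrix.diagonal _)ᵀ * J4 _ * Matrix.diagonal _ = J4 _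
    ext a b
    rw [diagonal_transpose, mul_diagonal, diagonal_mul]
    fin_cases a <;> fin_cases b <;> simp [J4, ← zpow_add₀ hp]⟩

/-- Integral matrices. -/
def Intg {p : ℕ} [Fact p.Prime] (h : HQ p) : Prop := ∀ i j, ‖h.1 i j‖ ≤ 1

/-- Integral matrices which are block diagonal modulo `p ^ m`. -/
def KI (I : Finset (Fin 4)) (m : ℕ) : Set (HQ p) :=
  {h | Intg h ∧ ∀ i j, ¬ (i ∈ I ↔ j ∈ I) → ‖h.1 i j‖ ≤ ((p : ℝ) ^ m)⁻¹}

/-- A space with an action of `Sp_4(ℚ_p) × C` whose orbits are open. -/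
structure Sp where
  C : Type
  X : Type
  [gC : Group C]
  [tC : TopologicalSpace C]
  [tgC : IsTopologicalGroup C]
  [pC : PolishSpace C]
  [tX : TopologicalSpace X]
  [pX : PolishSpace X]
  [lX : LocallyCompactSpace X]
  [mX : MeasurableSpace X]
  [bX : BorelSpace X]
  [ac : MulAction (HQ p × C) X]
  [cs : ContinuousSMul (HQ p × C) X]
  opn : ∀ x : X, IsOpenMap fun g : HQ p × C => g • x
  inj : ∀ Q : Set X, IsCompact Q → ∃ O ∈ 𝓝 (1 : C), ∀ x ∈ Q, ∀ h : HQ p, Intg h → ∀ c ∈ O,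
    ((h, c) : HQ p × C) • x = x → h = 1

attribute [instance] Sp.gC Sp.tC Sp.tgC Sp.pC Sp.tX Sp.pX Sp.lX Sp.mX Sp.bX Sp.ac Sp.cs

namespace Sp

variable {p} (S : Sp p)

instance : MulAction (HQ p) S.X := MulAction.compHom S.X (MonoidHom.inl (HQ p) S.C)

theorem smul_def (h : HQ p) (x : S.X) : h • x = ((h, 1) : HQ p × S.C) • x := rfl

instance : ContinuousSMul (HQ p) S.X :=
  ⟨show Continuous fun q : HQ p × S.X => ((q.1, 1) : HQ p × S.C) • q.2 by fun_prop⟩

/-- Invariance under the diagonal group. -/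
def AInv (ν : Measure S.X) : Prop := ∀ k : Fin 4 → ℤ, ν.map (dg p k • ·) = ν

/-- Tubes around `SL_2 × SL_2` and around the two Siegel Levi subgroups have small measure. -/
def Tube (ν : Measure S.X) : Prop :=
  ∃ O ∈ 𝓝 (1 : S.C), ∃ C₀ κ : ℝ, 0 < κ ∧ ∀ I : Finset (Fin 4), I.card = 2 → ∀ (m : ℕ) (x : S.X),
    ν {y | ∃ h ∈ KI p I m, ∃ c ∈ O, y = ((h, c) : HQ p × S.C) • x} ≤
      ENNReal.ofReal (C₀ * (p : ℝ) ^ (-(κ * m)))

end Sp

end conc

/-- The measure classification. -/
def DynStmt : Prop :=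
  ∀ (p : ℕ) [Fact p.Prime] (S : Sp p) (ν : Measure S.X) [IsProbabilityMeasure ν], p ≠ 2 →
    S.AInv ν → S.Tube ν → ∀ h : HQ p, ν.map (h • ·) = ν

/-- The symplectic group over a field is generated by the root elements. -/
def GenStmt : Prop :=
  ∀ (F : Type) [Field F] (S : Subgroup (SP F)),
    (∀ (i j : Fin 4) (h : i ≠ j) (s : F), ur h s ∈ S) → S = ⊤

/-- Stabilisers in the quotient by an irreducible discrete subgroup. -/
def InjStmt : Prop :=
  ∀ (H C : Type) [Group H] [TopologicalSpace H] [IsTopologicalGroup H] [LocallyCompactSpace H]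
    [T2Space H] [Group C] [TopologicalSpace C] [IsTopologicalGroup C] [LocallyCompactSpace C]
    [T2Space C] (Γ : Subgroup (H × C)) [DiscreteTopology Γ] (K : Set H), IsCompact K →
    (∀ γ ∈ Γ, γ.2 = 1 → γ = 1) → ∀ Q : Set ((H × C) ⧸ Γ), IsCompact Q →
    ∃ O ∈ 𝓝 (1 : C), ∀ x ∈ Q, ∀ h ∈ K, ∀ c ∈ O, ((h, c) : H × C) • x = x → h = 1

end Pool.Agent.Lib.MP_9177b7_ag.S4
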