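import Pool.Agent.Lib.MP_9177b7_ag.S4.Defs

/-!
The `p`-arithmetic quotient of `Sp_4`: definitions and statements.
-/

open MeasureTheory Filter Topology Set Matrix
open scoped ENNReal BoundedContinuousFunction

noncomputable section

namespace Pool.Agent.Lib.MP_9177b7_ag.S4

/-- Square matrices of size four. -/
abbrev M4 (R : Type) : Type := Matrix (Fin 4) (Fin 4) R

/-- Bivectors `e ∧ f` of hyperbolic pairs. -/
structure Ob {R : Type} [CommRing R] (P : M4 R) : Prop where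
  skew : Pᵀ = -P
  idem : P * J4 R * P = -P
  tr : trace (P * J4 R) = -2

/-- The action on bivectors. -/
def cj {R : Type} [CommRing R] (g P : M4 R) : M4 R := g * P * gᵀ

/-- The three invariants of the block diagonal groups. -/
def mv {R : Type} [CommRing R] (j : Fin 3) (Q : M4 R) : R :=
  ![Q 0 2, -(Q 0 1 * Q 2 3), Q 0 3 * Q 2 1] j

section conc

variable (p : ℕ) [Fact p.Prime]

/-- The group `Sp_4(ℚ_p) × Sp_4(ℝ)`. -/
abbrev GG : Type := HQ p × SP ℝ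

/-- The group `Sp_4(ℤ[1 / p])`, embedded diagonally. -/
def Gp : Subgroup (GG p) :=
  ((SpecialLinearGroup.map ((Rat.castHom ℚ_[p]).comp (J.RM p).subtype)).prod
    (SpecialLinearGroup.map ((Rat.castHom ℝ).comp (J.RM p).subtype))).range.comap
      ((SP ℚ_[p]).subtype.prodMap (SP ℝ).subtype)

/-- The `p`-arithmetic quotient. -/
abbrev XX : Type := GG p ⧸ Gp p

/-- Local freeness of the action of the integral points. -/
def Free : Prop :=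
  ∀ Q : Set (XX p), IsCompact Q → ∃ O ∈ 𝓝 (1 : SP ℝ), ∀ x ∈ Q, ∀ h : HQ p, Intg h → ∀ c ∈ O,
    ((h, c) : GG p) • x = x → h = 1

/-- The `p`-arithmetic quotient as an abstract space. -/
def sp [PolishSpace (XX p)] (hf : Free p) : Sp p where
  C := SP ℝ
  X := XX p
  opn x := by
    obtain ⟨g, rfl⟩ := QuotientGroup.mk_surjective x
    exact QuotientGroup.isOpenMap_coe.comp (isOpenMap_mul_right g)
  inj := hf

variable {p}

/-- The `p`-adic coordinates of a rational bivector. -/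
def oq (g : GG p) (P : M4 ℚ) : M4 ℚ_[p] := cj g.1.1.1 (P.map (Rat.castHom ℚ_[p]))

/-- The real coordinates of a rational bivector. -/
def oR (g : GG p) (P : M4 ℚ) : M4 ℝ := cj g.2.1.1 (P.map (Rat.castHom ℝ))

/-- `P` is a short object of the lattice `g` which satisfies a congruence. -/
structure Good (j : Fin 3) (c₀ : ℤ) (k : ℕ) (R : ℝ) (g : GG p) (P : M4 ℚ) : Prop where
  obj : Ob P
  den : ∀ a b, P a b ∈ J.RM p
  int : ∀ a b, ‖oq g P a b‖ ≤ 1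
  sz : ∀ a b, |oR g P a b| < R
  cg : ‖mv j (oq g P) - c₀‖ ≤ ((p : ℝ) ^ k)⁻¹

variable (p)

/-- Lattices with at least `K₀` short objects satisfying a congruence. -/
def Wg (j : Fin 3) (c₀ : ℤ) (k : ℕ) (R : ℝ) (K₀ : ℕ) : Set (GG p) :=
  {g | ∃ s : Finset (M4 ℚ), K₀ ≤ s.card ∧ ∀ P ∈ s, Good j c₀ k R g P}

/-- The image of `Wg` in the quotient. -/
def WW (j : Fin 3) (c₀ : ℤ) (k : ℕ) (R : ℝ) (K₀ : ℕ) : Set (XX p) :=
  QuotientGroup.mk '' Wg p j c₀ k R K₀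

/-- `π` is the projection onto the real quotient. -/
structure IsProj (π : XX p → YY) : Prop where
  cont : Continuous π
  mk' : ∀ g : GG p, Intg g.1 → π (QuotientGroup.mk g) = QuotientGroup.mk g.2
  smul : ∀ (g : SP ℝ) (x : XX p), π (((1, g) : GG p) • x) = g • π x

end conc

/-- Symplectic matrices have determinant one. -/
def DetStmt : Prop :=
  ∀ (R : Type) [CommRing R] (γ : M4 R), γᵀ * J4 R * γ = J4 R → γ.det = 1 ∧ γ * J4 R * γᵀ = J4 R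

/-- Discreteness and the integral points. -/
def DiscStmt : Prop :=
  ∀ (p : ℕ) [Fact p.Prime],
    (∀ g : GG p, g ∈ Gp p ↔ ∃ γ : M4 ℚ, (∀ i j, γ i j ∈ J.RM p) ∧
      g.1.1.1 = γ.map (Rat.castHom ℚ_[p]) ∧ g.2.1.1 = γ.map (Rat.castHom ℝ)) ∧
    (∀ γ : M4 ℚ, (∀ i j, γ i j ∈ J.RM p) → γᵀ * J4 ℚ * γ = J4 ℚ →
      ∃ g ∈ Gp p, g.1.1.1 = γ.map (Rat.castHom ℚ_[p]) ∧ g.2.1.1 = γ.map (Rat.castHom ℝ)) ∧
    (∀ g : SP ℝ, g ∈ G1 ↔ ∃ γ : M4 ℤ, g.1.1 = γ.map (Int.castRingHom ℝ)) ∧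
    (∀ x ∈ J.RM p, ‖(x : ℚ_[p])‖ ≤ 1 → ∃ z : ℤ, x = z) ∧
    (∀ g ∈ Gp p, Intg g.1 → g.2 ∈ G1) ∧
    (∀ g ∈ G1, ∃ h : HQ p, Intg h ∧ (h, g) ∈ Gp p) ∧
    (∀ g h : HQ p, Intg g → Intg h → Intg (g * h)) ∧ (∀ g : HQ p, Intg g → Intg g⁻¹) ∧
    IsCompact {h : HQ p | Intg h} ∧ IsOpen {h : HQ p | Intg h} ∧
    DiscreteTopology (Gp p) ∧ DiscreteTopology G1 ∧ PolishSpace (XX p) ∧ PolishSpace YY ∧ Free p

/-- Strong approximation at `p`. -/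
def DensPStmt : Prop := ∀ (p : ℕ) [Fact p.Prime] (h : HQ p), ∃ γ ∈ Gp p, Intg (h * γ.1)

/-- Density at the real place. -/
def DensRStmt : Prop :=
  ∀ (p : ℕ) [Fact p.Prime], Dense {g : GG p | ∃ h : HQ p, ∃ γ ∈ Gp p, g = (h, 1) * γ}

/-- Unimodularity. -/
def UnimodStmt : Prop :=
  ∀ (p : ℕ) [Fact p.Prime],
    (∀ (m : Measure (HQ p)) [m.IsHaarMeasure], m.IsMulRightInvariant) ∧
    (∀ (m : Measure (SP ℝ)) [m.IsHaarMeasure], m.IsMulRightInvariant) ∧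
    ∀ (m : Measure (GG p)) [m.IsHaarMeasure], m.IsMulRightInvariant

/-- The projections onto the real quotient and onto the Siegel threefold. -/
def ProjStmt : Prop :=
  (∀ (p : ℕ) [Fact p.Prime], ∃ π : XX p → YY, IsProj p π) ∧ Continuous proj ∧
    ∀ (g : SP ℝ) (P : Per) (d : Matrix (Fin 2) (Fin 2) ℂ),
      P.1 = d * (P0 * g.1.1.map Complex.ofReal) → proj (QuotientGroup.mk g) = Quot.mk _ P

/-- Every symplectic lattice has a short object; in the cusp it has many. -/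
def MahlerStmt : Prop :=
  ∃ R : ℝ, (∀ g : SP ℝ, ∃ P : M4 ℤ, Ob P ∧
      ∀ a b, |cj g.1.1 (P.map (Int.castRingHom ℝ)) a b| < R) ∧
    ∀ K₀ : ℕ, ∃ Ω : Set (SP ℝ), IsCompact Ω ∧ ∀ g : SP ℝ, (∃ γ ∈ G1, g * γ ∈ Ω) ∨
      ∃ s : Finset (M4 ℤ), K₀ ≤ s.card ∧ ∀ P ∈ s, Ob P ∧
        ∀ a b, |cj g.1.1 (P.map (Int.castRingHom ℝ)) a b| < R

/-- Tubes and neighbourhoods of the cusp are covered by the sets `WW`. -/
def TubeStmt : Prop :=
  ∀ (p : ℕ) [Fact p.Prime],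
    (∀ j c₀ k R K₀, IsOpen (WW p j c₀ k R K₀) ∧
      ∀ g : GG p, QuotientGroup.mk g ∈ WW p j c₀ k R K₀ ↔ g ∈ Wg p j c₀ k R K₀) ∧
    (∀ j c₀ k R (g : GG p) P, Intg g.1 → Good j c₀ k R g P →
      ∃ P' : M4 ℤ, Ob P' ∧ P = P'.map (Int.castRingHom ℚ)) ∧
    ∃ R : ℝ, (∃ O ∈ 𝓝 (1 : SP ℝ), ∀ I : Finset (Fin 4), I.card = 2 → ∃ j, ∀ (k : ℕ) (x : XX p),
        ∃ c₀ : ℤ, {y | ∃ h ∈ KI p I k, ∃ u ∈ O, y = ((h, u) : GG p) • x} ⊆ WW p j c₀ k R 1) ∧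
      ∀ k K₀ : ℕ, ∃ Q : Set (XX p), IsCompact Q ∧ ∀ x : XX p,
        x ∈ Q ∨ ∃ c₀ ∈ Finset.range (p ^ k), x ∈ WW p 0 c₀ k R K₀

/-- Equidistribution follows from invariance under the diagonal group and the counting bound. -/
def EquiStmt : Prop :=
  ∀ (p : ℕ) [Fact p.Prime] (π : XX p → YY) (ν : ℕ → Measure (XX p)), p ≠ 2 → IsProj p π →
    (∀ m, IsProbabilityMeasure (ν m)) →
    (∀ m (k : Fin 4 → ℤ), (ν m).map (((dg p k, 1) : GG p) • ·) = ν m) →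
    (∀ R : ℝ, ∃ C : ℝ, ∀ k K₀ : ℕ, 2 ≤ k → 1 ≤ K₀ → ∀ᶠ m in atTop, ∀ j c₀,
      ν m (WW p j c₀ k R K₀) ≤ ENNReal.ofReal (C * (p : ℝ) ^ (-(k : ℝ) / 2) / K₀)) →
    ∃ μ : @Measure YY (borel _),
      (∀ lam : @Measure YY (borel _), (lam Set.univ = 1 ∧
        ∀ g : SP ℝ, @Measure.map _ _ (borel _) (borel _) (g • ·) lam = lam) ↔ lam = μ) ∧
      ∀ f : YY →ᵇ ℝ, Tendsto (fun m => ∫ x, f (π x) ∂ν m) atTop (𝓝 (∫ y, f y ∂μ))

end Pool.Agent.Lib.MP_9177b7_ag.S4
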