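import Pool.Agent.Lib.MP_9177b7_ag.S4.StB
import Pool.Agent.Lib.MP_9177b7_ag.B.St

/-!
CM data of dihedral type, their lattices and invariants: definitions and statements.
-/

open NumberField Matrix MeasureTheory Filter Topology Pool.Agent.Shared.PrimeZeta
open scoped nonZeroDivisors ComplexConjugate ENNReal BoundedContinuousFunction

noncomputable section

namespace Pool.Agent.Lib.MP_9177b7_ag.S4

open B (Pp Cyc tsumP)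

/-- A CM datum together with an embedding into `ℚ_p`. -/
structure Dat (p : ℕ) [Fact p.Prime] where
  E : Type
  L : Type
  N : Type
  [fE : Field E]
  [nE : NumberField E]
  [cE : IsCMField E]
  [fL : Field L]
  [nL : NumberField L]
  [cL : IsCMField L]
  [fN : Field N]
  [nN : NumberField N]
  [aE : Algebra E N]
  [aL : Algebra L N]
  φ : N →+* ℂ
  r : N ≃ₐ[ℚ] N
  s : N ≃ₐ[ℚ] N
  ξ : E
  a : FractionalIdeal (𝓞 E)⁰ E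
  sp : Special L p φ r s ξ a
  ψ : N →+* ℚ_[p]

attribute [instance] Dat.fE Dat.nE Dat.cE Dat.fL Dat.nL Dat.cL Dat.fN Dat.nN Dat.aE Dat.aL

namespace Dat

variable {p : ℕ} [Fact p.Prime] (D : Dat p)

/-- The real subfield of `E`. -/
abbrev F : Type := maximalRealSubfield D.E

/-- The real subfield of `L`. -/
abbrev K : Type := maximalRealSubfield D.L

/-- Fractional ideals of `E`. -/
abbrev FE : Type := FractionalIdeal (𝓞 D.E)⁰ D.E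

/-- Fractional ideals of `L`. -/
abbrev FL : Type := FractionalIdeal (𝓞 D.L)⁰ D.L

/-- The class group of the reflex field. -/
abbrev Cl : Type := ClassGroup (𝓞 D.L)

/-- Complex conjugation on `N`. -/
def c : D.N ≃ₐ[ℚ] D.N := (D.r * D.s) ^ 2

/-- Complex conjugation on `E`. -/
abbrev bE (x : D.E) : D.E := IsCMField.complexConj D.E x

/-- Complex conjugation on `L`. -/
abbrev bL (x : D.L) : D.L := IsCMField.complexConj D.L x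

/-- The inclusion of `E`. -/
abbrev iE : D.E →+* D.N := algebraMap D.E D.N

/-- The inclusion of `L`. -/
abbrev iL : D.L →+* D.N := algebraMap D.L D.N

/-- The inclusion of `K`. -/
abbrev iK (x : D.K) : D.N := D.iL (x : D.L)

/-- The four embeddings of `E` into `N`. -/
def em (i : Fin 4) : D.E →+* D.N :=
  ((![1, D.r, D.c, D.c * D.r] i : D.N ≃ₐ[ℚ] D.N) : D.N →+* D.N).comp D.iE

/-- The four embeddings of `E` into `ℚ_p`. -/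
def ψE (i : Fin 4) : D.E →+* ℚ_[p] := D.ψ.comp (D.em i)

/-- The action of an automorphism on ideals of `O_N`. -/
def act (σ : D.N ≃ₐ[ℚ] D.N) (I : Ideal (𝓞 D.N)) : Ideal (𝓞 D.N) :=
  I.map (RingOfIntegers.mapRingHom (σ : D.N →+* D.N))

/-- Extension of ideals from `E` to `N`. -/
abbrev xE (I : Ideal (𝓞 D.E)) : Ideal (𝓞 D.N) := I.map (algebraMap (𝓞 D.E) (𝓞 D.N))

/-- Extension of ideals from `L` to `N`. -/
abbrev xL (I : Ideal (𝓞 D.L)) : Ideal (𝓞 D.N) := I.map (algebraMap (𝓞 D.L) (𝓞 D.N))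

/-- Extension of ideals from `K` to `L`. -/
abbrev xK (I : Ideal (𝓞 D.K)) : Ideal (𝓞 D.L) := I.map (algebraMap (𝓞 D.K) (𝓞 D.L))

/-- The conjugate of an ideal of `O_E`. -/
abbrev cE' (I : Ideal (𝓞 D.E)) : Ideal (𝓞 D.E) :=
  I.map (IsCMField.ringOfIntegersComplexConj D.E)

/-- The conjugate of an ideal of `O_L`. -/
abbrev cL' (I : Ideal (𝓞 D.L)) : Ideal (𝓞 D.L) :=
  I.map (IsCMField.ringOfIntegersComplexConj D.L)

/-- The type norm from `L` to `E`. -/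
abbrev nE' (b : Ideal (𝓞 D.L)) : Ideal (𝓞 D.E) := Ideal.relNorm (𝓞 D.E) (D.xL b)

/-- The type norm from `E` to `L`. -/
abbrev nL' (a : Ideal (𝓞 D.E)) : Ideal (𝓞 D.L) := Ideal.relNorm (𝓞 D.L) (D.xE a)

/-- The twisted lattice. -/
abbrev tw (b : Ideal (𝓞 D.L)) : D.FE := ((D.nE' b : Ideal (𝓞 D.E)) : D.FE)⁻¹ * D.a

/-- The twisted polarisation. -/
abbrev xi (b : Ideal (𝓞 D.L)) : D.E := Ideal.absNorm b * D.ξ

/-- A choice of an ideal and of a frame in every class. -/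
structure Sys where
  b : D.Cl → (Ideal (𝓞 D.L))⁰
  e : D.Cl → Fin 4 → D.E
  hb : ∀ x, ClassGroup.mk0 (b x) = x
  he : ∀ x, Frame (D.xi (b x)) (D.tw (b x)) (e x)

/-- The matrix of the embeddings of a frame. -/
def Em (e : Fin 4 → D.E) : M4 D.N := Matrix.of fun i k => D.em i (e k)

/-- The period matrix of a frame. -/
def Pm (e : Fin 4 → D.E) : Matrix (Fin 2) (Fin 4) ℂ :=
  Matrix.of fun i k => D.φ (D.em (Fin.castLE (by norm_num) i) (e k))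

/-- The coordinates of a bivector in the eigenbasis of the torus. -/
def PP (e : Fin 4 → D.E) (P : M4 ℤ) : M4 D.N :=
  D.Em e * P.map (Int.cast : ℤ → D.N) * (D.Em e)ᵀ

/-- The three invariants of a bivector. -/
def iv (ξ : D.E) (e : Fin 4 → D.E) (P : M4 ℤ) : Fin 3 → D.N :=
  ![D.em 0 ξ * D.PP e P 0 2, -(D.em 0 ξ * D.em 1 ξ * D.PP e P 0 1 * D.PP e P 2 3),
    D.em 0 ξ * D.em 1 ξ * D.PP e P 0 3 * D.PP e P 2 1]

/-- An object with bounded invariants that satisfies a congruence. -/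
def Good (ξ : D.E) (e : Fin 4 → D.E) (j : Fin 3) (c₀ : ℤ) (k : ℕ) (R : ℝ)
    (P : M4 ℤ) : Prop :=
  Ob P ∧ (∀ j', ‖D.φ (D.iv ξ e P j')‖ ≤ R) ∧ ‖D.ψ (D.iv ξ e P j) - c₀‖ ≤ ((p : ℝ) ^ k)⁻¹

/-- The lattice has many good objects. -/
def Ev (ξ : D.E) (e : Fin 4 → D.E) (j : Fin 3) (c₀ : ℤ) (k : ℕ) (R : ℝ) (K₀ : ℕ) : Prop :=
  ∃ S : Finset (M4 ℤ), K₀ ≤ S.card ∧ ∀ P ∈ S, D.Good ξ e j c₀ k R P

open Classical in
/-- The proportion of classes with a given property. -/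
def pr (P : D.Cl → Prop) : ℝ := ((Finset.univ.filter P).card : ℝ) / Fintype.card D.Cl

/-- `g` is a lift of the frame `e` to the `p`-arithmetic group. -/
def IsLift (e : Fin 4 → D.E) (g : GG p) : Prop :=
  Intg g.1 ∧ ∃ (t : Fin 4 → ℚ_[p]) (t' : Fin 2 → ℂ), g.1.1.1 = diagonal t * (D.Em e).map D.ψ ∧
    P0 * g.2.1.1.map Complex.ofReal = diagonal t' * D.Pm e

/-- The discriminant of `F`. -/
def Dn : ℕ := (discr D.F).natAbs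

/-- The norm of the relative discriminant of `E / F`. -/
def Dt : ℕ := (discr D.E).natAbs / D.Dn ^ 2

/-- The arithmetic invariants of a datum. -/
structure Ar where
  w : 𝓞 D.E
  θ : 𝓞 D.K
  Df : Ideal (𝓞 D.L)
  dK : Ideal (𝓞 D.K)
  nK : Ideal (𝓞 D.K)
  d₀ : ℤ
  c : ℤ
  m : ℤ
  sqf : Squarefree (D.Dn * D.Dt)
  Dn_gt : 1 < D.Dn
  Dt_gt : 1 < D.Dt
  cop : ¬ p ∣ D.Dn * D.Dt
  hd₀ : (D.Dn : ℤ) = 4 * d₀ + 1
  hm : c ^ 2 - D.Dt = D.Dn * m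
  w_sq : w ^ 2 = D.Dn
  w_bar : D.bE w = w
  w_r : D.r (D.iE w) = -D.iE w
  w_int : ∃ ω : 𝓞 D.E, 2 * ω = 1 + w
  θ_sq : θ ^ 2 = D.Dt
  θ_s : D.s (D.iK θ) = -D.iK θ
  θ_nrm : D.em 0 D.ξ * D.em 1 D.ξ * (FractionalIdeal.absNorm D.a : ℚ) * D.Dn * D.iK θ = -1
  Df_nrm : Ideal.absNorm Df = D.Dn
  Df_bar : D.cL' Df = Df
  Df_mem : ∀ z : 𝓞 D.L, z - IsCMField.ringOfIntegersComplexConj D.L z ∈ Df
  Df_sq : Df ^ 2 = D.xK dK
  Df_kill : ∀ z ∈ Df, ∀ y : 𝓞 D.E, ∃ u : 𝓞 D.N,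
    D.iL z * (D.iE y - D.r (D.iE y)) = D.iE w * u
  dn : dK * nK = Ideal.span {(D.Dn : 𝓞 D.K)}
  d_nrm : Ideal.absNorm dK = D.Dn
  n_nrm : Ideal.absNorm nK = D.Dn
  θ_n : θ - c ∈ nK
  θ_d : θ + c ∈ dK
  amb : ∀ g : Ideal (𝓞 D.L), g ≠ ⊥ → D.cL' g = g → ∃ (f : Ideal (𝓞 D.K)) (e : ℕ), e ∣ D.Dn ∧
    D.xK f = g * (Df ⊔ Ideal.span {(e : 𝓞 D.L)})
  nE_amb : ∀ e : ℕ, e ∣ D.Dn → Ideal.absNorm (Df ⊔ Ideal.span {(e : 𝓞 D.L)}) = e ∧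
    D.nE' (Df ⊔ Ideal.span {(e : 𝓞 D.L)}) = Ideal.span {w, (e : 𝓞 D.E)}
  dL : (discr D.L).natAbs = D.Dn * (discr D.K).natAbs ^ 2
  dK_ge : D.Dt ≤ (discr D.K).natAbs
  dK_le : (discr D.K).natAbs ≤ 4 * D.Dt

namespace Ar

variable {D} (A : D.Ar)

/-- The invariant `δ`. -/
def dl (t : ℤ) : ℤ := A.d₀ - t * (t + 1)

/-- The invariant `n`. -/
def nn (t k : ℤ) : ℤ := A.c * A.dl t + D.Dn * k

/-- The invariant `ν`. -/
def nu (t k : ℤ) : D.K := (A.nn t k - A.dl t * (A.θ : D.K)) / 2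

/-- The quadratic form. -/
def QQ (t k : ℤ) : ℤ := D.Dn * k ^ 2 + 2 * A.c * A.dl t * k + A.m * A.dl t ^ 2

/-- `g` has relative norm `ν 𝔫⁻¹`. -/
def Rel (t k : ℤ) (g : Ideal (𝓞 D.L)) : Prop :=
  ∃ ν : 𝓞 D.K, (ν : D.K) = A.nu t k ∧
    g * D.cL' g * D.xK A.nK = Ideal.span {algebraMap (𝓞 D.K) (𝓞 D.L) ν}

/-- The number of ideals with relative norm `ν 𝔫⁻¹`. -/
def rr (t k : ℤ) : ℕ := Nat.card {g : Ideal (𝓞 D.L) // A.Rel t k g}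

/-- The invariants of an object of a twisted lattice. -/
structure Inv (j : D.FL) (b : Ideal (𝓞 D.L)) (e : Fin 4 → D.E) (P : M4 ℤ)
    (t k : ℤ) (γ : D.L) (g : Ideal (𝓞 D.L)) : Prop where
  eta : D.iv (D.xi b) e P 0 = 1 / 2 + (2 * t + 1) / (2 * D.iE A.w)
  tau : D.Dn * D.iK A.θ * D.iv (D.xi b) e P 1 = (A.nn t k - A.dl t * D.iK A.θ) / 2
  tau' : D.Dn * D.iK A.θ * D.iv (D.xi b) e P 2 = -(A.nn t k + A.dl t * D.iK A.θ) / 2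
  gam : D.iL γ * D.iE A.w = Ideal.absNorm b * D.PP e P 2 3
  nrm : D.Dn * γ * D.bL γ = (FractionalIdeal.absNorm D.a : ℚ) * (A.nu t k : D.L)
  idl : (g : D.FL) * (b : D.FL) =
    FractionalIdeal.spanSingleton _ γ * j * ((D.cL' b : Ideal (𝓞 D.L)) : D.FL)
  rel : A.Rel t k g

end Ar

end Dat

/-- The compact torus. -/
def M0 (p : ℕ) [Fact p.Prime] : Set (GG p) :=
  {g | Intg g.1 ∧ (∀ i j, i ≠ j → g.1.1.1 i j = 0) ∧
    ∃ u : Fin 2 → ℂ, P0 * g.2.1.1.map Complex.ofReal = diagonal u * P0}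

/-- The Galois group and the embeddings. -/
def GalStmt : Prop :=
  ∀ (p : ℕ) [Fact p.Prime] (D : Dat p),
    IsGalois ℚ D.N ∧ D.c ≠ 1 ∧ D.c * D.c = 1 ∧ (∀ σ, σ * D.c = D.c * σ) ∧
    D.s * D.r = D.c * D.r * D.s ∧
    (∀ σ : D.N ≃ₐ[ℚ] D.N, σ ∈ [1, D.r, D.c, D.c * D.r, D.s, D.r * D.s, D.c * D.s, D.s * D.r]) ∧
    [1, D.r, D.c, D.c * D.r, D.s, D.r * D.s, D.c * D.s, D.s * D.r].Nodup ∧
    (∀ (f : D.N →+* ℂ) x, f (D.c x) = conj (f x)) ∧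
    (∀ x, D.iE (D.bE x) = D.c (D.iE x)) ∧ (∀ x, D.iL (D.bL x) = D.c (D.iL x)) ∧
    (∀ x, D.em 0 x = D.iE x ∧ D.em 1 x = D.r (D.iE x) ∧ D.em 2 x = D.c (D.iE x) ∧
      D.em 3 x = D.c (D.r (D.iE x))) ∧
    (∀ i x, D.em i (D.bE x) = D.em (i + 2) x ∧ D.c (D.em i x) = D.em (i + 2) x ∧
      D.r (D.em i x) = D.em (![1, 0, 3, 2] i) x ∧ D.s (D.em i x) = D.em (![0, 3, 2, 1] i) x) ∧
    Function.Injective D.em ∧ Function.Injective D.ψE ∧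
    (∀ u : Fin 4 → D.N, (∀ x, ∑ i, u i * D.em i x = 0) → u = 0) ∧
    (∀ x, ((Algebra.trace ℚ D.E x : ℚ) : D.N) = ∑ i, D.em i x) ∧
    (∀ x, ((Algebra.norm ℚ x : ℚ) : D.N) = ∏ i, D.em i x) ∧
    (∀ x : D.N, D.r x = x → D.s x = x → ∃ q : ℚ, x = q) ∧
    (∀ x : D.N, D.r x = x → D.c x = x → ∃ y : D.K, x = D.iK y) ∧
    Module.finrank ℚ D.E = 4 ∧ Module.finrank ℚ D.L = 4 ∧ Module.finrank ℚ D.F = 2 ∧
    Module.finrank ℚ D.K = 2 ∧ Module.finrank D.E D.N = 2 ∧ Module.finrank D.L D.N = 2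

/-- Norms of ideals. -/
def NrmStmt : Prop :=
  ∀ (p : ℕ) [Fact p.Prime] (D : Dat p),
    (∀ I : Ideal (𝓞 D.N), D.xE (Ideal.relNorm (𝓞 D.E) I) = I * D.act D.s I ∧
      D.xL (Ideal.relNorm (𝓞 D.L) I) = I * D.act D.r I) ∧
    (∀ I : Ideal (𝓞 D.L), D.xK (Ideal.relNorm (𝓞 D.K) I) = I * D.cL' I) ∧
    Function.Injective D.xE ∧ Function.Injective D.xL ∧ Function.Injective D.xK ∧
    (∀ σ τ I, D.act (σ * τ) I = D.act σ (D.act τ I)) ∧ (∀ I, D.act 1 I = I) ∧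
    (∀ σ I I', D.act σ (I * I') = D.act σ I * D.act σ I') ∧
    (∀ a, D.act D.s (D.xE a) = D.xE a ∧ D.act D.c (D.xE a) = D.xE (D.cE' a)) ∧
    (∀ b, D.act D.r (D.xL b) = D.xL b ∧ D.act D.c (D.xL b) = D.xL (D.cL' b)) ∧
    (∀ b b', D.nE' (b * b') = D.nE' b * D.nE' b') ∧ (∀ a a', D.nL' (a * a') = D.nL' a * D.nL' a') ∧
    (∀ b, D.nE' b * D.cE' (D.nE' b) = Ideal.span {(Ideal.absNorm b : 𝓞 D.E)} ∧
      Ideal.absNorm (D.nE' b) = Ideal.absNorm b ^ 2 ∧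
      D.nL' (D.nE' b) * D.cL' b = Ideal.span {(Ideal.absNorm b : 𝓞 D.L)} * b) ∧
    (∀ a, D.nL' a * D.cL' (D.nL' a) = Ideal.span {(Ideal.absNorm a : 𝓞 D.L)} ∧
      Ideal.absNorm (D.nL' a) = Ideal.absNorm a ^ 2 ∧
      D.nE' (D.nL' a) * D.cE' a = Ideal.span {(Ideal.absNorm a : 𝓞 D.E)} * a) ∧
    (∀ z : 𝓞 D.L, ∃ y : 𝓞 D.E, D.iE y = D.iL z * D.s (D.iL z) ∧
      D.nE' (Ideal.span {z}) = Ideal.span {y} ∧
      (y : D.E) * D.bE y = Ideal.absNorm (Ideal.span {z})) ∧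
    ∀ f : Ideal (𝓞 D.K), D.nE' (D.xK f) = Ideal.span {(Ideal.absNorm f : 𝓞 D.E)}

/-- Linear algebra of frames. -/
def FrameStmt : Prop :=
  ∀ (p : ℕ) [Fact p.Prime] (D : Dat p),
    (∀ (ξ : D.E) (a : D.FE) (e : Fin 4 → D.E), D.bE ξ = -ξ → Frame ξ a e →
      a ≠ 0 ∧ ξ ≠ 0 ∧ (∀ i, e i ∈ a) ∧ LinearIndependent ℚ e ∧
      (∀ x : D.E, ∃ c : Fin 4 → ℚ, x = ∑ i, c i * e i) ∧
      (∀ x : D.E, x ∈ a ↔ ∀ y ∈ a, ∃ n : ℤ, Algebra.trace ℚ D.E (ξ * x * D.bE y) = n) ∧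
      (D.Em e)ᵀ * (diagonal ![D.em 0 ξ, D.em 1 ξ, D.em 0 ξ, D.em 1 ξ] * J4 D.N) * D.Em e = J4 D.N ∧
      D.Em e * J4 D.N * (D.Em e)ᵀ * diagonal ![D.em 0 ξ, D.em 1 ξ, D.em 0 ξ, D.em 1 ξ] = J4 D.N ∧
      (D.em 0 ξ * D.em 1 ξ * (FractionalIdeal.absNorm a : ℚ)) ^ 2 * discr D.E = 1 ∧
      (0 < (D.φ (D.em 0 ξ)).im → 0 < (D.φ (D.em 1 ξ)).im → ∃ P : Per, P.1 = D.Pm e) ∧
      (∀ y ξ' : D.E, y ≠ 0 → ξ = y * D.bE y * ξ' →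
        Frame ξ' (FractionalIdeal.spanSingleton _ y * a) fun i => y * e i) ∧
      (∀ γ : SP ℤ, Frame ξ a fun k => ∑ i, γ.1.1 i k * e i) ∧
      ∀ (a' : D.FE) (e' : Fin 4 → D.E), Frame ξ a' e' →
        ∃ γ : SP ℚ, (∀ k, e' k = ∑ i, γ.1.1 i k * e i) ∧
          ∀ n : ℕ, (∀ x ∈ a', n * x ∈ a) → ∀ i k, ∃ z : ℤ, n * γ.1.1 i k = z) ∧
    ∀ b : Ideal (𝓞 D.L), b ≠ ⊥ → D.bE (D.xi b) = -D.xi b ∧ 0 < (D.φ (D.em 0 (D.xi b))).im ∧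
      0 < (D.φ (D.em 1 (D.xi b))).im

/-- Every twisted lattice has a frame. -/
def TwStmt : Prop :=
  ∀ (p : ℕ) [Fact p.Prime] (D : Dat p) (b : Ideal (𝓞 D.L)), b ≠ ⊥ → ∃ e, Frame (D.xi b) (D.tw b) e

/-- The mean over the orbit is the mean over the class group. -/
def OrbStmt : Prop :=
  ∀ (p : ℕ) [Fact p.Prime] (D : Dat p) (S : D.Sys) (P : D.Cl → Per), (∀ x, (P x).1 = D.Pm (S.e x)) →
    (orbit D.L D.φ D.r D.ξ D.a).Finite ∧ ∀ f : A2 → ℝ,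
      mean (orbit D.L D.φ D.r D.ξ D.a) f = (∑ x, f (Quot.mk _ (P x))) / Fintype.card D.Cl

/-- Multiplication by a class moves the lattices by a quotient of two conjugate primes. -/
def IsoStmt : Prop :=
  ∀ (p : ℕ) [Fact p.Prime] (D : Dat p) (i : Fin 4), ∃ z : D.Cl, ∀ b b' : (Ideal (𝓞 D.L))⁰,
    ClassGroup.mk0 b' = ClassGroup.mk0 b * z → ∃ y : D.E, y ≠ 0 ∧ D.xi b' = y * D.bE y * D.xi b ∧
      FractionalIdeal.spanSingleton _ y * D.tw b' * ((Pp (D.ψE i) : Ideal (𝓞 D.E)) : D.FE) =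
        ((Pp (D.ψE (i + 2)) : Ideal (𝓞 D.E)) : D.FE) * D.tw b

/-- Lifts of frames. -/
def LiftStmt : Prop :=
  ∀ (p : ℕ) [Fact p.Prime],
    (∃ M : Subgroup (GG p), (M : Set (GG p)) = M0 p ∧ IsCompact (M0 p) ∧
      ∀ m ∈ M0 p, ∀ k, m * (dg p k, 1) = (dg p k, 1) * m) ∧
    ∀ (D : Dat p) (ξ : D.E) (a : D.FE) (e : Fin 4 → D.E), D.bE ξ = -ξ →
      0 < (D.φ (D.em 0 ξ)).im → 0 < (D.φ (D.em 1 ξ)).im → Frame ξ a e →
      (∃ g, D.IsLift e g) ∧ ∀ g, D.IsLift e g → (∀ m ∈ M0 p, D.IsLift e (m * g)) ∧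
        ∀ j c₀ k R K₀, g ∈ Wg p j c₀ k R K₀ → D.Ev ξ e j c₀ k (4 * (|R| + 1) ^ 2) K₀

/-- Moving a frame by a quotient of two conjugate primes above `p`. -/
def MoveStmt : Prop :=
  ∀ (p : ℕ) [Fact p.Prime] (D : Dat p) (i : Fin 4) (ξ ξ' y : D.E) (a a' : D.FE)
    (e e' : Fin 4 → D.E) (g g' : GG p), D.bE ξ = -ξ → y ≠ 0 → ξ' = y * D.bE y * ξ →
    FractionalIdeal.spanSingleton _ y * a' * ((Pp (D.ψE i) : Ideal (𝓞 D.E)) : D.FE) =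
      ((Pp (D.ψE (i + 2)) : Ideal (𝓞 D.E)) : D.FE) * a →
    Frame ξ a e → Frame ξ' a' e' → D.IsLift e g → D.IsLift e' g' →
    ∃ m ∈ M0 p, ∃ γ ∈ Gp p, (dg p (Pi.single i 1), 1) * g = m * g' * γ

/-- The measure attached to a datum. -/
def MeasStmt : Prop :=
  ∀ (p : ℕ) [Fact p.Prime] (π : XX p → YY), IsProj p π →
    ∀ (D : Dat p) (S : D.Sys), ∃ ν : Measure (XX p), IsProbabilityMeasure ν ∧
      (∀ k, ν.map (((dg p k, 1) : GG p) • ·) = ν) ∧ (orbit D.L D.φ D.r D.ξ D.a).Finite ∧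
      (∀ f : A2 →ᵇ ℝ, mean (orbit D.L D.φ D.r D.ξ D.a) f = ∫ x, f (proj (π x)) ∂ν) ∧
      ∀ j c₀ k R K₀, ν (WW p j c₀ k R K₀) ≤ ENNReal.ofReal
        (D.pr fun x => D.Ev (D.xi (S.b x)) (S.e x) j c₀ k (4 * (|R| + 1) ^ 2) K₀)

/-- The arithmetic invariants exist. -/
def AlgStmt : Prop :=
  ∀ (p : ℕ) [Fact p.Prime] (D : Dat p), Nonempty D.Ar ∧ (discr D.E).natAbs = D.Dn ^ 2 * D.Dt

/-- Every object has invariants. -/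
def InvStmt : Prop :=
  ∀ (p : ℕ) [Fact p.Prime] (D : Dat p) (A : D.Ar), ∃ j : D.FL, j ≠ 0 ∧
    ∀ (b : Ideal (𝓞 D.L)) (e : Fin 4 → D.E) (P : M4 ℤ), b ≠ ⊥ →
      Frame (D.xi b) (D.tw b) e → Ob P → ∃ t k γ g, A.Inv j b e P t k γ g

/-- The fibres of the invariants. -/
def FibStmt : Prop :=
  ∀ (p : ℕ) [Fact p.Prime] (D : Dat p) (A : D.Ar) (j : D.FL) (S : D.Sys) (t k : ℤ)
    (T : Finset (D.Cl × M4 ℤ)), j ≠ 0 →
    (∀ x ∈ T, Ob x.2 ∧ ∃ γ g, A.Inv j (S.b x.1) (S.e x.1) x.2 t k γ g) →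
    T.card ≤ Units.torsionOrder D.L * classNumber D.K *
      ((2 * t + 1).natAbs.gcd D.Dn).divisors.card * A.rr t k

open Classical in
/-- The genus condition. -/
def GenusStmt : Prop :=
  ∀ (p : ℕ) [Fact p.Prime] (D : Dat p) (A : D.Ar), ∃ Sg : ℕ → ℤ → Prop,
    (∀ (l : ℕ) x y, (l : ℤ) ∣ x - y → Sg l x → Sg l y) ∧
    (∀ l : ℕ, l.Prime → l ∣ D.Dn → 2 * ((Finset.range l).filter fun x : ℕ => Sg l x).card ≤ l + 1) ∧
    ∀ j b e P t k γ g, A.Inv j b e P t k γ g → ∀ l : ℕ, l.Prime → l ∣ D.Dn → (l : ℤ) ∣ 2 * t + 1 →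
      Sg l ((A.nn t k + A.c * A.dl t) / l)

end Pool.Agent.Lib.MP_9177b7_ag.S4
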