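import Pool.Agent.Lib.MP_9177b7_ag.S4.StC
import Pool.Agent.Lib.MP_9177b7_ag.S4.StI

/-!
From lattices to the sieve problem, and the theorem: statements.
-/

open NumberField Matrix MeasureTheory Filter Topology Pool.Agent.Shared.PrimeZeta
open scoped nonZeroDivisors ComplexConjugate ENNReal BoundedContinuousFunction

noncomputable section

namespace Pool.Agent.Lib.MP_9177b7_ag.S4

namespace Dat.Ar

variable {p : ℕ} [Fact p.Prime] {D : Dat p} (A : D.Ar)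

/-- The number of ideals of norm `q` modulo which `θ` is congruent to `x`. -/
def rho (q x : ℕ) : ℕ :=
  Nat.card {Q : Ideal (𝓞 D.L) //
    Ideal.absNorm Q = q ∧ algebraMap (𝓞 D.K) (𝓞 D.L) A.θ - (x : 𝓞 D.L) ∈ Q}

/-- The integer data `S` are those of `A`. -/
structure Match (S : SD p) : Prop where
  hD : S.D = D.Dn
  hDt : S.Dt = D.Dt
  hd : S.d₀ = A.d₀
  hc : S.c = A.c
  hm : S.m = A.m
  ha : S.a = nI D.L
  hb : S.b = nI D.K
  hρ : S.ρ = A.rho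

theorem Match.dl {A : D.Ar} {S : SD p} (h : A.Match S) (t : ℤ) : S.dl t = A.dl t := by
  rw [SD.dl, h.hd, Ar.dl]

theorem Match.nn {A : D.Ar} {S : SD p} (h : A.Match S) (t k : ℤ) : S.nn t k = A.nn t k := by
  rw [SD.nn, h.dl, h.hc, h.hD, Ar.nn]

theorem Match.QQ {A : D.Ar} {S : SD p} (h : A.Match S) (t k : ℤ) : S.QQ t k = A.QQ t k := by
  rw [SD.QQ, h.dl, h.hc, h.hD, h.hm, Ar.QQ]

end Dat.Ar

open Classical in
/-- The integer data exist. -/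
def LocStmt : Prop :=
  ∀ (p : ℕ) [Fact p.Prime] (D : Dat p) (A : D.Ar) (Sg : ℕ → ℤ → Prop),
    (∀ (l : ℕ) x y, (l : ℤ) ∣ x - y → Sg l x → Sg l y) →
    (∀ l : ℕ, l.Prime → l ∣ D.Dn →
      2 * ((Finset.range l).filter fun x : ℕ => Sg l x).card ≤ l + 1) →
    ∃ S : SD p, A.Match S ∧ S.Sg = Sg

/-- The bound for the number of ideals of given relative norm. -/
def RepStmt : Prop :=
  ∀ (p : ℕ) [Fact p.Prime] (D : Dat p) (A : D.Ar) (S : SD p) (t k : ℤ), A.Match S →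
    (∀ l : ℕ, l.Prime → l ∣ D.Dn → (l : ℤ) ∣ 2 * t + 1 →
      S.Sg l ((A.nn t k + A.c * A.dl t) / l)) →
    ((((2 * t + 1).natAbs.gcd D.Dn).divisors.card * A.rr t k : ℕ) : ℝ) ≤ S.W t k

/-- Sizes and congruences of the invariants of good objects. -/
def SizeStmt : Prop :=
  ∀ (p : ℕ) [Fact p.Prime] (D : Dat p) (A : D.Ar) (S : SD p) (j : Fin 3) (c₀ : ℤ) (K : ℕ) (R : ℝ)
    (U : Finset (ℤ × ℤ)), p ≠ 2 → A.Match S →
    (∀ u ∈ U, ∃ J b e P γ g, A.Inv J b e P u.1 u.2 γ g ∧ D.Good (D.xi b) e j c₀ K R P) →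
    S.Reg (2 * R + 1) K U

open Classical in
/-- From classes with many good objects to the weights. -/
def SumStmt : Prop :=
  ∀ (p : ℕ) [Fact p.Prime] (D : Dat p) (A : D.Ar) (Sy : D.Sys) (j : Fin 3) (c₀ : ℤ) (K : ℕ) (R : ℝ)
    (K₀ : ℕ), p ≠ 2 → ∃ (S : SD p) (U : Finset (ℤ × ℤ)), A.Match S ∧ S.Reg (2 * R + 1) K U ∧
      (K₀ * (Finset.univ.filter fun x => D.Ev (D.xi (Sy.b x)) (Sy.e x) j c₀ K R K₀).card : ℝ) ≤
        Units.torsionOrder D.L * classNumber D.K * ∑ u ∈ U, S.W u.1 u.2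

/-- The arithmetic estimate. -/
def CountStmt : Prop :=
  ∀ (p : ℕ) [Fact p.Prime] (R : ℝ), p ≠ 2 → ∃ C : ℝ, ∀ K : ℕ, 2 ≤ K → ∃ D₀ : ℕ, ∀ D : Dat p,
    D₀ ≤ D.Dn → ∀ (Sy : D.Sys) (j : Fin 3) (c₀ : ℤ) (K₀ : ℕ), 1 ≤ K₀ →
      (D.pr fun x => D.Ev (D.xi (Sy.b x)) (Sy.e x) j c₀ K R K₀) ≤
        C * (p : ℝ) ^ (-(K : ℝ) / 2) / K₀

/-- The theorem. -/
def FinalStmt : Prop :=
  ∀ (p : ℕ) [Fact p.Prime], p ≠ 2 →
    ∀ (E L N : ℕ → Type) [∀ m, Field (E m)] [∀ m, NumberField (E m)] [∀ m, IsCMField (E m)]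
      [∀ m, Field (L m)] [∀ m, NumberField (L m)] [∀ m, IsCMField (L m)]
      [∀ m, Field (N m)] [∀ m, NumberField (N m)] [∀ m, Algebra (E m) (N m)]
      [∀ m, Algebra (L m) (N m)] (φ : ∀ m, N m →+* ℂ) (r s : ∀ m, N m ≃ₐ[ℚ] N m)
      (ξ : ∀ m, E m) (a : ∀ m, FractionalIdeal (𝓞 (E m))⁰ (E m)),
      (∀ m, Special (L m) p (φ m) (r m) (s m) (ξ m) (a m)) →
      Tendsto (fun m => (discr (maximalRealSubfield (E m))).natAbs) atTop atTop →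
      (∀ m, (orbit (L m) (φ m) (r m) (ξ m) (a m)).Finite) ∧
      ∃ μ : @Measure YY (borel _),
        (∀ ν : @Measure YY (borel _), (ν Set.univ = 1 ∧
          ∀ g : SP ℝ, @Measure.map _ _ (borel _) (borel _) (g • ·) ν = ν) ↔ ν = μ) ∧
        ∀ f : A2 →ᵇ ℝ, Tendsto (fun m => mean (orbit (L m) (φ m) (r m) (ξ m) (a m)) f) atTop
          (𝓝 (∫ y, f (proj y) ∂μ))

theorem Dat.sys (hT : TwStmt) {p : ℕ} [Fact p.Prime] (D : Dat p) : Nonempty D.Sys := by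
  choose b hb using ClassGroup.mk0_surjective (R := 𝓞 D.L)
  choose e he using fun x => hT p D (b x) (nonZeroDivisors.ne_zero (b x).2)
  exact ⟨⟨b, e, hb, he⟩⟩

theorem main (hT : TwStmt) (hP : ProjStmt) (hM : MeasStmt) (hC : CountStmt) (hE : EquiStmt)
    (p : ℕ) [Fact p.Prime] (hp : p ≠ 2) (D : ℕ → Dat p)
    (hlim : Tendsto (fun m => (D m).Dn) atTop atTop) :
    (∀ m, (orbit (D m).L (D m).φ (D m).r (D m).ξ (D m).a).Finite) ∧
      ∃ μ : @Measure YY (borel _),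
        (∀ ν : @Measure YY (borel _), (ν Set.univ = 1 ∧
          ∀ g : SP ℝ, @Measure.map _ _ (borel _) (borel _) (g • ·) ν = ν) ↔ ν = μ) ∧
        ∀ f : A2 →ᵇ ℝ, Tendsto (fun m => mean (orbit (D m).L (D m).φ (D m).r (D m).ξ (D m).a) f)
          atTop (𝓝 (∫ y, f (proj y) ∂μ)) := by
  have S : ∀ m, (D m).Sys := fun m => ((D m).sys hT).some
  obtain ⟨π, hπ⟩ := hP.1 p
  choose ν hν hA hfin hmean hW using fun m => hM p π hπ (D m) (S m)
  obtain ⟨μ, h1, h2⟩ := hE p π ν hp hπ hν hA fun R => by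
    obtain ⟨C, h⟩ := hC p (4 * (|R| + 1) ^ 2) hp
    refine ⟨C, fun k K₀ hk hK => ?_⟩
    obtain ⟨D₀, h⟩ := h k hk
    filter_upwards [hlim.eventually_ge_atTop D₀] with m hm j c₀
    exact (hW m j c₀ k R K₀).trans (ENNReal.ofReal_le_ofReal (h _ hm (S m) j c₀ K₀ hK))
  refine ⟨hfin, μ, h1, fun f => ?_⟩
  simp only [hmean]
  exact h2 (f.compContinuous ⟨proj, hP.2.1⟩)

theorem fin (hT : TwStmt) (hP : ProjStmt) (hM : MeasStmt) (hC : CountStmt) (hE : EquiStmt) :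
    FinalStmt := fun p _ hp E L N _ _ _ _ _ _ _ _ _ _ φ r s ξ a sp hlim =>
  main hT hP hM hC hE p hp
    (fun m => ⟨E m, L m, N m, φ m, r m, s m, ξ m, a m, sp m, (sp m).split.some⟩) hlim

end Pool.Agent.Lib.MP_9177b7_ag.S4
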