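import Pool.Agent.Lib.MP_9177b7_ag.S4.Rel

/-!
Statements of the steps of the measure classification for `Sp_4(ℚ_p)`.
-/

open MeasureTheory ProbabilityTheory

namespace Pool.Agent.Lib.MP_9177b7_ag.S4

open B (IsCond)

/-- Two orthogonal short roots give the long root between them. -/
def EK1Stmt : Prop :=
  ∀ (p : ℕ) [Fact p.Prime] (S : Sp p) (ν : Measure S.X) [IsProbabilityMeasure ν] (a b : Fin 4)
    (c : Ch a b) (κ₁ κ₂ κ₃ : Kernel S.X (HQ p)), p ≠ 2 → S.AInv ν → IsCond (U p c.1) ν κ₁ →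
    IsCond (U p c.2) ν κ₂ → IsCond (U p (n2 a)) ν κ₃ →
    ∀ᵐ x ∂ν, κ₁ x ≠ Measure.dirac 1 → κ₂ x ≠ Measure.dirac 1 →
      ∀ u ∈ U p (n2 a), (κ₃ x).map (u * ·) = κ₃ x

/-- A short and a long root at an obtuse angle give their sum. -/
def EK2Stmt : Prop :=
  ∀ (p : ℕ) [Fact p.Prime] (S : Sp p) (ν : Measure S.X) [IsProbabilityMeasure ν] (a b : Fin 4)
    (c : Ch a b) (κ₁ κ₂ κ₃ : Kernel S.X (HQ p)), S.AInv ν → IsCond (U p c.1) ν κ₁ →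
    IsCond (U p (n2 b)) ν κ₂ → IsCond (U p c.2) ν κ₃ →
    ∀ᵐ x ∂ν, κ₁ x ≠ Measure.dirac 1 → κ₂ x ≠ Measure.dirac 1 →
      ∀ u ∈ U p c.2, (κ₃ x).map (u * ·) = κ₃ x

/-- A relative section for the Heisenberg radical. -/
def SecKStmt : Prop :=
  ∀ (p : ℕ) [Fact p.Prime] (S : Sp p) (ν : Measure S.X) [IsProbabilityMeasure ν] (a b : Fin 4)
    (c : Ch a b) (κ₁ κ₂ : Kernel S.X (HQ p)), S.AInv ν → IsCond (U p c.1) ν κ₁ →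
    IsCond (U p c.2) ν κ₂ → ∃ Z : Set S.X, MeasurableSet Z ∧
      (∀ᵐ x ∂ν, κ₁ x = Measure.dirac 1 → κ₂ x = Measure.dirac 1 → x ∈ Z) ∧
      ∀ g ∈ N p (kK a), ∀ x ∈ Z, g • x ∈ Z → g ∈ U p (n2 a)

/-- A relative section for the abelian radical. -/
def SecSStmt : Prop :=
  ∀ (p : ℕ) [Fact p.Prime] (S : Sp p) (ν : Measure S.X) [IsProbabilityMeasure ν] (a b : Fin 4)
    (c : Ch a b) (κ₁ κ₂ : Kernel S.X (HQ p)), S.AInv ν → IsCond (U p (n2 a)) ν κ₁ →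
    IsCond (U p (n2 b)) ν κ₂ → ∃ Z : Set S.X, MeasurableSet Z ∧
      (∀ᵐ x ∂ν, κ₁ x = Measure.dirac 1 → κ₂ x = Measure.dirac 1 → x ∈ Z) ∧
      ∀ g ∈ N p (kS a b), ∀ x ∈ Z, g • x ∈ Z → g ∈ U p c.2

end Pool.Agent.Lib.MP_9177b7_ag.S4
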